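import Pool.Agent.R882.Sphere

/-!
Definitions: the surface `F_0 = P1 × P1`, blow-ups of complex surfaces, Kähler metrics on complex
surfaces and their holomorphic sectional curvature.
-/

set_option autoImplicit false

open scoped Manifold ContDiff ComplexConjugate

namespace Pool.Agent.R882

noncomputable section

/-! ### The Hirzebruch surface `F_0 = P1 × P1` -/

/-- The Hirzebruch surface `F_0`, the product of two Riemann spheres. -/
def F0 : Type := P1 × P1

instance : TopologicalSpace F0 := inferInstanceAs (TopologicalSpace (P1 × P1))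

/-- The powers of the automorphism `(a, b) ↦ (1 / b, a)` of `F_0`. -/
def rot (k : Fin 4) (q : F0) : F0 :=
  match k with
  | 0 => (q.1, q.2)
  | 1 => (rcp q.2, q.1)
  | 2 => (rcp q.1, rcp q.2)
  | 3 => (q.2, rcp q.1)

theorem rot_rot (k l : Fin 4) (q : F0) : rot k (rot l q) = rot (k + l) q := by
  fin_cases k <;> fin_cases l <;> simp [rot] <;> rfl

theorem continuous_rot (k : Fin 4) : Continuous (rot k) := by
  have h := continuous_rcp
  have ha : Continuous fun q : P1 × P1 => q.1 := continuous_fst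
  have hb : Continuous fun q : P1 × P1 => q.2 := continuous_snd
  fin_cases k
  · exact ha.prodMk hb
  · exact (h.comp hb).prodMk ha
  · exact (h.comp ha).prodMk (h.comp hb)
  · exact hb.prodMk (h.comp ha)

/-- The powers of the automorphism `(a, b) ↦ (1 / b, a)` of `F_0`, as homeomorphisms. -/
def rotHomeo (k : Fin 4) : F0 ≃ₜ F0 where
  toFun := rot k
  invFun := rot (-k)
  left_inv q := by
    rw [rot_rot, neg_add_cancel]
    rfl
  right_inv q := by
    rw [rot_rot, add_neg_cancel]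
    rfl
  continuous_toFun := continuous_rot k
  continuous_invFun := continuous_rot (-k)

/-- The chart `(a, b)` of `F_0`, defined where `a` and `b` are finite. -/
def f0 : OpenPartialHomeomorph F0 (ℂ × ℂ) where
  toFun q := (toC q.1, toC q.2)
  invFun z := ((z.1 : P1), (z.2 : P1))
  source := {q | q.1 ≠ OnePoint.infty ∧ q.2 ≠ OnePoint.infty}
  target := Set.univ
  map_source' _ _ := trivial
  map_target' z _ := ⟨OnePoint.coe_ne_infty _, OnePoint.coe_ne_infty _⟩
  left_inv' := by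
    rintro ⟨a, b⟩ ⟨ha, hb⟩
    exact Prod.ext (coe_toC ha) (coe_toC hb)
  right_inv' z _ := by simp
  continuousOn_toFun :=
    (continuousOn_toC.comp continuous_fst.continuousOn fun q hq => hq.1).prodMk
      (continuousOn_toC.comp continuous_snd.continuousOn fun q hq => hq.2)
  continuousOn_invFun := ((OnePoint.continuous_coe.comp continuous_fst).prodMk
    (OnePoint.continuous_coe.comp continuous_snd)).continuousOn
  open_source := (isOpen_ne_infty.preimage continuous_fst).inter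
    (isOpen_ne_infty.preimage continuous_snd)
  open_target := isOpen_univ

/-- The four charts `(a, b)`, `(1 / b, a)`, `(1 / a, 1 / b)`, `(b, 1 / a)` of `F_0`. -/
def fcht (k : Fin 4) : OpenPartialHomeomorph F0 (ℂ × ℂ) :=
  (rotHomeo k).transOpenPartialHomeomorph f0

theorem mem_fcht_source (k : Fin 4) (q : F0) :
    q ∈ (fcht k).source ↔ (rot k q).1 ≠ OnePoint.infty ∧ (rot k q).2 ≠ OnePoint.infty := Iff.rfl

theorem exists_fcht (q : F0) : ∃ k : Fin 4, q ∈ (fcht k).source := by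
  obtain ⟨a, b⟩ := q
  have h : ∀ a : P1, a ≠ OnePoint.infty ∨ rcp a ≠ OnePoint.infty := by
    intro a
    by_cases h : a = OnePoint.infty
    · right
      rw [h, rcp_infty]
      exact OnePoint.coe_ne_infty _
    · exact Or.inl h
  rcases h a with ha | ha <;> rcases h b with hb | hb
  · exact ⟨0, (mem_fcht_source _ _).2 ⟨ha, hb⟩⟩
  · exact ⟨1, (mem_fcht_source _ _).2 ⟨hb, ha⟩⟩
  · exact ⟨3, (mem_fcht_source _ _).2 ⟨hb, ha⟩⟩
  · exact ⟨2, (mem_fcht_source _ _).2 ⟨ha, hb⟩⟩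

/-- The complex structure of `F_0 = P1 × P1`, given by the charts `(a, b)`, `(1 / b, a)`,
`(1 / a, 1 / b)`, `(b, 1 / a)`. -/
instance : ChartedSpace (ℂ × ℂ) F0 where
  atlas := Set.range fcht
  chartAt q := fcht (exists_fcht q).choose
  mem_chart_source q := (exists_fcht q).choose_spec
  chart_mem_atlas _ := ⟨_, rfl⟩

/-! ### Blow-ups -/

/-- The map `π : M → N` of complex surfaces is the blow-up of `N` in the points of the set `S`.

Every point of `N` which is not in `S` has a coordinate neighbourhood over which `π` is an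
isomorphism. Every point `p` of `S` has a neighbourhood with coordinates `φ = (x, y)`, centred at
`p`, such that the part of `M` over this neighbourhood is covered by two coordinate neighbourhoods
with coordinates `(x, m)`, `(m', y)`, and `π` is `(x, m) ↦ (x, x m)`, `(m', y) ↦ (m' y, y)`. The
intersection of the two neighbourhoods is given by `m ≠ 0` in the first one, and there
`m' m = 1`. -/
structure IsBlowUp {M N : Type} [TopologicalSpace M] [ChartedSpace (ℂ × ℂ) M]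
    [TopologicalSpace N] [ChartedSpace (ℂ × ℂ) N] (π : M → N) (S : Set N) : Prop where
  outside : ∀ y, y ∉ S → ∃ φ ∈ IsManifold.maximalAtlas 𝓘(ℂ, ℂ × ℂ) ω N,
    ∃ ψ ∈ IsManifold.maximalAtlas 𝓘(ℂ, ℂ × ℂ) ω M, y ∈ φ.source ∧ π ⁻¹' φ.source = ψ.source ∧
      ψ.target = φ.target ∧ ∀ q ∈ ψ.source, φ (π q) = ψ q
  inside : ∀ p ∈ S, ∃ φ ∈ IsManifold.maximalAtlas 𝓘(ℂ, ℂ × ℂ) ω N,
    ∃ ψ₁ ∈ IsManifold.maximalAtlas 𝓘(ℂ, ℂ × ℂ) ω M,
    ∃ ψ₂ ∈ IsManifold.maximalAtlas 𝓘(ℂ, ℂ × ℂ) ω M,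
      p ∈ φ.source ∧ φ p = 0 ∧ π ⁻¹' φ.source = ψ₁.source ∪ ψ₂.source ∧
      ψ₁.target = {w | (w.1, w.1 * w.2) ∈ φ.target} ∧
      ψ₂.target = {w | (w.1 * w.2, w.2) ∈ φ.target} ∧
      (∀ q ∈ ψ₁.source, φ (π q) = ((ψ₁ q).1, (ψ₁ q).1 * (ψ₁ q).2)) ∧
      (∀ q ∈ ψ₂.source, φ (π q) = ((ψ₂ q).1 * (ψ₂ q).2, (ψ₂ q).2)) ∧
      (∀ q ∈ ψ₁.source, q ∈ ψ₂.source ↔ (ψ₁ q).2 ≠ 0) ∧
      (∀ q ∈ ψ₁.source, q ∈ ψ₂.source → (ψ₂ q).1 * (ψ₁ q).2 = 1)

/-! ### Kähler metrics -/

/-- The standard basis of `ℂ²`. -/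
def bas (k : Fin 2) : ℂ × ℂ := if k = 0 then (1, 0) else (0, 1)

/-- The coordinates of a vector in `ℂ²`. -/
def crd (k : Fin 2) (z : ℂ × ℂ) : ℂ := if k = 0 then z.1 else z.2

/-- The derivative `∂f / ∂z_k`. -/
def dz (k : Fin 2) (f : ℂ × ℂ → ℂ) (z : ℂ × ℂ) : ℂ :=
  (fderiv ℝ f z (bas k) - Complex.I * fderiv ℝ f z (Complex.I • bas k)) / 2

/-- The derivative `∂f / ∂z̄_k`. -/
def dzb (k : Fin 2) (f : ℂ × ℂ → ℂ) (z : ℂ × ℂ) : ℂ :=
  (fderiv ℝ f z (bas k) + Complex.I * fderiv ℝ f z (Complex.I • bas k)) / 2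

/-- The value `∑ g_{i j} v_i v̄_j` of a Hermitian form. -/
def sq (g : Fin 2 → Fin 2 → ℂ) (v : Fin 2 → ℂ) : ℝ :=
  (∑ i, ∑ j, g i j * v i * conj (v j)).re

/-- A Kähler metric on a complex surface `M`: in every chart `e` of the atlas a matrix of smooth
functions `g_{i j}` (`coeff e i j`, the product of `∂/∂z_i` and `∂/∂z_j`), which is Hermitian and
positive definite, such that `∂g_{i j} / ∂z_k = ∂g_{k j} / ∂z_i`, and which is transformed in the
usual way under the change of charts. -/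
structure KahlerMetric (M : Type) [TopologicalSpace M] [ChartedSpace (ℂ × ℂ) M] where
  /-- The coefficients in the chart. -/
  coeff : OpenPartialHomeomorph M (ℂ × ℂ) → Fin 2 → Fin 2 → ℂ × ℂ → ℂ
  smooth : ∀ e ∈ atlas (ℂ × ℂ) M, ∀ i j, ContDiffOn ℝ ∞ (coeff e i j) e.target
  herm : ∀ e ∈ atlas (ℂ × ℂ) M, ∀ z ∈ e.target, ∀ i j, coeff e j i z = conj (coeff e i j z)
  pos : ∀ e ∈ atlas (ℂ × ℂ) M, ∀ z ∈ e.target, ∀ v : Fin 2 → ℂ, v ≠ 0 →
    0 < sq (fun i j => coeff e i j z) v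
  closed : ∀ e ∈ atlas (ℂ × ℂ) M, ∀ z ∈ e.target, ∀ i j k,
    dz k (coeff e i j) z = dz i (coeff e k j) z
  transform : ∀ e ∈ atlas (ℂ × ℂ) M, ∀ e' ∈ atlas (ℂ × ℂ) M, ∀ z ∈ e.target,
    e.symm z ∈ e'.source → ∀ i j, coeff e i j z =
      ∑ k, ∑ l, dz i (fun w => crd k (e' (e.symm w))) z *
        conj (dz j (fun w => crd l (e' (e.symm w))) z) * coeff e' k l (e' (e.symm z))

/-- The curvature `R_{i j̄ k l̄} = - ∂²g_{i j̄} / ∂z_k ∂z̄_l + ∑ g^{p q̄} ∂g_{i q̄}/∂z_k ∂g_{p j̄}/∂z̄_l`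
of the Chern connection, where `(g^{p q̄})` is the transposed inverse matrix of `(g_{p q̄})`. -/
def curv (g : Fin 2 → Fin 2 → ℂ × ℂ → ℂ) (i j k l : Fin 2) (z : ℂ × ℂ) : ℂ :=
  -dz k (dzb l (g i j)) z +
    ∑ p, ∑ q, (Matrix.of fun a b => g a b z)⁻¹ q p * dz k (g i q) z * dzb l (g p j) z

/-- The holomorphic sectional curvature `R(v, v̄, v, v̄) / g(v, v̄)²`. -/
def hsc (g : Fin 2 → Fin 2 → ℂ × ℂ → ℂ) (z : ℂ × ℂ) (v : Fin 2 → ℂ) : ℝ :=
  (∑ i, ∑ j, ∑ k, ∑ l, curv g i j k l z * v i * conj (v j) * v k * conj (v l)).re /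
    sq (fun i j => g i j z) v ^ 2

/-- The holomorphic sectional curvature of the metric is positive, at all points `p` and for all
tangent vectors `v ≠ 0`; it is computed in the chart at `p`. -/
def KahlerMetric.PositiveHSC {M : Type} [TopologicalSpace M] [ChartedSpace (ℂ × ℂ) M]
    (g : KahlerMetric M) : Prop :=
  ∀ p : M, ∀ v : Fin 2 → ℂ, v ≠ 0 →
    0 < hsc (g.coeff (chartAt (ℂ × ℂ) p)) (chartAt (ℂ × ℂ) p p) v

end

end Pool.Agent.R882
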