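import Pool.Agent.R882.Surface
import Pool.Agent.R882.Defs

/-!
The surface `abc = 1` is the blow-up of `P1 × P1` in two points.
-/

set_option autoImplicit false

open scoped Manifold ContDiff

namespace Pool.Agent.R882

noncomputable section

/-! ### The manifold structure of `F_0` -/

theorem fcht_target (k : Fin 4) : (fcht k).target = Set.univ := by
  simp [fcht, Homeomorph.transOpenPartialHomeomorph, f0]

theorem fcht_apply (k : Fin 4) (q : F0) : fcht k q = (toC (rot k q).1, toC (rot k q).2) := rfl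

theorem f0_symm_val (z : ℂ × ℂ) : f0.symm z = ((z.1 : P1), (z.2 : P1)) := rfl

theorem rot_symm (k l : Fin 4) (q : F0) : rot l ((rotHomeo k).symm q) = rot (l - k) q := by
  change rot l (rot (-k) q) = rot (l - k) q
  rw [rot_rot, sub_eq_add_neg]

/-- The transition maps of `F_0`. -/
def ftau (m : Fin 4) (z : ℂ × ℂ) : ℂ × ℂ :=
  match m with
  | 0 => (z.1, z.2)
  | 1 => (z.2⁻¹, z.1)
  | 2 => (z.1⁻¹, z.2⁻¹)
  | 3 => (z.2, z.1⁻¹)

/-- The domains of the transition maps of `F_0`. -/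
def ftdom (m : Fin 4) : Set (ℂ × ℂ) :=
  match m with
  | 0 => Set.univ
  | 1 => {z | z.2 ≠ 0}
  | 2 => {z | z.1 ≠ 0 ∧ z.2 ≠ 0}
  | 3 => {z | z.1 ≠ 0}

theorem mem_fsource_trans (k l : Fin 4) (z : ℂ × ℂ) :
    (fcht k).symm z ∈ (fcht l).source ↔ z ∈ ftdom (l - k) := by
  have h1 : rot l ((fcht k).symm z) = rot (l - k) (f0.symm z) := rot_symm k l (f0.symm z)
  rw [mem_fcht_source, h1, f0_symm_val]
  generalize l - k = m
  fin_cases m <;> simp [rot, ftdom, rcp_coe_ne_infty]

theorem ftrans_apply (k l : Fin 4) (z : ℂ × ℂ) : fcht l ((fcht k).symm z) = ftau (l - k) z := by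
  have h1 : rot l ((fcht k).symm z) = rot (l - k) (f0.symm z) := rot_symm k l (f0.symm z)
  rw [fcht_apply, h1, f0_symm_val]
  generalize l - k = m
  fin_cases m <;> simp [rot, ftau, toC_rcp]

theorem contDiffOn_ftau (m : Fin 4) : ContDiffOn ℂ (⊤ : WithTop ℕ∞) (ftau m) (ftdom m) := by
  have hx : ∀ s : Set (ℂ × ℂ), ContDiffOn ℂ (⊤ : WithTop ℕ∞) (fun z : ℂ × ℂ => z.1) s :=
    fun s => contDiff_fst.contDiffOn
  have hy : ∀ s : Set (ℂ × ℂ), ContDiffOn ℂ (⊤ : WithTop ℕ∞) (fun z : ℂ × ℂ => z.2) s :=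
    fun s => contDiff_snd.contDiffOn
  fin_cases m
  · exact (hx _).prodMk (hy _)
  · exact ((hy _).inv fun z hz => hz).prodMk (hx _)
  · exact ((hx _).inv fun z hz => hz.1).prodMk ((hy _).inv fun z hz => hz.2)
  · exact (hy _).prodMk ((hx _).inv fun z hz => hz)

instance : IsManifold 𝓘(ℂ, ℂ × ℂ) ω F0 := by
  apply isManifold_of_contDiffOn
  rintro e e' ⟨k, rfl⟩ ⟨l, rfl⟩
  have h1 : (𝓘(ℂ, ℂ × ℂ) ∘ (fcht k).symm ≫ₕ fcht l ∘ 𝓘(ℂ, ℂ × ℂ).symm) = ftau (l - k) := by
    funext z
    exact ftrans_apply k l z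
  have h2 : (𝓘(ℂ, ℂ × ℂ).symm ⁻¹' ((fcht k).symm ≫ₕ fcht l).source ∩
      Set.range 𝓘(ℂ, ℂ × ℂ)) ⊆ ftdom (l - k) := by
    rintro z ⟨hz, -⟩
    have hz' : z ∈ ((fcht k).symm ≫ₕ fcht l).source := hz
    rw [OpenPartialHomeomorph.trans_source] at hz'
    exact (mem_fsource_trans k l z).1 hz'.2
  rw [h1]
  exact (contDiffOn_ftau (l - k)).mono h2

theorem fcht_mem (k : Fin 4) : fcht k ∈ IsManifold.maximalAtlas 𝓘(ℂ, ℂ × ℂ) ω F0 :=
  IsManifold.subset_maximalAtlas ⟨k, rfl⟩

theorem cht_mem (k : Fin 6) : cht k ∈ IsManifold.maximalAtlas 𝓘(ℂ, ℂ × ℂ) ω X :=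
  IsManifold.subset_maximalAtlas ⟨k, rfl⟩

/-! ### The blow-up -/

/-- The projection `(a, b, c) ↦ (a, b)`. -/
def pr (q : X) : F0 := (q.1.1, q.1.2.1)

/-- The centre `(0, ∞)` of the blow-up. -/
def c1 : F0 := (((0 : ℂ) : P1), OnePoint.infty)

/-- The centre `(∞, 0)` of the blow-up. -/
def c2 : F0 := (OnePoint.infty, ((0 : ℂ) : P1))

theorem nm_eq_zero {a : P1} : nm a = 0 ↔ a = ((0 : ℂ) : P1) := by
  induction a using OnePoint.rec with
  | infty => simp
  | coe z => simp

theorem dn_eq_zero {a : P1} : dn a = 0 ↔ a = OnePoint.infty := by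
  induction a using OnePoint.rec with
  | infty => simp
  | coe z => simp

theorem rel_infty {a b c : P1} (h : Rel (a, b, c)) (ha : a = OnePoint.infty) :
    b = ((0 : ℂ) : P1) ∨ c = ((0 : ℂ) : P1) := by
  subst ha
  have h1 : nm b * nm c = 0 := by simpa [Rel] using h
  rcases mul_eq_zero.1 h1 with h2 | h2
  · exact Or.inl (nm_eq_zero.1 h2)
  · exact Or.inr (nm_eq_zero.1 h2)

theorem rel_zero {a b c : P1} (h : Rel (a, b, c)) (ha : a = ((0 : ℂ) : P1)) :
    b = OnePoint.infty ∨ c = OnePoint.infty := by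
  subst ha
  have h1 : dn b * dn c = 0 := by
    have : 0 = dn b * dn c := by simpa [Rel] using h
    exact this.symm
  rcases mul_eq_zero.1 h1 with h2 | h2
  · exact Or.inl (dn_eq_zero.1 h2)
  · exact Or.inr (dn_eq_zero.1 h2)

theorem zero_ne_infty : ((0 : ℂ) : P1) ≠ OnePoint.infty := OnePoint.coe_ne_infty _

theorem cht_symm_val (k : Fin 6) (z : ℂ × ℂ) :
    ((cht k).symm z).1 = act3 (-k) ((z.1 : P1), (z.2 : P1), rcp ((z.1 * z.2 : ℂ) : P1)) := rfl

theorem pr_symm (j : Fin 4) (k : Fin 6) {q : X} (hq : q ∈ (cht k).source) {f : ℂ × ℂ → ℂ × ℂ}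
    (h : ∀ z, fcht j (pr ((cht k).symm z)) = f z) : fcht j (pr q) = f (cht k q) := by
  rw [← h, (cht k).left_inv hq]

theorem fcht1_pr (q : X) : fcht 1 (pr q) = (toC (rcp q.1.2.1), toC q.1.1) := rfl

theorem fcht3_pr (q : X) : fcht 3 (pr q) = (toC q.1.2.1, toC (rcp q.1.1)) := rfl

theorem mem_next (k l : Fin 6) (hkl : l - k = 1) {q : X} (hq : q ∈ (cht k).source) :
    q ∈ (cht l).source ↔ (cht k q).2 ≠ 0 := by
  have h := mem_source_trans k l (cht k q)
  rw [(cht k).left_inv hq, hkl] at h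
  exact h

theorem next_mul (k l : Fin 6) (hkl : l - k = 1) {q : X} (hq : q ∈ (cht k).source)
    (hq' : q ∈ (cht l).source) : (cht l q).1 * (cht k q).2 = 1 := by
  have h0 := (mem_next k l hkl hq).1 hq'
  have h := trans_apply k l (cht k q)
  rw [(cht k).left_inv hq, hkl] at h
  rw [h]
  exact inv_mul_cancel₀ h0

theorem isBlowUp_pr : IsBlowUp pr {c1, c2} where
  outside := by
    rintro ⟨a, b⟩ hy
    have h1 : (a ≠ OnePoint.infty ∧ b ≠ OnePoint.infty) ∨
        (a ≠ ((0 : ℂ) : P1) ∧ b ≠ ((0 : ℂ) : P1)) := by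
      by_contra hc
      push Not at hc
      apply hy
      by_cases ha : a = OnePoint.infty
      · have hb := hc.2 (by rw [ha]; exact zero_ne_infty.symm)
        rw [ha, hb]
        exact Or.inr rfl
      · have hb := hc.1 ha
        have ha' : a = ((0 : ℂ) : P1) := by
          by_contra ha'
          have := hc.2 ha'
          rw [hb] at this
          exact zero_ne_infty this.symm
        rw [ha', hb]
        exact Or.inl rfl
    rcases h1 with h1 | h1
    · refine ⟨fcht 0, fcht_mem 0, cht 0, cht_mem 0, (mem_fcht_source _ _).2 h1, ?_, ?_, ?_⟩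
      · rfl
      · rw [fcht_target, cht_target]
      · intro q _
        rfl
    · refine ⟨fcht 2, fcht_mem 2, cht 3, cht_mem 3, (mem_fcht_source _ _).2 ?_, ?_, ?_, ?_⟩
      · exact ⟨rcp_ne_infty_iff.2 h1.1, rcp_ne_infty_iff.2 h1.2⟩
      · rfl
      · rw [fcht_target, cht_target]
      · intro q _
        rfl
  inside := by
    rintro p (rfl | rfl)
    · refine ⟨fcht 1, fcht_mem 1, cht 1, cht_mem 1, cht 2, cht_mem 2, ?_, ?_, ?_, ?_, ?_, ?_, ?_,
        fun q hq => mem_next 1 2 rfl hq, fun q hq hq' => next_mul 1 2 rfl hq hq'⟩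
      · exact (mem_fcht_source _ _).2 ⟨rcp_ne_infty_iff.2 zero_ne_infty.symm, zero_ne_infty⟩
      · change (toC (rcp OnePoint.infty), toC ((0 : ℂ) : P1)) = 0
        simp
      · refine Set.ext fun q => ?_
        have h : Rel (q.1.1, q.1.2.1, q.1.2.2) := q.2
        have e1 : q ∈ pr ⁻¹' (fcht 1).source ↔
          (q.1.2.1 ≠ ((0 : ℂ) : P1) ∧ q.1.1 ≠ OnePoint.infty) :=
          and_congr_left' rcp_ne_infty_iff
        have e2 : q ∈ (cht 1).source ↔
          (q.1.2.1 ≠ ((0 : ℂ) : P1) ∧ q.1.2.2 ≠ ((0 : ℂ) : P1)) :=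
          and_congr rcp_ne_infty_iff rcp_ne_infty_iff
        have e3 : q ∈ (cht 2).source ↔
          (q.1.2.2 ≠ OnePoint.infty ∧ q.1.1 ≠ OnePoint.infty) := Iff.rfl
        rw [Set.mem_union, e1, e2, e3]
        have r1 := rel_infty h
        have r2 := rel_zero (rel_rot h)
        constructor
        · rintro ⟨hb, ha⟩
          by_cases hc : q.1.2.2 = ((0 : ℂ) : P1)
          · exact Or.inr ⟨by rw [hc]; exact zero_ne_infty, ha⟩
          · exact Or.inl ⟨hb, hc⟩
        · rintro (⟨hb, hc⟩ | ⟨hc, ha⟩)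
          · refine ⟨hb, fun ha => ?_⟩
            rcases r1 ha with h1 | h1
            · exact hb h1
            · exact hc h1
          · refine ⟨fun hb => ?_, ha⟩
            rcases r2 hb with h1 | h1
            · exact hc h1
            · exact ha h1
      · rw [fcht_target, cht_target]
        simp
      · rw [fcht_target, cht_target]
        simp
      · intro q hq
        refine pr_symm 1 1 hq (f := fun w => (w.1, w.1 * w.2)) fun z => ?_
        have hk : (-1 : Fin 6) = 5 := rfl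
        rw [fcht1_pr, cht_symm_val, hk]
        simp [act3]
      · intro q hq
        refine pr_symm 1 2 hq (f := fun w => (w.1 * w.2, w.2)) fun z => ?_
        have hk : (-2 : Fin 6) = 4 := rfl
        rw [fcht1_pr, cht_symm_val, hk]
        simp [act3]
    · refine ⟨fcht 3, fcht_mem 3, cht 4, cht_mem 4, cht 5, cht_mem 5, ?_, ?_, ?_, ?_, ?_, ?_, ?_,
        fun q hq => mem_next 4 5 rfl hq, fun q hq hq' => next_mul 4 5 rfl hq hq'⟩
      · exact (mem_fcht_source _ _).2 ⟨zero_ne_infty, rcp_ne_infty_iff.2 zero_ne_infty.symm⟩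
      · change (toC ((0 : ℂ) : P1), toC (rcp OnePoint.infty)) = 0
        simp
      · refine Set.ext fun q => ?_
        have h : Rel (q.1.1, q.1.2.1, q.1.2.2) := q.2
        have e1 : q ∈ pr ⁻¹' (fcht 3).source ↔
          (q.1.2.1 ≠ OnePoint.infty ∧ q.1.1 ≠ ((0 : ℂ) : P1)) :=
          and_congr_right' rcp_ne_infty_iff
        have e2 : q ∈ (cht 4).source ↔
          (q.1.2.1 ≠ OnePoint.infty ∧ q.1.2.2 ≠ OnePoint.infty) := Iff.rfl
        have e3 : q ∈ (cht 5).source ↔
          (q.1.2.2 ≠ ((0 : ℂ) : P1) ∧ q.1.1 ≠ ((0 : ℂ) : P1)) :=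
          and_congr rcp_ne_infty_iff rcp_ne_infty_iff
        rw [Set.mem_union, e1, e2, e3]
        have r1 := rel_zero h
        have r2 := rel_infty (rel_rot h)
        constructor
        · rintro ⟨hb, ha⟩
          by_cases hc : q.1.2.2 = OnePoint.infty
          · exact Or.inr ⟨by rw [hc]; exact zero_ne_infty.symm, ha⟩
          · exact Or.inl ⟨hb, hc⟩
        · rintro (⟨hb, hc⟩ | ⟨hc, ha⟩)
          · refine ⟨hb, fun ha => ?_⟩
            rcases r1 ha with h1 | h1
            · exact hb h1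
            · exact hc h1
          · refine ⟨fun hb => ?_, ha⟩
            rcases r2 hb with h1 | h1
            · exact hc h1
            · exact ha h1
      · rw [fcht_target, cht_target]
        simp
      · rw [fcht_target, cht_target]
        simp
      · intro q hq
        refine pr_symm 3 4 hq (f := fun w => (w.1, w.1 * w.2)) fun z => ?_
        have hk : (-4 : Fin 6) = 2 := rfl
        rw [fcht3_pr, cht_symm_val, hk]
        simp [act3]
      · intro q hq
        refine pr_symm 3 5 hq (f := fun w => (w.1 * w.2, w.2)) fun z => ?_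
        have hk : (-5 : Fin 6) = 1 := rfl
        rw [fcht3_pr, cht_symm_val, hk]
        simp [act3]

end

end Pool.Agent.R882
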