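import Pool.Agent.R882.CovSep
import Pool.Agent.Y184.NT.TrForm
import Pool.Agent.Y184.NT.Fin

/-!
General type from traces to an intermediate field.
-/

set_option autoImplicit false
set_option linter.unusedSectionVars false
set_option linter.overlappingInstances false

open FF Pool.Agent.W603.LV Pool.Agent.W602.GT Pool.Agent.Y184.NT

namespace Pool.Agent.R882.WR

section

variable {K : Type} [Field K] [Algebra ℂ K]

/-- a derivation which is zero on `E` is zero on the elements which are algebraic over `E` -/
theorem der_alg {E : IntermediateField ℂ K} (D : Derivation ℂ K K) (hE : ∀ c ∈ E, D c = 0)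
    {τ : K} (h : IsAlgebraic E τ) : D τ = 0 := by
  let D2 : Derivation E K K :=
    { toFun := D
      map_add' := map_add D
      map_smul' := fun c y => by
        change D ((c : K) * y) = (c : K) * D y
        have hc : D (c : K) = 0 := hE _ c.2
        rw [D.leibniz, hc, smul_zero, add_zero, smul_eq_mul]
      map_one_eq_zero' := D.map_one_eq_zero
      leibniz' := D.leibniz }
  have hint : IsIntegral E τ := h.isIntegral
  have hchar : CharZero E := charZero_of_injective_algebraMap (algebraMap ℂ E).injective
  have h1 : D2 (Polynomial.aeval τ (minpoly E τ)) =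
      Polynomial.aeval τ (Polynomial.derivative (minpoly E τ)) • D2 τ := D2.map_aeval _ _
  rw [minpoly.aeval, map_zero] at h1
  have h2 : Polynomial.aeval τ (Polynomial.derivative (minpoly E τ)) ≠ 0 :=
    (minpoly.irreducible hint).separable.aeval_derivative_ne_zero (minpoly.aeval _ _)
  rcases smul_eq_zero.1 h1.symm with h3 | h3
  · exact absurd h3 h2
  · exact h3

/-- a derivation which is zero on `x` is zero on the field generated by `x` -/
theorem der_adjoin {N : ℕ} {x : Fin N → K} (D : Derivation ℂ K K) (hD : ∀ j, D (x j) = 0) :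
    ∀ c ∈ IntermediateField.adjoin ℂ (Set.range x), D c = 0 := by
  let C0 : IntermediateField ℂ K :=
    { carrier := {f | D f = 0}
      mul_mem' := fun {f g} hf hg => by
        change D (f * g) = 0
        rw [D.leibniz, show D f = 0 from hf, show D g = 0 from hg]
        simp
      add_mem' := fun {f g} hf hg => by
        change D (f + g) = 0
        rw [map_add, show D f = 0 from hf, show D g = 0 from hg, add_zero]
      algebraMap_mem' := fun c => D.map_algebraMap c
      inv_mem' := fun f hf => by
        change D f⁻¹ = 0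
        rw [Derivation.leibniz_inv, show D f = 0 from hf, smul_zero] }
  have h2 : IntermediateField.adjoin ℂ (Set.range x) ≤ C0 := by
    rw [IntermediateField.adjoin_le_iff]
    rintro _ ⟨j, rfl⟩
    exact hD j
  intro c hc
  exact h2 hc

end

section

variable {L K : Type} [Field L] [Field K] [Algebra ℂ L] [Algebra ℂ K] [Algebra L K]
  [IsScalarTower ℂ L K] [FiniteDimensional L K] [Algebra.EssFiniteType ℂ L]
  [Algebra.EssFiniteType ℂ K] {n N m : ℕ}

/-- **General type.** -/
theorem gt_of (hn : 1 ≤ n) (hL : Algebra.trdeg ℂ L = n)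
    {x : Fin N → K} {j0 : Fin N} (hj0 : x j0 = 1) {ω : (Fin n → Derivation ℂ K K) → K}
    (hω : IsPluri 1 ω)
    (hreg : ∀ (f : Fin m → Fin N) (P : Place ℂ K), Divisorial n P →
      RegAt P (fun D => (∏ k, x (f k)) * ω D))
    (halg : ∀ τ : K, IsAlgebraic (IntermediateField.adjoin ℂ (Set.range x)) τ)
    {y : Fin n → L} {E : Fin n → Derivation ℂ L L} (hy : IsTranscendenceBasis ℂ y)
    (hE : ∀ i j, E i (y j) = if i = j then 1 else 0) {E' : Fin n → Derivation ℂ K K}
    (hE' : ∀ i f, E' i (algebraMap L K f) = algebraMap L K (E i f))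
    (hdeg : 2 * Module.finrank L (IntermediateField.adjoin L (Set.range x)) ≤ m + 1)
    (hne : Algebra.trace (IntermediateField.adjoin L (Set.range x)) K (ω E') ≠ 0) :
    GeneralType ℂ L n := by
  have hcL : CharZero L := charZero_of_injective_algebraMap (algebraMap ℂ L).injective
  obtain ⟨x', hx'⟩ : ∃ x' : Fin N → IntermediateField.adjoin L (Set.range x),
    ∀ j, (x' j : K) = x j :=
    ⟨fun j => ⟨x j, IntermediateField.subset_adjoin L _ ⟨j, rfl⟩⟩, fun _ => rfl⟩
  obtain ⟨W, hWdef⟩ : ∃ W : (Fin m → Fin N) → (Fin n → Derivation ℂ K K) → K,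
    W = fun f D => (∏ k, x (f k)) * ω D := ⟨_, rfl⟩
  have hWp : ∀ f, IsPluri 1 (W f) := by
    intro f A D
    rw [hWdef]
    change (∏ k, x (f k)) * ω (fun i => ∑ j, A i j • D j) = _
    rw [hω A D]
    ring
  have hWr : ∀ f (P : Place ℂ K), Divisorial n P → RegAt P (W f) := by
    intro f P hP
    rw [hWdef]
    exact hreg f P hP
  obtain ⟨T, hTdef⟩ : ∃ T : (Fin m → Fin N) → L, ∀ f, T f = Algebra.trace L K (W f E') :=
    ⟨_, fun _ => rfl⟩
  have hT : ∀ f, T f = Algebra.trace L (IntermediateField.adjoin L (Set.range x))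
      ((∏ k, x' (f k)) *
        Algebra.trace (IntermediateField.adjoin L (Set.range x)) K (ω E')) := by
    intro f
    have h2 : W f E' = (∏ k, x' (f k)) • ω E' := by
      rw [hWdef, Algebra.smul_def]
      change (∏ k, x (f k)) * ω E' = _
      congr 1
      rw [map_prod]
      exact Finset.prod_congr rfl fun k _ => (hx' _).symm
    rw [hTdef, h2, ← Algebra.trace_trace (S := IntermediateField.adjoin L (Set.range x)),
      map_smul, smul_eq_mul]
  have hθE : ∀ t, trForm y t E = t := by
    intro t
    have h1 : (Matrix.of fun i j => E i (y j) : Matrix (Fin n) (Fin n) L) = 1 := by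
      ext i j
      rw [Matrix.of_apply, hE, Matrix.one_apply]
    rw [trForm, h1, Matrix.det_one, one_mul]
  have hθr : ∀ f (P : Place ℂ L), Divisorial n P → RegAt P (trForm y (T f)) := by
    intro f P hP
    rw [hTdef]
    exact trForm_reg hL hy hE hE' (W f) (hWp f) (hWr f) P hP
  have hder : ∀ D : Derivation ℂ (IntermediateField.adjoin L (Set.range x))
      (IntermediateField.adjoin L (Set.range x)), (∀ j, D (x' j) = 0) → D = 0 := by
    intro D hD
    have htw : IsScalarTower ℂ (IntermediateField.adjoin L (Set.range x)) K :=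
      IsScalarTower.of_algebraMap_eq fun r => rfl
    obtain ⟨D', hD'⟩ := Pool.Agent.Y954.NT.exists_lift (K := K) D
    have h1 : ∀ j, D' (x j) = 0 := by
      intro j
      have h2 := hD' (x' j)
      rw [hD j, map_zero] at h2
      have h3 : algebraMap (IntermediateField.adjoin L (Set.range x)) K (x' j) = x j := hx' j
      rwa [h3] at h2
    ext f
    have h2 : D' (algebraMap _ K f) = 0 := der_alg D' (der_adjoin D' h1) (halg _)
    rw [hD'] at h2
    have h3 := (map_eq_zero _).1 h2
    rw [h3]
    rfl
  have hsep := sep_small (L := L) (K := IntermediateField.adjoin L (Set.range x))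
    Pool.Agent.Y141.NT.stCB2 (x := x') (j0 := j0) (by
      apply Subtype.ext
      rw [hx', hj0]
      rfl) (gen_self x' hx') hder hdeg hne hT
  obtain ⟨s, hs0, hs⟩ := exists_ratios hn hL T hsep
  refine ⟨hL, 1, one_pos, fun j => trForm y (T (s j)), fun j => trForm_pluri y _,
    fun P hP j => hθr _ P hP, E, ?_, ?_⟩
  · change trForm y (T (s 0)) E ≠ 0
    rw [hθE]
    exact hs0
  · simp only [hθE]
    exact hs

/-- varieties of general type have nonnegative Kodaira dimension -/
theorem kod_of_gt (h : GeneralType ℂ L n) : KodGe ℂ L n (fun _ => False) 0 := by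
  obtain ⟨-, N, hN, ω, hω, hreg, D, hD, -⟩ := h
  refine ⟨N, hN, fun _ => ω 0, fun _ => ⟨hω 0, fun P hP D' hD' => ?_, fun P hP _ => hreg P hP 0⟩,
    D, hD, ?_⟩
  · exact hreg P hP 0 D' fun i => Pool.Agent.TH466.QG.derReg_of_log (hD' i)
  · exact algebraicIndependent_empty_type

end

end Pool.Agent.R882.WR
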