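import Pool.Agent.R882.CReg
import Pool.Agent.R882.CovGT

/-!
Smooth complete intersections in a product of projective lines: the degrees of the projections
which forget one of the coordinates.
-/

set_option autoImplicit false
set_option linter.unusedSectionVars false
set_option linter.unusedDecidableInType false
set_option linter.unusedFintypeInType false

open FF MvPolynomial Pool.Agent.W603.LV Pool.Agent.W602.GT Pool.Agent.Y184.NT

namespace Pool.Agent.R882.CI

section

variable {K : Type} [Field K] [Algebra ℂ K] {ι : Type} [Fintype ι] [DecidableEq ι]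

/-- the point with one free coordinate -/
noncomputable def pt (x : ι → K) (i0 : ι) (E : IntermediateField ℂ K) (j : ι) : Polynomial E :=
  open Classical in
  if j = i0 then Polynomial.X else if h : x j ∈ E then Polynomial.C ⟨x j, h⟩ else 0

theorem pt_self (x : ι → K) (i0 : ι) (E : IntermediateField ℂ K) :
    pt x i0 E i0 = Polynomial.X := by
  rw [pt, if_pos rfl]

theorem pt_of_ne {x : ι → K} {i0 : ι} {E : IntermediateField ℂ K} {j : ι} (hj : j ≠ i0)
    (h : x j ∈ E) : pt x i0 E j = Polynomial.C ⟨x j, h⟩ := by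
  rw [pt, if_neg hj, dif_pos h]

theorem pt_eval {x : ι → K} {i0 : ι} {E : IntermediateField ℂ K} (hE : ∀ j, j ≠ i0 → x j ∈ E)
    (F : MvPolynomial ι ℂ) :
    Polynomial.aeval (x i0) (aeval (pt x i0 E) F) = aeval x F := by
  have h1 : ((Polynomial.aeval (x i0) : Polynomial E →ₐ[E] K).restrictScalars ℂ).comp
      (aeval (pt x i0 E)) = (aeval x : MvPolynomial ι ℂ →ₐ[ℂ] K) := by
    apply MvPolynomial.algHom_ext
    intro j
    rw [AlgHom.comp_apply, aeval_X, aeval_X]
    change Polynomial.aeval (x i0) (pt x i0 E j) = x j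
    by_cases hj : j = i0
    · rw [hj, pt_self, Polynomial.aeval_X]
    · rw [pt_of_ne hj (hE j hj), Polynomial.aeval_C]
      rfl
  rw [← h1]
  rfl

theorem pt_deg {x : ι → K} {i0 : ι} {E : IntermediateField ℂ K} (hE : ∀ j, j ≠ i0 → x j ∈ E)
    (F : MvPolynomial ι ℂ) :
    (aeval (pt x i0 E) F).natDegree ≤ F.degreeOf i0 := by
  conv_lhs => rw [F.as_sum]
  rw [map_sum]
  refine Polynomial.natDegree_sum_le_of_forall_le _ _ fun u hu => ?_
  rw [aeval_monomial, Finsupp.prod_fintype _ _ fun i => by simp]
  have h1 : ∏ j, pt x i0 E j ^ u j =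
      Polynomial.X ^ u i0 * ∏ j ∈ Finset.univ.erase i0, pt x i0 E j ^ u j := by
    rw [← Finset.mul_prod_erase Finset.univ _ (Finset.mem_univ i0), pt_self]
  have h2 : (∏ j ∈ Finset.univ.erase i0, pt x i0 E j ^ u j).natDegree = 0 := by
    rw [← Nat.le_zero]
    refine le_trans (Polynomial.natDegree_prod_le _ _) ?_
    refine Finset.sum_nonpos fun j hj => ?_
    have hj' := Finset.ne_of_mem_erase hj
    rw [pt_of_ne hj' (hE j hj'), ← Polynomial.C_pow, Polynomial.natDegree_C]
  rw [h1]
  refine le_trans Polynomial.natDegree_mul_le ?_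
  have h3 : (algebraMap ℂ (Polynomial E) (F.coeff u)).natDegree = 0 := by
    rw [Polynomial.algebraMap_apply, Polynomial.natDegree_C]
  rw [h3, zero_add]
  refine le_trans Polynomial.natDegree_mul_le ?_
  rw [h2, add_zero, Polynomial.natDegree_X_pow]
  exact monomial_le_degreeOf i0 hu

theorem pt_der {x : ι → K} {i0 : ι} {E : IntermediateField ℂ K} (hE : ∀ j, j ≠ i0 → x j ∈ E)
    (F : MvPolynomial ι ℂ) :
    Polynomial.derivative (aeval (pt x i0 E) F) = aeval (pt x i0 E) (pderiv i0 F) := by
  induction F using MvPolynomial.induction_on with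
  | C a =>
    rw [aeval_C, pderiv_C, map_zero, Polynomial.algebraMap_apply, Polynomial.derivative_C]
  | add p q hp hq => rw [map_add, map_add, hp, hq, map_add, map_add]
  | mul_X p j hp =>
    rw [map_mul, aeval_X, Polynomial.derivative_mul, hp, (pderiv i0).leibniz, smul_eq_mul,
      smul_eq_mul, map_add, map_mul, map_mul, aeval_X]
    by_cases hj : j = i0
    · rw [hj, pt_self, pderiv_X_self, map_one, Polynomial.derivative_X]
      ring
    · rw [pt_of_ne hj (hE j hj), Polynomial.derivative_C, pderiv_X_of_ne hj, map_zero]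
      ring

variable {κ : Type} [Fintype κ] [DecidableEq κ] {n : ℕ}

/-- the field generated by the coordinates except one -/
theorem adjoin_top {x : ι → K} (hgen : IntermediateField.adjoin ℂ (Set.range x) = ⊤) {i0 : ι}
    {E : IntermediateField ℂ K} (hE : ∀ j, j ≠ i0 → x j ∈ E) :
    IntermediateField.adjoin E {x i0} = ⊤ := by
  rw [eq_top_iff]
  intro y _
  have h1 : y ∈ IntermediateField.adjoin ℂ (Set.range x) := by
    rw [hgen]
    trivial
  have h2 : IntermediateField.adjoin ℂ (Set.range x) ≤
      (IntermediateField.adjoin E {x i0}).restrictScalars ℂ := by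
    rw [IntermediateField.adjoin_le_iff]
    rintro _ ⟨j, rfl⟩
    by_cases hj : j = i0
    · rw [hj]
      exact IntermediateField.mem_adjoin_simple_self E (x i0)
    · exact (IntermediateField.adjoin E {x i0}).algebraMap_mem ⟨x j, hE j hj⟩
  exact h2 h1

theorem fin_of_alg {x : ι → K} (hgen : IntermediateField.adjoin ℂ (Set.range x) = ⊤) {i0 : ι}
    {E : IntermediateField ℂ K} (hE : ∀ j, j ≠ i0 → x j ∈ E) (halg : IsAlgebraic E (x i0)) :
    FiniteDimensional E K := by
  have h1 : FiniteDimensional E (IntermediateField.adjoin E {x i0}) :=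
    IntermediateField.adjoin.finiteDimensional halg.isIntegral
  rw [adjoin_top hgen hE] at h1
  exact Module.Finite.equiv (IntermediateField.topEquiv (F := E) (E := K)).toLinearEquiv

/-- the degree of the projection is bounded by the degree of one of the equations -/
theorem deg_le {F : κ → MvPolynomial ι ℂ} {e : κ ⊕ Fin n ≃ ι} {x : ι → K} {C : κ → ι → K}
    {D : Fin n → Derivation ℂ K K} (hx : ∀ k, aeval x (F k) = 0)
    (hC : ∀ k k', ∑ i, aeval x (pderiv i (F k)) * C k' i = if k = k' then 1 else 0)
    (hgen : IntermediateField.adjoin ℂ (Set.range x) = ⊤)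
    (hdet : (cmat e C fun j i => D j (x i)).det ≠ 0) {i0 : ι}
    (halg : IsAlgebraic (IntermediateField.adjoin ℂ (x '' {i0}ᶜ)) (x i0)) :
    ∃ k, Module.finrank (IntermediateField.adjoin ℂ (x '' {i0}ᶜ)) K ≤ (F k).degreeOf i0 := by
  obtain ⟨E, hE⟩ : ∃ E : IntermediateField ℂ K, E = IntermediateField.adjoin ℂ (x '' {i0}ᶜ) :=
    ⟨_, rfl⟩
  have hxE : ∀ j, j ≠ i0 → x j ∈ E := fun j hj => by
    rw [hE]
    exact IntermediateField.subset_adjoin ℂ _ ⟨j, hj, rfl⟩
  rw [← hE] at halg ⊢
  have hex : ∃ k, aeval (pt x i0 E) (F k) ≠ 0 := by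
    by_contra hcon
    push Not at hcon
    have h0 : ∀ k, aeval x (pderiv i0 (F k)) = 0 := by
      intro k
      rw [← pt_eval hxE, ← pt_der hxE, hcon k, Polynomial.derivative_zero, map_zero]
    obtain ⟨D', hD'⟩ := exists_der (e := e) hx hC hdet h0
    have h1 : ∀ c ∈ E, D' c = 0 := by
      let C0 : IntermediateField ℂ K :=
        { carrier := {f | D' f = 0}
          mul_mem' := fun {f g} hf hg => by
            change D' (f * g) = 0
            rw [D'.leibniz, show D' f = 0 from hf, show D' g = 0 from hg]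
            simp
          add_mem' := fun {f g} hf hg => by
            change D' (f + g) = 0
            rw [map_add, show D' f = 0 from hf, show D' g = 0 from hg, add_zero]
          algebraMap_mem' := fun c => D'.map_algebraMap c
          inv_mem' := fun f hf => by
            change D' f⁻¹ = 0
            rw [Derivation.leibniz_inv, show D' f = 0 from hf, smul_zero] }
      have h2 : E ≤ C0 := by
        rw [hE, IntermediateField.adjoin_le_iff]
        rintro _ ⟨j, hj, rfl⟩
        have h3 := hD' j
        rw [if_neg (show j ≠ i0 from hj)] at h3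
        exact h3
      exact fun c hc => h2 hc
    have h2 := Pool.Agent.R882.WR.der_alg D' h1 halg
    rw [hD' i0, if_pos rfl] at h2
    exact one_ne_zero h2
  obtain ⟨k, hk⟩ := hex
  refine ⟨k, ?_⟩
  have h1 := IntermediateField.adjoin.finrank halg.isIntegral
  rw [adjoin_top hgen hxE, IntermediateField.finrank_top'] at h1
  rw [h1]
  refine le_trans (Polynomial.natDegree_le_of_dvd (minpoly.dvd _ _ ?_) hk) (pt_deg hxE (F k))
  rw [pt_eval hxE, hx]

end

end Pool.Agent.R882.CI
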