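import Pool.Agent.R882.CDrop

/-!
Smooth complete intersections in a product of projective lines: geometric genus zero implies
uniruled.
-/

set_option autoImplicit false
set_option linter.unusedSectionVars false
set_option linter.unusedDecidableInType false
set_option linter.unusedFintypeInType false
set_option linter.overlappingInstances false

open FF MvPolynomial Pool.Agent.W603.LV Pool.Agent.W602.GT Pool.Agent.Y184.NT
open Pool.Agent.W619.PQ (IsUniruled)

namespace Pool.Agent.R882.CI

section

variable {K : Type} [Field K] [Algebra ℂ K] [Algebra.EssFiniteType ℂ K] {n : ℕ}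

/-- the residue form -/
theorem exists_form {κ : Type} [Fintype κ] [DecidableEq κ] {ι : Type} [Fintype ι]
    [DecidableEq ι] {d : κ → ι → ℕ} {F : κ → MvPolynomial ι ℂ}
    (hs : Smooth d F) (hcard : Fintype.card ι = n + Fintype.card κ) {x : ι → K}
    (hx : ∀ k, aeval x (F k) = 0) (hgen : IntermediateField.adjoin ℂ (Set.range x) = ⊤) :
    ∃ (e : κ ⊕ Fin n ≃ ι) (C : κ → ι → K),
      (∀ k k', ∑ i, aeval x (pderiv i (F k)) * C k' i = if k = k' then 1 else 0) ∧
      ∀ D : Fin n → Derivation ℂ K K, LinearIndependent K D →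
        (cmat e C fun j i => D j (x i)).det ≠ 0 := by
  obtain ⟨e⟩ : Nonempty (κ ⊕ Fin n ≃ ι) := ⟨Fintype.equivOfCardEq (by
    rw [Fintype.card_sum, Fintype.card_fin, hcard, add_comm])⟩
  have hs0 : ∀ z, (∀ k, eval z (F k) = 0) →
      LinearIndependent ℂ (fun (k : κ) (i : ι) => eval z (pderiv i (F k))) := by
    intro z hz
    have h1 := hs ∅ z
    simp only [chart_empty] at h1
    exact h1 hz
  obtain ⟨c, hc⟩ := exists_minor_at hs0 hx
  have hC := crow_spec (J := fun k i => aeval x (pderiv i (F k))) (c := c) hc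
  exact ⟨e, crow (fun k i => aeval x (pderiv i (F k))) c, hC, fun D hD =>
    cmat_ne hx hC hgen hD⟩

omit [Algebra.EssFiniteType ℂ K] in
theorem range_sub {ι : Type} (x : ι → K) (i : ι) :
    Set.range (fun j : {j // j ≠ i} => x j) = x '' {i}ᶜ := by
  ext z
  constructor
  · rintro ⟨j, rfl⟩
    exact ⟨j, j.2, rfl⟩
  · rintro ⟨j, hj, rfl⟩
    exact ⟨⟨j, hj⟩, rfl⟩

/-- one step of the induction -/
theorem uniruled_step (hn : 1 ≤ n) (hK : Algebra.trdeg ℂ K = n)
    (hpg : ∀ ω : (Fin n → Derivation ℂ K K) → K, IsPluri 1 ω →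
      (∀ P : Place ℂ K, Divisorial n P → RegAt P ω) → ∀ D, ω D = 0)
    {κ : Type} [Fintype κ] [DecidableEq κ] {ι : Type} [Fintype ι]
    [DecidableEq ι] {d : κ → ι → ℕ} {F : κ → MvPolynomial ι ℂ}
    (hF : ∀ k i, (F k).degreeOf i ≤ d k i)
    (hs : Smooth d F) (hcard : Fintype.card ι = n + Fintype.card κ) {x : ι → K}
    (hx : ∀ k, aeval x (F k) = 0) (hgen : IntermediateField.adjoin ℂ (Set.range x) = ⊤) :
    IsUniruled ℂ K n ∨ ∃ (l : ι) (k0 : κ), 1 ≤ d k0 l ∧ (∀ k, k ≠ k0 → d k l = 0) ∧
      IntermediateField.adjoin ℂ (x '' {l}ᶜ) = ⊤ := by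
  obtain ⟨e, C, hC, hdet⟩ := exists_form hs hcard hx hgen
  obtain ⟨z, D, hz, hD⟩ := Pool.Agent.Y172.exists_crd (k := ℂ) (K := K) hK
  have hDind : LinearIndependent K D := by
    rw [Fintype.linearIndependent_iff]
    intro g hg i
    have h1 : (∑ j, g j • D j) (z i) = 0 := by
      rw [hg]
      rfl
    rw [Pool.Agent.Y988.NT.sum_der, Finset.sum_eq_single i] at h1
    · rw [hD, if_pos rfl, mul_one] at h1
      exact h1
    · intro j _ hj
      rw [hD, if_neg hj, mul_zero]
    · intro h
      exact absurd (Finset.mem_univ _) h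
  have hne := hdet D hDind
  by_cases hall : ∀ i, 2 ≤ ∑ k, d k i
  · exfalso
    apply hne
    refine hpg _ (cmat_pluri e C x) (fun P _ => ?_) D
    have h1 := ci_reg hF hs e hx hC (a := fun _ => 0) (fun i => by
      rw [zero_add]
      exact hall i) P
    simpa using h1
  · push Not at hall
    obtain ⟨l, hl⟩ := hall
    have hxE : ∀ j, j ≠ l → x j ∈ IntermediateField.adjoin ℂ (x '' {l}ᶜ) := fun j hj =>
      IntermediateField.subset_adjoin ℂ _ ⟨j, hj, rfl⟩
    by_cases halg : IsAlgebraic (IntermediateField.adjoin ℂ (x '' {l}ᶜ)) (x l)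
    · right
      obtain ⟨k0, hk0⟩ := deg_le hx hC hgen hne halg
      have hfin := fin_of_alg hgen hxE halg
      have h1 : 0 < Module.finrank (IntermediateField.adjoin ℂ (x '' {l}ᶜ)) K :=
        Module.finrank_pos
      have h2 := hF k0 l
      have h3 : d k0 l ≤ ∑ k, d k l := Finset.single_le_sum (f := fun k => d k l)
        (fun _ _ => Nat.zero_le _) (Finset.mem_univ k0)
      refine ⟨l, k0, by omega, fun k hk => ?_, ?_⟩
      · have h4 : d k0 l + d k l ≤ ∑ k, d k l := by
          rw [← Finset.add_sum_erase Finset.univ (fun k => d k l) (Finset.mem_univ k0)]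
          exact Nat.add_le_add_left (Finset.single_le_sum (f := fun k => d k l)
            (fun _ _ => Nat.zero_le _) (Finset.mem_erase.2 ⟨hk, Finset.mem_univ k⟩)) _
        omega
      · rw [← IntermediateField.finrank_eq_one_iff_eq_top]
        omega
    · left
      have hR : Ruled ℂ K := ⟨IntermediateField.adjoin ℂ (x '' {l}ᶜ), x l, halg,
        adjoin_top hgen hxE⟩
      exact Pool.Agent.TH466.QG.uniruled_below (F := K) (K := K) hK hR

/-- **Geometric genus zero implies uniruled, for smooth complete intersections in products of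
projective lines.** -/
theorem uniruled_ci (hn : 1 ≤ n) (hK : Algebra.trdeg ℂ K = n)
    (hpg : ∀ ω : (Fin n → Derivation ℂ K K) → K, IsPluri 1 ω →
      (∀ P : Place ℂ K, Divisorial n P → RegAt P ω) → ∀ D, ω D = 0) (N : ℕ) :
    ∀ (κ : Type) [Fintype κ] [DecidableEq κ] (ι : Type) [Fintype ι]
      [DecidableEq ι], Fintype.card κ = N → ∀ (d : κ → ι → ℕ) (F : κ → MvPolynomial ι ℂ),
      (∀ k i, (F k).degreeOf i ≤ d k i) → Smooth d F →
      Fintype.card ι = n + Fintype.card κ → ∀ x : ι → K, (∀ k, aeval x (F k) = 0) →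
      IntermediateField.adjoin ℂ (Set.range x) = ⊤ → IsUniruled ℂ K n := by
  induction N with
  | zero =>
    intro κ _ _ ι _ _ hκ d F hF hs hcard x hx hgen
    rcases uniruled_step hn hK hpg hF hs hcard hx hgen with h | ⟨l, k0, -⟩
    · exact h
    · exact (Fintype.card_eq_zero_iff.1 hκ).elim k0
  | succ N ih =>
    intro κ _ _ ι _ _ hκ d F hF hs hcard x hx hgen
    rcases uniruled_step hn hK hpg hF hs hcard hx hgen with h | ⟨l, k0, h1, hd, htop⟩
    · exact h
    · have hex : ∀ k : {k // k ≠ k0}, ∃ H : MvPolynomial {i // i ≠ l} ℂ,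
          rename Subtype.val H = F k := by
        intro k
        apply exists_drop
        have h2 := hF k l
        rw [hd k k.2] at h2
        omega
      choose G hG using hex
      have hκ' : Fintype.card {k // k ≠ k0} = N := by
        rw [Fintype.card_subtype_compl, Fintype.card_subtype_eq]
        omega
      have hι' : Fintype.card {i // i ≠ l} = n + N := by
        rw [Fintype.card_subtype_compl, Fintype.card_subtype_eq]
        omega
      refine ih {k // k ≠ k0} {i // i ≠ l} hκ' (fun k i => d k i) G (fun k i => ?_)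
        (smooth_drop hF hs hd h1 hG) (by rw [hκ', hι']) (fun i => x i) (fun k => ?_) ?_
      · have h2 := hF k i
        rw [← hG, degreeOf_rename_of_injective Subtype.val_injective] at h2
        exact h2
      · have h2 := hx k
        rw [← hG, aeval_rename] at h2
        exact h2
      · rw [range_sub, htop]

end

end Pool.Agent.R882.CI
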