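import Pool.Agent.R882.COver
import Pool.Agent.R882.CUnir

/-!
Smooth complete intersections in a product of projective lines: forms which detect the intermediate
fields of the projection which forgets one of the coordinates.
-/

set_option autoImplicit false
set_option linter.unusedSectionVars false
set_option linter.unusedDecidableInType false
set_option linter.unusedFintypeInType false
set_option linter.overlappingInstances false

open FF MvPolynomial Pool.Agent.W603.LV Pool.Agent.W602.GT Pool.Agent.Y184.NT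
open Pool.Agent.W619.PQ (IsUniruled)

namespace Pool.Agent.R882.CI

section

variable {K : Type} [Field K] [Algebra ℂ K] {n : ℕ}
  {κ : Type} [Fintype κ] [DecidableEq κ] {ι : Type} [Fintype ι] [DecidableEq ι]

/-- the other coordinates, with `1` -/
noncomputable def rest {N : ℕ} {i0 : ι} (σ : Fin N ≃ {j // j ≠ i0}) (x : ι → K) :
    Fin (N + 1) → K := Fin.cons 1 fun a => x (σ a)

theorem rest_range {N : ℕ} {i0 : ι} (σ : Fin N ≃ {j // j ≠ i0}) (x : ι → K) :
    IntermediateField.adjoin ℂ (Set.range (rest σ x)) =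
      IntermediateField.adjoin ℂ (x '' {i0}ᶜ) := by
  have h1 : Set.range (rest σ x) = insert 1 (x '' {i0}ᶜ) := by
    rw [rest, Fin.range_cons]
    congr 1
    ext z
    constructor
    · rintro ⟨a, rfl⟩
      exact ⟨_, (σ a).2, rfl⟩
    · rintro ⟨j, hj, rfl⟩
      exact ⟨σ.symm ⟨j, hj⟩, by simp⟩
  rw [h1]
  apply le_antisymm
  · rw [IntermediateField.adjoin_le_iff]
    rintro z (rfl | hz)
    · exact one_mem _
    · exact IntermediateField.subset_adjoin ℂ _ hz
  · exact IntermediateField.adjoin.mono ℂ _ _ (Set.subset_insert _ _)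

theorem rest_prod [Algebra.EssFiniteType ℂ K] {N M : ℕ} {i0 : ι} (σ : Fin N ≃ {j // j ≠ i0}) (x : ι → K)
    (f : Fin M → Fin (N + 1)) (a : ℕ) :
    ∃ e : ι → ℕ, e i0 = a ∧ (∀ i, i ≠ i0 → e i ≤ M) ∧
      (∏ k, rest σ x (f k)) * x i0 ^ a = ∏ i, x i ^ e i := by
  classical
  obtain ⟨e', he', h1⟩ := prod_monom (fun b => x (σ b)) f
  refine ⟨fun i => if h : i ≠ i0 then e' (σ.symm ⟨i, h⟩) else a, ?_, fun i hi => ?_, ?_⟩
  · simp
  · simp only
    rw [dif_pos hi]
    exact he' _
  · rw [rest, h1, Fintype.prod_eq_mul_prod_subtype_ne _ i0, mul_comm]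
    congr 1
    · simp
    · rw [← σ.prod_comp]
      refine Finset.prod_congr rfl fun b _ => ?_
      simp only
      rw [dif_pos (σ b).2]
      simp

/-- **Forms with nonzero traces to the intermediate fields.** -/
theorem detects [Algebra.EssFiniteType ℂ K] (hK : Algebra.trdeg ℂ K = n) {d : κ → ι → ℕ}
    {m : ι → ℕ} {M : ℕ} (hm : ∀ i, ∑ k, d k i = m i + 2) {i0 : ι}
    (hM : ∀ i, i ≠ i0 → M ≤ m i) {F : κ → MvPolynomial ι ℂ}
    (hF : ∀ k i, (F k).degreeOf i ≤ d k i) (hs : Smooth d F)
    (hcard : Fintype.card ι = n + Fintype.card κ) {x : ι → K} (hx : ∀ k, aeval x (F k) = 0)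
    (hgen : IntermediateField.adjoin ℂ (Set.range x) = ⊤)
    (halg : IsAlgebraic (IntermediateField.adjoin ℂ (x '' {i0}ᶜ)) (x i0))
    {N : ℕ} (σ : Fin N ≃ {j // j ≠ i0}) (F' : IntermediateField ℂ K)
    (hF' : IntermediateField.adjoin ℂ (x '' {i0}ᶜ) < F') :
    Pool.Agent.R882.Over.Detects n (rest σ x) F' M := by
  classical
  have hxE : ∀ j, j ≠ i0 → x j ∈ IntermediateField.adjoin ℂ (x '' {i0}ᶜ) := fun j hj =>
    IntermediateField.subset_adjoin ℂ _ ⟨j, hj, rfl⟩
  have hxF : ∀ j, j ≠ i0 → x j ∈ F' := fun j hj => hF'.le (hxE j hj)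
  have hfin : FiniteDimensional (IntermediateField.adjoin ℂ (x '' {i0}ᶜ)) K :=
    fin_of_alg hgen hxE halg
  have halgF : IsAlgebraic F' (x i0) := by
    obtain ⟨p, hp0, hp⟩ := halg
    refine ⟨p.map (IntermediateField.inclusion hF'.le).toRingHom, ?_, ?_⟩
    · exact (Polynomial.map_ne_zero_iff (IntermediateField.inclusion hF'.le).injective).2 hp0
    · rw [Polynomial.aeval_def, Polynomial.eval₂_map]
      rw [Polynomial.aeval_def] at hp
      exact hp
  have hfinF : FiniteDimensional F' K := fin_of_alg hgen hxF halgF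
  obtain ⟨e, C, hC, hdet⟩ := exists_form hs hcard hx hgen
  have hchar : CharZero F' := charZero_of_injective_algebraMap (algebraMap ℂ F').injective
  have htrF : Algebra.trdeg ℂ F' = n := trdeg_below (K := K) hK
  have hessF : Algebra.EssFiniteType ℂ F' := Pool.Agent.TH466.QG.ess_below (K := K)
  obtain ⟨z, D, hz, hD⟩ := Pool.Agent.Y172.exists_crd (k := ℂ) (K := F') htrF
  choose D' hD' using fun i => Pool.Agent.Y172.exists_lift (k := ℂ) (K := F') (L := K) htrF (D i)
  have hne := hdet D' (lift_ind hD hD')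
  -- the degree
  have hdeg : Module.finrank F' K ≤ m i0 + 1 := by
    obtain ⟨k0, hk0⟩ := deg_le hx hC hgen hne halg
    have h2 := hF k0 i0
    have h3 : d k0 i0 ≤ ∑ k, d k i0 := Finset.single_le_sum (f := fun k => d k i0)
      (fun _ _ => Nat.zero_le _) (Finset.mem_univ k0)
    have h4 := hm i0
    obtain ⟨q, hq⟩ := IntermediateField.finrank_dvd_of_le_left hF'.le
    have hpos : 0 < Module.finrank (IntermediateField.adjoin ℂ (x '' {i0}ᶜ)) K :=
      Module.finrank_pos
    have hq1 : q ≠ 1 := by
      intro h1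
      rw [h1, mul_one] at hq
      exact hF'.ne (IntermediateField.eq_of_le_of_finrank_eq' hF'.le hq)
    have hq0 : q ≠ 0 := by
      intro h1
      rw [h1, mul_zero] at hq
      omega
    have h5 : Module.finrank F' K * 2 ≤ Module.finrank F' K * q :=
      Nat.mul_le_mul_left _ (by omega)
    have h6 : 0 < Module.finrank F' K := Module.finrank_pos
    omega
  obtain ⟨a, ha, hta⟩ : ∃ a < Module.finrank F' K, Algebra.trace F' K
      (x i0 ^ a * (cmat e C fun j i => D' j (x i)).det) ≠ 0 := by
    by_contra hcon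
    push Not at hcon
    exact hne (Pool.Agent.R882.WR.powers_zero (adjoin_top hgen hxF) hcon)
  refine ⟨fun D => x i0 ^ a * (cmat e C fun j i => D j (x i)).det, ?_, fun f P _ => ?_, D, D',
    hD', hta⟩
  · intro A D
    change x i0 ^ a * _ = _
    have h1 := cmat_pluri e C x A D
    simp only at h1
    rw [h1]
    ring
  · obtain ⟨e', he0, hle, hprod⟩ := rest_prod σ x f a
    have h1 := ci_reg hF hs e hx hC (a := e') (fun i => by
      rw [hm i]
      by_cases hi : i = i0
      · rw [hi, he0]
        omega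
      · have h2 := hle i hi
        have h3 := hM i hi
        omega) P
    have h2 : (fun D : Fin n → Derivation ℂ K K => (∏ k, rest σ x (f k)) *
        (x i0 ^ a * (cmat e C fun j i => D j (x i)).det)) =
        fun D => (∏ i, x i ^ e' i) * (cmat e C fun j i => D j (x i)).det := by
      funext D
      rw [← hprod]
      ring
    rw [h2]
    exact h1

end

end Pool.Agent.R882.CI
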