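import Pool.Agent.R882.CRes

/-!
Smooth complete intersections in a product of projective lines: the canonical forms which are given
by residues are regular, and not zero.
-/

set_option autoImplicit false
set_option linter.unusedSectionVars false
set_option linter.unusedDecidableInType false
set_option linter.unusedFintypeInType false

open FF MvPolynomial Pool.Agent.W603.LV Pool.Agent.W602.GT Pool.Agent.Y184.NT

namespace Pool.Agent.R882.CI

section

variable {κ : Type} [Fintype κ] [DecidableEq κ] {ι : Type} [Fintype ι] [DecidableEq ι]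

/-- The hypersurfaces `F k = 0` of multidegrees `d k` meet transversally in the product of
projective lines: in each affine chart, the gradients of the equations are linearly independent at
all common zeros. -/
def Smooth (d : κ → ι → ℕ) (F : κ → MvPolynomial ι ℂ) : Prop :=
  ∀ (S : Finset ι) (z : ι → ℂ), (∀ k, eval z (chart (d k) S (F k)) = 0) →
    LinearIndependent ℂ (fun (k : κ) (i : ι) => eval z (pderiv i (chart (d k) S (F k))))

/-- a matrix with independent rows has a minor which is not zero -/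
theorem exists_minor {K : Type} [Field K] {v : κ → ι → K} (h : LinearIndependent K v) :
    ∃ c : κ → ι, (Matrix.of fun k k' => v k (c k') : Matrix κ κ K).det ≠ 0 := by
  obtain ⟨A, hA⟩ : ∃ A : Matrix κ ι K, A = Matrix.of v := ⟨_, rfl⟩
  have h1 : A.rank = Fintype.card κ := by
    rw [hA]
    exact LinearIndependent.rank_matrix h
  have h2 : Submodule.span K (Set.range A.col) = ⊤ := by
    apply Submodule.eq_top_of_finrank_eq
    rw [← Matrix.range_mulVecLin, Module.finrank_fintype_fun_eq_card]
    exact h1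
  obtain ⟨κ', a, ha, hspan, hli⟩ := exists_linearIndependent' K A.col
  rw [h2] at hspan
  have hfin : Finite κ' := Finite.of_injective a ha
  have : Fintype κ' := Fintype.ofFinite κ'
  have hcard : Fintype.card κ' = Fintype.card κ := by
    have h3 := Module.finrank_eq_card_basis (Module.Basis.mk hli (by rw [hspan]))
    rw [Module.finrank_fintype_fun_eq_card] at h3
    exact h3.symm
  obtain ⟨σ⟩ : Nonempty (κ ≃ κ') := ⟨Fintype.equivOfCardEq hcard.symm⟩
  refine ⟨fun k => a (σ k), ?_⟩
  have h4 : LinearIndependent K (Matrix.of fun k k' => v k (a (σ k')) : Matrix κ κ K).col := by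
    have h5 := hli.comp σ σ.injective
    have h6 : (Matrix.of fun k k' => v k (a (σ k')) : Matrix κ κ K).col =
        (A.col ∘ a) ∘ σ := by
      funext k' k
      rw [hA]
      rfl
    rw [h6]
    exact h5
  have h5 := Matrix.linearIndependent_cols_iff_isUnit.1 h4
  rw [Matrix.isUnit_iff_isUnit_det] at h5
  exact h5.ne_zero

/-- the certificate -/
theorem cert {G : κ → MvPolynomial ι ℂ} (hs : ∀ z, (∀ k, eval z (G k) = 0) →
      LinearIndependent ℂ (fun (k : κ) (i : ι) => eval z (pderiv i (G k)))) :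
    ∃ (A : κ → MvPolynomial ι ℂ) (B : (κ → ι) → MvPolynomial ι ℂ),
      1 = ∑ k, A k * G k +
        ∑ c, B c * (Matrix.of fun k k' => pderiv (c k') (G k) : Matrix κ κ _).det := by
  classical
  obtain ⟨v, hv⟩ : ∃ v : κ ⊕ (κ → ι) → MvPolynomial ι ℂ, v = Sum.elim G
    (fun c => (Matrix.of fun k k' => pderiv (c k') (G k) : Matrix κ κ _).det) := ⟨_, rfl⟩
  obtain ⟨I, hI⟩ : ∃ I : Ideal (MvPolynomial ι ℂ), I = Ideal.span (Set.range v) := ⟨_, rfl⟩
  have h1 : (1 : MvPolynomial ι ℂ) ∈ vanishingIdeal ℂ (zeroLocus ℂ I) := by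
    rw [mem_vanishingIdeal_iff]
    intro z hz
    exfalso
    rw [mem_zeroLocus_iff] at hz
    have h2 : ∀ o, eval z (v o) = 0 := fun o => hz (v o) (by
      rw [hI]
      exact Ideal.subset_span ⟨o, rfl⟩)
    have h3 := hs z fun k => by
      have h4 := h2 (Sum.inl k)
      rw [hv] at h4
      exact h4
    obtain ⟨c, hc⟩ := exists_minor h3
    apply hc
    have h4 := h2 (Sum.inr c)
    rw [hv] at h4
    simp only [Sum.elim_inr] at h4
    rw [RingHom.map_det] at h4
    exact h4
  rw [vanishingIdeal_zeroLocus_eq_radical] at h1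
  obtain ⟨M, hM⟩ := h1
  rw [one_pow, hI, Ideal.mem_span_range_iff_exists_fun] at hM
  obtain ⟨A, hA⟩ := hM
  refine ⟨fun k => A (Sum.inl k), fun c => A (Sum.inr c), ?_⟩
  rw [← hA, Fintype.sum_sum_type, hv]
  rfl

variable {K : Type} [Field K] [Algebra ℂ K]

theorem cert_at {G : κ → MvPolynomial ι ℂ} (hs : ∀ z, (∀ k, eval z (G k) = 0) →
      LinearIndependent ℂ (fun (k : κ) (i : ι) => eval z (pderiv i (G k))))
    {Z : ι → K} (hZ : ∀ k, aeval Z (G k) = 0) :
    ∃ B : (κ → ι) → MvPolynomial ι ℂ, 1 = ∑ c, aeval Z (B c) *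
      (Matrix.of fun k k' => aeval Z (pderiv (c k') (G k)) : Matrix κ κ K).det := by
  obtain ⟨A, B, h⟩ := cert hs
  refine ⟨B, ?_⟩
  have h5 := congrArg (aeval Z) h
  rw [map_one, map_add, map_sum, map_sum] at h5
  have h6 : ∑ k, aeval Z (A k * G k) = 0 := Finset.sum_eq_zero fun k _ => by
    rw [map_mul, hZ, mul_zero]
  rw [h6, zero_add] at h5
  rw [h5]
  refine Finset.sum_congr rfl fun c _ => ?_
  rw [map_mul]
  congr 1
  change (aeval Z : MvPolynomial ι ℂ →ₐ[ℂ] K).toRingHom _ = _
  rw [RingHom.map_det]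
  rfl

theorem exists_minor_at {G : κ → MvPolynomial ι ℂ} (hs : ∀ z, (∀ k, eval z (G k) = 0) →
      LinearIndependent ℂ (fun (k : κ) (i : ι) => eval z (pderiv i (G k))))
    {Z : ι → K} (hZ : ∀ k, aeval Z (G k) = 0) :
    ∃ c : κ → ι,
      (Matrix.of fun k k' => aeval Z (pderiv (c k') (G k)) : Matrix κ κ K).det ≠ 0 := by
  obtain ⟨B, h⟩ := cert_at hs hZ
  by_contra hcon
  push Not at hcon
  rw [Finset.sum_eq_zero fun c _ => by rw [hcon c, mul_zero]] at h
  exact one_ne_zero h

theorem exists_minor_unit (P : Place ℂ K) {G : κ → MvPolynomial ι ℂ}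
    (hs : ∀ z, (∀ k, eval z (G k) = 0) →
      LinearIndependent ℂ (fun (k : κ) (i : ι) => eval z (pderiv i (G k))))
    {Z : ι → K} (hZ : ∀ k, aeval Z (G k) = 0) (hr : ∀ i, P.Reg (Z i)) :
    ∃ c : κ → ι,
      (Matrix.of fun k k' => aeval Z (pderiv (c k') (G k)) : Matrix κ κ K).det ≠ 0 ∧
      P.ord (Matrix.of fun k k' => aeval Z (pderiv (c k') (G k)) : Matrix κ κ K).det = 0 := by
  obtain ⟨B, h⟩ := cert_at hs hZ
  by_contra hcon
  push Not at hcon
  have h3 : ∀ c : κ → ι, Ge P 1
      (Matrix.of fun k k' => aeval Z (pderiv (c k') (G k)) : Matrix κ κ K).det := by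
    intro c
    by_cases h0 : (Matrix.of fun k k' => aeval Z (pderiv (c k') (G k)) : Matrix κ κ K).det = 0
    · exact Or.inl h0
    · right
      have h2 := hcon c h0
      have h3 := (Pool.Agent.Y988.NT.reg_det P
        (Matrix.of fun k k' => aeval Z (pderiv (c k') (G k)) : Matrix κ κ K) (fun k k' =>
          reg_aeval' hr _)).resolve_left h0
      omega
  have h4 : Ge P 1 (1 : K) := by
    rw [h]
    refine Ge.sum _ _ fun c _ => ?_
    have h6 := (show Ge P 0 (aeval Z (B c)) from reg_aeval' hr (B c)).mul (h3 c)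
    simpa using h6
  rcases h4 with h4 | h4
  · exact one_ne_zero h4
  · rw [P.ord_one] at h4
    omega
where
  reg_aeval' {P : Place ℂ K} {Z : ι → K} (hZ : ∀ b, P.Reg (Z b)) (G : MvPolynomial ι ℂ) :
      P.Reg (aeval Z G) := by
    induction G using MvPolynomial.induction_on with
    | C a =>
      rw [aeval_C]
      exact P.reg_const a
    | add p q hp hq => rw [map_add]; exact P.reg_add hp hq
    | mul_X p i hp => rw [map_mul, aeval_X]; exact P.reg_mul hp (hZ i)

theorem reg_aeval {P : Place ℂ K} {Z : ι → K} (hZ : ∀ b, P.Reg (Z b)) (G : MvPolynomial ι ℂ) :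
    P.Reg (aeval Z G) := by
  induction G using MvPolynomial.induction_on with
  | C a =>
    rw [aeval_C]
    exact P.reg_const a
  | add p q hp hq => rw [map_add]; exact P.reg_add hp hq
  | mul_X p i hp => rw [map_mul, aeval_X]; exact P.reg_mul hp (hZ i)

theorem der_aeval (D : Derivation ℂ K K) (x : ι → K) (F : MvPolynomial ι ℂ) :
    D (aeval x F) = ∑ l, aeval x (pderiv l F) * D (x l) := by
  induction F using MvPolynomial.induction_on with
  | C a => simp
  | add p q hp hq => simp only [map_add, hp, hq, add_mul, Finset.sum_add_distrib]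
  | mul_X p i hp =>
    have h1 : ∀ b, aeval x (pderiv b (p * X i)) * D (x b) =
        (if b = i then aeval x p * D (x b) else 0) + x i * (aeval x (pderiv b p) * D (x b)) := by
      intro b
      rw [(pderiv b).leibniz, smul_eq_mul, smul_eq_mul, map_add, map_mul, map_mul, aeval_X,
        pderiv_X, add_mul]
      congr 1
      · by_cases hb : b = i
        · subst hb
          simp
        · rw [if_neg hb, Pi.single_eq_of_ne (Ne.symm hb)]
          simp
      · ring
    rw [map_mul, aeval_X, D.leibniz, hp, Finset.sum_congr rfl fun b _ => h1 b,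
      Finset.sum_add_distrib, Finset.sum_ite_eq' Finset.univ i, if_pos (Finset.mem_univ _),
      ← Finset.mul_sum, smul_eq_mul, smul_eq_mul]

/-- the rows which are given by an invertible minor of the Jacobian matrix -/
noncomputable def crow (J : κ → ι → K) (c : κ → ι) (k' : κ) (i : ι) : K :=
  ∑ k, if c k = i then (Matrix.of fun k k' => J k (c k') : Matrix κ κ K)⁻¹ k k' else 0

theorem crow_spec {J : κ → ι → K} {c : κ → ι}
    (hc : (Matrix.of fun k k' => J k (c k') : Matrix κ κ K).det ≠ 0) (k k' : κ) :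
    ∑ i, J k i * crow J c k' i = if k = k' then 1 else 0 := by
  have h1 : ∑ i, J k i * crow J c k' i = ∑ l, J k (c l) *
      (Matrix.of fun k k' => J k (c k') : Matrix κ κ K)⁻¹ l k' := by
    simp only [crow, Finset.mul_sum]
    rw [Finset.sum_comm]
    refine Finset.sum_congr rfl fun l _ => ?_
    rw [Finset.sum_eq_single (c l)]
    · rw [if_pos rfl]
    · intro i _ hi
      rw [if_neg (Ne.symm hi), mul_zero]
    · intro h
      exact absurd (Finset.mem_univ _) h
  rw [h1]
  have h2 := congrFun (congrFun (Matrix.mul_nonsing_inv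
    (Matrix.of fun k k' => J k (c k') : Matrix κ κ K) (isUnit_iff_ne_zero.2 hc)) k) k'
  rw [Matrix.mul_apply, Matrix.one_apply] at h2
  exact h2

theorem crow_reg (P : Place ℂ K) {J : κ → ι → K} {c : κ → ι}
    (hc : (Matrix.of fun k k' => J k (c k') : Matrix κ κ K).det ≠ 0)
    (hc0 : P.ord (Matrix.of fun k k' => J k (c k') : Matrix κ κ K).det = 0)
    (hJ : ∀ k i, P.Reg (J k i)) (k' : κ) (i : ι) : P.Reg (crow J c k' i) := by
  refine P.O.sum_mem fun k _ => ?_
  change P.Reg _
  by_cases h : c k = i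
  · rw [if_pos h, Matrix.inv_def, Matrix.smul_apply, smul_eq_mul, Ring.inverse_eq_inv']
    refine P.reg_mul ?_ ?_
    · right
      rw [P.ord_inv, hc0]
      simp
    · rw [Matrix.adjugate_apply]
      refine Pool.Agent.Y988.NT.reg_det P _ fun a b => ?_
      rw [Matrix.updateRow_apply]
      by_cases hb : a = k'
      · rw [if_pos hb]
        by_cases hb2 : b = k
        · rw [hb2, Pi.single_eq_same]
          exact P.reg_one
        · rw [Pi.single_eq_of_ne hb2]
          exact P.reg_zero
      · rw [if_neg hb]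
        exact hJ _ _
  · rw [if_neg h]
    exact P.reg_zero

variable {n : ℕ}

/-- the canonical form -/
theorem cmat_pluri (e : κ ⊕ Fin n ≃ ι) (C : κ → ι → K) (x : ι → K) :
    IsPluri 1 (fun D : Fin n → Derivation ℂ K K => (cmat e C fun j i => D j (x i)).det) := by
  intro M D
  change (cmat e C fun j i => (∑ j', M j j' • D j') (x i)).det = _
  have h1 : (fun (j : Fin n) (i : ι) => (∑ j', M j j' • D j') (x i)) =
      fun j i => ∑ j', M j j' * D j' (x i) := by
    funext j i
    exact Pool.Agent.Y988.NT.sum_der (M j) D (x i)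
  rw [h1, cmat_rows, pow_one]

/-- the residue forms are regular -/
theorem ci_reg {d : κ → ι → ℕ} {F : κ → MvPolynomial ι ℂ} (hF : ∀ k i, (F k).degreeOf i ≤ d k i)
    (hs : Smooth d F) (e : κ ⊕ Fin n ≃ ι) {x : ι → K} (hx : ∀ k, aeval x (F k) = 0)
    {C : κ → ι → K}
    (hC : ∀ k k', ∑ i, aeval x (pderiv i (F k)) * C k' i = if k = k' then 1 else 0)
    {a : ι → ℕ} (ha : ∀ i, a i + 2 ≤ ∑ k, d k i) (P : Place ℂ K) :
    RegAt P (fun D : Fin n → Derivation ℂ K K =>
      (∏ i, x i ^ a i) * (cmat e C fun j i => D j (x i)).det) := by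
  intro D hD
  obtain ⟨S, hSmem⟩ : ∃ S : Finset ι, ∀ i, i ∈ S ↔ ¬ P.Reg (x i) := by
    classical
    exact ⟨Finset.univ.filter fun i => ¬ P.Reg (x i), fun i => by simp⟩
  have hxS : ∀ i ∈ S, x i ≠ 0 := by
    intro i hi h0
    apply (hSmem i).1 hi
    rw [h0]
    exact P.reg_zero
  have hinv : ∀ i, ¬ P.Reg (x i) → P.Reg (x i)⁻¹ := by
    intro i hi
    right
    rw [P.ord_inv]
    by_contra h
    exact hi (Or.inr (by omega))
  have hreg : ∀ i, P.Reg (inv S x i) := by
    intro i
    by_cases hi : i ∈ S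
    · rw [inv, if_pos hi]
      exact hinv i ((hSmem i).1 hi)
    · rw [inv, if_neg hi]
      by_contra h
      exact hi ((hSmem i).2 h)
  have hG0 : ∀ k, aeval (inv S x) (chart (d k) S (F k)) = 0 := fun k => by
    rw [aeval_chart hxS (hF k), hx, mul_zero]
  obtain ⟨c, hc1, hc2⟩ := exists_minor_unit P (hs S) hG0 hreg
  obtain ⟨J, hJ⟩ : ∃ J : κ → ι → K,
    J = fun k i => aeval (inv S x) (pderiv i (chart (d k) S (F k))) := ⟨_, rfl⟩
  have hcJ : (Matrix.of fun k k' => J k (c k') : Matrix κ κ K).det ≠ 0 := by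
    rw [hJ]
    exact hc1
  have hcJ0 : P.ord (Matrix.of fun k k' => J k (c k') : Matrix κ κ K).det = 0 := by
    rw [hJ]
    exact hc2
  have hJr : ∀ k i, P.Reg (J k i) := fun k i => by
    rw [hJ]
    exact reg_aeval hreg _
  have hfac : ∀ k, fac (d k) S x ≠ 0 := by
    intro k
    rw [fac]
    refine Finset.prod_ne_zero_iff.2 fun i _ => ?_
    by_cases hi : i ∈ S
    · rw [if_pos hi]
      exact pow_ne_zero _ (inv_ne_zero (hxS i hi))
    · rw [if_neg hi]
      exact one_ne_zero
  have htf : ∀ i, tf S x i ≠ 0 := by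
    intro i
    by_cases hi : i ∈ S
    · rw [tf, if_pos hi]
      exact neg_ne_zero.2 (pow_ne_zero _ (inv_ne_zero (hxS i hi)))
    · rw [tf, if_neg hi]
      exact one_ne_zero
  have hC1 : ∀ k k', ∑ i, J k i * ((fac (d k') S x)⁻¹ * (tf S x i * C k' i)) =
      if k = k' then 1 else 0 := by
    intro k k'
    have h1 : ∑ i, J k i * ((fac (d k') S x)⁻¹ * (tf S x i * C k' i)) =
        (fac (d k') S x)⁻¹ * fac (d k) S x * ∑ i, aeval x (pderiv i (F k)) * C k' i := by
      rw [Finset.mul_sum]
      refine Finset.sum_congr rfl fun i _ => ?_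
      have h2 := pd_chart hxS (hF k) (hx k) i
      rw [hJ]
      linear_combination (fac (d k') S x)⁻¹ * C k' i * h2
    rw [h1, hC]
    by_cases h : k = k'
    · rw [if_pos h, h, mul_one, inv_mul_cancel₀ (hfac k')]
    · rw [if_neg h, mul_zero]
  have hR : ∀ k (j : Fin n), ∑ i, J k i * (tf S x i * D j (x i)) = 0 := by
    intro k j
    have h1 : ∑ i, J k i * (tf S x i * D j (x i)) = D j (aeval (inv S x)
        (chart (d k) S (F k))) := by
      rw [der_aeval, hJ]
      exact Finset.sum_congr rfl fun i _ => by rw [der_inv]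
    rw [h1, hG0, map_zero]
  have h1 := det_indep (e := e) hC1 (crow_spec hcJ) hR
  rw [cmat_scale e C (fun j i => D j (x i)) (tf S x) fun k => (fac (d k) S x)⁻¹] at h1
  have h3 : (∏ i, x i ^ a i) * (cmat e C fun j i => D j (x i)).det =
      (∏ i, (x i ^ a i * ((if i ∈ S then (x i)⁻¹ ^ (∑ k, d k i) else 1) * (tf S x i)⁻¹))) *
      (cmat e (crow J c) fun j i => tf S x i * D j (x i)).det := by
    have h4 : ∏ l, tf S x l ≠ 0 := Finset.prod_ne_zero_iff.2 fun i _ => htf i
    have h5 : ∏ k, fac (d k) S x ≠ 0 := Finset.prod_ne_zero_iff.2 fun k _ => hfac k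
    have h6 : ∏ k, fac (d k) S x = ∏ i, if i ∈ S then (x i)⁻¹ ^ (∑ k, d k i) else 1 := by
      simp only [fac]
      rw [Finset.prod_comm]
      refine Finset.prod_congr rfl fun i _ => ?_
      by_cases hi : i ∈ S
      · simp only [if_pos hi]
        rw [Finset.prod_pow_eq_pow_sum]
      · simp only [if_neg hi, Finset.prod_const_one]
    rw [← h1, Finset.prod_mul_distrib, Finset.prod_mul_distrib, Finset.prod_inv_distrib,
      Finset.prod_inv_distrib, ← h6]
    field_simp
  change P.Reg ((∏ i, x i ^ a i) * (cmat e C fun j i => D j (x i)).det)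
  rw [h3]
  refine P.reg_mul ?_ (Pool.Agent.Y988.NT.reg_det P _ fun a b => ?_)
  · refine P.O.prod_mem fun i _ => ?_
    change P.Reg _
    by_cases hi : i ∈ S
    · rw [tf, if_pos hi, if_pos hi]
      have h5 : x i ^ a i * ((x i)⁻¹ ^ (∑ k, d k i) * (-((x i)⁻¹ ^ 2))⁻¹) =
          -((x i)⁻¹ ^ (∑ k, d k i - 2 - a i)) := by
        have h6 := hxS i hi
        obtain ⟨q, hq⟩ : ∃ q, ∑ k, d k i = q + a i + 2 :=
          ⟨∑ k, d k i - 2 - a i, by have := ha i; omega⟩
        have h7 : ∑ k, d k i - 2 - a i = q := by omega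
        rw [h7, hq]
        simp only [inv_pow, pow_add]
        field_simp
      rw [h5]
      exact P.reg_neg (P.O.pow_mem (hinv i ((hSmem i).1 hi)) _)
    · rw [tf, if_neg hi, if_neg hi, inv_one, mul_one, mul_one]
      have h6 := hreg i
      rw [inv, if_neg hi] at h6
      exact P.O.pow_mem h6 _
  · cases a with
    | inl k => exact crow_reg P hcJ hcJ0 hJr k (e b)
    | inr j =>
      have h6 : (cmat e (crow J c) fun j i => tf S x i * D j (x i)) (Sum.inr j) b =
          D j (inv S x (e b)) := (der_inv S x (D j) (e b)).symm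
      rw [h6]
      exact hD j _ (hreg (e b))

section generic

variable {F : κ → MvPolynomial ι ℂ} {e : κ ⊕ Fin n ≃ ι} {x : ι → K} {C : κ → ι → K}
  {D : Fin n → Derivation ℂ K K}

/-- the residue forms are not zero -/
theorem cmat_ne (hx : ∀ k, aeval x (F k) = 0)
    (hC : ∀ k k', ∑ i, aeval x (pderiv i (F k)) * C k' i = if k = k' then 1 else 0)
    (hgen : IntermediateField.adjoin ℂ (Set.range x) = ⊤) (hD : LinearIndependent K D) :
    (cmat e C fun j i => D j (x i)).det ≠ 0 := by
  intro hdet
  rw [← Matrix.exists_vecMul_eq_zero_iff] at hdet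
  obtain ⟨v, hv0, hv⟩ := hdet
  have h1 : ∀ i, ∑ k, v (Sum.inl k) * C k i + ∑ j, v (Sum.inr j) * D j (x i) = 0 := by
    intro i
    have h2 := congrFun hv (e.symm i)
    rw [Matrix.vecMul, dotProduct, Fintype.sum_sum_type] at h2
    simpa [cmat] using h2
  have h4 : ∀ k j, ∑ i, aeval x (pderiv i (F k)) * D j (x i) = 0 := by
    intro k j
    rw [← der_aeval, hx, map_zero]
  have h2 : ∀ k, v (Sum.inl k) = 0 := by
    intro k
    have h3 : ∑ i, aeval x (pderiv i (F k)) * (∑ k, v (Sum.inl k) * C k i +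
        ∑ j, v (Sum.inr j) * D j (x i)) = v (Sum.inl k) := by
      simp only [mul_add, Finset.sum_add_distrib, Finset.mul_sum]
      rw [Finset.sum_comm, Finset.sum_comm (s := Finset.univ) (t := (Finset.univ : Finset (Fin n)))]
      have h5 : ∀ j, ∑ i, aeval x (pderiv i (F k)) * (v (Sum.inr j) * D j (x i)) = 0 := by
        intro j
        rw [← mul_zero (v (Sum.inr j)), ← h4 k j, Finset.mul_sum]
        exact Finset.sum_congr rfl fun i _ => by ring
      have h6 : ∀ k', ∑ i, aeval x (pderiv i (F k)) * (v (Sum.inl k') * C k' i) =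
          if k = k' then v (Sum.inl k') else 0 := by
        intro k'
        have h7 : ∑ i, aeval x (pderiv i (F k)) * (v (Sum.inl k') * C k' i) =
            v (Sum.inl k') * ∑ i, aeval x (pderiv i (F k)) * C k' i := by
          rw [Finset.mul_sum]
          exact Finset.sum_congr rfl fun i _ => by ring
        rw [h7, hC]
        by_cases h : k = k'
        · rw [if_pos h, if_pos h, mul_one]
        · rw [if_neg h, if_neg h, mul_zero]
      rw [Finset.sum_congr rfl fun j _ => h5 j, Finset.sum_congr rfl fun k' _ => h6 k']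
      simp
    rw [← h3]
    exact Finset.sum_eq_zero fun i _ => by rw [h1 i, mul_zero]
  have h3 : (∑ j : Fin n, v (Sum.inr j) • D j) = 0 := by
    obtain ⟨N, σ, hσ⟩ : ∃ (N : ℕ) (σ : Fin N ≃ ι), True :=
      ⟨Fintype.card ι, (Fintype.equivFin ι).symm, trivial⟩
    apply Pool.Agent.R882.WR.der_zero (Z := fun a => x (σ a))
    · have h5 : Set.range (fun a => x (σ a)) = Set.range x := σ.surjective.range_comp x
      rw [h5, hgen]
    · intro a
      rw [Pool.Agent.Y988.NT.sum_der]
      have h5 := h1 (σ a)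
      rw [Finset.sum_eq_zero fun k _ => by rw [h2 k, zero_mul], zero_add] at h5
      exact h5
  rw [Fintype.linearIndependent_iff] at hD
  apply hv0
  funext a
  cases a with
  | inl k => exact h2 k
  | inr j => exact hD (fun j => v (Sum.inr j)) h3 j

/-- if a coordinate does not occur in the gradients then there is a vector field in its
direction -/
theorem exists_der (hx : ∀ k, aeval x (F k) = 0)
    (hC : ∀ k k', ∑ i, aeval x (pderiv i (F k)) * C k' i = if k = k' then 1 else 0)
    (hdet : (cmat e C fun j i => D j (x i)).det ≠ 0) {i0 : ι}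
    (h0 : ∀ k, aeval x (pderiv i0 (F k)) = 0) :
    ∃ D' : Derivation ℂ K K, ∀ i, D' (x i) = if i = i0 then 1 else 0 := by
  obtain ⟨M, hM⟩ : ∃ M, M = cmat e C fun j i => D j (x i) := ⟨_, rfl⟩
  rw [← hM] at hdet
  have hu : IsUnit M.det := isUnit_iff_ne_zero.2 hdet
  obtain ⟨u, hu'⟩ : ∃ u : κ ⊕ Fin n → K, u = fun b => if e b = i0 then 1 else 0 := ⟨_, rfl⟩
  obtain ⟨v, hv⟩ : ∃ v, v = Matrix.vecMul u M⁻¹ := ⟨_, rfl⟩
  have hvM : Matrix.vecMul v M = u := by
    rw [hv, Matrix.vecMul_vecMul, Matrix.nonsing_inv_mul _ hu, Matrix.vecMul_one]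
  have h1 : ∀ i, ∑ k, v (Sum.inl k) * C k i + ∑ j, v (Sum.inr j) * D j (x i) =
      if i = i0 then 1 else 0 := by
    intro i
    have h2 := congrFun hvM (e.symm i)
    rw [Matrix.vecMul, dotProduct, Fintype.sum_sum_type, hM, hu'] at h2
    simpa [cmat] using h2
  have h4 : ∀ k j, ∑ i, aeval x (pderiv i (F k)) * D j (x i) = 0 := by
    intro k j
    rw [← der_aeval, hx, map_zero]
  have h2 : ∀ k, v (Sum.inl k) = 0 := by
    intro k
    have h3 : ∑ i, aeval x (pderiv i (F k)) * (∑ k, v (Sum.inl k) * C k i +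
        ∑ j, v (Sum.inr j) * D j (x i)) = v (Sum.inl k) := by
      simp only [mul_add, Finset.sum_add_distrib, Finset.mul_sum]
      rw [Finset.sum_comm, Finset.sum_comm (s := Finset.univ) (t := (Finset.univ : Finset (Fin n)))]
      have h5 : ∀ j, ∑ i, aeval x (pderiv i (F k)) * (v (Sum.inr j) * D j (x i)) = 0 := by
        intro j
        rw [← mul_zero (v (Sum.inr j)), ← h4 k j, Finset.mul_sum]
        exact Finset.sum_congr rfl fun i _ => by ring
      have h6 : ∀ k', ∑ i, aeval x (pderiv i (F k)) * (v (Sum.inl k') * C k' i) =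
          if k = k' then v (Sum.inl k') else 0 := by
        intro k'
        have h7 : ∑ i, aeval x (pderiv i (F k)) * (v (Sum.inl k') * C k' i) =
            v (Sum.inl k') * ∑ i, aeval x (pderiv i (F k)) * C k' i := by
          rw [Finset.mul_sum]
          exact Finset.sum_congr rfl fun i _ => by ring
        rw [h7, hC]
        by_cases h : k = k'
        · rw [if_pos h, if_pos h, mul_one]
        · rw [if_neg h, if_neg h, mul_zero]
      rw [Finset.sum_congr rfl fun j _ => h5 j, Finset.sum_congr rfl fun k' _ => h6 k']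
      simp
    rw [← h3, Finset.sum_congr rfl fun i _ => by rw [h1 i], Finset.sum_eq_single i0]
    · rw [h0, zero_mul]
    · intro i _ hi
      rw [if_neg hi, mul_zero]
    · intro h
      exact absurd (Finset.mem_univ _) h
  refine ⟨∑ j : Fin n, v (Sum.inr j) • D j, fun i => ?_⟩
  rw [Pool.Agent.Y988.NT.sum_der]
  have h5 := h1 i
  rw [Finset.sum_eq_zero fun k _ => by rw [h2 k, zero_mul], zero_add] at h5
  exact h5

end generic

end

end Pool.Agent.R882.CI
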