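import Pool.Agent.R882.PMain
import Pool.Agent.R882.CReg
import Pool.Agent.Y184.NT.Top

/-!
Varieties dominated by smooth complete intersections in a product of projective lines: the fibres
lie on lines in coordinate directions.
-/

set_option autoImplicit false
set_option linter.unusedSectionVars false
set_option linter.overlappingInstances false

open FF MvPolynomial Pool.Agent.W603.LV Pool.Agent.W602.GT Pool.Agent.Y184.NT

namespace Pool.Agent.R882.CI

section

variable {L K : Type} [Field L] [Field K] [Algebra ℂ L] [Algebra ℂ K] [Algebra L K]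
  [IsScalarTower ℂ L K] [FiniteDimensional L K] [Algebra.EssFiniteType ℂ L]
  [Algebra.EssFiniteType ℂ K] {n N : ℕ}

theorem prod_monom {m : ℕ} (x : Fin N → K) (f : Fin m → Fin (N + 1)) :
    ∃ e : Fin N → ℕ, (∀ i, e i ≤ m) ∧
      ∏ k, (Fin.cons 1 x : Fin (N + 1) → K) (f k) = ∏ i, x i ^ e i := by
  classical
  refine ⟨fun i => (Finset.univ.filter fun k => f k = i.succ).card, fun i => ?_, ?_⟩
  · refine le_trans (Finset.card_le_univ _) ?_
    rw [Fintype.card_fin]
  · have h1 : ∏ k, (Fin.cons 1 x : Fin (N + 1) → K) (f k) =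
        ∏ j, ∏ k ∈ Finset.univ.filter (fun k => f k = j), (Fin.cons 1 x : Fin (N + 1) → K) j := by
      rw [← Finset.prod_fiberwise_of_maps_to (s := Finset.univ) (t := Finset.univ) (g := f)
        (fun _ _ => Finset.mem_univ _)]
      refine Finset.prod_congr rfl fun j _ => Finset.prod_congr rfl fun k hk => ?_
      rw [(Finset.mem_filter.1 hk).2]
    rw [h1, Fin.prod_univ_succ]
    simp only [Fin.cons_zero, Finset.prod_const_one, one_mul, Finset.prod_const, Fin.cons_succ]

/-- **The fibres lie on lines in coordinate directions.** -/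
theorem line_dirN (hL : Algebra.trdeg ℂ L = n)
    (hpg : ∀ ω : (Fin n → Derivation ℂ L L) → L, IsPluri 1 ω →
      (∀ P : Place ℂ L, Divisorial n P → RegAt P ω) → ∀ D, ω D = 0)
    {x : Fin N → K} (hgen : IntermediateField.adjoin ℂ (Set.range x) = ⊤)
    {ω : (Fin n → Derivation ℂ K K) → K} (hω : IsPluri 1 ω) {m : Fin N → ℕ} {m0 : ℕ}
    (hm0 : ∀ i, m0 ≤ m i)
    (hreg : ∀ e : Fin N → ℕ, (∀ i, e i ≤ m i) → ∀ P : Place ℂ K, Divisorial n P →
      RegAt P (fun D => (∏ i, x i ^ e i) * ω D))
    {E : Fin n → Derivation ℂ L L} {E' : Fin n → Derivation ℂ K K}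
    (hE' : ∀ i f, E' i (algebraMap L K f) = algebraMap L K (E i f)) (hne : ω E' ≠ 0)
    (hdeg : Module.finrank L K ≤ 2 * m0 + 1) :
    ∃ i0, (∀ j, j ≠ i0 → x j ∈ Set.range (algebraMap L K)) ∧ m i0 + 2 ≤ Module.finrank L K := by
  classical
  have hcL : CharZero L := charZero_of_injective_algebraMap (algebraMap ℂ L).injective
  have ht : ∀ e : Fin N → ℕ, (∀ i, e i ≤ m i) →
      Algebra.trace L K ((∏ i, x i ^ e i) * ω E') = 0 := by
    intro e he
    refine Pool.Agent.Y692.NT.t_Tr L K n hL hpg (fun D => (∏ i, x i ^ e i) * ω D) ?_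
      (hreg e he) E E' hE'
    intro A D
    change (∏ i, x i ^ e i) * ω (fun i => ∑ j, A i j • D j) = _
    rw [hω A D]
    ring
  obtain ⟨X, hX⟩ : ∃ X : Fin (N + 1) → K, X = Fin.cons 1 x := ⟨_, rfl⟩
  have hX0 : X 0 = 1 := by rw [hX, Fin.cons_zero]
  have hXs : ∀ i : Fin N, X i.succ = x i := fun i => by rw [hX, Fin.cons_succ]
  have hgenL : IntermediateField.adjoin L (Set.range X) = ⊤ := by
    rw [eq_top_iff]
    intro y _
    have h1 : y ∈ IntermediateField.adjoin ℂ (Set.range x) := by
      rw [hgen]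
      trivial
    have h2 : IntermediateField.adjoin ℂ (Set.range x) ≤
        (IntermediateField.adjoin L (Set.range X)).restrictScalars ℂ := by
      rw [IntermediateField.adjoin_le_iff]
      rintro _ ⟨i, rfl⟩
      rw [← hXs]
      exact IntermediateField.subset_adjoin L _ ⟨i.succ, rfl⟩
    exact h2 h1
  obtain ⟨hr, a, b, τ, hab, hτ, hli⟩ := Pool.Agent.Y614.NT.stLine Pool.Agent.Y153.NT.stCB L K
    (N + 1) m0 X 0 hX0 hgenL (ω E') hne (fun f => by
      obtain ⟨e, he, h1⟩ := prod_monom x f
      rw [hX, h1]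
      exact ht e fun i => le_trans (he i) (hm0 i)) hdeg
  -- the generator is not in the base
  have hτL : ∀ c : L, algebraMap L K c ≠ τ := by
    intro c hc
    have h1 : IntermediateField.adjoin L {τ} = ⊥ := by
      rw [← hc, IntermediateField.adjoin_simple_eq_bot_iff]
      exact IntermediateField.algebraMap_mem _ c
    rw [hτ] at h1
    have h2 : Module.finrank L K = 1 := by
      rw [← IntermediateField.finrank_top', h1, IntermediateField.finrank_bot]
    omega
  have hb0 : b 0 = 0 := by
    by_contra hb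
    have h1 := hab 0
    rw [hX0] at h1
    apply hτL ((1 - a 0) / b 0)
    have h2 : algebraMap L K (b 0) ≠ 0 := (map_ne_zero _).2 hb
    rw [map_div₀, map_sub, map_one, div_eq_iff h2]
    linear_combination h1
  obtain ⟨i0, hi0⟩ : ∃ i0 : Fin N, b i0.succ ≠ 0 := by
    by_contra hcon
    push Not at hcon
    have h1 : b = 0 := by
      funext j
      refine Fin.cases ?_ (fun i => ?_) j
      · exact hb0
      · exact hcon i
    have h2 := hli.ne_zero 1
    apply h2
    simpa using h1
  have hsolve : ∀ i : Fin N, b i.succ ≠ 0 → τ = algebraMap L K (-(a i.succ) / b i.succ) +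
      algebraMap L K (b i.succ)⁻¹ * x i := by
    intro i hi
    have h1 := hab i.succ
    rw [hXs] at h1
    have h2 : algebraMap L K (b i.succ) ≠ 0 := (map_ne_zero _).2 hi
    rw [h1, map_div₀, map_neg, map_inv₀]
    field_simp
    ring
  refine ⟨i0, fun j hj => ?_, ?_⟩
  · by_cases hbj : b j.succ = 0
    · have h1 := hab j.succ
      rw [hXs, hbj, map_zero, mul_zero, add_zero] at h1
      exact ⟨_, h1.symm⟩
    · exfalso
      apply hne
      refine Pool.Agent.R882.PL.two_dirs (hsolve i0 hi0) (hsolve j hbj) hτ (m := m i0) (m' := m j)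
        (fun p q hp hq => ?_) (by have := hm0 i0; have := hm0 j; omega)
      have h2 := ht (fun i => if i = i0 then p else if i = j then q else 0) (fun i => by
        by_cases h3 : i = i0
        · rw [if_pos h3, h3]
          exact hp
        · rw [if_neg h3]
          by_cases h4 : i = j
          · rw [if_pos h4, h4]
            exact hq
          · rw [if_neg h4]
            exact Nat.zero_le _)
      have h3 : ∏ i, x i ^ (if i = i0 then p else if i = j then q else 0) =
          x i0 ^ p * x j ^ q := by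
        rw [← Finset.mul_prod_erase Finset.univ _ (Finset.mem_univ i0), if_pos rfl]
        congr 1
        rw [← Finset.mul_prod_erase (Finset.univ.erase i0) _
          (Finset.mem_erase.2 ⟨hj, Finset.mem_univ j⟩), if_neg hj, if_pos rfl,
          Finset.prod_eq_one, mul_one]
        intro i hi
        rw [Finset.mem_erase, Finset.mem_erase] at hi
        rw [if_neg hi.2.1, if_neg hi.1, pow_zero]
      rw [h3] at h2
      exact h2
  · by_contra hcon
    apply hne
    refine Pool.Agent.R882.PL.one_dir (hsolve i0 hi0) hτ (m := m i0) (fun p hp => ?_) (by omega)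
    have h2 := ht (fun i => if i = i0 then p else 0) (fun i => by
      by_cases h3 : i = i0
      · rw [if_pos h3, h3]
        exact hp
      · rw [if_neg h3]
        exact Nat.zero_le _)
    have h3 : ∏ i, x i ^ (if i = i0 then p else 0) = x i0 ^ p := by
      rw [← Finset.mul_prod_erase Finset.univ _ (Finset.mem_univ i0), if_pos rfl,
        Finset.prod_eq_one, mul_one]
      intro i hi
      rw [if_neg (Finset.ne_of_mem_erase hi), pow_zero]
    rw [h3] at h2
    exact h2

end


section

variable {L K : Type} [Field L] [Field K] [Algebra ℂ L] [Algebra ℂ K] [Algebra L K]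
  [IsScalarTower ℂ L K] [FiniteDimensional L K] [Algebra.EssFiniteType ℂ L]
  [Algebra.EssFiniteType ℂ K] {n : ℕ} {ι : Type} [Fintype ι] [DecidableEq ι]

/-- **The fibres lie on lines in coordinate directions.** -/
theorem line_dir (hL : Algebra.trdeg ℂ L = n)
    (hpg : ∀ ω : (Fin n → Derivation ℂ L L) → L, IsPluri 1 ω →
      (∀ P : Place ℂ L, Divisorial n P → RegAt P ω) → ∀ D, ω D = 0)
    {x : ι → K} (hgen : IntermediateField.adjoin ℂ (Set.range x) = ⊤)
    {ω : (Fin n → Derivation ℂ K K) → K} (hω : IsPluri 1 ω) {m : ι → ℕ} {m0 : ℕ}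
    (hm0 : ∀ i, m0 ≤ m i)
    (hreg : ∀ e : ι → ℕ, (∀ i, e i ≤ m i) → ∀ P : Place ℂ K, Divisorial n P →
      RegAt P (fun D => (∏ i, x i ^ e i) * ω D))
    {E : Fin n → Derivation ℂ L L} {E' : Fin n → Derivation ℂ K K}
    (hE' : ∀ i f, E' i (algebraMap L K f) = algebraMap L K (E i f)) (hne : ω E' ≠ 0)
    (hdeg : Module.finrank L K ≤ 2 * m0 + 1) :
    ∃ i0, (∀ j, j ≠ i0 → x j ∈ Set.range (algebraMap L K)) ∧ m i0 + 2 ≤ Module.finrank L K := by
  obtain ⟨N, σ⟩ : ∃ N : ℕ, Nonempty (Fin N ≃ ι) := ⟨_, ⟨(Fintype.equivFin ι).symm⟩⟩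
  obtain ⟨σ⟩ := σ
  obtain ⟨i0, h1, h2⟩ := line_dirN (L := L) (K := K) (n := n) (N := N) hL hpg
    (x := fun a => x (σ a)) (by
      have h5 : Set.range (fun a => x (σ a)) = Set.range x := σ.surjective.range_comp x
      rw [h5, hgen]) hω (m := fun a => m (σ a)) (m0 := m0) (fun a => hm0 _)
    (fun e he P hP => by
      have h3 := hreg (fun i => e (σ.symm i)) (fun i => by
        have h4 := he (σ.symm i)
        rw [σ.apply_symm_apply] at h4
        exact h4) P hP
      have h4 : ∏ a, x (σ a) ^ e a = ∏ i, x i ^ e (σ.symm i) := by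
        rw [← σ.prod_comp]
        exact Finset.prod_congr rfl fun a _ => by rw [σ.symm_apply_apply]
      rw [h4]
      exact h3) hE' hne hdeg
  refine ⟨σ i0, fun j hj => ?_, h2⟩
  have h3 := h1 (σ.symm j) (fun h => hj (by rw [← h, σ.apply_symm_apply]))
  rw [σ.apply_symm_apply] at h3
  exact h3

end

end Pool.Agent.R882.CI
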