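import Pool.Agent.R882.CDeg
import Pool.Agent.R882.CLine

/-!
Smooth complete intersections in a product of projective lines: if a coordinate occurs in only one
of the equations then the other equations define a smooth complete intersection.
-/

set_option autoImplicit false
set_option linter.unusedSectionVars false
set_option linter.unusedDecidableInType false
set_option linter.unusedFintypeInType false

open FF MvPolynomial Pool.Agent.W603.LV Pool.Agent.W602.GT Pool.Agent.Y184.NT

namespace Pool.Agent.R882.CI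

section

variable {ι : Type} [Fintype ι] [DecidableEq ι]

theorem chart_rename {l : ι} {d : ι → ℕ} (hd : d l = 0) {S : Finset ι} {T : Finset {i // i ≠ l}}
    (hST : ∀ i : {i // i ≠ l}, (i : ι) ∈ S ↔ i ∈ T) (G : MvPolynomial {i // i ≠ l} ℂ) :
    chart d S (rename Subtype.val G) = rename Subtype.val (chart (fun i => d i) T G) := by
  have hinj : Function.Injective (Subtype.val : {i // i ≠ l} → ι) := Subtype.val_injective
  rw [chart, chart, map_sum, support_rename_of_injective hinj,
    Finset.sum_image fun a _ b _ h => Finsupp.mapDomain_injective hinj h]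
  refine Finset.sum_congr rfl fun u _ => ?_
  rw [coeff_rename_mapDomain _ hinj, rename_monomial]
  have h0 : flip d S (Finsupp.mapDomain Subtype.val u) =
      Finsupp.mapDomain Subtype.val (flip (fun i : {i // i ≠ l} => d i) T u) := ?_
  · rw [h0]
  ext i
  rw [flip_apply]
  by_cases hi : i = l
  · have h1 : ∀ v : {i // i ≠ l} →₀ ℕ, Finsupp.mapDomain Subtype.val v i = 0 := by
      intro v
      refine Finsupp.mapDomain_of_notMem_range v i ?_
      rintro ⟨j, hj⟩
      exact j.2 (hj.trans hi)
    rw [h1, h1, hi, hd]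
    simp
  · have h1 : ∀ v : {i // i ≠ l} →₀ ℕ, Finsupp.mapDomain Subtype.val v i = v ⟨i, hi⟩ := fun v =>
      Finsupp.mapDomain_apply hinj v ⟨i, hi⟩
    rw [h1, h1, flip_apply]
    have h2 := hST ⟨i, hi⟩
    by_cases h3 : i ∈ S
    · rw [if_pos h3, if_pos (h2.1 h3)]
    · rw [if_neg h3, if_neg fun h => h3 (h2.2 h)]

/-- the values of the equation in a chart, as a polynomial in one of the coordinates -/
theorem eval_chart {l : ι} (d : ι → ℕ) {S : Finset ι} {T : Finset {i // i ≠ l}}
    (hST : ∀ i : {i // i ≠ l}, (i : ι) ∈ S ↔ i ∈ T) (G : MvPolynomial ι ℂ)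
    {w : ι → ℂ} {z : {i // i ≠ l} → ℂ} (hw : ∀ i : {i // i ≠ l}, w i = z i) :
    eval w (chart d S G) = ∑ u ∈ G.support, (G.coeff u *
      ∏ i : {i // i ≠ l}, z i ^ (if i ∈ T then d i - u i else u i)) *
        w l ^ (if l ∈ S then d l - u l else u l) := by
  rw [chart, map_sum]
  refine Finset.sum_congr rfl fun u _ => ?_
  rw [eval_monomial, Finsupp.prod_fintype _ _ fun i => by simp,
    Fintype.prod_eq_mul_prod_subtype_ne _ l, flip_apply]
  have h1 : ∏ i : {i // i ≠ l}, w i ^ flip d S u i =
      ∏ i : {i // i ≠ l}, z i ^ (if i ∈ T then d i - u i else u i) := by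
    refine Finset.prod_congr rfl fun i _ => ?_
    rw [hw, flip_apply]
    congr 1
    by_cases h3 : (i : ι) ∈ S
    · rw [if_pos h3, if_pos ((hST i).1 h3)]
    · rw [if_neg h3, if_neg fun h => h3 ((hST i).2 h)]
  rw [h1]
  ring

/-- A hypersurface whose degree in one of the coordinates is positive contains a point over each
point of the product of the other projective lines. -/
theorem exists_pt {l : ι} {d : ι → ℕ} (hd : 1 ≤ d l) {G : MvPolynomial ι ℂ}
    (hG : G.degreeOf l ≤ d l) (T : Finset {i // i ≠ l}) (z : {i // i ≠ l} → ℂ) :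
    ∃ (S : Finset ι) (w : ι → ℂ), (∀ i : {i // i ≠ l}, (i : ι) ∈ S ↔ i ∈ T) ∧
      (∀ i : {i // i ≠ l}, w i = z i) ∧ eval w (chart d S G) = 0 := by
  obtain ⟨S0, hS0⟩ : ∃ S0 : Finset ι, S0 = T.map (Function.Embedding.subtype _) := ⟨_, rfl⟩
  have hST : ∀ i : {i // i ≠ l}, (i : ι) ∈ S0 ↔ i ∈ T := by
    intro i
    rw [hS0, Finset.mem_map]
    constructor
    · rintro ⟨j, hj, h⟩
      have h2 : j = i := Subtype.ext h
      rwa [← h2]
    · intro h
      exact ⟨i, h, rfl⟩
  have hl : l ∉ S0 := by
    rw [hS0, Finset.mem_map]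
    rintro ⟨j, hj, h⟩
    exact j.2 h
  obtain ⟨w, hw⟩ : ∃ w : ℂ → ι → ℂ, w = fun t i => if h : i = l then t else z ⟨i, h⟩ := ⟨_, rfl⟩
  have hwl : ∀ t, w t l = t := fun t => by rw [hw]; simp
  have hwz : ∀ t, ∀ i : {i // i ≠ l}, w t i = z i := fun t i => by
    rw [hw]
    simp only
    rw [dif_neg i.2]
  obtain ⟨c, hc⟩ : ∃ c : (ι →₀ ℕ) → ℂ, c = fun u => G.coeff u *
      ∏ i : {i // i ≠ l}, z i ^ (if i ∈ T then d i - u i else u i) := ⟨_, rfl⟩
  obtain ⟨p, hp⟩ : ∃ p : Polynomial ℂ, p = ∑ u ∈ G.support, Polynomial.C (c u) *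
      Polynomial.X ^ (u l) := ⟨_, rfl⟩
  by_cases hdeg : p.degree = 0
  · refine ⟨insert l S0, w 0, fun i => ?_, hwz 0, ?_⟩
    · rw [Finset.mem_insert, ← hST i]
      constructor
      · rintro (h | h)
        · exact absurd h i.2
        · exact h
      · exact Or.inr
    · rw [eval_chart d (S := insert l S0) (T := T) (z := z) (fun i => by
        rw [Finset.mem_insert, ← hST i]
        constructor
        · rintro (h | h)
          · exact absurd h i.2
          · exact h
        · exact Or.inr) G (hwz 0), hwl]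
      have h1 : p.coeff (d l) = 0 := by
        apply Polynomial.coeff_eq_zero_of_degree_lt
        rw [hdeg]
        exact_mod_cast hd
      refine Eq.trans ?_ h1
      rw [hp, Polynomial.finsetSum_coeff]
      refine Finset.sum_congr rfl fun u hu => ?_
      rw [if_pos (Finset.mem_insert_self _ _), Polynomial.coeff_C_mul, Polynomial.coeff_X_pow, hc]
      have h2 : u l ≤ d l := le_trans (monomial_le_degreeOf l hu) hG
      congr 1
      by_cases h3 : d l = u l
      · rw [if_pos h3, h3, Nat.sub_self, pow_zero]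
      · rw [if_neg h3, zero_pow (by omega)]
  · obtain ⟨t, ht⟩ := IsAlgClosed.exists_root p hdeg
    refine ⟨S0, w t, hST, hwz t, ?_⟩
    rw [eval_chart d hST G (hwz t), hwl]
    refine Eq.trans ?_ ht.eq_zero
    rw [hp, Polynomial.eval_finsetSum]
    refine Finset.sum_congr rfl fun u _ => ?_
    rw [if_neg hl, Polynomial.eval_mul, Polynomial.eval_C, Polynomial.eval_pow,
      Polynomial.eval_X, hc]

variable {κ : Type} [Fintype κ] [DecidableEq κ]

theorem exists_drop {l : ι} {G : MvPolynomial ι ℂ} (h : G.degreeOf l = 0) :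
    ∃ H : MvPolynomial {i // i ≠ l} ℂ, rename Subtype.val H = G := by
  apply exists_rename_eq_of_vars_subset_range _ _ Subtype.val_injective
  intro i hi
  refine ⟨⟨i, ?_⟩, rfl⟩
  rintro rfl
  rw [Finset.mem_coe, mem_vars_iff_mem_support] at hi
  obtain ⟨u, hu, hiu⟩ := hi
  have h1 := monomial_le_degreeOf i hu
  rw [Finsupp.mem_support_iff] at hiu
  omega

theorem smooth_drop {d : κ → ι → ℕ} {F : κ → MvPolynomial ι ℂ}
    (hF : ∀ k i, (F k).degreeOf i ≤ d k i) (hs : Smooth d F) {l : ι} {k0 : κ}
    (hd : ∀ k, k ≠ k0 → d k l = 0) (h1 : 1 ≤ d k0 l)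
    {G : {k // k ≠ k0} → MvPolynomial {i // i ≠ l} ℂ}
    (hG : ∀ k, rename Subtype.val (G k) = F k) :
    Smooth (fun (k : {k // k ≠ k0}) (i : {i // i ≠ l}) => d k i) G := by
  intro T z hz
  obtain ⟨S, w, hST, hw, h0⟩ := exists_pt h1 (hF k0 l) T z
  have hinj : Function.Injective (Subtype.val : {i // i ≠ l} → ι) := Subtype.val_injective
  have key : ∀ k : {k // k ≠ k0}, chart (d k) S (F k) =
      rename Subtype.val (chart (fun i => d k i) T (G k)) := by
    intro k
    rw [← hG, chart_rename (hd k k.2) hST]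
  have hval : ∀ H : MvPolynomial {i // i ≠ l} ℂ, eval w (rename Subtype.val H) = eval z H := by
    intro H
    rw [eval_rename]
    congr 1
    congr 1
    funext i
    exact hw i
  have hzero : ∀ k, eval w (chart (d k) S (F k)) = 0 := by
    intro k
    by_cases hk : k = k0
    · rw [hk]
      exact h0
    · have h2 := key ⟨k, hk⟩
      simp only at h2
      rw [h2, hval]
      exact hz ⟨k, hk⟩
  have hli := (hs S w hzero).comp (Subtype.val : {k // k ≠ k0} → κ) Subtype.val_injective
  rw [Fintype.linearIndependent_iff] at hli ⊢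
  intro c hc k
  apply hli c _ k
  funext i
  rw [Finset.sum_apply]
  by_cases hi : i = l
  · refine Finset.sum_eq_zero fun k _ => ?_
    have h2 : pderiv i (chart (d k) S (F k)) = 0 := by
      rw [key]
      apply pderiv_eq_zero_of_notMem_vars
      intro h3
      have h4 := vars_rename (Subtype.val : {i // i ≠ l} → ι) _ h3
      rw [Finset.mem_image] at h4
      obtain ⟨j, -, hj⟩ := h4
      exact j.2 (hj.trans hi)
    rw [Pi.smul_apply]
    change c k • eval w (pderiv i (chart (d k) S (F k))) = 0
    rw [h2, map_zero, smul_zero]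
  · have h2 := congrFun hc ⟨i, hi⟩
    rw [Finset.sum_apply] at h2
    refine Eq.trans ?_ h2
    refine Finset.sum_congr rfl fun k _ => ?_
    rw [Pi.smul_apply, Pi.smul_apply]
    congr 1
    change eval w (pderiv i (chart (d k) S (F k))) = _
    rw [key]
    exact (congrArg (eval w) (pderiv_rename hinj (⟨i, hi⟩ : {i // i ≠ l})
      (chart (fun i => d k i) T (G k)))).trans (hval _)

end

end Pool.Agent.R882.CI
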