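import Pool.Agent.R882.CovDesc

/-!
The residues of rational forms with poles along a smooth complete intersection in a product of
projective lines.
-/

set_option autoImplicit false
set_option linter.unusedSectionVars false
set_option linter.unusedDecidableInType false
set_option linter.unusedFintypeInType false

open FF MvPolynomial Pool.Agent.W603.LV Pool.Agent.W602.GT Pool.Agent.Y184.NT

namespace Pool.Agent.R882.CI

section

variable {ι : Type} [Fintype ι] [DecidableEq ι]

/-- The exponent vector of a monomial in the affine chart of the product of projective lines (with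
the coordinates indexed by `ι`) in which the coordinates with index in `S` are replaced by their
inverses. -/
noncomputable def flip (d : ι → ℕ) (S : Finset ι) (u : ι →₀ ℕ) : ι →₀ ℕ :=
  Finsupp.equivFunOnFinite.symm fun i => if i ∈ S then d i - u i else u i

/-- The equation of the hypersurface `F = 0` of multidegree `d` in the chart `S`: the polynomial
`F(z') ∏ z_i ^ d_i`, `i ∈ S`, where `z'_i = z_i⁻¹` for `i ∈ S` and `z'_i = z_i` otherwise. -/
noncomputable def chart (d : ι → ℕ) (S : Finset ι) (F : MvPolynomial ι ℂ) : MvPolynomial ι ℂ :=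
  ∑ u ∈ F.support, monomial (flip d S u) (F.coeff u)

theorem flip_apply (d : ι → ℕ) (S : Finset ι) (u : ι →₀ ℕ) (i : ι) :
    flip d S u i = if i ∈ S then d i - u i else u i := rfl

variable {K : Type} [Field K] [Algebra ℂ K]

/-- the coordinates in the chart `S` -/
noncomputable def inv (S : Finset ι) (x : ι → K) (i : ι) : K :=
  if i ∈ S then (x i)⁻¹ else x i

/-- the derivative of the chart coordinates -/
noncomputable def tf (S : Finset ι) (x : ι → K) (i : ι) : K :=
  if i ∈ S then -((x i)⁻¹ ^ 2) else 1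

/-- the factor of the equation -/
noncomputable def fac (d : ι → ℕ) (S : Finset ι) (x : ι → K) : K :=
  ∏ i, if i ∈ S then (x i)⁻¹ ^ d i else 1

theorem der_inv (S : Finset ι) (x : ι → K) (D : Derivation ℂ K K) (i : ι) :
    D (inv S x i) = tf S x i * D (x i) := by
  by_cases hi : i ∈ S
  · rw [inv, tf, if_pos hi, if_pos hi, Derivation.leibniz_inv, smul_eq_mul]
  · rw [inv, tf, if_neg hi, if_neg hi, one_mul]

theorem mono_inv {d : ι → ℕ} {S : Finset ι} {x : ι → K}
    (hx : ∀ i ∈ S, x i ≠ 0) {u : ι →₀ ℕ} (hu : ∀ i, u i ≤ d i) :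
    ∏ i, inv S x i ^ flip d S u i = fac d S x * ∏ i, x i ^ u i := by
  rw [fac, ← Finset.prod_mul_distrib]
  refine Finset.prod_congr rfl fun i _ => ?_
  rw [flip_apply]
  by_cases hi : i ∈ S
  · rw [inv, if_pos hi, if_pos hi, if_pos hi]
    have h2 : x i ≠ 0 := hx i hi
    obtain ⟨e, he⟩ := Nat.exists_eq_add_of_le (hu i)
    rw [he, Nat.add_sub_cancel_left, pow_add, inv_pow, inv_pow]
    field_simp
  · rw [inv, if_neg hi, if_neg hi, if_neg hi, one_mul]

theorem aeval_mono (Z : ι → K) (u : ι →₀ ℕ) (c : ℂ) :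
    aeval Z (monomial u c) = algebraMap ℂ K c * ∏ i, Z i ^ u i := by
  rw [aeval_monomial, Finsupp.prod_fintype _ _ fun i => by simp]

theorem aeval_chart {d : ι → ℕ} {S : Finset ι} {x : ι → K}
    (hx : ∀ i ∈ S, x i ≠ 0) {F : MvPolynomial ι ℂ} (hF : ∀ i, F.degreeOf i ≤ d i) :
    aeval (inv S x) (chart d S F) = fac d S x * aeval x F := by
  conv_rhs => rw [F.as_sum]
  rw [chart, map_sum, map_sum, Finset.mul_sum]
  refine Finset.sum_congr rfl fun u hu => ?_
  rw [aeval_mono, aeval_mono, mono_inv hx fun i => le_trans (monomial_le_degreeOf i hu) (hF i)]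
  ring

/-- the value of the partial derivative of a monomial -/
theorem aeval_pd_mono {Z : ι → K} {l : ι} (hZ : Z l ≠ 0) (u : ι →₀ ℕ) (c : ℂ) :
    aeval Z (pderiv l (monomial u c)) = (u l : K) * (Z l)⁻¹ * aeval Z (monomial u c) := by
  rw [pderiv_monomial, aeval_mono, aeval_mono]
  by_cases h0 : u l = 0
  · rw [h0]
    simp
  obtain ⟨v, hv⟩ : ∃ v : ι →₀ ℕ, v = u - Finsupp.single l 1 := ⟨_, rfl⟩
  rw [← hv]
  have h1 : ∏ i, Z i ^ u i = Z l * ∏ i, Z i ^ v i := by
    rw [← Finset.mul_prod_erase Finset.univ (fun i => Z i ^ u i) (Finset.mem_univ l),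
      ← Finset.mul_prod_erase Finset.univ (fun i => Z i ^ v i) (Finset.mem_univ l), ← mul_assoc]
    congr 1
    · rw [hv, Finsupp.tsub_apply, Finsupp.single_eq_same, ← pow_succ']
      congr 1
      omega
    · refine Finset.prod_congr rfl fun i hi => ?_
      rw [hv, Finsupp.tsub_apply, Finsupp.single_eq_of_ne (Finset.ne_of_mem_erase hi),
        tsub_zero]
  rw [h1, map_mul, map_natCast]
  field_simp

/-- the change of the partial derivatives -/
theorem pd_chart {d : ι → ℕ} {S : Finset ι} {x : ι → K}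
    (hx : ∀ i ∈ S, x i ≠ 0) {F : MvPolynomial ι ℂ} (hF : ∀ i, F.degreeOf i ≤ d i)
    (h0 : aeval x F = 0) (l : ι) :
    aeval (inv S x) (pderiv l (chart d S F)) * tf S x l = fac d S x * aeval x (pderiv l F) := by
  by_cases hl : l ∈ S
  · have hxl : x l ≠ 0 := hx l hl
    have hil : inv S x l ≠ 0 := by
      rw [inv, if_pos hl]
      exact inv_ne_zero hxl
    have h1 : fac d S x * aeval x (pderiv l F) = ∑ u ∈ F.support, fac d S x *
        aeval x (pderiv l (monomial u (F.coeff u))) := by
      conv_lhs => rw [F.as_sum]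
      rw [map_sum, map_sum, Finset.mul_sum]
    have h2 : (0 : K) = ∑ u ∈ F.support, ((d l : K) * (x l)⁻¹ * (fac d S x *
        aeval x (monomial u (F.coeff u)))) := by
      rw [← Finset.mul_sum, ← Finset.mul_sum, ← map_sum, ← F.as_sum, h0, mul_zero, mul_zero]
    rw [h1, chart, map_sum, map_sum, Finset.sum_mul, ← sub_zero (∑ u ∈ F.support, fac d S x * _)]
    conv_rhs => rw [h2]
    rw [← Finset.sum_sub_distrib]
    refine Finset.sum_congr rfl fun u hu => ?_
    have hud : ∀ i, u i ≤ d i := fun i => le_trans (monomial_le_degreeOf i hu) (hF i)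
    rw [aeval_pd_mono hil, aeval_pd_mono hxl, aeval_mono, aeval_mono, mono_inv hx hud]
    have h3 : flip d S u l = d l - u l := by
      rw [flip_apply, if_pos hl]
    rw [h3, Nat.cast_sub (hud l), inv, tf, if_pos hl, if_pos hl, inv_inv]
    field_simp
    ring
  · have h1 : ∀ u ∈ F.support, aeval (inv S x) (pderiv l (monomial (flip d S u) (F.coeff u))) =
        fac d S x * aeval x (pderiv l (monomial u (F.coeff u))) := by
      intro u hu
      have hud : ∀ i, u i ≤ d i := fun i => le_trans (monomial_le_degreeOf i hu) (hF i)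
      have h3 : flip d S u l = u l := by
        rw [flip_apply, if_neg hl]
      have h4 : flip d S u - Finsupp.single l 1 = flip d S (u - Finsupp.single l 1) := by
        ext i
        rw [Finsupp.tsub_apply, flip_apply, flip_apply, Finsupp.tsub_apply]
        by_cases hi : i ∈ S
        · have hil : i ≠ l := fun h => hl (h ▸ hi)
          rw [if_pos hi, if_pos hi, Finsupp.single_eq_of_ne hil, tsub_zero, tsub_zero]
        · rw [if_neg hi, if_neg hi]
      rw [pderiv_monomial, pderiv_monomial, aeval_mono, aeval_mono, h3, h4,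
        mono_inv hx fun i => ?_]
      · ring
      · rw [Finsupp.tsub_apply]
        exact le_trans (Nat.sub_le _ _) (hud i)
    rw [tf, if_neg hl, mul_one, chart, map_sum, map_sum]
    conv_rhs => rw [F.as_sum]
    rw [map_sum, map_sum, Finset.mul_sum]
    exact Finset.sum_congr rfl h1

theorem chart_empty (d : ι → ℕ) (F : MvPolynomial ι ℂ) : chart d ∅ F = F := by
  rw [chart]
  conv_rhs => rw [F.as_sum]
  refine Finset.sum_congr rfl fun u _ => ?_
  have h2 : flip d ∅ u = u := by
    ext i
    rw [flip_apply, if_neg (Finset.notMem_empty i)]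
  rw [h2]

end

section matrices

variable {κ : Type} [Fintype κ] [DecidableEq κ] {ι : Type} [Fintype ι] [DecidableEq ι] {n : ℕ}
  {K : Type} [Field K]

/-- the square matrix with the rows `C k` and `R j`; `e` orders the columns -/
def cmat (e : κ ⊕ Fin n ≃ ι) (C : κ → ι → K) (R : Fin n → ι → K) :
    Matrix (κ ⊕ Fin n) (κ ⊕ Fin n) K :=
  Matrix.of fun a b => Sum.elim (fun k => C k (e b)) (fun j => R j (e b)) a

/-- the Jacobian matrix -/
def jmat (e : κ ⊕ Fin n ≃ ι) (J : κ → ι → K) : Matrix (κ ⊕ Fin n) κ K :=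
  Matrix.of fun b k => J k (e b)

theorem cmat_mul_jmat {e : κ ⊕ Fin n ≃ ι} {C J : κ → ι → K} {R : Fin n → ι → K}
    (hC : ∀ k k', ∑ i, J k i * C k' i = if k = k' then 1 else 0)
    (hR : ∀ k j, ∑ i, J k i * R j i = 0) (a : κ ⊕ Fin n) (k : κ) :
    (cmat e C R * jmat e J) a k = (1 : Matrix (κ ⊕ Fin n) (κ ⊕ Fin n) K) a (Sum.inl k) := by
  have h1 : ∀ v : ι → K, ∑ b, v (e b) * J k (e b) = ∑ i, J k i * v i := by
    intro v
    rw [← e.sum_comp]
    exact Finset.sum_congr rfl fun b _ => mul_comm _ _
  rw [Matrix.mul_apply]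
  cases a with
  | inl k' =>
    have h2 : ∑ b, cmat e C R (Sum.inl k') b * jmat e J b k = ∑ b, C k' (e b) * J k (e b) := rfl
    rw [h2, h1, hC, Matrix.one_apply]
    by_cases h : k = k'
    · rw [if_pos h, if_pos (by rw [h])]
    · rw [if_neg h, if_neg (fun h' => h (Sum.inl_injective h').symm)]
  | inr j =>
    have h2 : ∑ b, cmat e C R (Sum.inr j) b * jmat e J b k = ∑ b, R j (e b) * J k (e b) := rfl
    rw [h2, h1, hR, Matrix.one_apply, if_neg (by simp)]

/-- the determinant does not depend on the rows `C` -/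
theorem det_indep {e : κ ⊕ Fin n ≃ ι} {C C' J : κ → ι → K} {R : Fin n → ι → K}
    (hC : ∀ k k', ∑ i, J k i * C k' i = if k = k' then 1 else 0)
    (hC' : ∀ k k', ∑ i, J k i * C' k' i = if k = k' then 1 else 0)
    (hR : ∀ k j, ∑ i, J k i * R j i = 0) :
    (cmat e C R).det = (cmat e C' R).det := by
  have key : ∀ {C C' : κ → ι → K}, (∀ k k', ∑ i, J k i * C k' i = if k = k' then 1 else 0) →
      (∀ k k', ∑ i, J k i * C' k' i = if k = k' then 1 else 0) → (cmat e C R).det ≠ 0 →
      (cmat e C' R).det = (cmat e C R).det := by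
    intro C C' hC hC' hne
    have hu : IsUnit (cmat e C R).det := isUnit_iff_ne_zero.2 hne
    obtain ⟨Q, hQ⟩ : ∃ Q, Q = cmat e C' R * (cmat e C R)⁻¹ := ⟨_, rfl⟩
    have h1 : cmat e C' R = Q * cmat e C R := by
      rw [hQ, Matrix.mul_assoc, Matrix.nonsing_inv_mul _ hu, Matrix.mul_one]
    have h2 : ∀ a k, Q a (Sum.inl k) = (1 : Matrix (κ ⊕ Fin n) (κ ⊕ Fin n) K) a (Sum.inl k) := by
      intro a k
      rw [← cmat_mul_jmat (e := e) hC' hR a k, h1, Matrix.mul_assoc, Matrix.mul_apply]
      rw [Finset.sum_congr rfl fun b _ => by rw [cmat_mul_jmat (e := e) hC hR b k]]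
      rw [Finset.sum_eq_single (Sum.inl k)]
      · rw [Matrix.one_apply_eq, mul_one]
      · intro b _ hb
        rw [Matrix.one_apply_ne hb, mul_zero]
      · intro h
        exact absurd (Finset.mem_univ _) h
    have h3 : ∀ j b, Q (Sum.inr j) b = (1 : Matrix (κ ⊕ Fin n) (κ ⊕ Fin n) K) (Sum.inr j) b := by
      intro j b
      rw [hQ, Matrix.mul_apply]
      have h4 : (1 : Matrix (κ ⊕ Fin n) (κ ⊕ Fin n) K) (Sum.inr j) b =
          (cmat e C R * (cmat e C R)⁻¹) (Sum.inr j) b := by
        rw [Matrix.mul_nonsing_inv _ hu]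
      rw [h4, Matrix.mul_apply]
      rfl
    have h5 : Q = Matrix.fromBlocks 1 Q.toBlocks₁₂ 0 1 := by
      rw [← Matrix.fromBlocks_toBlocks Q]
      congr 1
      · ext k k'
        rw [Matrix.toBlocks₁₁, Matrix.of_apply, h2, Matrix.one_apply, Matrix.one_apply]
        by_cases h : k = k'
        · rw [if_pos h, if_pos (by rw [h])]
        · rw [if_neg h, if_neg fun h' => h (Sum.inl_injective h')]
      · ext j k
        rw [Matrix.toBlocks₂₁, Matrix.of_apply, h2, Matrix.one_apply, if_neg (by simp)]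
        rfl
      · ext j j'
        rw [Matrix.toBlocks₂₂, Matrix.of_apply, h3, Matrix.one_apply, Matrix.one_apply]
        by_cases h : j = j'
        · rw [if_pos h, if_pos (by rw [h])]
        · rw [if_neg h, if_neg fun h' => h (Sum.inr_injective h')]
    rw [h1, Matrix.det_mul, h5, Matrix.det_fromBlocks_zero₂₁, Matrix.det_one, Matrix.det_one,
      one_mul, one_mul]
  by_cases h : (cmat e C R).det = 0
  · by_cases h' : (cmat e C' R).det = 0
    · rw [h, h']
    · exact key hC' hC h'
  · exact (key hC hC' h).symm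

/-- multiplication of the rows -/
theorem cmat_rows (e : κ ⊕ Fin n ≃ ι) (C : κ → ι → K) (R : Fin n → ι → K)
    (M : Matrix (Fin n) (Fin n) K) :
    (cmat e C (fun j i => ∑ j', M j j' * R j' i)).det = M.det * (cmat e C R).det := by
  have h : cmat e C (fun j i => ∑ j', M j j' * R j' i) =
      Matrix.fromBlocks (1 : Matrix κ κ K) 0 0 M * cmat e C R := by
    ext a b
    rw [Matrix.mul_apply, Fintype.sum_sum_type]
    cases a with
    | inl k =>
      simp [cmat, Matrix.one_apply]
    | inr j =>
      simp [cmat]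
  rw [h, Matrix.det_mul, Matrix.det_fromBlocks_zero₂₁, Matrix.det_one, one_mul]

/-- multiplication of the rows and of the columns -/
theorem cmat_scale (e : κ ⊕ Fin n ≃ ι) (C : κ → ι → K) (R : Fin n → ι → K) (t : ι → K)
    (ν : κ → K) :
    (cmat e (fun k i => ν k * (t i * C k i)) (fun j i => t i * R j i)).det =
      (∏ k, ν k) * (∏ i, t i) * (cmat e C R).det := by
  have h : cmat e (fun k i => ν k * (t i * C k i)) (fun j i => t i * R j i) =
      Matrix.diagonal (Sum.elim ν fun _ => 1) * cmat e C R *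
        Matrix.diagonal (fun b => t (e b)) := by
    ext a b
    rw [Matrix.mul_diagonal, Matrix.diagonal_mul]
    cases a with
    | inl k =>
      simp only [cmat, Matrix.of_apply, Sum.elim_inl]
      ring
    | inr j =>
      simp only [cmat, Matrix.of_apply, Sum.elim_inr]
      ring
  rw [h, Matrix.det_mul, Matrix.det_mul, Matrix.det_diagonal, Matrix.det_diagonal,
    Fintype.prod_sum_type, e.prod_comp]
  simp only [Sum.elim_inl, Sum.elim_inr, Finset.prod_const_one, mul_one]
  ring

end matrices

end Pool.Agent.R882.CI
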