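import Pool.Agent.R882.CTow
import Pool.Agent.W602.GT.SpecDefs

/-!
Varieties of general type are not special.
-/

set_option autoImplicit false
set_option linter.unusedSectionVars false
set_option linter.overlappingInstances false

open FF Module Pool.Agent Pool.Agent.W602.GT

namespace Pool.Agent.R882.LT

/-- a variety of general type has a Bogomolov sheaf of maximal degree -/
theorem not_special_of_gt {n : ℕ} (hn : 1 ≤ n) {L : Type} [Field L] [Algebra ℂ L]
    (h : GeneralType ℂ L n) : ¬ Special ℂ L n (fun _ => False) := by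
  classical
  obtain ⟨hL, N, hN, ω, hω, hreg, D0, h0, hind⟩ := h
  intro hS
  obtain ⟨y, E, hy, hE⟩ := Pool.Agent.Y172.exists_crd (k := ℂ) (K := L) hL
  let g : Derivation ℂ L L →ₗ[L] (Fin n → L) :=
    { toFun := fun D j => D (y j)
      map_add' := fun _ _ => rfl
      map_smul' := fun _ _ => rfl }
  let θ : AlternatingMap L (Derivation ℂ L L) L (Fin n) :=
    (Matrix.detRowAlternating (R := L) (n := Fin n)).compLinearMap g
  have hθ : ∀ D : Fin n → Derivation ℂ L L, θ D = (Matrix.of fun i j => D i (y j)).det :=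
    fun D => rfl
  have hval : ∀ j (D : Fin n → Derivation ℂ L L), ω j E * θ D ^ N = ω j D := by
    intro j D
    rw [Pool.Agent.Y172.pluri_coord hy hE (hω j) D, hθ, mul_comm]
  have hE0 : ω 0 E ≠ 0 := by
    intro h1
    apply h0
    rw [← hval 0 D0, h1, zero_mul]
  have hθ0 : θ D0 ≠ 0 := by
    intro h1
    apply h0
    rw [← hval 0 D0, h1, zero_pow hN.ne', mul_zero]
  refine hS n hn ⟨θ, fun h1 => hθ0 (by rw [h1]; rfl), N, hN, fun j => ω j E, ?_, ?_, hE0, ?_⟩
  · intro P hP D hD j
    rw [hval]
    exact hreg P hP j D fun i => Pool.Agent.TH466.QG.derReg_of_log (hD i)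
  · intro P hP _ D hD j
    rw [hval]
    exact hreg P hP j D hD
  · have h1 : (fun i : Fin n => ω i.succ E / ω 0 E) =
        fun i : Fin n => ω i.succ D0 / ω 0 D0 := by
      funext i
      rw [← hval _ D0, ← hval 0 D0, mul_div_mul_right _ _ (pow_ne_zero _ hθ0)]
    change AlgebraicIndependent ℂ (fun i : Fin n => ω i.succ E / ω 0 E)
    rw [h1]
    exact hind

end Pool.Agent.R882.LT
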