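import Pool.Agent.R882.TCol
import Pool.Agent.W619.TW.MDefs
import Pool.Agent.TH466.QT.Main

/-!
Images of towers of coverings: the single steps.
-/

set_option autoImplicit false
set_option linter.unusedSectionVars false
set_option linter.overlappingInstances false
set_option maxHeartbeats 4000000
set_option synthInstance.maxHeartbeats 400000

open FF Module Pool.Agent Pool.Agent.W602.GT Pool.Agent.R885

namespace Pool.Agent.R882.Over

/-- the basic step: a variety of geometric genus zero factors, and one which is not of general type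
factors -/
theorem factors_step {n N : ℕ} (hn : 1 ≤ n) {K : Type} [Field K] [Algebra ℂ K] {x : Fin N → K}
    (hx : IsBase n x)
    (L : Type) [Field L] [Algebra ℂ L] [Algebra L K] [IsScalarTower ℂ L K]
    [FiniteDimensional L K] :
    (Positive n x (Module.finrank L K) → GenusZero L n → FactorsThrough L x) ∧
    (Positive n x (2 * Module.finrank L K) → ¬ GeneralType ℂ L n → FactorsThrough L x) := by
  classical
  have hessK : Algebra.EssFiniteType ℂ K := hx.ess
  have hessL : Algebra.EssFiniteType ℂ L := Pool.Agent.TH466.QG.ess_below (K := K)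
  have hL : Algebra.trdeg ℂ L = n := Pool.Agent.Y184.NT.trdeg_below (K := K) hx.dim
  have hfin := hx.fin
  obtain ⟨j0, hj0⟩ := hx.one
  have halg : ∀ τ : K, IsAlgebraic (IntermediateField.adjoin ℂ (Set.range x)) τ := fun τ =>
    (Algebra.IsIntegral.isIntegral τ).isAlgebraic
  obtain ⟨z, E, hz, hE⟩ := Pool.Agent.Y172.exists_crd (k := ℂ) (K := L) hL
  choose E' hE' using fun i => Pool.Agent.Y172.exists_lift (k := ℂ) (K := L) (L := K) hL (E i)
  have hzK : IsTranscendenceBasis ℂ (fun j => algebraMap L K (z j)) := hz.algebraMap_comp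
  have hE'd := Pool.Agent.Y172.lift_dual hE hE'
  -- the form with a trace which is not zero
  have hmul : Module.finrank L (IntermediateField.adjoin L (Set.range x)) *
      Module.finrank (IntermediateField.adjoin L (Set.range x)) K = Module.finrank L K :=
    Module.finrank_mul_finrank L _ K
  have hstep : ∀ s : ℕ, Positive n x (s * Module.finrank L K) → ¬ FactorsThrough L x →
      ∃ (m : ℕ) (ω : (Fin n → Derivation ℂ K K) → K), IsPluri 1 ω ∧
        (∀ (f : Fin m → Fin N) (P : Place ℂ K), Divisorial n P →
          RegAt P (fun D => (∏ k, x (f k)) * ω D)) ∧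
        s * Module.finrank L (IntermediateField.adjoin L (Set.range x)) ≤ m + 1 ∧
        Algebra.trace (IntermediateField.adjoin L (Set.range x)) K (ω E') ≠ 0 := by
    intro s hs hnf
    obtain ⟨F, hF⟩ : ∃ F : IntermediateField ℂ K,
      F = (IntermediateField.adjoin L (Set.range x)).restrictScalars ℂ := ⟨_, rfl⟩
    have hle : IntermediateField.adjoin ℂ (Set.range x) ≤ F := by
      rw [hF, IntermediateField.adjoin_le_iff]
      exact IntermediateField.subset_adjoin L _
    have hLF : ∀ f : L, algebraMap L K f ∈ F := by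
      intro f
      rw [hF]
      exact (IntermediateField.adjoin L (Set.range x)).algebraMap_mem f
    have hne : IntermediateField.adjoin ℂ (Set.range x) ≠ F := by
      intro h
      apply hnf
      intro f
      rw [h]
      exact hLF f
    obtain ⟨m, hm, ω, hω, hreg, D, D', hD, htr⟩ := hs F (lt_of_le_of_ne hle hne)
    have hfr : Module.finrank F K =
        Module.finrank (IntermediateField.adjoin L (Set.range x)) K := by
      rw [hF]
      rfl
    refine ⟨m, ω, hω, hreg, ?_, ?_⟩
    · rw [hfr, ← hmul] at hm
      have h1 : 0 < Module.finrank (IntermediateField.adjoin L (Set.range x)) K :=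
        Module.finrank_pos
      have h2 : Module.finrank (IntermediateField.adjoin L (Set.range x)) K *
          (s * Module.finrank L (IntermediateField.adjoin L (Set.range x))) ≤
          Module.finrank (IntermediateField.adjoin L (Set.range x)) K * (m + 1) := by
        calc _ = s * (Module.finrank L (IntermediateField.adjoin L (Set.range x)) *
            Module.finrank (IntermediateField.adjoin L (Set.range x)) K) := by ring
          _ ≤ _ := hm
      exact Nat.le_of_mul_le_mul_left h2 h1
    · intro h0
      apply htr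
      have h1 : Algebra.trace F K (ω E') = 0 := by
        subst hF
        have h2 : ((Algebra.trace (IntermediateField.adjoin L (Set.range x)) K (ω E') :
            IntermediateField.adjoin L (Set.range x)) : K) = 0 := by
          rw [h0]
          rfl
        apply Subtype.ext
        exact h2
      obtain ⟨δ, hδ⟩ : ∃ δ : F, δ = (Matrix.of fun i j => D i ⟨algebraMap L K (z j), hLF _⟩ :
        Matrix (Fin n) (Fin n) F).det := ⟨_, rfl⟩
      have h2 : ω D' = δ • ω E' := by
        rw [Pool.Agent.Y172.pluri_coord hzK hE'd hω D', pow_one, Algebra.smul_def, hδ,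
          RingHom.map_det]
        congr 1
        congr 1
        ext i j
        rw [RingHom.mapMatrix_apply, Matrix.map_apply, Matrix.of_apply, Matrix.of_apply]
        exact hD i ⟨algebraMap L K (z j), hLF _⟩
      rw [h2, map_smul, h1, smul_zero]
  refine ⟨fun hp hg => ?_, fun hp hgt => ?_⟩
  · by_contra hnf
    obtain ⟨m, ω, hω, hreg, hdeg, hne⟩ := hstep 1 (by rwa [one_mul]) hnf
    rw [one_mul] at hdeg
    exact hne (Pool.Agent.R882.WR.trace_zero hL hg hj0 hω hreg hE' hdeg)
  · by_contra hnf
    obtain ⟨m, ω, hω, hreg, hdeg, hne⟩ := hstep 2 hp hnf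
    exact hgt (Pool.Agent.R882.WR.gt_of hn hL hj0 hω hreg halg hz hE hE' hdeg hne)

end Pool.Agent.R882.Over

namespace Pool.Agent.R882.LT

/-- columns in the Fine interior give `Positive` -/
theorem col_positive {n q N : ℕ} {f : Fin q → (Fin (n + q) → ℤ) →₀ ℂ}
    (hf : ∀ v : Fin (n + q) → ℤ, ∀ c : Fin (n + q) → ℂ, (∀ i, c i ≠ 0) →
      (∀ l, ev c (ini v (f l)) = 0) → LinearIndependent ℂ fun l => gr c (ini v (f l)))
    {K : Type} [Field K] [Algebra ℂ K] {x : Fin (n + q) → K}
    (hx0 : ∀ i, x i ≠ 0) (hev : ∀ l, ev x (f l) = 0)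
    (hgen : IntermediateField.adjoin ℂ (Set.range x) = ⊤) (hK : Algebra.trdeg ℂ K = (n : ℕ))
    {v : Fin (n + q) → ℤ} {w : Fin N → Fin (n + q) → ℤ} {t : Fin N → K}
    (ht : ∀ l, t l = R885.mono x (w l))
    [FiniteDimensional (IntermediateField.adjoin ℂ (Set.range t)) K]
    (hy : IntermediateField.adjoin (IntermediateField.adjoin ℂ (Set.range t))
      {R885.mono x v} = ⊤) :
    Pool.Agent.R882.Over.IsBase n (Fin.cons 1 t : Fin (N + 1) → K) ∧
    IntermediateField.adjoin ℂ (Set.range (Fin.cons 1 t : Fin (N + 1) → K)) =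
      IntermediateField.adjoin ℂ (Set.range t) ∧
    ∀ r : ℕ, (∀ c : ℕ, c ∣ Module.finrank (IntermediateField.adjoin ℂ (Set.range t)) K →
        c < Module.finrank (IntermediateField.adjoin ℂ (Set.range t)) K →
        ∃ (M : ℕ) (u : Fin (n + q) → ℤ), r ≤ c * (M + 1) ∧
          ∀ j < c, InFine f (u + (j : ℤ) • v) ∧
            ∀ l, InFine f (u + (j : ℤ) • v + (M : ℤ) • w l)) →
      Pool.Agent.R882.Over.Positive n (Fin.cons 1 t : Fin (N + 1) → K) r := by
  classical
  have hess : Algebra.EssFiniteType ℂ K := by
    rw [← IntermediateField.fg_top_iff, ← hgen]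
    exact ⟨Finset.univ.image x, by rw [Finset.coe_image, Finset.coe_univ, Set.image_univ]⟩
  have e : Fin q ⊕ Fin n ≃ Fin (n + q) := Fintype.equivOfCardEq (by
    rw [Fintype.card_sum, Fintype.card_fin, Fintype.card_fin, Fintype.card_fin, add_comm])
  obtain ⟨Ω, hΩ, hne⟩ := Pool.Agent.R882.LT.exists_twisted_col (w := w) hK hx0 hgen e hev
    (fun v => hf v)
  have htE : t = fun l => R885.mono x (w l) := funext ht
  rw [← htE] at hΩ
  have hrange : Set.range (Fin.cons 1 t : Fin (N + 1) → K) = insert 1 (Set.range t) := by
    rw [Fin.range_cons]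
  have hadj : IntermediateField.adjoin ℂ (Set.range (Fin.cons 1 t : Fin (N + 1) → K)) =
      IntermediateField.adjoin ℂ (Set.range t) := by
    rw [hrange]
    apply le_antisymm
    · rw [IntermediateField.adjoin_le_iff]
      rintro g (rfl | hg)
      · exact one_mem _
      · exact IntermediateField.subset_adjoin _ _ hg
    · exact IntermediateField.adjoin.mono _ _ _ (Set.subset_insert _ _)
  have hbase : Pool.Agent.R882.Over.IsBase n (Fin.cons 1 t : Fin (N + 1) → K) := by
    refine ⟨hess, hK, ⟨0, Fin.cons_zero _ _⟩, ?_⟩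
    rw [hadj]
    infer_instance
  refine ⟨hbase, hadj, fun r hcol F hF => ?_⟩
  rw [hadj] at hF
  -- the codegree
  let i1 : Algebra (IntermediateField.adjoin ℂ (Set.range t)) F :=
    (IntermediateField.inclusion hF.le).toRingHom.toAlgebra
  have i2 : IsScalarTower (IntermediateField.adjoin ℂ (Set.range t)) F K :=
    IsScalarTower.of_algebraMap_eq fun g => rfl
  have i3 : FiniteDimensional F K :=
    Module.Finite.of_restrictScalars_finite (IntermediateField.adjoin ℂ (Set.range t)) F K
  have i4 : Module.Free (IntermediateField.adjoin ℂ (Set.range t)) F :=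
    Module.Free.of_divisionRing _ _
  have i5 : Module.Free F K := Module.Free.of_divisionRing _ _
  have hmul := Module.finrank_mul_finrank (IntermediateField.adjoin ℂ (Set.range t)) F K
  have hpos2 : 0 < Module.finrank F K := Module.finrank_pos
  have hpos3 : 0 < Module.finrank (IntermediateField.adjoin ℂ (Set.range t)) K :=
    Module.finrank_pos
  have hdvd : Module.finrank F K ∣
      Module.finrank (IntermediateField.adjoin ℂ (Set.range t)) K := Dvd.intro_left _ hmul
  have hlt : Module.finrank F K <
      Module.finrank (IntermediateField.adjoin ℂ (Set.range t)) K := by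
    refine lt_of_le_of_ne (Nat.le_of_dvd hpos3 hdvd) fun h => ?_
    exact hF.ne (IntermediateField.eq_of_le_of_finrank_eq' hF.le h.symm)
  obtain ⟨M, u, hr, hcol'⟩ := hcol _ hdvd hlt
  refine ⟨M, hr, ?_⟩
  have hyF : IntermediateField.adjoin F {R885.mono x v} = ⊤ := by
    rw [eq_top_iff]
    intro g _
    have h1 : g ∈ IntermediateField.adjoin (IntermediateField.adjoin ℂ (Set.range t))
        {R885.mono x v} := by
      rw [hy]
      trivial
    have hle : (IntermediateField.adjoin (IntermediateField.adjoin ℂ (Set.range t))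
        {R885.mono x v}).toSubfield ≤
        (IntermediateField.adjoin F {R885.mono x v}).toSubfield := by
      change Subfield.closure _ ≤ _
      rw [Subfield.closure_le]
      rintro z (⟨c, rfl⟩ | hz)
      · exact (IntermediateField.adjoin F {R885.mono x v}).algebraMap_mem
          (⟨c, hF.le c.2⟩ : F)
      · rw [Set.mem_singleton_iff.mp hz]
        exact IntermediateField.mem_adjoin_simple_self _ _
    exact hle h1
  have hΩ1 : IsPluri 1 (fun D => R885.mono x u * Ω D) := by
    obtain ⟨h1, h2⟩ := hcol' 0 hpos2
    have h3 := (hΩ M (u + ((0 : ℕ) : ℤ) • v) h1 h2).1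
    rw [Nat.cast_zero, zero_smul, add_zero] at h3
    exact h3
  obtain ⟨j, hj, D, D', hD, htr⟩ := Pool.Agent.R882.LT.col_detect (F := F) (y := R885.mono x v)
    (ω := fun D => R885.mono x u * Ω D) hK hyF
    (fun Z hZ D0 hD0 => mul_ne_zero (R885.mono_ne hx0 _) (hne Z hZ D0 hD0))
  have hform : (fun D : Fin n → Derivation ℂ K K => R885.mono x v ^ j *
      (R885.mono x u * Ω D)) = fun D => R885.mono x (u + (j : ℤ) • v) * Ω D := by
    funext D
    rw [R885.mono_add hx0, R885.mono_zsmul, zpow_natCast]
    ring
  obtain ⟨h1, h2⟩ := hcol' j hj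
  have h3 := hΩ M _ h1 h2
  refine ⟨fun D => R885.mono x v ^ j * (R885.mono x u * Ω D), ?_, fun g P hP => ?_,
    D, D', hD, htr⟩
  · rw [hform]
    exact h3.1
  · have h4 := h3.reg g P hP
    have h5 : ∀ D : Fin n → Derivation ℂ K K, R885.mono x v ^ j * (R885.mono x u * Ω D) =
        R885.mono x (u + (j : ℤ) • v) * Ω D := fun D => congrFun hform D
    simp only [h5]
    exact h4

/-- the degree and the field of an image which factors -/
theorem factor_alg {N : ℕ} {K : Type} [Field K] [Algebra ℂ K] {E : IntermediateField ℂ K}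
    (L : Type) [Field L] [Algebra ℂ L] [Algebra L K] [IsScalarTower ℂ L K]
    [FiniteDimensional L K] (h : ∀ g : L, algebraMap L K g ∈ E) :
    ∃ (i1 : Algebra L E) (_ : IsScalarTower ℂ L E) (_ : FiniteDimensional L E),
      Module.finrank L K = Module.finrank L E * Module.finrank E K := by
  let φ : L →ₐ[ℂ] E :=
    { toFun := fun f => ⟨algebraMap L K f, h f⟩
      map_one' := Subtype.ext (map_one _)
      map_mul' := fun f g => Subtype.ext (map_mul _ _ _)
      map_zero' := Subtype.ext (map_zero _)
      map_add' := fun f g => Subtype.ext (map_add _ _ _)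
      commutes' := fun c => Subtype.ext (IsScalarTower.algebraMap_apply ℂ L K c).symm }
  let i1 : Algebra L E := φ.toRingHom.toAlgebra
  have i2 : IsScalarTower ℂ L E := IsScalarTower.of_algebraMap_eq fun c => (φ.commutes c).symm
  have i3 : IsScalarTower L E K := IsScalarTower.of_algebraMap_eq fun c => rfl
  have i4 : FiniteDimensional L E := by
    let ψ : E →ₗ[L] K := (IsScalarTower.toAlgHom L E K).toLinearMap
    exact FiniteDimensional.of_injective ψ (algebraMap E K).injective
  exact ⟨i1, i2, i4, (Module.finrank_mul_finrank L E K).symm⟩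

/-- a variety without tensor differentials of degree `n` has geometric genus zero -/
theorem genusZero_of_noTensors {n : ℕ} {L : Type} [Field L] [Algebra ℂ L]
    (hL : Algebra.trdeg ℂ L = (n : ℕ))
    (h : ∀ T : MultilinearMap L (fun _ : Fin n => Derivation ℂ L L) L,
      (∀ P : Place ℂ L, Divisorial n P → ∀ D : Fin n → Derivation ℂ L L,
        (∀ j, DerReg P (D j)) → P.Reg (T D)) → T = 0) :
    Pool.Agent.R882.Over.GenusZero L n := by
  classical
  intro ω hω hreg D0
  obtain ⟨y, E, hy, hE⟩ := Pool.Agent.Y172.exists_crd (k := ℂ) (K := L) hL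
  let g : Derivation ℂ L L →ₗ[L] (Fin n → L) :=
    { toFun := fun D j => D (y j)
      map_add' := fun _ _ => rfl
      map_smul' := fun _ _ => rfl }
  let T : MultilinearMap L (fun _ : Fin n => Derivation ℂ L L) L :=
    (ω E) • ((Matrix.detRowAlternating (R := L) (n := Fin n)).toMultilinearMap.compLinearMap
      fun _ => g)
  have hT : ∀ D : Fin n → Derivation ℂ L L, T D = ω D := by
    intro D
    rw [Pool.Agent.Y172.pluri_coord hy hE hω D, pow_one, mul_comm]
    rfl
  have h1 := h T fun P hP D hD => by
    rw [hT]
    exact hreg P hP D hD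
  rw [← hT D0, h1]
  rfl

end Pool.Agent.R882.LT
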