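import Pool.Agent.R882.Form

/-!
Positivity of the polynomials of the certificate.
-/

set_option autoImplicit false

open Polynomial

namespace Pool.Agent.R882

def bB : ℕ := 2 ^ 384
def bC : ℕ := 2 ^ 36864

/-- The check for one polynomial, given by its values at `(1, 1)`, `(B, 1)` and `(B, C)`. -/
def certP (x y z : Pr ℕ) : Bool :=
  Nat.blt x.a bB && Nat.blt (x.b + 1) bB && Nat.blt y.a bC && Nat.blt (y.b + 1) bC &&
    chk2 bB bC 96 96 z.a (z.b + 1)

theorem cert_sound (x : Pr ℕ[X][X])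
    (h : certP (Pr.map (ev 1 1) x) (Pr.map (ev bB 1) x) (Pr.map (ev bB bC) x) = true)
    {p q : ℝ} (hp : 0 ≤ p) (hq : 0 ≤ q) : 1 ≤ Pr.val (Pr.map (ev p q) x) := by
  simp only [certP, Bool.and_eq_true, Nat.blt_eq] at h
  obtain ⟨⟨⟨⟨h1, h2⟩, h3⟩, h4⟩, h5⟩ := h
  have h6 : ∀ {R : Type} [CommSemiring R] (p q : R), ev p q (x.b + 1) = (Pr.map (ev p q) x).b + 1 := by
    intro R _ p q
    rw [_root_.map_add, _root_.map_one]
    rfl
  have h7 := chk2_sound 96 x.a (x.b + 1) h1 (by rw [h6]; exact h2) h3 (by rw [h6]; exact h4)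
    (by rw [h6]; exact h5)
  have h8 := ev_mono h7 hp hq
  rw [h6] at h8
  change 1 ≤ (Pr.map (ev p q) x).a - (Pr.map (ev p q) x).b
  change (Pr.map (ev p q) x).b + 1 ≤ (Pr.map (ev p q) x).a at h8
  linarith

theorem mp_PP {R : Type} [CommSemiring R] (p q : R) : mp (ev p q) PP = PSh p q := by
  funext a b
  exact map_PP p q a b

theorem vl_PSh (p q : ℝ) : vl (PSh p q) = Sh p q := by
  funext a b
  exact val_PSh p q a b

theorem cert_De : certP (fDe (PSh 1 1)) (fDe (PSh bB 1)) (fDe (PSh bB bC)) = true := by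
  decide +kernel

theorem cert_a : certP (fa (PSh 1 1)) (fa (PSh bB 1)) (fa (PSh bB bC)) = true := by
  decide +kernel

theorem cert_M2 : certP (fM2 (PSh 1 1)) (fM2 (PSh bB 1)) (fM2 (PSh bB bC)) = true := by
  decide +kernel

theorem cert_M3 : certP (fM3 (PSh 1 1)) (fM3 (PSh bB 1)) (fM3 (PSh bB bC)) = true := by
  decide +kernel

end Pool.Agent.R882
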