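import Pool.Agent.R882.WReg
import Pool.Agent.Y614.NT.Line
import Pool.Agent.Y153.NT.CB
import Pool.Agent.Y692.NT.Tr
import Mathlib.RingTheory.Trace.Basic

/-!
Canonical forms whose trace to an intermediate field is not zero.
-/

set_option autoImplicit false
set_option linter.unusedSectionVars false
set_option linter.overlappingInstances false

open FF MvPolynomial Pool.Agent.W603.LV Pool.Agent.W602.GT Pool.Agent.Y184.NT

namespace Pool.Agent.R882.WR

section

variable {L K : Type} [Field L] [Field K] [Algebra ℂ L] [Algebra ℂ K] [Algebra L K]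
  [IsScalarTower ℂ L K] [FiniteDimensional L K] [Algebra.EssFiniteType ℂ L]
  [Algebra.EssFiniteType ℂ K] {n N m : ℕ}

theorem gen_self {x : Fin N → K} (x' : Fin N → IntermediateField.adjoin L (Set.range x))
    (hx' : ∀ j, (x' j : K) = x j) : IntermediateField.adjoin L (Set.range x') = ⊤ := by
  apply IntermediateField.map_injective (IntermediateField.adjoin L (Set.range x)).val
  rw [IntermediateField.adjoin_map, ← AlgHom.fieldRange_eq_map, IntermediateField.fieldRange_val]
  congr 1
  ext y
  constructor
  · rintro ⟨_, ⟨j, rfl⟩, rfl⟩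
    exact ⟨j, (hx' j).symm⟩
  · rintro ⟨j, rfl⟩
    exact ⟨x' j, ⟨j, rfl⟩, hx' j⟩

/-- **Vanishing of the traces.** -/
theorem trace_zero (hL : Algebra.trdeg ℂ L = n)
    (hpg : ∀ ω : (Fin n → Derivation ℂ L L) → L, IsPluri 1 ω →
      (∀ P : Place ℂ L, Divisorial n P → RegAt P ω) → ∀ D, ω D = 0)
    {x : Fin N → K} {j0 : Fin N} (hj0 : x j0 = 1) {ω : (Fin n → Derivation ℂ K K) → K}
    (hω : IsPluri 1 ω)
    (hreg : ∀ (f : Fin m → Fin N) (P : Place ℂ K), Divisorial n P →
      RegAt P (fun D => (∏ k, x (f k)) * ω D))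
    {E : Fin n → Derivation ℂ L L} {E' : Fin n → Derivation ℂ K K}
    (hE' : ∀ i f, E' i (algebraMap L K f) = algebraMap L K (E i f))
    (hdeg : Module.finrank L (IntermediateField.adjoin L (Set.range x)) ≤ m + 1) :
    Algebra.trace (IntermediateField.adjoin L (Set.range x)) K (ω E') = 0 := by
  by_contra hne
  have hcL : CharZero L := charZero_of_injective_algebraMap (algebraMap ℂ L).injective
  obtain ⟨x', hx'⟩ : ∃ x' : Fin N → IntermediateField.adjoin L (Set.range x),
    ∀ j, (x' j : K) = x j :=
    ⟨fun j => ⟨x j, IntermediateField.subset_adjoin L _ ⟨j, rfl⟩⟩, fun _ => rfl⟩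
  have h0 : ∀ f : Fin m → Fin N, Algebra.trace L (IntermediateField.adjoin L (Set.range x))
      ((∏ k, x' (f k)) * Algebra.trace (IntermediateField.adjoin L (Set.range x)) K (ω E')) =
      0 := by
    intro f
    have hp : IsPluri 1 (fun D : Fin n → Derivation ℂ K K => (∏ k, x (f k)) * ω D) := by
      intro A D
      change (∏ k, x (f k)) * ω (fun i => ∑ j, A i j • D j) = _
      rw [hω A D]
      ring
    have h1 := Pool.Agent.Y692.NT.t_Tr L K n hL hpg (fun D => (∏ k, x (f k)) * ω D) hp (hreg f)
      E E' hE'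
    have h2 : (∏ k, x (f k)) * ω E' = (∏ k, x' (f k)) • ω E' := by
      rw [Algebra.smul_def]
      congr 1
      rw [map_prod]
      exact Finset.prod_congr rfl fun k _ => (hx' _).symm
    rw [h2, ← Algebra.trace_trace (S := IntermediateField.adjoin L (Set.range x)), map_smul,
      smul_eq_mul] at h1
    exact h1
  have h3 := (Pool.Agent.Y614.NT.stLine Pool.Agent.Y153.NT.stCB L
    (IntermediateField.adjoin L (Set.range x)) N m x' j0 (by
      apply Subtype.ext
      rw [hx', hj0]
      rfl) (gen_self x' hx') _ hne h0 (by omega)).1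
  omega

end

section

variable {F K : Type} [Field F] [Field K] [CharZero F] [Algebra F K] [FiniteDimensional F K]

/-- a function which is orthogonal to the powers of a generator is zero -/
theorem powers_zero {y : K} (hy : IntermediateField.adjoin F {y} = ⊤) {h : K}
    (h0 : ∀ j < Module.finrank F K, Algebra.trace F K (y ^ j * h) = 0) : h = 0 := by
  have hint : IsIntegral F y := Algebra.IsIntegral.isIntegral y
  let pb : PowerBasis F K := (IntermediateField.adjoin.powerBasis hint).map
    ((IntermediateField.equivOfEq hy).trans IntermediateField.topEquiv)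
  have hgen : pb.gen = y := by
    simp [pb]
  have h1 : ∀ z : K, Algebra.trace F K (z * h) = 0 := by
    intro z
    have h2 : z ∈ Submodule.span F (Set.range pb.basis) := by
      rw [pb.basis.span_eq]
      trivial
    induction h2 using Submodule.span_induction with
    | mem w hw =>
      obtain ⟨i, rfl⟩ := hw
      rw [pb.basis_eq_pow, hgen]
      apply h0
      rw [pb.finrank]
      exact i.2
    | zero => simp
    | add u v _ _ hu hv => rw [add_mul, map_add, hu, hv, add_zero]
    | smul c u _ hu => rw [Algebra.smul_mul_assoc, map_smul, hu, smul_zero]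
  by_contra hne
  have h2 := h1 h⁻¹
  rw [inv_mul_cancel₀ hne, ← map_one (algebraMap F K), Algebra.trace_algebraMap, nsmul_eq_mul,
    mul_one] at h2
  have h3 : (Module.finrank F K : F) ≠ 0 := Nat.cast_ne_zero.2 Module.finrank_pos.ne'
  exact h3 h2

end

section

variable {K : Type} [Field K] [Algebra ℂ K] {n : ℕ}

/-- a derivation which is zero on generators is zero -/
theorem der_zero {N : ℕ} {Z : Fin N → K} (hgen : IntermediateField.adjoin ℂ (Set.range Z) = ⊤)
    (D : Derivation ℂ K K) (hD : ∀ j, D (Z j) = 0) : D = 0 := by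
  let C0 : IntermediateField ℂ K :=
    { carrier := {f | D f = 0}
      mul_mem' := fun {f g} hf hg => by
        change D (f * g) = 0
        rw [D.leibniz, show D f = 0 from hf, show D g = 0 from hg]
        simp
      add_mem' := fun {f g} hf hg => by
        change D (f + g) = 0
        rw [map_add, show D f = 0 from hf, show D g = 0 from hg, add_zero]
      algebraMap_mem' := fun c => D.map_algebraMap c
      inv_mem' := fun f hf => by
        change D f⁻¹ = 0
        rw [Derivation.leibniz_inv, show D f = 0 from hf, smul_zero] }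
  have h2 : IntermediateField.adjoin ℂ (Set.range Z) ≤ C0 := by
    rw [IntermediateField.adjoin_le_iff]
    rintro _ ⟨j, rfl⟩
    exact hD j
  ext f
  have h3 : f ∈ IntermediateField.adjoin ℂ (Set.range Z) := by
    rw [hgen]
    trivial
  exact h2 h3

/-- the residue forms are not zero -/
theorem wres_ne {w : Fin (n + 2) → ℕ} {d : ℕ} {F : MvPolynomial (Fin (n + 2)) ℂ}
    (hF : F.IsWeightedHomogeneous w d) {c Z : Fin (n + 2) → K} (hZ : aeval Z F = 0)
    (hc : ∑ l, aeval Z (pderiv l F) * c l = 1) {j0 : Fin (n + 2)} (hj0 : Z j0 = 1)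
    (hw : w j0 ≠ 0) (hgen : IntermediateField.adjoin ℂ (Set.range Z) = ⊤)
    {D : Fin n → Derivation ℂ K K} (hD : LinearIndependent K D) :
    (wrows w c Z D).det ≠ 0 := by
  classical
  intro hdet
  have hcK : CharZero K := charZero_of_injective_algebraMap (algebraMap ℂ K).injective
  rw [← Matrix.exists_vecMul_eq_zero_iff] at hdet
  obtain ⟨v, hv0, hv⟩ := hdet
  have h1 : ∀ j, v 0 * c j + (v 1 * ((w j : K) * Z j) +
      ∑ i : Fin n, v i.succ.succ * D i (Z j)) = 0 := by
    intro j
    have h2 := congrFun hv j
    rw [Matrix.vecMul, dotProduct, Fin.sum_univ_succ, Fin.sum_univ_succ] at h2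
    simpa [wrows] using h2
  have h2 : v 0 = 0 := by
    have h3 : ∑ j, aeval Z (pderiv j F) * (v 0 * c j + (v 1 * ((w j : K) * Z j) +
        ∑ i : Fin n, v i.succ.succ * D i (Z j))) = v 0 := by
      have h4 : ∀ i : Fin n, ∑ j, aeval Z (pderiv j F) * D i (Z j) = 0 := by
        intro i
        rw [← Pool.Agent.Y988.NT.der_aeval, hZ, map_zero]
      have h5 := weuler hF hZ
      have h6 : ∑ j, aeval Z (pderiv j F) * (v 0 * c j + (v 1 * ((w j : K) * Z j) +
          ∑ i : Fin n, v i.succ.succ * D i (Z j))) = v 0 * ∑ j, aeval Z (pderiv j F) * c j +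
          (v 1 * ∑ j, aeval Z (pderiv j F) * ((w j : K) * Z j) +
          ∑ i : Fin n, v i.succ.succ * ∑ j, aeval Z (pderiv j F) * D i (Z j)) := by
        simp only [mul_add, Finset.sum_add_distrib, Finset.mul_sum]
        congr 1
        · exact Finset.sum_congr rfl fun j _ => by ring
        · congr 1
          · exact Finset.sum_congr rfl fun j _ => by ring
          · rw [Finset.sum_comm]
            exact Finset.sum_congr rfl fun i _ => Finset.sum_congr rfl fun j _ => by ring
      rw [h6, hc, h5]
      simp [h4]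
    rw [← h3]
    exact Finset.sum_eq_zero fun j _ => by rw [h1 j, mul_zero]
  obtain ⟨D', hD'⟩ : ∃ D' : Derivation ℂ K K, D' = ∑ i : Fin n, v i.succ.succ • D i := ⟨_, rfl⟩
  have h3 : ∀ j, D' (Z j) = -(v 1 * ((w j : K) * Z j)) := by
    intro j
    have h4 := h1 j
    rw [h2, zero_mul, zero_add] at h4
    have h5 : D' (Z j) = ∑ i : Fin n, v i.succ.succ * D i (Z j) := by
      rw [hD', Pool.Agent.Y988.NT.sum_der]
    rw [h5]
    linear_combination h4
  have h6 : v 1 = 0 := by
    have h7 := h3 j0
    rw [hj0, Derivation.map_one_eq_zero, mul_one] at h7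
    have h8 : v 1 * (w j0 : K) = 0 := neg_eq_zero.1 h7.symm
    rcases mul_eq_zero.1 h8 with h9 | h9
    · exact h9
    · exact absurd (Nat.cast_eq_zero.1 h9) hw
  have h4 : D' = 0 := by
    apply der_zero hgen
    intro j
    rw [h3, h6]
    ring
  have h5 : ∀ i : Fin n, v i.succ.succ = 0 := by
    rw [Fintype.linearIndependent_iff] at hD
    exact hD (fun i => v i.succ.succ) (by rw [← hD', h4])
  apply hv0
  ext i
  refine Fin.cases ?_ (fun i => ?_) i
  · exact h2
  · refine Fin.cases ?_ (fun i => ?_) i
    · exact h6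
    · exact h5 i

end

end Pool.Agent.R882.WR
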