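import Pool.Agent.R882.CovSep

/-!
Varieties dominated by covers of projective space: the main step.
-/

set_option autoImplicit false
set_option linter.unusedSectionVars false
set_option linter.overlappingInstances false

open FF MvPolynomial Pool.Agent.W603.LV Pool.Agent.W602.GT Pool.Agent.Y184.NT

namespace Pool.Agent.R882.WR

section fields

variable {L K : Type} [Field L] [Field K] [Algebra ℂ L] [Algebra ℂ K] [Algebra L K]
  [IsScalarTower ℂ L K] [FiniteDimensional L K]

/-- the degree over the compositum: it is the degree over `E`, or at most half of it -/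
theorem deg_cases {N : ℕ} (x : Fin N → K)
    [FiniteDimensional (IntermediateField.adjoin ℂ (Set.range x)) K] :
    (∀ f : L, algebraMap L K f ∈ IntermediateField.adjoin ℂ (Set.range x)) ∨
      2 * Module.finrank (IntermediateField.adjoin L (Set.range x)) K ≤
        Module.finrank (IntermediateField.adjoin ℂ (Set.range x)) K := by
  obtain ⟨E, hE⟩ : ∃ E : IntermediateField ℂ K, E = IntermediateField.adjoin ℂ (Set.range x) :=
    ⟨_, rfl⟩
  obtain ⟨F, hF⟩ : ∃ F : IntermediateField L K, F = IntermediateField.adjoin L (Set.range x) :=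
    ⟨_, rfl⟩
  rw [← hF]
  have hfin : FiniteDimensional E K := by
    rw [hE]
    infer_instance
  rw [← hE]
  have hEF : E ≤ F.restrictScalars ℂ := by
    rw [hE, hF, IntermediateField.adjoin_le_iff]
    exact IntermediateField.subset_adjoin L _
  by_cases heq : E = F.restrictScalars ℂ
  · left
    intro f
    rw [heq]
    exact F.algebraMap_mem f
  · right
    have h1 : Module.finrank F K = Module.finrank (F.restrictScalars ℂ) K := rfl
    rw [h1]
    have h2 : Module.finrank (F.restrictScalars ℂ) K ∣ Module.finrank E K :=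
      IntermediateField.finrank_dvd_of_le_left hEF
    have h3 : Module.finrank (F.restrictScalars ℂ) K ≠ Module.finrank E K := by
      intro h
      exact heq (IntermediateField.eq_of_le_of_finrank_eq' hEF h.symm)
    obtain ⟨q, hq⟩ := h2
    have h4 : 0 < Module.finrank E K := Module.finrank_pos
    have h5 : q ≠ 0 := by
      rintro rfl
      omega
    have h6 : q ≠ 1 := by
      rintro rfl
      omega
    have h7 : 2 ≤ q := by omega
    calc 2 * Module.finrank (F.restrictScalars ℂ) K ≤
        q * Module.finrank (F.restrictScalars ℂ) K := Nat.mul_le_mul_right _ h7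
      _ = Module.finrank E K := by rw [hq]; ring

end fields

section cover

variable {K : Type} [Field K] [Algebra ℂ K] {n N k : ℕ}
  {a : Fin N → MvPolynomial (Fin (n + 1)) ℂ} {x : Fin (n + 1) → K} {y : K}

/-- the fibre coordinate is integral over the field of the base -/
theorem int_y {E : IntermediateField ℂ K} (hx : ∀ j, x j ∈ E) (hN : N ≠ 0)
    (hxy : y ^ N + ∑ i, aeval x (a i) * y ^ (i : ℕ) = 0) :
    ∃ p : Polynomial E, p.Monic ∧ p.natDegree = N ∧ Polynomial.aeval y p = 0 := by
  obtain ⟨x', hx'⟩ : ∃ x' : Fin (n + 1) → E, ∀ j, (x' j : K) = x j :=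
    ⟨fun j => ⟨x j, hx j⟩, fun _ => rfl⟩
  have ha : ∀ i, algebraMap E K (aeval x' (a i)) = aeval x (a i) := by
    intro i
    have h1 := MvPolynomial.aeval_algebraMap_apply (R := ℂ) (A := E) K x' (a i)
    have h2 : (fun j => algebraMap E K (x' j)) = x := by
      funext j
      exact hx' j
    rw [← h1]
    congr 1
    rw [← h2]
    rfl
  obtain ⟨q, hq⟩ : ∃ q : Polynomial E,
    q = ∑ i : Fin N, Polynomial.C (aeval x' (a i)) * Polynomial.X ^ (i : ℕ) := ⟨_, rfl⟩
  have hdeg : q.degree < N := by
    rw [hq]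
    refine lt_of_le_of_lt (Polynomial.degree_sum_le _ _) ?_
    refine (Finset.sup_lt_iff (WithBot.bot_lt_coe N)).2 fun i _ => ?_
    exact lt_of_le_of_lt (Polynomial.degree_C_mul_X_pow_le _ _) (WithBot.coe_lt_coe.2 i.2)
  refine ⟨Polynomial.X ^ N + q, Polynomial.monic_X_pow_add hdeg, ?_, ?_⟩
  · rw [Polynomial.natDegree_add_eq_left_of_degree_lt (by rwa [Polynomial.degree_X_pow]),
      Polynomial.natDegree_X_pow]
  · rw [map_add, map_pow, Polynomial.aeval_X, hq, map_sum, ← hxy]
    congr 1
    refine Finset.sum_congr rfl fun i _ => ?_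
    rw [map_mul, map_pow, Polynomial.aeval_X, Polynomial.aeval_C, ha i]

theorem gen_y {E : IntermediateField ℂ K} (hx : ∀ j, x j ∈ E)
    (hgen : IntermediateField.adjoin ℂ (insert y (Set.range x)) = ⊤) :
    IntermediateField.adjoin E {y} = ⊤ := by
  rw [eq_top_iff]
  intro z _
  have h1 : z ∈ IntermediateField.adjoin ℂ (insert y (Set.range x)) := by
    rw [hgen]
    trivial
  have h2 : IntermediateField.adjoin ℂ (insert y (Set.range x)) ≤
      (IntermediateField.adjoin E {y}).restrictScalars ℂ := by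
    rw [IntermediateField.adjoin_le_iff]
    intro w hw
    rcases hw with hw | ⟨j, hj⟩
    · rw [hw]
      exact IntermediateField.mem_adjoin_simple_self E y
    · rw [← hj]
      exact (IntermediateField.adjoin E {y}).algebraMap_mem ⟨x j, hx j⟩
  exact h2 h1

theorem fin_x {E : IntermediateField ℂ K} (hx : ∀ j, x j ∈ E) (hN : N ≠ 0)
    (hxy : y ^ N + ∑ i, aeval x (a i) * y ^ (i : ℕ) = 0)
    (hgen : IntermediateField.adjoin ℂ (insert y (Set.range x)) = ⊤) :
    FiniteDimensional E K ∧ Module.finrank E K ≤ N := by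
  obtain ⟨p, hp, hdeg, hp0⟩ := int_y hx hN hxy
  have hint : IsIntegral E y := ⟨p, hp, hp0⟩
  have htop := gen_y hx hgen
  have hfd : FiniteDimensional E K := by
    have h1 : FiniteDimensional E (IntermediateField.adjoin E {y}) :=
      IntermediateField.adjoin.finiteDimensional hint
    rw [htop] at h1
    exact Module.Finite.equiv (IntermediateField.topEquiv (F := E) (E := K)).toLinearEquiv
  refine ⟨hfd, ?_⟩
  have h1 := IntermediateField.adjoin.finrank hint
  rw [htop, IntermediateField.finrank_top'] at h1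
  rw [h1, ← hdeg]
  exact Polynomial.natDegree_le_of_dvd (minpoly.dvd _ y hp0) hp.ne_zero

/-- the generic point has a partial derivative which is not zero -/
theorem exists_c {F : MvPolynomial (Fin (n + 2)) ℂ} (hs : Sm F) {Z : Fin (n + 2) → K}
    {j0 : Fin (n + 2)} (hj0 : Z j0 = 1) :
    ∃ c : Fin (n + 2) → K, ∑ l, aeval Z (pderiv l F) * c l = 1 := by
  obtain ⟨M, A, hA⟩ := Pool.Agent.Y988.NT.null_cert hs j0
  refine ⟨fun l => aeval Z (A l), ?_⟩
  have h5 := congrArg (aeval Z) hA
  rw [map_pow, aeval_X, hj0, one_pow, map_sum] at h5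
  rw [h5]
  refine Finset.sum_congr rfl fun l _ => ?_
  rw [map_mul]
  ring

/-- the canonical forms `A(x) y ^ j Res` are regular -/
theorem reg_forms (ha : ∀ i : Fin N, (a i).IsHomogeneous ((N - i) * k)) (hs : Sm (eqn a))
    (hx0 : x 0 = 1) (hxy : y ^ N + ∑ i, aeval x (a i) * y ^ (i : ℕ) = 0)
    {c : Fin (n + 2) → K}
    (hc : ∑ l, aeval (Fin.cons y x : Fin (n + 2) → K) (pderiv l (eqn a)) * c l = 1)
    {j m : ℕ} (h : m + j * k + (k + (n + 1)) ≤ N * k) (f : Fin m → Fin (n + 1))
    (P : Place ℂ K) :
    RegAt P (fun D : Fin n → Derivation ℂ K K => (∏ i, x (f i)) *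
      (y ^ j * (wrows (wt k) c (Fin.cons y x : Fin (n + 2) → K) D).det)) := by
  obtain ⟨s, hs'⟩ : ∃ s, s = N * k - (m + j * k + (k + (n + 1))) := ⟨_, rfl⟩
  obtain ⟨A, hA⟩ : ∃ A : MvPolynomial (Fin (n + 2)) ℂ,
    A = X 0 ^ j * (∏ i, X (f i).succ) * X (Fin.succ 0) ^ s := ⟨_, rfl⟩
  have hAw : A.IsWeightedHomogeneous (wt k) (j * k + m + s) := by
    rw [hA]
    refine IsWeightedHomogeneous.mul (IsWeightedHomogeneous.mul ?_ ?_) ?_
    · have h1 := (isWeightedHomogeneous_X ℂ (wt k) (0 : Fin (n + 2))).pow j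
      rwa [smul_eq_mul] at h1
    · have h1 := IsWeightedHomogeneous.prod (w := wt k) Finset.univ
        (fun i : Fin m => (X (f i).succ : MvPolynomial (Fin (n + 2)) ℂ)) (fun _ => 1)
        (fun i _ => isWeightedHomogeneous_X ℂ (wt k) (f i).succ)
      simpa using h1
    · have h1 := (isWeightedHomogeneous_X ℂ (wt k) (Fin.succ 0 : Fin (n + 2))).pow s
      have h2 : s • wt k (Fin.succ 0 : Fin (n + 2)) = s := by
        change s * 1 = s
        rw [mul_one]
      rwa [h2] at h1
  have hZ : aeval (Fin.cons y x : Fin (n + 2) → K) (eqn a) = 0 := by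
    rw [aeval_eqn]
    exact hxy
  have h1 := cover_reg ha hs hAw (by omega) hZ ⟨0, by
    rw [Fin.cons_succ, hx0]
    exact one_ne_zero⟩ hc P
  have h2 : aeval (Fin.cons y x : Fin (n + 2) → K) A = y ^ j * ∏ i, x (f i) := by
    rw [hA, map_mul, map_mul, map_pow, map_pow, map_prod]
    simp only [aeval_X, Fin.cons_zero, Fin.cons_succ, hx0, one_pow, mul_one]
  rw [h2] at h1
  have h3 : (fun D : Fin n → Derivation ℂ K K => (∏ i, x (f i)) *
      (y ^ j * (wrows (wt k) c (Fin.cons y x : Fin (n + 2) → K) D).det)) =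
      fun D => y ^ j * (∏ i, x (f i)) *
        (wrows (wt k) c (Fin.cons y x : Fin (n + 2) → K) D).det := by
    funext D
    ring
  rw [h3]
  exact h1

end cover

section

variable {L K : Type} [Field L] [Field K] [Algebra ℂ L] [Algebra ℂ K] [Algebra L K]
  [IsScalarTower ℂ L K] [FiniteDimensional L K] {n : ℕ} {x : Fin (n + 1) → K} {y : K}

theorem gen_yL (hgen : IntermediateField.adjoin ℂ (insert y (Set.range x)) = ⊤) :
    IntermediateField.adjoin (IntermediateField.adjoin L (Set.range x)) {y} = ⊤ := by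
  obtain ⟨F, hF⟩ : ∃ F : IntermediateField L K, F = IntermediateField.adjoin L (Set.range x) :=
    ⟨_, rfl⟩
  have htw : IsScalarTower ℂ F K := IsScalarTower.of_algebraMap_eq fun r => rfl
  rw [← hF, eq_top_iff]
  intro z _
  have h1 : z ∈ IntermediateField.adjoin ℂ (insert y (Set.range x)) := by
    rw [hgen]
    trivial
  have h2 : IntermediateField.adjoin ℂ (insert y (Set.range x)) ≤
      (IntermediateField.adjoin F {y}).restrictScalars ℂ := by
    rw [IntermediateField.adjoin_le_iff]
    intro w hw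
    rcases hw with hw | ⟨j, hj⟩
    · rw [hw]
      exact IntermediateField.mem_adjoin_simple_self F y
    · rw [← hj]
      exact (IntermediateField.adjoin F {y}).algebraMap_mem ⟨x j, by
        rw [hF]
        exact IntermediateField.subset_adjoin L _ ⟨j, rfl⟩⟩
  exact h2 h1

end

end Pool.Agent.R882.WR
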