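import Pool.Agent.R882.Jet

/-!
The curvature of the metric `i ∂ ∂̄ log h`.
-/

set_option autoImplicit false

open scoped ComplexConjugate

namespace Pool.Agent.R882

noncomputable section

theorem e00 : ((1, 0) : ℕ × ℕ) + (1, 0) = (2, 0) := rfl
theorem e01 : ((1, 0) : ℕ × ℕ) + (0, 1) = (1, 1) := rfl
theorem e10 : ((0, 1) : ℕ × ℕ) + (1, 0) = (1, 1) := rfl
theorem e11 : ((0, 1) : ℕ × ℕ) + (0, 1) = (0, 2) := rfl

section Contract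

variable (z : ℂ × ℂ) (v w : Fin 2 → ℂ)

def cA : ℂ := uj (1, 0) 0 z * v 0 + uj (0, 1) 0 z * v 1
def cB : ℂ := uj 0 (1, 0) z * w 0 + uj 0 (0, 1) z * w 1
def cM : ℂ := (uj (1, 0) (1, 0) z * v 0 + uj (0, 1) (1, 0) z * v 1) * w 0 +
  (uj (1, 0) (0, 1) z * v 0 + uj (0, 1) (0, 1) z * v 1) * w 1
def cA2 : ℂ := uj (2, 0) 0 z * v 0 ^ 2 + 2 * uj (1, 1) 0 z * (v 0 * v 1) + uj (0, 2) 0 z * v 1 ^ 2
def cB2 : ℂ := uj 0 (2, 0) z * w 0 ^ 2 + 2 * uj 0 (1, 1) z * (w 0 * w 1) + uj 0 (0, 2) z * w 1 ^ 2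
def cX (q : Fin 2) : ℂ :=
  uj (2, 0) (un q) z * v 0 ^ 2 + 2 * uj (1, 1) (un q) z * (v 0 * v 1) +
    uj (0, 2) (un q) z * v 1 ^ 2 - cA2 z v * uj 0 (un q) z
def cXb (p : Fin 2) : ℂ :=
  uj (un p) (2, 0) z * w 0 ^ 2 + 2 * uj (un p) (1, 1) z * (w 0 * w 1) +
    uj (un p) (0, 2) z * w 1 ^ 2 - cB2 z w * uj (un p) 0 z
def cZ : ℂ :=
  (uj (2, 0) (2, 0) z * v 0 ^ 2 + 2 * uj (1, 1) (2, 0) z * (v 0 * v 1) +
    uj (0, 2) (2, 0) z * v 1 ^ 2) * w 0 ^ 2 +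
  2 * (uj (2, 0) (1, 1) z * v 0 ^ 2 + 2 * uj (1, 1) (1, 1) z * (v 0 * v 1) +
    uj (0, 2) (1, 1) z * v 1 ^ 2) * (w 0 * w 1) +
  (uj (2, 0) (0, 2) z * v 0 ^ 2 + 2 * uj (1, 1) (0, 2) z * (v 0 * v 1) +
    uj (0, 2) (0, 2) z * v 1 ^ 2) * w 1 ^ 2 - cA2 z v * cB2 z w
def cg : ℂ := cM z v w - cA z v * cB z w
def cgq (q : Fin 2) : ℂ := v 0 * Gm 0 q z + v 1 * Gm 1 q z
def cgp (p : Fin 2) : ℂ := w 0 * Gm p 0 z + w 1 * Gm p 1 z

theorem sum_G2 : ∑ i, ∑ j, ∑ k, ∑ l, G2 i j k l z * v i * w j * v k * w l =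
    cZ z v w - 2 * cg z v w ^ 2 - 2 * cA z v * (v 0 * cXb z w 0 + v 1 * cXb z w 1) -
      2 * cB z w * (w 0 * cX z v 0 + w 1 * cX z v 1) + 4 * (cA z v * cB z w) * cg z v w := by
  simp only [Fin.sum_univ_two, G2, cZ, cg, cX, cXb, cA, cB, cA2, cB2, cM, un_zero, un_one, e00,
    e01, e10, e11]
  ring

theorem sum_G1 (q : Fin 2) : ∑ i, ∑ k, G1 i q k z * v i * v k =
    cX z v q - 2 * cA z v * cgq z v q := by
  simp only [Fin.sum_univ_two, G1, Gm, cgq, cX, cA, cA2, un_zero, un_one, e00,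
    e01, e10, e11]
  ring

theorem sum_G1b (p : Fin 2) : ∑ j, ∑ l, G1b p j l z * w j * w l =
    cXb z w p - 2 * cB z w * cgp z w p := by
  simp only [Fin.sum_univ_two, G1b, Gm, cgp, cXb, cB, cB2, un_zero, un_one, e00,
    e01, e10, e11]
  ring

theorem cg_eq : cg z v w = ∑ i, ∑ j, Gm i j z * v i * w j := by
  simp only [Fin.sum_univ_two, Gm, cg, cM, cA, cB, un_zero, un_one]
  ring

/-- The determinant of the metric. -/
def gdet : ℂ := Gm 0 0 z * Gm 1 1 z - Gm 0 1 z * Gm 1 0 z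

theorem inv_sum (M : Matrix (Fin 2) (Fin 2) ℂ) (a b : Fin 2 → ℂ)
    (h : M 0 0 * M 1 1 - M 0 1 * M 1 0 ≠ 0) :
    ∑ p, ∑ q, M⁻¹ q p * a q * b p =
      (M 1 1 * a 0 * b 0 - M 0 1 * a 0 * b 1 - M 1 0 * a 1 * b 0 + M 0 0 * a 1 * b 1) /
        (M 0 0 * M 1 1 - M 0 1 * M 1 0) := by
  rw [Matrix.inv_def, Matrix.adjugate_fin_two, Matrix.det_fin_two, Ring.inverse_eq_inv']
  simp only [Fin.sum_univ_two, Matrix.smul_apply, Matrix.of_apply, Matrix.cons_val', Matrix.cons_val_zero,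
    Matrix.cons_val_one, Matrix.empty_val', Matrix.cons_val_fin_one, smul_eq_mul]
  field_simp
  ring

/-- The contraction of the curvature tensor. -/
theorem curv_sum (h : gdet z ≠ 0) :
    ∑ i, ∑ j, ∑ k, ∑ l, curv Gm i j k l z * v i * w j * v k * w l =
      2 * cg z v w ^ 2 - cZ z v w +
        (Gm 1 1 z * cX z v 0 * cXb z w 0 - Gm 0 1 z * cX z v 0 * cXb z w 1 -
          Gm 1 0 z * cX z v 1 * cXb z w 0 + Gm 0 0 z * cX z v 1 * cXb z w 1) / gdet z := by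
  have h1 : ∀ i j k l, curv Gm i j k l z * v i * w j * v k * w l =
      -(G2 i j k l z * v i * w j * v k * w l) +
      ∑ p, ∑ q, (Matrix.of fun a b => Gm a b z)⁻¹ q p * (G1 i q k z * v i * v k) *
        (G1b p j l z * w j * w l) := by
    intro i j k l
    rw [curv, dz_dzb_Gm]
    simp only [dz_Gm, dzb_Gm, Fin.sum_univ_two]
    ring
  have h2 : ∑ i, ∑ j, ∑ k, ∑ l, curv Gm i j k l z * v i * w j * v k * w l =
      -(∑ i, ∑ j, ∑ k, ∑ l, G2 i j k l z * v i * w j * v k * w l) +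
      ∑ p, ∑ q, (Matrix.of fun a b => Gm a b z)⁻¹ q p * (∑ i, ∑ k, G1 i q k z * v i * v k) *
        (∑ j, ∑ l, G1b p j l z * w j * w l) := by
    simp only [h1]
    simp only [Fin.sum_univ_two]
    ring
  rw [h2, sum_G2, inv_sum _ _ _ (by simpa [gdet] using h)]
  simp only [sum_G1, sum_G1b, Matrix.of_apply]
  have h3 : Gm 0 0 z * Gm 1 1 z - Gm 0 1 z * Gm 1 0 z ≠ 0 := h
  rw [gdet]
  have h4 : cg z v w = v 0 * cgp z w 0 + v 1 * cgp z w 1 := by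
    rw [cg_eq]
    simp only [Fin.sum_univ_two, cgp]
    ring
  rw [h4]
  simp only [cgp, cgq]
  field_simp
  ring

end Contract

end

end Pool.Agent.R882
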