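import Pool.Agent.R882.Torus

/-!
The curvature at the points of the torus.
-/

set_option autoImplicit false
set_option linter.unusedSimpArgs false

open scoped ComplexConjugate

namespace Pool.Agent.R882

noncomputable section

theorem Dm_mul (n a : ℕ) (x : ℂ) : Dm n a x * x ^ a = (n.descFactorial a : ℂ) * x ^ n := by
  by_cases h : a ≤ n
  · rw [Dm, mul_assoc, ← pow_add, Nat.sub_add_cancel h]
  · rw [Dm, Nat.descFactorial_eq_zero_iff_lt.2 (by omega)]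
    simp

theorem tm_mul (u : ℕ × ℕ × ℕ) (I J : ℕ × ℕ) (z : ℂ × ℂ) :
    tm u I J z * (z.1 ^ I.1 * z.2 ^ I.2 * (conj z.1 ^ J.1 * conj z.2 ^ J.2)) =
      ((((u.2.2 * (dd u I * dd u J) : ℕ) : ℝ) *
        ((‖z.1‖ ^ 2) ^ u.1 * (‖z.2‖ ^ 2) ^ u.2.1) : ℝ) : ℂ) := by
  have h1 := Dm_mul u.1 I.1 z.1
  have h2 := Dm_mul u.2.1 I.2 z.2
  have h3 := congrArg conj (Dm_mul u.1 J.1 z.1)
  have h4 := congrArg conj (Dm_mul u.2.1 J.2 z.2)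
  simp only [map_mul, map_pow, Complex.conj_natCast] at h3 h4
  have h5 : ∀ x : ℂ, ((‖x‖ : ℝ) : ℂ) ^ 2 = x * conj x := by
    intro x
    rw [Complex.mul_conj, Complex.normSq_eq_norm_sq, Complex.ofReal_pow]
  have e : tm u I J z * (z.1 ^ I.1 * z.2 ^ I.2 * (conj z.1 ^ J.1 * conj z.2 ^ J.2)) =
      u.2.2 * ((Dm u.1 I.1 z.1 * z.1 ^ I.1) * (Dm u.2.1 I.2 z.2 * z.2 ^ I.2) *
        ((conj (Dm u.1 J.1 z.1) * conj z.1 ^ J.1) * (conj (Dm u.2.1 J.2 z.2) * conj z.2 ^ J.2))) := by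
    rw [tm]
    ring
  rw [e, h1, h2, h3, h4, dd, dd]
  push_cast
  rw [h5, h5, mul_pow, mul_pow]
  ring

theorem jet_mul (I J : ℕ × ℕ) (z : ℂ × ℂ) :
    jet I J z * (z.1 ^ I.1 * z.2 ^ I.2 * (conj z.1 ^ J.1 * conj z.2 ^ J.2)) =
      (Tt I J (‖z.1‖ ^ 2) (‖z.2‖ ^ 2) : ℂ) := by
  rw [jet, Tt, ← List.sum_map_mul_right]
  simp only [tm_mul]
  induction tab with
  | nil => simp
  | cons u l ih =>
    simp only [List.map_cons, List.sum_cons, Complex.ofReal_add]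
    rw [ih]

/-- The values `Ss`, as complex numbers. -/
def Sc (z : ℂ × ℂ) (a b : ℕ) : ℂ := (Ss (‖z.1‖ ^ 2) (‖z.2‖ ^ 2) a b : ℂ)

theorem jet00 (z : ℂ × ℂ) : jet 0 0 z = Sc z 0 0 := by
  have h := jet_mul 0 0 z
  have h1 : Tt 0 0 (‖z.1‖ ^ 2) (‖z.2‖ ^ 2) = Ss (‖z.1‖ ^ 2) (‖z.2‖ ^ 2) 0 0 := T00_00 _ _
  rw [h1] at h
  simpa [Sc] using h

theorem uj_torus (I J : ℕ × ℕ) {z : ℂ × ℂ} (hx : z.1 ≠ 0) (hy : z.2 ≠ 0) :
    uj I J z = (Tt I J (‖z.1‖ ^ 2) (‖z.2‖ ^ 2) : ℂ) /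
      (Sc z 0 0 * (z.1 ^ I.1 * z.2 ^ I.2 * (conj z.1 ^ J.1 * conj z.2 ^ J.2))) := by
  have hx' : conj z.1 ≠ 0 := (map_ne_zero _).2 hx
  have hy' : conj z.2 ≠ 0 := (map_ne_zero _).2 hy
  have h0 := jet_ne z
  rw [uj, ← jet_mul, ← jet00]
  field_simp

theorem sylv (S : ℕ → ℕ → ℂ) (a b c d : ℕ) :
    S 0 0 ^ 2 * fg S a b c d =
      (S 0 0 * S (a + c) (b + d) - S a b * S c d) * (fk11 S * fk22 S - fk12 S ^ 2) -
      ((S 0 0 * S (a + 1) b - S a b * S 1 0) * (S 0 0 * S (c + 1) d - S c d * S 1 0) * fk22 S -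
       (S 0 0 * S (a + 1) b - S a b * S 1 0) * (S 0 0 * S c (d + 1) - S c d * S 0 1) * fk12 S -
       (S 0 0 * S a (b + 1) - S a b * S 0 1) * (S 0 0 * S (c + 1) d - S c d * S 1 0) * fk12 S +
       (S 0 0 * S a (b + 1) - S a b * S 0 1) * (S 0 0 * S c (d + 1) - S c d * S 0 1) *
         fk11 S) := by
  simp only [fg, fDe, fA00, fA01, fA02, fk11, fk12, fk22]
  ring

theorem det_eq (S : ℕ → ℕ → ℂ) : fk11 S * fk22 S - fk12 S ^ 2 = S 0 0 * fDe S := by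
  simp only [fDe, fA00, fA01, fA02, fk11, fk12, fk22]
  ring

end

end Pool.Agent.R882
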