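import Pool.Agent.R882.Eval

/-!
The curvature at the points of the torus.
-/

set_option autoImplicit false
set_option linter.unusedSimpArgs false

open scoped ComplexConjugate

namespace Pool.Agent.R882

noncomputable section

theorem Sc_def (z : ℂ × ℂ) (a b : ℕ) : ((Ss (‖z.1‖ ^ 2) (‖z.2‖ ^ 2) a b : ℝ) : ℂ) = Sc z a b := rfl

theorem zz : (0 : ℕ × ℕ) = (0, 0) := rfl

theorem Sc_ne (z : ℂ × ℂ) : Sc z 0 0 ≠ 0 := by
  rw [← jet00]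
  exact jet_ne z

section

variable {z : ℂ × ℂ} (hx : z.1 ≠ 0) (hy : z.2 ≠ 0)

include hx hy

theorem t00 : Gm 0 0 z = fk11 (Sc z) / (Sc z 0 0 ^ 2 * (z.1 * conj z.1)) := by
  have hx' : conj z.1 ≠ 0 := (map_ne_zero _).2 hx
  have hy' : conj z.2 ≠ 0 := (map_ne_zero _).2 hy
  have h0 := Sc_ne z
  simp only [Gm, un_zero, un_one, uj_torus _ _ hx hy, zz, T10_10, T10_00, T00_10, T01_10, T10_01,
    T01_00, T00_01, T01_01, Sc_def, pow_one, pow_zero, mul_one, one_mul, fk11, fk12, fk22]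
  field_simp

theorem t01 : Gm 0 1 z = fk12 (Sc z) / (Sc z 0 0 ^ 2 * (z.1 * conj z.2)) := by
  have hx' : conj z.1 ≠ 0 := (map_ne_zero _).2 hx
  have hy' : conj z.2 ≠ 0 := (map_ne_zero _).2 hy
  have h0 := Sc_ne z
  simp only [Gm, un_zero, un_one, uj_torus _ _ hx hy, zz, T10_10, T10_00, T00_10, T01_10, T10_01,
    T01_00, T00_01, T01_01, Sc_def, pow_one, pow_zero, mul_one, one_mul, fk11, fk12, fk22]
  field_simp

theorem t10 : Gm 1 0 z = fk12 (Sc z) / (Sc z 0 0 ^ 2 * (z.2 * conj z.1)) := by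
  have hx' : conj z.1 ≠ 0 := (map_ne_zero _).2 hx
  have hy' : conj z.2 ≠ 0 := (map_ne_zero _).2 hy
  have h0 := Sc_ne z
  simp only [Gm, un_zero, un_one, uj_torus _ _ hx hy, zz, T10_10, T10_00, T00_10, T01_10, T10_01,
    T01_00, T00_01, T01_01, Sc_def, pow_one, pow_zero, mul_one, one_mul, fk11, fk12, fk22]
  field_simp

theorem t11 : Gm 1 1 z = fk22 (Sc z) / (Sc z 0 0 ^ 2 * (z.2 * conj z.2)) := by
  have hx' : conj z.1 ≠ 0 := (map_ne_zero _).2 hx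
  have hy' : conj z.2 ≠ 0 := (map_ne_zero _).2 hy
  have h0 := Sc_ne z
  simp only [Gm, un_zero, un_one, uj_torus _ _ hx hy, zz, T10_10, T10_00, T00_10, T01_10, T10_01,
    T01_00, T00_01, T01_01, Sc_def, pow_one, pow_zero, mul_one, one_mul, fk11, fk12, fk22]
  field_simp

variable (v w : Fin 2 → ℂ) (a b A B : ℂ)

theorem tX0 (hv0 : v 0 = a * z.1) (hv1 : v 1 = b * z.2) : cX z v 0 =
    (a ^ 2 * ((Sc z 0 0 * Sc z 3 0 - Sc z 2 0 * Sc z 1 0) - fk11 (Sc z)) +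
      2 * (a * b) * (Sc z 0 0 * Sc z 2 1 - Sc z 1 1 * Sc z 1 0) +
      b ^ 2 * ((Sc z 0 0 * Sc z 1 2 - Sc z 0 2 * Sc z 1 0) - fk12 (Sc z))) /
      (Sc z 0 0 ^ 2 * conj z.1) := by
  have hx' : conj z.1 ≠ 0 := (map_ne_zero _).2 hx
  have hy' : conj z.2 ≠ 0 := (map_ne_zero _).2 hy
  have h0 := Sc_ne z
  simp only [cX, cA2, un_zero, un_one, uj_torus _ _ hx hy, zz, T20_10, T11_10, T02_10, T20_00,
    T11_00, T02_00, T00_10, Complex.ofReal_sub, Sc_def, pow_one, pow_zero, mul_one, one_mul, fk11,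
    fk12, fk22, hv0, hv1]
  field_simp
  ring

theorem tX1 (hv0 : v 0 = a * z.1) (hv1 : v 1 = b * z.2) : cX z v 1 =
    (a ^ 2 * ((Sc z 0 0 * Sc z 2 1 - Sc z 2 0 * Sc z 0 1) - fk12 (Sc z)) +
      2 * (a * b) * (Sc z 0 0 * Sc z 1 2 - Sc z 1 1 * Sc z 0 1) +
      b ^ 2 * ((Sc z 0 0 * Sc z 0 3 - Sc z 0 2 * Sc z 0 1) - fk22 (Sc z))) /
      (Sc z 0 0 ^ 2 * conj z.2) := by
  have hx' : conj z.1 ≠ 0 := (map_ne_zero _).2 hx
  have hy' : conj z.2 ≠ 0 := (map_ne_zero _).2 hy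
  have h0 := Sc_ne z
  simp only [cX, cA2, un_zero, un_one, uj_torus _ _ hx hy, zz, T20_01, T11_01, T02_01, T20_00,
    T11_00, T02_00, T00_01, Complex.ofReal_sub, Sc_def, pow_one, pow_zero, mul_one, one_mul, fk11,
    fk12, fk22, hv0, hv1]
  field_simp
  ring

theorem tXb0 (hw0 : w 0 = A * conj z.1) (hw1 : w 1 = B * conj z.2) : cXb z w 0 =
    (A ^ 2 * ((Sc z 0 0 * Sc z 3 0 - Sc z 2 0 * Sc z 1 0) - fk11 (Sc z)) +
      2 * (A * B) * (Sc z 0 0 * Sc z 2 1 - Sc z 1 1 * Sc z 1 0) +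
      B ^ 2 * ((Sc z 0 0 * Sc z 1 2 - Sc z 0 2 * Sc z 1 0) - fk12 (Sc z))) /
      (Sc z 0 0 ^ 2 * z.1) := by
  have hx' : conj z.1 ≠ 0 := (map_ne_zero _).2 hx
  have hy' : conj z.2 ≠ 0 := (map_ne_zero _).2 hy
  have h0 := Sc_ne z
  simp only [cXb, cB2, un_zero, un_one, uj_torus _ _ hx hy, zz, T10_20, T10_11, T10_02, T00_20,
    T00_11, T00_02, T10_00, Complex.ofReal_sub, Sc_def, pow_one, pow_zero, mul_one, one_mul, fk11,
    fk12, fk22, hw0, hw1]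
  field_simp
  ring

theorem tXb1 (hw0 : w 0 = A * conj z.1) (hw1 : w 1 = B * conj z.2) : cXb z w 1 =
    (A ^ 2 * ((Sc z 0 0 * Sc z 2 1 - Sc z 2 0 * Sc z 0 1) - fk12 (Sc z)) +
      2 * (A * B) * (Sc z 0 0 * Sc z 1 2 - Sc z 1 1 * Sc z 0 1) +
      B ^ 2 * ((Sc z 0 0 * Sc z 0 3 - Sc z 0 2 * Sc z 0 1) - fk22 (Sc z))) /
      (Sc z 0 0 ^ 2 * z.2) := by
  have hx' : conj z.1 ≠ 0 := (map_ne_zero _).2 hx
  have hy' : conj z.2 ≠ 0 := (map_ne_zero _).2 hy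
  have h0 := Sc_ne z
  simp only [cXb, cB2, un_zero, un_one, uj_torus _ _ hx hy, zz, T01_20, T01_11, T01_02, T00_20,
    T00_11, T00_02, T01_00, Complex.ofReal_sub, Sc_def, pow_one, pow_zero, mul_one, one_mul, fk11,
    fk12, fk22, hw0, hw1]
  field_simp
  ring

theorem tg (hv0 : v 0 = a * z.1) (hv1 : v 1 = b * z.2) (hw0 : w 0 = A * conj z.1)
    (hw1 : w 1 = B * conj z.2) : cg z v w =
    (fk11 (Sc z) * (a * A) + fk12 (Sc z) * (a * B + b * A) + fk22 (Sc z) * (b * B)) /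
      Sc z 0 0 ^ 2 := by
  have hx' : conj z.1 ≠ 0 := (map_ne_zero _).2 hx
  have hy' : conj z.2 ≠ 0 := (map_ne_zero _).2 hy
  have h0 := Sc_ne z
  simp only [cg_eq, Fin.sum_univ_two, t00 hx hy, t01 hx hy, t10 hx hy, t11 hx hy, hv0, hv1, hw0,
    hw1]
  field_simp
  ring

theorem tdet : gdet z = (fk11 (Sc z) * fk22 (Sc z) - fk12 (Sc z) ^ 2) /
    (Sc z 0 0 ^ 4 * (z.1 * conj z.1 * (z.2 * conj z.2))) := by
  have hx' : conj z.1 ≠ 0 := (map_ne_zero _).2 hx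
  have hy' : conj z.2 ≠ 0 := (map_ne_zero _).2 hy
  have h0 := Sc_ne z
  simp only [gdet, t00 hx hy, t01 hx hy, t10 hx hy, t11 hx hy]
  field_simp

theorem tZ (hv0 : v 0 = a * z.1) (hv1 : v 1 = b * z.2) (hw0 : w 0 = A * conj z.1)
    (hw1 : w 1 = B * conj z.2) : cZ z v w =
    (a ^ 2 * A ^ 2 * ((Sc z 0 0 * Sc z 4 0 - Sc z 2 0 * Sc z 2 0) -
        2 * (Sc z 0 0 * Sc z 3 0 - Sc z 2 0 * Sc z 1 0) + fk11 (Sc z)) +
      (a ^ 2 * (2 * (A * B)) + (2 * (a * b)) * A ^ 2) *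
        ((Sc z 0 0 * Sc z 3 1 - Sc z 2 0 * Sc z 1 1) -
          (Sc z 0 0 * Sc z 2 1 - Sc z 1 1 * Sc z 1 0)) +
      (a ^ 2 * B ^ 2 + b ^ 2 * A ^ 2) *
        ((Sc z 0 0 * Sc z 2 2 - Sc z 2 0 * Sc z 0 2) -
          (Sc z 0 0 * Sc z 2 1 - Sc z 2 0 * Sc z 0 1) -
          (Sc z 0 0 * Sc z 1 2 - Sc z 0 2 * Sc z 1 0) + fk12 (Sc z)) +
      4 * (a * b) * (A * B) * (Sc z 0 0 * Sc z 2 2 - Sc z 1 1 * Sc z 1 1) +
      (b ^ 2 * (2 * (A * B)) + (2 * (a * b)) * B ^ 2) *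
        ((Sc z 0 0 * Sc z 1 3 - Sc z 1 1 * Sc z 0 2) -
          (Sc z 0 0 * Sc z 1 2 - Sc z 1 1 * Sc z 0 1)) +
      b ^ 2 * B ^ 2 * ((Sc z 0 0 * Sc z 0 4 - Sc z 0 2 * Sc z 0 2) -
        2 * (Sc z 0 0 * Sc z 0 3 - Sc z 0 2 * Sc z 0 1) + fk22 (Sc z))) /
      Sc z 0 0 ^ 2 := by
  have hx' : conj z.1 ≠ 0 := (map_ne_zero _).2 hx
  have hy' : conj z.2 ≠ 0 := (map_ne_zero _).2 hy
  have h0 := Sc_ne z
  simp only [cZ, cA2, cB2, un_zero, un_one, uj_torus _ _ hx hy, zz, T20_20, T20_11, T20_02, T11_20,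
    T11_11, T11_02, T02_20, T02_11, T02_02, T20_00, T11_00, T02_00, T00_20, T00_11, T00_02,
    Complex.ofReal_sub, Complex.ofReal_add, Complex.ofReal_mul, Complex.ofReal_ofNat,
    Sc_def, pow_one, pow_zero, mul_one, one_mul, fk11,
    fk12, fk22, hv0, hv1, hw0, hw1]
  field_simp
  ring

end

end

end Pool.Agent.R882
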