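import Pool.Agent.R882.Eval2

/-!
The curvature at the points of the torus.
-/

set_option autoImplicit false
set_option linter.unusedSimpArgs false

open scoped ComplexConjugate

namespace Pool.Agent.R882

noncomputable section

/-- The form `G`, for complex arguments. -/
def fGc (S : ℕ → ℕ → ℂ) (x y r : ℂ) : ℂ :=
  fg S 2 0 2 0 * x ^ 2 + 4 * fg S 2 0 1 1 * x * r + 4 * fg S 1 1 1 1 * x * y +
    2 * fg S 2 0 0 2 * (2 * r ^ 2 - x * y) + 4 * fg S 1 1 0 2 * y * r + fg S 0 2 0 2 * y ^ 2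

theorem alg_final (S : ℕ → ℕ → ℂ) (a b A B : ℂ) :
    (a ^ 2 * A ^ 2 * ((S 0 0 * S 4 0 - S 2 0 * S 2 0) -
        2 * (S 0 0 * S 3 0 - S 2 0 * S 1 0) + fk11 S) +
      (a ^ 2 * (2 * (A * B)) + (2 * (a * b)) * A ^ 2) *
        ((S 0 0 * S 3 1 - S 2 0 * S 1 1) -
          (S 0 0 * S 2 1 - S 1 1 * S 1 0)) +
      (a ^ 2 * B ^ 2 + b ^ 2 * A ^ 2) *
        ((S 0 0 * S 2 2 - S 2 0 * S 0 2) -
          (S 0 0 * S 2 1 - S 2 0 * S 0 1) -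
          (S 0 0 * S 1 2 - S 0 2 * S 1 0) + fk12 S) +
      4 * (a * b) * (A * B) * (S 0 0 * S 2 2 - S 1 1 * S 1 1) +
      (b ^ 2 * (2 * (A * B)) + (2 * (a * b)) * B ^ 2) *
        ((S 0 0 * S 1 3 - S 1 1 * S 0 2) -
          (S 0 0 * S 1 2 - S 1 1 * S 0 1)) +
      b ^ 2 * B ^ 2 * ((S 0 0 * S 0 4 - S 0 2 * S 0 2) -
        2 * (S 0 0 * S 0 3 - S 0 2 * S 0 1) + fk22 S)) * (fk11 S * fk22 S - fk12 S ^ 2) -
    (fk22 S * (a ^ 2 * ((S 0 0 * S 3 0 - S 2 0 * S 1 0) - fk11 S) +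
      2 * (a * b) * (S 0 0 * S 2 1 - S 1 1 * S 1 0) +
      b ^ 2 * ((S 0 0 * S 1 2 - S 0 2 * S 1 0) - fk12 S)) *
      (A ^ 2 * ((S 0 0 * S 3 0 - S 2 0 * S 1 0) - fk11 S) +
      2 * (A * B) * (S 0 0 * S 2 1 - S 1 1 * S 1 0) +
      B ^ 2 * ((S 0 0 * S 1 2 - S 0 2 * S 1 0) - fk12 S)) -
     fk12 S * (a ^ 2 * ((S 0 0 * S 3 0 - S 2 0 * S 1 0) - fk11 S) +
      2 * (a * b) * (S 0 0 * S 2 1 - S 1 1 * S 1 0) +
      b ^ 2 * ((S 0 0 * S 1 2 - S 0 2 * S 1 0) - fk12 S)) *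
      (A ^ 2 * ((S 0 0 * S 2 1 - S 2 0 * S 0 1) - fk12 S) +
      2 * (A * B) * (S 0 0 * S 1 2 - S 1 1 * S 0 1) +
      B ^ 2 * ((S 0 0 * S 0 3 - S 0 2 * S 0 1) - fk22 S)) -
     fk12 S * (a ^ 2 * ((S 0 0 * S 2 1 - S 2 0 * S 0 1) - fk12 S) +
      2 * (a * b) * (S 0 0 * S 1 2 - S 1 1 * S 0 1) +
      b ^ 2 * ((S 0 0 * S 0 3 - S 0 2 * S 0 1) - fk22 S)) *
      (A ^ 2 * ((S 0 0 * S 3 0 - S 2 0 * S 1 0) - fk11 S) +
      2 * (A * B) * (S 0 0 * S 2 1 - S 1 1 * S 1 0) +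
      B ^ 2 * ((S 0 0 * S 1 2 - S 0 2 * S 1 0) - fk12 S)) +
     fk11 S * (a ^ 2 * ((S 0 0 * S 2 1 - S 2 0 * S 0 1) - fk12 S) +
      2 * (a * b) * (S 0 0 * S 1 2 - S 1 1 * S 0 1) +
      b ^ 2 * ((S 0 0 * S 0 3 - S 0 2 * S 0 1) - fk22 S)) *
      (A ^ 2 * ((S 0 0 * S 2 1 - S 2 0 * S 0 1) - fk12 S) +
      2 * (A * B) * (S 0 0 * S 1 2 - S 1 1 * S 0 1) +
      B ^ 2 * ((S 0 0 * S 0 3 - S 0 2 * S 0 1) - fk22 S))) =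
    S 0 0 ^ 2 * fGc S (a * A) (b * B) ((a * B + b * A) / 2) := by
  have g1 := sylv S 2 0 2 0
  have g2 := sylv S 2 0 1 1
  have g3 := sylv S 1 1 1 1
  have g4 := sylv S 2 0 0 2
  have g5 := sylv S 1 1 0 2
  have g6 := sylv S 0 2 0 2
  have k1 : S 0 0 * S 2 0 - S 1 0 * S 1 0 = fk11 S := rfl
  have k2 : S 0 0 * S 1 1 - S 1 0 * S 0 1 = fk12 S := rfl
  have k3 : S 0 0 * S 0 2 - S 0 1 * S 0 1 = fk22 S := rfl
  simp only [Nat.reduceAdd] at g1 g2 g3 g4 g5 g6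
  simp only [fGc]
  linear_combination -((a * A) ^ 2) * g1 - (4 * (a * A) * ((a * B + b * A) / 2)) * g2 -
    (4 * (a * A) * (b * B)) * g3 - (2 * (2 * ((a * B + b * A) / 2) ^ 2 - a * A * (b * B))) * g4 -
    (4 * (b * B) * ((a * B + b * A) / 2)) * g5 - ((b * B) ^ 2) * g6

theorem cast_fg (S : ℕ → ℕ → ℝ) (a b c d : ℕ) :
    ((fg S a b c d : ℝ) : ℂ) = fg (fun a b => (S a b : ℂ)) a b c d := by
  simp only [fg, fDe, fA00, fA01, fA02, fk11, fk12, fk22]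
  push_cast
  rfl

theorem cast_fk11 (S : ℕ → ℕ → ℝ) : ((fk11 S : ℝ) : ℂ) = fk11 (fun a b => (S a b : ℂ)) := by
  simp only [fk11]; push_cast; rfl
theorem cast_fk12 (S : ℕ → ℕ → ℝ) : ((fk12 S : ℝ) : ℂ) = fk12 (fun a b => (S a b : ℂ)) := by
  simp only [fk12]; push_cast; rfl
theorem cast_fk22 (S : ℕ → ℕ → ℝ) : ((fk22 S : ℝ) : ℂ) = fk22 (fun a b => (S a b : ℂ)) := by
  simp only [fk22]; push_cast; rfl
theorem cast_fDe (S : ℕ → ℕ → ℝ) : ((fDe S : ℝ) : ℂ) = fDe (fun a b => (S a b : ℂ)) := by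
  simp only [fDe, fA00, fA01, fA02]; push_cast; rfl

theorem cast_fQ (S : ℕ → ℕ → ℝ) (x y r : ℝ) : ((fQ S x y r : ℝ) : ℂ) =
    fk11 (fun a b => (S a b : ℂ)) * x + fk22 (fun a b => (S a b : ℂ)) * y +
      2 * fk12 (fun a b => (S a b : ℂ)) * r := by
  rw [fQ, ← cast_fk11, ← cast_fk12, ← cast_fk22]
  push_cast
  rfl

theorem cast_fG (S : ℕ → ℕ → ℝ) (x y r : ℝ) : ((fG S x y r : ℝ) : ℂ) =
    fGc (fun a b => (S a b : ℂ)) x y r := by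
  rw [fG, fGc]
  simp only [← cast_fg]
  push_cast
  rfl

/-- The metric at the points of the torus. -/
theorem torus_g {z : ℂ × ℂ} (hx : z.1 ≠ 0) (hy : z.2 ≠ 0) (v : Fin 2 → ℂ) :
    cg z v (fun k => conj (v k)) =
      ((fQ (Ss (‖z.1‖ ^ 2) (‖z.2‖ ^ 2)) (‖v 0 / z.1‖ ^ 2) (‖v 1 / z.2‖ ^ 2)
        ((v 0 / z.1) * conj (v 1 / z.2)).re / Ss (‖z.1‖ ^ 2) (‖z.2‖ ^ 2) 0 0 ^ 2 : ℝ) : ℂ) := by
  have hx' : conj z.1 ≠ 0 := (map_ne_zero _).2 hx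
  have hy' : conj z.2 ≠ 0 := (map_ne_zero _).2 hy
  have hv0 : v 0 = (v 0 / z.1) * z.1 := by field_simp
  have hv1 : v 1 = (v 1 / z.2) * z.2 := by field_simp
  have hw0 : conj (v 0) = conj (v 0 / z.1) * conj z.1 := by rw [← map_mul, ← hv0]
  have hw1 : conj (v 1) = conj (v 1 / z.2) * conj z.2 := by rw [← map_mul, ← hv1]
  rw [tg hx hy v (fun k => conj (v k)) (v 0 / z.1) (v 1 / z.2) (conj (v 0 / z.1))
    (conj (v 1 / z.2)) hv0 hv1 hw0 hw1]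
  generalize v 0 / z.1 = a
  generalize v 1 / z.2 = b
  rw [Complex.ofReal_div, cast_fQ, Complex.ofReal_pow, Complex.ofReal_pow, Complex.ofReal_pow,
    ← Complex.mul_conj', ← Complex.mul_conj', Complex.re_eq_add_conj, map_mul, Complex.conj_conj]
  change _ = (fk11 (Sc z) * (a * conj a) + fk22 (Sc z) * (b * conj b) +
    2 * fk12 (Sc z) * ((a * conj b + conj a * b) / 2)) / Sc z 0 0 ^ 2
  ring

/-- The curvature at the points of the torus. -/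
theorem torus_curv {z : ℂ × ℂ} (hx : z.1 ≠ 0) (hy : z.2 ≠ 0) (v : Fin 2 → ℂ)
    (hD : fDe (Ss (‖z.1‖ ^ 2) (‖z.2‖ ^ 2)) ≠ 0) :
    ∑ i, ∑ j, ∑ k, ∑ l, curv Gm i j k l z * v i * conj (v j) * v k * conj (v l) =
      ((2 * (fQ (Ss (‖z.1‖ ^ 2) (‖z.2‖ ^ 2)) (‖v 0 / z.1‖ ^ 2) (‖v 1 / z.2‖ ^ 2)
        ((v 0 / z.1) * conj (v 1 / z.2)).re / Ss (‖z.1‖ ^ 2) (‖z.2‖ ^ 2) 0 0 ^ 2) ^ 2 -
        fG (Ss (‖z.1‖ ^ 2) (‖z.2‖ ^ 2)) (‖v 0 / z.1‖ ^ 2) (‖v 1 / z.2‖ ^ 2)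
          ((v 0 / z.1) * conj (v 1 / z.2)).re /
        (Ss (‖z.1‖ ^ 2) (‖z.2‖ ^ 2) 0 0 * fDe (Ss (‖z.1‖ ^ 2) (‖z.2‖ ^ 2))) : ℝ) : ℂ) := by
  have hx' : conj z.1 ≠ 0 := (map_ne_zero _).2 hx
  have hy' : conj z.2 ≠ 0 := (map_ne_zero _).2 hy
  have hv0 : v 0 = (v 0 / z.1) * z.1 := by field_simp
  have hv1 : v 1 = (v 1 / z.2) * z.2 := by field_simp
  have hw0 : conj (v 0) = conj (v 0 / z.1) * conj z.1 := by rw [← map_mul, ← hv0]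
  have hw1 : conj (v 1) = conj (v 1 / z.2) * conj z.2 := by rw [← map_mul, ← hv1]
  have h0 := Sc_ne z
  have hDc : fDe (Sc z) ≠ 0 := by
    change fDe (fun a b => ((Ss (‖z.1‖ ^ 2) (‖z.2‖ ^ 2) a b : ℝ) : ℂ)) ≠ 0
    rw [← cast_fDe]
    exact_mod_cast hD
  have hdel : fk11 (Sc z) * fk22 (Sc z) - fk12 (Sc z) ^ 2 ≠ 0 := by
    rw [det_eq]
    exact mul_ne_zero h0 hDc
  have hdet : gdet z ≠ 0 := by
    rw [tdet hx hy]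
    exact div_ne_zero hdel (mul_ne_zero (pow_ne_zero _ h0)
      (mul_ne_zero (mul_ne_zero hx hx') (mul_ne_zero hy hy')))
  have h2 : (((v 0 / z.1 * conj (v 1 / z.2)).re : ℝ) : ℂ) =
      ((v 0 / z.1) * conj (v 1 / z.2) + (v 1 / z.2) * conj (v 0 / z.1)) / 2 := by
    rw [Complex.re_eq_add_conj, map_mul, Complex.conj_conj]
    ring
  have hG : ((fG (Ss (‖z.1‖ ^ 2) (‖z.2‖ ^ 2)) (‖v 0 / z.1‖ ^ 2) (‖v 1 / z.2‖ ^ 2)
      ((v 0 / z.1) * conj (v 1 / z.2)).re /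
      (Ss (‖z.1‖ ^ 2) (‖z.2‖ ^ 2) 0 0 * fDe (Ss (‖z.1‖ ^ 2) (‖z.2‖ ^ 2))) : ℝ) : ℂ) =
      fGc (Sc z) (v 0 / z.1 * conj (v 0 / z.1)) (v 1 / z.2 * conj (v 1 / z.2))
        ((v 0 / z.1 * conj (v 1 / z.2) + v 1 / z.2 * conj (v 0 / z.1)) / 2) /
        (fk11 (Sc z) * fk22 (Sc z) - fk12 (Sc z) ^ 2) := by
    rw [Complex.ofReal_div, cast_fG, Complex.ofReal_mul, cast_fDe, h2, Complex.ofReal_pow,
      Complex.ofReal_pow, ← Complex.mul_conj', ← Complex.mul_conj', det_eq]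
    rfl
  have h1 := curv_sum z v (fun k => conj (v k)) hdet
  rw [h1, Complex.ofReal_sub, hG, Complex.ofReal_mul, Complex.ofReal_pow, ← torus_g hx hy,
    tdet hx hy, t00 hx hy, t01 hx hy, t10 hx hy, t11 hx hy,
    tX0 hx hy v _ _ hv0 hv1, tX1 hx hy v _ _ hv0 hv1,
    tXb0 hx hy (fun k => conj (v k)) _ _ hw0 hw1, tXb1 hx hy (fun k => conj (v k)) _ _ hw0 hw1,
    tZ hx hy v (fun k => conj (v k)) _ _ _ _ hv0 hv1 hw0 hw1]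
  have h3 := alg_final (Sc z) (v 0 / z.1) (v 1 / z.2) (conj (v 0 / z.1)) (conj (v 1 / z.2))
  clear h1 hG h2 hdet hDc hD hw0 hw1 hv0 hv1
  generalize cg z v (fun k => conj (v k)) = g
  generalize v 0 / z.1 = a at *
  generalize v 1 / z.2 = b at *
  generalize conj a = A at *
  generalize conj b = B at *
  have h4 : fGc (Sc z) (a * A) (b * B) ((a * B + b * A) / 2) /
      (fk11 (Sc z) * fk22 (Sc z) - fk12 (Sc z) ^ 2) =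
     (Sc z 0 0 ^ 2 * fGc (Sc z) (a * A) (b * B) ((a * B + b * A) / 2)) /
      (Sc z 0 0 ^ 2 * (fk11 (Sc z) * fk22 (Sc z) - fk12 (Sc z) ^ 2)) := by
    field_simp
  rw [h4, ← h3]
  clear h3 h4
  rw [Complex.ofReal_ofNat]
  generalize fk11 (Sc z) = k11 at *
  generalize fk12 (Sc z) = k12 at *
  generalize fk22 (Sc z) = k22 at *
  field_simp
  ring

end

end Pool.Agent.R882
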