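import Pool.Agent.R882.Pack

/-!
The polynomials of the certificate, as functions which can be evaluated in every ring, and pairs
`(a, b)`, which stand for `a - b`.
-/

set_option autoImplicit false
set_option linter.unusedSimpArgs false

open Polynomial

namespace Pool.Agent.R882

/-- The coefficients of the polynomial `P(s, t)`: the entry `(i, j, c)` stands for `c s^i t^j`. -/
def tab : List (ℕ × ℕ × ℕ) :=
  [(2, 2, 57),
   (3, 3, 57), (3, 2, 57), (2, 3, 57), (1, 1, 57), (1, 2, 57), (2, 1, 57),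
   (4, 3, 13), (3, 4, 13), (3, 1, 13), (1, 3, 13), (0, 1, 13), (1, 0, 13),
   (4, 4, 5), (4, 2, 5), (2, 4, 5), (0, 0, 5), (0, 2, 5), (2, 0, 5)]

section Poly

variable {R : Type} [Add R] [Sub R] [Mul R] [NatCast R]

def fk11 (S : ℕ → ℕ → R) : R := S 0 0 * S 2 0 - S 1 0 * S 1 0
def fk12 (S : ℕ → ℕ → R) : R := S 0 0 * S 1 1 - S 1 0 * S 0 1
def fk22 (S : ℕ → ℕ → R) : R := S 0 0 * S 0 2 - S 0 1 * S 0 1
def fA00 (S : ℕ → ℕ → R) : R := S 2 0 * S 0 2 - S 1 1 * S 1 1
def fA01 (S : ℕ → ℕ → R) : R := S 1 1 * S 0 1 - S 1 0 * S 0 2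
def fA02 (S : ℕ → ℕ → R) : R := S 1 0 * S 1 1 - S 2 0 * S 0 1
def fDe (S : ℕ → ℕ → R) : R := S 0 0 * fA00 S + S 1 0 * fA01 S + S 0 1 * fA02 S

/-- The determinant `g_{p q}`, where `p = (a, b)` and `q = (c, d)`. -/
def fg (S : ℕ → ℕ → R) (a b c d : ℕ) : R :=
  S (a + c) (b + d) * fDe S -
    (S a b * (fA00 S * S c d + fA01 S * S (c + 1) d + fA02 S * S c (d + 1)) +
      S (a + 1) b * (fA01 S * S c d + fk22 S * S (c + 1) d - fk12 S * S c (d + 1)) +
      S a (b + 1) * (fA02 S * S c d - fk12 S * S (c + 1) d + fk11 S * S c (d + 1)))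

def fS3 (S : ℕ → ℕ → R) : R := ((1000 : ℕ) : R) * (S 0 0 * S 0 0 * S 0 0)
def fL (S : ℕ → ℕ → R) : R := ((10 : ℕ) : R) * (S 0 0 * (fDe S * fDe S))
def fE (S : ℕ → ℕ → R) : R := ((1999 : ℕ) : R) * fDe S

def fa (S : ℕ → ℕ → R) : R := fE S * (fk11 S * fk11 S) - fS3 S * fg S 2 0 2 0
def fc (S : ℕ → ℕ → R) : R := fE S * (fk22 S * fk22 S) - fS3 S * fg S 0 2 0 2
def fb (S : ℕ → ℕ → R) : R :=
  fE S * (fk11 S * fk22 S) - fS3 S * (((2 : ℕ) : R) * fg S 1 1 1 1 - fg S 2 0 0 2) -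
    ((2 : ℕ) : R) * fL S
def fd (S : ℕ → ℕ → R) : R :=
  ((4 : ℕ) : R) * (fE S * (fk12 S * fk12 S) - fS3 S * fg S 2 0 0 2 + fL S)
def fe (S : ℕ → ℕ → R) : R :=
  ((2 : ℕ) : R) * (fE S * (fk11 S * fk12 S) - fS3 S * fg S 2 0 1 1)
def ff (S : ℕ → ℕ → R) : R :=
  ((2 : ℕ) : R) * (fE S * (fk22 S * fk12 S) - fS3 S * fg S 1 1 0 2)
def fM2 (S : ℕ → ℕ → R) : R := fa S * fc S - fb S * fb S
def fM3 (S : ℕ → ℕ → R) : R :=
  fM2 S * fd S + ((2 : ℕ) : R) * (fb S * (fe S * ff S)) - fa S * (ff S * ff S) -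
    fc S * (fe S * fe S)

end Poly

/-- The value of `P`, with weights `i^a j^b`, multiplied by `((1 + p) (1 + q))^4`, at
`s = 1 / (1 + p)`, `t = 1 / (1 + q)`. -/
def Sh {R : Type} [CommSemiring R] (p q : R) (a b : ℕ) : R :=
  (tab.map fun u => ((u.2.2 * (u.1 ^ a * u.2.1 ^ b) : ℕ) : R) *
    ((1 + p) ^ (4 - u.1) * (1 + q) ^ (4 - u.2.1))).sum

/-- A pair `(a, b)`, which stands for `a - b`. -/
structure Pr (R : Type) where
  a : R
  b : R

namespace Pr

variable {R : Type} [CommSemiring R]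

instance : Add (Pr R) := ⟨fun x y => ⟨x.a + y.a, x.b + y.b⟩⟩
instance : Sub (Pr R) := ⟨fun x y => ⟨x.a + y.b, x.b + y.a⟩⟩
instance : Mul (Pr R) := ⟨fun x y => ⟨x.a * y.a + x.b * y.b, x.a * y.b + x.b * y.a⟩⟩
instance : NatCast (Pr R) := ⟨fun n => ⟨(n : R), 0⟩⟩

/-- The pair `(x, 0)`. -/
def of (x : R) : Pr R := ⟨x, 0⟩

/-- The image of a pair under a homomorphism. -/
def map {R' : Type} [CommSemiring R'] (φ : R →+* R') (x : Pr R) : Pr R' := ⟨φ x.a, φ x.b⟩

variable {R' : Type} [CommSemiring R'] (φ : R →+* R')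

theorem map_add (x y : Pr R) : map φ (x + y) = map φ x + map φ y := by
  change Pr.mk (φ (x.a + y.a)) (φ (x.b + y.b)) = Pr.mk (φ x.a + φ y.a) (φ x.b + φ y.b)
  simp

theorem map_sub (x y : Pr R) : map φ (x - y) = map φ x - map φ y := by
  change Pr.mk (φ (x.a + y.b)) (φ (x.b + y.a)) = Pr.mk (φ x.a + φ y.b) (φ x.b + φ y.a)
  simp

theorem map_mul (x y : Pr R) : map φ (x * y) = map φ x * map φ y := by
  change Pr.mk (φ (x.a * y.a + x.b * y.b)) (φ (x.a * y.b + x.b * y.a)) =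
    Pr.mk (φ x.a * φ y.a + φ x.b * φ y.b) (φ x.a * φ y.b + φ x.b * φ y.a)
  simp

theorem map_natCast (n : ℕ) : map φ (n : Pr R) = n := by
  change Pr.mk (φ (n : R)) (φ 0) = Pr.mk (n : R') 0
  simp

theorem map_of (x : R) : map φ (of x) = of (φ x) := by
  change Pr.mk (φ x) (φ 0) = Pr.mk (φ x) 0
  simp

/-- The difference. -/
def val (x : Pr ℝ) : ℝ := x.a - x.b

theorem val_add (x y : Pr ℝ) : val (x + y) = val x + val y := by
  change (x.a + y.a) - (x.b + y.b) = (x.a - x.b) + (y.a - y.b)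
  ring

theorem val_sub (x y : Pr ℝ) : val (x - y) = val x - val y := by
  change (x.a + y.b) - (x.b + y.a) = (x.a - x.b) - (y.a - y.b)
  ring

theorem val_mul (x y : Pr ℝ) : val (x * y) = val x * val y := by
  change (x.a * y.a + x.b * y.b) - (x.a * y.b + x.b * y.a) = (x.a - x.b) * (y.a - y.b)
  ring

theorem val_natCast (n : ℕ) : val (n : Pr ℝ) = n := by
  change (n : ℝ) - 0 = n
  simp

theorem val_of (x : ℝ) : val (of x) = x := by
  change x - 0 = x
  simp

end Pr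

theorem map_Sh {R R' : Type} [CommSemiring R] [CommSemiring R'] (φ : R →+* R') (p q : R)
    (a b : ℕ) : φ (Sh p q a b) = Sh (φ p) (φ q) a b := by
  simp only [Sh, map_list_sum, List.map_map]
  congr 1
  apply List.map_congr_left
  intro u _
  simp

/-- The family `Sh`, as pairs. -/
def PSh {R : Type} [CommSemiring R] (p q : R) (a b : ℕ) : Pr R := Pr.of (Sh p q a b)

/-- The polynomials. -/
noncomputable def PP (a b : ℕ) : Pr ℕ[X][X] := PSh (Polynomial.C Polynomial.X) Polynomial.X a b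

theorem ev_X {R : Type} [CommSemiring R] (p q : R) : ev p q Polynomial.X = q := by
  simp [ev]

theorem ev_CX {R : Type} [CommSemiring R] (p q : R) :
    ev p q (Polynomial.C Polynomial.X) = p := by
  simp [ev]

theorem map_PP {R : Type} [CommSemiring R] (p q : R) (a b : ℕ) :
    Pr.map (ev p q) (PP a b) = PSh p q a b := by
  have h := map_Sh (R := ℕ[X][X]) (ev p q) (Polynomial.C Polynomial.X) Polynomial.X a b
  rw [PP, PSh, Pr.map_of, h, ev_X, ev_CX, PSh]

theorem val_PSh (p q : ℝ) (a b : ℕ) : Pr.val (PSh p q a b) = Sh p q a b := Pr.val_of _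

section Maps

variable {R R' : Type} [CommSemiring R] [CommSemiring R'] (φ : R →+* R') (S : ℕ → ℕ → Pr R)

/-- The image of a family of pairs. -/
def mp (a b : ℕ) : Pr R' := Pr.map φ (S a b)

theorem map_fk11 : Pr.map φ (fk11 S) = fk11 (mp φ S) := by
  simp only [fk11, mp, Pr.map_add, Pr.map_sub, Pr.map_mul, Pr.map_natCast]
theorem map_fk12 : Pr.map φ (fk12 S) = fk12 (mp φ S) := by
  simp only [fk12, mp, Pr.map_add, Pr.map_sub, Pr.map_mul, Pr.map_natCast]
theorem map_fk22 : Pr.map φ (fk22 S) = fk22 (mp φ S) := by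
  simp only [fk22, mp, Pr.map_add, Pr.map_sub, Pr.map_mul, Pr.map_natCast]
theorem map_fA00 : Pr.map φ (fA00 S) = fA00 (mp φ S) := by
  simp only [fA00, mp, Pr.map_add, Pr.map_sub, Pr.map_mul, Pr.map_natCast]
theorem map_fA01 : Pr.map φ (fA01 S) = fA01 (mp φ S) := by
  simp only [fA01, mp, Pr.map_add, Pr.map_sub, Pr.map_mul, Pr.map_natCast]
theorem map_fA02 : Pr.map φ (fA02 S) = fA02 (mp φ S) := by
  simp only [fA02, mp, Pr.map_add, Pr.map_sub, Pr.map_mul, Pr.map_natCast]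
theorem map_fDe : Pr.map φ (fDe S) = fDe (mp φ S) := by
  simp only [fDe, Pr.map_add, Pr.map_sub, Pr.map_mul, Pr.map_natCast, map_fA00, map_fA01,
    map_fA02]
  rfl
theorem map_fg (a b c d : ℕ) : Pr.map φ (fg S a b c d) = fg (mp φ S) a b c d := by
  simp only [fg, Pr.map_add, Pr.map_sub, Pr.map_mul, Pr.map_natCast, map_fA00, map_fA01,
    map_fA02, map_fDe, map_fk11, map_fk12, map_fk22]
  rfl
theorem map_fS3 : Pr.map φ (fS3 S) = fS3 (mp φ S) := by
  simp only [fS3, mp, Pr.map_add, Pr.map_sub, Pr.map_mul, Pr.map_natCast]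
theorem map_fL : Pr.map φ (fL S) = fL (mp φ S) := by
  simp only [fL, Pr.map_add, Pr.map_sub, Pr.map_mul, Pr.map_natCast, map_fDe]
  rfl
theorem map_fE : Pr.map φ (fE S) = fE (mp φ S) := by
  simp only [fE, Pr.map_add, Pr.map_sub, Pr.map_mul, Pr.map_natCast, map_fDe]
theorem map_fa : Pr.map φ (fa S) = fa (mp φ S) := by
  simp only [fa, Pr.map_add, Pr.map_sub, Pr.map_mul, Pr.map_natCast, map_fE, map_fk11, map_fS3,
    map_fg]
theorem map_fc : Pr.map φ (fc S) = fc (mp φ S) := by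
  simp only [fc, Pr.map_add, Pr.map_sub, Pr.map_mul, Pr.map_natCast, map_fE, map_fk22, map_fS3,
    map_fg]
theorem map_fb : Pr.map φ (fb S) = fb (mp φ S) := by
  simp only [fb, Pr.map_add, Pr.map_sub, Pr.map_mul, Pr.map_natCast, map_fE, map_fk11, map_fk22,
    map_fS3, map_fg, map_fL]
theorem map_fd : Pr.map φ (fd S) = fd (mp φ S) := by
  simp only [fd, Pr.map_add, Pr.map_sub, Pr.map_mul, Pr.map_natCast, map_fE, map_fk12,
    map_fS3, map_fg, map_fL]
theorem map_fe : Pr.map φ (fe S) = fe (mp φ S) := by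
  simp only [fe, Pr.map_add, Pr.map_sub, Pr.map_mul, Pr.map_natCast, map_fE, map_fk11, map_fk12,
    map_fS3, map_fg, map_fL]
theorem map_ff : Pr.map φ (ff S) = ff (mp φ S) := by
  simp only [ff, Pr.map_add, Pr.map_sub, Pr.map_mul, Pr.map_natCast, map_fE, map_fk22, map_fk12,
    map_fS3, map_fg, map_fL]
theorem map_fM2 : Pr.map φ (fM2 S) = fM2 (mp φ S) := by
  simp only [fM2, Pr.map_add, Pr.map_sub, Pr.map_mul, Pr.map_natCast, map_fa, map_fb, map_fc]
theorem map_fM3 : Pr.map φ (fM3 S) = fM3 (mp φ S) := by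
  simp only [fM3, Pr.map_add, Pr.map_sub, Pr.map_mul, Pr.map_natCast, map_fM2, map_fa, map_fb,
    map_fc, map_fd, map_fe, map_ff]

end Maps

section Vals

variable (S : ℕ → ℕ → Pr ℝ)

/-- The differences of a family of pairs. -/
def vl (a b : ℕ) : ℝ := Pr.val (S a b)

theorem val_fk11 : Pr.val (fk11 S) = fk11 (vl S) := by
  simp only [fk11, vl, Pr.val_add, Pr.val_sub, Pr.val_mul, Pr.val_natCast]
theorem val_fk12 : Pr.val (fk12 S) = fk12 (vl S) := by
  simp only [fk12, vl, Pr.val_add, Pr.val_sub, Pr.val_mul, Pr.val_natCast]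
theorem val_fk22 : Pr.val (fk22 S) = fk22 (vl S) := by
  simp only [fk22, vl, Pr.val_add, Pr.val_sub, Pr.val_mul, Pr.val_natCast]
theorem val_fA00 : Pr.val (fA00 S) = fA00 (vl S) := by
  simp only [fA00, vl, Pr.val_add, Pr.val_sub, Pr.val_mul, Pr.val_natCast]
theorem val_fA01 : Pr.val (fA01 S) = fA01 (vl S) := by
  simp only [fA01, vl, Pr.val_add, Pr.val_sub, Pr.val_mul, Pr.val_natCast]
theorem val_fA02 : Pr.val (fA02 S) = fA02 (vl S) := by
  simp only [fA02, vl, Pr.val_add, Pr.val_sub, Pr.val_mul, Pr.val_natCast]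
theorem val_fDe : Pr.val (fDe S) = fDe (vl S) := by
  simp only [fDe, Pr.val_add, Pr.val_sub, Pr.val_mul, Pr.val_natCast, val_fA00, val_fA01,
    val_fA02]
  rfl
theorem val_fg (a b c d : ℕ) : Pr.val (fg S a b c d) = fg (vl S) a b c d := by
  simp only [fg, Pr.val_add, Pr.val_sub, Pr.val_mul, Pr.val_natCast, val_fA00, val_fA01,
    val_fA02, val_fDe, val_fk11, val_fk12, val_fk22]
  rfl
theorem val_fS3 : Pr.val (fS3 S) = fS3 (vl S) := by
  simp only [fS3, vl, Pr.val_add, Pr.val_sub, Pr.val_mul, Pr.val_natCast]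
theorem val_fL : Pr.val (fL S) = fL (vl S) := by
  simp only [fL, Pr.val_add, Pr.val_sub, Pr.val_mul, Pr.val_natCast, val_fDe]
  rfl
theorem val_fE : Pr.val (fE S) = fE (vl S) := by
  simp only [fE, Pr.val_add, Pr.val_sub, Pr.val_mul, Pr.val_natCast, val_fDe]
theorem val_fa : Pr.val (fa S) = fa (vl S) := by
  simp only [fa, Pr.val_add, Pr.val_sub, Pr.val_mul, Pr.val_natCast, val_fE, val_fk11, val_fS3,
    val_fg]
theorem val_fc : Pr.val (fc S) = fc (vl S) := by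
  simp only [fc, Pr.val_add, Pr.val_sub, Pr.val_mul, Pr.val_natCast, val_fE, val_fk22, val_fS3,
    val_fg]
theorem val_fb : Pr.val (fb S) = fb (vl S) := by
  simp only [fb, Pr.val_add, Pr.val_sub, Pr.val_mul, Pr.val_natCast, val_fE, val_fk11, val_fk22,
    val_fS3, val_fg, val_fL]
theorem val_fd : Pr.val (fd S) = fd (vl S) := by
  simp only [fd, Pr.val_add, Pr.val_sub, Pr.val_mul, Pr.val_natCast, val_fE, val_fk12,
    val_fS3, val_fg, val_fL]
theorem val_fe : Pr.val (fe S) = fe (vl S) := by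
  simp only [fe, Pr.val_add, Pr.val_sub, Pr.val_mul, Pr.val_natCast, val_fE, val_fk11, val_fk12,
    val_fS3, val_fg, val_fL]
theorem val_ff : Pr.val (ff S) = ff (vl S) := by
  simp only [ff, Pr.val_add, Pr.val_sub, Pr.val_mul, Pr.val_natCast, val_fE, val_fk22, val_fk12,
    val_fS3, val_fg, val_fL]
theorem val_fM2 : Pr.val (fM2 S) = fM2 (vl S) := by
  simp only [fM2, Pr.val_add, Pr.val_sub, Pr.val_mul, Pr.val_natCast, val_fa, val_fb, val_fc]
theorem val_fM3 : Pr.val (fM3 S) = fM3 (vl S) := by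
  simp only [fM3, Pr.val_add, Pr.val_sub, Pr.val_mul, Pr.val_natCast, val_fM2, val_fa, val_fb,
    val_fc, val_fd, val_fe, val_ff]

end Vals

end Pool.Agent.R882
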