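import Pool.Agent.Y174.V6
import Pool.Agent.W619.PQ.Norm

/-!
The geometric generic fibre: traces.
-/

set_option autoImplicit false
set_option linter.overlappingInstances false
set_option linter.unusedSectionVars false

open IntermediateField Module

namespace Pool.Agent.R882.GL

/-- the field generated by algebraic elements which form a field is their span -/
theorem mem_span_of {R F A : Type} [Field R] [Field F] [Algebra R F] [Field A] (φ : A →+* F)
    (halg : ∀ a, IsAlgebraic R (φ a)) {z : F}
    (hz : z ∈ IntermediateField.adjoin R (Set.range φ)) : z ∈ Submodule.span R (Set.range φ) := by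
  have h1 : (IntermediateField.adjoin R (Set.range φ)).toSubalgebra =
      Algebra.adjoin R (Set.range φ) := by
    apply IntermediateField.adjoin_toSubalgebra_of_isAlgebraic
    rintro _ ⟨a, rfl⟩
    exact halg a
  have h2 : z ∈ Algebra.adjoin R (Set.range φ) := by
    rw [← h1]
    exact hz
  have h3 : z ∈ Subalgebra.toSubmodule (Algebra.adjoin R (Set.range φ)) := h2
  rw [Algebra.adjoin_eq_span] at h3
  have h4 : (Submonoid.closure (Set.range φ) : Set F) = Set.range φ := by
    have h5 : Set.range φ = ((MonoidHom.mrange (φ : A →* F)) : Set F) := by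
      ext y
      simp
    rw [h5, Submonoid.closure_eq]
  rw [h4] at h3
  exact h3

section

variable {B K Λ F : Type} [Field B] [Field K] [Field Λ] [Field F] [Algebra B K] [Algebra B Λ]
  [Algebra Λ F] [Algebra K F] [Algebra B F] [IsScalarTower B Λ F] [IsScalarTower B K F]
  [CharZero B] [Algebra.IsAlgebraic B Λ]

/-- independence over `K` of the elements of `Λ` -/
theorem lin_disj' (hcl : ∀ x : K, IsIntegral B x → ∃ y : B, algebraMap B K y = x) {ι : Type}
    {u : ι → Λ} (hu : LinearIndependent B u) :
    LinearIndependent K fun l => algebraMap Λ F (u l) := by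
  classical
  rw [linearIndependent_iff']
  intro s c hc l hl
  let M : Submodule B K := Submodule.span B (Set.range fun l : s => c l)
  have hMfin : Module.Finite B M := Module.Finite.span_of_finite B (Set.finite_range _)
  let f := Module.finBasis B M
  have hf : LinearIndependent B fun i => ((f i : M) : K) :=
    f.linearIndependent.map' M.subtype (Submodule.ker_subtype M)
  have hfΛ := Pool.Agent.Y174.lin_disj (Λ := Λ) (F := F) hcl hf
  have hcM : ∀ l (hl : l ∈ s), c l ∈ M := fun l hl => Submodule.subset_span ⟨⟨l, hl⟩, rfl⟩
  obtain ⟨β, hβ⟩ : ∃ β : ι → Fin (Module.finrank B M) → B, ∀ l ∈ s,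
      c l = ∑ i, β l i • ((f i : M) : K) := by
    refine ⟨fun l i => if hl : l ∈ s then f.repr ⟨c l, hcM l hl⟩ i else 0, fun l hl => ?_⟩
    simp only [hl, dif_pos]
    have h1 := congrArg (M.subtype) (f.sum_repr ⟨c l, hcM l hl⟩)
    rw [map_sum] at h1
    simp only [map_smul, Submodule.subtype_apply] at h1
    exact h1.symm
  have h1 : ∀ i, ∑ l ∈ s, β l i • u l = 0 := by
    have h2 : ∑ i, (∑ l ∈ s, β l i • u l) • algebraMap K F ((f i : M) : K) = 0 := by
      rw [← hc]
      have h3 : ∀ l ∈ s, c l • algebraMap Λ F (u l) =
          ∑ i, (β l i • u l) • algebraMap K F ((f i : M) : K) := by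
        intro l hl
        conv_lhs => rw [hβ l hl, Algebra.smul_def, map_sum, Finset.sum_mul]
        refine Finset.sum_congr rfl fun i _ => ?_
        rw [Algebra.smul_def (R := Λ), Algebra.smul_def (R := B) (A := Λ),
          Algebra.smul_def (R := B) (A := K), map_mul, map_mul,
          ← IsScalarTower.algebraMap_apply, ← IsScalarTower.algebraMap_apply]
        ring
      rw [Finset.sum_congr rfl h3, Finset.sum_comm]
      refine Finset.sum_congr rfl fun i _ => ?_
      rw [Finset.sum_smul]
    intro i
    exact (Fintype.linearIndependent_iff.1 hfΛ _ h2) i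
  have h2 : ∀ i, β l i = 0 := fun i =>
    (linearIndependent_iff'.1 hu) s (fun l => β l i) (h1 i) l hl
  rw [hβ l hl]
  exact Finset.sum_eq_zero fun i _ => by rw [h2 i, zero_smul]

/-- **Independence over the constant field extension of an intermediate field.** -/
theorem lin_mid (hcl : ∀ x : K, IsIntegral B x → ∃ y : B, algebraMap B K y = x)
    (E : IntermediateField B K) (FE : IntermediateField Λ F)
    (hFE : FE = IntermediateField.adjoin Λ (algebraMap K F '' E)) {m : ℕ} {b : Fin m → K}
    (hb : LinearIndependent E b) : LinearIndependent FE fun i => algebraMap K F (b i) := by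
  classical
  rw [Fintype.linearIndependent_iff]
  intro c hc
  let bΛ := Module.Basis.ofVectorSpace B Λ
  have hΛK := lin_disj' (K := K) (F := F) hcl bΛ.linearIndependent
  -- the coefficients
  have hmem : ∀ z ∈ FE, z ∈ Submodule.span E (Set.range fun l => algebraMap Λ F (bΛ l)) := by
    intro z hz
    have h1 : z ∈ IntermediateField.adjoin E (Set.range (algebraMap Λ F)) := by
      let A : IntermediateField Λ F :=
        { (IntermediateField.adjoin E (Set.range (algebraMap Λ F))).toSubfield with
          algebraMap_mem' := fun c => IntermediateField.subset_adjoin E _ ⟨c, rfl⟩ }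
      have h2 : FE ≤ A := by
        rw [hFE, IntermediateField.adjoin_le_iff]
        rintro _ ⟨e, he, rfl⟩
        exact (IntermediateField.adjoin E (Set.range (algebraMap Λ F))).algebraMap_mem ⟨e, he⟩
      exact h2 hz
    have h2 := mem_span_of (R := E) (algebraMap Λ F) (fun a => by
      have h3 : IsAlgebraic B a := Algebra.IsAlgebraic.isAlgebraic a
      have h4 : IsAlgebraic B (algebraMap Λ F a) := h3.algebraMap
      exact h4.tower_top E) h1
    refine Submodule.span_le.2 ?_ h2
    rintro _ ⟨a, rfl⟩
    have h3 : algebraMap Λ F a = ∑ l ∈ (bΛ.repr a).support,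
        algebraMap B E (bΛ.repr a l) • algebraMap Λ F (bΛ l) := by
      conv_lhs => rw [← bΛ.linearCombination_repr a, Finsupp.linearCombination_apply,
        Finsupp.sum, map_sum]
      refine Finset.sum_congr rfl fun l _ => ?_
      rw [Algebra.smul_def (R := B), map_mul, ← IsScalarTower.algebraMap_apply,
        Algebra.smul_def (R := E), ← IsScalarTower.algebraMap_apply]
    rw [h3]
    exact Submodule.sum_mem _ fun l _ => Submodule.smul_mem _ _ (Submodule.subset_span ⟨l, rfl⟩)
  have hc' : ∀ i, ∃ e : _ →₀ E, (e.sum fun l a => a • algebraMap Λ F (bΛ l)) = (c i : F) := by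
    intro i
    have h1 := hmem (c i) (c i).2
    rw [Finsupp.mem_span_range_iff_exists_finsupp] at h1
    exact h1
  choose e he using hc'
  let s := Finset.univ.biUnion fun i => (e i).support
  have he' : ∀ i, (c i : F) = ∑ l ∈ s, e i l • algebraMap Λ F (bΛ l) := by
    intro i
    rw [← he i, Finsupp.sum]
    refine Finset.sum_subset (Finset.subset_biUnion_of_mem (fun i => (e i).support)
      (Finset.mem_univ i)) fun l _ hl => ?_
    rw [Finsupp.notMem_support_iff.1 hl, zero_smul]
  have h1 : ∑ l ∈ s, (∑ i, ((e i l : E) : K) * b i) • algebraMap Λ F (bΛ l) = 0 := by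
    have h2 : ∑ i, (c i : F) * algebraMap K F (b i) = 0 := hc
    rw [← h2]
    have h3 : ∀ i, (c i : F) * algebraMap K F (b i) =
        ∑ l ∈ s, (((e i l : E) : K) * b i) • algebraMap Λ F (bΛ l) := by
      intro i
      rw [he' i, Finset.sum_mul]
      refine Finset.sum_congr rfl fun l _ => ?_
      rw [Algebra.smul_def (R := K), map_mul, Algebra.smul_def (R := E)]
      change algebraMap K F ((e i l : E) : K) * _ * _ = _
      ring
    rw [Finset.sum_congr rfl fun i _ => h3 i, Finset.sum_comm]
    refine Finset.sum_congr rfl fun l _ => ?_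
    rw [Finset.sum_smul]
  have h2 : ∀ l ∈ s, ∑ i, ((e i l : E) : K) * b i = 0 :=
    (linearIndependent_iff'.1 hΛK) s _ h1
  have h3 : ∀ l ∈ s, ∀ i, e i l = 0 := by
    intro l hl
    refine (Fintype.linearIndependent_iff.1 hb) (fun i => e i l) ?_
    have h4 := h2 l hl
    exact h4
  intro i
  apply Subtype.ext
  rw [he' i]
  exact Finset.sum_eq_zero fun l hl => by rw [h3 l hl i, zero_smul]

/-- **Traces and the geometric generic fibre.** -/
theorem trace_fib (hcl : ∀ x : K, IsIntegral B x → ∃ y : B, algebraMap B K y = x)
    (hgenF : IntermediateField.adjoin Λ (Set.range (algebraMap K F)) = ⊤)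
    (E : IntermediateField B K) [FiniteDimensional E K] (FE : IntermediateField Λ F)
    (hFE : FE = IntermediateField.adjoin Λ (algebraMap K F '' E)) :
    FiniteDimensional FE F ∧ ∀ z : K, ((Algebra.trace FE F (algebraMap K F z) : FE) : F) =
      algebraMap K F ((Algebra.trace E K z : E) : K) := by
  classical
  let b := Module.finBasis E K
  have hind := lin_mid (F := F) hcl E FE hFE b.linearIndependent
  have hEF : ∀ e : E, algebraMap K F (e : K) ∈ FE := by
    intro e
    rw [hFE]
    exact IntermediateField.subset_adjoin _ _ ⟨e, e.2, rfl⟩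
  have hexp : ∀ z : K, algebraMap K F z = ∑ i, (⟨algebraMap K F (b.repr z i : E), hEF _⟩ : FE) •
      algebraMap K F (b i) := by
    intro z
    conv_lhs => rw [← b.sum_repr z, map_sum]
    refine Finset.sum_congr rfl fun i _ => ?_
    change algebraMap K F (((b.repr z i : E) : K) * b i) = _
    rw [map_mul]
    rfl
  have hspan : ⊤ ≤ Submodule.span FE (Set.range fun i => algebraMap K F (b i)) := by
    intro z _
    have h1 : z ∈ IntermediateField.adjoin FE (Set.range (algebraMap K F)) := by
      let A : IntermediateField Λ F :=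
        (IntermediateField.adjoin FE (Set.range (algebraMap K F))).restrictScalars Λ
      have h2 : (⊤ : IntermediateField Λ F) ≤ A := by
        rw [← hgenF, IntermediateField.adjoin_le_iff]
        exact IntermediateField.subset_adjoin FE _
      exact h2 trivial
    have h2 := mem_span_of (R := FE) (algebraMap K F) (fun a => by
      obtain ⟨p, hp0, hp⟩ := Algebra.IsAlgebraic.isAlgebraic (R := E) a
      let φ : E →+* FE := ((algebraMap K F).comp (algebraMap E K)).codRestrict FE.toSubring
        fun e => hEF e
      refine ⟨p.map φ, (Polynomial.map_ne_zero_iff φ.injective).2 hp0, ?_⟩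
      rw [Polynomial.aeval_def, Polynomial.eval₂_map]
      have h3 : (algebraMap FE F).comp φ = (algebraMap K F).comp (algebraMap E K) := by
        ext e
        rfl
      rw [h3, ← Polynomial.hom_eval₂, ← Polynomial.aeval_def, hp, map_zero]) h1
    refine Submodule.span_le.2 ?_ h2
    rintro _ ⟨a, rfl⟩
    rw [hexp a]
    exact Submodule.sum_mem _ fun i _ => Submodule.smul_mem _ _ (Submodule.subset_span ⟨i, rfl⟩)
  let b' := Module.Basis.mk hind hspan
  have hb' : ∀ i, b' i = algebraMap K F (b i) := fun i => Module.Basis.mk_apply hind hspan i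
  refine ⟨Module.Finite.of_basis b', fun z => ?_⟩
  rw [Algebra.trace_eq_matrix_trace b', Algebra.trace_eq_matrix_trace b, Matrix.trace,
    Matrix.trace]
  have h1 : ∀ i, ((Algebra.leftMulMatrix b' (algebraMap K F z) i i : FE) : F) =
      algebraMap K F ((Algebra.leftMulMatrix b z i i : E) : K) := by
    intro i
    rw [Algebra.leftMulMatrix_eq_repr_mul, Algebra.leftMulMatrix_eq_repr_mul, hb', ← map_mul]
    have h2 : b'.repr (algebraMap K F (z * b i)) i =
        (⟨algebraMap K F (b.repr (z * b i) i : E), hEF _⟩ : FE) := by
      conv_lhs => rw [hexp (z * b i)]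
      have h3 : ∑ i_1, (⟨algebraMap K F (b.repr (z * b i) i_1 : E), hEF _⟩ : FE) •
          algebraMap K F (b i_1) = ∑ i_1, (⟨algebraMap K F (b.repr (z * b i) i_1 : E),
            hEF _⟩ : FE) • b' i_1 := Finset.sum_congr rfl fun j _ => by rw [hb']
      rw [h3, Module.Basis.repr_sum_self]
    rw [h2]
  calc ((∑ i, (Algebra.leftMulMatrix b' (algebraMap K F z)).diag i : FE) : F)
      = ∑ i, ((Algebra.leftMulMatrix b' (algebraMap K F z) i i : FE) : F) := by
        rw [AddSubmonoidClass.coe_finsetSum]
        rfl
    _ = ∑ i, algebraMap K F ((Algebra.leftMulMatrix b z i i : E) : K) :=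
        Finset.sum_congr rfl fun i _ => h1 i
    _ = _ := by
        rw [← map_sum]
        congr 1
        rw [AddSubmonoidClass.coe_finsetSum]
        rfl

end

end Pool.Agent.R882.GL
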