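import Pool.Agent.R882.GLa
import Pool.Agent.R885.Noe
import Pool.Agent.TH466.QG.Low
import Pool.Agent.Y172.Cov1

/-!
Fibrations with rational geometric generic fibre are uniruled; regular differentials with nonzero
traces on the geometric generic fibre.
-/

set_option autoImplicit false
set_option linter.overlappingInstances false
set_option linter.unusedSectionVars false

open IntermediateField Module FF Pool.Agent.W619.PQ Pool.Agent.W603.LV

namespace Pool.Agent.R882.GL

/-- **Rational geometric generic fibres.** -/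
theorem uniruled_geo {n m : ℕ} {E Λ F : Type} [Field E] [Field Λ] [Field F] [Algebra ℂ E]
    [Algebra ℂ Λ] [Algebra ℂ F] [Algebra Λ F] [IsScalarTower ℂ Λ F] [Algebra.EssFiniteType ℂ E]
    (hE : Algebra.trdeg ℂ E = n) (hΛ : Algebra.trdeg ℂ Λ = m) (hmn : n = m + 1) (ψ : E →ₐ[ℂ] F)
    (s : F) (hs : Transcendental Λ s) (h : ∀ e, ψ e ∈ IntermediateField.adjoin Λ {s}) :
    IsUniruled ℂ E n := by
  classical
  obtain ⟨S, hS⟩ := IntermediateField.fg_top ℂ E
  have h1 : ∀ e : E, ∃ p q : Polynomial Λ,
      ψ e = Polynomial.aeval s p / Polynomial.aeval s q := fun e =>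
    IntermediateField.mem_adjoin_simple_iff Λ (ψ e) |>.1 (h e)
  choose p q hpq using h1
  let T : Set Λ := ⋃ e ∈ S, (((p e).coeffs : Set Λ) ∪ ((q e).coeffs : Set Λ))
  have hTfin : T.Finite := by
    refine Set.Finite.biUnion S.finite_toSet fun e _ => ?_
    exact (Finset.finite_toSet _).union (Finset.finite_toSet _)
  let M : IntermediateField ℂ Λ := IntermediateField.adjoin ℂ T
  have hess : Algebra.EssFiniteType ℂ M :=
    IntermediateField.essFiniteType_iff.2 (IntermediateField.fg_adjoin_of_finite hTfin)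
  have hcoef : ∀ e ∈ S, ∀ i, (p e).coeff i ∈ M ∧ (q e).coeff i ∈ M := by
    intro e he i
    have h2 : ∀ f : Polynomial Λ, (f.coeffs : Set Λ) ⊆ T → f.coeff i ∈ M := by
      intro f hf
      by_cases h0 : f.coeff i = 0
      · rw [h0]
        exact zero_mem _
      · refine IntermediateField.subset_adjoin _ _ (hf ?_)
        exact Polynomial.coeff_mem_coeffs h0
    exact ⟨h2 _ (Set.subset_biUnion_of_mem (u := fun e => (((p e).coeffs : Set Λ) ∪
        ((q e).coeffs : Set Λ))) he |>.trans' Set.subset_union_left),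
      h2 _ (Set.subset_biUnion_of_mem (u := fun e => (((p e).coeffs : Set Λ) ∪
        ((q e).coeffs : Set Λ))) he |>.trans' Set.subset_union_right)⟩
  have hT1 : IsScalarTower ℂ M F := IsScalarTower.of_algebraMap_eq fun c => by
    rw [IsScalarTower.algebraMap_apply ℂ Λ F]
    rfl
  let R : IntermediateField M F := IntermediateField.adjoin M {s}
  have hRpoly : ∀ f : Polynomial Λ, (∀ i, f.coeff i ∈ M) → Polynomial.aeval s f ∈ R := by
    intro f hf
    rw [Polynomial.aeval_eq_sum_range]
    refine sum_mem fun i _ => ?_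
    rw [Algebra.smul_def]
    refine mul_mem ?_ (pow_mem (IntermediateField.mem_adjoin_simple_self M s) i)
    exact R.algebraMap_mem ⟨f.coeff i, hf i⟩
  have hmem : ∀ e, ψ e ∈ R.restrictScalars ℂ := by
    have h2 : (⊤ : IntermediateField ℂ E) ≤ (R.restrictScalars ℂ).comap ψ := by
      rw [← hS, IntermediateField.adjoin_le_iff]
      intro e he
      change ψ e ∈ R
      rw [hpq e]
      exact div_mem (hRpoly _ fun i => (hcoef e he i).1) (hRpoly _ fun i => (hcoef e he i).2)
    exact fun e => h2 trivial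
  have hsM : Transcendental M s := by
    intro h2
    exact hs (IsAlgebraic.tower_top Λ h2)
  let e1 : RatFunc M ≃ₐ[M] R := RatFunc.algEquivOfTranscendental s hsM
  let ψ' : E →ₐ[ℂ] R :=
    { toFun := fun e => ⟨ψ e, hmem e⟩
      map_one' := Subtype.ext (map_one _)
      map_mul' := fun a b => Subtype.ext (map_mul _ _ _)
      map_zero' := Subtype.ext (map_zero _)
      map_add' := fun a b => Subtype.ext (map_add _ _ _)
      commutes' := fun c => Subtype.ext (by
        change ψ (algebraMap ℂ E c) = _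
        rw [ψ.commutes]
        rfl) }
  let φ : E →ₐ[ℂ] RatFunc M := (e1.symm.restrictScalars ℂ : R →ₐ[ℂ] RatFunc M).comp ψ'
  refine ⟨M, inferInstance, inferInstance, hess, ?_, ⟨φ⟩⟩
  -- the transcendence degree of `M`
  have hMle : Algebra.trdeg ℂ M ≤ (m : ℕ) := by
    rw [← hΛ]
    exact trdeg_le_of_injective M.val (Subtype.val_injective)
  obtain ⟨m', hm'⟩ : ∃ m' : ℕ, Algebra.trdeg ℂ M = m' :=
    Cardinal.lt_aleph0.1 (hMle.trans_lt Cardinal.natCast_lt_aleph0)
  have h3 : Algebra.trdeg ℂ (RatFunc M) = (m' + 1 : ℕ) := Pool.Agent.R885.trdeg_ratFunc hm'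
  have h4 : Algebra.trdeg ℂ E ≤ Algebra.trdeg ℂ (RatFunc M) :=
    trdeg_le_of_injective φ φ.toRingHom.injective
  rw [hE, h3] at h4
  rw [hm'] at hMle ⊢
  have h5 : n ≤ m' + 1 := by exact_mod_cast h4
  have h6 : m' ≤ m := by exact_mod_cast hMle
  have h7 : m' + 1 = n := by omega
  rw [← h7]
  push_cast
  rfl

section

variable {B K Λ F : Type} [Field B] [Field K] [Field Λ] [Field F] [Algebra B K] [Algebra B Λ]
  [Algebra Λ F] [Algebra K F] [Algebra B F] [IsScalarTower B Λ F] [IsScalarTower B K F]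
  [CharZero B] [Algebra.IsAlgebraic B Λ] [IsAlgClosed Λ]

/-- **The dichotomy on the geometric generic fibre.** If the restrictions of the `g j` generate the
regular differentials of the geometric generic fibre and have trace zero on `E` then the geometric
generic fibre of `E` is rational. -/
theorem dich_fib (hF : IsFF Λ F)
    (hcl : ∀ x : K, IsIntegral B x → ∃ y : B, algebraMap B K y = x)
    (hgenF : IntermediateField.adjoin Λ (Set.range (algebraMap K F)) = ⊤)
    (E : IntermediateField B K) [FiniteDimensional E K] (FE : IntermediateField Λ F)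
    (hFE : FE = IntermediateField.adjoin Λ (algebraMap K F '' E)) {ξ : K} (hξE : ξ ∈ E)
    (hξ : Transcendental Λ (algebraMap K F ξ)) {D : Derivation Λ F F}
    (hD : D (algebraMap K F ξ) = 1) {J : Type} [Finite J] (g : J → K)
    (hspan : ∀ f : F, f ≠ 0 → (∀ Q : Place Λ F, vo Q D ≤ Q.ord f) →
      f ∈ Submodule.span Λ (Set.range fun j => algebraMap K F (g j)))
    (htr : ∀ j, Algebra.trace E K (g j) = 0) : ∃ s : FE, IntermediateField.adjoin Λ {s} = ⊤ := by
  classical
  have hΛ0 : CharZero Λ := charZero_of_injective_algebraMap (algebraMap B Λ).injective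
  obtain ⟨hfin, htrace⟩ := trace_fib (F := F) hcl hgenF E FE hFE
  have hess : Algebra.EssFiniteType Λ F := hF.ess
  have hessE : Algebra.EssFiniteType Λ FE := Pool.Agent.TH466.QG.ess_below (K := F)
  have htrE : Algebra.trdeg Λ FE = 1 := by
    have h1 := trdeg_add_eq Λ FE (A := F)
    have h2 : Algebra.trdeg FE F = 0 := trdeg_eq_zero
    rw [h2, add_zero, hF.trdeg] at h1
    exact h1
  have hFFE : IsFF Λ FE := ⟨hessE, htrE⟩
  by_contra hrat
  have hξF : algebraMap K F ξ ∈ FE := by
    rw [hFE]
    exact IntermediateField.subset_adjoin _ _ ⟨ξ, hξE, rfl⟩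
  have hξ' : Transcendental Λ (⟨algebraMap K F ξ, hξF⟩ : FE) := by
    intro h
    apply hξ
    exact (isAlgebraic_algebraMap_iff (algebraMap FE F).injective).2 h
  have hd0 := der_ne (k := Λ) (K := FE)
  have hd1 := der_ne_zero hd0 hξ'
  obtain ⟨DE, hDE⟩ : ∃ DE : Derivation Λ FE FE,
      DE = (der Λ FE ⟨algebraMap K F ξ, hξF⟩)⁻¹ • der Λ FE := ⟨_, rfl⟩
  have hDE1 : DE ⟨algebraMap K F ξ, hξF⟩ = 1 := by
    rw [hDE, Derivation.smul_apply, smul_eq_mul, inv_mul_cancel₀ hd1]
  have hDE0 : DE ≠ 0 := by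
    intro h
    rw [h] at hDE1
    exact zero_ne_one hDE1
  have hD0 : D ≠ 0 := by
    intro h
    rw [h] at hD
    exact zero_ne_one hD
  obtain ⟨D2, hD2, hext2⟩ := exists_ext (E := F) DE hDE0
  have hDD : ∀ z : F, D2 z = D z := by
    refine der_ext hξ ?_
    have h1 := hext2 ⟨algebraMap K F ξ, hξF⟩
    rw [hDE1, map_one] at h1
    rw [hD]
    exact h1
  have hext : ∀ z : FE, D (algebraMap FE F z) = algebraMap FE F (DE z) := fun z => by
    rw [← hDD, hext2]
  obtain ⟨f, hf0, hf⟩ := exists_regular (k := Λ) (F := FE) hrat hDE0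
  have hf0' : algebraMap FE F f ≠ 0 := (_root_.map_ne_zero _).2 hf0
  have hfreg : ∀ Q : Place Λ F, vo Q D ≤ Q.ord (algebraMap FE F f) := by
    intro Q
    obtain ⟨q, e, hq⟩ := Pool.Agent.Y172.exists_below (K := FE) Q
    have h1 := vo_over hq hDE0 hD0 hext
    have h2 := hf q
    have h3 : Q.ord (algebraMap FE F f) = e * q.ord f := hq.2 f
    have h4 : (1 : ℤ) ≤ e := by exact_mod_cast hq.1
    rw [h1, h3]
    have h5 := mul_le_mul_of_nonneg_left h2 (by omega : (0 : ℤ) ≤ e)
    linarith
  have hmem := hspan _ hf0' hfreg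
  have hsub : Submodule.span Λ (Set.range fun j => algebraMap K F (g j)) ≤
      LinearMap.ker ((Algebra.trace FE F).restrictScalars Λ) := by
    rw [Submodule.span_le]
    rintro _ ⟨j, rfl⟩
    change Algebra.trace FE F (algebraMap K F (g j)) = 0
    apply Subtype.ext
    rw [htrace, htr j]
    simp
  have h1 : Algebra.trace FE F (algebraMap FE F f) = 0 := hsub hmem
  rw [Algebra.trace_algebraMap, nsmul_eq_mul] at h1
  rcases mul_eq_zero.1 h1 with h2 | h2
  · have h3 : 0 < Module.finrank FE F := Module.finrank_pos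
    have h4 : (Module.finrank FE F : FE) ≠ 0 := by exact_mod_cast h3.ne'
    exact h4 h2
  · exact hf0 h2

end

end Pool.Agent.R882.GL
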