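import Pool.Agent.R882.TImg

/-!
Images: Kodaira dimension and geometric genus from sections with nonzero trace.
-/

set_option autoImplicit false
set_option linter.unusedSectionVars false
set_option linter.overlappingInstances false

open FF Module Pool.Agent.W602.GT Pool.Agent.W603.LV Pool.Agent.W619.PQ
open Pool.Agent.Y184.NT Pool.Agent.W619.TW

namespace Pool.Agent.R882.LT

section

variable {K : Type} [Field K] [Algebra ℂ K] {n N M d : ℕ}

/-- The canonical form `ω` on `V` has a trace on the variety with the function field `F` which is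
not zero. The value of the trace of `ω` on vector fields `D i` of `F` is the trace of the value of `ω`
on the extensions `D' i` of the `D i` to `K`. -/
def TraceNe (ω : (Fin n → Derivation ℂ K K) → K) (F : IntermediateField ℂ K) : Prop :=
  ∃ (D : Fin n → Derivation ℂ F F) (D' : Fin n → Derivation ℂ K K),
    (∀ i f, D' i (algebraMap F K f) = algebraMap F K (D i f)) ∧
    Algebra.trace F K (ω D') ≠ 0

/-- `ω` is a section of `K_V - M H`, where `H` is the pullback of the hyperplane class under the map
given by `1, t_1, ..., t_N`. -/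
def IsTwisted (n M : ℕ) (t : Fin N → K) (ω : (Fin n → Derivation ℂ K K) → K) : Prop :=
  IsPluri 1 ω ∧ ∀ a : Fin N → ℕ, ∑ j, a j ≤ M → ∀ P : Place ℂ K, Divisorial n P →
    RegAt P (fun D => (∏ j, t j ^ a j) * ω D)

theorem prod_cons (t : Fin N → K) (g : Fin M → Fin (N + 1)) :
    ∏ k, (Fin.cons 1 t : Fin (N + 1) → K) (g k) =
      ∏ j, t j ^ (Finset.univ.filter fun k => g k = j.succ).card := by
  classical
  rw [← Finset.prod_fiberwise Finset.univ g, Fin.prod_univ_succ]
  have h1 : ∏ i with g i = 0, (Fin.cons 1 t : Fin (N + 1) → K) (g i) = 1 := by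
    refine Finset.prod_eq_one fun k hk => ?_
    rw [(Finset.mem_filter.1 hk).2, Fin.cons_zero]
  rw [h1, one_mul]
  refine Finset.prod_congr rfl fun j _ => ?_
  rw [Finset.prod_congr rfl fun k hk => by rw [(Finset.mem_filter.1 hk).2, Fin.cons_succ],
    Finset.prod_const]

theorem IsTwisted.reg {t : Fin N → K} {ω : (Fin n → Derivation ℂ K K) → K}
    (h : IsTwisted n M t ω) (g : Fin M → Fin (N + 1)) (P : Place ℂ K) (hP : Divisorial n P) :
    RegAt P (fun D => (∏ k, (Fin.cons 1 t : Fin (N + 1) → K) (g k)) * ω D) := by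
  classical
  rw [prod_cons]
  refine h.2 _ ?_ P hP
  have h1 : ∑ j : Fin (N + 1), (Finset.univ.filter fun k => g k = j).card = M := by
    rw [Finset.sum_card_fiberwise_eq_card_filter]
    simp
  rw [Fin.sum_univ_succ] at h1
  omega

theorem secAt_of {P : Place ℂ K} {ω : (Fin n → Derivation ℂ K K) → K} (h : RegAt P ω) :
    SecAt (fun _ => False) P ω :=
  ⟨fun D hD => h D fun i => Pool.Agent.TH466.QG.derReg_of_log (hD i), fun _ => h⟩

/-- **The core.** -/
theorem core_img [Algebra.EssFiniteType ℂ K] (htr : Algebra.trdeg ℂ K = n) {t : Fin N → K}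
    (hd : Algebra.trdeg ℂ (IntermediateField.adjoin ℂ (Set.range t)) = d)
    {L : Type} [Field L] [Algebra ℂ L] [Algebra L K] [IsScalarTower ℂ L K]
    [FiniteDimensional L K] {F : IntermediateField ℂ K}
    (hF : F = (IntermediateField.adjoin L (Set.range t)).restrictScalars ℂ)
    {ω : (Fin n → Derivation ℂ K K) → K} (hω : IsTwisted n M t ω) (htn : TraceNe ω F) :
    (Module.finrank L (IntermediateField.adjoin L (Set.range t)) ≤ M + 1 →
      ∃ η : (Fin n → Derivation ℂ L L) → L, IsPluri 1 η ∧
        (∀ P : Place ℂ L, Divisorial n P → RegAt P η) ∧ ∃ D, η D ≠ 0) ∧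
    (2 * Module.finrank L (IntermediateField.adjoin L (Set.range t)) ≤ M + 1 →
      Pool.Agent.W619.Y.KodTrB ℂ L n (fun _ => False) d) := by
  classical
  have hessL : Algebra.EssFiniteType ℂ L := Pool.Agent.TH466.QG.ess_below (K := K)
  have hL : Algebra.trdeg ℂ L = n := Pool.Agent.Y184.NT.trdeg_below (K := K) htr
  obtain ⟨z, E, hz, hE⟩ := Pool.Agent.Y172.exists_crd (k := ℂ) (K := L) hL
  choose E' hE' using fun i => Pool.Agent.Y172.exists_lift (k := ℂ) (K := L) (L := K) hL (E i)
  have hzK : IsTranscendenceBasis ℂ (fun j => algebraMap L K (z j)) := hz.algebraMap_comp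
  have hE'd := Pool.Agent.Y172.lift_dual hE hE'
  obtain ⟨x, hx⟩ : ∃ x : Fin (N + 1) → K, x = Fin.cons 1 t := ⟨_, rfl⟩
  have hx0 : x 0 = 1 := by rw [hx, Fin.cons_zero]
  have hrange : Set.range x = insert 1 (Set.range t) := by
    rw [hx, Fin.range_cons]
  have hadj : IntermediateField.adjoin L (Set.range x) =
      IntermediateField.adjoin L (Set.range t) := by
    rw [hrange]
    apply le_antisymm
    · rw [IntermediateField.adjoin_le_iff]
      rintro y (rfl | hy)
      · exact one_mem _
      · exact IntermediateField.subset_adjoin _ _ hy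
    · exact IntermediateField.adjoin.mono _ _ _ (Set.subset_insert _ _)
  have hadjC : IntermediateField.adjoin ℂ (Set.range x) =
      IntermediateField.adjoin ℂ (Set.range t) := by
    rw [hrange]
    apply le_antisymm
    · rw [IntermediateField.adjoin_le_iff]
      rintro y (rfl | hy)
      · exact one_mem _
      · exact IntermediateField.subset_adjoin _ _ hy
    · exact IntermediateField.adjoin.mono _ _ _ (Set.subset_insert _ _)
  rw [← hadj] at hF ⊢
  rw [← hadjC] at hd
  have hLF : ∀ f : L, algebraMap L K f ∈ F := by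
    intro f
    rw [hF]
    exact (IntermediateField.adjoin L (Set.range x)).algebraMap_mem f
  have hne : Algebra.trace (IntermediateField.adjoin L (Set.range x)) K (ω E') ≠ 0 := by
    obtain ⟨D, D', hD, htr'⟩ := htn
    intro h0
    apply htr'
    have h1 : Algebra.trace F K (ω E') = 0 := by
      subst hF
      have h2 : ((Algebra.trace (IntermediateField.adjoin L (Set.range x)) K (ω E') :
          IntermediateField.adjoin L (Set.range x)) : K) = 0 := by
        rw [h0]
        rfl
      apply Subtype.ext
      exact h2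
    obtain ⟨δ, hδ⟩ : ∃ δ : F, δ = (Matrix.of fun i j => D i ⟨algebraMap L K (z j), hLF _⟩ :
      Matrix (Fin n) (Fin n) F).det := ⟨_, rfl⟩
    have h2 : ω D' = δ • ω E' := by
      rw [Pool.Agent.Y172.pluri_coord hzK hE'd hω.1 D', pow_one, Algebra.smul_def, hδ,
        RingHom.map_det]
      congr 1
      congr 1
      ext i j
      rw [RingHom.mapMatrix_apply, Matrix.map_apply, Matrix.of_apply, Matrix.of_apply]
      exact hD i ⟨algebraMap L K (z j), hLF _⟩
    rw [h2, map_smul, h1, smul_zero]
  have hreg : ∀ (g : Fin M → Fin (N + 1)) (P : Place ℂ K), Divisorial n P →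
      SecAt (fun _ => False) P (fun D => (∏ k, x (g k)) * ω D) := by
    intro g P hP
    rw [hx]
    exact secAt_of (hω.reg g P hP)
  refine ⟨fun hdeg => ?_, fun hdeg => ?_⟩
  · by_contra hcon
    push Not at hcon
    refine hne (trace_zero (BK := fun _ => False) (BL := fun _ => False) hL
      (fun _ _ _ _ h => h) (fun η hη hηr D => ?_) hx0 hω.1 hreg hz hE hE' hdeg)
    exact hcon η hη (fun P hP => (hηr P hP).2 fun h => h) D
  · exact kod_of (BK := fun _ => False) (BL := fun _ => False) hL (fun _ _ _ _ h => h) hx0 hω.1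
      hreg hd hz hE hE' hdeg hne

end

end Pool.Agent.R882.LT
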