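import Pool.Agent.R882.GLb
import Pool.Agent.R882.TCore
import Pool.Agent.Y174.W4
import Pool.Agent.R885.FinAc

/-!
The dichotomy for images of fibrations by curves.
-/

set_option autoImplicit false
set_option linter.overlappingInstances false
set_option linter.unusedSectionVars false
set_option maxHeartbeats 4000000
set_option synthInstance.maxHeartbeats 400000

open IntermediateField Module FF Pool.Agent.W619.PQ Pool.Agent.W603.LV
open Pool.Agent.W602.GT (Divisorial RegAt IsPluri)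

namespace Pool.Agent.R882.GL

open Pool.Agent.R882.LT (TraceNe)

variable {K : Type} [Field K] [Algebra ℂ K] {n : ℕ}

/-- The restrictions of the forms `ω j` generate the regular differentials of the geometric generic
fibre `F` over `Λ`. -/
def SpanFib {J : Type} (B : IntermediateField ℂ K)
    (ω : J → (Fin (n + 1) → Derivation ℂ K K) → K) : Prop :=
  ∀ (Λ F : Type) [Field Λ] [IsAlgClosed Λ] [Algebra ℂ Λ] [Field F] [Algebra Λ F]
    [Algebra ℂ F] [IsScalarTower ℂ Λ F] (φ : K →ₐ[ℂ] F), IsFF Λ F →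
    IntermediateField.adjoin Λ (Set.range φ) = ⊤ →
    (∀ z ∈ B, ∃ a : Λ, algebraMap Λ F a = φ z) →
    (∀ z : K, ¬ IsAlgebraic B z → Transcendental Λ (φ z)) →
    ∀ (t : Fin n → K) (ξ : K), (∀ j, t j ∈ B) →
      IsTranscendenceBasis ℂ (Fin.append t (fun _ : Fin 1 => ξ)) →
    ∀ E : Fin (n + 1) → Derivation ℂ K K,
      (∀ i j, E i (Fin.append t (fun _ : Fin 1 => ξ) j) = if i = j then 1 else 0) →
    ∀ D : Derivation Λ F F, D (φ ξ) = 1 →
      (∀ j (Q : Place Λ F), φ (ω j E) = 0 ∨ vo Q D ≤ Q.ord (φ (ω j E))) →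
    ∀ f : F, f ≠ 0 → (∀ Q : Place Λ F, vo Q D ≤ Q.ord f) →
      f ∈ Submodule.span Λ (Set.range fun j => φ (ω j E))

section

variable {B Λ F : Type} [Field B] [Field Λ] [Field F] [Algebra ℂ B] [Algebra B K]
  [IsScalarTower ℂ B K] [Algebra B Λ] [Algebra Λ F] [Algebra K F] [Algebra B F]
  [IsScalarTower B Λ F] [IsScalarTower B K F] [Algebra ℂ Λ] [Algebra ℂ F] [IsScalarTower ℂ Λ F]
  [IsScalarTower ℂ K F] [IsScalarTower ℂ B Λ] [Algebra.IsAlgebraic B Λ] [IsAlgClosed Λ]

/-- restrictions of regular forms are regular -/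
theorem reg_res [hess : Algebra.EssFiniteType ℂ K] (hK : Algebra.trdeg ℂ K = (n + 1 : ℕ))
    [Algebra.IsAlgebraic K F] (hFF : IsFF Λ F) {tB : Fin n → B} (htB : IsTranscendenceBasis ℂ tB)
    {ξ : K} (hxB : IsTranscendenceBasis B (fun _ : Fin (0 + 1) => ξ))
    {Ef : Fin (n + 1) → Derivation ℂ K K}
    (hEd : ∀ i j, Ef i (Fin.append (algebraMap B K ∘ tB) (fun _ : Fin (0 + 1) => ξ) j) =
      if i = j then 1 else 0) {D : Derivation Λ F F} (hD1 : D (algebraMap K F ξ) = 1)
    {ω : (Fin (n + 1) → Derivation ℂ K K) → K} (hω : IsPluri 1 ω)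
    (hreg : ∀ (P : Place ℂ K), Divisorial (n + 1) P → RegAt P ω) (Q : Place Λ F) :
    algebraMap K F (ω Ef) = 0 ∨ vo Q D ≤ Q.ord (algebraMap K F (ω Ef)) := by
  classical
  have hB0 : CharZero B := charZero_of_injective_algebraMap (algebraMap ℂ B).injective
  have hΛ0 : CharZero Λ := charZero_of_injective_algebraMap (algebraMap B Λ).injective
  have hDne : D ≠ 0 := by
    intro h
    rw [h] at hD1
    exact zero_ne_one hD1
  by_cases h0 : algebraMap K F (ω Ef) = 0
  · exact Or.inl h0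
  right
  have hsec : Pool.Agent.Y174.PairSec ℂ K (n + (0 + 1)) (fun _ => (0 : ℝ)) {1} 1 0 ω := by
    refine ⟨hω, fun v hv D' hD' => ?_⟩
    rcases hreg v hv D' (fun i => hD' i) with h | h
    · exact Or.inl h
    · right
      refine ⟨1, Finset.mem_singleton_self _, one_ne_zero, ?_⟩
      have h2 : (0 : ℝ) ≤ (v.ord (ω D') : ℝ) := by exact_mod_cast h
      simp only [Nat.cast_zero, zero_mul, mul_zero, sub_zero]
      exact h2
  have h1 := Pool.Agent.Y174.res_sec (Λ := Λ) (F := F) hess hK htB hxB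
    (E := Ef) hEd Pool.Agent.Y174.isPullFib_zero hsec
  obtain ⟨s, hs0, hs⟩ := Q.surj
  -- the frame at the place
  obtain ⟨c, hc⟩ : ∃ c : F, c = s ^ (-(vo Q D)) := ⟨_, rfl⟩
  have hc0 : c ≠ 0 := by
    rw [hc]
    exact zpow_ne_zero _ hs0
  have hcord : Q.ord c = -(vo Q D) := by
    rw [hc, Q.ord_zpow, hs, mul_one]
  have hpres : ∀ l : Fin (0 + 1), ∀ f, Q.Reg f → Q.Reg ((fun _ : Fin (0 + 1) => c • D) l f) := by
    intro l f hf
    change Q.Reg (c * D f)
    obtain ⟨g, hg, hg'⟩ := der_mul Q hs hDne (f := f) hf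
    rw [hg', ← mul_assoc]
    refine Q.reg_mul (Or.inr ?_) hg
    have hDs : D s ≠ 0 := der_pi_ne_zero hDne Q hs
    rw [Q.ord_mul hc0 hDs, hcord, vo_eq Q hs hDne]
    simp
  have hdiv : IsDivisorial Q (0 + 1) := by
    have : IsEmpty (Fin (0 + 1 - 1)) := inferInstanceAs (IsEmpty (Fin 0))
    refine ⟨Fin.elim0, fun p hp => ?_⟩
    have h3 : p = MvPolynomial.C (MvPolynomial.coeff 0 p) :=
      MvPolynomial.eq_C_of_isEmpty p
    have h4 : MvPolynomial.coeff 0 p ≠ 0 := by
      intro h5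
      rw [h5, map_zero] at h3
      exact hp h3
    rw [h3, MvPolynomial.aeval_C]
    exact ⟨(_root_.map_ne_zero _).2 h4, Q.ord_const h4⟩
  have h2 := h1.2 Q hdiv (fun _ => c • D) hpres
  have h5 : (Matrix.of fun (_ _ : Fin (0 + 1)) => (c • D) (algebraMap K F ξ)).det = c := by
    have : Unique (Fin (0 + 1)) := inferInstanceAs (Unique (Fin 1))
    rw [Matrix.det_unique, Matrix.of_apply]
    change c * D (algebraMap K F ξ) = c
    rw [hD1, mul_one]
  beta_reduce at h2
  rw [h5, pow_one] at h2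
  rcases h2 with h2 | ⟨s', hs', hs'0, h2⟩
  · exact absurd h2 (mul_ne_zero hc0 h0)
  · rw [Q.ord_mul hc0 h0, hcord] at h2
    simp only [Nat.cast_zero, zero_mul, mul_zero, sub_zero] at h2
    have h3 : (0 : ℤ) ≤ -(vo Q D) + Q.ord (algebraMap K F (ω Ef)) := by exact_mod_cast h2
    linarith

/-- **The dichotomy, abstract form.** -/
theorem dich_abs [hess : Algebra.EssFiniteType ℂ K] (hK : Algebra.trdeg ℂ K = (n + 1 : ℕ))
    (hB : Algebra.trdeg ℂ B = n)
    (hcl : ∀ x : K, IsIntegral B x → ∃ y : B, algebraMap B K y = x)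
    (hgenF : IntermediateField.adjoin Λ (Set.range (algebraMap K F)) = ⊤)
    (E' : IntermediateField B K) [FiniteDimensional E' K] {J : Type} [Finite J]
    (ω : J → (Fin (n + 1) → Derivation ℂ K K) → K) (hω : ∀ j, IsPluri 1 (ω j))
    (hreg : ∀ j (P : Place ℂ K), Divisorial (n + 1) P → RegAt P (ω j))
    (hspan : ∀ (t : Fin n → K) (ξ : K), (∀ j, t j ∈ Set.range (algebraMap B K)) →
      IsTranscendenceBasis ℂ (Fin.append t (fun _ : Fin 1 => ξ)) →
      ∀ E : Fin (n + 1) → Derivation ℂ K K,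
      (∀ i j, E i (Fin.append t (fun _ : Fin 1 => ξ) j) = if i = j then 1 else 0) →
      ∀ D : Derivation Λ F F, D (algebraMap K F ξ) = 1 →
      (∀ j (Q : Place Λ F), algebraMap K F (ω j E) = 0 ∨
        vo Q D ≤ Q.ord (algebraMap K F (ω j E))) →
      ∀ f : F, f ≠ 0 → (∀ Q : Place Λ F, vo Q D ≤ Q.ord f) →
        f ∈ Submodule.span Λ (Set.range fun j => algebraMap K F (ω j E)))
    (htr : ∀ j, ¬ TraceNe (ω j) (E'.restrictScalars ℂ)) :
    IsUniruled ℂ (E'.restrictScalars ℂ) (n + 1) := by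
  classical
  have hB0 : CharZero B := charZero_of_injective_algebraMap (algebraMap ℂ B).injective
  have hΛ0 : CharZero Λ := charZero_of_injective_algebraMap (algebraMap B Λ).injective
  -- the coordinates
  obtain ⟨tB, htB⟩ := Pool.Agent.W636.PG.exists_basis ℂ B n hB
  have hLK : Algebra.trdeg B K = (1 : ℕ) :=
    Pool.Agent.Y174.trdeg_LK (r := 1) hB hK
  obtain ⟨ξ, hξE, hξ⟩ : ∃ ξ : K, ξ ∈ E' ∧ ¬ IsAlgebraic B ξ := by
    by_contra hcon
    push Not at hcon
    have h1 : Algebra.IsAlgebraic B E' := ⟨fun z => by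
      have h2 := hcon (z : K) z.2
      exact (isAlgebraic_algebraMap_iff (R := B) (algebraMap E' K).injective).1 h2⟩
    have h2 : Algebra.IsAlgebraic B K := Algebra.IsAlgebraic.trans B E' K
    have h3 : Algebra.trdeg B K = 0 := trdeg_eq_zero
    rw [h3] at hLK
    have h4 : (0 : ℕ) = 1 := by exact_mod_cast hLK
    exact zero_ne_one h4
  have hxB : IsTranscendenceBasis B (fun _ : Fin (0 + 1) => ξ) := by
    have h1 : AlgebraicIndependent B (fun _ : Fin (0 + 1) => ξ) := by
      have : Unique (Fin (0 + 1)) := inferInstanceAs (Unique (Fin 1))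
      rw [algebraicIndependent_unique_type_iff]
      exact hξ
    refine h1.isTranscendenceBasis_of_lift_trdeg_le_of_finite ?_
    rw [hLK]
    simp
  have hZ := Pool.Agent.Y174.basis_append htB hxB
  -- the frame, lifted from `E'`
  obtain ⟨EE, hEE⟩ : ∃ EE : IntermediateField ℂ K, EE = E'.restrictScalars ℂ := ⟨_, rfl⟩
  have hfinE : FiniteDimensional EE K := by
    rw [hEE]
    exact inferInstanceAs (FiniteDimensional E' K)
  have hEtr : Algebra.trdeg ℂ EE = (n + 1 : ℕ) :=
    Pool.Agent.Y184.NT.trdeg_below (K := K) hK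
  have hmemE : ∀ i, Fin.append (algebraMap B K ∘ tB) (fun _ : Fin (0 + 1) => ξ) i ∈ EE := by
    intro i
    rw [hEE]
    refine Fin.addCases (fun i => ?_) (fun i => ?_) i
    · rw [Fin.append_left]
      exact E'.algebraMap_mem (tB i)
    · rw [Fin.append_right]
      exact hξE
  obtain ⟨zE, hzE⟩ : ∃ zE : Fin (n + 1) → EE, ∀ i, (zE i : K) =
    Fin.append (algebraMap B K ∘ tB) (fun _ : Fin (0 + 1) => ξ) i :=
      ⟨fun i => ⟨_, hmemE i⟩, fun _ => rfl⟩
  have hzEb : IsTranscendenceBasis ℂ zE := by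
    have h1 : AlgebraicIndependent ℂ zE := by
      refine AlgebraicIndependent.of_comp EE.val ?_
      have h2 : (EE.val ∘ zE) = Fin.append (algebraMap B K ∘ tB) (fun _ : Fin (0 + 1) => ξ) :=
        funext hzE
      rw [h2]
      exact hZ.1
    refine h1.isTranscendenceBasis_of_lift_trdeg_le_of_finite ?_
    rw [hEtr]
    simp
  obtain ⟨D0, hD0⟩ := Pool.Agent.W636.PG.exists_duals ℂ EE (n + 1) zE hzEb
  choose Ef hEf using fun i => Pool.Agent.Y172.exists_lift (k := ℂ) (K := EE) (L := K) hEtr (D0 i)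
  have hEd : ∀ i j, Ef i (Fin.append (algebraMap B K ∘ tB) (fun _ : Fin (0 + 1) => ξ) j) =
      if i = j then 1 else 0 := by
    intro i j
    rw [← hzE j]
    have h1 := hEf i (zE j)
    rw [hD0] at h1
    refine h1.trans ?_
    by_cases h : i = j
    · rw [if_pos h, if_pos h, map_one]
    · rw [if_neg h, if_neg h, map_zero]
  have htr0 : ∀ j, Algebra.trace EE K (ω j Ef) = 0 := by
    intro j
    by_contra h
    refine htr j ?_
    rw [← hEE]
    exact ⟨D0, Ef, hEf, h⟩
  have htrE' : ∀ j, Algebra.trace E' K (ω j Ef) = 0 := by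
    intro j
    have h1 := htr0 j
    subst hEE
    have h2 : ((Algebra.trace E' K (ω j Ef) : E') : K) = 0 := by
      have h3 := congrArg (fun z : (E'.restrictScalars ℂ : IntermediateField ℂ K) => (z : K)) h1
      exact h3
    exact Subtype.ext h2
  -- the fibre
  have htrF : Algebra.trdeg Λ F = (1 : ℕ) :=
    Pool.Agent.Y174.trdeg_F (L := B) (K := K) hLK hgenF
  have hessF : Algebra.EssFiniteType Λ F := Pool.Agent.Y174.ess_F (k := ℂ) (K := K) hess hgenF
  have hFF : IsFF Λ F := ⟨hessF, by rw [htrF]; simp⟩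
  have hKFalg : Algebra.IsAlgebraic K F := Pool.Agent.Y174.alg_KF (L := B) hgenF
  have hξF : Transcendental Λ (algebraMap K F ξ) := by
    intro h
    apply hξ
    have h1 : IsAlgebraic B (algebraMap K F ξ) := h.restrictScalars B
    exact (isAlgebraic_algebraMap_iff (R := B) (algebraMap K F).injective).1 h1
  have hd0 := der_ne (k := Λ) (K := F)
  have hd1 := der_ne_zero hd0 hξF
  obtain ⟨D, hDd⟩ : ∃ D : Derivation Λ F F, D = (der Λ F (algebraMap K F ξ))⁻¹ • der Λ F :=
    ⟨_, rfl⟩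
  have hD1 : D (algebraMap K F ξ) = 1 := by
    rw [hDd, Derivation.smul_apply, smul_eq_mul, inv_mul_cancel₀ hd1]
  have hregF : ∀ j (Q : Place Λ F), algebraMap K F (ω j Ef) = 0 ∨
      vo Q D ≤ Q.ord (algebraMap K F (ω j Ef)) := fun j Q =>
    reg_res (Λ := Λ) hK hFF htB hxB hEd hD1 (hω j) (hreg j) Q
  -- the dichotomy
  obtain ⟨FE, hFE⟩ : ∃ FE : IntermediateField Λ F,
    FE = IntermediateField.adjoin Λ (algebraMap K F '' E') := ⟨_, rfl⟩
  obtain ⟨s, hs⟩ := dich_fib (J := J) hFF hcl hgenF E' FE hFE hξE hξF hD1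
    (fun j => ω j Ef) (fun f hf0 hf => hspan (algebraMap B K ∘ tB) ξ (fun j => ⟨tB j, rfl⟩) hZ
      Ef hEd D hD1 hregF f hf0 hf) htrE'
  have hmemFE : ∀ e : K, e ∈ E' → algebraMap K F e ∈ FE := by
    intro e he
    rw [hFE]
    exact IntermediateField.subset_adjoin _ _ ⟨e, he, rfl⟩
  -- uniruledness
  have hessE : Algebra.EssFiniteType ℂ (E'.restrictScalars ℂ) := by
    have h1 : FiniteDimensional (E'.restrictScalars ℂ : IntermediateField ℂ K) K :=
      inferInstanceAs (FiniteDimensional E' K)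
    exact Pool.Agent.TH466.QG.ess_below (K := K)
  have hEtr' : Algebra.trdeg ℂ (E'.restrictScalars ℂ : IntermediateField ℂ K) = (n + 1 : ℕ) := by
    rw [← hEE]
    exact hEtr
  have hΛtr : Algebra.trdeg ℂ Λ = (n : ℕ) := by
    have h1 := trdeg_add_eq ℂ B (A := Λ)
    have h2 : Algebra.trdeg B Λ = 0 := trdeg_eq_zero
    rw [h2, add_zero, hB] at h1
    exact h1.symm
  have hsF : Transcendental Λ ((s : FE) : F) := by
    intro h
    have h1 : IsAlgebraic Λ s :=
      (isAlgebraic_algebraMap_iff (R := Λ) (algebraMap FE F).injective).1 h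
    have h2 : Algebra.IsAlgebraic Λ (IntermediateField.adjoin Λ {s}) :=
      IntermediateField.isAlgebraic_adjoin_simple h1.isIntegral
    have h3 : IsAlgebraic Λ (⟨algebraMap K F ξ, hmemFE ξ hξE⟩ : FE) := by
      have h4 : (⟨algebraMap K F ξ, hmemFE ξ hξE⟩ : FE) ∈ IntermediateField.adjoin Λ {s} := by
        rw [hs]
        trivial
      have h5 := h2.isAlgebraic ⟨_, h4⟩
      exact (isAlgebraic_algebraMap_iff (R := Λ)
        (algebraMap (IntermediateField.adjoin Λ {s}) FE).injective).2 h5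
    exact hξF ((isAlgebraic_algebraMap_iff (R := Λ) (algebraMap FE F).injective).2 h3)
  refine uniruled_geo (E := (E'.restrictScalars ℂ : IntermediateField ℂ K)) (Λ := Λ) (F := F)
    hEtr' hΛtr rfl ((IsScalarTower.toAlgHom ℂ K F).comp
      (E'.restrictScalars ℂ : IntermediateField ℂ K).val) ((s : FE) : F) hsF fun e => ?_
  have h1 : (⟨algebraMap K F (e : K), hmemFE _ e.2⟩ : FE) ∈ IntermediateField.adjoin Λ {s} := by
    rw [hs]
    trivial
  have h2 : (IntermediateField.adjoin Λ {s}).map FE.val =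
      IntermediateField.adjoin Λ {((s : FE) : F)} := by
    rw [IntermediateField.adjoin_map, Set.image_singleton]
    rfl
  rw [← h2]
  exact ⟨_, h1, rfl⟩

end

end Pool.Agent.R882.GL
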