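import Pool.Agent.R882.HT

/-!
Towers of smooth complete intersections in products of projective lines, over a base with a given
property: the images of small degree are of general type or have the same property.
-/

set_option autoImplicit false
set_option linter.overlappingInstances false
set_option linter.unusedSectionVars false
set_option linter.unusedDecidableInType false
set_option linter.unusedFintypeInType false
set_option maxHeartbeats 4000000
set_option synthInstance.maxHeartbeats 400000

open FF Module MvPolynomial Pool.Agent Pool.Agent.W602.GT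
open Pool.Agent.W619.PQ (IsUniruled)
open Pool.Agent.R882.CI (chart)

namespace Pool.Agent.R882.HL

section

variable {κ ι : Type} [Fintype ι] [DecidableEq ι]

/-- The closures of the hypersurfaces `F k = 0`, as divisors of multidegrees `d k`, in the product
of projective lines meet transversally: in each affine chart, the gradients of the equations are
linearly independent at all common zeros. -/
def IsSmooth (d : κ → ι → ℕ) (F : κ → MvPolynomial ι ℂ) : Prop :=
  ∀ (S : Finset ι) (z : ι → ℂ), (∀ k, eval z (chart (d k) S (F k)) = 0) →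
    LinearIndependent ℂ (fun (k : κ) (i : ι) => eval z (pderiv i (chart (d k) S (F k))))

variable {K : Type} [Field K] [Algebra ℂ K]

/-- `x` is the generic point of an irreducible component, of dimension `n`, of the complete
intersection `F k = 0`, `k ∈ κ`, and `K` is its function field. -/
structure IsGenericPoint (n : ℕ) (F : κ → MvPolynomial ι ℂ) (x : ι → K) : Prop where
  zero : ∀ k, aeval x (F k) = 0
  gen : IntermediateField.adjoin ℂ (Set.range x) = ⊤
  dim : Algebra.trdeg ℂ K = n

/-- a single step -/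
theorem lines_step [Fintype κ] {n s : ℕ} (hn : 1 ≤ n)
    (hcard : Fintype.card ι = n + Fintype.card κ) {d : κ → ι → ℕ} {m : ι → ℕ}
    (hm : ∀ i, ∑ k, d k i = m i + 2) {i0 : ι} (hM : ∀ i, i ≠ i0 → s ≤ m i + 1)
    {F : κ → MvPolynomial ι ℂ} (hF : ∀ k i, (F k).degreeOf i ≤ d k i) (hs : IsSmooth d F)
    {x : ι → K} (hx : IsGenericPoint n F x) (hs1 : 1 ≤ s) :
    FiniteDimensional (IntermediateField.adjoin ℂ (x '' {i0}ᶜ)) K ∧
    ∃ (N : ℕ) (t : Fin N → K), IntermediateField.adjoin ℂ (Set.range t) =
        IntermediateField.adjoin ℂ (x '' {i0}ᶜ) ∧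
      Pool.Agent.R882.Over.IsBase n t ∧ Pool.Agent.R882.Over.Positive n t s := by
  classical
  have hessK : Algebra.EssFiniteType ℂ K := by
    rw [← IntermediateField.fg_top_iff]
    exact ⟨Finset.univ.image x, by
      rw [Finset.coe_image, Finset.coe_univ, Set.image_univ, hx.gen]⟩
  have hxE : ∀ j, j ≠ i0 → x j ∈ IntermediateField.adjoin ℂ (x '' {i0}ᶜ) := fun j hj =>
    IntermediateField.subset_adjoin ℂ _ ⟨j, hj, rfl⟩
  obtain ⟨M, hMs⟩ : ∃ M, M = s - 1 := ⟨_, rfl⟩
  have hM' : ∀ i, i ≠ i0 → M ≤ m i := fun i hi => by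
    have := hM i hi
    omega
  -- the last coordinate is algebraic over the others
  have halg : IsAlgebraic (IntermediateField.adjoin ℂ (x '' {i0}ᶜ)) (x i0) := by
    by_contra htr
    have hR : Ruled ℂ K := ⟨IntermediateField.adjoin ℂ (x '' {i0}ᶜ), x i0, htr,
      Pool.Agent.R882.CI.adjoin_top hx.gen hxE⟩
    have h1 : IsUniruled ℂ K n := Pool.Agent.TH466.QG.uniruled_below (F := K) (K := K) hx.dim hR
    apply (Pool.Agent.W619.Y.uniruled_neg n hx.dim h1).1
    rw [← Pool.Agent.TH466.QG.psef_iff n]
    obtain ⟨e, C, hC, hdet⟩ := Pool.Agent.R882.CI.exists_form hs hcard hx.zero hx.gen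
    obtain ⟨z, D, hz, hD⟩ := Pool.Agent.Y172.exists_crd (k := ℂ) (K := K) hx.dim
    have hne := hdet D (Pool.Agent.Y184.NT.lift_ind (L := K) (K := K) hD fun _ _ => rfl)
    have hreg0 : ∀ P : Place ℂ K, RegAt P (fun D : Fin n → Derivation ℂ K K =>
        (Pool.Agent.R882.CI.cmat e C fun j i => D j (x i)).det) := by
      intro P
      have h2 := Pool.Agent.R882.CI.ci_reg hF hs e hx.zero hC (a := fun _ => 0) (fun i => by
        rw [hm i]
        omega) P
      simpa using h2
    have hk : KodGe ℂ K n (fun _ => False) 0 :=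
      ⟨1, one_pos, fun _ => fun D =>
        (Pool.Agent.R882.CI.cmat e C fun j i => D j (x i)).det, fun _ =>
        ⟨Pool.Agent.R882.CI.cmat_pluri e C x, fun P hP D' hD' => hreg0 P D' fun i =>
        Pool.Agent.TH466.QG.derReg_of_log (hD' i), fun P _ _ => hreg0 P⟩, D, hne,
        algebraicIndependent_empty_type⟩
    exact psef_of_kodGe hk
  have hfin : FiniteDimensional (IntermediateField.adjoin ℂ (x '' {i0}ᶜ)) K :=
    Pool.Agent.R882.CI.fin_of_alg hx.gen hxE halg
  obtain ⟨σ⟩ : Nonempty (Fin (Fintype.card {j // j ≠ i0}) ≃ {j // j ≠ i0}) :=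
    ⟨(Fintype.equivFin _).symm⟩
  have hrange := Pool.Agent.R882.CI.rest_range σ x
  have hbase : Pool.Agent.R882.Over.IsBase n (Pool.Agent.R882.CI.rest σ x) :=
    ⟨hessK, hx.dim, ⟨0, by rw [Pool.Agent.R882.CI.rest, Fin.cons_zero]⟩, by rw [hrange]; exact hfin⟩
  have hpos : ∀ s, s ≤ M + 1 → Pool.Agent.R882.Over.Positive n (Pool.Agent.R882.CI.rest σ x) s := by
    intro s hs' F' hF'
    rw [hrange] at hF'
    refine ⟨M, ?_, Pool.Agent.R882.CI.detects hx.dim hm hM' hF hs hcard hx.zero hx.gen halg σ F'
      hF'⟩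
    have hfinF : FiniteDimensional F' K := by
      refine Pool.Agent.R882.CI.fin_of_alg hx.gen (fun j hj => hF'.le (hxE j hj)) ?_
      obtain ⟨p, hp0, hp⟩ := halg
      refine ⟨p.map (IntermediateField.inclusion hF'.le).toRingHom, ?_, ?_⟩
      · exact (Polynomial.map_ne_zero_iff (IntermediateField.inclusion hF'.le).injective).2 hp0
      · rw [Polynomial.aeval_def, Polynomial.eval₂_map]
        rw [Polynomial.aeval_def] at hp
        exact hp
    have h1 : 0 < Module.finrank F' K := Module.finrank_pos
    nlinarith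
  exact ⟨hfin, _, _, hrange, hbase, hpos s (by omega)⟩

end

/-- `K` is the function field of the first variety of a tower of varieties of dimension `n` and
height `s` over a variety with the property `Base`: either `K` has the property `Base`, or it is the
function field of a component, with generic point `x`, of a smooth complete intersection of
hypersurfaces of multidegrees `d k` in a product of projective lines, with canonical divisor
`O(m i)`, `s ≤ m i + 1` for all `i ≠ i0`, and the subfield generated by the coordinates `x i`,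
`i ≠ i0`, over which `K` has degree `b`, is the function field of the first variety of a tower of
height `s / b`. -/
inductive LinesTower (n : ℕ) (Base : ∀ (K : Type) [Field K] [Algebra ℂ K], Prop) :
    ∀ (K : Type) [Field K] [Algebra ℂ K], ℕ → Prop
  | base {K : Type} [Field K] [Algebra ℂ K] {s : ℕ} (h : Base K) : LinesTower n Base K s
  | cover {K : Type} [Field K] [Algebra ℂ K] {s q : ℕ} (F : Fin q → MvPolynomial (Fin (n + q)) ℂ)
      (d : Fin q → Fin (n + q) → ℕ) (deg : ∀ k i, (F k).degreeOf i ≤ d k i)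
      (m : Fin (n + q) → ℕ) (canonical : ∀ i, ∑ k, d k i = m i + 2) (smooth : IsSmooth d F)
      (x : Fin (n + q) → K) (point : IsGenericPoint n F x) (i0 : Fin (n + q))
      (positive : ∀ i, i ≠ i0 → s ≤ m i + 1)
      (below : LinesTower n Base (IntermediateField.adjoin ℂ (x '' {i0}ᶜ))
        (s / Module.finrank (IntermediateField.adjoin ℂ (x '' {i0}ᶜ)) K)) :
      LinesTower n Base K s

open Pool.Agent.R882.HT (Descends GenusZero)

/-- **Images of towers in products of projective lines.** -/
theorem tower_aux {n : ℕ} (hn : 1 ≤ n) {Base : ∀ (K : Type) [Field K] [Algebra ℂ K], Prop}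
    (hB : Descends Base) {K : Type} [i1 : Field K] [i2 : Algebra ℂ K] {s : ℕ}
    (h : LinesTower n Base K s) : Algebra.trdeg ℂ K = (n : ℕ) →
    ∀ (L : Type) [Field L] [Algebra ℂ L] [Algebra L K] [IsScalarTower ℂ L K]
      [FiniteDimensional L K],
      (s = Module.finrank L K → GenusZero L n → Base L) ∧
      (s = 2 * Module.finrank L K → ¬ GeneralType ℂ L n → Base L) := by
  induction h with
  | @base K _ _ s h =>
    intro _ L _ _ _ _ _
    exact ⟨fun _ _ => hB K L h, fun _ _ => hB K L h⟩
  | @cover K _ _ s q F d deg m canonical smooth x point i0 positive below ih =>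
    intro hK L _ _ _ _ _
    have hr : 0 < Module.finrank L K := Module.finrank_pos
    have key : 1 ≤ s → FiniteDimensional (IntermediateField.adjoin ℂ (x '' {i0}ᶜ)) K ∧
      ∃ (N : ℕ) (t : Fin N → K), IntermediateField.adjoin ℂ (Set.range t) =
        IntermediateField.adjoin ℂ (x '' {i0}ᶜ) ∧
      Pool.Agent.R882.Over.IsBase n t ∧ Pool.Agent.R882.Over.Positive n t s := fun hs1 =>
        lines_step hn (by simp) canonical positive deg smooth point hs1
    have hmain : 1 ≤ s → ∀ _ : (∃ (N : ℕ) (t : Fin N → K), IntermediateField.adjoin ℂ (Set.range t)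
        = IntermediateField.adjoin ℂ (x '' {i0}ᶜ) ∧ Pool.Agent.R882.Over.IsBase n t ∧
        Pool.Agent.R882.Over.FactorsThrough L t),
        ∃ (_ : Algebra L (IntermediateField.adjoin ℂ (x '' {i0}ᶜ)))
          (_ : IsScalarTower ℂ L (IntermediateField.adjoin ℂ (x '' {i0}ᶜ)))
          (_ : FiniteDimensional L (IntermediateField.adjoin ℂ (x '' {i0}ᶜ))),
          Module.finrank L K = Module.finrank L (IntermediateField.adjoin ℂ (x '' {i0}ᶜ)) *
            Module.finrank (IntermediateField.adjoin ℂ (x '' {i0}ᶜ)) K ∧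
          Algebra.trdeg ℂ (IntermediateField.adjoin ℂ (x '' {i0}ᶜ)) = (n : ℕ) ∧
          0 < Module.finrank (IntermediateField.adjoin ℂ (x '' {i0}ᶜ)) K := by
      rintro hs1 ⟨N, t, ht, hb, hfac⟩
      obtain ⟨hfin, -⟩ := key hs1
      have h3 : ∀ g : L, algebraMap L K g ∈ IntermediateField.adjoin ℂ (x '' {i0}ᶜ) := by
        intro g
        rw [← ht]
        exact hfac g
      obtain ⟨j1, j2, j3, hdeg⟩ := Pool.Agent.R882.LT.factor_alg (N := 0) L h3
      exact ⟨j1, j2, j3, hdeg, Pool.Agent.Y184.NT.trdeg_below (K := K) hK, Module.finrank_pos⟩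
    refine ⟨fun hs hg => ?_, fun hs hg => ?_⟩
    · have hs1 : 1 ≤ s := by omega
      obtain ⟨hfin, N, t, ht, hb, hp⟩ := key hs1
      obtain ⟨h1, -⟩ := Pool.Agent.R882.Over.factors_step hn hb L
      obtain ⟨j1, j2, j3, hdeg, hK', hpos⟩ := hmain hs1 ⟨N, t, ht, hb, h1 (hs ▸ hp) hg⟩
      refine (ih hK' L).1 ?_ hg
      rw [hs, hdeg, Nat.mul_div_cancel _ hpos]
    · have hs1 : 1 ≤ s := by omega
      obtain ⟨hfin, N, t, ht, hb, hp⟩ := key hs1
      obtain ⟨-, h2⟩ := Pool.Agent.R882.Over.factors_step hn hb L
      obtain ⟨j1, j2, j3, hdeg, hK', hpos⟩ := hmain hs1 ⟨N, t, ht, hb, h2 (hs ▸ hp) hg⟩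
      refine (ih hK' L).2 ?_ hg
      rw [hs, hdeg, ← mul_assoc, Nat.mul_div_cancel _ hpos]

/-- The dichotomy for the images of towers: general type, or the property of the base. -/
theorem dichotomy {n : ℕ} (hn : 1 ≤ n) {Base : ∀ (K : Type) [Field K] [Algebra ℂ K], Prop}
    (hB : Descends Base) {K : Type} [Field K] [Algebra ℂ K] (hK : Algebra.trdeg ℂ K = (n : ℕ))
    (L : Type) [Field L] [Algebra ℂ L] [Algebra L K] [IsScalarTower ℂ L K]
    [FiniteDimensional L K] (h : LinesTower n Base K (2 * Module.finrank L K)) :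
    GeneralType ℂ L n ∨ Base L := by
  by_cases hg : GeneralType ℂ L n
  · exact Or.inl hg
  · exact Or.inr ((tower_aux hn hB h hK L).2 rfl hg)

end Pool.Agent.R882.HL
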