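import Pool.Agent.R882.TColL
import Pool.Agent.R882.CTow
import Pool.Agent.R882.CSpec

/-!
Towers of open nondegenerate complete intersections in tori over an open variety with a given
property: the open images of small degree are of logarithmic general type or have the same property.
-/

set_option autoImplicit false
set_option linter.overlappingInstances false
set_option linter.unusedSectionVars false
set_option maxHeartbeats 4000000
set_option synthInstance.maxHeartbeats 400000

open FF Module Pool.Agent Pool.Agent.W602.GT Pool.Agent.R885 Pool.Agent.Y172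
open Pool.Agent.W619.PL (IsA1Uniruled)

namespace Pool.Agent.R882.HO

/-- The Laurent polynomials `f l` are nondegenerate: the initial parts `ini v (f l)` have linearly
independent logarithmic gradients at all their common zeros in the torus. -/
def Nondegenerate {r q : ℕ} (f : Fin q → (Fin r → ℤ) →₀ ℂ) : Prop :=
  ∀ v : Fin r → ℤ, ∀ c : Fin r → ℂ, (∀ i, c i ≠ 0) → (∀ l, ev c (ini v (f l)) = 0) →
    LinearIndependent ℂ fun l => gr c (ini v (f l))

/-- `x` is the generic point of a subvariety, with function field `K`, of the set of common zeros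
of the `f l` in the torus `(ℂ^*) ^ r`. -/
def IsTorusPoint {K : Type} [Field K] [Algebra ℂ K] {r q : ℕ} (f : Fin q → (Fin r → ℤ) →₀ ℂ)
    (x : Fin r → K) : Prop :=
  (∀ i, x i ≠ 0) ∧ (∀ l, ev x (f l) = 0) ∧ IntermediateField.adjoin ℂ (Set.range x) = ⊤

/-- The place `P` is in the boundary: the vector of the orders of the coordinates is in `S`. -/
def Boundary {K : Type} [Field K] [Algebra ℂ K] {r : ℕ} (S : Set (Fin r → ℤ)) (x : Fin r → K)
    (P : Place ℂ K) : Prop :=
  (fun i => P.ord (x i)) ∈ S

/-- The integral vector `u` is in the Minkowski sum of the Newton polytopes, and it satisfies the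
inequalities of the Fine interior for all `v` which are not in `S`. -/
def InPoly {r q : ℕ} (S : Set (Fin r → ℤ)) (f : Fin q → (Fin r → ℤ) →₀ ℂ) (u : Fin r → ℤ) : Prop :=
  ∀ v : Fin r → ℤ, v ≠ 0 → ∑ l, mn v (f l) ≤ u ⬝ᵥ v ∧ (v ∉ S → 1 + ∑ l, mn v (f l) ≤ u ⬝ᵥ v)

/-- For all divisors `c < b` of `b` there is a column of length `c` and of width `M`,
`s ≤ c (M + 1)`, in the direction `v`. -/
def HasColumns {m q N : ℕ} (S : Set (Fin m → ℤ)) (f : Fin q → (Fin m → ℤ) →₀ ℂ) (v : Fin m → ℤ)
    (w : Fin N → Fin m → ℤ) (b s : ℕ) : Prop :=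
  ∀ c : ℕ, c ∣ b → c < b → ∃ (M : ℕ) (u : Fin m → ℤ), s ≤ c * (M + 1) ∧
    ∀ j < c, InPoly S f (u + (j : ℤ) • v) ∧ ∀ l, InPoly S f (u + (j : ℤ) • v + (M : ℤ) • w l)

/-- `K` and `B` are the function field and the boundary of the first variety of a tower of open
varieties of dimension `n` with columns for `s` over an open variety with the property `Base`:
either `(K, B)` has the property `Base`, or `K` is the function field of a component, with generic
point `x`, of a nondegenerate complete intersection in a torus, the boundary consists of the prime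
divisors for which the vector of the orders of the `x i` is in the set `S`, there are columns for `s`,
and the subfield `ℂ(t)`, generated by the monomials `t l = x ^ (w l)`, with `K = ℂ(t)(x ^ v)` of
degree `b` over `ℂ(t)`, is the function field of the first variety of a tower with columns for
`s / b`, with a boundary `BE` whose preimage is the boundary `B`. -/
inductive OpenTower (n : ℕ)
    (Base : ∀ (K : Type) [Field K] [Algebra ℂ K], (Place ℂ K → Prop) → Prop) :
    ∀ (K : Type) [Field K] [Algebra ℂ K], (Place ℂ K → Prop) → ℕ → Prop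
  | base {K : Type} [Field K] [Algebra ℂ K] {B : Place ℂ K → Prop} {s : ℕ} (h : Base K B) :
      OpenTower n Base K B s
  | cover {K : Type} [Field K] [Algebra ℂ K] {B : Place ℂ K → Prop} {s q N : ℕ}
      (f : Fin q → (Fin (n + q) → ℤ) →₀ ℂ)
      (nondeg : Nondegenerate f) (x : Fin (n + q) → K) (point : IsTorusPoint f x)
      (S : Set (Fin (n + q) → ℤ)) (boundary : ∀ P, B P ↔ Boundary S x P)
      (v : Fin (n + q) → ℤ) (w : Fin N → Fin (n + q) → ℤ) (t : Fin N → K)
      (mono : ∀ l, t l = R885.mono x (w l))
      (fin : FiniteDimensional (IntermediateField.adjoin ℂ (Set.range t)) K)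
      (prim : IntermediateField.adjoin (IntermediateField.adjoin ℂ (Set.range t))
        {R885.mono x v} = ⊤)
      (col : HasColumns S f v w
        (Module.finrank (IntermediateField.adjoin ℂ (Set.range t)) K) s)
      (BE : Place ℂ (IntermediateField.adjoin ℂ (Set.range t)) → Prop)
      (proper : ∀ (P : Place ℂ (IntermediateField.adjoin ℂ (Set.range t))) (Q : Place ℂ K)
        (e : ℕ), Over Q P e → (BE P ↔ B Q))
      (below : OpenTower n Base (IntermediateField.adjoin ℂ (Set.range t)) BE
        (s / Module.finrank (IntermediateField.adjoin ℂ (Set.range t)) K)) :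
      OpenTower n Base K B s

/-- The logarithmic geometric genus is zero: the only canonical form with at most logarithmic poles
which is regular at all prime divisors that are not in the boundary is `0`. -/
def LogGenusZero (L : Type) [Field L] [Algebra ℂ L] (n : ℕ) (Bd : Place ℂ L → Prop) : Prop :=
  ∀ ω : (Fin n → Derivation ℂ L L) → L, LogSec ℂ L n 1 Bd ω → ∀ D, ω D = 0

/-- `Base` passes to the open varieties which are dominated with finite degree, if the boundary is
the preimage of the boundary. -/
def Descends (n : ℕ)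
    (Base : ∀ (K : Type) [Field K] [Algebra ℂ K], (Place ℂ K → Prop) → Prop) : Prop :=
  ∀ (K : Type) [Field K] [Algebra ℂ K] (L : Type) [Field L] [Algebra ℂ L] [Algebra L K]
    [IsScalarTower ℂ L K] [FiniteDimensional L K] (B : Place ℂ K → Prop) (BL : Place ℂ L → Prop),
    (∀ (P : Place ℂ L) (Q : Place ℂ K) (e : ℕ), Over Q P e → (BL P ↔ B Q)) →
    Algebra.trdeg ℂ K = n → Base K B → Base L BL

/-- the basic step -/
theorem factors_step_log {n N : ℕ} (hn : 1 ≤ n) {K : Type} [Field K] [Algebra ℂ K]
    {x : Fin N → K} (hx : Pool.Agent.R882.Over.IsBase n x) {BK : Place ℂ K → Prop}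
    (L : Type) [Field L] [Algebra ℂ L] [Algebra L K] [IsScalarTower ℂ L K]
    [FiniteDimensional L K] {BL : Place ℂ L → Prop}
    (hB : ∀ (P : Place ℂ L) (Q : Place ℂ K) (e : ℕ), Over Q P e → (BL P ↔ BK Q)) :
    (Pool.Agent.R882.LT.PositiveL n BK x (Module.finrank L K) → LogGenusZero L n BL →
      Pool.Agent.R882.Over.FactorsThrough L x) ∧
    (Pool.Agent.R882.LT.PositiveL n BK x (2 * Module.finrank L K) → ¬ LogGeneralType ℂ L n BL →
      Pool.Agent.R882.Over.FactorsThrough L x) := by
  classical
  have hessK : Algebra.EssFiniteType ℂ K := hx.ess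
  have hfin := hx.fin
  obtain ⟨j0, hj0⟩ := hx.one
  have halg : ∀ τ : K, IsAlgebraic (IntermediateField.adjoin ℂ (Set.range x)) τ := fun τ =>
    (Algebra.IsIntegral.isIntegral τ).isAlgebraic
  obtain ⟨F, hF⟩ : ∃ F : IntermediateField ℂ K,
    F = (IntermediateField.adjoin L (Set.range x)).restrictScalars ℂ := ⟨_, rfl⟩
  have hle : IntermediateField.adjoin ℂ (Set.range x) ≤ F := by
    rw [hF, IntermediateField.adjoin_le_iff]
    exact IntermediateField.subset_adjoin L _
  have hLF : ∀ f : L, algebraMap L K f ∈ F := by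
    intro f
    rw [hF]
    exact (IntermediateField.adjoin L (Set.range x)).algebraMap_mem f
  have hlt : ¬ Pool.Agent.R882.Over.FactorsThrough L x →
      IntermediateField.adjoin ℂ (Set.range x) < F := by
    intro hnf
    refine lt_of_le_of_ne hle fun h => hnf fun f => ?_
    rw [h]
    exact hLF f
  have hB' : ∀ (P : Place ℂ L) (Q : Place ℂ K) (e : ℕ), Over Q P e → BK Q → BL P :=
    fun P Q e h => (hB P Q e h).2
  refine ⟨fun hp hg => ?_, fun hp hg => ?_⟩
  · by_contra hnf
    obtain ⟨m, hm, hdet⟩ := hp F (hlt hnf)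
    exact (Pool.Agent.R882.LT.core_all hn hx.dim hj0 L hB' F hF hdet).1 hm hg
  · by_contra hnf
    obtain ⟨m, hm, hdet⟩ := hp F (hlt hnf)
    exact hg ((Pool.Agent.R882.LT.core_all hn hx.dim hj0 L hB' F hF hdet).2 hm halg)

/-- the degree and the field of an image which factors -/
theorem factor_alg {K : Type} [Field K] [Algebra ℂ K] {E : IntermediateField ℂ K}
    (L : Type) [Field L] [Algebra ℂ L] [Algebra L K] [IsScalarTower ℂ L K]
    [FiniteDimensional L K] (h : ∀ g : L, algebraMap L K g ∈ E) :
    ∃ (i1 : Algebra L E) (_ : IsScalarTower ℂ L E) (_ : FiniteDimensional L E)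
      (_ : IsScalarTower L E K),
      Module.finrank L K = Module.finrank L E * Module.finrank E K := by
  let φ : L →ₐ[ℂ] E :=
    { toFun := fun f => ⟨algebraMap L K f, h f⟩
      map_one' := Subtype.ext (map_one _)
      map_mul' := fun f g => Subtype.ext (map_mul _ _ _)
      map_zero' := Subtype.ext (map_zero _)
      map_add' := fun f g => Subtype.ext (map_add _ _ _)
      commutes' := fun c => Subtype.ext (IsScalarTower.algebraMap_apply ℂ L K c).symm }
  let i1 : Algebra L E := φ.toRingHom.toAlgebra
  have i2 : IsScalarTower ℂ L E := IsScalarTower.of_algebraMap_eq fun c => (φ.commutes c).symm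
  have i3 : IsScalarTower L E K := IsScalarTower.of_algebraMap_eq fun c => rfl
  have i4 : FiniteDimensional L E := by
    let ψ : E →ₗ[L] K := (IsScalarTower.toAlgHom L E K).toLinearMap
    exact FiniteDimensional.of_injective ψ (algebraMap E K).injective
  exact ⟨i1, i2, i4, i3, (Module.finrank_mul_finrank L E K).symm⟩

/-- the boundary of the intermediate variety -/
theorem boundary_mid {K : Type} [Field K] [Algebra ℂ K] {E : IntermediateField ℂ K}
    [FiniteDimensional E K]
    (L : Type) [Field L] [Algebra ℂ L] [Algebra L K] [Algebra L E] [IsScalarTower L E K]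
    {BK : Place ℂ K → Prop} {BE : Place ℂ E → Prop} {BL : Place ℂ L → Prop}
    (hB : ∀ (P : Place ℂ L) (Q : Place ℂ K) (e : ℕ), Over Q P e → (BL P ↔ BK Q))
    (hE : ∀ (P : Place ℂ E) (Q : Place ℂ K) (e : ℕ), Over Q P e → (BE P ↔ BK Q)) :
    ∀ (P : Place ℂ L) (Q : Place ℂ E) (e : ℕ), Over Q P e → (BL P ↔ BE Q) := by
  intro P Q e h
  obtain ⟨R, f, hR⟩ := exists_above (L := K) Q
  rw [hB P R _ (Pool.Agent.R882.LT.over_trans h hR), hE Q R f hR]

/-- **Open images of towers.** -/
theorem tower_aux {n : ℕ} (hn : 1 ≤ n)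
    {Base : ∀ (K : Type) [Field K] [Algebra ℂ K], (Place ℂ K → Prop) → Prop}
    (hD : Descends n Base) {K : Type} [i1 : Field K] [i2 : Algebra ℂ K] {B : Place ℂ K → Prop}
    {s : ℕ} (h : OpenTower n Base K B s) : Algebra.trdeg ℂ K = (n : ℕ) →
    ∀ (L : Type) [Field L] [Algebra ℂ L] [Algebra L K] [IsScalarTower ℂ L K]
      [FiniteDimensional L K] (BL : Place ℂ L → Prop),
      (∀ (P : Place ℂ L) (Q : Place ℂ K) (e : ℕ), Over Q P e → (BL P ↔ B Q)) →
      (s = Module.finrank L K → LogGenusZero L n BL → Base L BL) ∧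
      (s = 2 * Module.finrank L K → ¬ LogGeneralType ℂ L n BL → Base L BL) := by
  induction h with
  | @base K _ _ B s h =>
    intro hK L _ _ _ _ _ BL hB
    exact ⟨fun _ _ => hD K L B BL hB hK h, fun _ _ => hD K L B BL hB hK h⟩
  | @cover K _ _ B s q N f nondeg x point S boundary v w t mono fin prim col BE proper below ih =>
    intro hK L _ _ _ _ _ BL hB
    obtain ⟨hbase, hadj, hpos⟩ := Pool.Agent.R882.LT.col_positive_log (fun v => nondeg v) point.1
      point.2.1 point.2.2 hK S mono prim
    have hBK : B = fun P => (fun i => P.ord (x i)) ∈ S := by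
      funext P
      exact propext (boundary P)
    obtain ⟨h1, h2⟩ := factors_step_log hn hbase L hB
    have hfac : Pool.Agent.R882.Over.FactorsThrough L (Fin.cons 1 t : Fin (N + 1) → K) →
        ∀ g : L, algebraMap L K g ∈ IntermediateField.adjoin ℂ (Set.range t) := by
      unfold Pool.Agent.R882.Over.FactorsThrough
      rw [hadj]
      exact id
    have hK' : Algebra.trdeg ℂ (IntermediateField.adjoin ℂ (Set.range t)) = (n : ℕ) :=
      Pool.Agent.Y184.NT.trdeg_below (K := K) hK
    have hb : 0 < Module.finrank (IntermediateField.adjoin ℂ (Set.range t)) K :=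
      Module.finrank_pos
    have hpos' : Pool.Agent.R882.LT.PositiveL n B (Fin.cons 1 t : Fin (N + 1) → K) s := by
      rw [hBK]
      exact hpos s col
    refine ⟨fun hs hg => ?_, fun hs hg => ?_⟩
    · have h3 := hfac (h1 (hs ▸ hpos') hg)
      obtain ⟨j1, j2, j3, j4, hdeg⟩ := factor_alg L h3
      refine (ih hK' L BL (boundary_mid L hB proper)).1 ?_ hg
      rw [hs, hdeg, Nat.mul_div_cancel _ hb]
    · have h3 := hfac (h2 (hs ▸ hpos') hg)
      obtain ⟨j1, j2, j3, j4, hdeg⟩ := factor_alg L h3
      refine (ih hK' L BL (boundary_mid L hB proper)).2 ?_ hg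
      rw [hs, hdeg, ← mul_assoc, Nat.mul_div_cancel _ hb]

/-- an open variety of logarithmic general type has a Bogomolov sheaf of maximal degree -/
theorem not_special_of_lgt {n : ℕ} (hn : 1 ≤ n) {L : Type} [Field L] [Algebra ℂ L]
    {Bd : Place ℂ L → Prop} (h : LogGeneralType ℂ L n Bd) : ¬ Special ℂ L n Bd := by
  classical
  obtain ⟨hL, N, hN, ω, hω, hlog, hreg, D0, h0, hind⟩ := h
  intro hS
  obtain ⟨y, E, hy, hE⟩ := Pool.Agent.Y172.exists_crd (k := ℂ) (K := L) hL
  let g : Derivation ℂ L L →ₗ[L] (Fin n → L) :=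
    { toFun := fun D j => D (y j)
      map_add' := fun _ _ => rfl
      map_smul' := fun _ _ => rfl }
  let θ : AlternatingMap L (Derivation ℂ L L) L (Fin n) :=
    (Matrix.detRowAlternating (R := L) (n := Fin n)).compLinearMap g
  have hθ : ∀ D : Fin n → Derivation ℂ L L, θ D = (Matrix.of fun i j => D i (y j)).det :=
    fun D => rfl
  have hval : ∀ j (D : Fin n → Derivation ℂ L L), ω j E * θ D ^ N = ω j D := by
    intro j D
    rw [Pool.Agent.Y172.pluri_coord hy hE (hω j) D, hθ, mul_comm]
  have hE0 : ω 0 E ≠ 0 := by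
    intro h1
    apply h0
    rw [← hval 0 D0, h1, zero_mul]
  have hθ0 : θ D0 ≠ 0 := by
    intro h1
    apply h0
    rw [← hval 0 D0, h1, zero_pow hN.ne', mul_zero]
  refine hS n hn ⟨θ, fun h1 => hθ0 (by rw [h1]; rfl), N, hN, fun j => ω j E, ?_, ?_, hE0, ?_⟩
  · intro P hP D hD j
    rw [hval]
    exact hlog P hP j D hD
  · intro P hP hBP D hD j
    rw [hval]
    exact hreg P hP hBP j D hD
  · have h1 : (fun i : Fin n => ω i.succ E / ω 0 E) =
        fun i : Fin n => ω i.succ D0 / ω 0 D0 := by
      funext i
      rw [← hval _ D0, ← hval 0 D0, mul_div_mul_right _ _ (pow_ne_zero _ hθ0)]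
    change AlgebraicIndependent ℂ (fun i : Fin n => ω i.succ E / ω 0 E)
    rw [h1]
    exact hind

end Pool.Agent.R882.HO
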