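import Pool.Agent.R882.HO

/-!
Open towers over a torus and over `A¹`-ruled varieties.
-/

set_option autoImplicit false
set_option linter.overlappingInstances false
set_option linter.unusedSectionVars false
set_option maxHeartbeats 4000000
set_option synthInstance.maxHeartbeats 400000

open FF Module Pool.Agent Pool.Agent.W602.GT Pool.Agent.R885 Pool.Agent.Y172
open Pool.Agent.W619.PL (IsA1Uniruled)
open Pool.Agent.R882.LT (A1Ruled over_trans a1_not_psef a1_down')

namespace Pool.Agent.R882.HO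

/-- There is a dominant rational map of finite degree from the torus `(ℂ^*) ^ n` to the open variety
with the function field `K` and the boundary `B`, such that no prime divisor on the torus is mapped
to the boundary: it is a morphism outside a closed subset of codimension at least two. -/
def TorusDominated (n : ℕ) (K : Type) [Field K] [Algebra ℂ K] (B : Place ℂ K → Prop) : Prop :=
  ∃ (E : Type) (_ : Field E) (_ : Algebra ℂ E) (_ : Algebra K E) (_ : IsScalarTower ℂ K E)
    (_ : FiniteDimensional K E) (t : Fin n → E), AlgebraicIndependent ℂ t ∧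
    IntermediateField.adjoin ℂ (Set.range t) = ⊤ ∧
    ∀ (P : Place ℂ K) (Q : Place ℂ E) (e : ℕ), Over Q P e → (∀ i, Q.ord (t i) = 0) → ¬ B P

theorem descends_torus (n : ℕ) : Descends n (fun K _ _ B => TorusDominated n K B) := by
  intro K _ _ L _ _ _ _ _ B BL hB hK h
  obtain ⟨E, _, _, _, t1, t2, t, h1, h2, h3⟩ := h
  let φ : L →ₐ[ℂ] E := (IsScalarTower.toAlgHom ℂ K E).comp (IsScalarTower.toAlgHom ℂ L K)
  let _ : Algebra L E := φ.toRingHom.toAlgebra
  have s1 : IsScalarTower ℂ L E := IsScalarTower.of_algebraMap_eq fun c => (φ.commutes c).symm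
  have s2 : IsScalarTower L K E := IsScalarTower.of_algebraMap_eq fun c => rfl
  have s3 : FiniteDimensional L E := Module.Finite.trans (R := L) K E
  refine ⟨E, inferInstance, inferInstance, inferInstance, s1, s3, t, h1, h2, ?_⟩
  intro P Q e hQ ht hP
  have halg : Algebra.IsAlgebraic K E := Algebra.IsAlgebraic.of_finite K E
  obtain ⟨R, f, hR⟩ := exists_below (K := K) Q
  have halg' : Algebra.IsAlgebraic L K := Algebra.IsAlgebraic.of_finite L K
  obtain ⟨P', g, hP'⟩ := exists_below (K := L) R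
  obtain ⟨rfl, -⟩ := over_unique' hQ (over_trans hP' hR)
  exact h3 R Q f hR ht ((hB _ R g hP').1 hP)

/-- There is a dominant rational map of finite degree to the open variety with the function field
`K` and the boundary `B` from an `A¹`-ruled open variety of dimension `n`, such that the preimage of
the boundary is contained in the boundary. -/
def A1Dominated (n : ℕ) (K : Type) [Field K] [Algebra ℂ K] (B : Place ℂ K → Prop) : Prop :=
  ∃ (E : Type) (_ : Field E) (_ : Algebra ℂ E) (_ : Algebra K E) (_ : IsScalarTower ℂ K E)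
    (_ : FiniteDimensional K E) (_ : Algebra.EssFiniteType ℂ E) (BE : Place ℂ E → Prop),
    A1Ruled BE ∧ ∀ (P : Place ℂ K) (Q : Place ℂ E) (e : ℕ), Over Q P e → B P → BE Q

theorem descends_a1 (n : ℕ) : Descends n (fun K _ _ B => A1Dominated n K B) := by
  intro K _ _ L _ _ _ _ _ B BL hB hK h
  obtain ⟨E, _, _, _, t1, t2, t3, BE, h1, h2⟩ := h
  let φ : L →ₐ[ℂ] E := (IsScalarTower.toAlgHom ℂ K E).comp (IsScalarTower.toAlgHom ℂ L K)
  let _ : Algebra L E := φ.toRingHom.toAlgebra
  have s1 : IsScalarTower ℂ L E := IsScalarTower.of_algebraMap_eq fun c => (φ.commutes c).symm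
  have s2 : IsScalarTower L K E := IsScalarTower.of_algebraMap_eq fun c => rfl
  have s3 : FiniteDimensional L E := Module.Finite.trans (R := L) K E
  refine ⟨E, inferInstance, inferInstance, inferInstance, s1, s3, t3, BE, h1, ?_⟩
  intro P Q e hQ hP
  have halg : Algebra.IsAlgebraic K E := Algebra.IsAlgebraic.of_finite K E
  obtain ⟨R, f, hR⟩ := exists_below (K := K) Q
  have halg' : Algebra.IsAlgebraic L K := Algebra.IsAlgebraic.of_finite L K
  obtain ⟨P', g, hP'⟩ := exists_below (K := L) R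
  obtain ⟨rfl, -⟩ := over_unique' hQ (over_trans hP' hR)
  exact h2 R Q f hR ((hB _ R g hP').1 hP)

/-- the consequences -/
theorem of_a1 {n : ℕ} {L : Type} [Field L] [Algebra ℂ L] {B : Place ℂ L → Prop}
    (hL : Algebra.trdeg ℂ L = n) (h : A1Dominated n L B) :
    ¬ Psef ℂ L n B ∧ IsA1Uniruled ℂ L n B := by
  obtain ⟨E, _, _, _, t1, t2, t3, BE, h1, h2⟩ := h
  have hessL : Algebra.EssFiniteType ℂ L := Pool.Agent.TH466.QG.ess_below (K := E)
  have hE : Algebra.trdeg ℂ E = n := by
    have h4 := Pool.Agent.TH466.QG.trdeg_alg (k := ℂ) (E := L) (K := E)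
    rw [h4, hL]
  refine ⟨a1_not_psef hE hL h2 h1, a1_down' h2 ?_⟩
  obtain ⟨δ, σ, M, h1, h2, h3, h4, h5, h6⟩ := h1
  exact Pool.Agent.TH766.MC.a1_of_delta hE δ h1 h2 M h3 h4 h5 h6

theorem tower_mono {n : ℕ}
    {Base : ∀ (K : Type) [Field K] [Algebra ℂ K], (Place ℂ K → Prop) → Prop} {K : Type}
    [i1 : Field K] [i2 : Algebra ℂ K] {B : Place ℂ K → Prop} {s : ℕ}
    (h : OpenTower n Base K B s) : ∀ s' : ℕ, s' ≤ s → OpenTower n Base K B s' := by
  induction h with
  | @base K _ _ B s h => exact fun s' _ => OpenTower.base h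
  | @cover K _ _ B s q N f nondeg x point S boundary v w t mono fin prim col BE proper below ih =>
    intro s' hs
    refine OpenTower.cover f nondeg x point S boundary v w t mono fin prim (fun c h1 h2 => ?_)
      BE proper (ih _ (Nat.div_le_div_right hs))
    obtain ⟨M, u, h3, h4⟩ := col c h1 h2
    exact ⟨M, u, hs.trans h3, h4⟩

section

variable {n : ℕ} {L : Type} [Field L] [Algebra ℂ L] {BL : Place ℂ L → Prop}

theorem neg_iff_a1 [Algebra.EssFiniteType ℂ L] (hL : Algebra.trdeg ℂ L = (n : ℕ))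
    (h : LogGenusZero L n BL → A1Dominated n L BL) :
    [LogGenusZero L n BL, ¬ KodGe ℂ L n BL 0, ¬ Psef ℂ L n BL, IsA1Uniruled ℂ L n BL,
      A1Dominated n L BL].TFAE := by
  tfae_have 1 → 5 := h
  tfae_have 5 → 4 := fun h => (of_a1 hL h).2
  tfae_have 5 → 3 := fun h => (of_a1 hL h).1
  tfae_have 3 → 2 := fun h h' => h (psef_of_kodGe h')
  tfae_have 4 → 2 := by
    intro h hk
    have h1 := Pool.Agent.Y199.NN.neg_of_a1 hL h
    obtain ⟨M, hM, ω, hω, D, hD, -⟩ := hk
    exact hD (h1 M hM (ω 0) (hω 0).1 (fun v hv hBv => (hω 0).2.2 v hv hBv)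
      (fun v hv _ => (hω 0).2.1 v hv) D)
  tfae_have 2 → 1 := by
    intro h ω hω D
    by_contra hne
    exact h ⟨1, one_pos, fun _ => ω, fun _ => hω, D, hne, algebraicIndependent_empty_type⟩
  tfae_finish

theorem not_lgt_of_not_psef (h : ¬ Psef ℂ L n BL) : ¬ LogGeneralType ℂ L n BL := by
  rintro ⟨-, M, hM, ω, hω, h1, h2, D, hD, -⟩
  exact h (psef_of_kodGe ⟨M, hM, fun _ => ω 0, fun _ => ⟨hω 0,
    fun P hP => h1 P hP 0, fun P hP hBP => h2 P hP hBP 0⟩, D, hD,
    algebraicIndependent_empty_type⟩)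

end

section

variable {n : ℕ} {K : Type} [Field K] [Algebra ℂ K] [Algebra.EssFiniteType ℂ K]
  {B : Place ℂ K → Prop} (L : Type) [Field L] [Algebra ℂ L] [Algebra L K] [IsScalarTower ℂ L K]
  [FiniteDimensional L K] {BL : Place ℂ L → Prop}

theorem open_tfae_one (hn : 1 ≤ n) (hK : Algebra.trdeg ℂ K = (n : ℕ))
    (hB : ∀ (P : Place ℂ L) (Q : Place ℂ K) (e : ℕ), Over Q P e → (BL P ↔ B Q))
    (h : OpenTower n (fun E _ _ BE => A1Dominated n E BE) K B (Module.finrank L K)) :
    [LogGenusZero L n BL, ¬ KodGe ℂ L n BL 0, ¬ Psef ℂ L n BL, IsA1Uniruled ℂ L n BL,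
      A1Dominated n L BL].TFAE := by
  have hess : Algebra.EssFiniteType ℂ L := Pool.Agent.TH466.QG.ess_below (K := K)
  exact neg_iff_a1 (Pool.Agent.Y184.NT.trdeg_below (K := K) hK)
    ((tower_aux hn (descends_a1 n) h hK L BL hB).1 rfl)

theorem open_tfae_two (hn : 1 ≤ n) (hK : Algebra.trdeg ℂ K = (n : ℕ))
    (hB : ∀ (P : Place ℂ L) (Q : Place ℂ K) (e : ℕ), Over Q P e → (BL P ↔ B Q))
    (h : OpenTower n (fun E _ _ BE => A1Dominated n E BE) K B (2 * Module.finrank L K)) :
    [LogGenusZero L n BL, ¬ KodGe ℂ L n BL 0, ¬ Psef ℂ L n BL, ¬ LogGeneralType ℂ L n BL,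
      IsA1Uniruled ℂ L n BL, A1Dominated n L BL].TFAE := by
  have h1 := open_tfae_one L hn hK hB (tower_mono h _ (by omega))
  have h2 := (tower_aux hn (descends_a1 n) h hK L BL hB).2 rfl
  tfae_have 1 ↔ 2 := h1.out 0 1
  tfae_have 1 ↔ 3 := h1.out 0 2
  tfae_have 1 ↔ 5 := h1.out 0 3
  tfae_have 1 ↔ 6 := h1.out 0 4
  tfae_have 4 → 6 := h2
  tfae_have 3 → 4 := not_lgt_of_not_psef
  tfae_finish

end

end Pool.Agent.R882.HO
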