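import Pool.Agent.R882.HYM
import Pool.Agent.R882.HP

/-!
Pseudo-geometrically hyperbolic projective varieties which are of general type or uniruled.
-/

set_option autoImplicit false
set_option linter.overlappingInstances false
set_option linter.unusedSectionVars false

open FF Pool.Agent.W602.GT
open Pool.Agent.W619.PQ (IsUniruled)
open Pool.Agent.W602.RG (PseudoGeomHyp)

namespace Pool.Agent.R882.HY

variable {L : Type} [Field L] [Algebra ℂ L] {n M : ℕ} {x : Fin (M + 1) → L}

/-- the consequences of the dichotomy -/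
theorem pointed_of_dichotomy (hL : Algebra.trdeg ℂ L = n)
    (hd : GeneralType ℂ L n ∨ IsUniruled ℂ L n) (hx : x ≠ 0) (hgen : coords ℂ x = ⊤) :
    (GeneralType ℂ L n ↔ ¬ IsUniruled ℂ L n) ∧
    (PseudoGeomHyp ℂ x → GeneralType ℂ L n) ∧
    (PseudoBounded ℂ x → GeneralType ℂ L n) := by
  refine ⟨(of_dichotomy hL hd hx hgen).1, fun h => ?_, fun h => ?_⟩
  · rcases hd with hg | hU
    · exact hg
    · exact absurd h (not_geom fun _ hG hGx => rat_of_uniruled hL hU hx hgen hG hGx)
  · rcases hd with hg | hU
    · exact hg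
    · exact absurd h (not_bdd fun _ hG hGx => rat_of_uniruled hL hU hx hgen hG hGx)

end Pool.Agent.R882.HY
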