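import Pool.Agent.R882.HTM

/-!
Towers with both kinds of steps, over a base with a given property, with their total degree: the
images of small degree of geometric genus zero are images of the base.
-/

set_option autoImplicit false
set_option linter.overlappingInstances false
set_option linter.unusedSectionVars false
set_option maxHeartbeats 4000000
set_option synthInstance.maxHeartbeats 400000

open FF Module MvPolynomial Pool.Agent Pool.Agent.W602.GT
open Pool.Agent.W619.PQ (IsUniruled)
open Pool.Agent.W619.TW (IsUnirational)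
open Pool.Agent.R882.HT (HasColumns GenusZero Nondegenerate IsTorusPoint)
open Pool.Agent.R882.HL (IsSmooth IsGenericPoint)

namespace Pool.Agent.R882.HQ

/-- The variety of dimension `n` with the function field `K` is rational: `K` is isomorphic to the
field of rational functions in `n` variables. -/
def IsRational (K : Type) [Field K] [Algebra ℂ K] (n : ℕ) : Prop :=
  Nonempty (K ≃ₐ[ℂ] FractionRing (MvPolynomial (Fin n) ℂ))

/-- `K` is the function field of the first variety of a tower of varieties of dimension `n`, for the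
number `s` and of total degree `B`, over a variety with the property `Base`: either `K` has the
property `Base`, and `B = 1`, or

* `torus`: `K` is the function field of a component, with generic point `x`, of a nondegenerate
  complete intersection in a torus with columns for `s`, or
* `lines`: `K` is the function field of a component, with generic point `x`, of a smooth complete
  intersection of hypersurfaces of multidegrees `d k` in a product of projective lines, with
  canonical divisor `O(m i)`, `s ≤ m i + 1` for all `i ≠ i0`,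

and the subfield generated by the monomials `t l = x ^ (w l)`, where `K = ℂ(t)(x ^ v)`, or by the
coordinates `x i`, `i ≠ i0`, over which `K` has degree `b`, is the function field of the first variety
of a tower for `s / b` of total degree `B / b`. -/
inductive MixedTower (n : ℕ) (Base : ∀ (K : Type) [Field K] [Algebra ℂ K], Prop) :
    ∀ (K : Type) [Field K] [Algebra ℂ K], ℕ → ℕ → Prop
  | base {K : Type} [Field K] [Algebra ℂ K] {s : ℕ} (h : Base K) : MixedTower n Base K s 1
  | torus {K : Type} [Field K] [Algebra ℂ K] {s q N B : ℕ} (f : Fin q → (Fin (n + q) → ℤ) →₀ ℂ)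
      (nondeg : Nondegenerate f) (x : Fin (n + q) → K) (point : IsTorusPoint f x)
      (v : Fin (n + q) → ℤ) (w : Fin N → Fin (n + q) → ℤ) (t : Fin N → K)
      (mono : ∀ l, t l = R885.mono x (w l))
      (fin : FiniteDimensional (IntermediateField.adjoin ℂ (Set.range t)) K)
      (prim : IntermediateField.adjoin (IntermediateField.adjoin ℂ (Set.range t))
        {R885.mono x v} = ⊤)
      (col : HasColumns f v w
        (Module.finrank (IntermediateField.adjoin ℂ (Set.range t)) K) s)
      (below : MixedTower n Base (IntermediateField.adjoin ℂ (Set.range t))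
        (s / Module.finrank (IntermediateField.adjoin ℂ (Set.range t)) K) B) :
      MixedTower n Base K s (B * Module.finrank (IntermediateField.adjoin ℂ (Set.range t)) K)
  | lines {K : Type} [Field K] [Algebra ℂ K] {s q B : ℕ} (F : Fin q → MvPolynomial (Fin (n + q)) ℂ)
      (d : Fin q → Fin (n + q) → ℕ) (deg : ∀ k i, (F k).degreeOf i ≤ d k i)
      (m : Fin (n + q) → ℕ) (canonical : ∀ i, ∑ k, d k i = m i + 2) (smooth : IsSmooth d F)
      (x : Fin (n + q) → K) (point : IsGenericPoint n F x) (i0 : Fin (n + q))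
      (positive : ∀ i, i ≠ i0 → s ≤ m i + 1)
      (below : MixedTower n Base (IntermediateField.adjoin ℂ (x '' {i0}ᶜ))
        (s / Module.finrank (IntermediateField.adjoin ℂ (x '' {i0}ᶜ)) K) B) :
      MixedTower n Base K s (B * Module.finrank (IntermediateField.adjoin ℂ (x '' {i0}ᶜ)) K)

/-- `L` is a subfield of finite index of a field with the property `Base`, and the degree of `K` over
`L` is `B` times this index. -/
def Factors (Base : ∀ (K : Type) [Field K] [Algebra ℂ K], Prop) (L : Type) [Field L] [Algebra ℂ L]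
    (r B : ℕ) : Prop :=
  ∃ (E : Type) (_ : Field E) (_ : Algebra ℂ E) (_ : Algebra L E) (_ : IsScalarTower ℂ L E),
    FiniteDimensional L E ∧ Base E ∧ r = Module.finrank L E * B

theorem mixed_aux {n : ℕ} (hn : 1 ≤ n) {Base : ∀ (K : Type) [Field K] [Algebra ℂ K], Prop}
    {K : Type} [i1 : Field K] [i2 : Algebra ℂ K] {s B : ℕ}
    (h : MixedTower n Base K s B) : Algebra.trdeg ℂ K = (n : ℕ) →
    ∀ (L : Type) [Field L] [Algebra ℂ L] [Algebra L K] [IsScalarTower ℂ L K]
      [FiniteDimensional L K],
      s = Module.finrank L K → GenusZero L n → Factors Base L (Module.finrank L K) B := by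
  induction h with
  | @base K j1 j2 s h =>
    intro _ L _ _ j3 j4 j5 _ _
    exact ⟨K, j1, j2, j3, j4, j5, h, (mul_one _).symm⟩
  | @torus K _ _ s q N B f nondeg x point v w t mono fin prim col below ih =>
    intro hK L _ _ _ _ _ hs hg
    obtain ⟨hbase, hadj, hpos⟩ := Pool.Agent.R882.LT.col_positive nondeg point.1 point.2.1
      point.2.2 hK mono prim
    obtain ⟨h1, -⟩ := Pool.Agent.R882.Over.factors_step hn hbase L
    have hfac : Pool.Agent.R882.Over.FactorsThrough L (Fin.cons 1 t : Fin (N + 1) → K) →
        ∀ g : L, algebraMap L K g ∈ IntermediateField.adjoin ℂ (Set.range t) := by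
      unfold Pool.Agent.R882.Over.FactorsThrough
      rw [hadj]
      exact id
    have hK' : Algebra.trdeg ℂ (IntermediateField.adjoin ℂ (Set.range t)) = (n : ℕ) :=
      Pool.Agent.Y184.NT.trdeg_below (K := K) hK
    have hb : 0 < Module.finrank (IntermediateField.adjoin ℂ (Set.range t)) K :=
      Module.finrank_pos
    have h3 := hfac (h1 (hs ▸ hpos s col) hg)
    obtain ⟨j1, j2, j3, hdeg⟩ := Pool.Agent.R882.LT.factor_alg (N := 0) L h3
    obtain ⟨E, k1, k2, k3, k4, k5, hB, hE⟩ := ih hK' L (by
      rw [hs, hdeg, Nat.mul_div_cancel _ hb]) hg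
    exact ⟨E, k1, k2, k3, k4, k5, hB, by rw [hdeg, hE, mul_assoc]⟩
  | @lines K _ _ s q B F d deg m canonical smooth x point i0 positive below ih =>
    intro hK L _ _ _ _ _ hs hg
    have hr : 0 < Module.finrank L K := Module.finrank_pos
    obtain ⟨hfin, N, t, ht, hb, hp⟩ := Pool.Agent.R882.HL.lines_step hn (by simp) canonical
      positive deg smooth point (s := s) (by omega)
    obtain ⟨h1, -⟩ := Pool.Agent.R882.Over.factors_step hn hb L
    have h3 : ∀ g : L, algebraMap L K g ∈ IntermediateField.adjoin ℂ (x '' {i0}ᶜ) := by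
      intro g
      rw [← ht]
      exact h1 (hs ▸ hp) hg g
    obtain ⟨j1, j2, j3, hdeg⟩ := Pool.Agent.R882.LT.factor_alg (N := 0) L h3
    have hb' : 0 < Module.finrank (IntermediateField.adjoin ℂ (x '' {i0}ᶜ)) K :=
      Module.finrank_pos
    obtain ⟨E, k1, k2, k3, k4, k5, hB, hE⟩ := ih (Pool.Agent.Y184.NT.trdeg_below (K := K) hK) L
      (by rw [hs, hdeg, Nat.mul_div_cancel _ hb']) hg
    exact ⟨E, k1, k2, k3, k4, k5, hB, by rw [hdeg, hE, mul_assoc]⟩

open scoped IntermediateField.algebraAdjoinAdjoin in
/-- the field of rational functions is ruled -/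
theorem uniruled_of_unirational {n : ℕ} (hn : 1 ≤ n) {L : Type} [Field L] [Algebra ℂ L]
    (h : IsUnirational ℂ L n) : IsUniruled ℂ L n := by
  classical
  obtain ⟨φ⟩ := h
  let R := FractionRing (MvPolynomial (Fin n) ℂ)
  let i1 : Algebra L R := φ.toRingHom.toAlgebra
  have i2 : IsScalarTower ℂ L R := IsScalarTower.of_algebraMap_eq fun a => (φ.commutes a).symm
  have hal : Algebra.IsAlgebraic (MvPolynomial (Fin n) ℂ) R :=
    IsLocalization.isAlgebraic _ (nonZeroDivisors (MvPolynomial (Fin n) ℂ))
  have hX : IsTranscendenceBasis ℂ (fun i : Fin n => algebraMap (MvPolynomial (Fin n) ℂ) R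
      (X i)) := (IsTranscendenceBasis.mvPolynomial (Fin n) ℂ).algebraMap_comp
  have hgen : IntermediateField.adjoin ℂ (Set.range fun i : Fin n =>
      algebraMap (MvPolynomial (Fin n) ℂ) R (X i)) = ⊤ := by
    rw [eq_top_iff]
    intro g _
    obtain ⟨a, b, hb, rfl⟩ := IsFractionRing.div_surjective (A := MvPolynomial (Fin n) ℂ) g
    have h1 : ∀ p : MvPolynomial (Fin n) ℂ, algebraMap (MvPolynomial (Fin n) ℂ) R p ∈
        IntermediateField.adjoin ℂ (Set.range fun i : Fin n =>
          algebraMap (MvPolynomial (Fin n) ℂ) R (X i)) := by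
      intro p
      induction p using MvPolynomial.induction_on with
      | C a =>
        have h2 : algebraMap (MvPolynomial (Fin n) ℂ) R (C a) = algebraMap ℂ R a := rfl
        rw [h2]
        exact IntermediateField.algebraMap_mem _ a
      | add p q hp hq =>
        rw [map_add]
        exact add_mem hp hq
      | mul_X p i hp =>
        rw [map_mul]
        exact mul_mem hp (IntermediateField.subset_adjoin ℂ _ ⟨i, rfl⟩)
    exact div_mem (h1 a) (h1 b)
  have hess : Algebra.EssFiniteType ℂ R := by
    rw [← IntermediateField.fg_top_iff, ← hgen]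
    exact ⟨Finset.univ.image fun i : Fin n => algebraMap (MvPolynomial (Fin n) ℂ) R (X i), by
      rw [Finset.coe_image, Finset.coe_univ, Set.image_univ]⟩
  have htr : Algebra.trdeg ℂ R = (n : ℕ) := by
    rw [← hX.cardinalMk_eq_trdeg]
    simp
  have hR : Ruled ℂ R := by
    let i0 : Fin n := ⟨0, hn⟩
    refine ⟨IntermediateField.adjoin ℂ ((fun i : Fin n => algebraMap (MvPolynomial (Fin n) ℂ) R
      (X i)) '' {i0}ᶜ), algebraMap (MvPolynomial (Fin n) ℂ) R (X i0), ?_,
      Pool.Agent.R882.CI.adjoin_top hgen fun j hj =>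
        IntermediateField.subset_adjoin ℂ _ ⟨j, hj, rfl⟩⟩
    intro halg
    have h1 := hX.1.transcendental_adjoin (s := {i0}ᶜ) (i := i0) (by simp)
    apply h1
    exact (IsFractionRing.isAlgebraic_iff (Algebra.adjoin ℂ ((fun i : Fin n =>
      algebraMap (MvPolynomial (Fin n) ℂ) R (X i)) '' {i0}ᶜ)) (IntermediateField.adjoin ℂ
        ((fun i : Fin n => algebraMap (MvPolynomial (Fin n) ℂ) R (X i)) '' {i0}ᶜ)) R).2 halg
  exact Pool.Agent.TH466.QG.uniruled_below (F := L) (K := R) htr hR

/-- a subfield of index less than two -/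
theorem factors_iso {Base : ∀ (K : Type) [Field K] [Algebra ℂ K], Prop} {L : Type} [Field L]
    [Algebra ℂ L] {r B : ℕ} (h : Factors Base L r B) (hr : r < 2 * B) :
    ∃ (E : Type) (_ : Field E) (_ : Algebra ℂ E), Base E ∧ Nonempty (L ≃ₐ[ℂ] E) := by
  obtain ⟨E, k1, k2, k3, k4, k5, hB, hE⟩ := h
  have h1 : 0 < Module.finrank L E := Module.finrank_pos
  have h2 : Module.finrank L E = 1 := by
    by_contra hne
    have h3 : 2 ≤ Module.finrank L E := by omega
    have h4 : 2 * B ≤ Module.finrank L E * B := Nat.mul_le_mul_right _ h3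
    omega
  have h5 : Function.Bijective (algebraMap L E) := by
    refine ⟨(algebraMap L E).injective, ?_⟩
    have h6 : (⊥ : Subalgebra L E) = ⊤ := Subalgebra.bot_eq_top_of_finrank_eq_one h2
    intro e
    have h7 : e ∈ (⊥ : Subalgebra L E) := by
      rw [h6]
      trivial
    exact Algebra.mem_bot.1 h7
  exact ⟨E, k1, k2, hB, ⟨AlgEquiv.ofBijective (IsScalarTower.toAlgHom ℂ L E) h5⟩⟩

/-- **Rationality and unirationality of the images of towers over rational varieties.** -/
theorem rational_towers {n : ℕ} (hn : 1 ≤ n) {K : Type} [Field K] [Algebra ℂ K]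
    [Algebra.EssFiniteType ℂ K] (hK : Algebra.trdeg ℂ K = (n : ℕ))
    (L : Type) [Field L] [Algebra ℂ L] [Algebra L K] [IsScalarTower ℂ L K]
    [FiniteDimensional L K] {B : ℕ}
    (h : MixedTower n (fun E _ _ => IsRational E n) K (Module.finrank L K) B) :
    [GenusZero L n, ¬ KodGe ℂ L n (fun _ => False) 0, ¬ Psef ℂ L n (fun _ => False),
      IsUniruled ℂ L n, IsUnirational ℂ L n].TFAE ∧
    (Module.finrank L K < 2 * B → (IsRational L n ↔ GenusZero L n)) := by
  have hess : Algebra.EssFiniteType ℂ L := Pool.Agent.TH466.QG.ess_below (K := K)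
  have hL : Algebra.trdeg ℂ L = (n : ℕ) := Pool.Agent.Y184.NT.trdeg_below (K := K) hK
  have h1 : GenusZero L n → IsUnirational ℂ L n := by
    intro hg
    obtain ⟨E, k1, k2, k3, k4, k5, ⟨e⟩, hE⟩ := mixed_aux hn h hK L rfl hg
    exact ⟨(e : E →ₐ[ℂ] _).comp (IsScalarTower.toAlgHom ℂ L E)⟩
  have h2 : IsUnirational ℂ L n → IsUniruled ℂ L n := uniruled_of_unirational hn
  have h3 := (Pool.Agent.R882.HTM.tfae_of (L := L) hL).1 fun hg => h2 (h1 hg)
  have h40 : GenusZero L n ↔ IsUniruled ℂ L n := h3.out 0 3
  have h41 : GenusZero L n ↔ ¬ KodGe ℂ L n (fun _ => False) 0 := h3.out 0 1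
  have h42 : GenusZero L n ↔ ¬ Psef ℂ L n (fun _ => False) := h3.out 0 2
  refine ⟨?_, fun hr => ⟨fun hR => ?_, fun hg => ?_⟩⟩
  · tfae_have 1 ↔ 2 := h41
    tfae_have 1 ↔ 3 := h42
    tfae_have 1 ↔ 4 := h40
    tfae_have 1 → 5 := h1
    tfae_have 5 → 4 := h2
    tfae_finish
  · obtain ⟨e⟩ := hR
    exact h40.2 (h2 ⟨(e : L →ₐ[ℂ] _)⟩)
  · obtain ⟨E, k1, k2, ⟨e⟩, ⟨e'⟩⟩ := factors_iso (mixed_aux hn h hK L rfl hg) hr
    exact ⟨e'.trans e⟩

end Pool.Agent.R882.HQ
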