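import Pool.Agent.R882.CTow
import Pool.Agent.R882.CDet

/-!
Towers of nondegenerate complete intersections in tori, and towers of smooth complete intersections
in products of projective lines, over a base with a given property: the images of small degree are
of general type or have the same property.
-/

set_option autoImplicit false
set_option linter.overlappingInstances false
set_option linter.unusedSectionVars false
set_option linter.unusedDecidableInType false
set_option linter.unusedFintypeInType false
set_option maxHeartbeats 4000000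
set_option synthInstance.maxHeartbeats 400000

open FF Module Pool.Agent Pool.Agent.W602.GT Pool.Agent.R885
open Pool.Agent.W619.PQ (IsUniruled)

namespace Pool.Agent.R882.HT

/-- The Laurent polynomials `f l` are nondegenerate: the initial parts `ini v (f l)` have linearly
independent logarithmic gradients at all their common zeros in the torus. -/
def Nondegenerate {r q : ℕ} (f : Fin q → (Fin r → ℤ) →₀ ℂ) : Prop :=
  ∀ v : Fin r → ℤ, ∀ c : Fin r → ℂ, (∀ i, c i ≠ 0) → (∀ l, ev c (ini v (f l)) = 0) →
    LinearIndependent ℂ fun l => gr c (ini v (f l))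

/-- `x` is the generic point of a subvariety, with function field `K`, of the set of common zeros
of the `f l` in the torus `(ℂ^*) ^ r`. -/
def IsTorusPoint {K : Type} [Field K] [Algebra ℂ K] {r q : ℕ} (f : Fin q → (Fin r → ℤ) →₀ ℂ)
    (x : Fin r → K) : Prop :=
  (∀ i, x i ≠ 0) ∧ (∀ l, ev x (f l) = 0) ∧ IntermediateField.adjoin ℂ (Set.range x) = ⊤

/-- The integral vector `u` is in the Fine interior of the Minkowski sum of the Newton polytopes of
the `f l`. -/
def InFine {r q : ℕ} (f : Fin q → (Fin r → ℤ) →₀ ℂ) (u : Fin r → ℤ) : Prop :=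
  ∀ v : Fin r → ℤ, v ≠ 0 → 1 + ∑ l, mn v (f l) ≤ u ⬝ᵥ v

/-- For all divisors `c < b` of `b` there is a column of length `c` and of width `M`,
`s ≤ c (M + 1)`, in the Fine interior, in the direction `v`. -/
def HasColumns {m q N : ℕ} (f : Fin q → (Fin m → ℤ) →₀ ℂ) (v : Fin m → ℤ)
    (w : Fin N → Fin m → ℤ) (b s : ℕ) : Prop :=
  ∀ c : ℕ, c ∣ b → c < b → ∃ (M : ℕ) (u : Fin m → ℤ), s ≤ c * (M + 1) ∧
    ∀ j < c, InFine f (u + (j : ℤ) • v) ∧ ∀ l, InFine f (u + (j : ℤ) • v + (M : ℤ) • w l)

/-- `K` is the function field of the first variety of a tower of varieties of dimension `n` with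
columns for `s` over a variety with the property `Base`: either `K` has the property `Base`, or it
is the function field of a component, with generic point `x`, of a nondegenerate complete
intersection in a torus with columns for `s`, and the subfield `ℂ(t)`, generated by the monomials
`t l = x ^ (w l)`, with `K = ℂ(t)(x ^ v)` of degree `b` over `ℂ(t)`, is the function field of the
first variety of a tower with columns for `s / b`. -/
inductive Tower (n : ℕ) (Base : ∀ (K : Type) [Field K] [Algebra ℂ K], Prop) :
    ∀ (K : Type) [Field K] [Algebra ℂ K], ℕ → Prop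
  | base {K : Type} [Field K] [Algebra ℂ K] {s : ℕ} (h : Base K) : Tower n Base K s
  | cover {K : Type} [Field K] [Algebra ℂ K] {s q N : ℕ} (f : Fin q → (Fin (n + q) → ℤ) →₀ ℂ)
      (nondeg : Nondegenerate f) (x : Fin (n + q) → K) (point : IsTorusPoint f x)
      (v : Fin (n + q) → ℤ) (w : Fin N → Fin (n + q) → ℤ) (t : Fin N → K)
      (mono : ∀ l, t l = R885.mono x (w l))
      (fin : FiniteDimensional (IntermediateField.adjoin ℂ (Set.range t)) K)
      (prim : IntermediateField.adjoin (IntermediateField.adjoin ℂ (Set.range t))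
        {R885.mono x v} = ⊤)
      (col : HasColumns f v w
        (Module.finrank (IntermediateField.adjoin ℂ (Set.range t)) K) s)
      (below : Tower n Base (IntermediateField.adjoin ℂ (Set.range t))
        (s / Module.finrank (IntermediateField.adjoin ℂ (Set.range t)) K)) :
      Tower n Base K s

/-- The geometric genus of the variety with the function field `L` is zero. -/
def GenusZero (L : Type) [Field L] [Algebra ℂ L] (n : ℕ) : Prop :=
  ∀ ω : (Fin n → Derivation ℂ L L) → L, IsPluri 1 ω →
    (∀ P : Place ℂ L, Divisorial n P → RegAt P ω) → ∀ D, ω D = 0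

/-- `Base` passes to the varieties which are dominated with finite degree. -/
def Descends (Base : ∀ (K : Type) [Field K] [Algebra ℂ K], Prop) : Prop :=
  ∀ (K : Type) [Field K] [Algebra ℂ K] (L : Type) [Field L] [Algebra ℂ L] [Algebra L K]
    [IsScalarTower ℂ L K] [FiniteDimensional L K], Base K → Base L

theorem descends_uniruled (n : ℕ) : Descends (fun K _ _ => IsUniruled ℂ K n) := by
  intro K _ _ L _ _ _ _ _ h
  obtain ⟨M, i1, i2, h1, h2, ⟨φ⟩⟩ := h
  exact ⟨M, i1, i2, h1, h2, ⟨φ.comp (IsScalarTower.toAlgHom ℂ L K)⟩⟩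

theorem descends_unirational (n : ℕ) :
    Descends (fun K _ _ => Pool.Agent.W619.TW.IsUnirational ℂ K n) := by
  intro K _ _ L _ _ _ _ _ h
  obtain ⟨φ⟩ := h
  exact ⟨φ.comp (IsScalarTower.toAlgHom ℂ L K)⟩

/-- **Images of towers in tori.** -/
theorem tower_aux {n : ℕ} (hn : 1 ≤ n) {Base : ∀ (K : Type) [Field K] [Algebra ℂ K], Prop}
    (hB : Descends Base) {K : Type} [i1 : Field K] [i2 : Algebra ℂ K] {s : ℕ}
    (h : Tower n Base K s) : Algebra.trdeg ℂ K = (n : ℕ) →
    ∀ (L : Type) [Field L] [Algebra ℂ L] [Algebra L K] [IsScalarTower ℂ L K]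
      [FiniteDimensional L K],
      (s = Module.finrank L K → GenusZero L n → Base L) ∧
      (s = 2 * Module.finrank L K → ¬ GeneralType ℂ L n → Base L) := by
  induction h with
  | @base K _ _ s h =>
    intro _ L _ _ _ _ _
    exact ⟨fun _ _ => hB K L h, fun _ _ => hB K L h⟩
  | @cover K _ _ s q N f nondeg x point v w t mono fin prim col below ih =>
    intro hK L _ _ _ _ _
    obtain ⟨hbase, hadj, hpos⟩ := Pool.Agent.R882.LT.col_positive nondeg point.1 point.2.1
      point.2.2 hK mono prim
    obtain ⟨h1, h2⟩ := Pool.Agent.R882.Over.factors_step hn hbase L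
    have hfac : Pool.Agent.R882.Over.FactorsThrough L (Fin.cons 1 t : Fin (N + 1) → K) →
        ∀ g : L, algebraMap L K g ∈ IntermediateField.adjoin ℂ (Set.range t) := by
      unfold Pool.Agent.R882.Over.FactorsThrough
      rw [hadj]
      exact id
    have hK' : Algebra.trdeg ℂ (IntermediateField.adjoin ℂ (Set.range t)) = (n : ℕ) :=
      Pool.Agent.Y184.NT.trdeg_below (K := K) hK
    have hb : 0 < Module.finrank (IntermediateField.adjoin ℂ (Set.range t)) K :=
      Module.finrank_pos
    refine ⟨fun hs hg => ?_, fun hs hg => ?_⟩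
    · have h3 := hfac (h1 (hs ▸ hpos s col) hg)
      obtain ⟨j1, j2, j3, hdeg⟩ := Pool.Agent.R882.LT.factor_alg (N := 0) L h3
      refine (ih hK' L).1 ?_ hg
      rw [hs, hdeg, Nat.mul_div_cancel _ hb]
    · have h3 := hfac (h2 (hs ▸ hpos s col) hg)
      obtain ⟨j1, j2, j3, hdeg⟩ := Pool.Agent.R882.LT.factor_alg (N := 0) L h3
      refine (ih hK' L).2 ?_ hg
      rw [hs, hdeg, ← mul_assoc, Nat.mul_div_cancel _ hb]

/-- The dichotomy for the images of towers: general type, or the property of the base. -/
theorem dichotomy {n : ℕ} (hn : 1 ≤ n) {Base : ∀ (K : Type) [Field K] [Algebra ℂ K], Prop}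
    (hB : Descends Base) {K : Type} [Field K] [Algebra ℂ K] (hK : Algebra.trdeg ℂ K = (n : ℕ))
    (L : Type) [Field L] [Algebra ℂ L] [Algebra L K] [IsScalarTower ℂ L K]
    [FiniteDimensional L K] (h : Tower n Base K (2 * Module.finrank L K)) :
    GeneralType ℂ L n ∨ Base L := by
  by_cases hg : GeneralType ℂ L n
  · exact Or.inl hg
  · exact Or.inr ((tower_aux hn hB h hK L).2 rfl hg)

end Pool.Agent.R882.HT
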