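import Pool.Agent.R882.UB

/-!
Fibrations of uniruled varieties, in terms of the Kodaira dimensions.
-/

set_option autoImplicit false
set_option linter.overlappingInstances false
set_option linter.unusedSectionVars false

open FF Pool.Agent.W602.GT
open Pool.Agent.W619.PQ (IsUniruled)

namespace Pool.Agent.R882.UA

/-- monotonicity -/
theorem kod_mono {k K : Type} [Field k] [Field K] [Algebra k K] {w h h' : ℕ}
    {Bd : Place k K → Prop} (hk : KodGe k K w Bd h) (hle : h' ≤ h) : KodGe k K w Bd h' := by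
  obtain ⟨N, hN, ω, h1, D, hD, h2⟩ := hk
  refine ⟨N, hN, fun j => ω (Fin.castLE (by omega) j), fun j => h1 _, D, hD, ?_⟩
  exact h2.comp (Fin.castLE hle) (Fin.castLE_injective hle)

/-- the Kodaira dimension is at most the dimension -/
theorem kod_le_dim {k K : Type} [Field k] [Field K] [Algebra k K] {w h : ℕ}
    {Bd : Place k K → Prop} (hw : Algebra.trdeg k K = w) (hk : KodGe k K w Bd h) : h ≤ w := by
  obtain ⟨N, hN, ω, h1, D, hD, h2⟩ := hk
  have h3 := h2.cardinalMk_le_trdeg
  rw [hw, Cardinal.mk_fin] at h3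
  exact_mod_cast h3

/-- If the total space of a fibration is uniruled then the base has no pluricanonical forms or the
canonical divisor of the generic fibre is not pseudo-effective. -/
theorem fib_not {L : Type} [Field L] [Algebra ℂ L] [Algebra.EssFiniteType ℂ L]
    {n d f : ℕ} (hn : Algebra.trdeg ℂ L = n) (hU : IsUniruled ℂ L n)
    (E : IntermediateField ℂ L) [Algebra.EssFiniteType ℂ E] (hd : Algebra.trdeg ℂ E = d)
    (hf : Algebra.trdeg E L = f) (hE : KodGe ℂ E d (fun _ => False) 0) :
    ¬ Psef E L f (fun _ => False) := by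
  obtain ⟨N, hN, ω, h1, D, hD, -⟩ := hE
  rintro ⟨S, hS⟩
  refine uniruled_fibration hn hU E hd hf hN (ω 0) (h1 0).1 (fun u hu => ?_) D hD
    ⟨S, fun N => ?_⟩
  · exact (h1 0).2.2 u hu id
  · obtain ⟨j, hj, η, ⟨h1, -, h3⟩, h4⟩ := hS N
    exact ⟨j, hj, η, ⟨h1, fun v hv hB D hD => h3 v hv hB D hD, fun v _ hB => absurd hB id⟩, h4⟩

end Pool.Agent.R882.UA
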