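import Pool.Agent.R882.HTM
import Pool.Agent.R882.UC

/-!
Fibrations whose total space is of general type or uniruled.
-/

set_option autoImplicit false
set_option linter.overlappingInstances false
set_option linter.unusedSectionVars false
set_option maxHeartbeats 4000000
set_option synthInstance.maxHeartbeats 400000

open FF Module Pool.Agent Pool.Agent.W602.GT Pool.Agent.W619.PL Pool.Agent.Y184.NT
open Pool.Agent.W619.PQ (IsUniruled)
open Pool.Agent.R882.HT (Tower HasColumns GenusZero descends_uniruled)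
open Pool.Agent.R882.HL (LinesTower)

namespace Pool.Agent.R882.HTF

/-- The Kodaira dimension of the varieties of dimension `n` with the function field `K` over the
field `k` is at least `h`: there are `N`-canonical forms, for some `N > 0`, regular at all prime
divisors, whose ratios contain `h` algebraically independent functions. -/
def KappaGe (k K : Type) [Field k] [Field K] [Algebra k K] (n h : ℕ) : Prop :=
  KodGe k K n (fun _ => False) h

/-- The canonical class of the varieties of dimension `n` with the function field `K` over the field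
`k` is pseudo-effective. -/
def IsPseudoEffective (k K : Type) [Field k] [Field K] [Algebra k K] (n : ℕ) : Prop :=
  Psef k K n (fun _ => False)

theorem kod_top_of_general {K : Type} [Field K] [Algebra ℂ K] {w : ℕ} (h : GeneralType ℂ K w) :
    KappaGe ℂ K w w := by
  obtain ⟨-, N, hN, ω, h1, h2, D, hD, hind⟩ := h
  exact ⟨N, hN, ω, fun j => ⟨h1 j, fun P hP D' hD' => h2 P hP j D' fun i =>
    Pool.Agent.TH466.QG.derReg_of_log (hD' i), fun P hP _ => h2 P hP j⟩, D, hD, hind⟩

/-- the two consequences for a fibration with total space `W` -/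
theorem fib_of {n d f' : ℕ} {L : Type} [Field L] [Algebra ℂ L] [Algebra.EssFiniteType ℂ L]
    (hL : Algebra.trdeg ℂ L = (n : ℕ)) (E : IntermediateField ℂ L) [Algebra.EssFiniteType ℂ E]
    (hd : Algebra.trdeg ℂ E = d) (hf' : Algebra.trdeg E L = f') (hY : KappaGe ℂ E d 0) :
    ((GenusZero L n → IsUniruled ℂ L n) → IsPseudoEffective E L f' →
      ¬ GenusZero L n ∧ KappaGe ℂ L n 0) ∧
    ((¬ GeneralType ℂ L n → IsUniruled ℂ L n) →
      (IsPseudoEffective E L f' → KappaGe ℂ L n n) ∧
      (∀ q : ℕ, KappaGe E L f' q → KappaGe ℂ L n (q + d)) ∧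
      ∀ p q : ℕ, KappaGe ℂ E d p → KappaGe E L f' q → KappaGe ℂ L n (p + q)) := by
  have hdf : d + f' = n := by
    have h3 := trdeg_add_eq ℂ E (A := L)
    rw [hd, hf', hL] at h3
    exact_mod_cast h3
  have hkey : IsPseudoEffective E L f' → ¬ IsUniruled ℂ L n := fun h4 h5 =>
    Pool.Agent.R882.UA.fib_not hL h5 E hd hf' hY h4
  refine ⟨fun h h4 => ?_, fun h => ?_⟩
  · have h1 : ¬ GenusZero L n := fun hg => hkey h4 (h hg)
    refine ⟨h1, ?_⟩
    by_contra hk
    apply h1
    intro ω hω hreg D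
    by_contra hne
    refine hk ⟨1, one_pos, fun _ => ω, fun _ => ⟨hω, fun P hP D' hD' => hreg P hP D' fun i =>
      Pool.Agent.TH466.QG.derReg_of_log (hD' i), fun P hP _ => hreg P hP⟩, D, hne,
      algebraicIndependent_empty_type⟩
  · have h1 : IsPseudoEffective E L f' → KappaGe ℂ L n n := fun h4 =>
      kod_top_of_general (not_not.1 fun hg => hkey h4 (h hg))
    have h2 : ∀ q : ℕ, KappaGe E L f' q → KappaGe ℂ L n (q + d) := by
      intro q hq
      have h4 := h1 (psef_of_kodGe (Pool.Agent.R882.UA.kod_mono hq (Nat.zero_le _)))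
      have hq' : q ≤ f' := Pool.Agent.R882.UA.kod_le_dim hf' hq
      exact Pool.Agent.R882.UA.kod_mono h4 (by omega)
    refine ⟨h1, h2, fun p q hp hq => ?_⟩
    have hp' : p ≤ d := Pool.Agent.R882.UA.kod_le_dim hd hp
    exact Pool.Agent.R882.UA.kod_mono (h2 q hq) (by omega)

section

variable {n : ℕ} (hn : 1 ≤ n) {K : Type} [Field K] [Algebra ℂ K] [Algebra.EssFiniteType ℂ K]
  (hK : Algebra.trdeg ℂ K = (n : ℕ)) (L : Type) [Field L] [Algebra ℂ L] [Algebra L K]
  [IsScalarTower ℂ L K] [FiniteDimensional L K]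

include hn hK

theorem tower_fib (E : IntermediateField ℂ L) [Algebra.EssFiniteType ℂ E] {d f' : ℕ}
    (hd : Algebra.trdeg ℂ E = d) (hf' : Algebra.trdeg E L = f') (hY : KappaGe ℂ E d 0) :
    (Tower n (fun E _ _ => IsUniruled ℂ E n) K (Module.finrank L K) → IsPseudoEffective E L f' →
      ¬ GenusZero L n ∧ KappaGe ℂ L n 0) ∧
    (Tower n (fun E _ _ => IsUniruled ℂ E n) K (2 * Module.finrank L K) →
      (IsPseudoEffective E L f' → KappaGe ℂ L n n) ∧
      (∀ q : ℕ, KappaGe E L f' q → KappaGe ℂ L n (q + d)) ∧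
      ∀ p q : ℕ, KappaGe ℂ E d p → KappaGe E L f' q → KappaGe ℂ L n (p + q)) := by
  have hess : Algebra.EssFiniteType ℂ L := Pool.Agent.TH466.QG.ess_below (K := K)
  have hL : Algebra.trdeg ℂ L = (n : ℕ) := Pool.Agent.Y184.NT.trdeg_below (K := K) hK
  obtain ⟨h1, h2⟩ := fib_of hL E hd hf' hY
  exact ⟨fun h => h1 ((Pool.Agent.R882.HT.tower_aux hn (descends_uniruled n) h hK L).1 rfl),
    fun h => h2 ((Pool.Agent.R882.HT.tower_aux hn (descends_uniruled n) h hK L).2 rfl)⟩

theorem lines_fib (E : IntermediateField ℂ L) [Algebra.EssFiniteType ℂ E] {d f' : ℕ}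
    (hd : Algebra.trdeg ℂ E = d) (hf' : Algebra.trdeg E L = f') (hY : KappaGe ℂ E d 0) :
    (LinesTower n (fun E _ _ => IsUniruled ℂ E n) K (Module.finrank L K) →
      IsPseudoEffective E L f' → ¬ GenusZero L n ∧ KappaGe ℂ L n 0) ∧
    (LinesTower n (fun E _ _ => IsUniruled ℂ E n) K (2 * Module.finrank L K) →
      (IsPseudoEffective E L f' → KappaGe ℂ L n n) ∧
      (∀ q : ℕ, KappaGe E L f' q → KappaGe ℂ L n (q + d)) ∧
      ∀ p q : ℕ, KappaGe ℂ E d p → KappaGe E L f' q → KappaGe ℂ L n (p + q)) := by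
  have hess : Algebra.EssFiniteType ℂ L := Pool.Agent.TH466.QG.ess_below (K := K)
  have hL : Algebra.trdeg ℂ L = (n : ℕ) := Pool.Agent.Y184.NT.trdeg_below (K := K) hK
  obtain ⟨h1, h2⟩ := fib_of hL E hd hf' hY
  exact ⟨fun h => h1 ((Pool.Agent.R882.HL.tower_aux hn (descends_uniruled n) h hK L).1 rfl),
    fun h => h2 ((Pool.Agent.R882.HL.tower_aux hn (descends_uniruled n) h hK L).2 rfl)⟩

end

end Pool.Agent.R882.HTF
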