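import Pool.Agent.R882.HL
import Pool.Agent.TH466.QG.Top

/-!
Images of towers over uniruled varieties: equivalent conditions.
-/

set_option autoImplicit false
set_option linter.overlappingInstances false
set_option linter.unusedSectionVars false
set_option maxHeartbeats 4000000
set_option synthInstance.maxHeartbeats 400000

open FF Module Pool.Agent Pool.Agent.W602.GT
open Pool.Agent.W619.PQ (IsUniruled)
open Pool.Agent.R882.HT (Tower HasColumns GenusZero descends_uniruled)
open Pool.Agent.R882.HL (LinesTower)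

namespace Pool.Agent.R882.HTM

theorem tower_mono {n : ℕ} {Base : ∀ (K : Type) [Field K] [Algebra ℂ K], Prop} {K : Type}
    [i1 : Field K] [i2 : Algebra ℂ K] {s : ℕ} (h : Tower n Base K s) :
    ∀ s' : ℕ, s' ≤ s → Tower n Base K s' := by
  induction h with
  | @base K _ _ s h => exact fun s' _ => Tower.base h
  | @cover K _ _ s q N f nondeg x point v w t mono fin prim col below ih =>
    intro s' hs
    refine Tower.cover f nondeg x point v w t mono fin prim (fun c h1 h2 => ?_)
      (ih _ (Nat.div_le_div_right hs))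
    obtain ⟨M, u, h3, h4⟩ := col c h1 h2
    exact ⟨M, u, hs.trans h3, h4⟩

theorem lines_mono {n : ℕ} {Base : ∀ (K : Type) [Field K] [Algebra ℂ K], Prop} {K : Type}
    [i1 : Field K] [i2 : Algebra ℂ K] {s : ℕ} (h : LinesTower n Base K s) :
    ∀ s' : ℕ, s' ≤ s → LinesTower n Base K s' := by
  induction h with
  | @base K _ _ s h => exact fun s' _ => LinesTower.base h
  | @cover K _ _ s q F d deg m canonical smooth x point i0 positive below ih =>
    intro s' hs
    exact LinesTower.cover F d deg m canonical smooth x point i0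
      (fun i hi => hs.trans (positive i hi)) (ih _ (Nat.div_le_div_right hs))

/-- the equivalences, for all varieties for which one of the implications holds -/
theorem tfae_of {n : ℕ} {L : Type} [Field L] [Algebra ℂ L] [Algebra.EssFiniteType ℂ L]
    (hL : Algebra.trdeg ℂ L = n) :
    ((GenusZero L n → IsUniruled ℂ L n) →
      [GenusZero L n, ¬ KodGe ℂ L n (fun _ => False) 0, ¬ Psef ℂ L n (fun _ => False),
        IsUniruled ℂ L n].TFAE) ∧
    ((GenusZero L n → IsUniruled ℂ L n) → (¬ GeneralType ℂ L n → IsUniruled ℂ L n) →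
      [GenusZero L n, ¬ KodGe ℂ L n (fun _ => False) 0, ¬ Psef ℂ L n (fun _ => False),
        ¬ GeneralType ℂ L n, IsUniruled ℂ L n].TFAE) := by
  have h43 : IsUniruled ℂ L n → ¬ Psef ℂ L n (fun _ => False) := by
    intro hU
    rw [Pool.Agent.TH466.QG.psef_iff n]
    exact (Pool.Agent.W619.Y.uniruled_neg n hL hU).1
  have h32 : ¬ Psef ℂ L n (fun _ => False) → ¬ KodGe ℂ L n (fun _ => False) 0 :=
    fun h h' => h (psef_of_kodGe h')
  have h21 : ¬ KodGe ℂ L n (fun _ => False) 0 → GenusZero L n := by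
    intro h ω hω hreg D
    by_contra hne
    refine h ⟨1, one_pos, fun _ => ω, fun _ => ⟨hω, fun P hP D' hD' => hreg P hP D' fun i =>
      Pool.Agent.TH466.QG.derReg_of_log (hD' i), fun P hP _ => hreg P hP⟩, D, hne,
      algebraicIndependent_empty_type⟩
  have h35 : ¬ Psef ℂ L n (fun _ => False) → ¬ GeneralType ℂ L n := fun h h' =>
    h (psef_of_kodGe (kod_of_general h'))
  refine ⟨fun h => ?_, fun h h' => ?_⟩
  · tfae_have 1 → 4 := h
    tfae_have 4 → 3 := h43
    tfae_have 3 → 2 := h32
    tfae_have 2 → 1 := h21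
    tfae_finish
  · tfae_have 1 → 5 := h
    tfae_have 5 → 3 := h43
    tfae_have 3 → 2 := h32
    tfae_have 2 → 1 := h21
    tfae_have 3 → 4 := h35
    tfae_have 4 → 5 := h'
    tfae_finish

/-- **Towers in tori.** -/
theorem tower_tfae {n : ℕ} (hn : 1 ≤ n) {K : Type} [Field K] [Algebra ℂ K]
    [Algebra.EssFiniteType ℂ K] (hK : Algebra.trdeg ℂ K = (n : ℕ))
    (L : Type) [Field L] [Algebra ℂ L] [Algebra L K] [IsScalarTower ℂ L K]
    [FiniteDimensional L K] :
    (Tower n (fun E _ _ => IsUniruled ℂ E n) K (Module.finrank L K) →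
      [GenusZero L n, ¬ KodGe ℂ L n (fun _ => False) 0, ¬ Psef ℂ L n (fun _ => False),
        IsUniruled ℂ L n].TFAE) ∧
    (Tower n (fun E _ _ => IsUniruled ℂ E n) K (2 * Module.finrank L K) →
      [GenusZero L n, ¬ KodGe ℂ L n (fun _ => False) 0, ¬ Psef ℂ L n (fun _ => False),
        ¬ GeneralType ℂ L n, IsUniruled ℂ L n].TFAE) := by
  have hess : Algebra.EssFiniteType ℂ L := Pool.Agent.TH466.QG.ess_below (K := K)
  have hL : Algebra.trdeg ℂ L = (n : ℕ) := Pool.Agent.Y184.NT.trdeg_below (K := K) hK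
  obtain ⟨h1, h2⟩ := tfae_of (L := L) hL
  refine ⟨fun h => h1 ((Pool.Agent.R882.HT.tower_aux hn (descends_uniruled n) h hK L).1 rfl),
    fun h => h2 ?_ ((Pool.Agent.R882.HT.tower_aux hn (descends_uniruled n) h hK L).2 rfl)⟩
  exact (Pool.Agent.R882.HT.tower_aux hn (descends_uniruled n)
    (tower_mono h _ (by omega)) hK L).1 rfl

/-- **Towers in products of projective lines.** -/
theorem lines_tfae {n : ℕ} (hn : 1 ≤ n) {K : Type} [Field K] [Algebra ℂ K]
    [Algebra.EssFiniteType ℂ K] (hK : Algebra.trdeg ℂ K = (n : ℕ))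
    (L : Type) [Field L] [Algebra ℂ L] [Algebra L K] [IsScalarTower ℂ L K]
    [FiniteDimensional L K] :
    (LinesTower n (fun E _ _ => IsUniruled ℂ E n) K (Module.finrank L K) →
      [GenusZero L n, ¬ KodGe ℂ L n (fun _ => False) 0, ¬ Psef ℂ L n (fun _ => False),
        IsUniruled ℂ L n].TFAE) ∧
    (LinesTower n (fun E _ _ => IsUniruled ℂ E n) K (2 * Module.finrank L K) →
      [GenusZero L n, ¬ KodGe ℂ L n (fun _ => False) 0, ¬ Psef ℂ L n (fun _ => False),
        ¬ GeneralType ℂ L n, IsUniruled ℂ L n].TFAE) := by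
  have hess : Algebra.EssFiniteType ℂ L := Pool.Agent.TH466.QG.ess_below (K := K)
  have hL : Algebra.trdeg ℂ L = (n : ℕ) := Pool.Agent.Y184.NT.trdeg_below (K := K) hK
  obtain ⟨h1, h2⟩ := tfae_of (L := L) hL
  refine ⟨fun h => h1 ((Pool.Agent.R882.HL.tower_aux hn (descends_uniruled n) h hK L).1 rfl),
    fun h => h2 ?_ ((Pool.Agent.R882.HL.tower_aux hn (descends_uniruled n) h hK L).2 rfl)⟩
  exact (Pool.Agent.R882.HL.tower_aux hn (descends_uniruled n)
    (lines_mono h _ (by omega)) hK L).1 rfl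

end Pool.Agent.R882.HTM
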