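import Pool.Agent.R882.UB
import Pool.Agent.R882.HR

/-!
Rational curves on uniruled projective varieties.
-/

set_option autoImplicit false
set_option linter.overlappingInstances false
set_option linter.unusedSectionVars false
set_option maxHeartbeats 4000000

open FF IntermediateField Polynomial Pool.Agent.W619.PL
  Pool.Agent.W619.TW Pool.Agent.W603.LV Pool.Agent.W619.Y Pool.Agent.W721.PG.RULED
open Pool.Agent.W602.GT (Ruled coords IsForm val VarPts)
open Pool.Agent.W619.PQ (IsUniruled)

namespace Pool.Agent.R882.HY

/-- A uniruled variety is dominated, with finite degree, by a ruled variety. -/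
theorem ruled_above {k : Type} [Field k] [IsAlgClosed k] [CharZero k] {L : Type} [Field L] [Algebra k L]
    [Algebra.EssFiniteType k L] {n : ℕ} (hn : Algebra.trdeg k L = n) (hU : IsUniruled k L n) :
    ∃ (R : Type) (_ : Field R) (_ : Algebra k R) (_ : Algebra L R), IsScalarTower k L R ∧
      FiniteDimensional L R ∧ Ruled k R := by
  classical
  obtain ⟨M, _, _, hM, htr, ⟨φ⟩⟩ := hU
  let _ : Algebra L (RatFunc M) := φ.toRingHom.toAlgebra
  have t1 : IsScalarTower k L (RatFunc M) := IsScalarTower.of_algebraMap_eq fun c => by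
    change _ = φ (algebraMap k L c)
    rw [φ.commutes]
  have hFF : IsFF M (RatFunc M) := by
    refine IsFF.of_finite (f := (RatFunc.X : RatFunc M)) RatFunc.transcendental_X ?_
    rw [RatFunc.adjoin_X]
    exact Module.Finite.of_surjective (Algebra.linearMap (⊤ : IntermediateField M (RatFunc M))
      (RatFunc M)) fun z => ⟨⟨z, trivial⟩, rfl⟩
  have hess0 : Algebra.EssFiniteType M (RatFunc M) := hFF.ess
  have hessR : Algebra.EssFiniteType k (RatFunc M) := Algebra.EssFiniteType.comp k M (RatFunc M)
  have hR : Algebra.trdeg k (RatFunc M) = n := by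
    rw [← trdeg_add_eq k M (A := RatFunc M), hFF.trdeg]
    exact htr
  obtain ⟨b, hb⟩ := exists_fin_basis (k := k) n hn
  have hyR : AlgebraicIndependent k (fun i => φ (b i)) := hb.1.map' φ.injective
  have hyb : IsTranscendenceBasis k (fun i => φ (b i)) := by
    refine hyR.isTranscendenceBasis_of_lift_trdeg_le_of_finite ?_
    rw [hR]
    simp
  have halg : Algebra.IsAlgebraic L (RatFunc M) := by
    have h1 : Algebra.IsAlgebraic (IntermediateField.adjoin k (Set.range fun i => φ (b i)))
      (RatFunc M) := hyb.isAlgebraic_field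
    refine ⟨fun z => ?_⟩
    have h2 := h1.isAlgebraic z
    have hle : IntermediateField.adjoin k (Set.range fun i => φ (b i)) ≤ φ.fieldRange := by
      rw [adjoin_le_iff]
      rintro _ ⟨i, rfl⟩
      exact ⟨b i, rfl⟩
    let e : L ≃ₐ[k] φ.fieldRange := AlgEquiv.ofInjectiveField φ
    let g : IntermediateField.adjoin k (Set.range fun i => φ (b i)) →+* L :=
      (e.symm : φ.fieldRange →+* L).comp (inclusion hle).toRingHom
    refine h2.ringHom_of_comp_eq g (RingHom.id _) g.injective ?_
    ext w
    change φ (e.symm (inclusion hle w)) = (w : RatFunc M)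
    have h3 : e (e.symm (inclusion hle w)) = inclusion hle w := e.apply_symm_apply _
    exact congrArg Subtype.val h3
  have hfd : FiniteDimensional L (RatFunc M) := by
    have h1 : Algebra.EssFiniteType L (RatFunc M) := Algebra.EssFiniteType.of_comp k L (RatFunc M)
    obtain ⟨s, hs⟩ := IntermediateField.fg_top L (RatFunc M)
    have h2 : FiniteDimensional L (IntermediateField.adjoin L (s : Set (RatFunc M))) :=
      IntermediateField.finiteDimensional_adjoin fun x _ => (halg.isAlgebraic x).isIntegral
    rw [hs] at h2
    exact h2.equiv IntermediateField.topEquiv.toLinearEquiv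
  obtain ⟨M0, ht, htop⟩ := ratFunc_ruled (k := k) (M := M)
  exact ⟨RatFunc M, inferInstance, inferInstance, inferInstance, t1, hfd, M0, _, ht, htop⟩

variable {L : Type} [Field L] [Algebra ℂ L] {n M : ℕ} {x : Fin (M + 1) → L}

/-- the function field of a projective variety is finitely generated -/
theorem ess_of_coords (hgen : coords ℂ x = ⊤) : Algebra.EssFiniteType ℂ L := by
  rw [← IntermediateField.fg_top_iff, ← hgen]
  unfold coords
  refine IntermediateField.fg_adjoin_of_finite ?_
  refine Set.Finite.subset (Set.finite_range fun p : Fin (M + 1) × Fin (M + 1) => x p.1 / x p.2) ?_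
  rintro z ⟨i, j, -, rfl⟩
  exact ⟨(i, j), rfl⟩

/-- **Rational curves through the general points of a uniruled projective variety.** -/
theorem rat_of_uniruled (hn : Algebra.trdeg ℂ L = n) (hU : IsUniruled ℂ L n) (hx : x ≠ 0)
    (hgen : coords ℂ x = ⊤) {R : MvPolynomial (Fin (M + 1)) ℂ} (hRf : IsForm R)
    (hRx : val x R ≠ 0) :
    ∃ (p : Fin (M + 1) → ℂ) (P : Fin (M + 1) → Polynomial ℂ), RatThrough x p P ∧ val p R ≠ 0 := by
  have hess : Algebra.EssFiniteType ℂ L := ess_of_coords hgen
  obtain ⟨K', _, _, _, t, hfd, hR⟩ := ruled_above hn hU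
  exact rat_of_ruled hR hx hgen hRf hRx

end Pool.Agent.R882.HY
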