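import Pool.Agent.R882.HY

/-!
Hyperbolicity, special sets and uniruled projective varieties.

`X` is a projective variety with function field `L` and generic point `x`, in homogeneous
coordinates: `x ≠ 0`, and `coords ℂ x = ⊤`, that is, the ratios of the coordinates generate `L`.
`VarPts ℂ x` is the set of the points of `X`, in homogeneous coordinates.
-/

set_option autoImplicit false
set_option linter.overlappingInstances false
set_option linter.unusedSectionVars false
set_option maxHeartbeats 4000000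

open FF Pool.Agent.W602.GT
open Pool.Agent.W619.PQ (IsUniruled)

namespace Pool.Agent.R882.HY

variable {L : Type} [Field L] [Algebra ℂ L] {n M : ℕ}

/-- Every holomorphic map from `ℂ` to the projective variety `X` with the generic point `x`, given
by entire functions without common zeros, is constant. -/
def BrodyHyperbolic (x : Fin (M + 1) → L) : Prop :=
  ∀ f : ℂ → Fin (M + 1) → ℂ, Differentiable ℂ f → (∀ t, f t ∈ VarPts ℂ x) →
    ∀ s t, ∃ c : ℂ, f s = c • f t

/-- There is no rational curve on `X`: every morphism from the affine line to `X`, given by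
polynomials without common zeros, is constant. -/
def NoRationalCurve (x : Fin (M + 1) → L) : Prop :=
  ∀ g : Fin (M + 1) → Polynomial ℂ, (∀ t, (fun i => (g i).eval t) ∈ VarPts ℂ x) →
    ∀ s t, ∃ c : ℂ, (fun i => (g i).eval s) = c • fun i => (g i).eval t

/-- `g` is a nonconstant morphism from the affine line to `X`, given by polynomials without common
zeros. -/
def IsRationalCurve (x : Fin (M + 1) → L) (g : Fin (M + 1) → Polynomial ℂ) : Prop :=
  (∀ t, (fun i => (g i).eval t) ∈ VarPts ℂ x) ∧
    ∃ s t, ∀ c : ℂ, (fun i => (g i).eval s) ≠ c • fun i => (g i).eval t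

/-- The Zariski closure of the union of the rational curves in `X`. -/
def SpRat (x : Fin (M + 1) → L) : Set (Fin (M + 1) → ℂ) :=
  {p | p ∈ VarPts ℂ x ∧ ∀ G : MvPolynomial (Fin (M + 1)) ℂ, IsForm G →
    (∀ g, IsRationalCurve x g → ∀ t, val (fun i => (g i).eval t) G = 0) → val p G = 0}

/-- The Zariski closure of the union of the entire curves in `X`. -/
def SpH (x : Fin (M + 1) → L) : Set (Fin (M + 1) → ℂ) :=
  {p | p ∈ VarPts ℂ x ∧ ∀ G : MvPolynomial (Fin (M + 1)) ℂ, IsForm G →
    (∀ f : ℂ → Fin (M + 1) → ℂ, Differentiable ℂ f → (∀ t, f t ∈ VarPts ℂ x) →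
      (∃ s t, ∀ c : ℂ, f s ≠ c • f t) → ∀ t, val (f t) G = 0) → val p G = 0}

/-- The Zariski closure of the union of the subvarieties of `X` of positive dimension which are not
of general type. -/
def SpAlg (x : Fin (M + 1) → L) : Set (Fin (M + 1) → ℂ) :=
  {p | p ∈ VarPts ℂ x ∧ ∀ G : MvPolynomial (Fin (M + 1)) ℂ, IsForm G →
    (∀ (E : Type) [Field E] [Algebra ℂ E] (w : ℕ) (y : Fin (M + 1) → E), 1 ≤ w →
      Algebra.trdeg ℂ E = w → y ≠ 0 → coords ℂ y = ⊤ →
      (∀ H : MvPolynomial (Fin (M + 1)) ℂ, IsForm H → val x H = 0 → val y H = 0) →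
      ¬ GeneralType ℂ E w → val y G = 0) → val p G = 0}

/-- a rational curve without common zeros -/
theorem curve_of_rat {x : Fin (M + 1) → L} {p : Fin (M + 1) → ℂ}
    {P : Fin (M + 1) → Polynomial ℂ} (h : RatThrough x p P) :
    ∃ g, IsRationalCurve x g ∧ ∃ c : ℂ, c ≠ 0 ∧ p = c • fun i => (g i).eval 0 := by
  classical
  obtain ⟨g0, hg0⟩ : ∃ g0, g0 = Submodule.IsPrincipal.generator (Ideal.span (Set.range P)) :=
    ⟨_, rfl⟩
  have hspan : Ideal.span {g0} = Ideal.span (Set.range P) := by
    rw [hg0]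
    exact Ideal.span_singleton_generator _
  have hdvd : ∀ i, g0 ∣ P i := by
    intro i
    rw [← Ideal.mem_span_singleton, hspan]
    exact Ideal.subset_span ⟨i, rfl⟩
  choose Q hQ using hdvd
  have hne : g0 ≠ 0 := by
    rintro h0
    apply h.ne
    funext i
    rw [← h.pt i, hQ i, h0, zero_mul, Polynomial.eval_zero]
    rfl
  obtain ⟨a, ha⟩ : ∃ a : Fin (M + 1) → Polynomial ℂ, ∑ i, a i * P i = g0 := by
    have h1 : g0 ∈ Ideal.span (Set.range P) := by
      rw [← hspan]
      exact Ideal.mem_span_singleton_self _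
    exact Ideal.mem_span_range_iff_exists_fun.1 h1
  have hone : ∑ i, a i * Q i = 1 := by
    apply mul_left_cancel₀ hne
    rw [mul_one]
    conv_rhs => rw [← ha]
    rw [Finset.mul_sum]
    refine Finset.sum_congr rfl fun i _ => ?_
    rw [hQ i]
    ring
  have hPQ : ∀ i t, (P i).eval t = g0.eval t * (Q i).eval t := by
    intro i t
    rw [hQ i, Polynomial.eval_mul]
  have hmem : ∀ t, (fun i => (Q i).eval t) ∈ VarPts ℂ x := by
    intro t
    refine ⟨fun h0 => ?_, fun G hG hGx => ?_⟩
    · have h1 := congrArg (Polynomial.eval t) hone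
      rw [Polynomial.eval_finsetSum, Polynomial.eval_one] at h1
      have h2 : ∀ i, (Q i).eval t = 0 := fun i => congrFun h0 i
      simp [Polynomial.eval_mul, h2] at h1
    · obtain ⟨d, hd⟩ := hG
      have h1 : MvPolynomial.aeval P G = 0 := h.mem G ⟨d, hd⟩ hGx
      have h2 : P = fun i => g0 * Q i := funext hQ
      have h3 : MvPolynomial.aeval (fun i => g0 * Q i) G = g0 ^ d * MvPolynomial.aeval Q G := by
        rw [MvPolynomial.aeval_def, MvPolynomial.aeval_def, MvPolynomial.eval₂_eq',
          MvPolynomial.eval₂_eq', Finset.mul_sum]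
        refine Finset.sum_congr rfl fun m hm => ?_
        have h4 : ∑ i, m i = d := by
          have := hd (MvPolynomial.mem_support_iff.1 hm)
          rw [← this, Finsupp.weight_apply, Finsupp.sum_fintype _ _ (by simp)]
          simp
        simp_rw [mul_pow]
        rw [Finset.prod_mul_distrib, Finset.prod_pow_eq_pow_sum, h4]
        ring
      rw [h2, h3] at h1
      have h5 := (mul_eq_zero.1 h1).resolve_left (pow_ne_zero _ hne)
      have h6 := aeval_poly Q t G
      rw [Polynomial.coe_aeval_eq_eval, h5, Polynomial.eval_zero] at h6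
      exact h6
  obtain ⟨i, j, s, t, hij⟩ := h.nonconst
  refine ⟨Q, ⟨hmem, s, t, fun c hc => hij ?_⟩, g0.eval 0, ?_, ?_⟩
  · have h1 := congrFun hc i
    have h2 := congrFun hc j
    simp only [Pi.smul_apply, smul_eq_mul] at h1 h2
    rw [hPQ, hPQ, hPQ, hPQ, h1, h2]
    ring
  · intro h0
    apply h.ne
    funext i
    rw [← h.pt i, hPQ, h0, zero_mul]
    rfl
  · funext i
    rw [← h.pt i, hPQ]
    rfl

variable {x : Fin (M + 1) → L}

/-- there are no rational curves in hyperbolic varieties -/
theorem noRat_of_hyperbolic (h : BrodyHyperbolic x) : NoRationalCurve x := fun g hg s t =>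
  h (fun z i => (g i).eval z) (differentiable_pi.2 fun i => (g i).differentiable) hg s t

theorem exists_coord (hx : x ≠ 0) : ∃ R : MvPolynomial (Fin (M + 1)) ℂ, IsForm R ∧ val x R ≠ 0 := by
  obtain ⟨i, hi⟩ := Function.ne_iff.1 hx
  refine ⟨MvPolynomial.X i, ⟨1, MvPolynomial.isHomogeneous_X _ _⟩, ?_⟩
  unfold val
  rw [MvPolynomial.aeval_X]
  exact hi

/-- there are rational curves in uniruled varieties -/
theorem not_noRat (hn : Algebra.trdeg ℂ L = n) (hU : IsUniruled ℂ L n) (hx : x ≠ 0)
    (hgen : coords ℂ x = ⊤) : ¬ NoRationalCurve x := by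
  intro h
  obtain ⟨R, hR, hRx⟩ := exists_coord hx
  obtain ⟨p, P, hP, -⟩ := rat_of_uniruled hn hU hx hgen hR hRx
  obtain ⟨g, ⟨hg, s, t, hst⟩, -⟩ := curve_of_rat hP
  obtain ⟨c, hc⟩ := h g hg s t
  exact hst c hc

/-- the union of the rational curves in a uniruled variety is dense -/
theorem spRat_eq (hn : Algebra.trdeg ℂ L = n) (hU : IsUniruled ℂ L n) (hx : x ≠ 0)
    (hgen : coords ℂ x = ⊤) : SpRat x = VarPts ℂ x := by
  apply Set.Subset.antisymm
  · exact fun p hp => hp.1
  · intro p hp
    refine ⟨hp, fun G hG h => ?_⟩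
    by_contra hpG
    have hxG : val x G ≠ 0 := fun h0 => hpG (hp.2 G hG h0)
    obtain ⟨q, P, hP, hq⟩ := rat_of_uniruled hn hU hx hgen hG hxG
    obtain ⟨g, hg, c, hc, hqc⟩ := curve_of_rat hP
    apply hq
    obtain ⟨d, hd⟩ := hG
    have h1 := h g hg 0
    have h2 : val q G = c ^ d * val (fun i => (g i).eval 0) G := by
      rw [hqc]
      have h3 := val_smul (L := ℂ) hd c (fun i => (g i).eval 0)
      refine Eq.trans ?_ h3
      rfl
    rw [h2, h1, mul_zero]

theorem spRat_sub_spH : SpRat x ⊆ SpH x := by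
  rintro p ⟨hp, h⟩
  refine ⟨hp, fun G hG hf => h G hG ?_⟩
  rintro g ⟨hg, s, t, hst⟩ z
  exact hf (fun z i => (g i).eval z) (differentiable_pi.2 fun i => (g i).differentiable) hg
    ⟨s, t, hst⟩ z

theorem spH_sub : SpH x ⊆ VarPts ℂ x := fun _ hp => hp.1

/-- the whole variety, if it is not of general type -/
theorem spAlg_eq (hn1 : 1 ≤ n) (hn : Algebra.trdeg ℂ L = n) (hx : x ≠ 0) (hgen : coords ℂ x = ⊤)
    (hgt : ¬ GeneralType ℂ L n) : SpAlg x = VarPts ℂ x := by
  apply Set.Subset.antisymm
  · exact fun p hp => hp.1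
  · intro p hp
    exact ⟨hp, fun G hG h => hp.2 G hG (h L n x hn1 hn hx hgen (fun _ _ h0 => h0) hgt)⟩

end Pool.Agent.R882.HY
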