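import Pool.Agent.R882.HYDefs
import Pool.Agent.TH466.QG.Top

/-!
Projective varieties which are of general type or uniruled.
-/

set_option autoImplicit false
set_option linter.overlappingInstances false
set_option linter.unusedSectionVars false

open FF Pool.Agent.W602.GT
open Pool.Agent.W619.PQ (IsUniruled)

namespace Pool.Agent.R882.HY

/-- varieties of general type are not uniruled -/
theorem not_uniruled_of_gt {L : Type} [Field L] [Algebra ℂ L] [Algebra.EssFiniteType ℂ L] {n : ℕ}
    (hL : Algebra.trdeg ℂ L = n) (h : GeneralType ℂ L n) : ¬ IsUniruled ℂ L n := by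
  intro hU
  apply (Pool.Agent.W619.Y.uniruled_neg n hL hU).1
  rw [← Pool.Agent.TH466.QG.psef_iff n]
  exact psef_of_kodGe (kod_of_general h)

variable {L : Type} [Field L] [Algebra ℂ L] {n M : ℕ} {x : Fin (M + 1) → L}

/-- the consequences of the dichotomy -/
theorem of_dichotomy (hL : Algebra.trdeg ℂ L = n) (hd : GeneralType ℂ L n ∨ IsUniruled ℂ L n)
    (hx : x ≠ 0) (hgen : coords ℂ x = ⊤) :
    (GeneralType ℂ L n ↔ ¬ IsUniruled ℂ L n) ∧
    (SpRat x ≠ VarPts ℂ x → GeneralType ℂ L n) ∧
    (NoRationalCurve x → GeneralType ℂ L n) ∧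
    (BrodyHyperbolic x → GeneralType ℂ L n) := by
  have hess : Algebra.EssFiniteType ℂ L := ess_of_coords hgen
  have h1 : NoRationalCurve x → GeneralType ℂ L n := by
    intro h
    rcases hd with hg | hU
    · exact hg
    · exact absurd h (not_noRat hL hU hx hgen)
  refine ⟨⟨fun h => not_uniruled_of_gt hL h, fun h => hd.resolve_right h⟩, fun h => ?_, h1,
    fun h => h1 (noRat_of_hyperbolic h)⟩
  rcases hd with hg | hU
  · exact hg
  · exact absurd (spRat_eq hL hU hx hgen) h

end Pool.Agent.R882.HY
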