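import Pool.Agent.R882.Curv

/-!
The metric is positive definite.
-/

set_option autoImplicit false
set_option linter.unusedSimpArgs false

open scoped ComplexConjugate

namespace Pool.Agent.R882

noncomputable section

/-- The monomial of the term `u`. -/
def mn (u : ℕ × ℕ × ℕ) (z : ℂ × ℂ) : ℂ := Dm u.1 0 z.1 * Dm u.2.1 0 z.2

/-- The derivative of the monomial of the term `u` in the direction `v`. -/
def vm (u : ℕ × ℕ × ℕ) (z : ℂ × ℂ) (v : Fin 2 → ℂ) : ℂ :=
  Dm u.1 1 z.1 * Dm u.2.1 0 z.2 * v 0 + Dm u.1 0 z.1 * Dm u.2.1 1 z.2 * v 1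

/-- The sum of squares which expresses the metric. -/
def TT (l : List (ℕ × ℕ × ℕ)) (z : ℂ × ℂ) (v : Fin 2 → ℂ) (α β : ℂ) : ℝ :=
  (l.map fun u => (u.2.2 : ℝ) * ‖α * vm u z v - β * mn u z‖ ^ 2).sum

theorem TT_eq (l : List (ℕ × ℕ × ℕ)) (z : ℂ × ℂ) (v : Fin 2 → ℂ) (α β : ℂ) :
    (TT l z v α β : ℂ) =
      α * conj α * (((l.map fun u => tm u (1, 0) (1, 0) z).sum * v 0 * conj (v 0) +
        (l.map fun u => tm u (1, 0) (0, 1) z).sum * v 0 * conj (v 1) +
        (l.map fun u => tm u (0, 1) (1, 0) z).sum * v 1 * conj (v 0) +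
        (l.map fun u => tm u (0, 1) (0, 1) z).sum * v 1 * conj (v 1))) -
      α * conj β * ((l.map fun u => tm u (1, 0) 0 z).sum * v 0 +
        (l.map fun u => tm u (0, 1) 0 z).sum * v 1) -
      β * conj α * ((l.map fun u => tm u 0 (1, 0) z).sum * conj (v 0) +
        (l.map fun u => tm u 0 (0, 1) z).sum * conj (v 1)) +
      β * conj β * (l.map fun u => tm u 0 0 z).sum := by
  induction l with
  | nil => simp [TT]
  | cons u l ih =>
    have h1 : TT (u :: l) z v α β =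
        (u.2.2 : ℝ) * ‖α * vm u z v - β * mn u z‖ ^ 2 + TT l z v α β := by
      simp [TT]
    rw [h1, Complex.ofReal_add, ih, Complex.ofReal_mul, Complex.ofReal_pow, ← Complex.mul_conj']
    simp only [List.map_cons, List.sum_cons, tm, vm, mn, map_sub, map_add, map_mul, Prod.fst_zero,
      Prod.snd_zero, Complex.ofReal_natCast]
    ring

theorem jet_sum (I J : ℕ × ℕ) (z : ℂ × ℂ) : (tab.map fun u => tm u I J z).sum = jet I J z := rfl

theorem conj_jet00 (z : ℂ × ℂ) : conj (jet 0 0 z) = jet 0 0 z := conj_jet 0 0 z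

/-- The contraction of the metric as a sum of squares. -/
theorem cg_TT (z : ℂ × ℂ) (v : Fin 2 → ℂ) :
    cg z v (fun k => conj (v k)) =
      ((TT tab z v (jet 0 0 z) (jet (1, 0) 0 z * v 0 + jet (0, 1) 0 z * v 1) / hr z ^ 3 : ℝ) :
        ℂ) := by
  have h0 := jet_ne z
  rw [Complex.ofReal_div, Complex.ofReal_pow, ← jet_zero, TT_eq]
  simp only [jet_sum, conj_jet00, map_add, map_mul, conj_jet]
  simp only [cg, cM, cA, cB, uj]
  field_simp
  ring

theorem TT_pos (z : ℂ × ℂ) (v : Fin 2 → ℂ) (hv : v ≠ 0) (β : ℂ) :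
    0 < TT tab z v (jet 0 0 z) β := by
  have h0 := jet_ne z
  by_contra hc
  have h1 : ∀ u ∈ tab, (u.2.2 : ℝ) * ‖jet 0 0 z * vm u z v - β * mn u z‖ ^ 2 ≤ 0 := by
    intro u hu
    refine le_trans ?_ (not_lt.1 hc)
    refine List.single_le_sum ?_ _ (List.mem_map_of_mem hu)
    intro x hx
    obtain ⟨u', -, rfl⟩ := List.mem_map.1 hx
    positivity
  have h2 : ∀ u ∈ tab, u.2.2 ≠ 0 → jet 0 0 z * vm u z v - β * mn u z = 0 := by
    intro u hu hu'
    have h3 := h1 u hu
    have h4 : (0 : ℝ) < u.2.2 := by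
      exact_mod_cast Nat.pos_of_ne_zero hu'
    have h5 : ‖jet 0 0 z * vm u z v - β * mn u z‖ ^ 2 ≤ 0 := by
      by_contra h6
      push Not at h6
      have := mul_pos h4 h6
      linarith
    have h6 : ‖jet 0 0 z * vm u z v - β * mn u z‖ = 0 := by
      have := sq_nonneg ‖jet 0 0 z * vm u z v - β * mn u z‖
      exact pow_eq_zero_iff (two_ne_zero) |>.1 (le_antisymm h5 this)
    exact norm_eq_zero.1 h6
  have a1 := h2 (0, 0, 5) (by simp [tab]) (by norm_num)
  have a2 := h2 (1, 0, 13) (by simp [tab]) (by norm_num)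
  have a3 := h2 (0, 1, 13) (by simp [tab]) (by norm_num)
  simp only [vm, mn, Dm] at a1 a2 a3
  norm_num [Nat.descFactorial] at a1 a2 a3
  rw [a1] at a2 a3
  simp only [zero_mul, sub_zero] at a2 a3
  have b2 : v 0 = 0 := by simpa [h0] using a2
  have b3 : v 1 = 0 := by simpa [h0] using a3
  apply hv
  funext k
  fin_cases k
  · exact b2
  · exact b3

theorem cg_pos (z : ℂ × ℂ) (v : Fin 2 → ℂ) (hv : v ≠ 0) :
    0 < (cg z v (fun k => conj (v k))).re := by
  rw [cg_TT, Complex.ofReal_re]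
  exact div_pos (TT_pos z v hv _) (pow_pos (hr_pos z) 3)

theorem sq_Gm (z : ℂ × ℂ) (v : Fin 2 → ℂ) :
    sq (fun i j => Gm i j z) v = (cg z v (fun k => conj (v k))).re := by
  rw [cg_eq]
  rfl

theorem sq_pos (z : ℂ × ℂ) (v : Fin 2 → ℂ) (hv : v ≠ 0) : 0 < sq (fun i j => Gm i j z) v := by
  rw [sq_Gm]
  exact cg_pos z v hv

theorem gdet_ne (z : ℂ × ℂ) : gdet z ≠ 0 := by
  intro h
  have h0 : Gm 0 0 z ≠ 0 := by
    intro h1
    have h2 := sq_pos z (fun k => if k = 0 then 1 else 0) (by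
      intro h3
      have := congrFun h3 0
      simp at this)
    simp only [sq, Fin.sum_univ_two, h1] at h2
    simp at h2
  have h1 := sq_pos z (fun k => if k = 0 then -Gm 1 0 z else Gm 0 0 z) (by
    intro h3
    have := congrFun h3 1
    simp at this
    exact h0 this)
  have h2 : sq (fun i j => Gm i j z) (fun k => if k = 0 then -Gm 1 0 z else Gm 0 0 z) = 0 := by
    have h3 : (∑ i, ∑ j, Gm i j z * (if i = 0 then -Gm 1 0 z else Gm 0 0 z) *
        conj (if j = (0 : Fin 2) then -Gm 1 0 z else Gm 0 0 z)) = gdet z * conj (Gm 0 0 z) := by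
      simp only [Fin.sum_univ_two, gdet]
      simp
      ring
    rw [sq]
    change (∑ i, ∑ j, Gm i j z * (if i = 0 then -Gm 1 0 z else Gm 0 0 z) *
        conj (if j = (0 : Fin 2) then -Gm 1 0 z else Gm 0 0 z)).re = 0
    rw [h3, h]
    simp
  rw [h2] at h1
  exact lt_irrefl _ h1

end

end Pool.Agent.R882
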