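import Pool.Agent.R882.Eval3
import Pool.Agent.R882.PosDef

/-!
The holomorphic sectional curvature of the metric is positive in the closed unit bidisc.
-/

set_option autoImplicit false
set_option linter.unusedSimpArgs false

open scoped ComplexConjugate
open Filter Topology

namespace Pool.Agent.R882

noncomputable section

theorem HasWD.continuousAt {f : ℂ × ℂ → ℂ} {z : ℂ × ℂ} {d e : Fin 2 → ℂ} (h : HasWD f z d e) :
    ContinuousAt f z := by
  obtain ⟨L, hL, -⟩ := h
  exact hL.continuousAt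

theorem continuous_uj (I J : ℕ × ℕ) : Continuous (uj I J) :=
  continuous_iff_continuousAt.2 fun z => (uj_wd I J z).continuousAt

theorem continuous_Gm (i j : Fin 2) : Continuous (Gm i j) :=
  continuous_iff_continuousAt.2 fun z => (Gm_wd i j z).continuousAt

/-- The contraction of the curvature tensor. -/
def Rv (v : Fin 2 → ℂ) (z : ℂ × ℂ) : ℂ :=
  ∑ i, ∑ j, ∑ k, ∑ l, curv Gm i j k l z * v i * conj (v j) * v k * conj (v l)

theorem continuous_cg (v w : Fin 2 → ℂ) : Continuous fun z => cg z v w := by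
  have h := continuous_uj
  unfold cg cM cA cB
  fun_prop

theorem continuous_cX (v : Fin 2 → ℂ) (q : Fin 2) : Continuous fun z => cX z v q := by
  have h := continuous_uj
  unfold cX cA2
  fun_prop

theorem continuous_cXb (w : Fin 2 → ℂ) (q : Fin 2) : Continuous fun z => cXb z w q := by
  have h := continuous_uj
  unfold cXb cB2
  fun_prop

theorem continuous_cZ (v w : Fin 2 → ℂ) : Continuous fun z => cZ z v w := by
  have h := continuous_uj
  unfold cZ cA2 cB2
  fun_prop

theorem continuous_gdet : Continuous gdet := by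
  have h := continuous_Gm
  unfold gdet
  fun_prop

theorem continuous_Rv (v : Fin 2 → ℂ) : Continuous (Rv v) := by
  have h1 : Rv v = fun z => 2 * cg z v (fun k => conj (v k)) ^ 2 - cZ z v (fun k => conj (v k)) +
        (Gm 1 1 z * cX z v 0 * cXb z (fun k => conj (v k)) 0 -
          Gm 0 1 z * cX z v 0 * cXb z (fun k => conj (v k)) 1 -
          Gm 1 0 z * cX z v 1 * cXb z (fun k => conj (v k)) 0 +
          Gm 0 0 z * cX z v 1 * cXb z (fun k => conj (v k)) 1) / gdet z := by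
    funext z
    exact curv_sum z v (fun k => conj (v k)) (gdet_ne z)
  rw [h1]
  have h2 := continuous_cg v (fun k => conj (v k))
  have h3 := continuous_cZ v (fun k => conj (v k))
  have h4 := continuous_cX v
  have h5 := continuous_cXb (fun k => conj (v k))
  have h6 := continuous_Gm
  refine ((continuous_const.mul (h2.pow 2)).sub h3).add (Continuous.div ?_ continuous_gdet gdet_ne)
  exact (((((h6 1 1).mul (h4 0)).mul (h5 0)).sub (((h6 0 1).mul (h4 0)).mul (h5 1))).sub
    (((h6 1 0).mul (h4 1)).mul (h5 0))).add (((h6 0 0).mul (h4 1)).mul (h5 1))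

theorem Ss00_pos (z : ℂ × ℂ) : 0 < Ss (‖z.1‖ ^ 2) (‖z.2‖ ^ 2) 0 0 := by
  have h1 : ((Ss (‖z.1‖ ^ 2) (‖z.2‖ ^ 2) 0 0 : ℝ) : ℂ) = (hr z : ℂ) := by
    rw [← jet_zero, jet00]
    rfl
  have h2 : Ss (‖z.1‖ ^ 2) (‖z.2‖ ^ 2) 0 0 = hr z := by exact_mod_cast h1
  rw [h2]
  exact hr_pos z

/-- The curvature inequality at the points of the torus. -/
theorem Rv_torus {z : ℂ × ℂ} (hx : z.1 ≠ 0) (hy : z.2 ≠ 0) (hx1 : ‖z.1‖ ≤ 1) (hy1 : ‖z.2‖ ≤ 1)
    (v : Fin 2 → ℂ) :
    (cg z v (fun k => conj (v k))).re ^ 2 / 1000 ≤ (Rv v z).re := by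
  have hs : 0 < ‖z.1‖ ^ 2 := by positivity
  have ht : 0 < ‖z.2‖ ^ 2 := by positivity
  have hs1 : ‖z.1‖ ^ 2 ≤ 1 := pow_le_one₀ (norm_nonneg _) hx1
  have ht1 : ‖z.2‖ ^ 2 ≤ 1 := pow_le_one₀ (norm_nonneg _) hy1
  have hD := (Ss_pos hs hs1 ht ht1).1
  rw [Rv, torus_curv hx hy v hD.ne', torus_g hx hy v, Complex.ofReal_re, Complex.ofReal_re]
  refine main_ineq hs hs1 ht ht1 (Ss00_pos z) ?_
  have h1 : |(v 0 / z.1 * conj (v 1 / z.2)).re| ≤ ‖v 0 / z.1‖ * ‖v 1 / z.2‖ := by
    refine (Complex.abs_re_le_norm _).trans ?_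
    rw [norm_mul, RCLike.norm_conj]
  have h2 := pow_le_pow_left₀ (abs_nonneg _) h1 2
  rw [sq_abs, mul_pow] at h2
  exact h2

theorem Rv_bidisc {z : ℂ × ℂ} (hx1 : ‖z.1‖ ≤ 1) (hy1 : ‖z.2‖ ≤ 1) (v : Fin 2 → ℂ) :
    (cg z v (fun k => conj (v k))).re ^ 2 / 1000 ≤ (Rv v z).re := by
  let γ : ℝ → ℂ × ℂ := fun ε => (if z.1 = 0 then (ε : ℂ) else z.1, if z.2 = 0 then (ε : ℂ) else z.2)
  have hγ : Continuous γ := by
    refine Continuous.prodMk ?_ ?_
    · by_cases h : z.1 = 0
      · simpa [h] using Complex.continuous_ofReal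
      · simpa [h] using continuous_const
    · by_cases h : z.2 = 0
      · simpa [h] using Complex.continuous_ofReal
      · simpa [h] using continuous_const
  have hγ0 : γ 0 = z := by
    refine Prod.ext ?_ ?_
    · by_cases h : z.1 = 0
      · simp [γ, h]
      · simp [γ, h]
    · by_cases h : z.2 = 0
      · simp [γ, h]
      · simp [γ, h]
  have hf : Continuous fun ε : ℝ => (Rv v (γ ε)).re -
      (cg (γ ε) v (fun k => conj (v k))).re ^ 2 / 1000 := by
    refine (Complex.continuous_re.comp ((continuous_Rv v).comp hγ)).sub ?_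
    exact ((Complex.continuous_re.comp ((continuous_cg v _).comp hγ)).pow 2).div_const 1000
  have h1 : Tendsto (fun ε : ℝ => (Rv v (γ ε)).re -
      (cg (γ ε) v (fun k => conj (v k))).re ^ 2 / 1000) (𝓝[>] 0)
      (𝓝 ((Rv v (γ 0)).re - (cg (γ 0) v (fun k => conj (v k))).re ^ 2 / 1000)) :=
    (hf.tendsto 0).mono_left nhdsWithin_le_nhds
  rw [hγ0] at h1
  have h2 : 0 ≤ (Rv v z).re - (cg z v (fun k => conj (v k))).re ^ 2 / 1000 := by
    refine ge_of_tendsto h1 ?_
    have h3 : Set.Ioo (0 : ℝ) 1 ∈ 𝓝[>] (0 : ℝ) := Ioo_mem_nhdsGT one_pos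
    filter_upwards [h3] with ε hε
    rw [sub_nonneg]
    have hε' : (ε : ℂ) ≠ 0 := by exact_mod_cast hε.1.ne'
    have hε1 : ‖(ε : ℂ)‖ ≤ 1 := by
      rw [Complex.norm_real, Real.norm_of_nonneg hε.1.le]
      exact hε.2.le
    apply Rv_torus
    · by_cases h : z.1 = 0 <;> simp [γ, h, hε.1.ne']
    · by_cases h : z.2 = 0 <;> simp [γ, h, hε.1.ne']
    · by_cases h : z.1 = 0
      · simpa only [γ, h, if_true] using hε1
      · simpa only [γ, h, if_false] using hx1
    · by_cases h : z.2 = 0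
      · simpa only [γ, h, if_true] using hε1
      · simpa only [γ, h, if_false] using hy1
  linarith

/-- The holomorphic sectional curvature is positive in the closed unit bidisc. -/
theorem hsc_pos {z : ℂ × ℂ} (hx1 : ‖z.1‖ ≤ 1) (hy1 : ‖z.2‖ ≤ 1) {v : Fin 2 → ℂ} (hv : v ≠ 0) :
    0 < hsc Gm z v := by
  have h1 := cg_pos z v hv
  have h2 := Rv_bidisc hx1 hy1 v
  rw [hsc]
  refine div_pos ?_ (pow_pos ?_ 2)
  · change 0 < (Rv v z).re
    have : 0 < (cg z v (fun k => conj (v k))).re ^ 2 / 1000 := by positivity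
    linarith
  · exact sq_pos z v hv

end

end Pool.Agent.R882
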