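import Pool.Agent.R882.Cert

/-!
The main inequality on the torus.
-/

set_option autoImplicit false
set_option linter.unusedSimpArgs false

namespace Pool.Agent.R882

/-- The value of `P`, with weights `i^a j^b`, at `(s, t)`. -/
def Ss (s t : ℝ) (a b : ℕ) : ℝ :=
  (tab.map fun u => ((u.2.2 * (u.1 ^ a * u.2.1 ^ b) : ℕ) : ℝ) * (s ^ u.1 * t ^ u.2.1)).sum

theorem Ss_eq {s t : ℝ} (hs : 0 < s) (ht : 0 < t) :
    Ss s t = fun a b => (s * t) ^ 4 * Sh (1 / s - 1) (1 / t - 1) a b := by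
  funext a b
  rw [Ss, Sh, ← List.sum_map_mul_left]
  congr 1
  apply List.map_congr_left
  intro u hu
  have h1 : u.1 ≤ 4 ∧ u.2.1 ≤ 4 := by
    have h2 : ∀ u ∈ tab, u.1 ≤ 4 ∧ u.2.1 ≤ 4 := by decide
    exact h2 u hu
  obtain ⟨⟨i, hi⟩, ⟨j, hj⟩⟩ : (∃ i, u.1 + i = 4) ∧ (∃ j, u.2.1 + j = 4) :=
    ⟨⟨4 - u.1, by omega⟩, ⟨4 - u.2.1, by omega⟩⟩
  have e1 : 4 - u.1 = i := by omega
  have e2 : 4 - u.2.1 = j := by omega
  have e3 : 1 + (1 / s - 1) = s⁻¹ := by ring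
  have e4 : 1 + (1 / t - 1) = t⁻¹ := by ring
  rw [e1, e2, e3, e4]
  have e5 : s ^ 4 * (s⁻¹) ^ i = s ^ u.1 := by
    rw [← hi, pow_add, mul_assoc, ← mul_pow, mul_inv_cancel₀ hs.ne', one_pow, mul_one]
  have e6 : t ^ 4 * (t⁻¹) ^ j = t ^ u.2.1 := by
    rw [← hj, pow_add, mul_assoc, ← mul_pow, mul_inv_cancel₀ ht.ne', one_pow, mul_one]
  rw [← e5, ← e6]
  ring

section Scale

variable (l : ℝ) (S : ℕ → ℕ → ℝ)

theorem sc_k11 : fk11 (fun a b => l * S a b) = l ^ 2 * fk11 S := by simp only [fk11]; ring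
theorem sc_k12 : fk12 (fun a b => l * S a b) = l ^ 2 * fk12 S := by simp only [fk12]; ring
theorem sc_k22 : fk22 (fun a b => l * S a b) = l ^ 2 * fk22 S := by simp only [fk22]; ring
theorem sc_A00 : fA00 (fun a b => l * S a b) = l ^ 2 * fA00 S := by simp only [fA00]; ring
theorem sc_A01 : fA01 (fun a b => l * S a b) = l ^ 2 * fA01 S := by simp only [fA01]; ring
theorem sc_A02 : fA02 (fun a b => l * S a b) = l ^ 2 * fA02 S := by simp only [fA02]; ring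
theorem sc_De : fDe (fun a b => l * S a b) = l ^ 3 * fDe S := by
  simp only [fDe, sc_A00, sc_A01, sc_A02]; ring
theorem sc_g (a b c d : ℕ) : fg (fun a b => l * S a b) a b c d = l ^ 4 * fg S a b c d := by
  simp only [fg, sc_A00, sc_A01, sc_A02, sc_De, sc_k11, sc_k12, sc_k22]; ring
theorem sc_S3 : fS3 (fun a b => l * S a b) = l ^ 3 * fS3 S := by simp only [fS3]; ring
theorem sc_L : fL (fun a b => l * S a b) = l ^ 7 * fL S := by simp only [fL, sc_De]; ring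
theorem sc_E : fE (fun a b => l * S a b) = l ^ 3 * fE S := by simp only [fE, sc_De]; ring
theorem sc_a : fa (fun a b => l * S a b) = l ^ 7 * fa S := by
  simp only [fa, sc_E, sc_k11, sc_S3, sc_g]; ring
theorem sc_c : fc (fun a b => l * S a b) = l ^ 7 * fc S := by
  simp only [fc, sc_E, sc_k22, sc_S3, sc_g]; ring
theorem sc_b : fb (fun a b => l * S a b) = l ^ 7 * fb S := by
  simp only [fb, sc_E, sc_k11, sc_k22, sc_S3, sc_g, sc_L]; ring
theorem sc_d : fd (fun a b => l * S a b) = l ^ 7 * fd S := by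
  simp only [fd, sc_E, sc_k12, sc_S3, sc_g, sc_L]; ring
theorem sc_e : fe (fun a b => l * S a b) = l ^ 7 * fe S := by
  simp only [fe, sc_E, sc_k11, sc_k12, sc_S3, sc_g, sc_L]; ring
theorem sc_f : ff (fun a b => l * S a b) = l ^ 7 * ff S := by
  simp only [ff, sc_E, sc_k22, sc_k12, sc_S3, sc_g, sc_L]; ring
theorem sc_M2 : fM2 (fun a b => l * S a b) = l ^ 14 * fM2 S := by
  simp only [fM2, sc_a, sc_b, sc_c]; ring
theorem sc_M3 : fM3 (fun a b => l * S a b) = l ^ 21 * fM3 S := by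
  simp only [fM3, sc_M2, sc_a, sc_b, sc_c, sc_d, sc_e, sc_f]; ring

end Scale

theorem Sh_pos {p q : ℝ} (hp : 0 ≤ p) (hq : 0 ≤ q) :
    0 < fDe (Sh p q) ∧ 0 < fa (Sh p q) ∧ 0 < fM2 (Sh p q) ∧ 0 < fM3 (Sh p q) := by
  refine ⟨?_, ?_, ?_, ?_⟩
  · have h := cert_sound (fDe PP)
      (by rw [map_fDe, map_fDe, map_fDe, mp_PP, mp_PP, mp_PP]; exact cert_De) hp hq
    rw [map_fDe, mp_PP, val_fDe, vl_PSh] at h
    linarith
  · have h := cert_sound (fa PP)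
      (by rw [map_fa, map_fa, map_fa, mp_PP, mp_PP, mp_PP]; exact cert_a) hp hq
    rw [map_fa, mp_PP, val_fa, vl_PSh] at h
    linarith
  · have h := cert_sound (fM2 PP)
      (by rw [map_fM2, map_fM2, map_fM2, mp_PP, mp_PP, mp_PP]; exact cert_M2) hp hq
    rw [map_fM2, mp_PP, val_fM2, vl_PSh] at h
    linarith
  · have h := cert_sound (fM3 PP)
      (by rw [map_fM3, map_fM3, map_fM3, mp_PP, mp_PP, mp_PP]; exact cert_M3) hp hq
    rw [map_fM3, mp_PP, val_fM3, vl_PSh] at h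
    linarith

theorem Ss_pos {s t : ℝ} (hs : 0 < s) (hs1 : s ≤ 1) (ht : 0 < t) (ht1 : t ≤ 1) :
    0 < fDe (Ss s t) ∧ 0 < fa (Ss s t) ∧ 0 < fM2 (Ss s t) ∧ 0 < fM3 (Ss s t) := by
  have hp : 0 ≤ 1 / s - 1 := by
    rw [sub_nonneg, le_div_iff₀ hs]
    linarith
  have hq : 0 ≤ 1 / t - 1 := by
    rw [sub_nonneg, le_div_iff₀ ht]
    linarith
  obtain ⟨h1, h2, h3, h4⟩ := Sh_pos hp hq
  have hl : 0 < (s * t) ^ 4 := by positivity
  rw [Ss_eq hs ht]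
  refine ⟨?_, ?_, ?_, ?_⟩
  · rw [sc_De]; exact mul_pos (pow_pos hl _) h1
  · rw [sc_a]; exact mul_pos (pow_pos hl _) h2
  · rw [sc_M2]; exact mul_pos (pow_pos hl _) h3
  · rw [sc_M3]; exact mul_pos (pow_pos hl _) h4

theorem form_nonneg {a b c d e f x y z : ℝ} (ha : 0 < a) (h2 : 0 < a * c - b * b)
    (h3 : 0 < (a * c - b * b) * d + 2 * (b * (e * f)) - a * (f * f) - c * (e * e)) :
    0 ≤ a * x ^ 2 + 2 * b * x * y + c * y ^ 2 + 2 * e * x * z + 2 * f * y * z + d * z ^ 2 := by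
  have h4 : a * (a * c - b * b) *
      (a * x ^ 2 + 2 * b * x * y + c * y ^ 2 + 2 * e * x * z + 2 * f * y * z + d * z ^ 2) =
      (a * c - b * b) * (a * x + b * y + e * z) ^ 2 +
      ((a * c - b * b) * y + (a * f - b * e) * z) ^ 2 +
      a * ((a * c - b * b) * d + 2 * (b * (e * f)) - a * (f * f) - c * (e * e)) * z ^ 2 := by
    ring
  have h5 : 0 ≤ a * (a * c - b * b) *
      (a * x ^ 2 + 2 * b * x * y + c * y ^ 2 + 2 * e * x * z + 2 * f * y * z + d * z ^ 2) := by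
    rw [h4]
    positivity
  exact nonneg_of_mul_nonneg_right h5 (mul_pos ha h2)

/-- The form `Q`. -/
def fQ (S : ℕ → ℕ → ℝ) (x y r : ℝ) : ℝ := fk11 S * x + fk22 S * y + 2 * fk12 S * r

/-- The form `G`. -/
def fG (S : ℕ → ℕ → ℝ) (x y r : ℝ) : ℝ :=
  fg S 2 0 2 0 * x ^ 2 + 4 * fg S 2 0 1 1 * x * r + 4 * fg S 1 1 1 1 * x * y +
    2 * fg S 2 0 0 2 * (2 * r ^ 2 - x * y) + 4 * fg S 1 1 0 2 * y * r + fg S 0 2 0 2 * y ^ 2

theorem main_ineq {s t : ℝ} (hs : 0 < s) (hs1 : s ≤ 1) (ht : 0 < t) (ht1 : t ≤ 1)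
    (hS : 0 < Ss s t 0 0) {x y r : ℝ} (hr : r ^ 2 ≤ x * y) :
    (fQ (Ss s t) x y r / Ss s t 0 0 ^ 2) ^ 2 / 1000 ≤
      2 * (fQ (Ss s t) x y r / Ss s t 0 0 ^ 2) ^ 2 -
        fG (Ss s t) x y r / (Ss s t 0 0 * fDe (Ss s t)) := by
  obtain ⟨h1, h2, h3, h4⟩ := Ss_pos hs hs1 ht ht1
  generalize Ss s t = S at *
  have h5 : 0 ≤ fa S * x ^ 2 + 2 * fb S * x * y + fc S * y ^ 2 + 2 * fe S * x * r +
      2 * ff S * y * r + fd S * r ^ 2 := by
    refine form_nonneg h2 h3 ?_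
    have h6 : (fa S * fc S - fb S * fb S) * fd S + 2 * (fb S * (fe S * ff S)) -
        fa S * (ff S * ff S) - fc S * (fe S * fe S) = fM3 S := by
      simp only [fM3, fM2]
      norm_num
    rw [h6]
    exact h4
  have h7 : fa S * x ^ 2 + 2 * fb S * x * y + fc S * y ^ 2 + 2 * fe S * x * r +
      2 * ff S * y * r + fd S * r ^ 2 =
      1999 * fDe S * fQ S x y r ^ 2 - 1000 * S 0 0 ^ 3 * fG S x y r -
        40 * (S 0 0 * fDe S ^ 2) * (x * y - r ^ 2) := by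
    simp only [fa, fb, fc, fd, fe, ff, fE, fS3, fL, fQ, fG]
    push_cast
    ring
  rw [h7] at h5
  have h8 : 0 ≤ 40 * (S 0 0 * fDe S ^ 2) * (x * y - r ^ 2) := by
    have : 0 ≤ x * y - r ^ 2 := by linarith
    positivity
  have h9 : 0 ≤ 1999 * fDe S * fQ S x y r ^ 2 - 1000 * S 0 0 ^ 3 * fG S x y r := by linarith
  have h10 : 2 * (fQ S x y r / S 0 0 ^ 2) ^ 2 - fG S x y r / (S 0 0 * fDe S) -
      (fQ S x y r / S 0 0 ^ 2) ^ 2 / 1000 =
      (1999 * fDe S * fQ S x y r ^ 2 - 1000 * S 0 0 ^ 3 * fG S x y r) /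
        (1000 * S 0 0 ^ 4 * fDe S) := by
    field_simp
    ring
  have h11 : 0 ≤ (1999 * fDe S * fQ S x y r ^ 2 - 1000 * S 0 0 ^ 3 * fG S x y r) /
        (1000 * S 0 0 ^ 4 * fDe S) := div_nonneg h9 (by positivity)
  linarith

end Pool.Agent.R882
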