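import Pool.Agent.R882.Wirt
import Pool.Agent.R882.Form

/-!
The function `h = P(|x|^2, |y|^2)`, its derivatives, and the metric `i ∂ ∂̄ log h`.
-/

set_option autoImplicit false

open scoped ComplexConjugate

namespace Pool.Agent.R882

noncomputable section

/-- The `a`-th derivative of `x^n`. -/
def Dm (n a : ℕ) (x : ℂ) : ℂ := (n.descFactorial a : ℂ) * x ^ (n - a)

theorem hasDerivAt_Dm (n a : ℕ) (x : ℂ) : HasDerivAt (Dm n a) (Dm n (a + 1) x) x := by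
  have h := (hasDerivAt_pow (n - a) x).const_mul (n.descFactorial a : ℂ)
  have e : Dm n (a + 1) x = (n.descFactorial a : ℂ) * (((n - a : ℕ) : ℂ) * x ^ (n - a - 1)) := by
    rw [Dm, Nat.descFactorial_succ, Nat.sub_sub]
    push_cast
    ring
  rw [e]
  exact h

/-- The exponent of `∂ / ∂z_k`. -/
def un (k : Fin 2) : ℕ × ℕ := if k = 0 then (1, 0) else (0, 1)

@[simp] theorem un_zero : un 0 = (1, 0) := rfl
@[simp] theorem un_one : un 1 = (0, 1) := rfl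

/-- A derivative of the term `c |x|^(2 i) |y|^(2 j)`. -/
def tm (u : ℕ × ℕ × ℕ) (I J : ℕ × ℕ) (z : ℂ × ℂ) : ℂ :=
  (u.2.2 : ℂ) * (Dm u.1 I.1 z.1 * Dm u.2.1 I.2 z.2 *
    (conj (Dm u.1 J.1 z.1) * conj (Dm u.2.1 J.2 z.2)))

theorem tm_wd (u : ℕ × ℕ × ℕ) (I J : ℕ × ℕ) (z : ℂ × ℂ) :
    HasWD (tm u I J) z (fun k => tm u (I + un k) J z) (fun k => tm u I (J + un k) z) := by
  have h1 := HasWD.of_deriv_fst (z := z) (hasDerivAt_Dm u.1 I.1 z.1)
  have h2 := HasWD.of_deriv_snd (z := z) (hasDerivAt_Dm u.2.1 I.2 z.2)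
  have h3 := (HasWD.of_deriv_fst (z := z) (hasDerivAt_Dm u.1 J.1 z.1)).cj
  have h4 := (HasWD.of_deriv_snd (z := z) (hasDerivAt_Dm u.2.1 J.2 z.2)).cj
  have h5 := (HasWD.const (u.2.2 : ℂ) z).mul ((h1.mul h2).mul (h3.mul h4))
  refine h5.of_eq ?_ ?_ ?_ ?_ <;> simp [tm]

theorem HasWD.listSum (l : List (ℕ × ℕ × ℕ)) (f : ℕ × ℕ × ℕ → ℂ × ℂ → ℂ) (z : ℂ × ℂ)
    (d e : ℕ × ℕ × ℕ → Fin 2 → ℂ) (h : ∀ u, HasWD (f u) z (d u) (e u)) :
    HasWD (fun w => (l.map fun u => f u w).sum) z (fun k => (l.map fun u => d u k).sum)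
      (fun k => (l.map fun u => e u k).sum) := by
  induction l with
  | nil => exact HasWD.const 0 z
  | cons u l ih =>
    simp only [List.map_cons, List.sum_cons]
    exact (h u).add ih

/-- The derivatives of `h = P(|x|^2, |y|^2)`. -/
def jet (I J : ℕ × ℕ) (z : ℂ × ℂ) : ℂ := (tab.map fun u => tm u I J z).sum

theorem jet_wd (I J : ℕ × ℕ) (z : ℂ × ℂ) :
    HasWD (jet I J) z (fun k => jet (I + un k) J z) (fun k => jet I (J + un k) z) :=
  HasWD.listSum tab (fun u => tm u I J) z _ _ fun u => tm_wd u I J z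

theorem conj_tm (u : ℕ × ℕ × ℕ) (I J : ℕ × ℕ) (z : ℂ × ℂ) : conj (tm u I J z) = tm u J I z := by
  simp only [tm, map_mul, Complex.conj_natCast, Complex.conj_conj]
  ring

theorem conj_jet (I J : ℕ × ℕ) (z : ℂ × ℂ) : conj (jet I J z) = jet J I z := by
  rw [jet, jet, map_list_sum, List.map_map]
  congr 1
  apply List.map_congr_left
  intro u _
  exact conj_tm u I J z

theorem tm_zero (u : ℕ × ℕ × ℕ) (z : ℂ × ℂ) :
    tm u 0 0 z = (((u.2.2 : ℝ) * (‖z.1‖ ^ u.1 * ‖z.2‖ ^ u.2.1) ^ 2 : ℝ) : ℂ) := by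
  have h : ∀ n (x : ℂ), Dm n 0 x = x ^ n := by intro n x; simp [Dm]
  have h2 : ∀ n (x : ℂ), x ^ n * conj (x ^ n) = (((‖x‖ ^ n) ^ 2 : ℝ) : ℂ) := by
    intro n x
    rw [Complex.mul_conj, Complex.normSq_eq_norm_sq, norm_pow]
  simp only [tm, Prod.fst_zero, Prod.snd_zero, h]
  have e : (u.2.2 : ℂ) * (z.1 ^ u.1 * z.2 ^ u.2.1 * (conj (z.1 ^ u.1) * conj (z.2 ^ u.2.1))) =
      u.2.2 * ((z.1 ^ u.1 * conj (z.1 ^ u.1)) * (z.2 ^ u.2.1 * conj (z.2 ^ u.2.1))) := by ring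
  rw [e, h2, h2]
  push_cast
  ring

/-- The function `h`, as a real function. -/
def hr (z : ℂ × ℂ) : ℝ := (tab.map fun u => (u.2.2 : ℝ) * (‖z.1‖ ^ u.1 * ‖z.2‖ ^ u.2.1) ^ 2).sum

theorem jet_zero (z : ℂ × ℂ) : jet 0 0 z = (hr z : ℂ) := by
  rw [jet, hr]
  simp only [tm_zero]
  push_cast
  induction tab with
  | nil => simp
  | cons u l ih => simp [ih]

theorem hr_pos (z : ℂ × ℂ) : 0 < hr z := by
  simp only [hr, tab, List.map_cons, List.map_nil, List.sum_cons, List.sum_nil]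
  positivity

theorem jet_ne (z : ℂ × ℂ) : jet 0 0 z ≠ 0 := by
  rw [jet_zero]
  exact_mod_cast (hr_pos z).ne'

/-- The derivatives of `h`, divided by `h`. -/
def uj (I J : ℕ × ℕ) (z : ℂ × ℂ) : ℂ := jet I J z / jet 0 0 z

theorem uj_wd (I J : ℕ × ℕ) (z : ℂ × ℂ) :
    HasWD (uj I J) z (fun k => uj (I + un k) J z - uj I J z * uj (un k) 0 z)
      (fun k => uj I (J + un k) z - uj I J z * uj 0 (un k) z) := by
  have h0 := jet_ne z
  have h1 := (jet_wd I J z).mul ((jet_wd 0 0 z).inv h0)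
  have h2 : HasWD (uj I J) z _ _ := h1
  refine h2.congr' (fun k => ?_) (fun k => ?_)
  · simp only [uj, zero_add]
    field_simp
    ring
  · simp only [uj, zero_add]
    field_simp
    ring

theorem conj_uj (I J : ℕ × ℕ) (z : ℂ × ℂ) : conj (uj I J z) = uj J I z := by
  rw [uj, uj, map_div₀, conj_jet, conj_jet]

theorem uj_zero (z : ℂ × ℂ) : uj 0 0 z = 1 := div_self (jet_ne z)

/-- The coefficients of the metric. -/
def Gm (i j : Fin 2) (z : ℂ × ℂ) : ℂ := uj (un i) (un j) z - uj (un i) 0 z * uj 0 (un j) z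

theorem conj_Gm (i j : Fin 2) (z : ℂ × ℂ) : conj (Gm i j z) = Gm j i z := by
  rw [Gm, Gm, map_sub, map_mul, conj_uj, conj_uj, conj_uj, mul_comm]

/-- The derivatives `∂g_{i j} / ∂z_k`. -/
def G1 (i j k : Fin 2) (z : ℂ × ℂ) : ℂ :=
  uj (un i + un k) (un j) z - uj (un i) (un j) z * uj (un k) 0 z -
    uj (un i + un k) 0 z * uj 0 (un j) z + 2 * (uj (un i) 0 z * uj (un k) 0 z * uj 0 (un j) z) -
    uj (un i) 0 z * uj (un k) (un j) z

/-- The derivatives `∂g_{i j} / ∂z̄_l`. -/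
def G1b (i j l : Fin 2) (z : ℂ × ℂ) : ℂ :=
  uj (un i) (un j + un l) z - uj (un i) (un j) z * uj 0 (un l) z -
    uj (un i) (un l) z * uj 0 (un j) z + 2 * (uj (un i) 0 z * uj 0 (un j) z * uj 0 (un l) z) -
    uj (un i) 0 z * uj 0 (un j + un l) z

theorem Gm_wd (i j : Fin 2) (z : ℂ × ℂ) :
    HasWD (Gm i j) z (fun k => G1 i j k z) (fun l => G1b i j l z) := by
  have h : HasWD (Gm i j) z _ _ :=
    (uj_wd (un i) (un j) z).sub ((uj_wd (un i) 0 z).mul (uj_wd 0 (un j) z))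
  refine h.congr' (fun k => ?_) (fun k => ?_)
  · simp only [G1, zero_add]
    ring
  · simp only [G1b, zero_add]
    ring

/-- The derivatives `∂²g_{i j} / ∂z_k ∂z̄_l`. -/
def G2 (i j k l : Fin 2) (z : ℂ × ℂ) : ℂ :=
  (uj (un i + un k) (un j + un l) z - uj (un i) (un j + un l) z * uj (un k) 0 z) -
  ((uj (un i + un k) (un j) z - uj (un i) (un j) z * uj (un k) 0 z) * uj 0 (un l) z +
    uj (un i) (un j) z * (uj (un k) (un l) z - uj 0 (un l) z * uj (un k) 0 z)) -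
  ((uj (un i + un k) (un l) z - uj (un i) (un l) z * uj (un k) 0 z) * uj 0 (un j) z +
    uj (un i) (un l) z * (uj (un k) (un j) z - uj 0 (un j) z * uj (un k) 0 z)) +
  2 * (((uj (un i + un k) 0 z - uj (un i) 0 z * uj (un k) 0 z) * uj 0 (un j) z +
    uj (un i) 0 z * (uj (un k) (un j) z - uj 0 (un j) z * uj (un k) 0 z)) * uj 0 (un l) z +
    uj (un i) 0 z * uj 0 (un j) z * (uj (un k) (un l) z - uj 0 (un l) z * uj (un k) 0 z)) -
  ((uj (un i + un k) 0 z - uj (un i) 0 z * uj (un k) 0 z) * uj 0 (un j + un l) z +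
    uj (un i) 0 z * (uj (un k) (un j + un l) z - uj 0 (un j + un l) z * uj (un k) 0 z))

theorem G1b_dz (i j k l : Fin 2) (z : ℂ × ℂ) : dz k (G1b i j l) z = G2 i j k l z := by
  have h : HasWD (G1b i j l) z _ _ :=
    ((((uj_wd (un i) (un j + un l) z).sub ((uj_wd (un i) (un j) z).mul (uj_wd 0 (un l) z))).sub
      ((uj_wd (un i) (un l) z).mul (uj_wd 0 (un j) z))).add
      ((HasWD.const 2 z).mul (((uj_wd (un i) 0 z).mul (uj_wd 0 (un j) z)).mul
        (uj_wd 0 (un l) z)))).sub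
      ((uj_wd (un i) 0 z).mul (uj_wd 0 (un j + un l) z))
  rw [h.dz_eq k]
  simp only [G2, zero_add]
  ring

theorem dz_Gm (i j k : Fin 2) (z : ℂ × ℂ) : dz k (Gm i j) z = G1 i j k z := (Gm_wd i j z).dz_eq k

theorem dzb_Gm (i j l : Fin 2) (z : ℂ × ℂ) : dzb l (Gm i j) z = G1b i j l z :=
  (Gm_wd i j z).dzb_eq l

theorem dz_dzb_Gm (i j k l : Fin 2) (z : ℂ × ℂ) : dz k (dzb l (Gm i j)) z = G2 i j k l z := by
  have h : dzb l (Gm i j) = G1b i j l := funext fun w => dzb_Gm i j l w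
  rw [h, G1b_dz]

theorem G1_symm (i j k : Fin 2) (z : ℂ × ℂ) : G1 i j k z = G1 k j i z := by
  simp only [G1, add_comm (un k) (un i)]
  ring

end

end Pool.Agent.R882
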