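import Mathlib

/-!
The formula of Euler for a polynomial which may be reducible.
-/

set_option autoImplicit false
set_option linter.overlappingInstances false

open Polynomial IntermediateField Module

namespace Pool.Agent.R882.KR

section

variable {k F : Type} [Field k] [Field F] [Algebra k F]

/-- **The formula of Euler.** -/
theorem euler [FiniteDimensional k F] [Algebra.IsSeparable k F] {y : F} (hy : k⟮y⟯ = ⊤)
    {p : k[X]} (hp : aeval y p = 0) (hp' : aeval y (derivative p) ≠ 0) {δ : F[X]}
    (hδ : δ * (X - C y) = p.map (algebraMap k F)) {N : ℕ} (hN : δ.natDegree < N) (z : F) :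
    ∑ j ∈ Finset.range N, algebraMap k F (Algebra.trace k F
      (z * δ.coeff j / aeval y (derivative p))) * y ^ j = z := by
  classical
  let E := AlgebraicClosure F
  let ι : F →ₐ[k] E := IsScalarTower.toAlgHom k F E
  apply (algebraMap F E).injective
  have hι : ∀ x, algebraMap F E x = ι x := fun x => rfl
  rw [hι, hι, map_sum]
  have h1 : ∀ j ∈ Finset.range N, ι (algebraMap k F (Algebra.trace k F
      (z * δ.coeff j / aeval y (derivative p))) * y ^ j) =
      ∑ σ : F →ₐ[k] E, σ (z / aeval y (derivative p)) * (σ (δ.coeff j) * ι y ^ j) := by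
    intro j _
    rw [map_mul, map_pow, ι.commutes, trace_eq_sum_embeddings E, Finset.sum_mul]
    refine Finset.sum_congr rfl fun σ _ => ?_
    rw [← mul_assoc, ← map_mul]
    congr 2
    ring
  rw [Finset.sum_congr rfl h1, Finset.sum_comm]
  have h2 : ∀ σ : F →ₐ[k] E, ∑ j ∈ Finset.range N,
      σ (z / aeval y (derivative p)) * (σ (δ.coeff j) * ι y ^ j) =
      σ (z / aeval y (derivative p)) * (δ.map (σ : F →+* E)).eval (ι y) := by
    intro σ
    rw [← Finset.mul_sum, eval_eq_sum_range' (n := N)]
    · congr 1
      refine Finset.sum_congr rfl fun j _ => ?_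
      rw [coeff_map]
      rfl
    · exact natDegree_map_le.trans_lt hN
  rw [Finset.sum_congr rfl fun σ _ => h2 σ]
  -- the product
  have h3 : ∀ σ : F →ₐ[k] E, δ.map (σ : F →+* E) * (X - C (σ y)) =
      p.map (algebraMap k E) := by
    intro σ
    have h4 := congrArg (Polynomial.map (σ : F →+* E)) hδ
    rw [Polynomial.map_mul, Polynomial.map_sub, map_X, map_C, Polynomial.map_map] at h4
    have h5 : (σ : F →+* E).comp (algebraMap k F) = algebraMap k E := σ.comp_algebraMap
    rw [h5] at h4
    exact h4
  have hpι : (p.map (algebraMap k E)).eval (ι y) = 0 := by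
    rw [eval_map_algebraMap, aeval_algHom_apply, hp, map_zero]
  rw [Finset.sum_eq_single ι]
  · have h4 := congrArg (fun q => (derivative q).eval (ι y)) (h3 ι)
    simp only [derivative_mul, derivative_sub, derivative_X, derivative_C, sub_zero, mul_one,
      eval_add, eval_mul, eval_sub, eval_X, eval_C, sub_self, mul_zero, zero_add] at h4
    rw [h4, derivative_map, eval_map_algebraMap, aeval_algHom_apply, ← map_mul,
      div_mul_cancel₀ _ hp']
  · intro σ _ hσ
    have h4 : ι y - σ y ≠ 0 := by
      intro h
      apply hσ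
      let S : IntermediateField k F :=
        { AlgHom.equalizer σ ι with
          inv_mem' := fun x hx => by
            change σ x⁻¹ = ι x⁻¹
            have hx' : σ x = ι x := hx
            rw [map_inv₀, map_inv₀, hx'] }
      have h5 : k⟮y⟯ ≤ S := by
        rw [IntermediateField.adjoin_le_iff, Set.singleton_subset_iff]
        exact (sub_eq_zero.1 h).symm
      ext x
      exact h5 (by rw [hy]; trivial)
    have h5 := congrArg (Polynomial.eval (ι y)) (h3 σ)
    rw [eval_mul, eval_sub, eval_X, eval_C, hpι] at h5
    rw [(mul_eq_zero.1 h5).resolve_right h4, mul_zero]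
  · intro h
    exact absurd (Finset.mem_univ _) h

/-- the recurrence for the coefficients -/
theorem coeff_rec {y : F} {p : k[X]} {δ : F[X]} (hδ : δ * (X - C y) = p.map (algebraMap k F)) :
    (∀ j, δ.coeff j = algebraMap k F (p.coeff (j + 1)) + y * δ.coeff (j + 1)) ∧
      y * δ.coeff 0 = -algebraMap k F (p.coeff 0) := by
  constructor
  · intro j
    have h := congrArg (fun q => q.coeff (j + 1)) hδ
    simp only [mul_sub, coeff_sub, coeff_mul_X, coeff_mul_C, coeff_map] at h
    rw [← h]
    ring
  · have h := congrArg (fun q => q.coeff 0) hδ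
    simp only [mul_sub, coeff_sub, mul_coeff_zero, coeff_X_zero, mul_zero, coeff_C_zero, zero_sub,
      coeff_map] at h
    rw [← h]
    ring

/-- existence -/
theorem exists_div {y : F} {p : k[X]} (hp : aeval y p = 0) :
    ∃ δ : F[X], δ * (X - C y) = p.map (algebraMap k F) := by
  refine ⟨p.map (algebraMap k F) /ₘ (X - C y), ?_⟩
  rw [mul_comm, mul_divByMonic_eq_iff_isRoot, IsRoot, eval_map_algebraMap, hp]

theorem deg_div {y : F} {p : k[X]} {δ : F[X]} (hδ : δ * (X - C y) = p.map (algebraMap k F))
    (hp0 : p ≠ 0) : δ.natDegree + 1 = p.natDegree := by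
  have hδ0 : δ ≠ 0 := by
    rintro rfl
    rw [zero_mul] at hδ
    exact hp0 ((Polynomial.map_eq_zero _).1 hδ.symm)
  have h := congrArg Polynomial.natDegree hδ
  rw [natDegree_mul hδ0 (X_sub_C_ne_zero y), natDegree_X_sub_C, natDegree_map] at h
  exact h

end

end Pool.Agent.R882.KR
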