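import Pool.Agent.R882.KA
import Pool.Agent.R882.GLb
import Pool.Agent.Y692.NT.Tr
import Pool.Agent.W619.PQ.Rat

/-!
The regular differentials of a curve on a rational ruled surface.
-/

set_option autoImplicit false
set_option linter.overlappingInstances false
set_option linter.unusedSectionVars false

open Polynomial IntermediateField Module FF Pool.Agent.W619.PQ Pool.Agent.W603.LV

namespace Pool.Agent.R882.KR

section

variable {k : Type} [Field k] [CharZero k] [IsAlgClosed k] {E : Type} [Field E] [Algebra k E]
  [IsFF k E]

/-- functions without poles at finite distance are polynomials -/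
theorem poly_of_fin {x : E} (hx : k⟮x⟯ = ⊤) {g : E}
    (hfin : ∀ Q : Place k E, 0 ≤ Q.ord x → Ge Q 0 g) : ∃ p : k[X], aeval x p = g := by
  have ht := transcendental_of_top hx
  have hinj : ∀ p : k[X], aeval x p = 0 → p = 0 := fun p hp =>
    (transcendental_iff_injective.1 ht) (by rw [hp, map_zero])
  have key : ∀ (n : ℕ) (q p : k[X]), q.natDegree = n → q ≠ 0 → g * aeval x q = aeval x p →
      ∃ p' : k[X], aeval x p' = g := by
    intro n
    induction n with
    | zero =>
      intro q p hq hq0 h
      rw [Polynomial.eq_C_of_natDegree_eq_zero hq] at h hq0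
      have hc : q.coeff 0 ≠ 0 := fun h0 => hq0 (by rw [h0, C_0])
      refine ⟨C (q.coeff 0)⁻¹ * p, ?_⟩
      rw [map_mul, ← h, aeval_C, aeval_C, mul_left_comm, ← map_mul, inv_mul_cancel₀ hc, map_one,
        mul_one]
    | succ n ih =>
      intro q p hq hq0 h
      obtain ⟨c, hc⟩ := IsAlgClosed.exists_root q (by
        intro h0
        have := natDegree_eq_zero_iff_degree_le_zero.2 h0.le
        omega)
      obtain ⟨q1, hq1⟩ := dvd_iff_isRoot.2 hc
      obtain ⟨P, hP, -⟩ := zero_unique (top_sub hx c)
      have hs0 : x - algebraMap k E c ≠ 0 := by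
        intro h0
        rw [h0, P.ord_zero] at hP
        exact zero_ne_one hP
      have hPx : Ge P 0 x := by
        have h1 : Ge P 0 (x - algebraMap k E c) := Or.inr (by omega)
        have h2 := h1.add (Ge.const (P := P) c)
        rwa [sub_add_cancel] at h2
      have hxP : 0 ≤ P.ord x := by
        rcases hPx with h0 | h0
        · rw [h0, P.ord_zero]
        · exact h0
      have h1 : Ge P 1 (aeval x p) := by
        rw [← h, hq1, map_mul, ← mul_assoc, mul_comm g, mul_assoc]
        have h2 : Ge P 1 (aeval x (X - C c) : E) := by
          rw [map_sub, aeval_X, aeval_C]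
          exact Or.inr hP.ge
        have h3 : Ge P 0 (aeval x q1) := by
          rw [aeval_eq_sum_range]
          apply Ge.sum
          intro i _
          rw [Algebra.smul_def]
          have h4 : Ge P 0 (x ^ i) := by
            rcases hPx with h0 | h0
            · rcases Nat.eq_zero_or_pos i with h5 | h5
              · rw [h5, pow_zero]
                exact Or.inr (by rw [P.ord_one])
              · left
                rw [h0, zero_pow h5.ne']
            · right
              rw [P.ord_pow]
              positivity
          simpa using (Ge.const (P := P) (q1.coeff i)).mul h4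
        have h4 := h2.mul ((hfin P hxP).mul h3)
        simpa using h4
      have hpc : p.IsRoot c := by
        by_contra hne
        have h2 : (X - C c) ∣ p - C (p.eval c) := by
          rw [dvd_iff_isRoot]
          simp
        obtain ⟨p1, hp1⟩ := h2
        have h3 : aeval x p = (x - algebraMap k E c) * aeval x p1 + algebraMap k E (p.eval c) := by
          have h4 := congrArg (aeval x) hp1
          rw [map_sub, map_mul, map_sub, aeval_X, aeval_C, aeval_C] at h4
          rw [← h4, sub_add_cancel]
        have h5 : Ge P 0 (aeval x p1) := by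
          rw [aeval_eq_sum_range]
          apply Ge.sum
          intro i _
          rw [Algebra.smul_def]
          have h4 : Ge P 0 (x ^ i) := by
            rcases hPx with h0 | h0
            · rcases Nat.eq_zero_or_pos i with h5 | h5
              · rw [h5, pow_zero]
                exact Or.inr (by rw [P.ord_one])
              · left
                rw [h0, zero_pow h5.ne']
            · right
              rw [P.ord_pow]
              positivity
          simpa using (Ge.const (P := P) (p1.coeff i)).mul h4
        have h6 : Ge P 1 ((x - algebraMap k E c) * aeval x p1) := by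
          have h7 : Ge P 1 (x - algebraMap k E c) := Or.inr hP.ge
          simpa using h7.mul h5
        have h7 : Ge P 1 (algebraMap k E (p.eval c)) := by
          have h8 := h1.sub h6
          rwa [h3, add_sub_cancel_left] at h8
        rcases h7 with h8 | h8
        · exact hne ((_root_.map_eq_zero _).1 h8)
        · rw [P.ord_const hne] at h8
          omega
      obtain ⟨p1, hp1⟩ := dvd_iff_isRoot.2 hpc
      have hq10 : q1 ≠ 0 := by
        rintro rfl
        rw [mul_zero] at hq1
        exact hq0 hq1
      refine ih q1 p1 ?_ hq10 ?_
      · rw [hq1, natDegree_mul (X_sub_C_ne_zero c) hq10, natDegree_X_sub_C] at hq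
        omega
      · rw [hq1, hp1, map_mul, map_mul, map_sub, aeval_X, aeval_C] at h
        apply mul_left_cancel₀ hs0
        rw [← h]
        ring
  have hg : g ∈ k⟮x⟯ := by
    rw [hx]
    trivial
  obtain ⟨p, q, hpq⟩ := mem_adjoin_simple_iff k g |>.1 hg
  by_cases hq : q = 0
  · refine ⟨0, ?_⟩
    rw [hpq, hq]
    simp
  · refine key _ q p rfl hq ?_
    rw [hpq, div_mul_cancel₀]
    exact fun h => hq (hinj q h)

/-- functions with a bounded pole at infinity are polynomials of bounded degree -/
theorem poly_of_reg {x : E} (hx : k⟮x⟯ = ⊤) {g : E}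
    (hfin : ∀ Q : Place k E, 0 ≤ Q.ord x → Ge Q 0 g) {m : ℤ}
    (hinf : ∀ Q : Place k E, Q.ord x < 0 → Ge Q (-m) g) :
    ∃ p : k[X], aeval x p = g ∧ ∀ i ∈ p.support, (i : ℤ) ≤ m := by
  obtain ⟨p, hp⟩ := poly_of_fin hx hfin
  refine ⟨p, hp, fun i hi => ?_⟩
  have hp0 : p ≠ 0 := by
    rintro rfl
    simp at hi
  obtain ⟨P, hP, -⟩ := pole_unique hx
  have hPn : P.ord x < 0 := by omega
  obtain ⟨h1, h2⟩ := ord_aeval_of_neg P hPn hp0
  rcases hinf P hPn with h3 | h3
  · exact absurd (hp.trans h3) h1
  · rw [← hp, h2, hP] at h3
    have h4 := le_natDegree_of_mem_supp i hi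
    omega

end

section

variable {k F : Type} [Field k] [Field F] [Algebra k F]

/-- the bound for the coefficients -/
theorem coeff_ge (P : Place k F) {y : F} (hy0 : y ≠ 0) {b : ℕ} {c γ : ℕ → F} {e : ℤ}
    {a m : ℤ} (hc : ∀ i ≤ b, Ge P (-(e * (a + m * (b - i)))) (c i))
    (hrec : ∀ j, γ j = c (j + 1) + y * γ (j + 1)) (h0 : y * γ 0 = -c 0)
    (hb : ∀ j, b ≤ j → γ j = 0) (j : ℕ) (hj : j < b) :
    Ge P (-(e * (a + m * (b - 1 - j)))) (γ j) := by
  rcases le_or_gt (-(e * m)) (P.ord y) with hy | hy
  · have key : ∀ i : ℕ, i ≤ b → Ge P (-(e * (a + m * (i - 1)))) (γ (b - i)) := by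
      intro i
      induction i with
      | zero =>
        intro _
        rw [hb _ (by omega)]
        exact Or.inl rfl
      | succ i ih =>
        intro hi
        have h1 := hrec (b - (i + 1))
        have h2 : b - (i + 1) + 1 = b - i := by omega
        rw [h2] at h1
        rw [h1]
        refine Ge.add ?_ ?_
        · have h3 := hc (b - i) (by omega)
          have h4 : ((b - i : ℕ) : ℤ) = b - i := by omega
          rw [h4] at h3
          have h5 : -(e * (a + m * ((b : ℤ) - (b - i)))) =
            -(e * (a + m * (((i + 1 : ℕ) : ℤ) - 1))) := by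
            push_cast
            ring
          rwa [h5] at h3
        · have h3 : Ge P (-(e * m)) y := Or.inr hy
          have h4 := h3.mul (ih (by omega))
          refine h4.mono (le_of_eq ?_)
          push_cast
          ring
    have h1 := key (b - j) (by omega)
    have h2 : b - (b - j) = j := by omega
    rw [h2] at h1
    have h3 : ((b - j : ℕ) : ℤ) = b - j := by omega
    rw [h3] at h1
    refine h1.mono (le_of_eq ?_)
    ring
  · have hyi : Ge P (e * m) y⁻¹ := Or.inr (by rw [P.ord_inv]; omega)
    have key : ∀ i : ℕ, i < b → Ge P (-(e * (a + m * (b - 1 - i)))) (γ i) := by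
      intro i
      induction i with
      | zero =>
        intro hi
        have h1 : γ 0 = y⁻¹ * (-c 0) := by
          rw [← h0, ← mul_assoc, inv_mul_cancel₀ hy0, one_mul]
        rw [h1]
        have h2 := hyi.mul (hc 0 (by omega)).neg
        refine h2.mono (le_of_eq ?_)
        push_cast
        ring
      | succ i ih =>
        intro hi
        have h1 : γ (i + 1) = y⁻¹ * (γ i - c (i + 1)) := by
          rw [hrec i, add_sub_cancel_left, ← mul_assoc, inv_mul_cancel₀ hy0, one_mul]
        rw [h1]
        have h2 := hc (i + 1) (by omega)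
        have h3 : -(e * (a + m * ((b : ℤ) - ((i + 1 : ℕ) : ℤ)))) =
          -(e * (a + m * (b - 1 - i))) := by
          push_cast
          ring
        rw [h3] at h2
        have h4 := hyi.mul ((ih (by omega)).sub h2)
        refine h4.mono (le_of_eq ?_)
        push_cast
        ring
    exact key j hj

end

end Pool.Agent.R882.KR
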