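import Pool.Agent.R882.KB

/-!
The regular differentials of a curve on a rational ruled surface.
-/

set_option autoImplicit false
set_option linter.overlappingInstances false
set_option linter.unusedSectionVars false
set_option maxHeartbeats 4000000
set_option synthInstance.maxHeartbeats 400000

open Polynomial IntermediateField Module FF Pool.Agent.W619.PQ Pool.Agent.W603.LV

namespace Pool.Agent.R882.KR

section

variable {k F : Type} [Field k] [CharZero k] [IsAlgClosed k] [Field F] [Algebra k F]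

theorem isFF_simple (hFF : IsFF k F) {x : F} (hx : Transcendental k x) : IsFF k k⟮x⟯ := by
  have hfin : FiniteDimensional k⟮x⟯ F := IsFF.finite hx
  have hess : Algebra.EssFiniteType k k⟮x⟯ := by
    rw [IntermediateField.essFiniteType_iff]
    exact ⟨{x}, by simp⟩
  have htrE : Algebra.trdeg k k⟮x⟯ = 1 := by
    have h1 := trdeg_add_eq k k⟮x⟯ (A := F)
    have h2 : Algebra.trdeg k⟮x⟯ F = 0 := trdeg_eq_zero
    rw [h2, add_zero, hFF.trdeg] at h1
    exact h1
  exact ⟨hess, htrE⟩

theorem gen_top (x : F) : k⟮(⟨x, mem_adjoin_simple_self k x⟩ : k⟮x⟯)⟯ = ⊤ := by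
  apply IntermediateField.map_injective (k⟮x⟯.val)
  rw [IntermediateField.adjoin_map, ← AlgHom.fieldRange_eq_map, IntermediateField.fieldRange_val,
    Set.image_singleton]
  rfl

/-- **Traces of a regular differential times a function with bounded poles.** -/
theorem trace_poly (hFF : IsFF k F) {x : F} (hx : Transcendental k x) {D : Derivation k F F}
    (hD : D x = 1) {h γ : F} {W : ℤ} (hh : ∀ Q : Place k F, Ge Q (vo Q D) h)
    (hγ : ∀ Q : Place k F, 0 ≤ Q.ord x → Ge Q 0 γ)
    (hγ' : ∀ Q : Place k F, Q.ord x < 0 → Ge Q (Q.ord x * W) γ) :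
    ∃ p : k[X], ((Algebra.trace k⟮x⟯ F (h * γ) : k⟮x⟯) : F) = aeval x p ∧
      ∀ i ∈ p.support, (i : ℤ) + 2 ≤ W := by
  classical
  have hfin : FiniteDimensional k⟮x⟯ F := IsFF.finite hx
  have hFFE := isFF_simple hFF hx
  obtain ⟨xx, hxx⟩ : ∃ xx : k⟮x⟯, xx = ⟨x, mem_adjoin_simple_self k x⟩ := ⟨_, rfl⟩
  have htop : k⟮xx⟯ = ⊤ := by
    rw [hxx]
    exact gen_top x
  have hxx' : algebraMap k⟮x⟯ F xx = x := by
    rw [hxx]
    rfl
  have hxxt := transcendental_of_top htop
  have hxx0 : xx ≠ 0 := by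
    rintro rfl
    exact hxxt isAlgebraic_zero
  obtain ⟨D0, hD0, hD0x⟩ := exists_ddx hxxt
  obtain ⟨D2, hD2, hext2⟩ := exists_ext (E := F) D0 hD0
  have hDne : D ≠ 0 := by
    intro h
    rw [h] at hD
    exact zero_ne_one hD
  have hDD : ∀ z : F, D2 z = D z := by
    refine der_ext hx ?_
    have h1 := hext2 xx
    rw [hD0x, map_one, hxx'] at h1
    rw [hD, h1]
  have hext : ∀ z : k⟮x⟯, D (algebraMap k⟮x⟯ F z) = algebraMap k⟮x⟯ F (D0 z) := fun z => by
    rw [← hDD, hext2]
  obtain ⟨g, hg⟩ : ∃ g, g = Algebra.trace k⟮x⟯ F (h * γ) := ⟨_, rfl⟩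
  have hA : ∀ q : Place k k⟮x⟯, 0 ≤ q.ord xx → Ge q 0 g := by
    intro q hq
    rw [hg]
    refine Pool.Agent.Y692.NT.trace_reg q _ fun w e hwe => ?_
    have h1 := vo_over hwe hD0 hDne hext
    have h2 := (vo_finite_place htop hD0 hD0x q hq).1
    rw [h2, mul_zero] at h1
    have h3 : w.ord x = e * q.ord xx := by
      rw [← hwe.2, hxx']
    have h4 : 0 ≤ w.ord x := by
      rw [h3]
      positivity
    have h5 := (hh w).mul (hγ w h4)
    refine h5.mono ?_
    rw [h1]
    omega
  have hB : ∀ q : Place k k⟮x⟯, q.ord xx < 0 → Ge q (-(W - 2)) g := by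
    intro q hq
    obtain ⟨P, hP, hP'⟩ := pole_unique htop
    have hqP := hP' q hq
    rw [← hqP] at hP
    have h2 := vo_infinite_place hD0 hD0x q hP
    have h6 : Ge q 0 (Algebra.trace k⟮x⟯ F (algebraMap k⟮x⟯ F (xx ^ (2 - W)) * (h * γ))) := by
      refine Pool.Agent.Y692.NT.trace_reg q _ fun w e hwe => ?_
      have h1 := vo_over hwe hD0 hDne hext
      rw [h2] at h1
      have h3 : w.ord x = -e := by
        rw [← hxx', hwe.2, hP]
        ring
      have he : (1 : ℤ) ≤ e := by exact_mod_cast hwe.1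
      have h5 := (hh w).mul (hγ' w (by omega))
      have h7 : Ge w (e * ((2 - W) * -1)) (algebraMap k⟮x⟯ F (xx ^ (2 - W))) := by
        right
        rw [hwe.2, q.ord_zpow, hP]
      have h8 := h7.mul h5
      refine h8.mono ?_
      rw [h1, h3]
      ring_nf
      omega
    have h7 : Algebra.trace k⟮x⟯ F (algebraMap k⟮x⟯ F (xx ^ (2 - W)) * (h * γ)) =
        xx ^ (2 - W) * g := by
      rw [← Algebra.smul_def, map_smul, smul_eq_mul, hg]
    rw [h7] at h6
    rcases h6 with h8 | h8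
    · left
      exact (mul_eq_zero.1 h8).resolve_left (zpow_ne_zero _ hxx0)
    · by_cases hg0 : g = 0
      · exact Or.inl hg0
      · right
        rw [q.ord_mul (zpow_ne_zero _ hxx0) hg0, q.ord_zpow, hP] at h8
        omega
  obtain ⟨p, hp, hsupp⟩ := poly_of_reg htop hA hB
  refine ⟨p, ?_, fun i hi => by have := hsupp i hi; omega⟩
  rw [← hg, ← hp]
  have h1 := aeval_algebraMap_apply F xx p
  rw [hxx'] at h1
  exact h1.symm

/-- **The regular differentials of a curve on a rational ruled surface.** -/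
theorem span_ruled (hFF : IsFF k F) {x y : F} (hx : Transcendental k x) (hy0 : y ≠ 0)
    (hgen : IntermediateField.adjoin k {x, y} = ⊤) {a m b : ℕ} {c : ℕ → k[X]}
    (hc : ∀ i ≤ b, (c i).natDegree ≤ a + m * (b - i)) (hcb : ∀ i, b < i → c i = 0)
    (hy : ∑ i ∈ Finset.range (b + 1), aeval x (c i) * y ^ i = 0) {H : F}
    (hH : H = ∑ i ∈ Finset.range (b + 1), (i : F) * aeval x (c i) * y ^ i) (hH0 : H ≠ 0)
    {D : Derivation k F F} (hD : D ≠ 0) {f : F} (hf : ∀ Q : Place k F, Ge Q (vo Q D) f) :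
    f ∈ Submodule.span k {z : F | ∃ i j : ℕ, 1 ≤ i ∧ 1 ≤ j ∧ j + 1 ≤ b ∧
      i + 1 ≤ a + m * (b - j) ∧ z = x ^ i * y ^ j * (D x / x) / H} := by
  classical
  have hfin : FiniteDimensional k⟮x⟯ F := IsFF.finite hx
  have hx0 : x ≠ 0 := by
    rintro rfl
    exact hx isAlgebraic_zero
  have hDx : D x ≠ 0 := der_ne_zero hD hx
  obtain ⟨D1, hD1⟩ : ∃ D1, D1 = (D x)⁻¹ • D := ⟨_, rfl⟩
  have hD1x : D1 x = 1 := by
    rw [hD1, Derivation.smul_apply, smul_eq_mul, inv_mul_cancel₀ hDx]
  obtain ⟨h, hh⟩ : ∃ h, h = f / D x := ⟨_, rfl⟩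
  have hreg : ∀ Q : Place k F, Ge Q (vo Q D1) h := by
    intro Q
    have h1 := vo_smul Q hD (inv_ne_zero hDx)
    rw [hD1, h1, Q.ord_inv, hh, div_eq_mul_inv]
    have h2 : Ge Q (-Q.ord (D x)) (D x)⁻¹ := Or.inr (by rw [Q.ord_inv])
    have h3 := (hf Q).mul h2
    refine h3.mono ?_
    omega
  obtain ⟨xx, hxx⟩ : ∃ xx : k⟮x⟯, xx = ⟨x, mem_adjoin_simple_self k x⟩ := ⟨_, rfl⟩
  have hxx' : algebraMap k⟮x⟯ F xx = x := by
    rw [hxx]
    rfl
  have haev : ∀ q : k[X], algebraMap k⟮x⟯ F (aeval xx q) = aeval x q := by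
    intro q
    have h1 := aeval_algebraMap_apply F xx q
    rw [hxx'] at h1
    exact h1.symm
  obtain ⟨p, hp⟩ : ∃ p : k⟮x⟯[X], p = ∑ i ∈ Finset.range (b + 1), monomial i (aeval xx (c i)) :=
    ⟨_, rfl⟩
  have hcoeff : ∀ i, p.coeff i = aeval xx (c i) := by
    intro i
    rw [hp, finsetSum_coeff]
    simp only [coeff_monomial]
    by_cases hi : i ≤ b
    · rw [Finset.sum_eq_single i]
      · rw [if_pos rfl]
      · intro j _ hj
        rw [if_neg hj]
      · intro h1
        exact absurd (Finset.mem_range.2 (by omega)) h1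
    · rw [hcb i (by omega), map_zero]
      refine Finset.sum_eq_zero fun j hj => ?_
      rw [if_neg]
      rw [Finset.mem_range] at hj
      omega
  have hpy : aeval y p = 0 := by
    rw [hp, map_sum, ← hy]
    refine Finset.sum_congr rfl fun i _ => ?_
    rw [aeval_monomial, haev]
  have hpH : y * aeval y (derivative p) = H := by
    rw [hp, derivative_sum, map_sum, hH, Finset.mul_sum]
    refine Finset.sum_congr rfl fun i _ => ?_
    rw [derivative_monomial, aeval_monomial, map_mul, haev]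
    rcases Nat.eq_zero_or_pos i with hi | hi
    · rw [hi]
      simp
    · have h1 : y ^ i = y * y ^ (i - 1) := by
        rw [← pow_succ', Nat.sub_add_cancel hi]
      rw [h1, map_natCast]
      ring
  have hp' : aeval y (derivative p) ≠ 0 := by
    intro h0
    rw [h0, mul_zero] at hpH
    exact hH0 hpH.symm
  have hp0 : p ≠ 0 := by
    intro h0
    rw [h0] at hp'
    simp at hp'
  have hpdeg : p.natDegree ≤ b := by
    rw [natDegree_le_iff_coeff_eq_zero]
    intro i hi
    rw [hcoeff, hcb i hi, map_zero]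
  obtain ⟨δ, hδ⟩ := exists_div hpy
  have hdeg := deg_div hδ hp0
  obtain ⟨hrec, hrec0⟩ := coeff_rec hδ
  have hgenE : k⟮x⟯⟮y⟯ = ⊤ := by
    apply IntermediateField.restrictScalars_injective k
    rw [IntermediateField.adjoin_simple_adjoin_simple, hgen]
    rfl
  have heul := euler hgenE hpy hp' hδ (N := b) (by omega) (h * aeval y (derivative p))
  have hγb : ∀ j, b ≤ j → δ.coeff j = 0 := fun j hj =>
    coeff_eq_zero_of_natDegree_lt (by omega)
  -- the coefficients at the places
  have hcfin : ∀ (Q : Place k F), 0 ≤ Q.ord x → ∀ q : k[X], Ge Q 0 (aeval x q) := by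
    intro Q hQ q
    rw [aeval_eq_sum_range]
    apply Ge.sum
    intro i _
    rw [Algebra.smul_def]
    have h4 : Ge Q 0 (x ^ i) := by
      right
      rw [Q.ord_pow]
      positivity
    simpa using (Ge.const (P := Q) (q.coeff i)).mul h4
  have hcinf : ∀ (Q : Place k F), Q.ord x < 0 → ∀ (q : k[X]) (d : ℤ), (q.natDegree : ℤ) ≤ d →
      Ge Q (Q.ord x * d) (aeval x q) := by
    intro Q hQ q d hd
    by_cases hq : q = 0
    · left
      rw [hq, map_zero]
    · right
      rw [(ord_aeval_of_neg Q hQ hq).2, mul_comm]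
      exact mul_le_mul_of_nonpos_right hd hQ.le
  have hγfin : ∀ j < b, ∀ Q : Place k F, 0 ≤ Q.ord x → Ge Q 0 (δ.coeff j) := by
    intro j hj Q hQ
    have h1 := coeff_ge (a := a) (m := m) (e := 0) Q hy0 (c := fun i => aeval x (c i))
      (γ := fun j => δ.coeff j) (fun i _ => by simpa using hcfin Q hQ (c i))
      (fun j => by rw [hrec, hcoeff, haev]) (by rw [hrec0, hcoeff, haev]) hγb j hj
    simpa using h1
  have hγinf : ∀ j < b, ∀ Q : Place k F, Q.ord x < 0 →
      Ge Q (Q.ord x * (a + m * ((b : ℤ) - 1 - j))) (δ.coeff j) := by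
    intro j hj Q hQ
    have h1 := coeff_ge (a := a) (m := m) (e := -Q.ord x) Q hy0 (c := fun i => aeval x (c i))
      (γ := fun j => δ.coeff j) (fun i hi => by
        have h2 := hcinf Q hQ (c i) (a + m * ((b : ℤ) - i)) (by
          have h3 := hc i hi
          have h4 : ((b - i : ℕ) : ℤ) = b - i := by omega
          rw [← h4]
          exact_mod_cast h3)
        refine h2.mono (le_of_eq ?_)
        ring)
      (fun j => by rw [hrec, hcoeff, haev]) (by rw [hrec0, hcoeff, haev]) hγb j hj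
    refine h1.mono (le_of_eq ?_)
    ring
  have htr : ∀ j < b, ∃ P : k[X], ((Algebra.trace k⟮x⟯ F (h * δ.coeff j) : k⟮x⟯) : F) = aeval x P ∧
      (∀ i ∈ P.support, (i : ℤ) + 2 ≤ a + m * ((b : ℤ) - 1 - j)) ∧ (j + 1 = b → P = 0) := by
    intro j hj
    by_cases hjb : j + 1 = b
    · refine ⟨0, ?_, by simp, fun _ => rfl⟩
      have h1 := hrec j
      rw [hγb (j + 1) (by omega), mul_zero, add_zero] at h1
      obtain ⟨P, hP, hP'⟩ := trace_poly hFF hx hD1x (h := h) (γ := 1) (W := 0) hreg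
        (fun Q _ => Or.inr (by rw [Q.ord_one])) (fun Q _ => Or.inr (by rw [Q.ord_one, mul_zero]))
      have hP0 : P = 0 := by
        rw [← Polynomial.support_eq_empty, Finset.eq_empty_iff_forall_notMem]
        intro i hi
        have := hP' i hi
        omega
      rw [mul_one, hP0, map_zero] at hP
      rw [h1, mul_comm, ← Algebra.smul_def, map_smul, smul_eq_mul, map_zero]
      have h2 : Algebra.trace k⟮x⟯ F h = 0 := Subtype.ext hP
      rw [h2, mul_zero]
      rfl
    · obtain ⟨P, hP, hP'⟩ := trace_poly hFF hx hD1x (h := h) (γ := δ.coeff j) hreg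
        (hγfin j hj) (hγinf j hj)
      exact ⟨P, hP, hP', fun h1 => absurd h1 hjb⟩
  have hfe : f = D x / x * x * (y / H) * (h * aeval y (derivative p)) := by
    rw [hh, ← hpH]
    field_simp
  rw [hfe, ← heul, Finset.mul_sum]
  refine Submodule.sum_mem _ fun j hj => ?_
  rw [Finset.mem_range] at hj
  obtain ⟨P, hP, hP1, hP2⟩ := htr j hj
  have h1 : h * aeval y (derivative p) * δ.coeff j / aeval y (derivative p) = h * δ.coeff j := by
    field_simp
  rw [h1]
  have h2 : algebraMap k⟮x⟯ F (Algebra.trace k⟮x⟯ F (h * δ.coeff j)) = aeval x P := hP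
  rw [h2, aeval_def, eval₂_eq_sum, Polynomial.sum, Finset.sum_mul, Finset.mul_sum]
  refine Submodule.sum_mem _ fun i hi => ?_
  have h3 := hP1 i hi
  have hjb : j + 1 ≠ b := by
    intro h4
    rw [hP2 h4] at hi
    simp at hi
  have h4 : D x / x * x * (y / H) * (algebraMap k F (P.coeff i) * x ^ i * y ^ j) =
      P.coeff i • (x ^ (i + 1) * y ^ (j + 1) * (D x / x) / H) := by
    rw [Algebra.smul_def]
    ring
  rw [h4]
  refine Submodule.smul_mem _ _ (Submodule.subset_span ⟨i + 1, j + 1, by omega, by omega,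
    by omega, ?_, rfl⟩)
  have h5 : ((b - (j + 1) : ℕ) : ℤ) = b - 1 - j := by omega
  have h6 : ((i + 1 + 1 : ℕ) : ℤ) ≤ ((a + m * (b - (j + 1)) : ℕ) : ℤ) := by
    push_cast [h5]
    push_cast at h3
    linarith
  exact_mod_cast h6

end

end Pool.Agent.R882.KR
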