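import Pool.Agent.R882.TEll

/-!
Images of nondegenerate complete intersections which are fibred by curves of genus one.
-/

set_option autoImplicit false
set_option linter.overlappingInstances false
set_option linter.unusedSectionVars false
set_option maxHeartbeats 4000000
set_option synthInstance.maxHeartbeats 400000

open IntermediateField Module FF Pool.Agent.W619.PQ Pool.Agent.W603.LV Pool.Agent.R885
open Pool.Agent.W602.GT (Divisorial RegAt IsPluri)
open Pool.Agent.W619.TW (NumLe IsSec HasIndep Dom)
open scoped Matrix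

namespace Pool.Agent.R882.GL

variable {K : Type} [Field K] [Algebra ℂ K]

open scoped IntermediateField.algebraAdjoinAdjoin in
/-- algebraicity by the transcendence degree -/
theorem alg_of_trdeg {G H : Set K} {d : ℕ}
    (hG : Algebra.trdeg ℂ (IntermediateField.adjoin ℂ G) = (d : ℕ))
    (hH : Algebra.trdeg ℂ (IntermediateField.adjoin ℂ H) = (d : ℕ))
    (hHG : H ⊆ IntermediateField.adjoin ℂ G) {z : K} (hz : z ∈ IntermediateField.adjoin ℂ G) :
    IsAlgebraic (IntermediateField.adjoin ℂ H) z := by
  obtain ⟨t, htH, ht, -⟩ := exists_mono_basis hH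
  have hle : IntermediateField.adjoin ℂ (Set.range t) ≤ IntermediateField.adjoin ℂ H := by
    rw [IntermediateField.adjoin_le_iff]
    rintro _ ⟨j, rfl⟩
    exact IntermediateField.subset_adjoin _ _ (htH j)
  by_contra hcon
  have hcon' : Transcendental (Algebra.adjoin ℂ (Set.range t)) z := by
    intro h
    apply hcon
    have h1 := (IsFractionRing.isAlgebraic_iff (Algebra.adjoin ℂ (Set.range t))
      (IntermediateField.adjoin ℂ (Set.range t)) K).1 h
    let iA : Algebra (IntermediateField.adjoin ℂ (Set.range t)) (IntermediateField.adjoin ℂ H) :=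
      (IntermediateField.inclusion hle).toRingHom.toAlgebra
    have hT : IsScalarTower (IntermediateField.adjoin ℂ (Set.range t))
        (IntermediateField.adjoin ℂ H) K := IsScalarTower.of_algebraMap_eq fun c => rfl
    exact h1.tower_top (IntermediateField.adjoin ℂ H)
  have h1 := (ht.option_iff_transcendental z).2 hcon'
  let tE : Fin d → IntermediateField.adjoin ℂ G := fun j => ⟨t j, hHG (htH j)⟩
  let zE : IntermediateField.adjoin ℂ G := ⟨z, hz⟩
  have h2 : AlgebraicIndependent ℂ
      fun o : Option (Fin d) => (o.elim zE tE : IntermediateField.adjoin ℂ G) := by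
    refine AlgebraicIndependent.of_comp (IntermediateField.adjoin ℂ G).val ?_
    have h3 : ((IntermediateField.adjoin ℂ G).val ∘ fun o : Option (Fin d) =>
        (o.elim zE tE : IntermediateField.adjoin ℂ G)) =
        fun o : Option (Fin d) => o.elim z t := by
      funext o
      rcases o with _ | j
      · rfl
      · rfl
    rw [h3]
    exact h1
  have h3 := h2.cardinalMk_le_trdeg
  rw [hG, Cardinal.mk_fintype, Fintype.card_option, Fintype.card_fin] at h3
  have h5 : d + 1 ≤ d := by exact_mod_cast h3
  omega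

/-- **The residue form generates the differentials of the fibres of genus one.** -/
theorem span_toric {n q r : ℕ} (hr : r = (n + 1) + q) {x : Fin r → K} (hx : ∀ i, x i ≠ 0)
    (hgen : IntermediateField.adjoin ℂ (Set.range x) = ⊤) {f : Fin q → (Fin r → ℤ) →₀ ℂ}
    (hf : ∀ l, ev x (f l) = 0) (hnd : ∀ v, NonDeg ℂ f v) (hF : (FineInt f).Nonempty)
    (hd : Algebra.trdeg ℂ (IntermediateField.adjoin ℂ {z : K | ∃ w ∈ dirs f, z = mono x w}) =
      (n : ℕ)) {B : IntermediateField ℂ K} (hBd : ∀ w ∈ dirs f, mono x w ∈ B)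
    {ω : (Fin (n + 1) → Derivation ℂ K K) → K}
    (hne : ∀ (Z : Fin (n + 1) → K), IsTranscendenceBasis ℂ Z →
      ∀ D0 : Fin (n + 1) → Derivation ℂ K K,
        (∀ i j, D0 i (Z j) = if i = j then 1 else 0) → ω D0 ≠ 0) :
    SpanFib (J := Unit) B (fun _ => ω) := by
  classical
  intro Λ F _ _ _ _ _ _ _ φ hFF hgenF hBΛ htransc t ξ ht hZ E hE D hD hreg g hg0 hg
  have hΛ0 : CharZero Λ := charZero_of_injective_algebraMap (algebraMap ℂ Λ).injective
  have hinj : Function.Injective φ := (φ : K →+* F).injective
  have hini : ∀ g : (Fin r → ℤ) →₀ ℂ, ini 0 g = g := by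
    intro g
    by_cases hg : g = 0
    · rw [hg]
      unfold ini
      rw [Finsupp.filter_zero]
    · exact ini_zero hg
  have hf0 : ∀ l, f l ≠ 0 := by
    have h1 := nd_ext (hnd 0) K x hx fun l => by rw [hini]; exact hf l
    intro l h0
    have h2 := h1.ne_zero l
    apply h2
    rw [hini, h0]
    funext i
    unfold gr
    exact Finsupp.sum_zero_index
  obtain ⟨u0, c, S, A, hc, hA, hF', hS, hpos, hgr, hdirs⟩ := exists_tight hf0 hF
  obtain ⟨t0, htG, htind, htalg⟩ := exists_mono_basis hd
  choose w hw hwt using htG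
  have hwS : ∀ j, ∀ s ∈ S, w j ⬝ᵥ s = 0 := fun j => (hdirs (w j)).1 (hw j)
  choose t' ht' using fun j => hBΛ (mono x (w j)) (hBd _ (hw j))
  have hmono : ∀ w' : Fin r → ℤ, φ (mono x w') = mono (fun i => φ (x i)) w' := fun w' =>
    map_mono (φ : K →+* F) x w'
  have hind' : AlgebraicIndependent ℂ t' := by
    refine AlgebraicIndependent.of_comp (IsScalarTower.toAlgHom ℂ Λ F) ?_
    have h1 : (IsScalarTower.toAlgHom ℂ Λ F : Λ → F) ∘ t' = fun j => φ (t0 j) := by
      funext j
      rw [hwt]
      exact ht' j
    rw [h1]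
    exact htind.map' (f := φ) hinj
  have e' : (Fin q ⊕ Fin n) ⊕ Fin (0 + 1) ≃ Fin r := Fintype.equivOfCardEq (by
    simp only [Fintype.card_sum, Fintype.card_fin]
    omega)
  have hnum : NumLe Λ F (0 + 1) (fun _ => False) 0 := by
    refine fibre_zero (k := ℂ) (f := f) (S := S) (u0 := u0) (c := c) (w := w) (t := t')
      (x := fun i => φ (x i)) e' (by rw [hFF.trdeg]; simp) ?_ ?_ hf0 ?_ hnd hc hF' hS hpos ?_
      hwS hind' ?_ ?_
    · intro i h0
      exact hx i (hinj (by rw [h0, map_zero]))
    · rw [eq_top_iff, ← hgenF, IntermediateField.adjoin_le_iff]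
      rintro _ ⟨z, rfl⟩
      have hz : z ∈ IntermediateField.adjoin ℂ (Set.range x) := by
        rw [hgen]
        trivial
      have h1 : IntermediateField.adjoin ℂ (Set.range x) ≤
          ((IntermediateField.adjoin Λ (Set.range fun i => φ (x i))).restrictScalars ℂ).comap
            φ := by
        rw [IntermediateField.adjoin_le_iff]
        rintro _ ⟨i, rfl⟩
        exact IntermediateField.subset_adjoin Λ _ ⟨i, rfl⟩
      exact h1 hz
    · intro l
      rw [← map_ev, hf, map_zero]
    · intro j h0
      have h1 : t0 j = algebraMap ℂ K 1 := by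
        rw [hwt, h0, mono_zero, map_one]
      have h2 := htind.transcendental j
      rw [h1] at h2
      exact h2 (isAlgebraic_algebraMap 1)
    · intro j
      rw [ht', hmono]
    · intro w' hw'
      obtain ⟨a, ha⟩ := hBΛ (mono x w') (hBd _ ((hdirs w').2 hw'))
      exact ⟨a, by rw [ha, hmono]⟩
  have hne' : φ (ω E) ≠ 0 := by
    intro h0
    exact hne _ hZ E hE (hinj (by rw [h0, map_zero]))
  obtain ⟨a, ha⟩ := prop_of_num hFF hnum hD hne'
    (fun Q => (hreg () Q).resolve_left hne') hg
  rw [ha]
  exact Submodule.smul_mem _ _ (Submodule.subset_span ⟨(), rfl⟩)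

end Pool.Agent.R882.GL
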