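import Pool.Agent.R882.KC
import Pool.Agent.R882.TEll2

/-!
Nondegenerate hypersurfaces fibred by curves on rational ruled surfaces.
-/

set_option autoImplicit false
set_option linter.overlappingInstances false
set_option linter.unusedSectionVars false
set_option maxHeartbeats 4000000
set_option synthInstance.maxHeartbeats 400000

open IntermediateField Module FF Pool.Agent.W619.PQ Pool.Agent.W603.LV Pool.Agent.R885
open Pool.Agent.W602.GT (Divisorial RegAt IsPluri)
open scoped Matrix

namespace Pool.Agent.R882.KR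

open Pool.Agent.R882.GL (SpanFib)

section

variable {K : Type} [Field K] {n : ℕ}

/-- the last coordinate and the others -/
def ee (n : ℕ) : Fin 1 ⊕ Fin (n + 1) ≃ Fin (n + 1 + 1) :=
  (Equiv.sumComm _ _).trans finSumFinEquiv

theorem ee_inl (l : Fin 1) : ee n (Sum.inl l) = Fin.last (n + 1) := by
  ext
  simp [ee]

theorem ee_inr (b : Fin (n + 1)) : ee n (Sum.inr b) = b.castSucc := rfl

/-- the first coordinates -/
def CC (n : ℕ) : Fin (n + 1) → Fin (n + 1 + 1) → ℤ := fun b => Pi.single b.castSucc 1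

theorem dt_CC (G : Fin 1 → Fin (n + 1 + 1) → K) : dt (ee n) G (CC n) = G 0 (Fin.last _) := by
  unfold dt
  have h1 : (Matrix.of fun a b => rows G (CC n) a (ee n b)) =
      Matrix.fromBlocks (Matrix.of fun _ _ : Fin 1 => G 0 (Fin.last _))
        (Matrix.of fun _ b => G 0 (Fin.castSucc b)) 0 1 := by
    ext a b
    rcases a with a | a <;> rcases b with b | b
    · rw [Matrix.fromBlocks_apply₁₁, Matrix.of_apply, Matrix.of_apply, ee_inl]
      rw [Subsingleton.elim a 0]
      rfl
    · rw [Matrix.fromBlocks_apply₁₂, Matrix.of_apply, Matrix.of_apply, ee_inr]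
      rw [Subsingleton.elim a 0]
      rfl
    · rw [Matrix.fromBlocks_apply₂₁, Matrix.of_apply, ee_inl, Matrix.zero_apply]
      change ((Pi.single a.castSucc (1 : ℤ) : Fin (n + 1 + 1) → ℤ) (Fin.last _) : K) = 0
      rw [Pi.single_eq_of_ne (Fin.castSucc_lt_last a).ne', Int.cast_zero]
    · rw [Matrix.fromBlocks_apply₂₂, Matrix.of_apply, ee_inr, Matrix.one_apply]
      change ((Pi.single a.castSucc (1 : ℤ) : Fin (n + 1 + 1) → ℤ) b.castSucc : K) = _
      by_cases hab : a = b
      · subst hab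
        rw [Pi.single_eq_same, if_pos rfl, Int.cast_one]
      · rw [if_neg hab, Pi.single_eq_of_ne, Int.cast_zero]
        intro h
        exact hab (Fin.castSucc_injective _ h).symm
  rw [h1, Matrix.det_fromBlocks_zero₂₁, Matrix.det_one, mul_one, Matrix.det_unique]
  rfl

theorem cw_CC {W : Fin (n + 1) → Fin (n + 1 + 1) → K} {z : Fin (n + 1) → K}
    (hW : ∀ a b, W a b.castSucc = if a = b then (z b)⁻¹ else 0) :
    (cw (CC n) W).det = (∏ b, z b)⁻¹ := by
  have h1 : cw (CC n) W = Matrix.diagonal fun b => (z b)⁻¹ := by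
    ext b a
    unfold cw
    rw [Matrix.of_apply, Finset.sum_eq_single b.castSucc]
    · change ((Pi.single b.castSucc (1 : ℤ) : Fin (n + 1 + 1) → ℤ) b.castSucc : K) * _ = _
      rw [Pi.single_eq_same, Int.cast_one, one_mul, hW]
      by_cases hab : a = b
      · subst hab
        rw [if_pos rfl, Matrix.diagonal_apply_eq]
      · rw [if_neg hab, Matrix.diagonal_apply_ne _ (Ne.symm hab)]
    · intro i _ hi
      change ((Pi.single b.castSucc (1 : ℤ) : Fin (n + 1 + 1) → ℤ) i : K) * _ = 0
      rw [Pi.single_eq_of_ne hi, Int.cast_zero, zero_mul]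
    · intro h
      exact absurd (Finset.mem_univ _) h
  rw [h1, Matrix.det_diagonal, Finset.prod_inv_distrib]

/-- a determinant with a row which is almost zero -/
theorem det_last {A : Matrix (Fin (n + 1)) (Fin (n + 1)) K}
    (hA : ∀ j : Fin n, A (Fin.last n) j.castSucc = 0) :
    A.det = A (Fin.last n) (Fin.last n) *
      (A.submatrix Fin.castSucc Fin.castSucc).det := by
  rw [Matrix.det_succ_row A (Fin.last n), Fin.sum_univ_castSucc]
  rw [Finset.sum_eq_zero fun j _ => by rw [hA]; ring, zero_add]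
  have h1 : ((-1 : K)) ^ ((Fin.last n : ℕ) + (Fin.last n : ℕ)) = 1 := by
    rw [← two_mul, pow_mul]
    norm_num
  rw [h1, one_mul]
  congr 2
  ext i j
  rw [Matrix.submatrix_apply, Matrix.submatrix_apply, Fin.succAbove_last]

end

section

variable {K : Type} [Field K] [Algebra ℂ K] {n : ℕ}

/-- **The forms of the family.** In the frame dual to the first coordinates. -/
theorem om_frame {x : Fin (n + 1 + 1) → K} (hx : ∀ i, x i ≠ 0) {f : Fin 1 → (Fin (n + 1 + 1) → ℤ) →₀ ℂ}
    (hf : ∀ l, ev x (f l) = 0) {C0 : Fin (n + 1) → Fin (n + 1 + 1) → ℤ}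
    (h0 : dt (ee n) (fun l => gr x (f l)) C0 ≠ 0) {E : Fin (n + 1) → Derivation ℂ K K}
    (hE : ∀ i j : Fin (n + 1), E i (x j.castSucc) = if i = j then 1 else 0) :
    gr x (f 0) (Fin.last _) ≠ 0 ∧ Om (ee n) x f C0 E =
      (∏ b : Fin (n + 1), x b.castSucc)⁻¹ / gr x (f 0) (Fin.last _) := by
  have hW : ∀ a b : Fin (n + 1), lg x (E a) b.castSucc = if a = b then (x b.castSucc)⁻¹ else 0 := by
    intro a b
    unfold lg
    rw [hE]
    split_ifs
    · rw [one_div]
    · rw [zero_div]
  have h1 := dt_cw (e := ee n) (C := CC n) h0 (W := fun a => lg x (E a))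
    fun l a => gr_lg hx (hf l) (E a)
  have h2 := cw_CC (z := fun b : Fin (n + 1) => x b.castSucc) (W := fun a => lg x (E a)) hW
  have hne : dt (ee n) (fun l => gr x (f l)) (CC n) ≠ 0 := by
    intro h3
    rw [h3, zero_mul, h2] at h1
    exact mul_ne_zero h0 (inv_ne_zero (Finset.prod_ne_zero_iff.2 fun b _ => hx _)) h1
  have h3 := hne
  rw [dt_CC] at h3
  refine ⟨h3, ?_⟩
  rw [om_eq hx hf h0 hne]
  unfold Om
  rw [h2, dt_CC]

theorem mono_split {L : Type} [Field L] (x : Fin (n + 1 + 1) → L) (w : Fin (n + 1 + 1) → ℤ) :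
    R885.mono x w = (∏ l : Fin n, x l.castSucc.castSucc ^ w l.castSucc.castSucc) *
      x (Fin.last n).castSucc ^ w (Fin.last n).castSucc * x (Fin.last _) ^ w (Fin.last _) := by
  unfold R885.mono
  rw [Fin.prod_univ_castSucc, Fin.prod_univ_castSucc]

end

end Pool.Agent.R882.KR
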