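import Pool.Agent.R882.KD

/-!
Nondegenerate hypersurfaces fibred by curves on rational ruled surfaces: the regular differentials of
the fibres.
-/

set_option autoImplicit false
set_option linter.overlappingInstances false
set_option linter.unusedSectionVars false
set_option maxHeartbeats 4000000
set_option synthInstance.maxHeartbeats 400000

open IntermediateField Module FF Pool.Agent.W619.PQ Pool.Agent.W603.LV Pool.Agent.R885
open Pool.Agent.W602.GT (Divisorial RegAt IsPluri)
open scoped Matrix Polynomial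

namespace Pool.Agent.R882.KR

open Pool.Agent.R882.GL (SpanFib)

variable {K : Type} [Field K] [Algebra ℂ K] {n : ℕ}

/-- The exponents of the last two coordinates `x`, `y` in `f` are in the trapezoid
`0 ≤ j ≤ b`, `0 ≤ i ≤ a + s (b - j)`. -/
def InTrap (f : (Fin (n + 1 + 1) → ℤ) →₀ ℂ) (a s b : ℕ) : Prop :=
  ∀ m ∈ f.support, 0 ≤ m (Fin.last n).castSucc ∧
    m (Fin.last n).castSucc ≤ a + s * (b - m (Fin.last (n + 1))) ∧
    0 ≤ m (Fin.last (n + 1)) ∧ m (Fin.last (n + 1)) ≤ b

/-- The lattice points in the interior of the trapezoid. -/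
def Inner (a s b i j : ℕ) : Prop := 1 ≤ i ∧ 1 ≤ j ∧ j + 1 ≤ b ∧ i + 1 ≤ a + s * (b - j)

theorem finite_inner (a s b : ℕ) : Finite {p : ℕ × ℕ // Inner a s b p.1 p.2} := by
  have h : {p : ℕ × ℕ | Inner a s b p.1 p.2} ⊆
      ((Finset.range (a + s * b) ×ˢ Finset.range b : Finset (ℕ × ℕ)) : Set (ℕ × ℕ)) := by
    rintro ⟨i, j⟩ ⟨h1, h2, h3, h4⟩
    rw [Finset.coe_product, Set.mem_prod, Finset.coe_range, Finset.coe_range, Set.mem_Iio,
      Set.mem_Iio]
    refine ⟨?_, h3⟩
    have h5 : s * (b - j) ≤ s * b := Nat.mul_le_mul_left _ (Nat.sub_le _ _)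
    change i < a + s * b
    change i + 1 ≤ a + s * (b - j) at h4
    omega
  exact (Finset.finite_toSet _).subset h |>.to_subtype

/-- the equation of the fibre -/
theorem fibre_eq {Λ F : Type} [Field Λ] [Field F] [Algebra ℂ Λ] [Algebra Λ F] [Algebra ℂ F]
    [IsScalarTower ℂ Λ F] (φ : K →ₐ[ℂ] F) {x : Fin (n + 1 + 1) → K}
    {f : (Fin (n + 1 + 1) → ℤ) →₀ ℂ} {a s b : ℕ} (hT : InTrap f a s b) {t' : Fin n → Λ}
    (ht' : ∀ l, algebraMap Λ F (t' l) = φ (x l.castSucc.castSucc)) :
    ∃ c : ℕ → Λ[X], (∀ i ≤ b, (c i).natDegree ≤ a + s * (b - i)) ∧ (∀ i, b < i → c i = 0) ∧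
      ∑ i ∈ Finset.range (b + 1), Polynomial.aeval (φ (x (Fin.last n).castSucc)) (c i) *
        φ (x (Fin.last _)) ^ i = φ (ev x f) ∧
      ∑ i ∈ Finset.range (b + 1), (i : F) * Polynomial.aeval (φ (x (Fin.last n).castSucc)) (c i) *
        φ (x (Fin.last _)) ^ i = φ (gr x f (Fin.last _)) := by
  classical
  let S : ℕ → Finset (Fin (n + 1 + 1) → ℤ) := fun i =>
    f.support.filter fun m => (m (Fin.last (n + 1))).toNat = i
  let c : ℕ → Λ[X] := fun i => ∑ m ∈ S i,
    Polynomial.C (algebraMap ℂ Λ (f m) * ∏ l : Fin n, t' l ^ m l.castSucc.castSucc) *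
      Polynomial.X ^ (m (Fin.last n).castSucc).toNat
  have hmaps : ∀ m ∈ f.support, (m (Fin.last (n + 1))).toNat ∈ Finset.range (b + 1) := by
    intro m hm
    obtain ⟨h1, h2, h3, h4⟩ := hT m hm
    rw [Finset.mem_range]
    omega
  have hterm : ∀ m ∈ f.support, algebraMap ℂ F (f m) * φ (R885.mono x m) =
      algebraMap Λ F (algebraMap ℂ Λ (f m) * ∏ l : Fin n, t' l ^ m l.castSucc.castSucc) *
        φ (x (Fin.last n).castSucc) ^ (m (Fin.last n).castSucc).toNat *
        φ (x (Fin.last _)) ^ (m (Fin.last (n + 1))).toNat := by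
    intro m hm
    obtain ⟨h1, h2, h3, h4⟩ := hT m hm
    rw [mono_split, map_mul, map_mul, map_prod, map_mul, map_prod, map_zpow₀, map_zpow₀,
      ← IsScalarTower.algebraMap_apply ℂ Λ F]
    simp only [map_zpow₀, ht']
    rw [← zpow_natCast, ← zpow_natCast, Int.toNat_of_nonneg h1, Int.toNat_of_nonneg h3]
    ring
  have haev : ∀ i, Polynomial.aeval (φ (x (Fin.last n).castSucc)) (c i) *
        φ (x (Fin.last _)) ^ i = ∑ m ∈ S i, algebraMap ℂ F (f m) * φ (R885.mono x m) := by
    intro i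
    change Polynomial.aeval _ (∑ m ∈ S i, _) * _ = _
    rw [map_sum, Finset.sum_mul]
    refine Finset.sum_congr rfl fun m hm => ?_
    rw [Finset.mem_filter] at hm
    rw [hterm m hm.1, hm.2, map_mul, Polynomial.aeval_C, map_pow, Polynomial.aeval_X]
  refine ⟨c, fun i hi => ?_, fun i hi => ?_, ?_, ?_⟩
  · refine Polynomial.natDegree_sum_le_of_forall_le _ _ fun m hm => ?_
    rw [Finset.mem_filter] at hm
    refine (Polynomial.natDegree_C_mul_X_pow_le _ _).trans ?_
    obtain ⟨h1, h2, h3, h4⟩ := hT m hm.1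
    have h5 := hm.2
    have h6 : m (Fin.last (n + 1)) = i := by omega
    rw [h6] at h2
    have h7 : ((b - i : ℕ) : ℤ) = b - i := by omega
    have h8 : (((m (Fin.last n).castSucc).toNat : ℕ) : ℤ) ≤ ((a + s * (b - i) : ℕ) : ℤ) := by
      rw [Int.toNat_of_nonneg h1]
      push_cast [h7]
      exact h2
    exact_mod_cast h8
  · have h1 : S i = ∅ := by
      rw [Finset.eq_empty_iff_forall_notMem]
      intro m hm
      rw [Finset.mem_filter] at hm
      have h2 := hmaps m hm.1
      rw [Finset.mem_range] at h2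
      omega
    change ∑ m ∈ S i, _ = _
    rw [h1, Finset.sum_empty]
  · rw [Finset.sum_congr rfl fun i _ => haev i, Finset.sum_fiberwise_of_maps_to hmaps]
    unfold ev Finsupp.sum
    rw [map_sum]
    refine Finset.sum_congr rfl fun m _ => ?_
    rw [map_mul, φ.commutes]
  · have h1 : ∀ i ∈ Finset.range (b + 1),
        (i : F) * Polynomial.aeval (φ (x (Fin.last n).castSucc)) (c i) *
        φ (x (Fin.last _)) ^ i = ∑ m ∈ S i, ((m (Fin.last (n + 1)) : ℤ) : F) *
          (algebraMap ℂ F (f m) * φ (R885.mono x m)) := by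
      intro i _
      rw [mul_assoc, haev, Finset.mul_sum]
      refine Finset.sum_congr rfl fun m hm => ?_
      rw [Finset.mem_filter] at hm
      obtain ⟨h1, h2, h3, h4⟩ := hT m hm.1
      have h6 : m (Fin.last (n + 1)) = i := by have := hm.2; omega
      rw [h6, Int.cast_natCast]
    rw [Finset.sum_congr rfl h1, Finset.sum_fiberwise_of_maps_to hmaps]
    unfold gr Finsupp.sum
    rw [map_sum]
    refine Finset.sum_congr rfl fun m _ => ?_
    rw [map_mul, map_mul, φ.commutes, map_intCast]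
    ring

/-- **The regular differentials of the fibres.** -/
theorem span_curve {x : Fin (n + 1 + 1) → K} (hx : ∀ i, x i ≠ 0)
    (hgen : IntermediateField.adjoin ℂ (Set.range x) = ⊤) {f : Fin 1 → (Fin (n + 1 + 1) → ℤ) →₀ ℂ}
    (hf : ∀ l, ev x (f l) = 0) {C0 : Fin (n + 1) → Fin (n + 1 + 1) → ℤ}
    (h0 : dt (ee n) (fun l => gr x (f l)) C0 ≠ 0)
    (hne : ∀ (Z : Fin (n + 1) → K), IsTranscendenceBasis ℂ Z →
      ∀ D0 : Fin (n + 1) → Derivation ℂ K K, (∀ i j, D0 i (Z j) = if i = j then 1 else 0) →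
        Om (ee n) x f C0 D0 ≠ 0)
    {a s b : ℕ} (hT : InTrap (f 0) a s b)
    (hbas : IsTranscendenceBasis ℂ fun i : Fin (n + 1) => x i.castSucc)
    {B : IntermediateField ℂ K} (hB : ∀ l : Fin n, x l.castSucc.castSucc ∈ B)
    (hX : ¬ IsAlgebraic B (x (Fin.last n).castSucc))
    {u : ℕ → ℕ → Fin (n + 1 + 1) → ℤ}
    (hu : ∀ i j, Inner a s b i j → u i j (Fin.last n).castSucc = i ∧ u i j (Fin.last _) = j) :
    SpanFib (J := {p : ℕ × ℕ // Inner a s b p.1 p.2}) B
      (fun p D => R885.mono x (u p.1.1 p.1.2) * Om (ee n) x f C0 D) := by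
  classical
  intro Λ F _ _ _ _ _ _ _ φ hFF hgenF hBΛ htransc t ξ ht hZ E hE D hD hreg g hg0 hg
  have hΛ0 : CharZero Λ := charZero_of_injective_algebraMap (algebraMap ℂ Λ).injective
  let iA : Algebra K F := φ.toRingHom.toAlgebra
  have hTw : IsScalarTower ℂ K F := IsScalarTower.of_algebraMap_eq fun z => (φ.commutes z).symm
  have hφ : ∀ z, algebraMap K F z = φ z := fun _ => rfl
  have hinj : Function.Injective φ := (φ : K →+* F).injective
  choose t' ht' using fun l : Fin n => hBΛ (x l.castSucc.castSucc) (hB l)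
  obtain ⟨c, hc1, hc2, hc3, hc4⟩ := fibre_eq φ hT ht'
  rw [hf, map_zero] at hc3
  have hDne : D ≠ 0 := by
    intro h
    rw [h] at hD
    exact zero_ne_one hD
  -- the frame of the coordinates
  obtain ⟨E0, hE0'⟩ := Pool.Agent.W602.GT.exists_dual hbas
  have hE0 : ∀ i j : Fin (n + 1), E0 i (x j.castSucc) = if i = j then 1 else 0 := by
    intro i j
    have h1 := congrFun (congrFun hE0' i) j
    rw [Matrix.of_apply, Matrix.one_apply] at h1
    exact h1
  obtain ⟨hgr, hOm0⟩ := om_frame hx hf h0 hE0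
  -- the derivation of the fibre
  have happ : ∀ l : Fin n, Fin.append t (fun _ : Fin 1 => ξ) l.castSucc = t l := fun l =>
    Fin.append_left t _ l
  have happ' : Fin.append t (fun _ : Fin 1 => ξ) (Fin.last n) = ξ :=
    Fin.append_right t (fun _ : Fin 1 => ξ) 0
  have hlast : ∀ z : K, D (φ z) = φ (E (Fin.last n) z) := by
    intro z
    have h1 := Pool.Agent.W73.PG.PULL.chain (L := F) _ hZ E hE (D.restrictScalars ℂ) z
    rw [Fin.sum_univ_castSucc, Finset.sum_eq_zero, zero_add] at h1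
    · rw [happ'] at h1
      change D (φ z) = D (φ ξ) * φ (E (Fin.last n) z) at h1
      rw [hD, one_mul] at h1
      exact h1
    · intro l _
      rw [happ]
      change D (φ (t l)) * _ = 0
      obtain ⟨w, hw⟩ := hBΛ (t l) (ht l)
      rw [← hw, Derivation.map_algebraMap, zero_mul]
  have hconst : ∀ z : K, E (Fin.last n) z = 0 → ∃ w : Λ, algebraMap Λ F w = φ z := by
    intro z hz
    obtain ⟨w, hw⟩ := const_of_der (k := Λ) hDne (h := φ z) (by rw [hlast, hz, map_zero])
    exact ⟨w, hw.symm⟩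
  have hcomm : ∀ i (z : K), E (Fin.last n) (E i z) = E i (E (Fin.last n) z) := by
    intro i z
    have h1 := Pool.Agent.W619.TW.der_zero (⁅E (Fin.last n), E i⁆) _ hZ (fun j => by
      rw [Derivation.commutator_apply, hE, hE]
      split_ifs <;> simp) z
    rw [Derivation.commutator_apply] at h1
    exact sub_eq_zero.1 h1
  have hxB : ∀ l : Fin n, E (Fin.last n) (x l.castSucc.castSucc) = 0 := by
    intro l
    have h1 := hlast (x l.castSucc.castSucc)
    rw [← ht', Derivation.map_algebraMap] at h1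
    exact hinj (by rw [← h1, map_zero])
  choose lam hlam using fun (i j : Fin n) => hconst (E i.castSucc (x j.castSucc.castSucc)) (by
    rw [hcomm, hxB, map_zero])
  -- the value of the form
  obtain ⟨X, hXdef⟩ : ∃ X, X = φ (x (Fin.last n).castSucc) := ⟨_, rfl⟩
  obtain ⟨Y, hYdef⟩ : ∃ Y, Y = φ (x (Fin.last (n + 1))) := ⟨_, rfl⟩
  have hX0 : X ≠ 0 := by
    rw [hXdef]
    exact (map_ne_zero φ).2 (hx _)
  have hY0 : Y ≠ 0 := by
    rw [hYdef]
    exact (map_ne_zero φ).2 (hx _)
  obtain ⟨H, hH⟩ : ∃ H, H = φ (gr x (f 0) (Fin.last _)) := ⟨_, rfl⟩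
  have hH0 : H ≠ 0 := by
    rw [hH]
    exact (map_ne_zero φ).2 hgr
  rw [← hXdef, ← hYdef] at hc3 hc4
  rw [← hH] at hc4
  have ht0 : ∀ l, t' l ≠ 0 := by
    intro l h
    have h1 := ht' l
    rw [h, map_zero] at h1
    exact hx _ (hinj (by rw [← h1, map_zero]))
  have hval : ∃ μ : Λ, φ (Om (ee n) x f C0 E) = algebraMap Λ F μ * (D X / X) / H := by
    have h1 := Pool.Agent.Y172.pluri_coord (m := 1) hbas hE0
      (ω := fun D => Om (ee n) x f C0 D ^ 1) (om_pluri (ee n) x f C0 1) E
    simp only [pow_one] at h1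
    have h2 := det_last (A := Matrix.of fun i j : Fin (n + 1) => E i (x j.castSucc)) (by
      intro j
      rw [Matrix.of_apply]
      exact hxB j)
    refine ⟨(Matrix.of lam).det * (∏ l, t' l)⁻¹, ?_⟩
    have h3 : φ ((Matrix.of fun i j : Fin (n + 1) => E i (x j.castSucc)).submatrix Fin.castSucc
        Fin.castSucc).det = algebraMap Λ F (Matrix.of lam).det := by
      have h4 := RingHom.map_det (φ : K →+* F) ((Matrix.of fun i j : Fin (n + 1) =>
        E i (x j.castSucc)).submatrix Fin.castSucc Fin.castSucc)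
      have h5 := RingHom.map_det (algebraMap Λ F) (Matrix.of lam)
      rw [h5]
      refine h4.trans ?_
      congr 1
      ext i j
      exact (hlam i j).symm
    have h6 : φ (∏ b : Fin (n + 1), x b.castSucc) = algebraMap Λ F (∏ l, t' l) * X := by
      rw [Fin.prod_univ_castSucc, map_mul, map_prod, map_prod, ← hXdef]
      congr 1
      exact Finset.prod_congr rfl fun l _ => (ht' l).symm
    rw [h1, h2, hOm0, Matrix.of_apply, map_mul, map_mul, h3, map_div₀, map_inv₀, h6, ← hlast,
      ← hXdef, ← hH, map_mul, map_inv₀]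
    have h7 : algebraMap Λ F (∏ l, t' l) ≠ 0 :=
      (map_ne_zero _).2 (Finset.prod_ne_zero_iff.2 fun l _ => ht0 l)
    field_simp
  obtain ⟨μ, hμ⟩ := hval
  have hμ0 : μ ≠ 0 := by
    intro h
    rw [h, map_zero, zero_mul, zero_div] at hμ
    exact hne _ hZ E hE (hinj (by rw [hμ, map_zero]))
  -- generation
  have hXt : Transcendental Λ X := by
    rw [hXdef]
    exact htransc _ hX
  have hgenXY : IntermediateField.adjoin Λ {X, Y} = ⊤ := by
    rw [eq_top_iff, ← hgenF, IntermediateField.adjoin_le_iff]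
    rintro _ ⟨z, rfl⟩
    have h1 : IntermediateField.adjoin ℂ (Set.range x) ≤
        ((IntermediateField.adjoin Λ {X, Y}).restrictScalars ℂ).comap φ := by
      rw [IntermediateField.adjoin_le_iff]
      rintro _ ⟨i, rfl⟩
      change φ (x i) ∈ IntermediateField.adjoin Λ {X, Y}
      induction i using Fin.lastCases with
      | last =>
        rw [← hYdef]
        exact IntermediateField.subset_adjoin _ _ (by simp)
      | cast i =>
        induction i using Fin.lastCases with
        | last =>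
          rw [← hXdef]
          exact IntermediateField.subset_adjoin _ _ (by simp)
        | cast l =>
          rw [← ht']
          exact IntermediateField.algebraMap_mem _ _
    have h2 : z ∈ IntermediateField.adjoin ℂ (Set.range x) := by
      rw [hgen]
      trivial
    exact h1 h2
  have hspan := span_ruled hFF hXt hY0 hgenXY hc1 hc2 hc3 hc4.symm hH0 hDne (f := g)
    (fun Q => Or.inr (hg Q))
  refine Submodule.span_le.2 ?_ hspan
  rintro _ ⟨i, j, hi, hj, hjb, hib, rfl⟩
  obtain ⟨hu1, hu2⟩ := hu i j ⟨hi, hj, hjb, hib⟩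
  obtain ⟨τ, hτ⟩ : ∃ τ : Λ, τ = ∏ l : Fin n, t' l ^ u i j l.castSucc.castSucc := ⟨_, rfl⟩
  have hτ0 : τ ≠ 0 := by
    rw [hτ]
    exact Finset.prod_ne_zero_iff.2 fun l _ => zpow_ne_zero _ (ht0 l)
  have hmono : φ (R885.mono x (u i j)) = algebraMap Λ F τ * X ^ i * Y ^ j := by
    rw [mono_split, map_mul, map_mul, map_prod, hu1, hu2, map_zpow₀, map_zpow₀, ← hXdef, ← hYdef,
      hτ, map_prod, zpow_natCast, zpow_natCast]
    simp only [map_zpow₀, ht']
  have h1 : X ^ i * Y ^ j * (D X / X) / H = (τ * μ)⁻¹ •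
      φ (R885.mono x (u i j) * Om (ee n) x f C0 E) := by
    rw [Algebra.smul_def, map_mul, hmono, hμ, map_inv₀, map_mul]
    have h2 : algebraMap Λ F τ ≠ 0 := (map_ne_zero _).2 hτ0
    have h3 : algebraMap Λ F μ ≠ 0 := (map_ne_zero _).2 hμ0
    field_simp
  change _ ∈ (Submodule.span Λ (Set.range fun p : {p : ℕ × ℕ // Inner a s b p.1 p.2} =>
    φ (R885.mono x (u p.1.1 p.1.2) * Om (ee n) x f C0 E)) : Set F)
  rw [h1]
  exact Submodule.smul_mem _ _ (Submodule.subset_span ⟨⟨(i, j), hi, hj, hjb, hib⟩, rfl⟩)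

end Pool.Agent.R882.KR
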