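import Pool.Agent.R882.KE

/-!
Fibrations by curves: bookkeeping.
-/

set_option autoImplicit false
set_option linter.overlappingInstances false
set_option linter.unusedSectionVars false
set_option maxHeartbeats 4000000
set_option synthInstance.maxHeartbeats 400000

open IntermediateField Module FF Pool.Agent.W619.PQ Pool.Agent.W603.LV Pool.Agent.R885
open Pool.Agent.W602.GT (Divisorial RegAt IsPluri KodGe LogSec)
open scoped Matrix Polynomial

namespace Pool.Agent.R882.KR

theorem kodGe_of_tr {L : Type} [Field L] [Algebra ℂ L] {n d : ℕ}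
    (h : Pool.Agent.W619.Y.KodTrB ℂ L n (fun _ => False) d) :
    KodGe ℂ L n (fun _ => False) d := by
  obtain ⟨m, hm, ω, hω, D, hD, hind⟩ := h
  refine ⟨m, hm, ω, fun j => ?_, D, hD 0, hind⟩
  have hreg : ∀ P : Place ℂ L, Divisorial n P → RegAt P (ω j) := by
    intro P hP E hE
    rcases (hω j).2.1 P hP (fun h => h) E (fun i => hE i) with h1 | ⟨s, hs, hs0, h1⟩
    · exact Or.inl h1
    · right
      rw [Nat.cast_zero, zero_mul] at h1
      exact h1
  exact ⟨(hω j).1, fun P hP E hE => hreg P hP E fun i =>
    Pool.Agent.TH466.QG.derReg_of_log (hE i), fun P hP _ => hreg P hP⟩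

section

variable {K : Type} [Field K] [Algebra ℂ K] {n : ℕ}

open scoped IntermediateField.algebraAdjoinAdjoin in
theorem trdeg_adj {m : ℕ} {t : Fin m → K} (ht : AlgebraicIndependent ℂ t) :
    Algebra.trdeg ℂ (IntermediateField.adjoin ℂ (Set.range t)) = (m : ℕ) := by
  obtain ⟨E, hE⟩ : ∃ E, E = IntermediateField.adjoin ℂ (Set.range t) := ⟨_, rfl⟩
  rw [← hE]
  have hmem : ∀ j, t j ∈ E := fun j => by
    rw [hE]
    exact IntermediateField.subset_adjoin _ _ ⟨j, rfl⟩
  let tE : Fin m → E := fun j => ⟨t j, hmem j⟩
  have h1 : AlgebraicIndependent ℂ tE := AlgebraicIndependent.of_comp E.val ht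
  have htop : IntermediateField.adjoin ℂ (Set.range tE) = ⊤ := by
    apply IntermediateField.map_injective E.val
    rw [IntermediateField.adjoin_map, ← AlgHom.fieldRange_eq_map, IntermediateField.fieldRange_val,
      ← Set.range_comp]
    exact hE.symm
  have h2 : Algebra.IsAlgebraic (IntermediateField.adjoin ℂ (Set.range tE)) E := by
    constructor
    intro z
    have hz : z ∈ IntermediateField.adjoin ℂ (Set.range tE) := by
      rw [htop]
      trivial
    exact isAlgebraic_algebraMap (A := E) (⟨z, hz⟩ : IntermediateField.adjoin ℂ (Set.range tE))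
  have h3 : Algebra.IsAlgebraic (Algebra.adjoin ℂ (Set.range tE)) E :=
    (IsFractionRing.comap_isAlgebraic_iff (A := Algebra.adjoin ℂ (Set.range tE))
      (K := IntermediateField.adjoin ℂ (Set.range tE)) (C := E)).2 h2
  have h4 : IsTranscendenceBasis ℂ tE := h1.isTranscendenceBasis_iff_isAlgebraic.2 h3
  rw [← h4.cardinalMk_eq_trdeg, Cardinal.mk_fin]

theorem basis_first {x : Fin (n + 1 + 1) → K} (hK : Algebra.trdeg ℂ K = (n + 1 : ℕ))
    (hind : AlgebraicIndependent ℂ fun i : Fin (n + 1) => x i.castSucc) :
    IsTranscendenceBasis ℂ fun i : Fin (n + 1) => x i.castSucc := by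
  refine hind.isTranscendenceBasis_of_trdeg_le ?_ ?_
  · rw [hK]
    exact Cardinal.natCast_lt_aleph0
  · rw [hK]
    simp

theorem trdeg_first {x : Fin (n + 1 + 1) → K}
    (hind : AlgebraicIndependent ℂ fun i : Fin (n + 1) => x i.castSucc) :
    Algebra.trdeg ℂ (IntermediateField.adjoin ℂ
      (Set.range fun l : Fin n => x l.castSucc.castSucc)) = (n : ℕ) := by
  have h1 : AlgebraicIndependent ℂ fun l : Fin n => x l.castSucc.castSucc :=
    hind.comp Fin.castSucc (Fin.castSucc_injective _)
  exact trdeg_adj h1

open scoped IntermediateField.algebraAdjoinAdjoin in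
theorem not_alg_first {x : Fin (n + 1 + 1) → K}
    (hind : AlgebraicIndependent ℂ fun i : Fin (n + 1) => x i.castSucc) :
    ¬ IsAlgebraic (IntermediateField.adjoin ℂ (Set.range fun l : Fin n => x l.castSucc.castSucc))
      (x (Fin.last n).castSucc) := by
  intro h
  have h1 : IsAlgebraic (Algebra.adjoin ℂ (Set.range fun l : Fin n => x l.castSucc.castSucc))
      (x (Fin.last n).castSucc) :=
    (IsFractionRing.isAlgebraic_iff (Algebra.adjoin ℂ (Set.range fun l : Fin n =>
      x l.castSucc.castSucc)) (IntermediateField.adjoin ℂ (Set.range fun l : Fin n =>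
      x l.castSucc.castSucc)) K).2 h
  have h2 : AlgebraicIndependent ℂ fun o : Option (Fin n) =>
      (o.elim (x (Fin.last n).castSucc) fun l => x l.castSucc.castSucc : K) := by
    have h3 : (fun o : Option (Fin n) =>
        (o.elim (x (Fin.last n).castSucc) fun l => x l.castSucc.castSucc : K)) =
        (fun i : Fin (n + 1) => x i.castSucc) ∘
          fun o : Option (Fin n) => o.elim (Fin.last n) Fin.castSucc := by
      funext o
      rcases o with _ | l <;> rfl
    rw [h3]
    refine hind.comp _ ?_
    rintro (_ | l) (_ | l') h4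
    · rfl
    · exact absurd h4 (Fin.castSucc_lt_last l').ne'
    · exact absurd h4 (Fin.castSucc_lt_last l).ne
    · exact congrArg some (Fin.castSucc_injective _ h4)
  have h4 : AlgebraicIndependent ℂ fun l : Fin n => x l.castSucc.castSucc :=
    hind.comp Fin.castSucc (Fin.castSucc_injective _)
  exact (h4.option_iff_transcendental _).1 h2 h1

end

end Pool.Agent.R882.KR
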