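import Pool.Agent.R882.CReg

/-!
Smooth complete intersections in a product of projective lines, and the complement of fibres of the
coordinates: the logarithmic forms which are given by residues.
-/

set_option autoImplicit false
set_option linter.unusedSectionVars false
set_option linter.unusedDecidableInType false
set_option linter.unusedFintypeInType false

open FF MvPolynomial Pool.Agent.W603.LV Pool.Agent.W602.GT Pool.Agent.Y184.NT

namespace Pool.Agent.R882.CI

section

variable {κ : Type} [Fintype κ] [DecidableEq κ] {ι : Type} [Fintype ι] [DecidableEq ι]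

/-- In the affine chart `S`, the point `z` lies on one of the fibres `x i = a`, `a ∈ A i`, or
`x i = ∞`, for `i ∈ B`. -/
def OnFib (B : Finset ι) (A : ι → Finset ℂ) (S : Finset ι) (z : ι → ℂ) (i : ι) : Prop :=
  (i ∈ S → i ∈ B ∧ z i = 0) ∧ (i ∉ S → z i ∈ A i)

/-- The hypersurfaces `F k = 0` of multidegrees `d k` and the fibres meet transversally. -/
def LogSmooth (d : κ → ι → ℕ) (F : κ → MvPolynomial ι ℂ) (B : Finset ι) (A : ι → Finset ℂ) :
    Prop :=
  ∀ (S : Finset ι) (z : ι → ℂ), (∀ k, eval z (chart (d k) S (F k)) = 0) →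
    LinearIndependent ℂ (fun (k : κ) (i : {i // ¬ OnFib B A S z i}) =>
      eval z (pderiv i.1 (chart (d k) S (F k))))

/-- a matrix with independent rows has a minor which is not zero -/
theorem exists_minor' {ι' : Type} [Fintype ι'] [DecidableEq ι'] {K : Type} [Field K]
    {v : κ → ι' → K} (h : LinearIndependent K v) :
    ∃ c : κ → ι', (Matrix.of fun k k' => v k (c k') : Matrix κ κ K).det ≠ 0 := exists_minor h

/-- more columns -/
theorem li_cols {κ ι₁ ι₂ : Type} {K : Type} [Field K] {f : ι₁ → ι₂} {v : κ → ι₂ → K}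
    (h : LinearIndependent K (fun k i => v k (f i))) : LinearIndependent K v :=
  LinearIndependent.of_comp (LinearMap.funLeft K K f) h

/-- the certificate -/
theorem certT {G : κ → MvPolynomial ι ℂ} {T : Finset ι} {α : ι → ℂ}
    (hs : ∀ z, (∀ k, eval z (G k) = 0) → (∀ i ∈ T, z i = α i) →
      LinearIndependent ℂ (fun (k : κ) (i : {i // i ∉ T}) => eval z (pderiv i.1 (G k)))) :
    ∃ (U : κ → MvPolynomial ι ℂ) (E : {i // i ∈ T} → MvPolynomial ι ℂ)
      (V : (κ → {i // i ∉ T}) → MvPolynomial ι ℂ),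
      1 = ∑ k, U k * G k + ∑ i, E i * (X i.1 - C (α i.1)) +
        ∑ c, V c * (Matrix.of fun k k' => pderiv (c k').1 (G k) : Matrix κ κ _).det := by
  classical
  obtain ⟨v, hv⟩ : ∃ v : (κ ⊕ {i // i ∈ T}) ⊕ (κ → {i // i ∉ T}) → MvPolynomial ι ℂ,
    v = Sum.elim (Sum.elim G fun i => X i.1 - C (α i.1))
    (fun c => (Matrix.of fun k k' => pderiv (c k').1 (G k) : Matrix κ κ _).det) := ⟨_, rfl⟩
  obtain ⟨I, hI⟩ : ∃ I : Ideal (MvPolynomial ι ℂ), I = Ideal.span (Set.range v) := ⟨_, rfl⟩
  have h1 : (1 : MvPolynomial ι ℂ) ∈ vanishingIdeal ℂ (zeroLocus ℂ I) := by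
    rw [mem_vanishingIdeal_iff]
    intro z hz
    exfalso
    rw [mem_zeroLocus_iff] at hz
    have h2 : ∀ o, eval z (v o) = 0 := fun o => hz (v o) (by
      rw [hI]
      exact Ideal.subset_span ⟨o, rfl⟩)
    have h3 := hs z (fun k => by
      have h4 := h2 (Sum.inl (Sum.inl k))
      rw [hv] at h4
      exact h4) (fun i hi => by
      have h4 := h2 (Sum.inl (Sum.inr ⟨i, hi⟩))
      rw [hv] at h4
      simp only [Sum.elim_inl, Sum.elim_inr, map_sub, eval_X, eval_C] at h4
      exact sub_eq_zero.1 h4)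
    obtain ⟨c, hc⟩ := exists_minor h3
    apply hc
    have h4 := h2 (Sum.inr c)
    rw [hv] at h4
    simp only [Sum.elim_inr] at h4
    rw [RingHom.map_det] at h4
    exact h4
  rw [vanishingIdeal_zeroLocus_eq_radical] at h1
  obtain ⟨M, hM⟩ := h1
  rw [one_pow, hI, Ideal.mem_span_range_iff_exists_fun] at hM
  obtain ⟨W, hW⟩ := hM
  refine ⟨fun k => W (Sum.inl (Sum.inl k)), fun i => W (Sum.inl (Sum.inr i)),
    fun c => W (Sum.inr c), ?_⟩
  rw [← hW, Fintype.sum_sum_type, Fintype.sum_sum_type, hv]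
  rfl

variable {K : Type} [Field K] [Algebra ℂ K]

theorem exists_minor_unitT (P : Place ℂ K) {G : κ → MvPolynomial ι ℂ} {T : Finset ι} {α : ι → ℂ}
    (hs : ∀ z, (∀ k, eval z (G k) = 0) → (∀ i ∈ T, z i = α i) →
      LinearIndependent ℂ (fun (k : κ) (i : {i // i ∉ T}) => eval z (pderiv i.1 (G k))))
    {Z : ι → K} (hZ : ∀ k, aeval Z (G k) = 0) (hr : ∀ i, P.Reg (Z i))
    (hT : ∀ i ∈ T, Ge P 1 (Z i - algebraMap ℂ K (α i))) :
    ∃ c : κ → {i // i ∉ T},
      (Matrix.of fun k k' => aeval Z (pderiv (c k').1 (G k)) : Matrix κ κ K).det ≠ 0 ∧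
      P.ord (Matrix.of fun k k' => aeval Z (pderiv (c k').1 (G k)) : Matrix κ κ K).det = 0 := by
  obtain ⟨U, E, V, h⟩ := certT hs
  have h5 := congrArg (aeval Z) h
  rw [map_one, map_add, map_add, map_sum, map_sum, map_sum] at h5
  by_contra hcon
  push Not at hcon
  have h3 : ∀ c : κ → {i // i ∉ T}, Ge P 1
      (Matrix.of fun k k' => aeval Z (pderiv (c k').1 (G k)) : Matrix κ κ K).det := by
    intro c
    by_cases h0 : (Matrix.of fun k k' => aeval Z (pderiv (c k').1 (G k)) : Matrix κ κ K).det = 0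
    · exact Or.inl h0
    · right
      have h2 := hcon c h0
      have h3 := (Pool.Agent.Y988.NT.reg_det P
        (Matrix.of fun k k' => aeval Z (pderiv (c k').1 (G k)) : Matrix κ κ K) (fun k k' =>
          reg_aeval hr _)).resolve_left h0
      omega
  have h4 : Ge P 1 (1 : K) := by
    rw [h5]
    refine Ge.add (Ge.add ?_ ?_) ?_
    · refine Ge.sum _ _ fun k _ => ?_
      rw [map_mul, hZ, mul_zero]
      exact Or.inl rfl
    · refine Ge.sum _ _ fun i _ => ?_
      rw [map_mul, map_sub, aeval_X, aeval_C]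
      have h6 := (show Ge P 0 (aeval Z (E i)) from reg_aeval hr (E i)).mul (hT i.1 i.2)
      simpa using h6
    · refine Ge.sum _ _ fun c _ => ?_
      have h6 := (show Ge P 0 (aeval Z (V c)) from reg_aeval hr (V c)).mul (h3 c)
      rw [map_mul]
      have h7 : aeval Z (Matrix.of fun k k' => pderiv (c k').1 (G k) : Matrix κ κ _).det =
          (Matrix.of fun k k' => aeval Z (pderiv (c k').1 (G k)) : Matrix κ κ K).det := by
        change (aeval Z : MvPolynomial ι ℂ →ₐ[ℂ] K).toRingHom _ = _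
        rw [RingHom.map_det]
        rfl
      rw [h7]
      simpa using h6
  rcases h4 with h4 | h4
  · exact one_ne_zero h4
  · rw [P.ord_one] at h4
    omega

/-- the places of `K` without centre on the complement of the fibres -/
def Off (B : Finset ι) (A : ι → Finset ℂ) (x : ι → K) (P : Place ℂ K) : Prop :=
  (∃ i ∈ B, ¬ P.Reg (x i)) ∨ ∃ i, ∃ a ∈ A i, 0 < P.ord (x i - algebraMap ℂ K a)

/-- the denominators -/
noncomputable def den (A : ι → Finset ℂ) (x : ι → K) (i : ι) : K :=
  ∏ a ∈ A i, (x i - algebraMap ℂ K a)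

theorem crow_zero (J : κ → ι → K) {T : Finset ι} (c : κ → {i // i ∉ T}) (k' : κ) {i : ι}
    (hi : i ∈ T) : crow J (fun k => (c k).1) k' i = 0 := by
  rw [crow]
  refine Finset.sum_eq_zero fun k _ => ?_
  rw [if_neg]
  intro h
  exact (c k).2 (h ▸ hi)

variable {n : ℕ}

theorem reg_of_ge {P : Place ℂ K} {f : K} (h : Ge P 0 f) : P.Reg f := h

theorem reg_inv_of_zero {P : Place ℂ K} {f : K} (h : P.ord f = 0) : P.Reg f⁻¹ := by
  right
  rw [P.ord_inv, h]
  simp

theorem ord_sub_unit {P : Place ℂ K} {z : K} {a b : ℂ} (hab : a ≠ b)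
    (h : 0 < P.ord (z - algebraMap ℂ K a)) : P.ord (z - algebraMap ℂ K b) = 0 := by
  have h0 : z - algebraMap ℂ K a ≠ 0 := by
    intro h1
    rw [h1, P.ord_zero] at h
    omega
  have h1 : algebraMap ℂ K (a - b) ≠ 0 := by
    rw [Ne, map_eq_zero]
    exact sub_ne_zero.2 hab
  have h2 : P.ord (algebraMap ℂ K (a - b)) = 0 := P.ord_eq_zero_of_isAlgebraic h1
    (isAlgebraic_algebraMap _)
  have h3 := P.ord_add_eq (f := algebraMap ℂ K (a - b)) (g := z - algebraMap ℂ K a) h1 h0
    (by omega)
  have h4 := h3.2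
  have h5 : algebraMap ℂ K (a - b) + (z - algebraMap ℂ K a) = z - algebraMap ℂ K b := by
    rw [map_sub]
    ring
  rw [h5, h2] at h4
  exact h4

/-- **The logarithmic residue forms.** -/
theorem ci_log {d : κ → ι → ℕ} {F : κ → MvPolynomial ι ℂ} (hF : ∀ k i, (F k).degreeOf i ≤ d k i)
    {B : Finset ι} {A : ι → Finset ℂ} (hs : LogSmooth d F B A) (e : κ ⊕ Fin n ≃ ι) {x : ι → K}
    (hx : ∀ k, aeval x (F k) = 0) (hA : ∀ i, ∀ a ∈ A i, x i ≠ algebraMap ℂ K a)
    {C : κ → ι → K}
    (hC : ∀ k k', ∑ i, aeval x (pderiv i (F k)) * C k' i = if k = k' then 1 else 0)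
    {a : ι → ℕ} (ha : ∀ i, a i + 2 ≤ ∑ k, d k i + (A i).card + if i ∈ B then 1 else 0)
    (P : Place ℂ K) (D : Fin n → Derivation ℂ K K) (hD : ∀ j, DerReg P (D j))
    (hlog : (∀ j, DerLog P (D j)) ∨ ¬ Off B A x P) :
    P.Reg ((∏ i, x i ^ a i / den A x i) * (cmat e C fun j i => D j (x i)).det) := by
  classical
  obtain ⟨S, hSmem⟩ : ∃ S : Finset ι, ∀ i, i ∈ S ↔ ¬ P.Reg (x i) :=
    ⟨Finset.univ.filter fun i => ¬ P.Reg (x i), fun i => by simp⟩
  have hxS : ∀ i ∈ S, x i ≠ 0 := by
    intro i hi h0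
    apply (hSmem i).1 hi
    rw [h0]
    exact P.reg_zero
  have hneg : ∀ i ∈ S, P.ord (x i) < 0 := by
    intro i hi
    by_contra h
    exact (hSmem i).1 hi (Or.inr (by omega))
  have hinv : ∀ i ∈ S, P.Reg (x i)⁻¹ := by
    intro i hi
    right
    rw [P.ord_inv]
    have := hneg i hi
    omega
  have hreg : ∀ i, P.Reg (inv S x i) := by
    intro i
    by_cases hi : i ∈ S
    · rw [inv, if_pos hi]
      exact hinv i hi
    · rw [inv, if_neg hi]
      by_contra h
      exact hi ((hSmem i).2 h)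
  have hG0 : ∀ k, aeval (inv S x) (chart (d k) S (F k)) = 0 := fun k => by
    rw [aeval_chart hxS (hF k), hx, mul_zero]
  -- the fibres through the centre
  obtain ⟨T, hTmem⟩ : ∃ T : Finset ι, ∀ i, i ∈ T ↔ ((i ∈ S ∧ i ∈ B) ∨
      (i ∉ S ∧ ∃ c ∈ A i, 0 < P.ord (x i - algebraMap ℂ K c))) :=
    ⟨Finset.univ.filter fun i => ((i ∈ S ∧ i ∈ B) ∨
      (i ∉ S ∧ ∃ c ∈ A i, 0 < P.ord (x i - algebraMap ℂ K c))), fun i => by simp⟩
  obtain ⟨α, hα⟩ : ∃ α : ι → ℂ, ∀ i ∈ T, (i ∈ S → α i = 0) ∧
      (i ∉ S → α i ∈ A i ∧ 0 < P.ord (x i - algebraMap ℂ K (α i))) := by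
    have h1 : ∀ i, ∃ c : ℂ, i ∈ T → (i ∈ S → c = 0) ∧
        (i ∉ S → c ∈ A i ∧ 0 < P.ord (x i - algebraMap ℂ K c)) := by
      intro i
      by_cases hS : i ∈ S
      · exact ⟨0, fun _ => ⟨fun _ => rfl, fun h => absurd hS h⟩⟩
      · by_cases hT : i ∈ T
        · rcases (hTmem i).1 hT with h | ⟨-, c, hc, hc'⟩
          · exact absurd h.1 hS
          · exact ⟨c, fun _ => ⟨fun h => absurd h hS, fun _ => ⟨hc, hc'⟩⟩⟩
        · exact ⟨0, fun h => absurd h hT⟩
    choose α hα using h1
    exact ⟨α, hα⟩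
  have hTge : ∀ i ∈ T, inv S x i - algebraMap ℂ K (α i) ≠ 0 ∧
      0 < P.ord (inv S x i - algebraMap ℂ K (α i)) := by
    intro i hi
    by_cases hS : i ∈ S
    · rw [(hα i hi).1 hS, map_zero, sub_zero, inv, if_pos hS]
      refine ⟨inv_ne_zero (hxS i hS), ?_⟩
      rw [P.ord_inv]
      have := hneg i hS
      omega
    · rw [inv, if_neg hS]
      obtain ⟨h1, h2⟩ := (hα i hi).2 hS
      exact ⟨sub_ne_zero.2 (hA i _ h1), h2⟩
  have hsT : ∀ z, (∀ k, eval z (chart (d k) S (F k)) = 0) → (∀ i ∈ T, z i = α i) →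
      LinearIndependent ℂ (fun (k : κ) (i : {i // i ∉ T}) =>
        eval z (pderiv i.1 (chart (d k) S (F k)))) := by
    intro z hz hzT
    have h1 := hs S z hz
    have h2 : ∀ i, ¬ OnFib B A S z i → i ∉ T := by
      intro i hi hT
      apply hi
      refine ⟨fun hS => ⟨?_, ?_⟩, fun hS => ?_⟩
      · rcases (hTmem i).1 hT with h | h
        · exact h.2
        · exact absurd hS h.1
      · rw [hzT i hT, (hα i hT).1 hS]
      · rw [hzT i hT]
        exact ((hα i hT).2 hS).1
    exact li_cols (f := fun i : {i // ¬ OnFib B A S z i} => (⟨i.1, h2 i.1 i.2⟩ : {i // i ∉ T}))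
      (v := fun (k : κ) (i : {i // i ∉ T}) => eval z (pderiv i.1 (chart (d k) S (F k)))) h1
  obtain ⟨c', hc1, hc2⟩ := exists_minor_unitT P hsT hG0 hreg fun i hi => Or.inr (by
    have := (hTge i hi).2
    omega)
  obtain ⟨c, hc⟩ : ∃ c : κ → ι, c = fun k => (c' k).1 := ⟨_, rfl⟩
  obtain ⟨J, hJ⟩ : ∃ J : κ → ι → K,
    J = fun k i => aeval (inv S x) (pderiv i (chart (d k) S (F k))) := ⟨_, rfl⟩
  have hcJ : (Matrix.of fun k k' => J k (c k') : Matrix κ κ K).det ≠ 0 := by
    rw [hJ, hc]
    exact hc1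
  have hcJ0 : P.ord (Matrix.of fun k k' => J k (c k') : Matrix κ κ K).det = 0 := by
    rw [hJ, hc]
    exact hc2
  have hJr : ∀ k i, P.Reg (J k i) := fun k i => by
    rw [hJ]
    exact reg_aeval hreg _
  have hfac : ∀ k, fac (d k) S x ≠ 0 := by
    intro k
    rw [fac]
    refine Finset.prod_ne_zero_iff.2 fun i _ => ?_
    by_cases hi : i ∈ S
    · rw [if_pos hi]
      exact pow_ne_zero _ (inv_ne_zero (hxS i hi))
    · rw [if_neg hi]
      exact one_ne_zero
  have htf : ∀ i, tf S x i ≠ 0 := by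
    intro i
    by_cases hi : i ∈ S
    · rw [tf, if_pos hi]
      exact neg_ne_zero.2 (pow_ne_zero _ (inv_ne_zero (hxS i hi)))
    · rw [tf, if_neg hi]
      exact one_ne_zero
  have hC1 : ∀ k k', ∑ i, J k i * ((fac (d k') S x)⁻¹ * (tf S x i * C k' i)) =
      if k = k' then 1 else 0 := by
    intro k k'
    have h1 : ∑ i, J k i * ((fac (d k') S x)⁻¹ * (tf S x i * C k' i)) =
        (fac (d k') S x)⁻¹ * fac (d k) S x * ∑ i, aeval x (pderiv i (F k)) * C k' i := by
      rw [Finset.mul_sum]
      refine Finset.sum_congr rfl fun i _ => ?_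
      have h2 := pd_chart hxS (hF k) (hx k) i
      rw [hJ]
      linear_combination (fac (d k') S x)⁻¹ * C k' i * h2
    rw [h1, hC]
    by_cases h : k = k'
    · rw [if_pos h, h, mul_one, inv_mul_cancel₀ (hfac k')]
    · rw [if_neg h, mul_zero]
  have hR : ∀ k (j : Fin n), ∑ i, J k i * (tf S x i * D j (x i)) = 0 := by
    intro k j
    have h1 : ∑ i, J k i * (tf S x i * D j (x i)) = D j (aeval (inv S x)
        (chart (d k) S (F k))) := by
      rw [der_aeval, hJ]
      exact Finset.sum_congr rfl fun i _ => by rw [der_inv]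
    rw [h1, hG0, map_zero]
  have h1 := det_indep (e := e) hC1 (crow_spec hcJ) hR
  rw [cmat_scale e C (fun j i => D j (x i)) (tf S x) fun k => (fac (d k) S x)⁻¹] at h1
  -- the factors at the fibres
  obtain ⟨t, ht⟩ : ∃ t : ι → K, t = fun i => if i ∈ T then inv S x i - algebraMap ℂ K (α i)
    else 1 := ⟨_, rfl⟩
  have ht0 : ∀ i, t i ≠ 0 := by
    intro i
    rw [ht]
    by_cases hi : i ∈ T
    · simp only [if_pos hi]
      exact (hTge i hi).1
    · simp only [if_neg hi]
      exact one_ne_zero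
  have h2 : (cmat e (crow J c) fun j i => tf S x i * D j (x i)).det =
      (∏ i, t i) * (cmat e (crow J c) fun j i => D j (inv S x i) / t i).det := by
    have h3 := cmat_scale e (crow J c) (fun (j : Fin n) i => D j (inv S x i) / t i) t
      (fun _ : κ => 1)
    rw [Finset.prod_const_one, one_mul] at h3
    rw [← h3]
    congr 2
    · funext k i
      rw [one_mul]
      by_cases hi : i ∈ T
      · have h4 : crow J c k i = 0 := by
          rw [hc]
          exact crow_zero J c' k hi
        rw [h4, mul_zero]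
      · rw [ht]
        simp only [if_neg hi, one_mul]
    · funext j i
      rw [mul_div_cancel₀ _ (ht0 i), der_inv]
  have h3 : (∏ i, x i ^ a i / den A x i) * (cmat e C fun j i => D j (x i)).det =
      (∏ i, (x i ^ a i / den A x i *
        ((if i ∈ S then (x i)⁻¹ ^ (∑ k, d k i) else 1) * (tf S x i)⁻¹) * t i)) *
      (cmat e (crow J c) fun j i => D j (inv S x i) / t i).det := by
    have h4 : ∏ l, tf S x l ≠ 0 := Finset.prod_ne_zero_iff.2 fun i _ => htf i
    have h5 : ∏ k, fac (d k) S x ≠ 0 := Finset.prod_ne_zero_iff.2 fun k _ => hfac k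
    have h6 : ∏ k, fac (d k) S x = ∏ i, if i ∈ S then (x i)⁻¹ ^ (∑ k, d k i) else 1 := by
      simp only [fac]
      rw [Finset.prod_comm]
      refine Finset.prod_congr rfl fun i _ => ?_
      by_cases hi : i ∈ S
      · simp only [if_pos hi]
        rw [Finset.prod_pow_eq_pow_sum]
      · simp only [if_neg hi, Finset.prod_const_one]
    rw [Finset.prod_mul_distrib, mul_assoc, ← h2, ← h1, Finset.prod_mul_distrib,
      Finset.prod_mul_distrib, Finset.prod_inv_distrib, Finset.prod_inv_distrib, ← h6]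
    field_simp
  rw [h3]
  refine P.reg_mul ?_ (Pool.Agent.Y988.NT.reg_det P _ fun u b => ?_)
  · refine P.O.prod_mem fun i _ => ?_
    change P.Reg _
    by_cases hi : i ∈ S
    · -- the denominators at infinity
      obtain ⟨w, hw⟩ : ∃ w : K, w = ∏ c ∈ A i, (1 - algebraMap ℂ K c * (x i)⁻¹) := ⟨_, rfl⟩
      have hw1 : den A x i = x i ^ (A i).card * w := by
        rw [den, hw, ← Finset.prod_const, ← Finset.prod_mul_distrib]
        refine Finset.prod_congr rfl fun c _ => ?_
        have := hxS i hi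
        field_simp
      have hw2 : P.Reg w⁻¹ := by
        rw [hw, ← Finset.prod_inv_distrib]
        refine P.O.prod_mem fun c _ => ?_
        change P.Reg _
        apply reg_inv_of_zero
        by_cases hc0 : algebraMap ℂ K c = 0
        · rw [hc0, zero_mul, sub_zero, P.ord_one]
        · have h5 : P.ord (-(algebraMap ℂ K c * (x i)⁻¹)) = -P.ord (x i) := by
            rw [P.ord_neg, P.ord_mul hc0 (inv_ne_zero (hxS i hi)), P.ord_inv,
              P.ord_eq_zero_of_isAlgebraic hc0 (isAlgebraic_algebraMap _), zero_add]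
          have h6 := P.ord_add_eq (f := (1 : K)) (g := -(algebraMap ℂ K c * (x i)⁻¹)) one_ne_zero
            (neg_ne_zero.2 (mul_ne_zero hc0 (inv_ne_zero (hxS i hi)))) (by
              rw [h5, P.ord_one]
              have := hneg i hi
              omega)
          rw [P.ord_one] at h6
          rw [sub_eq_add_neg]
          exact h6.2
      have hw0 : w ≠ 0 := by
        intro h0
        have h5 : den A x i = 0 := by rw [hw1, h0, mul_zero]
        rw [den, Finset.prod_eq_zero_iff] at h5
        obtain ⟨c, hc, h6⟩ := h5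
        exact hA i c hc (sub_eq_zero.1 h6)
      obtain ⟨ε, hε⟩ : ∃ ε : ℕ, ε = if i ∈ B then 1 else 0 := ⟨_, rfl⟩
      have hti : t i = (x i)⁻¹ ^ ε := by
        rw [ht, hε]
        by_cases hB : i ∈ B
        · have hT : i ∈ T := (hTmem i).2 (Or.inl ⟨hi, hB⟩)
          simp only [if_pos hT, if_pos hB]
          rw [(hα i hT).1 hi, map_zero, sub_zero, inv, if_pos hi, pow_one]
        · have hT : i ∉ T := by
            intro h
            rcases (hTmem i).1 h with h | h
            · exact hB h.2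
            · exact h.1 hi
          simp only [if_neg hT, if_neg hB, pow_zero]
      obtain ⟨q, hq⟩ : ∃ q, ∑ k, d k i + (A i).card + ε = q + a i + 2 := by
        have h5 := ha i
        rw [← hε] at h5
        exact ⟨∑ k, d k i + (A i).card + ε - 2 - a i, by omega⟩
      have h7 : x i ^ a i / den A x i *
          ((if i ∈ S then (x i)⁻¹ ^ (∑ k, d k i) else 1) * (tf S x i)⁻¹) * t i =
          -((x i)⁻¹ ^ q) * w⁻¹ := by
        have hx0 := hxS i hi
        rw [if_pos hi, tf, if_pos hi, hti, hw1]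
        have h8 : (x i)⁻¹ ^ (∑ k, d k i) * (x i)⁻¹ ^ ε * (x i ^ (A i).card)⁻¹ =
            (x i)⁻¹ ^ q * (x i)⁻¹ ^ a i * (x i)⁻¹ ^ 2 := by
          rw [← inv_pow, ← pow_add, ← pow_add, ← pow_add, ← pow_add]
          congr 1
          omega
        have h9 : x i ^ a i / (x i ^ (A i).card * w) *
            ((x i)⁻¹ ^ (∑ k, d k i) * (-((x i)⁻¹ ^ 2))⁻¹) * (x i)⁻¹ ^ ε =
            -(x i ^ a i * ((x i)⁻¹ ^ (∑ k, d k i) * (x i)⁻¹ ^ ε * (x i ^ (A i).card)⁻¹) *
              ((x i)⁻¹ ^ 2)⁻¹ * w⁻¹) := by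
          field_simp
        rw [h9, h8]
        simp only [inv_pow]
        field_simp
      rw [h7]
      exact P.reg_mul (P.reg_neg (P.O.pow_mem (hinv i hi) _)) hw2
    · -- finite places
      have hxi : P.Reg (x i) := by
        by_contra h
        exact hi ((hSmem i).2 h)
      rw [if_neg hi, tf, if_neg hi, inv_one, mul_one, mul_one]
      have hunit : ∀ c ∈ A i, c ≠ α i ∨ i ∉ T → P.ord (x i - algebraMap ℂ K c) = 0 := by
        intro c hc h
        by_cases hT : i ∈ T
        · have h5 := ((hα i hT).2 hi).2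
          exact ord_sub_unit (Ne.symm (h.resolve_right (not_not.2 hT))) h5
        · have h6 : P.Reg (x i - algebraMap ℂ K c) := by
            rw [sub_eq_add_neg]
            exact P.reg_add hxi (P.reg_neg (P.reg_const c))
          have h7 := h6.resolve_left (sub_ne_zero.2 (hA i c hc))
          by_contra h8
          exact hT ((hTmem i).2 (Or.inr ⟨hi, c, hc, by omega⟩))
      have h5 : P.Reg (t i / den A x i) := by
        by_cases hT : i ∈ T
        · have hαA := ((hα i hT).2 hi).1
          have h6 : t i / den A x i = ∏ c ∈ (A i).erase (α i), (x i - algebraMap ℂ K c)⁻¹ := by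
            rw [ht, den, ← Finset.mul_prod_erase (A i) _ hαA, Finset.prod_inv_distrib]
            simp only [if_pos hT]
            rw [inv, if_neg hi]
            have h7 := sub_ne_zero.2 (hA i _ hαA)
            field_simp
          rw [h6]
          refine P.O.prod_mem fun c hc => ?_
          exact reg_inv_of_zero (hunit c (Finset.mem_of_mem_erase hc)
            (Or.inl (Finset.ne_of_mem_erase hc)))
        · have h6 : t i / den A x i = ∏ c ∈ A i, (x i - algebraMap ℂ K c)⁻¹ := by
            rw [ht, den, Finset.prod_inv_distrib]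
            simp only [if_neg hT]
            rw [one_div]
          rw [h6]
          refine P.O.prod_mem fun c hc => ?_
          exact reg_inv_of_zero (hunit c hc (Or.inr hT))
      have h6 : x i ^ a i / den A x i * t i = x i ^ a i * (t i / den A x i) := by ring
      rw [h6]
      exact P.reg_mul (P.O.pow_mem hxi _) h5
  · cases u with
    | inl k => exact crow_reg P hcJ hcJ0 hJr k (e b)
    | inr j =>
      change P.Reg (D j (inv S x (e b)) / t (e b))
      by_cases hT : e b ∈ T
      · rcases hlog with hlog | hlog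
        · have h6 := hlog j (inv S x (e b) - algebraMap ℂ K (α (e b)))
          have h7 : t (e b) = inv S x (e b) - algebraMap ℂ K (α (e b)) := by
            rw [ht]
            simp only [if_pos hT]
          rw [map_sub, Derivation.map_algebraMap, sub_zero] at h6
          rw [h7]
          exact h6
        · exfalso
          apply hlog
          rcases (hTmem _).1 hT with h | ⟨-, c, hc, h⟩
          · exact Or.inl ⟨_, h.2, (hSmem _).1 h.1⟩
          · exact Or.inr ⟨_, c, hc, h⟩
      · have h7 : t (e b) = 1 := by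
          rw [ht]
          simp only [if_neg hT]
        rw [h7, div_one]
        exact hD j _ (hreg (e b))

end

end Pool.Agent.R882.CI
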