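import Pool.Agent.R882.LOver
import Pool.Agent.R882.LReg
import Pool.Agent.R882.CDet

/-!
Open subsets of smooth complete intersections in a product of projective lines: logarithmic forms
which detect fields, and the projections which forget one of the coordinates.
-/

set_option autoImplicit false
set_option linter.unusedSectionVars false
set_option linter.unusedDecidableInType false
set_option linter.unusedFintypeInType false
set_option linter.overlappingInstances false

open FF MvPolynomial Pool.Agent.W603.LV Pool.Agent.W602.GT Pool.Agent.Y184.NT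
open Pool.Agent.R882.LT

namespace Pool.Agent.R882.CI

section

variable {K : Type} [Field K] [Algebra ℂ K] {n : ℕ}
  {κ : Type} [Fintype κ] [DecidableEq κ] {ι : Type} [Fintype ι] [DecidableEq ι]

theorem LogSmooth.smooth {d : κ → ι → ℕ} {F : κ → MvPolynomial ι ℂ} {B : Finset ι}
    {A : ι → Finset ℂ} (hs : LogSmooth d F B A) : Smooth d F := by
  intro S z hz
  exact li_cols (f := fun i : {i // ¬ OnFib B A S z i} => i.1) (hs S z hz)

theorem den_ne {A : ι → Finset ℂ} {x : ι → K} (hA : ∀ i, ∀ a ∈ A i, x i ≠ algebraMap ℂ K a)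
    (i : ι) : den A x i ≠ 0 := by
  rw [den]
  exact Finset.prod_ne_zero_iff.2 fun a ha => sub_ne_zero.2 (hA i a ha)

/-- **Forms with nonzero traces.** -/
theorem detectsL [Algebra.EssFiniteType ℂ K] (hK : Algebra.trdeg ℂ K = n) {d : κ → ι → ℕ}
    {B : Finset ι} {A : ι → Finset ℂ} {m : ι → ℕ} {M : ℕ}
    (hm : ∀ i, ∑ k, d k i + (A i).card + (if i ∈ B then 1 else 0) = m i + 2) {i0 : ι}
    (hM : ∀ i, i ≠ i0 → M ≤ m i) {F : κ → MvPolynomial ι ℂ}
    (hF : ∀ k i, (F k).degreeOf i ≤ d k i) (hs : LogSmooth d F B A)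
    (hcard : Fintype.card ι = n + Fintype.card κ) {x : ι → K} (hx : ∀ k, aeval x (F k) = 0)
    (hA : ∀ i, ∀ a ∈ A i, x i ≠ algebraMap ℂ K a)
    (hgen : IntermediateField.adjoin ℂ (Set.range x) = ⊤)
    {N : ℕ} (σ : Fin N ≃ {j // j ≠ i0}) (F' : IntermediateField ℂ K)
    (hxF : ∀ j, j ≠ i0 → x j ∈ F') (hfinF : FiniteDimensional F' K)
    (hdeg : Module.finrank F' K ≤ m i0 + 1) :
    DetectsL n (Off B A x) (rest σ x) F' M := by
  classical
  obtain ⟨e, C, hC, hdet⟩ := exists_form hs.smooth hcard hx hgen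
  have hchar : CharZero F' := charZero_of_injective_algebraMap (algebraMap ℂ F').injective
  have htrF : Algebra.trdeg ℂ F' = n := trdeg_below (K := K) hK
  have hessF : Algebra.EssFiniteType ℂ F' := Pool.Agent.TH466.QG.ess_below (K := K)
  obtain ⟨z, D, hz, hD⟩ := Pool.Agent.Y172.exists_crd (k := ℂ) (K := F') htrF
  choose D' hD' using fun i => Pool.Agent.Y172.exists_lift (k := ℂ) (K := F') (L := K) htrF (D i)
  have hne := hdet D' (lift_ind hD hD')
  obtain ⟨g, hg⟩ : ∃ g : K, g = ∏ i, (den A x i)⁻¹ := ⟨_, rfl⟩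
  have hg0 : g ≠ 0 := by
    rw [hg]
    exact Finset.prod_ne_zero_iff.2 fun i _ => inv_ne_zero (den_ne hA i)
  obtain ⟨a, ha, hta⟩ : ∃ a < Module.finrank F' K, Algebra.trace F' K
      (x i0 ^ a * (g * (cmat e C fun j i => D' j (x i)).det)) ≠ 0 := by
    by_contra hcon
    push Not at hcon
    exact mul_ne_zero hg0 hne (Pool.Agent.R882.WR.powers_zero (adjoin_top hgen hxF) hcon)
  have hpl : ∀ u : K, IsPluri 1 (fun D : Fin n → Derivation ℂ K K =>
      u * (cmat e C fun j i => D j (x i)).det) := by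
    intro u A' D
    change u * _ = _
    have h1 := cmat_pluri e C x A' D
    simp only at h1
    rw [h1]
    ring
  refine ⟨fun D => x i0 ^ a * (g * (cmat e C fun j i => D j (x i)).det), ?_,
    fun f P _ => ?_, D, D', hD', hta⟩
  · have h1 := hpl (x i0 ^ a * g)
    simpa only [mul_assoc] using h1
  · obtain ⟨e', he0, hle, hprod⟩ := rest_prod σ x f a
    have h2 : (fun D : Fin n → Derivation ℂ K K => (∏ k, rest σ x (f k)) *
        (x i0 ^ a * (g * (cmat e C fun j i => D j (x i)).det))) =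
        fun D => (∏ i, x i ^ e' i / den A x i) * (cmat e C fun j i => D j (x i)).det := by
      funext D
      have h3 : ∏ i, x i ^ e' i / den A x i = (∏ i, x i ^ e' i) * g := by
        rw [hg, ← Finset.prod_mul_distrib]
        exact Finset.prod_congr rfl fun i _ => div_eq_mul_inv _ _
      rw [h3, ← hprod]
      ring
    have h1 : ∀ i, e' i + 2 ≤ ∑ k, d k i + (A i).card + if i ∈ B then 1 else 0 := by
      intro i
      rw [hm i]
      by_cases hi : i = i0
      · rw [hi, he0]
        omega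
      · have h2 := hle i hi
        have h3 := hM i hi
        omega
    rw [h2]
    refine ⟨fun D hD => ?_, fun hP D hD => ?_⟩
    · exact ci_log hF hs e hx hA hC h1 P D
        (fun j => Pool.Agent.TH466.QG.derReg_of_log (hD j)) (Or.inl hD)
    · exact ci_log hF hs e hx hA hC h1 P D hD (Or.inr hP)

/-- all coordinates, with `1` -/
noncomputable def full {N : ℕ} (σ : Fin N ≃ ι) (x : ι → K) : Fin (N + 1) → K :=
  Fin.cons 1 fun a => x (σ a)

theorem full_prod [Algebra.EssFiniteType ℂ K] {N M : ℕ} (σ : Fin N ≃ ι) (x : ι → K) (f : Fin M → Fin (N + 1)) :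
    ∃ e : ι → ℕ, (∀ i, e i ≤ M) ∧ ∏ k, full σ x (f k) = ∏ i, x i ^ e i := by
  obtain ⟨e', he', h1⟩ := prod_monom (fun b => x (σ b)) f
  refine ⟨fun i => e' (σ.symm i), fun i => he' _, ?_⟩
  rw [full, h1, ← σ.prod_comp]
  exact Finset.prod_congr rfl fun b _ => by simp

theorem full_range {N : ℕ} (σ : Fin N ≃ ι) (x : ι → K) :
    Set.range x ⊆ Set.range (full σ x) := by
  rintro _ ⟨i, rfl⟩
  refine ⟨(σ.symm i).succ, ?_⟩
  rw [full, Fin.cons_succ]
  simp

/-- **Forms of positive degree in all coordinates.** -/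
theorem detectsL_full [Algebra.EssFiniteType ℂ K] (hK : Algebra.trdeg ℂ K = n) {d : κ → ι → ℕ}
    {B : Finset ι} {A : ι → Finset ℂ} {m : ι → ℕ} {M : ℕ}
    (hm : ∀ i, ∑ k, d k i + (A i).card + (if i ∈ B then 1 else 0) = m i + 2)
    (hM : ∀ i, M ≤ m i) {F : κ → MvPolynomial ι ℂ}
    (hF : ∀ k i, (F k).degreeOf i ≤ d k i) (hs : LogSmooth d F B A)
    (hcard : Fintype.card ι = n + Fintype.card κ) {x : ι → K} (hx : ∀ k, aeval x (F k) = 0)
    (hA : ∀ i, ∀ a ∈ A i, x i ≠ algebraMap ℂ K a)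
    (hgen : IntermediateField.adjoin ℂ (Set.range x) = ⊤)
    {N : ℕ} (σ : Fin N ≃ ι) (F' : IntermediateField ℂ K) (hF' : F' = ⊤) :
    DetectsL n (Off B A x) (full σ x) F' M := by
  classical
  have hfinF : FiniteDimensional F' K := by
    rw [hF']
    exact Module.Finite.of_surjective (Algebra.linearMap (⊤ : IntermediateField ℂ K) K)
      fun z => ⟨⟨z, trivial⟩, rfl⟩
  obtain ⟨e, C, hC, hdet⟩ := exists_form hs.smooth hcard hx hgen
  have hchar : CharZero F' := charZero_of_injective_algebraMap (algebraMap ℂ F').injective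
  have htrF : Algebra.trdeg ℂ F' = n := trdeg_below (K := K) hK
  have hessF : Algebra.EssFiniteType ℂ F' := Pool.Agent.TH466.QG.ess_below (K := K)
  obtain ⟨z, D, hz, hD⟩ := Pool.Agent.Y172.exists_crd (k := ℂ) (K := F') htrF
  choose D' hD' using fun i => Pool.Agent.Y172.exists_lift (k := ℂ) (K := F') (L := K) htrF (D i)
  have hne := hdet D' (lift_ind hD hD')
  obtain ⟨g, hg⟩ : ∃ g : K, g = ∏ i, (den A x i)⁻¹ := ⟨_, rfl⟩
  have hg0 : g ≠ 0 := by
    rw [hg]
    exact Finset.prod_ne_zero_iff.2 fun i _ => inv_ne_zero (den_ne hA i)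
  have hpl : ∀ u : K, IsPluri 1 (fun D : Fin n → Derivation ℂ K K =>
      u * (cmat e C fun j i => D j (x i)).det) := by
    intro u A' D
    change u * _ = _
    have h1 := cmat_pluri e C x A' D
    simp only at h1
    rw [h1]
    ring
  refine ⟨fun D => g * (cmat e C fun j i => D j (x i)).det, hpl g,
    fun f P _ => ?_, D, D', hD', ?_⟩
  · obtain ⟨e', hle, hprod⟩ := full_prod σ x f
    have h2 : (fun D : Fin n → Derivation ℂ K K => (∏ k, full σ x (f k)) *
        (g * (cmat e C fun j i => D j (x i)).det)) =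
        fun D => (∏ i, x i ^ e' i / den A x i) * (cmat e C fun j i => D j (x i)).det := by
      funext D
      have h3 : ∏ i, x i ^ e' i / den A x i = (∏ i, x i ^ e' i) * g := by
        rw [hg, ← Finset.prod_mul_distrib]
        exact Finset.prod_congr rfl fun i _ => div_eq_mul_inv _ _
      rw [h3, ← hprod]
      ring
    have h1 : ∀ i, e' i + 2 ≤ ∑ k, d k i + (A i).card + if i ∈ B then 1 else 0 := by
      intro i
      rw [hm i]
      have h2 := hle i
      have h3 := hM i
      omega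
    rw [h2]
    refine ⟨fun D hD => ?_, fun hP D hD => ?_⟩
    · exact ci_log hF hs e hx hA hC h1 P D
        (fun j => Pool.Agent.TH466.QG.derReg_of_log (hD j)) (Or.inl hD)
    · exact ci_log hF hs e hx hA hC h1 P D hD (Or.inr hP)
  · intro h0
    obtain ⟨w, hw⟩ : ∃ w : F', (w : K) = g * (cmat e C fun j i => D' j (x i)).det :=
      ⟨⟨_, by rw [hF']; trivial⟩, rfl⟩
    have h1 : algebraMap F' K w = g * (cmat e C fun j i => D' j (x i)).det := hw
    simp only at h0
    rw [← h1, Algebra.trace_algebraMap, smul_eq_zero] at h0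
    rcases h0 with h0 | h0
    · exact (Module.finrank_pos (R := F') (M := K)).ne' h0
    · rw [h0, map_zero] at h1
      exact mul_ne_zero hg0 hne h1.symm

/-- the degree of the projection -/
theorem deg_rest [Algebra.EssFiniteType ℂ K] (hK : Algebra.trdeg ℂ K = n) {d : κ → ι → ℕ}
    {B : Finset ι} {A : ι → Finset ℂ} {F : κ → MvPolynomial ι ℂ}
    (hF : ∀ k i, (F k).degreeOf i ≤ d k i) (hs : LogSmooth d F B A)
    (hcard : Fintype.card ι = n + Fintype.card κ) {x : ι → K} (hx : ∀ k, aeval x (F k) = 0)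
    (hgen : IntermediateField.adjoin ℂ (Set.range x) = ⊤) {i0 : ι}
    (halg : IsAlgebraic (IntermediateField.adjoin ℂ (x '' {i0}ᶜ)) (x i0)) :
    Module.finrank (IntermediateField.adjoin ℂ (x '' {i0}ᶜ)) K ≤ ∑ k, d k i0 := by
  obtain ⟨e, C, hC, hdet⟩ := exists_form hs.smooth hcard hx hgen
  obtain ⟨z, D, hz, hD⟩ := Pool.Agent.Y172.exists_crd (k := ℂ) (K := K) hK
  have hne := hdet D (lift_ind (L := K) (K := K) hD fun _ _ => rfl)
  obtain ⟨k0, hk0⟩ := deg_le hx hC hgen hne halg
  exact (hk0.trans (hF k0 i0)).trans (Finset.single_le_sum (f := fun k => d k i0)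
      (fun _ _ => Nat.zero_le _) (Finset.mem_univ k0))

/-- the residue form -/
theorem kodGe_zero [Algebra.EssFiniteType ℂ K] (hK : Algebra.trdeg ℂ K = n) {d : κ → ι → ℕ}
    {B : Finset ι} {A : ι → Finset ℂ}
    (hm : ∀ i, 2 ≤ ∑ k, d k i + (A i).card + (if i ∈ B then 1 else 0))
    {F : κ → MvPolynomial ι ℂ}
    (hF : ∀ k i, (F k).degreeOf i ≤ d k i) (hs : LogSmooth d F B A)
    (hcard : Fintype.card ι = n + Fintype.card κ) {x : ι → K} (hx : ∀ k, aeval x (F k) = 0)
    (hA : ∀ i, ∀ a ∈ A i, x i ≠ algebraMap ℂ K a)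
    (hgen : IntermediateField.adjoin ℂ (Set.range x) = ⊤) :
    KodGe ℂ K n (Off B A x) 0 := by
  classical
  obtain ⟨e, C, hC, hdet⟩ := exists_form hs.smooth hcard hx hgen
  obtain ⟨z, D, hz, hD⟩ := Pool.Agent.Y172.exists_crd (k := ℂ) (K := K) hK
  have hne := hdet D (lift_ind (L := K) (K := K) hD fun _ _ => rfl)
  have h0 : ∏ i, x i ^ 0 / den A x i ≠ 0 := by
    refine Finset.prod_ne_zero_iff.2 fun i _ => ?_
    rw [pow_zero]
    exact one_div_ne_zero (den_ne hA i)
  refine ⟨1, one_pos, fun _ D => (∏ i, x i ^ 0 / den A x i) *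
    (cmat e C fun j i => D j (x i)).det, fun _ => ⟨?_, fun P _ D hD => ?_, fun P _ hP D hD => ?_⟩,
    D, mul_ne_zero h0 hne, algebraicIndependent_empty_type⟩
  · intro A' D
    change (∏ i, x i ^ 0 / den A x i) * _ = _
    have h1 := cmat_pluri e C x A' D
    simp only at h1
    rw [h1]
    ring
  · exact ci_log hF hs e hx hA hC (a := fun _ => 0) (fun i => by
      have := hm i
      omega) P D (fun j => Pool.Agent.TH466.QG.derReg_of_log (hD j)) (Or.inl hD)
  · exact ci_log hF hs e hx hA hC (a := fun _ => 0) (fun i => by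
      have := hm i
      omega) P D hD (Or.inr hP)

/-- a field of which the coordinates except one are constant -/
theorem off_const {B : Finset ι} {A : ι → Finset ℂ} {x : ι → K}
    (hA : ∀ i, ∀ a ∈ A i, x i ≠ algebraMap ℂ K a) {Q : Place ℂ K} {i : ι}
    (h : ∀ a : ℂ, x i ≠ algebraMap ℂ K a → Q.ord (x i - algebraMap ℂ K a) = 0) :
    ¬ (i ∈ B ∧ ¬ Q.Reg (x i)) ∧ ¬ ∃ a ∈ A i, 0 < Q.ord (x i - algebraMap ℂ K a) := by
  constructor
  · rintro ⟨-, h1⟩
    apply h1
    by_cases h0 : x i = algebraMap ℂ K 0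
    · rw [h0]
      exact Q.reg_const 0
    · have h2 := h 0 h0
      rw [map_zero, sub_zero] at h2
      exact Or.inr h2.ge
  · rintro ⟨a, ha, h1⟩
    rw [h a (hA i a ha)] at h1
    exact lt_irrefl _ h1

/-- if the coordinate `x i0` has no boundary then it is algebraic over the others -/
theorem halg_of [Algebra.EssFiniteType ℂ K] (hK : Algebra.trdeg ℂ K = n)
    {B : Finset ι} {A : ι → Finset ℂ} {x : ι → K} (hk : KodGe ℂ K n (Off B A x) 0)
    (hA : ∀ i, ∀ a ∈ A i, x i ≠ algebraMap ℂ K a)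
    (hgen : IntermediateField.adjoin ℂ (Set.range x) = ⊤) {i0 : ι} (hi0 : i0 ∉ B)
    (hAi0 : A i0 = ∅) : IsAlgebraic (IntermediateField.adjoin ℂ (x '' {i0}ᶜ)) (x i0) := by
  by_contra htr
  have hxE : ∀ j, j ≠ i0 → x j ∈ IntermediateField.adjoin ℂ (x '' {i0}ᶜ) := fun j hj =>
    IntermediateField.subset_adjoin ℂ _ ⟨j, hj, rfl⟩
  obtain ⟨δ, hδ1, hδ2⟩ := Pool.Agent.Y172.exists_der_ind
    (M := IntermediateField.adjoin ℂ (x '' {i0}ᶜ)) (t := fun _ : Unit => x i0)
    ((algebraicIndependent_unique_type_iff).2 htr) (fun _ => x i0)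
  have htop := adjoin_top hgen hxE
  have hx0 : x i0 ≠ 0 := by
    intro h
    apply htr
    rw [h]
    exact isAlgebraic_zero
  refine not_psef hK δ hx0 (hδ2 ()) ?_ (Bd := Off B A x) (fun P hP _ hoff => ?_)
    (psef_of_kodGe hk)
  · rw [eq_top_iff]
    intro y _
    have hle : (IntermediateField.adjoin (IntermediateField.adjoin ℂ (x '' {i0}ᶜ))
        {x i0}).toSubfield ≤ (IntermediateField.adjoin (consts δ) {x i0}).toSubfield := by
      change Subfield.closure _ ≤ _
      rw [Subfield.closure_le]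
      rintro y (⟨c, rfl⟩ | hy)
      · exact (IntermediateField.adjoin (consts δ) {x i0}).algebraMap_mem
          (⟨c, hδ1 c c.2⟩ : consts δ)
      · rw [Set.mem_singleton_iff.mp hy]
        exact IntermediateField.mem_adjoin_simple_self _ _
    have hy : y ∈ IntermediateField.adjoin (IntermediateField.adjoin ℂ (x '' {i0}ᶜ)) {x i0} := by
      rw [htop]
      exact IntermediateField.mem_top
    exact hle hy
  · have hc : ∀ j, j ≠ i0 → ∀ a : ℂ, x j ≠ algebraMap ℂ K a →
        P.ord (x j - algebraMap ℂ K a) = 0 := fun j hj a ha =>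
      hP _ (hδ1 _ (sub_mem (hxE j hj) (IntermediateField.algebraMap_mem _ a)))
        (sub_ne_zero.2 ha)
    rcases hoff with ⟨i, hi, h⟩ | ⟨i, h⟩
    · have hii : i ≠ i0 := fun h => hi0 (h ▸ hi)
      exact (off_const (B := B) (A := A) hA (hc i hii)).1 ⟨hi, h⟩
    · have hii : i ≠ i0 := by
        rintro rfl
        obtain ⟨a, ha, -⟩ := h
        rw [hAi0] at ha
        simp at ha
      exact (off_const (B := B) (A := A) hA (hc i hii)).2 h

/-- the projection of a hypersurface is `A¹`-ruled if one of the other coordinates has at most one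
boundary fibre -/
theorem a1Ruled_rest (hK : Algebra.trdeg ℂ K = n) (hcard : Fintype.card ι = n + 1)
    {B : Finset ι} {A : ι → Finset ℂ} {x : ι → K}
    (hA : ∀ i, ∀ a ∈ A i, x i ≠ algebraMap ℂ K a) {i0 i1 : ι} (h01 : i1 ≠ i0) (hi0 : i0 ∉ B)
    (hAi0 : A i0 = ∅) (h1 : (A i1).card + (if i1 ∈ B then 1 else 0) ≤ 1)
    (halg : ∀ τ : K, IsAlgebraic (IntermediateField.adjoin ℂ (x '' {i0}ᶜ)) τ)
    {E : IntermediateField ℂ K} (hE : E = IntermediateField.adjoin ℂ (x '' {i0}ᶜ)) :
    ∃ BE : Place ℂ E → Prop, A1Ruled BE ∧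
      ∀ (P : Place ℂ E) (Q : Place ℂ K) (e : ℕ), Over Q P e → Off B A x Q → BE P := by
  classical
  have hxE : ∀ j : {j // j ≠ i0}, x j ∈ E := fun j => by
    rw [hE]
    exact IntermediateField.subset_adjoin ℂ _ ⟨j, j.2, rfl⟩
  obtain ⟨f, hf⟩ : ∃ f : {j // j ≠ i0} → E, ∀ j, (f j : K) = x j :=
    ⟨fun j => ⟨x j, hxE j⟩, fun _ => rfl⟩
  have hcardι : Fintype.card {j // j ≠ i0} = n := by
    rw [Fintype.card_subtype_compl, Fintype.card_subtype_eq, hcard]
    omega
  have hrange : Set.range (fun j : {j // j ≠ i0} => x j) = x '' {i0}ᶜ := by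
    ext z
    constructor
    · rintro ⟨j, rfl⟩
      exact ⟨j, j.2, rfl⟩
    · rintro ⟨j, hj, rfl⟩
      exact ⟨⟨j, hj⟩, rfl⟩
  have hfK : E.val ∘ f = fun j : {j // j ≠ i0} => x j := funext hf
  have hind : AlgebraicIndependent ℂ (fun j : {j // j ≠ i0} => x j) := by
    have h2 : ∀ τ : K, IsAlgebraic (IntermediateField.adjoin ℂ
        (Set.range fun j : {j // j ≠ i0} => x j)) τ := by
      rw [hrange]
      exact halg
    have h3 := Pool.Agent.W619.PQ.alg_adjoin h2
    exact (Algebra.IsAlgebraic.isTranscendenceBasis_of_lift_le_trdeg_of_finite ℂ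
      (fun j : {j // j ≠ i0} => x j) (by
        rw [hK, Cardinal.mk_fintype, hcardι])).1
  have hgenE : IntermediateField.adjoin ℂ (Set.range f) = ⊤ := by
    apply IntermediateField.map_injective E.val
    rw [IntermediateField.adjoin_map, ← Set.range_comp, hfK, hrange, ← hE,
      ← AlgHom.fieldRange_eq_map, IntermediateField.fieldRange_val]
  have hfind : AlgebraicIndependent ℂ f := by
    rw [← AlgHom.algebraicIndependent_iff E.val Subtype.val_injective, hfK]
    exact hind
  have hfbas : IsTranscendenceBasis ℂ f := by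
    rw [hfind.isTranscendenceBasis_iff_isAlgebraic]
    have h2 : ∀ τ : E, IsAlgebraic (IntermediateField.adjoin ℂ (Set.range f)) τ := by
      intro τ
      rw [hgenE]
      exact isAlgebraic_algebraMap (⟨τ, IntermediateField.mem_top⟩ : (⊤ : IntermediateField ℂ E))
    exact Pool.Agent.W619.PQ.alg_adjoin h2
  obtain ⟨j1, hj1⟩ : ∃ j1 : {j // j ≠ i0}, j1 = ⟨i1, h01⟩ := ⟨_, rfl⟩
  -- the coordinate of the line
  obtain ⟨σ, hσ0, hσK, hσ1⟩ : ∃ σ : E, σ ≠ 0 ∧ (∃ a : ℂ, σ = f j1 ∨
      σ = (f j1 - algebraMap ℂ E a)⁻¹ ∧ f j1 - algebraMap ℂ E a ≠ 0) ∧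
      ∀ (P : Place ℂ E) (Q : Place ℂ K) (e : ℕ), Over Q P e → 0 ≤ P.ord σ →
        ¬ (i1 ∈ B ∧ ¬ Q.Reg (x i1)) ∧ ¬ ∃ a ∈ A i1, 0 < Q.ord (x i1 - algebraMap ℂ K a) := by
    have hfne : ∀ a : ℂ, f j1 - algebraMap ℂ E a ≠ 0 := by
      intro a h
      have h2 := hfind.transcendental j1
      rw [sub_eq_zero.1 h] at h2
      exact h2 (isAlgebraic_algebraMap a)
    by_cases hA1 : A i1 = ∅
    · refine ⟨f j1, ?_, ⟨0, Or.inl rfl⟩, fun P Q e hQ hP => ⟨?_, ?_⟩⟩
      · have h2 := hfne 0
        rwa [map_zero, sub_zero] at h2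
      · rintro ⟨-, h2⟩
        apply h2
        right
        have h3 := hQ.2 (f j1)
        have h4 : algebraMap E K (f j1) = x i1 := by
          rw [hj1]
          exact hf _
        rw [h4] at h3
        rw [h3]
        positivity
      · rintro ⟨a, ha, -⟩
        rw [hA1] at ha
        simp at ha
    · have hB1 : i1 ∉ B := by
        intro hB1
        rw [if_pos hB1] at h1
        have h2 := Finset.card_pos.2 (Finset.nonempty_iff_ne_empty.2 hA1)
        omega
      rw [if_neg hB1, add_zero] at h1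
      obtain ⟨a, ha⟩ := Finset.nonempty_iff_ne_empty.2 hA1
      have hAa : ∀ b ∈ A i1, b = a := fun b hb => Finset.card_le_one.1 h1 b hb a ha
      refine ⟨(f j1 - algebraMap ℂ E a)⁻¹, inv_ne_zero (hfne a), ⟨a, Or.inr ⟨rfl, hfne a⟩⟩,
        fun P Q e hQ hP => ⟨fun h => hB1 h.1, ?_⟩⟩
      rintro ⟨b, hb, h2⟩
      rw [hAa b hb] at h2
      have h3 := hQ.2 (f j1 - algebraMap ℂ E a)
      have h4 : algebraMap E K (f j1 - algebraMap ℂ E a) = x i1 - algebraMap ℂ K a := by
        rw [map_sub, ← IsScalarTower.algebraMap_apply ℂ E K, hj1]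
        congr 1
        exact hf _
      rw [h4] at h3
      rw [h3] at h2
      rw [P.ord_inv] at hP
      have h5 : (e : ℤ) * P.ord (f j1 - algebraMap ℂ E a) ≤ 0 :=
        mul_nonpos_of_nonneg_of_nonpos (by positivity) (by omega)
      omega
  obtain ⟨c, hc⟩ : ∃ c : E, ∀ D : Derivation ℂ E E, D (f j1) = c → D σ = σ := by
    obtain ⟨a, h | ⟨h, h0⟩⟩ := hσK
    · exact ⟨f j1, fun D hD => by rw [h, hD]⟩
    · refine ⟨-(f j1 - algebraMap ℂ E a), fun D hD => ?_⟩
      rw [h, Derivation.leibniz_inv, map_sub, Derivation.map_algebraMap, sub_zero, hD,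
        smul_eq_mul]
      field_simp
  obtain ⟨δ, hδ⟩ := Pool.Agent.W602.GT.exists_der f hfbas (fun j => if j = j1 then c else 0)
  obtain ⟨M, hM⟩ : ∃ M : IntermediateField ℂ E, M = IntermediateField.adjoin ℂ (f '' {j1}ᶜ) :=
    ⟨_, rfl⟩
  have hMc : M ≤ consts δ := by
    rw [hM, IntermediateField.adjoin_le_iff]
    rintro _ ⟨j, hj, rfl⟩
    change δ (f j) = 0
    have hj' : j ≠ j1 := hj
    rw [hδ, if_neg hj']
  refine ⟨fun P => ∃ (Q : Place ℂ K) (e : ℕ), Over Q P e ∧ Off B A x Q,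
    ⟨δ, σ, M, hσ0, hc δ (by rw [hδ, if_pos rfl]), ?_, hMc, ?_, ?_⟩,
    fun P Q e hQ hoff => ⟨Q, e, hQ, hoff⟩⟩
  · rw [hM]
    exact IntermediateField.fg_adjoin_of_finite ((Set.toFinite _).image f)
  · rw [eq_top_iff]
    intro y _
    have hy : y ∈ IntermediateField.adjoin ℂ (Set.range f) := by
      rw [hgenE]
      trivial
    have hle : IntermediateField.adjoin ℂ (Set.range f) ≤
        (IntermediateField.adjoin M {σ}).restrictScalars ℂ := by
      rw [IntermediateField.adjoin_le_iff]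
      rintro _ ⟨j, rfl⟩
      by_cases hj : j = j1
      · rw [hj]
        have hσm : σ ∈ IntermediateField.adjoin M {σ} :=
          IntermediateField.mem_adjoin_simple_self M σ
        obtain ⟨a, h | ⟨h, h0⟩⟩ := hσK
        · rw [← h]
          exact hσm
        · have h2 : f j1 = σ⁻¹ + algebraMap ℂ E a := by
            rw [h, inv_inv]
            ring
          rw [h2]
          have h3 : algebraMap ℂ E a ∈ IntermediateField.adjoin M {σ} :=
            (IntermediateField.adjoin M {σ}).algebraMap_mem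
              (⟨algebraMap ℂ E a, M.algebraMap_mem a⟩ : M)
          exact add_mem (inv_mem hσm) h3
      · have h2 : f j ∈ M := by
          rw [hM]
          exact IntermediateField.subset_adjoin ℂ _ ⟨j, hj, rfl⟩
        exact (IntermediateField.adjoin M {σ}).algebraMap_mem (⟨f j, h2⟩ : M)
    exact hle hy
  · rintro P hP hPσ ⟨Q, e, hQ, hoff⟩
    have hcon : ∀ j : {j // j ≠ i0}, j ≠ j1 → ∀ a : ℂ, x j ≠ algebraMap ℂ K a →
        Q.ord (x j - algebraMap ℂ K a) = 0 := by
      intro j hj a ha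
      have h2 : δ (f j - algebraMap ℂ E a) = 0 := by
        rw [map_sub, Derivation.map_algebraMap, hδ, if_neg hj, sub_zero]
      have h3 : algebraMap E K (f j - algebraMap ℂ E a) = x j - algebraMap ℂ K a := by
        rw [map_sub, ← IsScalarTower.algebraMap_apply ℂ E K]
        congr 1
        exact hf _
      have h4 : f j - algebraMap ℂ E a ≠ 0 := by
        intro h
        rw [h, map_zero] at h3
        exact ha (sub_eq_zero.1 h3.symm)
      rw [← h3, hQ.2, hP _ h2 h4, mul_zero]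
    have hall : ∀ i, i ≠ i0 → ¬ (i ∈ B ∧ ¬ Q.Reg (x i)) ∧
        ¬ ∃ a ∈ A i, 0 < Q.ord (x i - algebraMap ℂ K a) := by
      intro i hi
      by_cases h : i = i1
      · rw [h]
        exact hσ1 P Q e hQ hPσ
      · exact off_const hA (hcon ⟨i, hi⟩ fun h' => h (by
          rw [hj1] at h'
          exact congrArg Subtype.val h'))
    rcases hoff with ⟨i, hi, h⟩ | ⟨i, h⟩
    · exact (hall i fun h' => hi0 (h' ▸ hi)).1 ⟨hi, h⟩
    · refine (hall i ?_).2 h
      rintro rfl
      obtain ⟨a, ha, -⟩ := h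
      rw [hAi0] at ha
      simp at ha

end

end Pool.Agent.R882.CI
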