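import Pool.Agent.R882.LTr
import Pool.Agent.TH766.MC.A1
import Pool.Agent.Y199.NN.NegA1
import Pool.Agent.W619.Y.LRes

/-!
Images of open varieties over an `A¹`-ruled variety.
-/

set_option autoImplicit false
set_option linter.unusedSectionVars false
set_option linter.overlappingInstances false

open FF Pool.Agent.W602.GT Pool.Agent.W603.LV Pool.Agent.Y172
open Pool.Agent.Y184.NT
open Pool.Agent.W619.PL (IsA1Uniruled LogKodairaNeg)

namespace Pool.Agent.R882.LT

section

variable {K : Type} [Field K] [Algebra ℂ K] {n N : ℕ}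

/-- the two definitions of pseudo-effectivity agree -/
theorem psef_iff' {k F : Type} [Field k] [CharZero k] [IsAlgClosed k] [Field F] [Algebra k F] (n : ℕ)
    (Bd : Place k F → Prop) :
    Psef k F n Bd ↔ Pool.Agent.W619.TW.IsPsef k F n Bd := by
  constructor
  · rintro ⟨S, h⟩
    refine ⟨S, fun M => ?_⟩
    obtain ⟨j, hj, ω, ⟨h1, h2, h3⟩, h4⟩ := h M
    exact ⟨j, hj, ω, ⟨h1, fun v hv hB D hD => h3 v hv hB D hD, fun v hv _ D hD => h2 v hv D hD⟩, h4⟩
  · rintro ⟨S, h⟩
    refine ⟨S, fun M => ?_⟩
    obtain ⟨j, hj, ω, ⟨h1, h2, h3⟩, h4⟩ := h M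
    refine ⟨j, hj, ω, ⟨h1, fun v hv D hD => ?_, fun v hv hB D hD => h2 v hv hB D hD⟩, h4⟩
    by_cases hB : Bd v
    · exact h3 v hv hB D hD
    · exact h2 v hv hB D fun l => Pool.Agent.TH466.QG.derReg_of_log (hD l)

/-- There is a section `ω` of `K_V + D_V - m H` whose trace to the field `F` is not zero. -/
def DetectsL (n : ℕ) (BK : Place ℂ K → Prop) (x : Fin N → K) (F : IntermediateField ℂ K)
    (m : ℕ) : Prop :=
  ∃ ω : (Fin n → Derivation ℂ K K) → K, IsPluri 1 ω ∧
    (∀ (f : Fin m → Fin N) (P : Place ℂ K), Divisorial n P →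
      SecAt BK P (fun D => (∏ k, x (f k)) * ω D)) ∧
    ∃ (D : Fin n → Derivation ℂ F F) (D' : Fin n → Derivation ℂ K K),
      (∀ i f, D' i (algebraMap F K f) = algebraMap F K (D i f)) ∧
      Algebra.trace F K (ω D') ≠ 0

/-- For all fields `F` with `ℂ(x) < F ≤ K` there is a section of `K_V + D_V - m H` with nonzero trace
to `F`, for some `m` with `s ≤ [K : F] (m + 1)`. -/
def PositiveL (n : ℕ) (BK : Place ℂ K → Prop) (x : Fin N → K) (s : ℕ) : Prop :=
  ∀ F : IntermediateField ℂ K, IntermediateField.adjoin ℂ (Set.range x) < F →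
    ∃ m : ℕ, s ≤ Module.finrank F K * (m + 1) ∧ DetectsL n BK x F m

/-- The open variety with the function field `E` and the boundary `B` is `A¹`-ruled. -/
def A1Ruled {E : Type} [Field E] [Algebra ℂ E] (B : Place ℂ E → Prop) : Prop :=
  ∃ (δ : Derivation ℂ E E) (σ : E) (M : IntermediateField ℂ E), σ ≠ 0 ∧ δ σ = σ ∧ M.FG ∧
    M ≤ consts δ ∧ IntermediateField.adjoin M {σ} = ⊤ ∧
    ∀ P : Place ℂ E, (∀ c : E, δ c = 0 → c ≠ 0 → P.ord c = 0) → 0 ≤ P.ord σ → ¬ B P

end

section

variable {L E : Type} [Field L] [Field E] [Algebra ℂ L] [Algebra ℂ E] [Algebra L E]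
  [IsScalarTower ℂ L E] [FiniteDimensional L E] [Algebra.EssFiniteType ℂ L]
  [Algebra.EssFiniteType ℂ E] {n : ℕ}

/-- images of `A¹`-ruled varieties: the log canonical bundle -/
theorem a1_not_psef (hE : Algebra.trdeg ℂ E = n) (hL : Algebra.trdeg ℂ L = n)
    {BE : Place ℂ E → Prop} {BL : Place ℂ L → Prop}
    (hB : ∀ (P : Place ℂ L) (Q : Place ℂ E) (e : ℕ), Over Q P e → BL P → BE Q)
    (h : A1Ruled BE) : ¬ Psef ℂ L n BL := by
  intro hps
  rw [psef_iff'] at hps
  have hT := (Pool.Agent.W619.Y.pTRANS.{0, 0} ℂ L E n hL (fun y hy => fd_basis hy) BL).1 hps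
  rw [← psef_iff'] at hT
  obtain ⟨δ, σ, M, h1, h2, h3, h4, h5, h6⟩ := h
  refine not_psef hE δ h1 h2 ?_ (fun P hP hPσ hBP => ?_) hT
  · have hle : (IntermediateField.adjoin M {σ}).toSubfield ≤
        (IntermediateField.adjoin (consts δ) {σ}).toSubfield := by
      change Subfield.closure _ ≤ _
      rw [Subfield.closure_le]
      rintro y (⟨c, rfl⟩ | hy)
      · exact (IntermediateField.adjoin (consts δ) {σ}).algebraMap_mem (⟨c, h4 c.2⟩ : consts δ)
      · rw [Set.mem_singleton_iff.mp hy]
        exact IntermediateField.mem_adjoin_simple_self _ _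
    rw [eq_top_iff]
    intro y _
    have hy : y ∈ IntermediateField.adjoin M {σ} := by
      rw [h5]
      exact IntermediateField.mem_top
    exact hle hy
  · obtain ⟨v, e, hv, hBv⟩ := hBP
    exact h6 P hP hPσ (hB v P e hv hBv)

/-- images of `A¹`-uniruled varieties are `A¹`-uniruled -/
theorem a1_down' {BE : Place ℂ E → Prop} {BL : Place ℂ L → Prop}
    (hB : ∀ (P : Place ℂ L) (Q : Place ℂ E) (e : ℕ), Over Q P e → BL P → BE Q)
    (hA : IsA1Uniruled ℂ E n BE) : IsA1Uniruled ℂ L n BL := by
  obtain ⟨M, _, _, φ, h1, h2, h3⟩ := hA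
  refine ⟨M, inferInstance, inferInstance, φ.comp (IsScalarTower.toAlgHom ℂ L E), h1, h2,
    fun w hX v e he hv hb => ?_⟩
  have hv' : ∀ f : L, w.ord (φ (algebraMap L E f)) = e * v.ord f := hv
  obtain ⟨t, ht0, ht⟩ := v.surj
  have he' : (0 : ℤ) < e := by exact_mod_cast he
  obtain ⟨w', a, ha, hw'⟩ := Pool.Agent.W619.Y.exists_restrict w (φ : E →+* RatFunc M)
    (fun c hc => by
      change w.ord (φ (algebraMap ℂ E c)) = 0
      rw [φ.commutes, IsScalarTower.algebraMap_apply ℂ M (RatFunc M)]
      exact w.ord_const (by simpa using hc)) (f0 := algebraMap L E t) (by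
      have h4 := hv' t
      rw [ht, mul_one] at h4
      change w.ord (φ (algebraMap L E t)) ≠ 0
      rw [h4]
      omega)
  have ha' : (0 : ℤ) < a := by exact_mod_cast ha
  have h5 : (a : ℤ) * w'.ord (algebraMap L E t) = e := by
    rw [← hw']
    have h4 := hv' t
    rw [ht, mul_one] at h4
    exact h4
  have h6 : 0 < w'.ord (algebraMap L E t) := by
    by_contra h
    have : (a : ℤ) * w'.ord (algebraMap L E t) ≤ 0 :=
      mul_nonpos_of_nonneg_of_nonpos ha'.le (not_lt.1 h)
    omega
  refine h3 w hX w' a ha (fun f => hw' f) (hB v w' (w'.ord (algebraMap L E t)).toNat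
    ⟨by omega, fun f => ?_⟩ hb)
  rw [Int.toNat_of_nonneg h6.le]
  have h7 : (a : ℤ) * w'.ord (algebraMap L E f) = e * v.ord f := by
    rw [← hw']
    exact hv' f
  apply mul_left_cancel₀ ha'.ne'
  rw [h7, ← h5]
  ring

end

/-- The logarithmic geometric genus is zero: the only canonical form with at most logarithmic poles
which is regular at all prime divisors that are not in the boundary is `0`. -/
def LogGenusZero (L : Type) [Field L] [Algebra ℂ L] (n : ℕ) (Bd : Place ℂ L → Prop) : Prop :=
  ∀ ω : (Fin n → Derivation ℂ L L) → L, LogSec ℂ L n 1 Bd ω → ∀ D, ω D = 0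

theorem over_trans {A B C : Type} [Field A] [Field B] [Field C] [Algebra ℂ A] [Algebra ℂ B]
    [Algebra ℂ C] [Algebra A B] [Algebra B C] [Algebra A C] [IsScalarTower A B C]
    {P : Place ℂ A} {Q : Place ℂ B} {R : Place ℂ C} {e f : ℕ} (h1 : Over Q P e)
    (h2 : Over R Q f) : Over R P (f * e) := by
  refine ⟨Nat.mul_pos h2.1 h1.1, fun z => ?_⟩
  rw [IsScalarTower.algebraMap_apply A B C, h2.2, h1.2]
  push_cast
  ring

/-- the trace to the field generated by `L` and `x` -/
theorem core {n N : ℕ} {K : Type} [Field K] [Algebra ℂ K] [Algebra.EssFiniteType ℂ K]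
    (hK : Algebra.trdeg ℂ K = n) {x : Fin N → K} {BK : Place ℂ K → Prop}
    (L : Type) [Field L] [Algebra ℂ L] [Algebra L K] [IsScalarTower ℂ L K]
    [FiniteDimensional L K] {E : Fin n → Derivation ℂ L L} {z : Fin n → L}
    (hz : IsTranscendenceBasis ℂ z) (hE : ∀ i j, E i (z j) = if i = j then 1 else 0)
    {E' : Fin n → Derivation ℂ K K}
    (hE' : ∀ i f, E' i (algebraMap L K f) = algebraMap L K (E i f)) {s m : ℕ}
    (F : IntermediateField ℂ K)
    (hF : F = (IntermediateField.adjoin L (Set.range x)).restrictScalars ℂ)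
    (hm : s * Module.finrank L K ≤ Module.finrank F K * (m + 1))
    (hdet : DetectsL n BK x F m) :
    ∃ ω : (Fin n → Derivation ℂ K K) → K, IsPluri 1 ω ∧
      (∀ (f : Fin m → Fin N) (P : Place ℂ K), Divisorial n P →
        SecAt BK P (fun D => (∏ k, x (f k)) * ω D)) ∧
      s * Module.finrank L (IntermediateField.adjoin L (Set.range x)) ≤ m + 1 ∧
      Algebra.trace (IntermediateField.adjoin L (Set.range x)) K (ω E') ≠ 0 := by
  classical
  have hzK : IsTranscendenceBasis ℂ (fun j => algebraMap L K (z j)) := hz.algebraMap_comp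
  have hE'd := Pool.Agent.Y172.lift_dual hE hE'
  have hmul : Module.finrank L (IntermediateField.adjoin L (Set.range x)) *
      Module.finrank (IntermediateField.adjoin L (Set.range x)) K = Module.finrank L K :=
    Module.finrank_mul_finrank L _ K
  have hLF : ∀ f : L, algebraMap L K f ∈ F := by
    intro f
    rw [hF]
    exact (IntermediateField.adjoin L (Set.range x)).algebraMap_mem f
  obtain ⟨ω, hω, hreg, D, D', hD, htr⟩ := hdet
  have hfr : Module.finrank F K =
      Module.finrank (IntermediateField.adjoin L (Set.range x)) K := by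
    rw [hF]
    rfl
  refine ⟨ω, hω, hreg, ?_, ?_⟩
  · rw [hfr, ← hmul] at hm
    have h1 : 0 < Module.finrank (IntermediateField.adjoin L (Set.range x)) K :=
      Module.finrank_pos
    have h2 : Module.finrank (IntermediateField.adjoin L (Set.range x)) K *
        (s * Module.finrank L (IntermediateField.adjoin L (Set.range x))) ≤
        Module.finrank (IntermediateField.adjoin L (Set.range x)) K * (m + 1) := by
      calc _ = s * (Module.finrank L (IntermediateField.adjoin L (Set.range x)) *
          Module.finrank (IntermediateField.adjoin L (Set.range x)) K) := by ring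
        _ ≤ _ := hm
    exact Nat.le_of_mul_le_mul_left h2 h1
  · intro h0
    apply htr
    have h1 : Algebra.trace F K (ω E') = 0 := by
      subst hF
      have h2 : ((Algebra.trace (IntermediateField.adjoin L (Set.range x)) K (ω E') :
          IntermediateField.adjoin L (Set.range x)) : K) = 0 := by
        rw [h0]
        rfl
      apply Subtype.ext
      exact h2
    obtain ⟨δ, hδ⟩ : ∃ δ : F, δ = (Matrix.of fun i j => D i ⟨algebraMap L K (z j), hLF _⟩ :
      Matrix (Fin n) (Fin n) F).det := ⟨_, rfl⟩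
    have h2 : ω D' = δ • ω E' := by
      rw [Pool.Agent.Y172.pluri_coord hzK hE'd hω D', pow_one, Algebra.smul_def, hδ,
        RingHom.map_det]
      congr 1
      congr 1
      ext i j
      rw [RingHom.mapMatrix_apply, Matrix.map_apply, Matrix.of_apply, Matrix.of_apply]
      exact hD i ⟨algebraMap L K (z j), hLF _⟩
    rw [h2, map_smul, h1, smul_zero]

/-- **Detection.** If a section is detected by the field generated by `L` and `x`, then the image has
logarithmic forms, and it is of logarithmic general type if there are enough of them. -/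
theorem core_all {n N : ℕ} (hn : 1 ≤ n) {K : Type} [Field K] [Algebra ℂ K]
    [Algebra.EssFiniteType ℂ K] (hK : Algebra.trdeg ℂ K = n) {x : Fin N → K} {j0 : Fin N}
    (hj0 : x j0 = 1) {BK : Place ℂ K → Prop}
    (L : Type) [Field L] [Algebra ℂ L] [Algebra L K] [IsScalarTower ℂ L K]
    [FiniteDimensional L K] {BL : Place ℂ L → Prop}
    (hB : ∀ (P : Place ℂ L) (Q : Place ℂ K) (e : ℕ), Over Q P e → BK Q → BL P)
    (F : IntermediateField ℂ K)
    (hF : F = (IntermediateField.adjoin L (Set.range x)).restrictScalars ℂ) {m : ℕ}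
    (hdet : DetectsL n BK x F m) :
    (Module.finrank L K ≤ Module.finrank F K * (m + 1) → ¬ LogGenusZero L n BL) ∧
    (2 * Module.finrank L K ≤ Module.finrank F K * (m + 1) →
      (∀ τ : K, IsAlgebraic (IntermediateField.adjoin ℂ (Set.range x)) τ) →
      LogGeneralType ℂ L n BL) := by
  have hessL : Algebra.EssFiniteType ℂ L := Pool.Agent.TH466.QG.ess_below (K := K)
  have hL : Algebra.trdeg ℂ L = n := Pool.Agent.Y184.NT.trdeg_below (K := K) hK
  obtain ⟨z, E, hz, hE⟩ := Pool.Agent.Y172.exists_crd (k := ℂ) (K := L) hL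
  choose E' hE' using fun i => Pool.Agent.Y172.exists_lift (k := ℂ) (K := L) (L := K) hL (E i)
  refine ⟨fun hm hg => ?_, fun hm halg => ?_⟩
  · obtain ⟨ω, hω, hreg, hdeg, hne⟩ := core (s := 1) hK L hz hE hE' F hF (by rwa [one_mul]) hdet
    rw [one_mul] at hdeg
    exact hne (trace_zero hL hB (fun ω' hω' hs' => hg ω' ⟨hω', fun P hP => (hs' P hP).1,
      fun P hP => (hs' P hP).2⟩) hj0 hω hreg hz hE hE' hdeg)
  · obtain ⟨ω, hω, hreg, hdeg, hne⟩ := core (s := 2) hK L hz hE hE' F hF hm hdet
    exact gt_of hn hL hB hj0 hω hreg halg hz hE hE' hdeg hne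

/-- **Images of open varieties over an `A¹`-ruled variety.** -/
theorem over_log {n N : ℕ} (hn : 1 ≤ n) {K : Type} [Field K] [Algebra ℂ K] {x : Fin N → K}
    (hx : Pool.Agent.R882.Over.IsBase n x) {BK : Place ℂ K → Prop}
    (hY : ∃ BE : Place ℂ (IntermediateField.adjoin ℂ (Set.range x)) → Prop, A1Ruled BE ∧
      ∀ (P : Place ℂ (IntermediateField.adjoin ℂ (Set.range x))) (Q : Place ℂ K) (e : ℕ),
        Over Q P e → BK Q → BE P)
    (L : Type) [Field L] [Algebra ℂ L] [Algebra L K] [IsScalarTower ℂ L K]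
    [FiniteDimensional L K] {BL : Place ℂ L → Prop}
    (hB : ∀ (P : Place ℂ L) (Q : Place ℂ K) (e : ℕ), Over Q P e → (BL P ↔ BK Q)) :
    (PositiveL n BK x (Module.finrank L K) →
      [LogGenusZero L n BL, ¬ KodGe ℂ L n BL 0, ¬ Psef ℂ L n BL,
        IsA1Uniruled ℂ L n BL, Pool.Agent.R882.Over.FactorsThrough L x].TFAE) ∧
    (PositiveL n BK x (2 * Module.finrank L K) →
      (¬ LogGeneralType ℂ L n BL ↔ Pool.Agent.R882.Over.FactorsThrough L x)) := by
  classical
  have hessK : Algebra.EssFiniteType ℂ K := hx.ess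
  have hessL : Algebra.EssFiniteType ℂ L := Pool.Agent.TH466.QG.ess_below (K := K)
  have hL : Algebra.trdeg ℂ L = n := Pool.Agent.Y184.NT.trdeg_below (K := K) hx.dim
  have hfin := hx.fin
  obtain ⟨j0, hj0⟩ := hx.one
  have halg : ∀ τ : K, IsAlgebraic (IntermediateField.adjoin ℂ (Set.range x)) τ := fun τ =>
    (Algebra.IsIntegral.isIntegral τ).isAlgebraic
  obtain ⟨z, E, hz, hE⟩ := Pool.Agent.Y172.exists_crd (k := ℂ) (K := L) hL
  choose E' hE' using fun i => Pool.Agent.Y172.exists_lift (k := ℂ) (K := L) (L := K) hL (E i)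
  have hzK : IsTranscendenceBasis ℂ (fun j => algebraMap L K (z j)) := hz.algebraMap_comp
  have hE'd := Pool.Agent.Y172.lift_dual hE hE'
  have hBK : ∀ (P : Place ℂ L) (Q : Place ℂ K) (e : ℕ), Over Q P e → BK Q → BL P :=
    fun P Q e h => (hB P Q e h).2
  -- the factorisation
  have hfac : Pool.Agent.R882.Over.FactorsThrough L x →
      ¬ Psef ℂ L n BL ∧ IsA1Uniruled ℂ L n BL := by
    intro hf
    let φ : L →ₐ[ℂ] IntermediateField.adjoin ℂ (Set.range x) :=
      { toFun := fun f => ⟨algebraMap L K f, hf f⟩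
        map_one' := Subtype.ext (map_one _)
        map_mul' := fun f g => Subtype.ext (map_mul _ _ _)
        map_zero' := Subtype.ext (map_zero _)
        map_add' := fun f g => Subtype.ext (map_add _ _ _)
        commutes' := fun c => Subtype.ext (IsScalarTower.algebraMap_apply ℂ L K c).symm }
    let _ : Algebra L (IntermediateField.adjoin ℂ (Set.range x)) := φ.toRingHom.toAlgebra
    have t1 : IsScalarTower ℂ L (IntermediateField.adjoin ℂ (Set.range x)) :=
      IsScalarTower.of_algebraMap_eq fun c => (φ.commutes c).symm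
    have t2 : IsScalarTower L (IntermediateField.adjoin ℂ (Set.range x)) K :=
      IsScalarTower.of_algebraMap_eq fun c => rfl
    have hfd : FiniteDimensional L (IntermediateField.adjoin ℂ (Set.range x)) :=
      FiniteDimensional.of_injective (IsScalarTower.toAlgHom L
        (IntermediateField.adjoin ℂ (Set.range x)) K).toLinearMap Subtype.val_injective
    have hessE : Algebra.EssFiniteType ℂ (IntermediateField.adjoin ℂ (Set.range x)) :=
      Pool.Agent.TH466.QG.ess_below (K := K)
    have hEn : Algebra.trdeg ℂ (IntermediateField.adjoin ℂ (Set.range x)) = n :=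
      Pool.Agent.Y184.NT.trdeg_below (K := K) hx.dim
    obtain ⟨BE, hA, hBE⟩ := hY
    have hBB : ∀ (P : Place ℂ L) (Q : Place ℂ (IntermediateField.adjoin ℂ (Set.range x)))
        (e : ℕ), Over Q P e → BL P → BE Q := by
      intro P Q e h hP
      obtain ⟨R, f, hR⟩ := exists_above (L := K) Q
      exact hBE Q R f hR ((hB P R _ (over_trans h hR)).1 hP)
    refine ⟨a1_not_psef hEn hL hBB hA, a1_down' hBB ?_⟩
    obtain ⟨δ, σ, M, h1, h2, h3, h4, h5, h6⟩ := hA
    exact Pool.Agent.TH766.MC.a1_of_delta hEn δ h1 h2 M h3 h4 h5 h6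
  -- the form with a trace which is not zero
  have hmul : Module.finrank L (IntermediateField.adjoin L (Set.range x)) *
      Module.finrank (IntermediateField.adjoin L (Set.range x)) K = Module.finrank L K :=
    Module.finrank_mul_finrank L _ K
  have hstep : ∀ s : ℕ, PositiveL n BK x (s * Module.finrank L K) →
      ¬ Pool.Agent.R882.Over.FactorsThrough L x →
      ∃ (m : ℕ) (ω : (Fin n → Derivation ℂ K K) → K), IsPluri 1 ω ∧
        (∀ (f : Fin m → Fin N) (P : Place ℂ K), Divisorial n P →
          SecAt BK P (fun D => (∏ k, x (f k)) * ω D)) ∧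
        s * Module.finrank L (IntermediateField.adjoin L (Set.range x)) ≤ m + 1 ∧
        Algebra.trace (IntermediateField.adjoin L (Set.range x)) K (ω E') ≠ 0 := by
    intro s hs hnf
    obtain ⟨F, hF⟩ : ∃ F : IntermediateField ℂ K,
      F = (IntermediateField.adjoin L (Set.range x)).restrictScalars ℂ := ⟨_, rfl⟩
    have hle : IntermediateField.adjoin ℂ (Set.range x) ≤ F := by
      rw [hF, IntermediateField.adjoin_le_iff]
      exact IntermediateField.subset_adjoin L _
    have hLF : ∀ f : L, algebraMap L K f ∈ F := by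
      intro f
      rw [hF]
      exact (IntermediateField.adjoin L (Set.range x)).algebraMap_mem f
    have hne : IntermediateField.adjoin ℂ (Set.range x) ≠ F := by
      intro h
      apply hnf
      intro f
      rw [h]
      exact hLF f
    obtain ⟨m, hm, ω, hω, hreg, D, D', hD, htr⟩ := hs F (lt_of_le_of_ne hle hne)
    have hfr : Module.finrank F K =
        Module.finrank (IntermediateField.adjoin L (Set.range x)) K := by
      rw [hF]
      rfl
    refine ⟨m, ω, hω, hreg, ?_, ?_⟩
    · rw [hfr, ← hmul] at hm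
      have h1 : 0 < Module.finrank (IntermediateField.adjoin L (Set.range x)) K :=
        Module.finrank_pos
      have h2 : Module.finrank (IntermediateField.adjoin L (Set.range x)) K *
          (s * Module.finrank L (IntermediateField.adjoin L (Set.range x))) ≤
          Module.finrank (IntermediateField.adjoin L (Set.range x)) K * (m + 1) := by
        calc _ = s * (Module.finrank L (IntermediateField.adjoin L (Set.range x)) *
            Module.finrank (IntermediateField.adjoin L (Set.range x)) K) := by ring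
          _ ≤ _ := hm
      exact Nat.le_of_mul_le_mul_left h2 h1
    · intro h0
      apply htr
      have h1 : Algebra.trace F K (ω E') = 0 := by
        subst hF
        have h2 : ((Algebra.trace (IntermediateField.adjoin L (Set.range x)) K (ω E') :
            IntermediateField.adjoin L (Set.range x)) : K) = 0 := by
          rw [h0]
          rfl
        apply Subtype.ext
        exact h2
      obtain ⟨δ, hδ⟩ : ∃ δ : F, δ = (Matrix.of fun i j => D i ⟨algebraMap L K (z j), hLF _⟩ :
        Matrix (Fin n) (Fin n) F).det := ⟨_, rfl⟩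
      have h2 : ω D' = δ • ω E' := by
        rw [Pool.Agent.Y172.pluri_coord hzK hE'd hω D', pow_one, Algebra.smul_def, hδ,
          RingHom.map_det]
        congr 1
        congr 1
        ext i j
        rw [RingHom.mapMatrix_apply, Matrix.map_apply, Matrix.of_apply, Matrix.of_apply]
        exact hD i ⟨algebraMap L K (z j), hLF _⟩
      rw [h2, map_smul, h1, smul_zero]
  refine ⟨fun hp => ?_, fun hp => ?_⟩
  · tfae_have 1 → 5 := by
      intro hg
      by_contra hnf
      obtain ⟨m, ω, hω, hreg, hdeg, hne⟩ := hstep 1 (by rwa [one_mul]) hnf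
      rw [one_mul] at hdeg
      refine hne (trace_zero hL hBK (fun ω' hω' hs' => hg ω' ⟨hω', fun P hP => (hs' P hP).1,
        fun P hP => (hs' P hP).2⟩) hj0 hω hreg hz hE hE' hdeg)
    tfae_have 5 → 4 := fun h => (hfac h).2
    tfae_have 5 → 3 := fun h => (hfac h).1
    tfae_have 3 → 2 := fun h h' => h (psef_of_kodGe h')
    tfae_have 4 → 2 := by
      intro h hk
      have h1 := Pool.Agent.Y199.NN.neg_of_a1 hL h
      obtain ⟨M, hM, ω, hω, D, hD, -⟩ := hk
      exact hD (h1 M hM (ω 0) (hω 0).1 (fun v hv hBv => (hω 0).2.2 v hv hBv)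
        (fun v hv _ => (hω 0).2.1 v hv) D)
    tfae_have 2 → 1 := by
      intro h ω hω D
      by_contra hne
      exact h ⟨1, one_pos, fun _ => ω, fun _ => hω, D, hne, algebraicIndependent_empty_type⟩
    tfae_finish
  · constructor
    · intro hgt
      by_contra hnf
      obtain ⟨m, ω, hω, hreg, hdeg, hne⟩ := hstep 2 hp hnf
      exact hgt (gt_of hn hL hBK hj0 hω hreg halg hz hE hE' hdeg hne)
    · intro hf hgt
      obtain ⟨-, M, hM, ω, hω, h1, h2, D, hD, -⟩ := hgt
      exact (hfac hf).1 (psef_of_kodGe ⟨M, hM, fun _ => ω 0, fun _ => ⟨hω 0,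
        fun P hP => h1 P hP 0, fun P hP hBP => h2 P hP hBP 0⟩, D, hD,
        algebraicIndependent_empty_type⟩)

end Pool.Agent.R882.LT
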