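import Pool.Agent.R882.COver

/-!
Traces of logarithmic forms; logarithmic general type from traces to an intermediate field.
-/

set_option autoImplicit false
set_option linter.unusedSectionVars false
set_option linter.overlappingInstances false

open FF Polynomial Pool.Agent.W602.GT Pool.Agent.W603.LV Pool.Agent.W619.PQ Pool.Agent.Y172
open Pool.Agent.Y184.NT

namespace Pool.Agent.R882.LT

section

variable {K L : Type} [Field K] [Field L] [Algebra ℂ K] [Algebra ℂ L] [Algebra K L]
  [IsScalarTower ℂ K L] [FiniteDimensional K L] [Algebra.EssFiniteType ℂ K]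
  [Algebra.EssFiniteType ℂ L] {n : ℕ}

/-- the trace in the coordinates of a place -/
theorem trForm_val (hn : Algebra.trdeg ℂ K = n) {y : Fin n → K} {E : Fin n → Derivation ℂ K K}
    (hy : IsTranscendenceBasis ℂ y) (hE : ∀ i j, E i (y j) = if i = j then 1 else 0)
    {E' : Fin n → Derivation ℂ L L}
    (hE' : ∀ i f, E' i (algebraMap K L f) = algebraMap K L (E i f))
    {yP : Fin n → K} {EP : Fin n → Derivation ℂ K K} (hyP : IsTranscendenceBasis ℂ yP)
    (hEP : ∀ i j, EP i (yP j) = if i = j then 1 else 0) {EP' : Fin n → Derivation ℂ L L}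
    (hEP' : ∀ i f, EP' i (algebraMap K L f) = algebraMap K L (EP i f))
    {W : (Fin n → Derivation ℂ L L) → L} (hW : IsPluri 1 W) (G : Fin n → Derivation ℂ K K) :
    trForm y (Algebra.trace K L (W E')) G =
      (Matrix.of fun i j => G i (yP j) : Matrix (Fin n) (Fin n) K).det *
        Algebra.trace K L (W EP') := by
  classical
  obtain ⟨B, hB⟩ : ∃ B : Matrix (Fin n) (Fin n) K, B = Matrix.of fun i j => E i (yP j) :=
    ⟨_, rfl⟩
  have hC : (Matrix.of fun i j => G i (yP j) : Matrix (Fin n) (Fin n) K).det =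
      (Matrix.of fun i j => G i (y j) : Matrix (Fin n) (Fin n) K).det * B.det := by
    rw [← Matrix.det_mul]
    congr 1
    ext i j
    rw [Matrix.of_apply, Matrix.mul_apply, hB]
    have h1 := Pool.Agent.W73.PG.PULL.expand y hy E hE (G i)
    conv_lhs => rw [← h1]
    rw [sum_smul_apply]
    rfl
  have hWB : W E' = algebraMap K L B.det * W EP' := by
    have h1 := pluri_coord (hyP.algebraMap_comp (A := L)) (lift_dual hEP hEP') hW E'
    rw [h1, pow_one]
    congr 1
    rw [hB, RingHom.map_det]
    congr 1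
    ext i j
    rw [Matrix.of_apply, RingHom.mapMatrix_apply, Matrix.map_apply, Matrix.of_apply]
    exact hE' i (yP j)
  rw [trForm, hC, hWB, ← Algebra.smul_def, map_smul, smul_eq_mul]
  ring

/-- traces of regular canonical forms are regular -/
theorem trForm_regAt (hn : Algebra.trdeg ℂ K = n) {y : Fin n → K} {E : Fin n → Derivation ℂ K K}
    (hy : IsTranscendenceBasis ℂ y) (hE : ∀ i j, E i (y j) = if i = j then 1 else 0)
    {E' : Fin n → Derivation ℂ L L}
    (hE' : ∀ i f, E' i (algebraMap K L f) = algebraMap K L (E i f))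
    (W : (Fin n → Derivation ℂ L L) → L) (hW : IsPluri 1 W) (P : Place ℂ K)
    (hP : Divisorial n P) (hreg : ∀ (Q : Place ℂ L) (e : ℕ), Over Q P e → RegAt Q W) :
    RegAt P (trForm y (Algebra.trace K L (W E'))) := by
  classical
  have hnL : Algebra.trdeg ℂ L = n := trdeg_up (K := K) hn
  intro G hG
  obtain ⟨yP, EP, i0, hl⟩ := exists_loc hn hP
  choose EP' hEP' using fun i => exists_lift (L := L) hn (EP i)
  rw [trForm_val hn hy hE hE' hl.bas hl.dual hEP' hW G]
  refine P.reg_mul ?_ ?_
  · have h9 : Ge P 0 (Matrix.of fun i j => G i (yP j) : Matrix (Fin n) (Fin n) K).det :=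
      Pool.Agent.W603.LV.ge_det P _ _ (fun _ _ => 0) (fun a b => hG a _ (hl.reg b))
        fun σ => by simp
    exact h9
  · refine Pool.Agent.Y692.NT.trace_reg P (W EP') fun Q e hQ => ?_
    have hQd : Divisorial n Q := divisorial_up hQ hP
    have h1 := down_ge hnL hQ hQd hl hEP' hW (c := 0) (fun G' hG' => by
      rcases hreg Q e hQ G' hG' with h | h
      · exact Or.inl h
      · exact Or.inr (by exact_mod_cast h))
    rcases h1 with h1 | h1
    · exact Or.inl h1
    · right
      have h2 : ((1 - e : ℤ) : ℝ) ≤ (Q.ord (W EP') : ℝ) := by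
        push_cast
        push_cast at h1
        linarith
      exact_mod_cast h2

/-- traces of logarithmic canonical forms are logarithmic -/
theorem trForm_logAt (hn : Algebra.trdeg ℂ K = n) {y : Fin n → K} {E : Fin n → Derivation ℂ K K}
    (hy : IsTranscendenceBasis ℂ y) (hE : ∀ i j, E i (y j) = if i = j then 1 else 0)
    {E' : Fin n → Derivation ℂ L L}
    (hE' : ∀ i f, E' i (algebraMap K L f) = algebraMap K L (E i f))
    (W : (Fin n → Derivation ℂ L L) → L) (hW : IsPluri 1 W) (P : Place ℂ K)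
    (hP : Divisorial n P) (hlog : ∀ (Q : Place ℂ L) (e : ℕ), Over Q P e → LogAt Q W) :
    LogAt P (trForm y (Algebra.trace K L (W E'))) := by
  classical
  intro G hG
  obtain ⟨yP, EP, i0, hl⟩ := exists_loc hn hP
  choose EP' hEP' using fun i => exists_lift (L := L) hn (EP i)
  rw [trForm_val hn hy hE hE' hl.bas hl.dual hEP' hW G]
  -- the determinant
  have h9 : Ge P 1 (Matrix.of fun i j => G i (yP j) : Matrix (Fin n) (Fin n) K).det := by
    refine Pool.Agent.W603.LV.ge_det P _ _ (fun _ b => if b = i0 then 1 else 0)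
      (fun a b => ?_) fun σ => by simp
    rw [Matrix.of_apply]
    by_cases hb : b = i0
    · rw [if_pos hb, hb]
      have h1 := hG a (yP i0)
      have h2 : Ge P 0 (G a (yP i0) / yP i0) := h1
      have h3 : Ge P 1 (yP i0) := Or.inr (by rw [hl.unif])
      have h4 := h2.mul h3
      rwa [div_mul_cancel₀ _ hl.ne, zero_add] at h4
    · rw [if_neg hb]
      exact Pool.Agent.TH466.QG.derReg_of_log (hG a) _ (hl.reg b)
  -- the trace
  have h10 : Ge P 0 (yP i0 • Algebra.trace K L (W EP')) := by
    rw [← map_smul]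
    refine Pool.Agent.Y692.NT.trace_reg P _ fun Q e hQ => ?_
    have h1 := hlog Q e hQ (fun i => algebraMap K L (lc yP i0 i) • EP' i) fun i =>
      lift_log hQ (hl.log i) fun f => by
        change algebraMap K L (lc yP i0 i) * EP' i (algebraMap K L f) =
          algebraMap K L (lc yP i0 i * EP i f)
        rw [hEP', map_mul]
    rw [pluri_diag hW (fun i => algebraMap K L (lc yP i0 i)) EP', ← map_prod, prod_lc,
      pow_one] at h1
    rw [Algebra.smul_def]
    have h2 : Ge Q 0 (algebraMap K L (yP i0) * W EP') := h1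
    refine h2.mono ?_
    have := hQ.1
    omega
  obtain ⟨T, hT⟩ : ∃ T, T = Algebra.trace K L (W EP') := ⟨_, rfl⟩
  rw [← hT] at h10 ⊢
  rw [smul_eq_mul] at h10
  have h11 := h9.mul h10
  rcases h11 with h11 | h11
  · rcases mul_eq_zero.1 h11 with h | h
    · rw [h, zero_mul]
      exact P.reg_zero
    · rcases mul_eq_zero.1 h with h | h
      · exact absurd h hl.ne
      · rw [h, mul_zero]
        exact P.reg_zero
  · by_cases hd : (Matrix.of fun i j => G i (yP j) : Matrix (Fin n) (Fin n) K).det = 0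
    · rw [hd, zero_mul]
      exact P.reg_zero
    by_cases hT0 : T = 0
    · rw [hT0, mul_zero]
      exact P.reg_zero
    right
    rw [P.ord_mul hd (mul_ne_zero hl.ne hT0), P.ord_mul hl.ne hT0, hl.unif] at h11
    rw [P.ord_mul hd hT0]
    omega

end

section

variable {L K : Type} [Field L] [Field K] [Algebra ℂ L] [Algebra ℂ K] [Algebra L K]
  [IsScalarTower ℂ L K] [FiniteDimensional L K] [Algebra.EssFiniteType ℂ L]
  [Algebra.EssFiniteType ℂ K] {n N m : ℕ}

/-- `ω` has at most a logarithmic pole at `P`, and no pole if `P` is not in the boundary. -/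
def SecAt {F : Type} [Field F] [Algebra ℂ F] (Bd : Place ℂ F → Prop) (P : Place ℂ F)
    (ω : (Fin n → Derivation ℂ F F) → F) : Prop :=
  LogAt P ω ∧ (¬ Bd P → RegAt P ω)

theorem trForm_sec (hn : Algebra.trdeg ℂ L = n) {y : Fin n → L} {E : Fin n → Derivation ℂ L L}
    (hy : IsTranscendenceBasis ℂ y) (hE : ∀ i j, E i (y j) = if i = j then 1 else 0)
    {E' : Fin n → Derivation ℂ K K}
    (hE' : ∀ i f, E' i (algebraMap L K f) = algebraMap L K (E i f))
    (W : (Fin n → Derivation ℂ K K) → K) (hW : IsPluri 1 W) {BK : Place ℂ K → Prop}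
    {BL : Place ℂ L → Prop} (hB : ∀ (P : Place ℂ L) (Q : Place ℂ K) (e : ℕ), Over Q P e →
      BK Q → BL P)
    (hsec : ∀ Q : Place ℂ K, Divisorial n Q → SecAt BK Q W) (P : Place ℂ L)
    (hP : Divisorial n P) : SecAt BL P (trForm y (Algebra.trace L K (W E'))) := by
  refine ⟨trForm_logAt hn hy hE hE' W hW P hP fun Q e hQ =>
    (hsec Q (divisorial_up hQ hP)).1, fun hBP => trForm_regAt hn hy hE hE' W hW P hP
      fun Q e hQ => (hsec Q (divisorial_up hQ hP)).2 fun h => hBP (hB P Q e hQ h)⟩

/-- **Vanishing of the traces.** -/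
theorem trace_zero (hL : Algebra.trdeg ℂ L = n) {BK : Place ℂ K → Prop} {BL : Place ℂ L → Prop}
    (hB : ∀ (P : Place ℂ L) (Q : Place ℂ K) (e : ℕ), Over Q P e → BK Q → BL P)
    (hpg : ∀ ω : (Fin n → Derivation ℂ L L) → L, IsPluri 1 ω →
      (∀ P : Place ℂ L, Divisorial n P → SecAt BL P ω) → ∀ D, ω D = 0)
    {x : Fin N → K} {j0 : Fin N} (hj0 : x j0 = 1) {ω : (Fin n → Derivation ℂ K K) → K}
    (hω : IsPluri 1 ω)
    (hreg : ∀ (f : Fin m → Fin N) (P : Place ℂ K), Divisorial n P →
      SecAt BK P (fun D => (∏ k, x (f k)) * ω D))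
    {y : Fin n → L} {E : Fin n → Derivation ℂ L L} (hy : IsTranscendenceBasis ℂ y)
    (hE : ∀ i j, E i (y j) = if i = j then 1 else 0) {E' : Fin n → Derivation ℂ K K}
    (hE' : ∀ i f, E' i (algebraMap L K f) = algebraMap L K (E i f))
    (hdeg : Module.finrank L (IntermediateField.adjoin L (Set.range x)) ≤ m + 1) :
    Algebra.trace (IntermediateField.adjoin L (Set.range x)) K (ω E') = 0 := by
  by_contra hne
  have hcL : CharZero L := charZero_of_injective_algebraMap (algebraMap ℂ L).injective
  obtain ⟨x', hx'⟩ : ∃ x' : Fin N → IntermediateField.adjoin L (Set.range x),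
    ∀ j, (x' j : K) = x j :=
    ⟨fun j => ⟨x j, IntermediateField.subset_adjoin L _ ⟨j, rfl⟩⟩, fun _ => rfl⟩
  have h0 : ∀ f : Fin m → Fin N, Algebra.trace L (IntermediateField.adjoin L (Set.range x))
      ((∏ k, x' (f k)) * Algebra.trace (IntermediateField.adjoin L (Set.range x)) K (ω E')) =
      0 := by
    intro f
    have hp : IsPluri 1 (fun D : Fin n → Derivation ℂ K K => (∏ k, x (f k)) * ω D) := by
      intro A D
      change (∏ k, x (f k)) * ω (fun i => ∑ j, A i j • D j) = _
      rw [hω A D]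
      ring
    have h1 : Algebra.trace L K ((∏ k, x (f k)) * ω E') = 0 := by
      have h3 := hpg _ (trForm_pluri y (Algebra.trace L K ((∏ k, x (f k)) * ω E')))
        (fun P hP => trForm_sec hL hy hE hE' (fun D => (∏ k, x (f k)) * ω D) hp hB (hreg f) P hP)
        E
      have h4 : (Matrix.of fun i j => E i (y j) : Matrix (Fin n) (Fin n) L) = 1 := by
        ext i j
        rw [Matrix.of_apply, hE, Matrix.one_apply]
      rw [trForm, h4, Matrix.det_one, one_mul] at h3
      exact h3
    have h2 : (∏ k, x (f k)) * ω E' = (∏ k, x' (f k)) • ω E' := by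
      rw [Algebra.smul_def]
      congr 1
      rw [map_prod]
      exact Finset.prod_congr rfl fun k _ => (hx' _).symm
    rw [h2, ← Algebra.trace_trace (S := IntermediateField.adjoin L (Set.range x)), map_smul,
      smul_eq_mul] at h1
    exact h1
  have h3 := (Pool.Agent.Y614.NT.stLine Pool.Agent.Y153.NT.stCB L
    (IntermediateField.adjoin L (Set.range x)) N m x' j0 (by
      apply Subtype.ext
      rw [hx', hj0]
      rfl) (Pool.Agent.R882.WR.gen_self x' hx') _ hne h0 (by omega)).1
  omega

/-- **Logarithmic general type.** -/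
theorem gt_of (hn : 1 ≤ n) (hL : Algebra.trdeg ℂ L = n) {BK : Place ℂ K → Prop}
    {BL : Place ℂ L → Prop}
    (hB : ∀ (P : Place ℂ L) (Q : Place ℂ K) (e : ℕ), Over Q P e → BK Q → BL P)
    {x : Fin N → K} {j0 : Fin N} (hj0 : x j0 = 1) {ω : (Fin n → Derivation ℂ K K) → K}
    (hω : IsPluri 1 ω)
    (hreg : ∀ (f : Fin m → Fin N) (P : Place ℂ K), Divisorial n P →
      SecAt BK P (fun D => (∏ k, x (f k)) * ω D))
    (halg : ∀ τ : K, IsAlgebraic (IntermediateField.adjoin ℂ (Set.range x)) τ)
    {y : Fin n → L} {E : Fin n → Derivation ℂ L L} (hy : IsTranscendenceBasis ℂ y)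
    (hE : ∀ i j, E i (y j) = if i = j then 1 else 0) {E' : Fin n → Derivation ℂ K K}
    (hE' : ∀ i f, E' i (algebraMap L K f) = algebraMap L K (E i f))
    (hdeg : 2 * Module.finrank L (IntermediateField.adjoin L (Set.range x)) ≤ m + 1)
    (hne : Algebra.trace (IntermediateField.adjoin L (Set.range x)) K (ω E') ≠ 0) :
    LogGeneralType ℂ L n BL := by
  have hcL : CharZero L := charZero_of_injective_algebraMap (algebraMap ℂ L).injective
  obtain ⟨x', hx'⟩ : ∃ x' : Fin N → IntermediateField.adjoin L (Set.range x),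
    ∀ j, (x' j : K) = x j :=
    ⟨fun j => ⟨x j, IntermediateField.subset_adjoin L _ ⟨j, rfl⟩⟩, fun _ => rfl⟩
  obtain ⟨W, hWdef⟩ : ∃ W : (Fin m → Fin N) → (Fin n → Derivation ℂ K K) → K,
    W = fun f D => (∏ k, x (f k)) * ω D := ⟨_, rfl⟩
  have hWp : ∀ f, IsPluri 1 (W f) := by
    intro f A D
    rw [hWdef]
    change (∏ k, x (f k)) * ω (fun i => ∑ j, A i j • D j) = _
    rw [hω A D]
    ring
  have hWr : ∀ f (P : Place ℂ K), Divisorial n P → SecAt BK P (W f) := by
    intro f P hP
    rw [hWdef]
    exact hreg f P hP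
  obtain ⟨T, hTdef⟩ : ∃ T : (Fin m → Fin N) → L, ∀ f, T f = Algebra.trace L K (W f E') :=
    ⟨_, fun _ => rfl⟩
  have hT : ∀ f, T f = Algebra.trace L (IntermediateField.adjoin L (Set.range x))
      ((∏ k, x' (f k)) *
        Algebra.trace (IntermediateField.adjoin L (Set.range x)) K (ω E')) := by
    intro f
    have h2 : W f E' = (∏ k, x' (f k)) • ω E' := by
      rw [hWdef, Algebra.smul_def]
      change (∏ k, x (f k)) * ω E' = _
      congr 1
      rw [map_prod]
      exact Finset.prod_congr rfl fun k _ => (hx' _).symm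
    rw [hTdef, h2, ← Algebra.trace_trace (S := IntermediateField.adjoin L (Set.range x)),
      map_smul, smul_eq_mul]
  have hθE : ∀ t, trForm y t E = t := by
    intro t
    have h1 : (Matrix.of fun i j => E i (y j) : Matrix (Fin n) (Fin n) L) = 1 := by
      ext i j
      rw [Matrix.of_apply, hE, Matrix.one_apply]
    rw [trForm, h1, Matrix.det_one, one_mul]
  have hθr : ∀ f (P : Place ℂ L), Divisorial n P → SecAt BL P (trForm y (T f)) := by
    intro f P hP
    rw [hTdef]
    exact trForm_sec hL hy hE hE' (W f) (hWp f) hB (hWr f) P hP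
  have hder : ∀ D : Derivation ℂ (IntermediateField.adjoin L (Set.range x))
      (IntermediateField.adjoin L (Set.range x)), (∀ j, D (x' j) = 0) → D = 0 := by
    intro D hD
    have htw : IsScalarTower ℂ (IntermediateField.adjoin L (Set.range x)) K :=
      IsScalarTower.of_algebraMap_eq fun r => rfl
    obtain ⟨D', hD'⟩ := Pool.Agent.Y954.NT.exists_lift (K := K) D
    have h1 : ∀ j, D' (x j) = 0 := by
      intro j
      have h2 := hD' (x' j)
      rw [hD j, map_zero] at h2
      have h3 : algebraMap (IntermediateField.adjoin L (Set.range x)) K (x' j) = x j := hx' j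
      rwa [h3] at h2
    ext f
    have h2 : D' (algebraMap _ K f) = 0 := Pool.Agent.R882.WR.der_alg D'
      (Pool.Agent.R882.WR.der_adjoin D' h1) (halg _)
    rw [hD'] at h2
    have h3 := (map_eq_zero _).1 h2
    rw [h3]
    rfl
  have hsep := Pool.Agent.R882.WR.sep_small (L := L)
    (K := IntermediateField.adjoin L (Set.range x))
    Pool.Agent.Y141.NT.stCB2 (x := x') (j0 := j0) (by
      apply Subtype.ext
      rw [hx', hj0]
      rfl) (Pool.Agent.R882.WR.gen_self x' hx') hder hdeg hne hT
  obtain ⟨s, hs0, hs⟩ := exists_ratios hn hL T hsep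
  refine ⟨hL, 1, one_pos, fun j => trForm y (T (s j)), fun j => trForm_pluri y _,
    fun P hP j => (hθr _ P hP).1, fun P hP hBP j => (hθr _ P hP).2 hBP, E, ?_, ?_⟩
  · change trForm y (T (s 0)) E ≠ 0
    rw [hθE]
    exact hs0
  · simp only [hθE]
    exact hs

end

end Pool.Agent.R882.LT
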