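import Pool.Agent.R882.Transf
import Pool.Agent.R882.Hsc

/-!
The Kähler metric of the surface `abc = 1`.
-/

set_option autoImplicit false
set_option linter.unusedSimpArgs false

open scoped ComplexConjugate Manifold ContDiff

namespace Pool.Agent.R882

noncomputable section

/-- The factors of automorphy. -/
def Mf (m : Fin 6) (z : ℂ × ℂ) : ℂ :=
  match m with
  | 0 => 1
  | 1 => z.2 ^ 2
  | 2 => z.1 ^ 2 * z.2 ^ 4
  | 3 => z.1 ^ 4 * z.2 ^ 4
  | 4 => z.1 ^ 4 * z.2 ^ 2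
  | 5 => z.1 ^ 2

theorem isOpen_tdom (m : Fin 6) : IsOpen (tdom m) := by
  have h1 : IsOpen {z : ℂ × ℂ | z.1 ≠ 0} := isOpen_ne_fun continuous_fst continuous_const
  have h2 : IsOpen {z : ℂ × ℂ | z.2 ≠ 0} := isOpen_ne_fun continuous_snd continuous_const
  fin_cases m
  · exact isOpen_univ
  · exact h2
  · exact h1.inter h2
  · exact h1.inter h2
  · exact h1.inter h2
  · exact h1

theorem contDiff_Mf (m : Fin 6) : ContDiff ℂ (⊤ : WithTop ℕ∞) (Mf m) := by
  have h1 : ContDiff ℂ (⊤ : WithTop ℕ∞) fun z : ℂ × ℂ => z.1 := contDiff_fst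
  have h2 : ContDiff ℂ (⊤ : WithTop ℕ∞) fun z : ℂ × ℂ => z.2 := contDiff_snd
  fin_cases m
  · exact contDiff_const
  · exact h2.pow 2
  · exact (h1.pow 2).mul (h2.pow 4)
  · exact (h1.pow 4).mul (h2.pow 4)
  · exact (h1.pow 4).mul (h2.pow 2)
  · exact h1.pow 2

theorem Mf_ne (m : Fin 6) {z : ℂ × ℂ} (hz : z ∈ tdom m) : Mf m z ≠ 0 := by
  fin_cases m
  · exact one_ne_zero
  · exact pow_ne_zero _ hz
  · exact mul_ne_zero (pow_ne_zero _ hz.1) (pow_ne_zero _ hz.2)
  · exact mul_ne_zero (pow_ne_zero _ hz.1) (pow_ne_zero _ hz.2)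
  · exact mul_ne_zero (pow_ne_zero _ hz.1) (pow_ne_zero _ hz.2)
  · exact pow_ne_zero _ hz

theorem hr_tau (m : Fin 6) {z : ℂ × ℂ} (hz : z ∈ tdom m) :
    hr z = hr (tau m z) * ‖Mf m z‖ ^ 2 := by
  obtain ⟨x, y⟩ := z
  fin_cases m
  · simp [tau, Mf]
  · have h2 : ‖y‖ ≠ 0 := norm_ne_zero_iff.2 hz
    simp only [hr, tau, Mf, tab, List.map_cons, List.map_nil, List.sum_cons, List.sum_nil,
      norm_mul, norm_inv, norm_pow, norm_one]
    generalize ‖x‖ = r at *
    generalize ‖y‖ = s at *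
    push_cast
    field_simp
    ring
  · have h1 : ‖x‖ ≠ 0 := norm_ne_zero_iff.2 hz.1
    have h2 : ‖y‖ ≠ 0 := norm_ne_zero_iff.2 hz.2
    simp only [hr, tau, Mf, tab, List.map_cons, List.map_nil, List.sum_cons, List.sum_nil,
      norm_mul, norm_inv, norm_pow, norm_one]
    generalize ‖x‖ = r at *
    generalize ‖y‖ = s at *
    push_cast
    field_simp
    ring
  · have h1 : ‖x‖ ≠ 0 := norm_ne_zero_iff.2 hz.1
    have h2 : ‖y‖ ≠ 0 := norm_ne_zero_iff.2 hz.2
    simp only [hr, tau, Mf, tab, List.map_cons, List.map_nil, List.sum_cons, List.sum_nil,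
      norm_mul, norm_inv, norm_pow, norm_one]
    generalize ‖x‖ = r at *
    generalize ‖y‖ = s at *
    push_cast
    field_simp
    ring
  · have h1 : ‖x‖ ≠ 0 := norm_ne_zero_iff.2 hz.1
    have h2 : ‖y‖ ≠ 0 := norm_ne_zero_iff.2 hz.2
    simp only [hr, tau, Mf, tab, List.map_cons, List.map_nil, List.sum_cons, List.sum_nil,
      norm_mul, norm_inv, norm_pow, norm_one]
    generalize ‖x‖ = r at *
    generalize ‖y‖ = s at *
    push_cast
    field_simp
    ring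
  · have h1 : ‖x‖ ≠ 0 := norm_ne_zero_iff.2 hz
    simp only [hr, tau, Mf, tab, List.map_cons, List.map_nil, List.sum_cons, List.sum_nil,
      norm_mul, norm_inv, norm_pow, norm_one]
    generalize ‖x‖ = r at *
    generalize ‖y‖ = s at *
    push_cast
    field_simp
    ring

theorem contDiff_Dm_fst (n a : ℕ) : ContDiff ℝ (⊤ : ℕ∞) fun z : ℂ × ℂ => Dm n a z.1 := by
  unfold Dm
  fun_prop

theorem contDiff_Dm_snd (n a : ℕ) : ContDiff ℝ (⊤ : ℕ∞) fun z : ℂ × ℂ => Dm n a z.2 := by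
  unfold Dm
  fun_prop

theorem contDiff_conj {f : ℂ × ℂ → ℂ} (hf : ContDiff ℝ (⊤ : ℕ∞) f) :
    ContDiff ℝ (⊤ : ℕ∞) fun z => conj (f z) :=
  Complex.conjCLE.contDiff.comp hf

theorem contDiff_tm (u : ℕ × ℕ × ℕ) (I J : ℕ × ℕ) : ContDiff ℝ (⊤ : ℕ∞) (tm u I J) := by
  unfold tm
  exact contDiff_const.mul (((contDiff_Dm_fst _ _).mul (contDiff_Dm_snd _ _)).mul
    ((contDiff_conj (contDiff_Dm_fst _ _)).mul (contDiff_conj (contDiff_Dm_snd _ _))))

theorem contDiff_jet (I J : ℕ × ℕ) : ContDiff ℝ (⊤ : ℕ∞) (jet I J) := by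
  unfold jet
  induction tab with
  | nil => simpa using contDiff_const
  | cons u l ih =>
    simp only [List.map_cons, List.sum_cons]
    exact (contDiff_tm u I J).add ih

theorem contDiff_uj (I J : ℕ × ℕ) : ContDiff ℝ (⊤ : ℕ∞) (uj I J) :=
  (contDiff_jet I J).mul ((contDiff_jet 0 0).inv jet_ne)

theorem contDiff_Gm (i j : Fin 2) : ContDiff ℝ (⊤ : ℕ∞) (Gm i j) :=
  (contDiff_uj _ _).sub ((contDiff_uj _ _).mul (contDiff_uj _ _))

/-- The Kähler metric of the surface. -/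
def metric : KahlerMetric X where
  coeff _ i j := Gm i j
  smooth _ _ i j := (contDiff_Gm i j).contDiffOn
  herm _ _ z _ i j := (conj_Gm i j z).symm
  pos _ _ z _ v hv := sq_pos z v hv
  closed _ _ z _ i j k := by rw [dz_Gm, dz_Gm, G1_symm]
  transform := by
    rintro e ⟨k, rfl⟩ e' ⟨l, rfl⟩ z hz hz' i j
    have h1 : z ∈ tdom (l - k) := (mem_source_trans k l z).1 hz'
    have h2 := transf (isOpen_tdom (l - k)) (contDiffOn_tau (l - k))
      (contDiff_Mf (l - k)).contDiffOn (fun w hw => Mf_ne (l - k) hw) (fun w hw => by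
        rw [jet_zero, jet_zero, hr_tau (l - k) hw, Complex.mul_conj, Complex.normSq_eq_norm_sq]
        push_cast
        rfl) h1 i j
    simp only [trans_apply]
    exact h2

theorem metric_pos : metric.PositiveHSC := by
  intro p v hv
  obtain ⟨h1, h2⟩ := chartAt_small p
  exact hsc_pos h1 h2 hv

end

end Pool.Agent.R882
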