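import Pool.Agent.R882.PReg

/-!
Varieties dominated by hypersurfaces in a product of projective lines.
-/

set_option autoImplicit false
set_option linter.unusedSectionVars false
set_option linter.overlappingInstances false

open FF MvPolynomial Pool.Agent.W603.LV Pool.Agent.W602.GT Pool.Agent.Y184.NT

namespace Pool.Agent.R882.PL

section deg

variable {K : Type} [Field K] [Algebra ℂ K] {n : ℕ}

/-- the equation in one of the variables -/
theorem deg_poly {x : Fin (n + 1) → K} {F : MvPolynomial (Fin (n + 1)) ℂ} (hF0 : F ≠ 0)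
    (hx : aeval x F = 0) (i0 : Fin (n + 1)) {E : IntermediateField ℂ K}
    (hE : ∀ j, j ≠ i0 → x j ∈ E)
    (hind : AlgebraicIndependent ℂ (fun j : {j // j ≠ i0} => x j)) :
    ∃ p : Polynomial E, p ≠ 0 ∧ p.natDegree ≤ F.degreeOf i0 ∧ Polynomial.aeval (x i0) p = 0 := by
  classical
  obtain ⟨e, he⟩ : ∃ e : Fin (n + 1) ≃ Option {j // j ≠ i0}, e = (Equiv.optionSubtypeNe i0).symm :=
    ⟨_, rfl⟩
  have he0 : e i0 = none := by
    rw [he]
    simp
  obtain ⟨x', hx'⟩ : ∃ x' : {j // j ≠ i0} → E, ∀ j, (x' j : K) = x j :=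
    ⟨fun j => ⟨x j, hE j j.2⟩, fun _ => rfl⟩
  obtain ⟨G, hG⟩ : ∃ G : Polynomial (MvPolynomial {j // j ≠ i0} ℂ),
    G = optionEquivLeft ℂ {j // j ≠ i0} (rename e F) := ⟨_, rfl⟩
  have hG0 : G ≠ 0 := by
    rw [hG]
    intro h
    apply hF0
    have h1 := (optionEquivLeft ℂ {j // j ≠ i0}).injective (h.trans (map_zero _).symm)
    exact rename_injective _ e.injective (h1.trans (map_zero _).symm)
  let ψ : MvPolynomial {j // j ≠ i0} ℂ →ₐ[ℂ] E := aeval x'
  have hψ : Function.Injective ψ := by
    intro a b hab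
    apply hind
    have h1 : ∀ a, aeval (fun j : {j // j ≠ i0} => x j) a = algebraMap E K (ψ a) := by
      intro a
      have h2 := MvPolynomial.aeval_algebraMap_apply (R := ℂ) (A := E) K x' a
      rw [← h2]
      congr 1
      congr 1
      funext j
      exact (hx' j).symm
    change aeval (fun j : {j // j ≠ i0} => x j) a = aeval (fun j : {j // j ≠ i0} => x j) b
    rw [h1, h1, hab]
  refine ⟨G.map (ψ : MvPolynomial {j // j ≠ i0} ℂ →+* E), ?_, ?_, ?_⟩
  · exact (Polynomial.map_ne_zero_iff hψ).2 hG0
  · refine le_trans Polynomial.natDegree_map_le ?_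
    rw [hG, natDegree_optionEquivLeft, ← he0, degreeOf_rename_of_injective e.injective]
  · let φ : MvPolynomial (Option {j // j ≠ i0}) ℂ →ₐ[ℂ] K :=
      (((Polynomial.aeval (x i0) : Polynomial E →ₐ[E] K).restrictScalars ℂ).comp
        (Polynomial.mapAlgHom ψ)).comp (optionEquivLeft ℂ {j // j ≠ i0}).toAlgHom
    have h1 : φ = aeval (fun o : Option {j // j ≠ i0} => o.elim (x i0) fun j => x j) := by
      apply MvPolynomial.algHom_ext
      intro o
      cases o with
      | none => simp [φ]
      | some j =>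
        have h3 : φ (X (some j)) = Polynomial.aeval (x i0) (Polynomial.map
            (ψ : MvPolynomial {j // j ≠ i0} ℂ →+* E)
            (optionEquivLeft ℂ {j // j ≠ i0} (X (some j)))) := rfl
        rw [h3, optionEquivLeft_X_some, Polynomial.map_C, aeval_X]
        change Polynomial.aeval (x i0) (Polynomial.C (ψ (X j))) = x j
        rw [Polynomial.aeval_C]
        change algebraMap E K (aeval x' (X j)) = _
        rw [aeval_X]
        exact hx' j
    have h2 : φ (rename e F) = 0 := by
      rw [h1, aeval_rename, ← hx]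
      congr 1
      congr 1
      funext j
      change (e j).elim (x i0) (fun j => x j) = x j
      by_cases hj : j = i0
      · rw [hj, he0]
        rfl
      · have h3 : e j = some ⟨j, hj⟩ := by
          rw [he]
          exact Equiv.optionSubtypeNe_symm_of_ne hj
        rw [h3]
        rfl
    rw [hG]
    exact h2

end deg

section span

variable {L K : Type} [Field L] [Field K] [CharZero L] [Algebra L K] [FiniteDimensional L K]

theorem span_pow {u τ : K} {α β : L} (h : τ = algebraMap L K α + algebraMap L K β * u)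
    {s m : ℕ} (hs : s ≤ m) :
    τ ^ s ∈ Submodule.span L (Set.range fun a : Fin (m + 1) => u ^ (a : ℕ)) := by
  rw [h, add_comm (algebraMap L K α), add_pow]
  refine Submodule.sum_mem _ fun a ha => ?_
  have h1 : a ≤ s := by
    rw [Finset.mem_range] at ha
    omega
  have h2 : (algebraMap L K β * u) ^ a * algebraMap L K α ^ (s - a) * (s.choose a : K) =
      (β ^ a * α ^ (s - a) * (s.choose a : L)) • u ^ a := by
    rw [Algebra.smul_def, map_mul, map_mul, map_pow, map_pow, map_natCast]
    ring
  rw [h2]
  exact Submodule.smul_mem _ _ (Submodule.subset_span ⟨⟨a, by omega⟩, rfl⟩)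

theorem two_dirs {u v τ h : K} {α β α' β' : L}
    (h1 : τ = algebraMap L K α + algebraMap L K β * u)
    (h2 : τ = algebraMap L K α' + algebraMap L K β' * v)
    (hτ : IntermediateField.adjoin L {τ} = ⊤) {m m' : ℕ}
    (ht : ∀ a b : ℕ, a ≤ m → b ≤ m' → Algebra.trace L K (u ^ a * v ^ b * h) = 0)
    (hr : Module.finrank L K ≤ m + m' + 1) : h = 0 := by
  refine Pool.Agent.R882.WR.powers_zero hτ fun j hj => ?_
  obtain ⟨s, t, hst, hs, ht'⟩ : ∃ s t, j = s + t ∧ s ≤ m ∧ t ≤ m' := by
    rcases Nat.lt_or_ge j m with h | h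
    · exact ⟨j, 0, by omega, by omega, by omega⟩
    · exact ⟨m, j - m, by omega, le_rfl, by omega⟩
  have e1 := span_pow h1 hs
  have e2 := span_pow h2 ht'
  rw [hst, pow_add]
  have key : ∀ y ∈ Submodule.span L (Set.range fun a : Fin (m + 1) => u ^ (a : ℕ)),
      ∀ z ∈ Submodule.span L (Set.range fun a : Fin (m' + 1) => v ^ (a : ℕ)),
      Algebra.trace L K (y * z * h) = 0 := by
    intro y hy z hz
    induction hy using Submodule.span_induction with
    | mem w hw =>
      obtain ⟨a, rfl⟩ := hw
      induction hz using Submodule.span_induction with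
      | mem w hw =>
        obtain ⟨b, rfl⟩ := hw
        exact ht a b (by have := a.2; omega) (by have := b.2; omega)
      | zero => simp
      | add p q _ _ hp hq => rw [mul_add, add_mul, map_add, hp, hq, add_zero]
      | smul c p _ hp => rw [mul_smul_comm, smul_mul_assoc, map_smul, hp, smul_zero]
    | zero => simp
    | add p q _ _ hp hq => rw [add_mul, add_mul, map_add, hp, hq, add_zero]
    | smul c p _ hp => rw [smul_mul_assoc, smul_mul_assoc, map_smul, hp, smul_zero]
  exact key _ e1 _ e2

theorem one_dir {u τ h : K} {α β : L} (h1 : τ = algebraMap L K α + algebraMap L K β * u)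
    (hτ : IntermediateField.adjoin L {τ} = ⊤) {m : ℕ}
    (ht : ∀ a : ℕ, a ≤ m → Algebra.trace L K (u ^ a * h) = 0)
    (hr : Module.finrank L K ≤ m + 1) : h = 0 := by
  refine two_dirs (m := m) (m' := 0) h1 h1 hτ (fun a b ha hb => ?_) (by omega)
  have hb0 : b = 0 := by omega
  rw [hb0, pow_zero, mul_one]
  exact ht a ha

end span

section

variable {L K : Type} [Field L] [Field K] [Algebra ℂ L] [Algebra ℂ K] [Algebra L K]
  [IsScalarTower ℂ L K] [FiniteDimensional L K] [Algebra.EssFiniteType ℂ L]
  [Algebra.EssFiniteType ℂ K] {n : ℕ}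

theorem prod_monom {m : ℕ} (x : Fin (n + 1) → K) (f : Fin m → Fin (n + 2)) :
    ∃ e : Fin (n + 1) → ℕ, (∀ i, e i ≤ m) ∧
      ∏ k, (Fin.cons 1 x : Fin (n + 2) → K) (f k) = ∏ i, x i ^ e i := by
  classical
  refine ⟨fun i => (Finset.univ.filter fun k => f k = i.succ).card, fun i => ?_, ?_⟩
  · refine le_trans (Finset.card_le_univ _) ?_
    rw [Fintype.card_fin]
  · have h1 : ∏ k, (Fin.cons 1 x : Fin (n + 2) → K) (f k) =
        ∏ j, ∏ k ∈ Finset.univ.filter (fun k => f k = j), (Fin.cons 1 x : Fin (n + 2) → K) j := by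
      rw [← Finset.prod_fiberwise_of_maps_to (s := Finset.univ) (t := Finset.univ) (g := f)
        (fun _ _ => Finset.mem_univ _)]
      refine Finset.prod_congr rfl fun j _ => Finset.prod_congr rfl fun k hk => ?_
      rw [(Finset.mem_filter.1 hk).2]
    rw [h1, Fin.prod_univ_succ]
    simp only [Fin.cons_zero, Finset.prod_const_one, one_mul, Finset.prod_const, Fin.cons_succ]

/-- **The fibres lie on lines in coordinate directions.** -/
theorem line_dir (hL : Algebra.trdeg ℂ L = n)
    (hpg : ∀ ω : (Fin n → Derivation ℂ L L) → L, IsPluri 1 ω →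
      (∀ P : Place ℂ L, Divisorial n P → RegAt P ω) → ∀ D, ω D = 0)
    {x : Fin (n + 1) → K} (hgen : IntermediateField.adjoin ℂ (Set.range x) = ⊤)
    {ω : (Fin n → Derivation ℂ K K) → K} (hω : IsPluri 1 ω) {m : Fin (n + 1) → ℕ} {m0 : ℕ}
    (hm0 : ∀ i, m0 ≤ m i)
    (hreg : ∀ e : Fin (n + 1) → ℕ, (∀ i, e i ≤ m i) → ∀ P : Place ℂ K, Divisorial n P →
      RegAt P (fun D => (∏ i, x i ^ e i) * ω D))
    {E : Fin n → Derivation ℂ L L} {E' : Fin n → Derivation ℂ K K}
    (hE' : ∀ i f, E' i (algebraMap L K f) = algebraMap L K (E i f)) (hne : ω E' ≠ 0)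
    (hdeg : Module.finrank L K ≤ 2 * m0 + 1) :
    ∃ i0, (∀ j, j ≠ i0 → x j ∈ Set.range (algebraMap L K)) ∧ m i0 + 2 ≤ Module.finrank L K := by
  classical
  have hcL : CharZero L := charZero_of_injective_algebraMap (algebraMap ℂ L).injective
  have ht : ∀ e : Fin (n + 1) → ℕ, (∀ i, e i ≤ m i) →
      Algebra.trace L K ((∏ i, x i ^ e i) * ω E') = 0 := by
    intro e he
    refine Pool.Agent.Y692.NT.t_Tr L K n hL hpg (fun D => (∏ i, x i ^ e i) * ω D) ?_
      (hreg e he) E E' hE'
    intro A D
    change (∏ i, x i ^ e i) * ω (fun i => ∑ j, A i j • D j) = _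
    rw [hω A D]
    ring
  obtain ⟨X, hX⟩ : ∃ X : Fin (n + 2) → K, X = Fin.cons 1 x := ⟨_, rfl⟩
  have hX0 : X 0 = 1 := by rw [hX, Fin.cons_zero]
  have hXs : ∀ i : Fin (n + 1), X i.succ = x i := fun i => by rw [hX, Fin.cons_succ]
  have hgenL : IntermediateField.adjoin L (Set.range X) = ⊤ := by
    rw [eq_top_iff]
    intro y _
    have h1 : y ∈ IntermediateField.adjoin ℂ (Set.range x) := by
      rw [hgen]
      trivial
    have h2 : IntermediateField.adjoin ℂ (Set.range x) ≤
        (IntermediateField.adjoin L (Set.range X)).restrictScalars ℂ := by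
      rw [IntermediateField.adjoin_le_iff]
      rintro _ ⟨i, rfl⟩
      rw [← hXs]
      exact IntermediateField.subset_adjoin L _ ⟨i.succ, rfl⟩
    exact h2 h1
  obtain ⟨hr, a, b, τ, hab, hτ, hli⟩ := Pool.Agent.Y614.NT.stLine Pool.Agent.Y153.NT.stCB L K
    (n + 2) m0 X 0 hX0 hgenL (ω E') hne (fun f => by
      obtain ⟨e, he, h1⟩ := prod_monom x f
      rw [hX, h1]
      exact ht e fun i => le_trans (he i) (hm0 i)) hdeg
  -- the generator is not in the base
  have hτL : ∀ c : L, algebraMap L K c ≠ τ := by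
    intro c hc
    have h1 : IntermediateField.adjoin L {τ} = ⊥ := by
      rw [← hc, IntermediateField.adjoin_simple_eq_bot_iff]
      exact IntermediateField.algebraMap_mem _ c
    rw [hτ] at h1
    have h2 : Module.finrank L K = 1 := by
      rw [← IntermediateField.finrank_top', h1, IntermediateField.finrank_bot]
    omega
  have hb0 : b 0 = 0 := by
    by_contra hb
    have h1 := hab 0
    rw [hX0] at h1
    apply hτL ((1 - a 0) / b 0)
    have h2 : algebraMap L K (b 0) ≠ 0 := (map_ne_zero _).2 hb
    rw [map_div₀, map_sub, map_one, div_eq_iff h2]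
    linear_combination h1
  obtain ⟨i0, hi0⟩ : ∃ i0 : Fin (n + 1), b i0.succ ≠ 0 := by
    by_contra hcon
    push Not at hcon
    have h1 : b = 0 := by
      funext j
      refine Fin.cases ?_ (fun i => ?_) j
      · exact hb0
      · exact hcon i
    have h2 := hli.ne_zero 1
    apply h2
    simpa using h1
  have hsolve : ∀ i : Fin (n + 1), b i.succ ≠ 0 → τ = algebraMap L K (-(a i.succ) / b i.succ) +
      algebraMap L K (b i.succ)⁻¹ * x i := by
    intro i hi
    have h1 := hab i.succ
    rw [hXs] at h1
    have h2 : algebraMap L K (b i.succ) ≠ 0 := (map_ne_zero _).2 hi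
    rw [h1, map_div₀, map_neg, map_inv₀]
    field_simp
    ring
  refine ⟨i0, fun j hj => ?_, ?_⟩
  · by_cases hbj : b j.succ = 0
    · have h1 := hab j.succ
      rw [hXs, hbj, map_zero, mul_zero, add_zero] at h1
      exact ⟨_, h1.symm⟩
    · exfalso
      apply hne
      refine two_dirs (hsolve i0 hi0) (hsolve j hbj) hτ (m := m i0) (m' := m j)
        (fun p q hp hq => ?_) (by have := hm0 i0; have := hm0 j; omega)
      have h2 := ht (fun i => if i = i0 then p else if i = j then q else 0) (fun i => by
        by_cases h3 : i = i0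
        · rw [if_pos h3, h3]
          exact hp
        · rw [if_neg h3]
          by_cases h4 : i = j
          · rw [if_pos h4, h4]
            exact hq
          · rw [if_neg h4]
            exact Nat.zero_le _)
      have h3 : ∏ i, x i ^ (if i = i0 then p else if i = j then q else 0) =
          x i0 ^ p * x j ^ q := by
        rw [← Finset.mul_prod_erase Finset.univ _ (Finset.mem_univ i0), if_pos rfl]
        congr 1
        rw [← Finset.mul_prod_erase (Finset.univ.erase i0) _
          (Finset.mem_erase.2 ⟨hj, Finset.mem_univ j⟩), if_neg hj, if_pos rfl,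
          Finset.prod_eq_one, mul_one]
        intro i hi
        rw [Finset.mem_erase, Finset.mem_erase] at hi
        rw [if_neg hi.2.1, if_neg hi.1, pow_zero]
      rw [h3] at h2
      exact h2
  · by_contra hcon
    apply hne
    refine one_dir (hsolve i0 hi0) hτ (m := m i0) (fun p hp => ?_) (by omega)
    have h2 := ht (fun i => if i = i0 then p else 0) (fun i => by
      by_cases h3 : i = i0
      · rw [if_pos h3, h3]
        exact hp
      · rw [if_neg h3]
        exact Nat.zero_le _)
    have h3 : ∏ i, x i ^ (if i = i0 then p else 0) = x i0 ^ p := by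
      rw [← Finset.mul_prod_erase Finset.univ _ (Finset.mem_univ i0), if_pos rfl,
        Finset.prod_eq_one, mul_one]
      intro i hi
      rw [if_neg (Finset.ne_of_mem_erase hi), pow_zero]
    rw [h3] at h2
    exact h2

end

end Pool.Agent.R882.PL
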