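import Pool.Agent.R882.PRes

/-!
Smooth hypersurfaces in a product of projective lines: regularity of the residue forms.
-/

set_option autoImplicit false
set_option linter.unusedSectionVars false

open FF MvPolynomial Pool.Agent.W603.LV Pool.Agent.W602.GT Pool.Agent.Y184.NT

namespace Pool.Agent.R882.PL

section

variable {K : Type} [Field K] [Algebra ℂ K] {n : ℕ}

/-- the matrix with the rows `c` and `D i x` -/
def prow (c x : Fin (n + 1) → K) (D : Fin n → Derivation ℂ K K) :
    Matrix (Fin (n + 1)) (Fin (n + 1)) K :=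
  Matrix.of (Fin.cons c fun i j => D i (x j) : Fin (n + 1) → Fin (n + 1) → K)

theorem prow_eq (c x : Fin (n + 1) → K) (D : Fin n → Derivation ℂ K K) :
    prow c x D = Matrix.of (Fin.cons c (fun i j => D i (x j) : Fin n → Fin (n + 1) → K) :
      Fin (n + 1) → Fin (n + 1) → K) := rfl

theorem prow_pluri (A : K) (c x : Fin (n + 1) → K) :
    IsPluri 1 (fun D : Fin n → Derivation ℂ K K => A * (prow c x D).det) := by
  intro M D
  have h : prow c x (fun i => ∑ j, M i j • D j) =
      Pool.Agent.Y988.NT.bump 1 (fun _ => 0) M * prow c x D := by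
    rw [prow_eq c x D, Pool.Agent.Y988.NT.bump_mul]
    ext i j
    refine Fin.cases ?_ (fun i => ?_) i
    · simp [prow]
    · simp only [prow, Matrix.of_apply, Fin.cons_succ, zero_mul, zero_add]
      exact Pool.Agent.Y988.NT.sum_der (M i) D (x j)
  change A * (prow c x (fun i => ∑ j, M i j • D j)).det = M.det ^ 1 * (A * (prow c x D).det)
  rw [h, Matrix.det_mul, Pool.Agent.Y988.NT.det_bump]
  ring

theorem pk1 {F : MvPolynomial (Fin (n + 1)) ℂ} {x : Fin (n + 1) → K} (hx : aeval x F = 0)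
    {c c' : Fin (n + 1) → K} (hc : ∑ l, aeval x (pderiv l F) * c l = 1)
    (hc' : ∑ l, aeval x (pderiv l F) * c' l = 1)
    (D : Fin n → Derivation ℂ K K) : (prow c x D).det = (prow c' x D).det := by
  refine Pool.Agent.Y988.NT.det_first c c' _ (fun l => aeval x (pderiv l F)) ?_
    (hc.trans hc'.symm) fun i => ?_
  · intro h
    have h2 : ∀ l, aeval x (pderiv l F) = 0 := fun l => congrFun h l
    simp [h2] at hc
  · rw [← Pool.Agent.Y988.NT.der_aeval, hx, map_zero]

theorem pk2 (S : Finset (Fin (n + 1))) (μ : K) (c x : Fin (n + 1) → K)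
    (D : Fin n → Derivation ℂ K K) :
    (prow (fun l => μ * (tf S x l * c l)) (inv S x) D).det =
      μ * (∏ l, tf S x l) * (prow c x D).det := by
  have h : prow (fun l => μ * (tf S x l * c l)) (inv S x) D =
      Pool.Agent.Y988.NT.bump μ (fun _ => 0) 1 * prow c x D *
        Matrix.diagonal (fun l => tf S x l) := by
    rw [prow_eq c x D, Pool.Agent.Y988.NT.bump_mul]
    ext i j
    rw [Matrix.mul_diagonal]
    refine Fin.cases ?_ (fun i => ?_) i
    · simp [prow]
      ring
    · simp only [prow, Matrix.of_apply, Fin.cons_succ, zero_mul, zero_add, Matrix.one_apply,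
        ite_mul, one_mul, Finset.sum_ite_eq, Finset.mem_univ, if_true]
      rw [der_inv]
      ring
  rw [h, Matrix.det_mul, Matrix.det_mul, Pool.Agent.Y988.NT.det_bump, Matrix.det_one,
    Matrix.det_diagonal]
  ring

theorem null_cert2 {G : MvPolynomial (Fin (n + 1)) ℂ}
    (hs : ∀ z, eval z G = 0 → ∃ l, eval z (pderiv l G) ≠ 0) :
    ∃ (A : MvPolynomial (Fin (n + 1)) ℂ) (B : Fin (n + 1) → MvPolynomial (Fin (n + 1)) ℂ),
      1 = A * G + ∑ l, B l * pderiv l G := by
  classical
  obtain ⟨v, hv⟩ : ∃ v : Option (Fin (n + 1)) → MvPolynomial (Fin (n + 1)) ℂ,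
    v = fun o => Option.elim o G fun l => pderiv l G := ⟨_, rfl⟩
  obtain ⟨I, hI⟩ : ∃ I : Ideal (MvPolynomial (Fin (n + 1)) ℂ), I = Ideal.span (Set.range v) :=
    ⟨_, rfl⟩
  have h1 : (1 : MvPolynomial (Fin (n + 1)) ℂ) ∈ vanishingIdeal ℂ (zeroLocus ℂ I) := by
    rw [mem_vanishingIdeal_iff]
    intro z hz
    exfalso
    rw [mem_zeroLocus_iff] at hz
    have h2 : ∀ o, eval z (v o) = 0 := fun o => hz (v o) (by
      rw [hI]
      exact Ideal.subset_span ⟨o, rfl⟩)
    obtain ⟨l, hl⟩ := hs z (by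
      have h3 := h2 none
      rw [hv] at h3
      exact h3)
    apply hl
    have h3 := h2 (some l)
    rw [hv] at h3
    exact h3
  rw [vanishingIdeal_zeroLocus_eq_radical] at h1
  obtain ⟨M, hM⟩ := h1
  rw [one_pow, hI, Ideal.mem_span_range_iff_exists_fun] at hM
  obtain ⟨A, hA⟩ := hM
  refine ⟨A none, fun l => A (some l), ?_⟩
  rw [← hA, Fintype.sum_option, hv]
  rfl

theorem exists_c2 {G : MvPolynomial (Fin (n + 1)) ℂ}
    (hs : ∀ z, eval z G = 0 → ∃ l, eval z (pderiv l G) ≠ 0) {Z : Fin (n + 1) → K}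
    (hZ : aeval Z G = 0) : ∃ c : Fin (n + 1) → K, ∑ l, aeval Z (pderiv l G) * c l = 1 := by
  obtain ⟨A, B, h⟩ := null_cert2 hs
  refine ⟨fun l => aeval Z (B l), ?_⟩
  have h5 := congrArg (aeval Z) h
  rw [map_one, map_add, map_mul, hZ, mul_zero, zero_add, map_sum] at h5
  rw [h5]
  refine Finset.sum_congr rfl fun l _ => ?_
  rw [map_mul]
  ring

theorem exists_unit2 (P : Place ℂ K) {G : MvPolynomial (Fin (n + 1)) ℂ}
    (hs : ∀ z, eval z G = 0 → ∃ l, eval z (pderiv l G) ≠ 0) {Z : Fin (n + 1) → K}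
    (hZ : aeval Z G = 0) (hr : ∀ l, P.Reg (Z l)) :
    ∃ l, aeval Z (pderiv l G) ≠ 0 ∧ P.ord (aeval Z (pderiv l G)) = 0 := by
  classical
  by_contra hcon
  push Not at hcon
  have h3 : ∀ l, Ge P 1 (aeval Z (pderiv l G)) := by
    intro l
    by_cases h0 : aeval Z (pderiv l G) = 0
    · exact Or.inl h0
    · right
      have h2 := hcon l h0
      have h3 := (Pool.Agent.Y988.NT.reg_aeval hr (pderiv l G)).resolve_left h0
      omega
  obtain ⟨A, B, h⟩ := null_cert2 hs
  have h4 : Ge P 1 (1 : K) := by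
    have h5 := congrArg (aeval Z) h
    rw [map_one, map_add, map_mul, hZ, mul_zero, zero_add, map_sum] at h5
    rw [h5]
    refine Ge.sum _ _ fun l _ => ?_
    rw [map_mul]
    have h6 := (show Ge P 0 (aeval Z (B l)) from
      Pool.Agent.Y988.NT.reg_aeval hr (B l)).mul (h3 l)
    simpa using h6
  rcases h4 with h4 | h4
  · exact one_ne_zero h4
  · rw [P.ord_one] at h4
    omega

/-- the residue forms are regular -/
theorem prod_reg {d : Fin (n + 1) → ℕ} {F : MvPolynomial (Fin (n + 1)) ℂ}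
    (hF : ∀ i, F.degreeOf i ≤ d i)
    (hs : ∀ S z, eval z (chart d S F) = 0 → ∃ l, eval z (pderiv l (chart d S F)) ≠ 0)
    {c x : Fin (n + 1) → K} (hx : aeval x F = 0) (hc : ∑ l, aeval x (pderiv l F) * c l = 1)
    {e : Fin (n + 1) → ℕ} (he : ∀ i, e i + 2 ≤ d i) (P : Place ℂ K) :
    RegAt P (fun D : Fin n → Derivation ℂ K K => (∏ i, x i ^ e i) * (prow c x D).det) := by
  classical
  intro D hD
  obtain ⟨S, hS⟩ : ∃ S : Finset (Fin (n + 1)), S = Finset.univ.filter fun i => ¬ P.Reg (x i) :=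
    ⟨_, rfl⟩
  have hxS : ∀ i ∈ S, x i ≠ 0 := by
    intro i hi h0
    rw [hS, Finset.mem_filter] at hi
    apply hi.2
    rw [h0]
    exact P.reg_zero
  have hinv : ∀ i, ¬ P.Reg (x i) → P.Reg (x i)⁻¹ := by
    intro i hi
    right
    rw [P.ord_inv]
    by_contra h
    exact hi (Or.inr (by omega))
  have hreg : ∀ i, P.Reg (inv S x i) := by
    intro i
    by_cases hi : i ∈ S
    · rw [inv, if_pos hi]
      rw [hS, Finset.mem_filter] at hi
      exact hinv i hi.2
    · rw [inv, if_neg hi]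
      by_contra h
      apply hi
      rw [hS, Finset.mem_filter]
      exact ⟨Finset.mem_univ _, h⟩
  have hG0 : aeval (inv S x) (chart d S F) = 0 := by
    rw [aeval_chart hxS hF, hx, mul_zero]
  obtain ⟨l0, hl1, hl2⟩ := exists_unit2 P (hs S) hG0 hreg
  have hfac : fac d S x ≠ 0 := by
    rw [fac]
    refine Finset.prod_ne_zero_iff.2 fun i _ => ?_
    by_cases hi : i ∈ S
    · rw [if_pos hi]
      exact pow_ne_zero _ (inv_ne_zero (hxS i hi))
    · rw [if_neg hi]
      exact one_ne_zero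
  have htf : ∀ i, tf S x i ≠ 0 := by
    intro i
    by_cases hi : i ∈ S
    · rw [tf, if_pos hi]
      exact neg_ne_zero.2 (pow_ne_zero _ (inv_ne_zero (hxS i hi)))
    · rw [tf, if_neg hi]
      exact one_ne_zero
  obtain ⟨μ, hμ⟩ : ∃ μ : K, μ = (fac d S x)⁻¹ := ⟨_, rfl⟩
  have hc1 : ∑ l, aeval (inv S x) (pderiv l (chart d S F)) * (μ * (tf S x l * c l)) = 1 := by
    rw [← hc]
    refine Finset.sum_congr rfl fun l _ => ?_
    have h2 := pd_chart hxS hF hx l
    rw [hμ]
    field_simp
    linear_combination c l * h2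
  have hc2 : ∑ l, aeval (inv S x) (pderiv l (chart d S F)) *
      (Pi.single l0 (aeval (inv S x) (pderiv l0 (chart d S F)))⁻¹ : Fin (n + 1) → K) l = 1 := by
    rw [Finset.sum_eq_single l0]
    · rw [Pi.single_eq_same]
      exact mul_inv_cancel₀ hl1
    · intro b _ hb
      rw [Pi.single_eq_of_ne hb, mul_zero]
    · intro h
      exact absurd (Finset.mem_univ _) h
  have h1 := pk1 hG0 hc1 hc2 D
  have h2 := pk2 S μ c x D
  rw [h1] at h2
  have h3 : (∏ i, x i ^ e i) * (prow c x D).det =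
      (∏ i, (x i ^ e i * ((if i ∈ S then (x i)⁻¹ ^ d i else 1) * (tf S x i)⁻¹))) *
      (prow (Pi.single l0 (aeval (inv S x) (pderiv l0 (chart d S F)))⁻¹ : Fin (n + 1) → K)
        (inv S x) D).det := by
    have h4 : ∏ l, tf S x l ≠ 0 := Finset.prod_ne_zero_iff.2 fun i _ => htf i
    rw [h2, Finset.prod_mul_distrib, Finset.prod_mul_distrib, Finset.prod_inv_distrib, hμ]
    change _ = _ * (fac d S x * _) * _
    field_simp
  change P.Reg ((∏ i, x i ^ e i) * (prow c x D).det)
  rw [h3]
  refine P.reg_mul ?_ (Pool.Agent.Y988.NT.reg_det P _ fun a b => ?_)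
  · refine P.O.prod_mem fun i _ => ?_
    change P.Reg _
    by_cases hi : i ∈ S
    · rw [tf, if_pos hi, if_pos hi]
      have h5 : x i ^ e i * ((x i)⁻¹ ^ d i * (-((x i)⁻¹ ^ 2))⁻¹) =
          -((x i)⁻¹ ^ (d i - 2 - e i)) := by
        have h6 := hxS i hi
        obtain ⟨q, hq⟩ : ∃ q, d i = q + e i + 2 := ⟨d i - 2 - e i, by have := he i; omega⟩
        have h7 : d i - 2 - e i = q := by omega
        rw [h7, hq]
        simp only [inv_pow, pow_add]
        field_simp
      rw [h5]
      refine P.reg_neg ?_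
      rw [hS, Finset.mem_filter] at hi
      exact P.O.pow_mem (hinv i hi.2) _
    · rw [tf, if_neg hi, if_neg hi, inv_one, mul_one, mul_one]
      have h6 := hreg i
      rw [inv, if_neg hi] at h6
      exact P.O.pow_mem h6 _
  · rw [prow_eq, Matrix.of_apply]
    refine Fin.cases ?_ (fun a => ?_) a
    · simp only [Fin.cons_zero]
      by_cases hb : b = l0
      · rw [hb, Pi.single_eq_same]
        right
        rw [P.ord_inv, hl2]
        simp
      · rw [Pi.single_eq_of_ne hb]
        exact P.reg_zero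
    · simpa using hD a _ (hreg b)

/-- the residue forms are not zero -/
theorem prow_ne {F : MvPolynomial (Fin (n + 1)) ℂ} {c x : Fin (n + 1) → K}
    (hx : aeval x F = 0) (hc : ∑ l, aeval x (pderiv l F) * c l = 1)
    (hgen : IntermediateField.adjoin ℂ (Set.range x) = ⊤)
    {D : Fin n → Derivation ℂ K K} (hD : LinearIndependent K D) :
    (prow c x D).det ≠ 0 := by
  classical
  intro hdet
  rw [← Matrix.exists_vecMul_eq_zero_iff] at hdet
  obtain ⟨v, hv0, hv⟩ := hdet
  have h1 : ∀ j, v 0 * c j + ∑ i : Fin n, v i.succ * D i (x j) = 0 := by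
    intro j
    have h2 := congrFun hv j
    rw [Matrix.vecMul, dotProduct, Fin.sum_univ_succ] at h2
    simpa [prow] using h2
  have h4 : ∀ i : Fin n, ∑ j, aeval x (pderiv j F) * D i (x j) = 0 := by
    intro i
    rw [← Pool.Agent.Y988.NT.der_aeval, hx, map_zero]
  have h2 : v 0 = 0 := by
    have h3 : ∑ j, aeval x (pderiv j F) * (v 0 * c j + ∑ i : Fin n, v i.succ * D i (x j)) =
        v 0 := by
      have h6 : ∑ j, aeval x (pderiv j F) * (v 0 * c j + ∑ i : Fin n, v i.succ * D i (x j)) =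
          v 0 * ∑ j, aeval x (pderiv j F) * c j +
          ∑ i : Fin n, v i.succ * ∑ j, aeval x (pderiv j F) * D i (x j) := by
        simp only [mul_add, Finset.sum_add_distrib, Finset.mul_sum]
        congr 1
        · exact Finset.sum_congr rfl fun j _ => by ring
        · rw [Finset.sum_comm]
          exact Finset.sum_congr rfl fun i _ => Finset.sum_congr rfl fun j _ => by ring
      rw [h6, hc]
      simp [h4]
    rw [← h3]
    exact Finset.sum_eq_zero fun j _ => by rw [h1 j, mul_zero]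
  have h3 : (∑ i : Fin n, v i.succ • D i) = 0 := by
    apply Pool.Agent.R882.WR.der_zero hgen
    intro j
    rw [Pool.Agent.Y988.NT.sum_der]
    have h5 := h1 j
    rw [h2, zero_mul, zero_add] at h5
    exact h5
  rw [Fintype.linearIndependent_iff] at hD
  apply hv0
  ext i
  refine Fin.cases ?_ (fun i => ?_) i
  · exact h2
  · exact hD (fun i => v i.succ) h3 i

end

end Pool.Agent.R882.PL
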