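import Pool.Agent.R882.CovDesc

/-!
The residues of rational forms with poles along a smooth hypersurface in a product of projective
lines: regularity.
-/

set_option autoImplicit false
set_option linter.unusedSectionVars false

open FF MvPolynomial Pool.Agent.W603.LV Pool.Agent.W602.GT Pool.Agent.Y184.NT

namespace Pool.Agent.R882.PL

/-- the exponent vector of a monomial in the chart of the product of projective lines which is
centred at the points whose coordinates with index in `S` are infinite -/
noncomputable def flip {n : ℕ} (d : Fin (n + 1) → ℕ) (S : Finset (Fin (n + 1)))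
    (u : Fin (n + 1) →₀ ℕ) : Fin (n + 1) →₀ ℕ :=
  Finsupp.equivFunOnFinite.symm fun i => if i ∈ S then d i - u i else u i

/-- the equation in the chart `S`: the polynomial
`F(…, z_i⁻¹, …) ∏ z_i ^ d_i`, `i ∈ S` -/
noncomputable def chart {n : ℕ} (d : Fin (n + 1) → ℕ) (S : Finset (Fin (n + 1)))
    (F : MvPolynomial (Fin (n + 1)) ℂ) : MvPolynomial (Fin (n + 1)) ℂ :=
  ∑ u ∈ F.support, monomial (flip d S u) (F.coeff u)

section

variable {K : Type} [Field K] [Algebra ℂ K] {n : ℕ}

/-- the coordinates in the chart `S` -/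
noncomputable def inv (S : Finset (Fin (n + 1))) (x : Fin (n + 1) → K) (i : Fin (n + 1)) : K :=
  if i ∈ S then (x i)⁻¹ else x i

/-- the derivative of the chart coordinates -/
noncomputable def tf (S : Finset (Fin (n + 1))) (x : Fin (n + 1) → K) (i : Fin (n + 1)) : K :=
  if i ∈ S then -((x i)⁻¹ ^ 2) else 1

/-- the factor of the equation -/
noncomputable def fac (d : Fin (n + 1) → ℕ) (S : Finset (Fin (n + 1))) (x : Fin (n + 1) → K) : K :=
  ∏ i, if i ∈ S then (x i)⁻¹ ^ d i else 1

theorem der_inv (S : Finset (Fin (n + 1))) (x : Fin (n + 1) → K) (D : Derivation ℂ K K)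
    (i : Fin (n + 1)) : D (inv S x i) = tf S x i * D (x i) := by
  by_cases hi : i ∈ S
  · rw [inv, tf, if_pos hi, if_pos hi, Derivation.leibniz_inv, smul_eq_mul]
  · rw [inv, tf, if_neg hi, if_neg hi, one_mul]

theorem mono_inv {d : Fin (n + 1) → ℕ} {S : Finset (Fin (n + 1))} {x : Fin (n + 1) → K}
    (hx : ∀ i ∈ S, x i ≠ 0) {u : Fin (n + 1) →₀ ℕ} (hu : ∀ i, u i ≤ d i) :
    ∏ i, inv S x i ^ flip d S u i = fac d S x * ∏ i, x i ^ u i := by
  rw [fac, ← Finset.prod_mul_distrib]
  refine Finset.prod_congr rfl fun i _ => ?_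
  have h1 : flip d S u i = if i ∈ S then d i - u i else u i := rfl
  rw [h1]
  by_cases hi : i ∈ S
  · rw [inv, if_pos hi, if_pos hi, if_pos hi]
    have h2 : x i ≠ 0 := hx i hi
    obtain ⟨e, he⟩ := Nat.exists_eq_add_of_le (hu i)
    rw [he, Nat.add_sub_cancel_left, pow_add, inv_pow, inv_pow]
    field_simp
  · rw [inv, if_neg hi, if_neg hi, if_neg hi, one_mul]

theorem aeval_mono (Z : Fin (n + 1) → K) (u : Fin (n + 1) →₀ ℕ) (c : ℂ) :
    aeval Z (monomial u c) = algebraMap ℂ K c * ∏ i, Z i ^ u i := by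
  rw [aeval_monomial, Finsupp.prod_fintype _ _ fun i => by simp]

theorem aeval_chart {d : Fin (n + 1) → ℕ} {S : Finset (Fin (n + 1))} {x : Fin (n + 1) → K}
    (hx : ∀ i ∈ S, x i ≠ 0) {F : MvPolynomial (Fin (n + 1)) ℂ} (hF : ∀ i, F.degreeOf i ≤ d i) :
    aeval (inv S x) (chart d S F) = fac d S x * aeval x F := by
  conv_rhs => rw [F.as_sum]
  rw [chart, map_sum, map_sum, Finset.mul_sum]
  refine Finset.sum_congr rfl fun u hu => ?_
  rw [aeval_mono, aeval_mono, mono_inv hx fun i => le_trans (monomial_le_degreeOf i hu) (hF i)]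
  ring

/-- the value of the partial derivative of a monomial -/
theorem aeval_pd_mono {Z : Fin (n + 1) → K} {l : Fin (n + 1)} (hZ : Z l ≠ 0)
    (u : Fin (n + 1) →₀ ℕ) (c : ℂ) :
    aeval Z (pderiv l (monomial u c)) = (u l : K) * (Z l)⁻¹ * aeval Z (monomial u c) := by
  rw [pderiv_monomial, aeval_mono, aeval_mono]
  by_cases h0 : u l = 0
  · rw [h0]
    simp
  obtain ⟨v, hv⟩ : ∃ v : Fin (n + 1) →₀ ℕ, v = u - Finsupp.single l 1 := ⟨_, rfl⟩
  rw [← hv]
  have h1 : ∏ i, Z i ^ u i = Z l * ∏ i, Z i ^ v i := by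
    rw [← Finset.mul_prod_erase Finset.univ (fun i => Z i ^ u i) (Finset.mem_univ l),
      ← Finset.mul_prod_erase Finset.univ (fun i => Z i ^ v i) (Finset.mem_univ l), ← mul_assoc]
    congr 1
    · rw [hv, Finsupp.tsub_apply, Finsupp.single_eq_same, ← pow_succ']
      congr 1
      omega
    · refine Finset.prod_congr rfl fun i hi => ?_
      rw [hv, Finsupp.tsub_apply, Finsupp.single_eq_of_ne (Finset.ne_of_mem_erase hi),
        tsub_zero]
  rw [h1, map_mul, map_natCast]
  field_simp

/-- the change of the partial derivatives: coordinates which are not zero -/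
theorem pd_chart {d : Fin (n + 1) → ℕ} {S : Finset (Fin (n + 1))} {x : Fin (n + 1) → K}
    (hx : ∀ i ∈ S, x i ≠ 0) {F : MvPolynomial (Fin (n + 1)) ℂ} (hF : ∀ i, F.degreeOf i ≤ d i)
    (h0 : aeval x F = 0) (l : Fin (n + 1)) :
    aeval (inv S x) (pderiv l (chart d S F)) * tf S x l = fac d S x * aeval x (pderiv l F) := by
  by_cases hl : l ∈ S
  · have hxl : x l ≠ 0 := hx l hl
    have hil : inv S x l ≠ 0 := by
      rw [inv, if_pos hl]
      exact inv_ne_zero hxl
    have h1 : fac d S x * aeval x (pderiv l F) = ∑ u ∈ F.support, fac d S x *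
        aeval x (pderiv l (monomial u (F.coeff u))) := by
      conv_lhs => rw [F.as_sum]
      rw [map_sum, map_sum, Finset.mul_sum]
    have h2 : (0 : K) = ∑ u ∈ F.support, ((d l : K) * (x l)⁻¹ * (fac d S x *
        aeval x (monomial u (F.coeff u)))) := by
      rw [← Finset.mul_sum, ← Finset.mul_sum, ← map_sum, ← F.as_sum, h0, mul_zero, mul_zero]
    rw [h1, chart, map_sum, map_sum, Finset.sum_mul, ← sub_zero (∑ u ∈ F.support, fac d S x * _)]
    conv_rhs => rw [h2]
    rw [← Finset.sum_sub_distrib]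
    refine Finset.sum_congr rfl fun u hu => ?_
    have hud : ∀ i, u i ≤ d i := fun i => le_trans (monomial_le_degreeOf i hu) (hF i)
    rw [aeval_pd_mono hil, aeval_pd_mono hxl, aeval_mono, aeval_mono, mono_inv hx hud]
    have h3 : flip d S u l = d l - u l := by
      have h4 : flip d S u l = if l ∈ S then d l - u l else u l := rfl
      rw [h4, if_pos hl]
    rw [h3, Nat.cast_sub (hud l), inv, tf, if_pos hl, if_pos hl, inv_inv]
    field_simp
    ring
  · have h1 : ∀ u ∈ F.support, aeval (inv S x) (pderiv l (monomial (flip d S u) (F.coeff u))) =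
        fac d S x * aeval x (pderiv l (monomial u (F.coeff u))) := by
      intro u hu
      have hud : ∀ i, u i ≤ d i := fun i => le_trans (monomial_le_degreeOf i hu) (hF i)
      have h3 : flip d S u l = u l := by
        have h4 : flip d S u l = if l ∈ S then d l - u l else u l := rfl
        rw [h4, if_neg hl]
      have h4 : flip d S u - Finsupp.single l 1 = flip d S (u - Finsupp.single l 1) := by
        ext i
        have h5 : flip d S u i = if i ∈ S then d i - u i else u i := rfl
        have h6 : ∀ v : Fin (n + 1) →₀ ℕ, flip d S v i =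
          if i ∈ S then d i - v i else v i := fun v => rfl
        rw [Finsupp.tsub_apply, h5, h6, Finsupp.tsub_apply]
        by_cases hi : i ∈ S
        · have hil : i ≠ l := fun h => hl (h ▸ hi)
          rw [if_pos hi, if_pos hi, Finsupp.single_eq_of_ne hil, tsub_zero, tsub_zero]
        · rw [if_neg hi, if_neg hi]
      rw [pderiv_monomial, pderiv_monomial, aeval_mono, aeval_mono, h3, h4,
        mono_inv hx fun i => ?_]
      · ring
      · rw [Finsupp.tsub_apply]
        exact le_trans (Nat.sub_le _ _) (hud i)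
    rw [tf, if_neg hl, mul_one, chart, map_sum, map_sum]
    conv_rhs => rw [F.as_sum]
    rw [map_sum, map_sum, Finset.mul_sum]
    exact Finset.sum_congr rfl h1

end

end Pool.Agent.R882.PL
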