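import Mathlib

/-!
Comparison of the coefficients of polynomials in two variables with natural coefficients, by
evaluation at large numbers.
-/

set_option autoImplicit false

open Polynomial

namespace Pool.Agent.R882

/-- Evaluation of a polynomial in two variables at `(p, q)`. -/
noncomputable def ev {R : Type} [CommSemiring R] (p q : R) : ℕ[X][X] →+* R :=
  Polynomial.eval₂RingHom (Polynomial.eval₂RingHom (Nat.castRingHom R) p) q

/-- Comparison of the first `n` digits. -/
def chk (B : ℕ) : ℕ → ℕ → ℕ → Bool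
  | 0, _, b => Nat.ble b 0
  | n + 1, a, b => Nat.ble (b % B) (a % B) && chk B n (a / B) (b / B)

/-- Comparison of the first `n` rows of digits. -/
def chk2 (B C K : ℕ) : ℕ → ℕ → ℕ → Bool
  | 0, _, b => Nat.ble b 0
  | n + 1, a, b => chk B K (a % C) (b % C) && chk2 B C K n (a / C) (b / C)

theorem eval_eq_divX (f : ℕ[X]) (x : ℕ) : f.eval x = x * f.divX.eval x + f.coeff 0 := by
  conv_lhs => rw [← Polynomial.divX_mul_X_add f]
  simp [mul_comm]

theorem coeff_zero_le (f : ℕ[X]) : f.coeff 0 ≤ f.eval 1 := by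
  rw [eval_eq_divX f 1]
  omega

theorem divX_eval_one_le (f : ℕ[X]) : f.divX.eval 1 ≤ f.eval 1 := by
  rw [eval_eq_divX f 1]
  omega

theorem eval_eq_zero_imp {f : ℕ[X]} {x : ℕ} (hx : 0 < x) (h : f.eval x = 0) (i : ℕ) :
    f.coeff i = 0 := by
  induction i generalizing f with
  | zero =>
    rw [eval_eq_divX] at h
    omega
  | succ i ih =>
    rw [eval_eq_divX] at h
    have h1 : f.divX.eval x = 0 := by
      have : x * f.divX.eval x = 0 := by omega
      rcases Nat.mul_eq_zero.1 this with h2 | h2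
      · omega
      · exact h2
    have := ih h1
    rwa [Polynomial.coeff_divX] at this

theorem eval_mod {f : ℕ[X]} {B : ℕ} (h : f.eval 1 < B) : f.eval B % B = f.coeff 0 := by
  rw [eval_eq_divX f B, Nat.mul_add_mod, Nat.mod_eq_of_lt (lt_of_le_of_lt (coeff_zero_le f) h)]

theorem eval_div {f : ℕ[X]} {B : ℕ} (h : f.eval 1 < B) : f.eval B / B = f.divX.eval B := by
  have h1 := lt_of_le_of_lt (coeff_zero_le f) h
  rw [eval_eq_divX f B, Nat.mul_add_div (by omega), Nat.div_eq_of_lt h1, add_zero]

theorem chk_sound {B : ℕ} : ∀ (n : ℕ) (f g : ℕ[X]), f.eval 1 < B → g.eval 1 < B →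
    chk B n (f.eval B) (g.eval B) = true → ∀ i, g.coeff i ≤ f.coeff i := by
  intro n
  induction n with
  | zero =>
    intro f g hf hg h i
    simp only [chk, Nat.ble_eq, Nat.le_zero] at h
    rw [eval_eq_zero_imp (by omega) h i]
    exact Nat.zero_le _
  | succ n ih =>
    intro f g hf hg h i
    simp only [chk, Bool.and_eq_true, Nat.ble_eq] at h
    obtain ⟨h1, h2⟩ := h
    rw [eval_mod hf, eval_mod hg] at h1
    rw [eval_div hf, eval_div hg] at h2
    have h3 := ih f.divX g.divX (lt_of_le_of_lt (divX_eval_one_le f) hf)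
      (lt_of_le_of_lt (divX_eval_one_le g) hg) h2
    cases i with
    | zero => exact h1
    | succ i =>
      have := h3 i
      rwa [Polynomial.coeff_divX, Polynomial.coeff_divX] at this

/-- The polynomial obtained by evaluating the coefficients. -/
noncomputable def red (B : ℕ) (F : ℕ[X][X]) : ℕ[X] := F.map (Polynomial.evalRingHom B)

theorem ev_nat (B C : ℕ) (F : ℕ[X][X]) : ev B C F = (red B F).eval C := by
  have h : Polynomial.eval₂RingHom (Nat.castRingHom ℕ) B = Polynomial.evalRingHom B := by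
    ext <;> simp
  rw [ev, red, Polynomial.eval_map, Polynomial.coe_eval₂RingHom, h]

theorem coeff_red (B : ℕ) (F : ℕ[X][X]) (j : ℕ) : (red B F).coeff j = (F.coeff j).eval B := by
  rw [red, Polynomial.coeff_map, Polynomial.coe_evalRingHom]

theorem red_divX (B : ℕ) (F : ℕ[X][X]) : (red B F).divX = red B F.divX := by
  ext j
  rw [Polynomial.coeff_divX, coeff_red, coeff_red, Polynomial.coeff_divX]

theorem chk2_sound {B C K : ℕ} : ∀ (n : ℕ) (F G : ℕ[X][X]), ev 1 1 F < B → ev 1 1 G < B →
    ev B 1 F < C → ev B 1 G < C →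
    chk2 B C K n (ev B C F) (ev B C G) = true → ∀ j i, (G.coeff j).coeff i ≤ (F.coeff j).coeff i := by
  intro n
  induction n with
  | zero =>
    intro F G h1 h2 h3 h4 h j i
    simp only [chk2, Nat.ble_eq, Nat.le_zero] at h
    rw [ev_nat] at h
    have h5 := eval_eq_zero_imp (by omega) h j
    rw [coeff_red] at h5
    rw [eval_eq_zero_imp (by omega) h5 i]
    exact Nat.zero_le _
  | succ n ih =>
    intro F G h1 h2 h3 h4 h j i
    simp only [chk2, Bool.and_eq_true] at h
    obtain ⟨h5, h6⟩ := h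
    rw [ev_nat] at h1 h2 h3 h4
    rw [ev_nat, ev_nat, eval_mod h3, eval_mod h4, coeff_red, coeff_red] at h5
    rw [ev_nat, ev_nat, eval_div h3, eval_div h4, red_divX, red_divX, ← ev_nat, ← ev_nat] at h6
    have h7 : ∀ F : ℕ[X][X], (red 1 F).eval 1 < B → (red 1 F.divX).eval 1 < B := fun F hF => by
      rw [← red_divX]
      exact lt_of_le_of_lt (divX_eval_one_le _) hF
    have h8 : ∀ F : ℕ[X][X], (red B F).eval 1 < C → (red B F.divX).eval 1 < C := fun F hF => by
      rw [← red_divX]
      exact lt_of_le_of_lt (divX_eval_one_le _) hF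
    have h9 := ih F.divX G.divX (by rw [ev_nat]; exact h7 F h1) (by rw [ev_nat]; exact h7 G h2)
      (by rw [ev_nat]; exact h8 F h3) (by rw [ev_nat]; exact h8 G h4) h6
    cases j with
    | zero =>
      have h10 : ∀ F : ℕ[X][X], (red 1 F).eval 1 < B → (F.coeff 0).eval 1 < B := fun F hF => by
        rw [← coeff_red]
        exact lt_of_le_of_lt (coeff_zero_le _) hF
      exact chk_sound K _ _ (h10 F h1) (h10 G h2) h5 i
    | succ j =>
      have := h9 j i
      rwa [Polynomial.coeff_divX, Polynomial.coeff_divX] at this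

theorem ev_mono {F G : ℕ[X][X]} (h : ∀ j i, (G.coeff j).coeff i ≤ (F.coeff j).coeff i)
    {p q : ℝ} (hp : 0 ≤ p) (hq : 0 ≤ q) : ev p q G ≤ ev p q F := by
  have h1 : ∀ f g : ℕ[X], (∀ i, g.coeff i ≤ f.coeff i) →
      g.eval₂ (Nat.castRingHom ℝ) p ≤ f.eval₂ (Nat.castRingHom ℝ) p := by
    intro f g hfg
    have hn : f.natDegree < max f.natDegree g.natDegree + 1 := by omega
    have hm : g.natDegree < max f.natDegree g.natDegree + 1 := by omega
    rw [Polynomial.eval₂_eq_sum_range' _ hn, Polynomial.eval₂_eq_sum_range' _ hm]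
    refine Finset.sum_le_sum fun i _ => mul_le_mul_of_nonneg_right ?_ (pow_nonneg hp i)
    simpa using hfg i
  have hn : F.natDegree < max F.natDegree G.natDegree + 1 := by omega
  have hm : G.natDegree < max F.natDegree G.natDegree + 1 := by omega
  rw [ev, Polynomial.coe_eval₂RingHom, Polynomial.eval₂_eq_sum_range' _ hn,
    Polynomial.eval₂_eq_sum_range' _ hm]
  refine Finset.sum_le_sum fun j _ => mul_le_mul_of_nonneg_right ?_ (pow_nonneg hq j)
  exact h1 _ _ (h j)

end Pool.Agent.R882
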