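import Mathlib

/-!
The Riemann sphere as the one-point compactification of `ℂ`, and the map `z ↦ 1 / z`.
-/

set_option autoImplicit false

open Filter Topology OnePoint

namespace Pool.Agent.R882

/-- The Riemann sphere. -/
abbrev P1 : Type := OnePoint ℂ

/-- The map `z ↦ 1 / z` of the Riemann sphere. -/
noncomputable def rcp : P1 → P1
  | ∞ => ((0 : ℂ) : P1)
  | (z : ℂ) => if z = 0 then ∞ else ((z⁻¹ : ℂ) : P1)

@[simp] theorem rcp_infty : rcp ∞ = ((0 : ℂ) : P1) := rfl

theorem rcp_coe (z : ℂ) : rcp (z : P1) = if z = 0 then ∞ else ((z⁻¹ : ℂ) : P1) := rfl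

@[simp] theorem rcp_zero : rcp ((0 : ℂ) : P1) = ∞ := by simp [rcp_coe]

theorem rcp_of_ne {z : ℂ} (hz : z ≠ 0) : rcp (z : P1) = ((z⁻¹ : ℂ) : P1) := by
  simp [rcp_coe, hz]

@[simp] theorem rcp_rcp (a : P1) : rcp (rcp a) = a := by
  induction a using OnePoint.rec with
  | infty => simp
  | coe z =>
    by_cases hz : z = 0
    · subst hz; simp
    · rw [rcp_of_ne hz, rcp_of_ne (inv_ne_zero hz), inv_inv]

theorem continuous_rcp : Continuous rcp := by
  rw [OnePoint.continuous_iff]
  have hcc : coclosedCompact ℂ = Bornology.cobounded ℂ := by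
    rw [coclosedCompact_eq_cocompact, Metric.cobounded_eq_cocompact]
  constructor
  · rw [hcc]
    have h1 : Tendsto (fun z : ℂ => ((z⁻¹ : ℂ) : P1)) (Bornology.cobounded ℂ)
        (𝓝 ((0 : ℂ) : P1)) :=
      (OnePoint.continuous_coe.tendsto 0).comp tendsto_inv₀_cobounded
    refine h1.congr' ?_
    have h2 : ∀ᶠ z : ℂ in Bornology.cobounded ℂ, z ≠ 0 := by
      have := Metric.cobounded_eq_cocompact (α := ℂ)
      rw [this]
      exact (isCompact_singleton (x := (0 : ℂ))).compl_mem_cocompact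
    filter_upwards [h2] with z hz
    simp [rcp_coe, hz]
  · rw [continuous_iff_continuousAt]
    intro z
    by_cases hz : z = 0
    · subst hz
      have h3 : Tendsto (fun z : ℂ => rcp (z : P1)) (𝓝[≠] 0) (𝓝 (∞ : P1)) := by
        have h4 : Tendsto (fun z : ℂ => ((z⁻¹ : ℂ) : P1)) (𝓝[≠] 0) (𝓝 (∞ : P1)) := by
          have h5 := OnePoint.tendsto_coe_infty (X := ℂ)
          rw [hcc] at h5
          exact h5.comp tendsto_inv₀_nhdsNE_zero
        refine h4.congr' ?_
        filter_upwards [self_mem_nhdsWithin] with w hw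
        rw [rcp_of_ne hw]
      have h6 : ContinuousAt (fun z : ℂ => rcp (z : P1)) 0 := by
        rw [continuousAt_iff_punctured_nhds]
        simpa using h3
      exact h6
    · have h7 : ContinuousAt (fun z : ℂ => ((z⁻¹ : ℂ) : P1)) z :=
        OnePoint.continuous_coe.continuousAt.comp (continuousAt_inv₀ hz)
      refine h7.congr ?_
      filter_upwards [isOpen_ne.mem_nhds hz] with w hw
      rw [rcp_of_ne hw]

/-- The finite coordinate; it is continuous outside `∞`. -/
noncomputable def toC (a : P1) : ℂ := a.elim 0 id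

@[simp] theorem toC_coe (z : ℂ) : toC (z : P1) = z := rfl

theorem coe_toC {a : P1} (ha : a ≠ ∞) : ((toC a : ℂ) : P1) = a := by
  obtain ⟨z, rfl⟩ := OnePoint.ne_infty_iff_exists.1 ha
  rfl

theorem continuousOn_toC : ContinuousOn toC {∞}ᶜ := by
  intro a ha
  obtain ⟨z, rfl⟩ := OnePoint.ne_infty_iff_exists.1 ha
  refine ContinuousAt.continuousWithinAt ?_
  rw [OnePoint.continuousAt_coe]
  exact continuousAt_id

theorem isOpen_ne_infty : IsOpen ({∞}ᶜ : Set P1) := OnePoint.isClosed_infty.isOpen_compl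

theorem rcp_ne_infty_iff {a : P1} : rcp a ≠ ∞ ↔ a ≠ ((0 : ℂ) : P1) := by
  constructor
  · rintro h rfl
    exact h rcp_zero
  · intro h h'
    apply h
    rw [← rcp_rcp a, h', rcp_infty]

end Pool.Agent.R882
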