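import Pool.Agent.R882.Sphere

/-!
The surface `abc = 1` in `P1 × P1 × P1` (the blow-up of `P1 × P1` in two points) and its charts.
-/

set_option autoImplicit false

open Filter Topology OnePoint

namespace Pool.Agent.R882

noncomputable section

/-- Homogeneous coordinates `[nm a : dn a]` of a point of the Riemann sphere. -/
def nm (a : P1) : ℂ := a.elim 1 id

/-- Homogeneous coordinates `[nm a : dn a]` of a point of the Riemann sphere. -/
def dn (a : P1) : ℂ := a.elim 0 (fun _ => 1)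

@[simp] theorem nm_infty : nm ∞ = 1 := rfl
@[simp] theorem dn_infty : dn ∞ = 0 := rfl
@[simp] theorem nm_coe (z : ℂ) : nm (z : P1) = z := rfl
@[simp] theorem dn_coe (z : ℂ) : dn (z : P1) = 1 := rfl

theorem rcp_nd (a : P1) : ∃ u : ℂ, u ≠ 0 ∧ nm (rcp a) = dn a * u ∧ dn (rcp a) = nm a * u := by
  induction a using OnePoint.rec with
  | infty => exact ⟨1, one_ne_zero, by simp, by simp⟩
  | coe z =>
    by_cases hz : z = 0
    · subst hz
      exact ⟨1, one_ne_zero, by simp, by simp⟩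
    · exact ⟨z⁻¹, inv_ne_zero hz, by simp [rcp_of_ne hz], by simp [rcp_of_ne hz, hz]⟩

/-- The equation `abc = 1` in homogeneous coordinates. -/
def Rel (q : P1 × P1 × P1) : Prop :=
  nm q.1 * nm q.2.1 * nm q.2.2 = dn q.1 * dn q.2.1 * dn q.2.2

/-- The surface `abc = 1`. -/
def X : Type := {q : P1 × P1 × P1 // Rel q}

instance : TopologicalSpace X := inferInstanceAs (TopologicalSpace {q : P1 × P1 × P1 // Rel q})
instance : T2Space X := inferInstanceAs (T2Space {q : P1 × P1 × P1 // Rel q})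

theorem rel_rot {a b c : P1} (h : Rel (a, b, c)) : Rel (b, c, a) := by
  unfold Rel at *
  simp only at *
  linear_combination h

theorem rel_rcp {a b c : P1} (h : Rel (a, b, c)) : Rel (rcp a, rcp b, rcp c) := by
  obtain ⟨u, -, h1, h2⟩ := rcp_nd a
  obtain ⟨v, -, h3, h4⟩ := rcp_nd b
  obtain ⟨w, -, h5, h6⟩ := rcp_nd c
  unfold Rel at *
  simp only at *
  rw [h1, h2, h3, h4, h5, h6]
  linear_combination -(u * v * w) * h

/-- The cyclic group of order six acting on the surface. -/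
def act3 (k : Fin 6) (q : P1 × P1 × P1) : P1 × P1 × P1 :=
  match k with
  | 0 => (q.1, q.2.1, q.2.2)
  | 1 => (rcp q.2.1, rcp q.2.2, rcp q.1)
  | 2 => (q.2.2, q.1, q.2.1)
  | 3 => (rcp q.1, rcp q.2.1, rcp q.2.2)
  | 4 => (q.2.1, q.2.2, q.1)
  | 5 => (rcp q.2.2, rcp q.1, rcp q.2.1)

theorem act3_act3 (k l : Fin 6) (q : P1 × P1 × P1) : act3 k (act3 l q) = act3 (k + l) q := by
  fin_cases k <;> fin_cases l <;> simp [act3]

theorem rel_act3 (k : Fin 6) {q : P1 × P1 × P1} (h : Rel q) : Rel (act3 k q) := by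
  obtain ⟨a, b, c⟩ := q
  fin_cases k
  · exact h
  · exact rel_rcp (rel_rot h)
  · exact rel_rot (rel_rot h)
  · exact rel_rcp h
  · exact rel_rot h
  · exact rel_rcp (rel_rot (rel_rot h))

theorem continuous_act3 (k : Fin 6) : Continuous (act3 k) := by
  have h := continuous_rcp
  have ha : Continuous fun q : P1 × P1 × P1 => q.1 := continuous_fst
  have hb : Continuous fun q : P1 × P1 × P1 => q.2.1 := continuous_fst.comp continuous_snd
  have hc : Continuous fun q : P1 × P1 × P1 => q.2.2 := continuous_snd.comp continuous_snd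
  fin_cases k
  · exact ha.prodMk (hb.prodMk hc)
  · exact (h.comp hb).prodMk ((h.comp hc).prodMk (h.comp ha))
  · exact hc.prodMk (ha.prodMk hb)
  · exact (h.comp ha).prodMk ((h.comp hb).prodMk (h.comp hc))
  · exact hb.prodMk (hc.prodMk ha)
  · exact (h.comp hc).prodMk ((h.comp ha).prodMk (h.comp hb))

/-- The cyclic group of order six acting on the surface. -/
def act (k : Fin 6) : X ≃ₜ X where
  toFun q := ⟨act3 k q.1, rel_act3 k q.2⟩
  invFun q := ⟨act3 (-k) q.1, rel_act3 (-k) q.2⟩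
  left_inv q := by
    apply Subtype.ext
    simp only [act3_act3, neg_add_cancel]
    rfl
  right_inv q := by
    apply Subtype.ext
    simp only [act3_act3, add_neg_cancel]
    rfl
  continuous_toFun := ((continuous_act3 k).comp continuous_subtype_val).subtype_mk _
  continuous_invFun := ((continuous_act3 (-k)).comp continuous_subtype_val).subtype_mk _

theorem act_apply (k : Fin 6) (q : X) : (act k q).1 = act3 k q.1 := rfl

theorem act_act_symm (k l : Fin 6) (q : X) : act l ((act k).symm q) = act (l - k) q := by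
  apply Subtype.ext
  change act3 l (act3 (-k) q.1) = act3 (l - k) q.1
  rw [act3_act3, sub_eq_add_neg]

theorem rel_mk (x y : ℂ) : Rel ((x : P1), (y : P1), rcp ((x * y : ℂ) : P1)) := by
  unfold Rel
  by_cases h : x * y = 0
  · simp [h]
  · simp only [nm_coe, dn_coe, rcp_of_ne h]
    rw [mul_inv_cancel₀ h]
    ring

/-- The chart `(a, b)`, defined where `a` and `b` are finite. -/
def e0 : OpenPartialHomeomorph X (ℂ × ℂ) where
  toFun q := (toC q.1.1, toC q.1.2.1)
  invFun z := ⟨((z.1 : P1), (z.2 : P1), rcp ((z.1 * z.2 : ℂ) : P1)), rel_mk _ _⟩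
  source := {q | q.1.1 ≠ ∞ ∧ q.1.2.1 ≠ ∞}
  target := Set.univ
  map_source' _ _ := trivial
  map_target' z _ := ⟨OnePoint.coe_ne_infty _, OnePoint.coe_ne_infty _⟩
  left_inv' := by
    rintro ⟨⟨a, b, c⟩, h⟩ ⟨ha, hb⟩
    obtain ⟨x, rfl⟩ := OnePoint.ne_infty_iff_exists.1 ha
    obtain ⟨y, rfl⟩ := OnePoint.ne_infty_iff_exists.1 hb
    apply Subtype.ext
    simp only [toC_coe, Prod.mk.injEq, true_and]
    unfold Rel at h
    simp only [nm_coe, dn_coe, one_mul] at h
    induction c using OnePoint.rec with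
    | infty =>
      simp only [nm_infty, dn_infty, mul_one] at h
      rw [h, rcp_zero]
    | coe z =>
      simp only [nm_coe, dn_coe] at h
      have hxy : x * y ≠ 0 := left_ne_zero_of_mul_eq_one h
      rw [rcp_of_ne hxy]
      congr 1
      exact (eq_inv_of_mul_eq_one_right h).symm
  right_inv' z _ := by simp
  continuousOn_toFun := by
    have h1 : ContinuousOn (fun q : X => toC q.1.1) {q | q.1.1 ≠ ∞ ∧ q.1.2.1 ≠ ∞} :=
      continuousOn_toC.comp (continuous_fst.comp continuous_subtype_val).continuousOn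
        fun q hq => hq.1
    have h2 : ContinuousOn (fun q : X => toC q.1.2.1) {q | q.1.1 ≠ ∞ ∧ q.1.2.1 ≠ ∞} :=
      continuousOn_toC.comp
        ((continuous_fst.comp continuous_snd).comp continuous_subtype_val).continuousOn
        fun q hq => hq.2
    exact h1.prodMk h2
  continuousOn_invFun := by
    refine Continuous.continuousOn (Continuous.subtype_mk ?_ _)
    refine (OnePoint.continuous_coe.comp continuous_fst).prodMk
      ((OnePoint.continuous_coe.comp continuous_snd).prodMk ?_)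
    exact continuous_rcp.comp (OnePoint.continuous_coe.comp (continuous_fst.mul continuous_snd))
  open_source := by
    have h1 : IsOpen {q : X | q.1.1 ≠ ∞} :=
      isOpen_ne_infty.preimage (continuous_fst.comp continuous_subtype_val)
    have h2 : IsOpen {q : X | q.1.2.1 ≠ ∞} :=
      isOpen_ne_infty.preimage ((continuous_fst.comp continuous_snd).comp continuous_subtype_val)
    exact h1.inter h2
  open_target := isOpen_univ

/-- The six charts of the surface. -/
def cht (k : Fin 6) : OpenPartialHomeomorph X (ℂ × ℂ) := (act k).transOpenPartialHomeomorph e0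

theorem cht_target (k : Fin 6) : (cht k).target = Set.univ := by
  simp [cht, Homeomorph.transOpenPartialHomeomorph, e0]

theorem mem_cht_source (k : Fin 6) (q : X) :
    q ∈ (cht k).source ↔ (act3 k q.1).1 ≠ ∞ ∧ (act3 k q.1).2.1 ≠ ∞ := Iff.rfl

theorem cht_apply (k : Fin 6) (q : X) :
    cht k q = (toC (act3 k q.1).1, toC (act3 k q.1).2.1) := rfl

theorem cht_symm (k : Fin 6) (z : ℂ × ℂ) : (cht k).symm z = (act k).symm (e0.symm z) := rfl

theorem e0_symm_val (z : ℂ × ℂ) :
    (e0.symm z).1 = ((z.1 : P1), (z.2 : P1), rcp ((z.1 * z.2 : ℂ) : P1)) := rfl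

/-- The transition maps. -/
def tau (m : Fin 6) (z : ℂ × ℂ) : ℂ × ℂ :=
  match m with
  | 0 => (z.1, z.2)
  | 1 => (z.2⁻¹, z.1 * z.2)
  | 2 => ((z.1 * z.2)⁻¹, z.1)
  | 3 => (z.1⁻¹, z.2⁻¹)
  | 4 => (z.2, (z.1 * z.2)⁻¹)
  | 5 => (z.1 * z.2, z.1⁻¹)

/-- The domains of the transition maps. -/
def tdom (m : Fin 6) : Set (ℂ × ℂ) :=
  match m with
  | 0 => Set.univ
  | 1 => {z | z.2 ≠ 0}
  | 2 => {z | z.1 ≠ 0 ∧ z.2 ≠ 0}
  | 3 => {z | z.1 ≠ 0 ∧ z.2 ≠ 0}
  | 4 => {z | z.1 ≠ 0 ∧ z.2 ≠ 0}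
  | 5 => {z | z.1 ≠ 0}

theorem rcp_coe_ne_infty {z : ℂ} : rcp (z : P1) ≠ ∞ ↔ z ≠ 0 := by
  rw [rcp_ne_infty_iff]
  simp

theorem toC_rcp (z : ℂ) : toC (rcp (z : P1)) = z⁻¹ := by
  by_cases h : z = 0
  · subst h; simp [toC]
  · rw [rcp_of_ne h]; rfl

theorem mem_source_trans (k l : Fin 6) (z : ℂ × ℂ) :
    (cht k).symm z ∈ (cht l).source ↔ z ∈ tdom (l - k) := by
  have h1 : act3 l ((cht k).symm z).1 = act3 (l - k) (e0.symm z).1 := by
    have := act_act_symm k l (e0.symm z)
    exact congrArg Subtype.val this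
  rw [mem_cht_source, h1, e0_symm_val]
  generalize l - k = m
  fin_cases m <;> simp [act3, tdom, rcp_coe_ne_infty, and_comm]

theorem trans_apply (k l : Fin 6) (z : ℂ × ℂ) : cht l ((cht k).symm z) = tau (l - k) z := by
  have h1 : act3 l ((cht k).symm z).1 = act3 (l - k) (e0.symm z).1 := by
    have := act_act_symm k l (e0.symm z)
    exact congrArg Subtype.val this
  rw [cht_apply, h1, e0_symm_val]
  generalize l - k = m
  fin_cases m <;> simp [act3, tau, toC_rcp]

theorem contDiffOn_tau (m : Fin 6) : ContDiffOn ℂ (⊤ : WithTop ℕ∞) (tau m) (tdom m) := by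
  have hx : ∀ s : Set (ℂ × ℂ), ContDiffOn ℂ (⊤ : WithTop ℕ∞) (fun z : ℂ × ℂ => z.1) s :=
    fun s => contDiff_fst.contDiffOn
  have hy : ∀ s : Set (ℂ × ℂ), ContDiffOn ℂ (⊤ : WithTop ℕ∞) (fun z : ℂ × ℂ => z.2) s :=
    fun s => contDiff_snd.contDiffOn
  fin_cases m
  · exact (hx _).prodMk (hy _)
  · exact ((hy _).inv fun z hz => hz).prodMk ((hx _).mul (hy _))
  · exact (((hx _).mul (hy _)).inv fun z hz => mul_ne_zero hz.1 hz.2).prodMk (hx _)
  · exact ((hx _).inv fun z hz => hz.1).prodMk ((hy _).inv fun z hz => hz.2)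
  · exact (hy _).prodMk (((hx _).mul (hy _)).inv fun z hz => mul_ne_zero hz.1 hz.2)
  · exact ((hx _).mul (hy _)).prodMk ((hx _).inv fun z hz => hz)

/-- `a` is finite and `|a| ≤ 1`. -/
def Small (a : P1) : Prop := a ≠ ∞ ∧ ‖toC a‖ ≤ 1

theorem small_or (a : P1) : Small a ∨ Small (rcp a) := by
  induction a using OnePoint.rec with
  | infty =>
    right
    exact ⟨by simp, by simp⟩
  | coe z =>
    rcases le_total ‖z‖ 1 with h | h
    · left
      exact ⟨OnePoint.coe_ne_infty _, h⟩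
    · right
      have hz : z ≠ 0 := by
        rintro rfl
        simp at h
        linarith
      refine ⟨rcp_coe_ne_infty.2 hz, ?_⟩
      rw [toC_rcp, norm_inv]
      exact inv_le_one_of_one_le₀ h

theorem exists_small (q : X) :
    ∃ k : Fin 6, q ∈ (cht k).source ∧ ‖(cht k q).1‖ ≤ 1 ∧ ‖(cht k q).2‖ ≤ 1 := by
  have key : ∃ k : Fin 6, Small (act3 k q.1).1 ∧ Small (act3 k q.1).2.1 := by
    obtain ⟨⟨a, b, c⟩, h⟩ := q
    simp only
    rcases small_or a with ha | ha <;> rcases small_or b with hb | hb <;>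
      rcases small_or c with hc | hc
    · exact ⟨0, ha, hb⟩
    · exact ⟨0, ha, hb⟩
    · exact ⟨2, hc, ha⟩
    · exact ⟨1, hb, hc⟩
    · exact ⟨4, hb, hc⟩
    · exact ⟨5, hc, ha⟩
    · exact ⟨3, ha, hb⟩
    · exact ⟨3, ha, hb⟩
  obtain ⟨k, h1, h2⟩ := key
  exact ⟨k, (mem_cht_source k q).2 ⟨h1.1, h2.1⟩, h1.2, h2.2⟩

/-- The charted space structure of the surface. -/
instance : ChartedSpace (ℂ × ℂ) X where
  atlas := Set.range cht
  chartAt q := cht (exists_small q).choose
  mem_chart_source q := (exists_small q).choose_spec.1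
  chart_mem_atlas _ := ⟨_, rfl⟩

theorem chartAt_small (q : X) :
    ‖(chartAt (ℂ × ℂ) q q).1‖ ≤ 1 ∧ ‖(chartAt (ℂ × ℂ) q q).2‖ ≤ 1 :=
  (exists_small q).choose_spec.2

open scoped Manifold ContDiff

instance : IsManifold 𝓘(ℂ, ℂ × ℂ) ω X := by
  apply isManifold_of_contDiffOn
  rintro e e' ⟨k, rfl⟩ ⟨l, rfl⟩
  have h1 : (𝓘(ℂ, ℂ × ℂ) ∘ (cht k).symm ≫ₕ cht l ∘ 𝓘(ℂ, ℂ × ℂ).symm) = tau (l - k) := by
    funext z
    exact trans_apply k l z
  have h2 : (𝓘(ℂ, ℂ × ℂ).symm ⁻¹' ((cht k).symm ≫ₕ cht l).source ∩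
      Set.range 𝓘(ℂ, ℂ × ℂ)) ⊆ tdom (l - k) := by
    rintro z ⟨hz, -⟩
    have hz' : z ∈ ((cht k).symm ≫ₕ cht l).source := hz
    rw [OpenPartialHomeomorph.trans_source] at hz'
    exact (mem_source_trans k l z).1 hz'.2
  rw [h1]
  exact (contDiffOn_tau (l - k)).mono h2

instance : CompactSpace X := by
  constructor
  have h1 : (Set.univ : Set X) = ⋃ k : Fin 6, (cht k).symm ''
      (Metric.closedBall (0 : ℂ) 1 ×ˢ Metric.closedBall (0 : ℂ) 1) := by
    symm
    rw [Set.eq_univ_iff_forall]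
    intro q
    obtain ⟨k, hk, h2, h3⟩ := exists_small q
    refine Set.mem_iUnion.2 ⟨k, cht k q, ⟨?_, ?_⟩, (cht k).left_inv hk⟩
    · simpa using h2
    · simpa using h3
  rw [h1]
  refine isCompact_iUnion fun k => ?_
  refine ((isCompact_closedBall _ _).prod (isCompact_closedBall _ _)).image_of_continuousOn ?_
  exact (cht k).continuousOn_symm.mono (by rw [cht_target]; exact Set.subset_univ _)

/-- The point `(1, 1, 1)`. -/
def one3 : X := ⟨(((1 : ℂ) : P1), ((1 : ℂ) : P1), ((1 : ℂ) : P1)), by simp [Rel]⟩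

instance : ConnectedSpace X := by
  have h1 : ∀ k : Fin 6, one3 ∈ (cht k).symm '' Set.univ := by
    intro k
    refine ⟨cht k one3, trivial, (cht k).left_inv ?_⟩
    rw [mem_cht_source]
    have h2 : rcp ((1 : ℂ) : P1) ≠ OnePoint.infty := rcp_coe_ne_infty.2 one_ne_zero
    fin_cases k <;> simp [act3, one3, h2]
  have h3 : IsPreconnected (⋃ k : Fin 6, (cht k).symm '' Set.univ) := by
    refine isPreconnected_iUnion ⟨one3, Set.mem_iInter.2 h1⟩ fun k => ?_
    exact isPreconnected_univ.image _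
      ((cht k).continuousOn_symm.mono (by rw [cht_target]))
  have h4 : (⋃ k : Fin 6, (cht k).symm '' Set.univ) = Set.univ := by
    rw [Set.eq_univ_iff_forall]
    intro q
    obtain ⟨k, hk, -⟩ := exists_small q
    exact Set.mem_iUnion.2 ⟨k, cht k q, trivial, (cht k).left_inv hk⟩
  rw [h4] at h3
  have : PreconnectedSpace X := ⟨h3⟩
  exact { toPreconnectedSpace := this, toNonempty := ⟨one3⟩ }

end

end Pool.Agent.R882
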