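import Pool.Agent.R882.TFin
import Pool.Agent.R882.COver

/-!
Images of nondegenerate complete intersections over a uniruled variety.
-/

set_option autoImplicit false
set_option linter.unusedSectionVars false
set_option linter.overlappingInstances false

open FF Module Pool.Agent.W602.GT Pool.Agent.W603.LV Pool.Agent.W619.PQ
open Pool.Agent.Y184.NT Pool.Agent.W619.TW Pool.Agent.R885 Pool.Agent.Y172

namespace Pool.Agent.R882.LT

section

variable {K : Type} [Field K] [Algebra ℂ K] {r n N M d : ℕ} {J : Type} [Fintype J] [DecidableEq J]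

/-- one of the products with the powers of a generator has a nonzero trace -/
theorem col_detect [Algebra.EssFiniteType ℂ K] (hK : Algebra.trdeg ℂ K = (n : ℕ))
    {F : IntermediateField ℂ K} [FiniteDimensional F K] {y : K}
    (hy : IntermediateField.adjoin F {y} = ⊤) {ω : (Fin n → Derivation ℂ K K) → K}
    (hne : ∀ (Z : Fin n → K), IsTranscendenceBasis ℂ Z → ∀ D0 : Fin n → Derivation ℂ K K,
      (∀ i j, D0 i (Z j) = if i = j then 1 else 0) → ω D0 ≠ 0) :
    ∃ j < Module.finrank F K, TraceNe (fun D => y ^ j * ω D) F := by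
  classical
  have hFn : Algebra.trdeg ℂ F = (n : ℕ) := Pool.Agent.Y184.NT.trdeg_below (K := K) hK
  obtain ⟨z, E, hz, hE⟩ := exists_crd (k := ℂ) (K := F) hFn
  choose E' hE' using fun i => exists_lift (k := ℂ) (K := F) (L := K) hFn (E i)
  have hzK : IsTranscendenceBasis ℂ (fun j => algebraMap F K (z j)) := hz.algebraMap_comp
  have hE'd := lift_dual hE hE'
  have hF0 : CharZero F := charZero_of_injective_algebraMap (algebraMap ℂ F).injective
  by_contra hcon
  push Not at hcon
  refine hne _ hzK E' hE'd (Pool.Agent.R882.WR.powers_zero hy fun j hj => ?_)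
  by_contra h0
  exact hcon j hj ⟨E, E', hE', h0⟩

/-- **The twisted forms.** -/
theorem exists_twisted_col (htr : Algebra.trdeg ℂ K = (n : ℕ)) {x : Fin r → K}
    (hx : ∀ i, x i ≠ 0)
    (hgen : IntermediateField.adjoin ℂ (Set.range x) = ⊤) (e : J ⊕ Fin n ≃ Fin r)
    {f : J → (Fin r → ℤ) →₀ ℂ} (hf : ∀ l, ev x (f l) = 0) (hnd : ∀ v, NonDeg ℂ f v)
    {w : Fin N → Fin r → ℤ} :
    ∃ Ω : (Fin n → Derivation ℂ K K) → K,
      (∀ (M : ℕ) (u : Fin r → ℤ), InFine f u → (∀ j, InFine f (u + (M : ℤ) • w j)) →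
        IsTwisted n M (fun j => R885.mono x (w j)) (fun D => R885.mono x u * Ω D)) ∧
      ∀ (Z : Fin n → K), IsTranscendenceBasis ℂ Z → ∀ D0 : Fin n → Derivation ℂ K K,
        (∀ i j, D0 i (Z j) = if i = j then 1 else 0) → Ω D0 ≠ 0 := by
  obtain ⟨C0, h0, hreg, hne⟩ := exists_res htr hx hgen e hf hnd
  refine ⟨Om e x f C0, fun M u hu hw => ⟨?_, ?_⟩, hne⟩
  · intro B D
    have h1 := om_pluri e x f C0 1 B D
    change Om e x f C0 (fun i => ∑ j, B i j • D j) ^ 1 = B.det ^ 1 * Om e x f C0 D ^ 1 at h1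
    change R885.mono x u * Om e x f C0 (fun i => ∑ j, B i j • D j) =
      B.det ^ 1 * (R885.mono x u * Om e x f C0 D)
    rw [pow_one, pow_one, pow_one] at h1
    rw [h1]
    ring
  · intro a ha P _ D hD
    have hfin : InFine f (u + ∑ j, (a j : ℤ) • w j) := by
      rcases Nat.eq_zero_or_pos M with hM | hM
      · have h1 : ∀ j, a j = 0 := by
          intro j
          have h2 := Finset.single_le_sum (f := a) (fun _ _ => Nat.zero_le _) (Finset.mem_univ j)
          omega
        have h2 : ∑ j, (a j : ℤ) • w j = 0 := by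
          refine Finset.sum_eq_zero fun j _ => ?_
          rw [h1, Nat.cast_zero, zero_smul]
        rw [h2, add_zero]
        exact hu
      · exact inFine_comb hM hu hw a ha
    have h1 := hreg _ hfin P D hD
    change P.Reg ((∏ j, R885.mono x (w j) ^ a j) * (R885.mono x u * Om e x f C0 D))
    rw [mono_comb hx, ← mul_assoc, mul_comm (R885.mono x _) (R885.mono x u), ← R885.mono_add hx]
    exact h1

end

end Pool.Agent.R882.LT
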