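import Pool.Agent.R882.TFin

/-!
Images of nondegenerate complete intersections with a toric boundary.
-/

set_option autoImplicit false
set_option linter.unusedSectionVars false
set_option linter.overlappingInstances false

open FF Module Pool.Agent.W602.GT Pool.Agent.W603.LV Pool.Agent.W619.PQ
open Pool.Agent.Y184.NT Pool.Agent.W619.TW Pool.Agent.R885

namespace Pool.Agent.R882.LT

section

variable {K : Type} [Field K] [Algebra ℂ K] {r n N M d : ℕ} {J : Type} [Fintype J] [DecidableEq J]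

/-- The integral vector `u` is in the Minkowski sum of the Newton polytopes, and it satisfies the
inequalities of the Fine interior for all `v` which are not in `S`. -/
def InPoly (S : Set (Fin r → ℤ)) (f : J → (Fin r → ℤ) →₀ ℂ) (u : Fin r → ℤ) : Prop :=
  ∀ v : Fin r → ℤ, v ≠ 0 → ∑ l, mn v (f l) ≤ u ⬝ᵥ v ∧ (v ∉ S → 1 + ∑ l, mn v (f l) ≤ u ⬝ᵥ v)

theorem om_log (P : Place ℂ K) {e : J ⊕ Fin n ≃ Fin r} {x : Fin r → K} (hx : ∀ i, x i ≠ 0)
    {f : J → (Fin r → ℤ) →₀ ℂ} (hf0 : ∀ l, f l ≠ 0) (hf : ∀ l, ev x (f l) = 0)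
    (hnd : NonDeg P.RF f (vec P x)) {C0 : Fin n → Fin r → ℤ}
    (h0 : dt e (fun l => gr x (f l)) C0 ≠ 0) {D : Fin n → Derivation ℂ K K}
    (hD : ∀ a, DerLog P (D a)) : Ge P (-∑ l, mn (vec P x) (f l)) (Om e x f C0 D) := by
  choose m0 hm0 hm0' using fun l => exists_mn (hf0 l) (vec P x)
  have hli := nd_place P hx hf hnd hm0'
  obtain ⟨C, hC⟩ := complete_zero hli (n := n) (by
    rw [← Fintype.card_congr e, Fintype.card_sum, Fintype.card_fin])
  obtain ⟨h1, h2⟩ := ord_dt_gr P (e := e) hx hm0' hC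
  rw [om_eq hx hf h0 h1]
  unfold Om
  have h4 : Ge P 0 (cw C fun a => lg x (D a)).det := by
    refine Pool.Agent.W619.PQ.ge_det P _ fun b a => ?_
    unfold cw
    rw [Matrix.of_apply]
    apply Ge.sum
    intro i _
    have h5 : Ge P 0 ((C b i : ℤ) : K) := reg_int P (C b i)
    have h6 : Ge P 0 (lg x (D a) i) := hD a (x i)
    simpa using h5.mul h6
  rw [div_eq_mul_inv]
  have h5 : Ge P (-∑ l, mn (vec P x) (f l)) (dt e (fun l => gr x (f l)) C)⁻¹ :=
    Or.inr (by rw [P.ord_inv, h2])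
  simpa using h4.mul h5

/-- the forms `x ^ u Res` are logarithmic -/
theorem mono_om_sec {x : Fin r → K} (hx : ∀ i, x i ≠ 0) {e : J ⊕ Fin n ≃ Fin r}
    {f : J → (Fin r → ℤ) →₀ ℂ} (hf0 : ∀ l, f l ≠ 0) (hf : ∀ l, ev x (f l) = 0)
    (hnd : ∀ v, NonDeg ℂ f v) {C0 : Fin n → Fin r → ℤ}
    (h0 : dt e (fun l => gr x (f l)) C0 ≠ 0) {S : Set (Fin r → ℤ)} {u : Fin r → ℤ}
    (hu : InPoly S f u) (P : Place ℂ K) :
    SecAt (fun P => vec P x ∈ S) P (fun D => mono x u * Om e x f C0 D) := by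
  refine ⟨fun D hD => ?_, fun hS D hD => ?_⟩
  · have h1 := om_log P hx hf0 hf (nd_ext (hnd (vec P x)) P.RF) h0 hD
    by_cases hO : Om e x f C0 D = 0
    · left
      change mono x u * Om e x f C0 D = 0
      rw [hO, mul_zero]
    right
    change 0 ≤ P.ord (mono x u * Om e x f C0 D)
    rw [P.ord_mul (mono_ne hx _) hO, ord_mono P hx]
    have h4 := h1.resolve_left hO
    by_cases hV0 : vec P x = 0
    · rw [hV0] at h4 ⊢
      rw [dotProduct_zero, zero_add]
      rwa [Finset.sum_eq_zero fun l _ => mn_zero (hf0 l), neg_zero] at h4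
    · have h3 := (hu _ hV0).1
      linarith
  · have hD' : ∀ a, Pres P (D a) := hD
    obtain ⟨h1, h2⟩ := om_ge P hx hf0 hf (nd_ext (hnd (vec P x)) P.RF) h0 hD'
    by_cases hO : Om e x f C0 D = 0
    · left
      change mono x u * Om e x f C0 D = 0
      rw [hO, mul_zero]
    right
    change 0 ≤ P.ord (mono x u * Om e x f C0 D)
    rw [P.ord_mul (mono_ne hx _) hO, ord_mono P hx]
    by_cases hV0 : vec P x = 0
    · have h3 := (h2 hV0).resolve_left hO
      rw [hV0, dotProduct_zero, zero_add]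
      exact h3
    · have h3 := (hu _ hV0).2 hS
      have h4 := h1.resolve_left hO
      linarith

/-- **The residue forms.** -/
theorem exists_log_res (htr : Algebra.trdeg ℂ K = (n : ℕ)) {x : Fin r → K} (hx : ∀ i, x i ≠ 0)
    (hgen : IntermediateField.adjoin ℂ (Set.range x) = ⊤) (e : J ⊕ Fin n ≃ Fin r)
    {f : J → (Fin r → ℤ) →₀ ℂ} (hf : ∀ l, ev x (f l) = 0) (hnd : ∀ v, NonDeg ℂ f v)
    (S : Set (Fin r → ℤ)) :
    ∃ C0 : Fin n → Fin r → ℤ, dt e (fun l => gr x (f l)) C0 ≠ 0 ∧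
      (∀ u, InPoly S f u → ∀ P : Place ℂ K,
        SecAt (fun P => vec P x ∈ S) P (fun D => R885.mono x u * Om e x f C0 D)) ∧
      ∀ (Z : Fin n → K), IsTranscendenceBasis ℂ Z → ∀ D0 : Fin n → Derivation ℂ K K,
        (∀ i j, D0 i (Z j) = if i = j then 1 else 0) → Om e x f C0 D0 ≠ 0 := by
  obtain ⟨C0, h0, -, hne⟩ := exists_res htr hx hgen e hf hnd
  have hini : ∀ g : (Fin r → ℤ) →₀ ℂ, ini 0 g = g := by
    intro g
    by_cases hg : g = 0
    · rw [hg]
      unfold ini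
      rw [Finsupp.filter_zero]
    · exact ini_zero hg
  have hf0 : ∀ l, f l ≠ 0 := by
    have h1 := nd_ext (hnd 0) K x hx fun l => by rw [hini]; exact hf l
    intro l h0
    have h2 := h1.ne_zero l
    apply h2
    rw [hini, h0]
    funext i
    unfold gr
    exact Finsupp.sum_zero_index
  exact ⟨C0, h0, fun u hu P => mono_om_sec hx hf0 hf hnd h0 hu P, hne⟩

theorem inPoly_comb {S : Set (Fin r → ℤ)} {f : J → (Fin r → ℤ) →₀ ℂ} {u : Fin r → ℤ}
    {w : Fin N → Fin r → ℤ} (hM : 0 < M) (hu : InPoly S f u)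
    (hw : ∀ j, InPoly S f (u + (M : ℤ) • w j)) (a : Fin N → ℕ)
    (ha : ∑ j, a j ≤ M) : InPoly S f (u + ∑ j, (a j : ℤ) • w j) := by
  have key : ∀ (c : ℤ) (v : Fin r → ℤ), c ≤ u ⬝ᵥ v → (∀ j, c ≤ (u + (M : ℤ) • w j) ⬝ᵥ v) →
      c ≤ (u + ∑ j, (a j : ℤ) • w j) ⬝ᵥ v := by
    intro c v h3 hc
    have h1 : ∀ j, (a j : ℤ) * c ≤ (a j : ℤ) * (u ⬝ᵥ v + (M : ℤ) * (w j ⬝ᵥ v)) := by
      intro j
      have h2 := hc j
      rw [add_dotProduct, smul_dotProduct, smul_eq_mul] at h2
      exact mul_le_mul_of_nonneg_left h2 (Int.natCast_nonneg _)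
    have h2 : ∑ j, (a j : ℤ) * c ≤ ∑ j, (a j : ℤ) * (u ⬝ᵥ v + (M : ℤ) * (w j ⬝ᵥ v)) :=
      Finset.sum_le_sum fun j _ => h1 j
    have h4 : (0 : ℤ) ≤ M - ∑ j, (a j : ℤ) := by
      have : ((∑ j, a j : ℕ) : ℤ) ≤ M := by exact_mod_cast ha
      push_cast at this
      linarith
    have h5 := mul_le_mul_of_nonneg_left h3 h4
    have h6 : (0 : ℤ) < M := by exact_mod_cast hM
    have h7 : ∑ j, (a j : ℤ) * (u ⬝ᵥ v + (M : ℤ) * (w j ⬝ᵥ v)) =
        (∑ j, (a j : ℤ)) * (u ⬝ᵥ v) + (M : ℤ) * ∑ j, (a j : ℤ) * (w j ⬝ᵥ v) := by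
      rw [Finset.sum_mul, Finset.mul_sum, ← Finset.sum_add_distrib]
      refine Finset.sum_congr rfl fun j _ => by ring
    rw [h7, ← Finset.sum_mul] at h2
    have h8 : (M : ℤ) * c ≤ (M : ℤ) * (u ⬝ᵥ v + ∑ j, (a j : ℤ) * (w j ⬝ᵥ v)) := by nlinarith
    have h9 := le_of_mul_le_mul_left h8 h6
    have h10 : (u + ∑ j, (a j : ℤ) • w j) ⬝ᵥ v = u ⬝ᵥ v + ∑ j, (a j : ℤ) * (w j ⬝ᵥ v) := by
      rw [add_dotProduct, sum_dotProduct]
      congr 1
      refine Finset.sum_congr rfl fun j _ => by rw [smul_dotProduct, smul_eq_mul]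
    rw [h10]
    exact h9
  intro v hv
  exact ⟨key _ v (hu v hv).1 fun j => (hw j v hv).1,
    fun hS => key _ v ((hu v hv).2 hS) fun j => (hw j v hv).2 hS⟩

/-- `ω` is a section of `K_V + D - M H`, where `H` is the pullback of the hyperplane class under the
map given by `1, t_1, ..., t_N`. -/
def IsTwistedLog (n M : ℕ) (BK : Place ℂ K → Prop) (t : Fin N → K)
    (ω : (Fin n → Derivation ℂ K K) → K) : Prop :=
  IsPluri 1 ω ∧ ∀ a : Fin N → ℕ, ∑ j, a j ≤ M → ∀ P : Place ℂ K, Divisorial n P →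
    SecAt BK P (fun D => (∏ j, t j ^ a j) * ω D)

theorem IsTwistedLog.reg {BK : Place ℂ K → Prop} {t : Fin N → K}
    {ω : (Fin n → Derivation ℂ K K) → K}
    (h : IsTwistedLog n M BK t ω) (g : Fin M → Fin (N + 1)) (P : Place ℂ K)
    (hP : Divisorial n P) :
    SecAt BK P (fun D => (∏ k, (Fin.cons 1 t : Fin (N + 1) → K) (g k)) * ω D) := by
  classical
  rw [prod_cons]
  refine h.2 _ ?_ P hP
  have h1 : ∑ j : Fin (N + 1), (Finset.univ.filter fun k => g k = j).card = M := by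
    rw [Finset.sum_card_fiberwise_eq_card_filter]
    simp
  rw [Fin.sum_univ_succ] at h1
  omega

/-- **The core.** -/
theorem core_log [Algebra.EssFiniteType ℂ K] (htr : Algebra.trdeg ℂ K = n) {t : Fin N → K}
    (hd : Algebra.trdeg ℂ (IntermediateField.adjoin ℂ (Set.range t)) = d)
    {L : Type} [Field L] [Algebra ℂ L] [Algebra L K] [IsScalarTower ℂ L K]
    [FiniteDimensional L K] {BK : Place ℂ K → Prop} {BL : Place ℂ L → Prop}
    (hB : ∀ (P : Place ℂ L) (Q : Place ℂ K) (e : ℕ), Over Q P e → BK Q → BL P)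
    {F : IntermediateField ℂ K}
    (hF : F = (IntermediateField.adjoin L (Set.range t)).restrictScalars ℂ)
    {ω : (Fin n → Derivation ℂ K K) → K} (hω : IsTwistedLog n M BK t ω) (htn : TraceNe ω F) :
    (Module.finrank L (IntermediateField.adjoin L (Set.range t)) ≤ M + 1 →
      ∃ η : (Fin n → Derivation ℂ L L) → L, IsPluri 1 η ∧
        (∀ P : Place ℂ L, Divisorial n P → SecAt BL P η) ∧ ∃ D, η D ≠ 0) ∧
    (2 * Module.finrank L (IntermediateField.adjoin L (Set.range t)) ≤ M + 1 →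
      Pool.Agent.W619.Y.KodTrB ℂ L n BL d) := by
  classical
  have hessL : Algebra.EssFiniteType ℂ L := Pool.Agent.TH466.QG.ess_below (K := K)
  have hL : Algebra.trdeg ℂ L = n := Pool.Agent.Y184.NT.trdeg_below (K := K) htr
  obtain ⟨z, E, hz, hE⟩ := Pool.Agent.Y172.exists_crd (k := ℂ) (K := L) hL
  choose E' hE' using fun i => Pool.Agent.Y172.exists_lift (k := ℂ) (K := L) (L := K) hL (E i)
  have hzK : IsTranscendenceBasis ℂ (fun j => algebraMap L K (z j)) := hz.algebraMap_comp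
  have hE'd := Pool.Agent.Y172.lift_dual hE hE'
  obtain ⟨x, hx⟩ : ∃ x : Fin (N + 1) → K, x = Fin.cons 1 t := ⟨_, rfl⟩
  have hx0 : x 0 = 1 := by rw [hx, Fin.cons_zero]
  have hrange : Set.range x = insert 1 (Set.range t) := by
    rw [hx, Fin.range_cons]
  have hadj : IntermediateField.adjoin L (Set.range x) =
      IntermediateField.adjoin L (Set.range t) := by
    rw [hrange]
    apply le_antisymm
    · rw [IntermediateField.adjoin_le_iff]
      rintro y (rfl | hy)
      · exact one_mem _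
      · exact IntermediateField.subset_adjoin _ _ hy
    · exact IntermediateField.adjoin.mono _ _ _ (Set.subset_insert _ _)
  have hadjC : IntermediateField.adjoin ℂ (Set.range x) =
      IntermediateField.adjoin ℂ (Set.range t) := by
    rw [hrange]
    apply le_antisymm
    · rw [IntermediateField.adjoin_le_iff]
      rintro y (rfl | hy)
      · exact one_mem _
      · exact IntermediateField.subset_adjoin _ _ hy
    · exact IntermediateField.adjoin.mono _ _ _ (Set.subset_insert _ _)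
  rw [← hadj] at hF ⊢
  rw [← hadjC] at hd
  have hLF : ∀ f : L, algebraMap L K f ∈ F := by
    intro f
    rw [hF]
    exact (IntermediateField.adjoin L (Set.range x)).algebraMap_mem f
  have hne : Algebra.trace (IntermediateField.adjoin L (Set.range x)) K (ω E') ≠ 0 := by
    obtain ⟨D, D', hD, htr'⟩ := htn
    intro h0
    apply htr'
    have h1 : Algebra.trace F K (ω E') = 0 := by
      subst hF
      have h2 : ((Algebra.trace (IntermediateField.adjoin L (Set.range x)) K (ω E') :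
          IntermediateField.adjoin L (Set.range x)) : K) = 0 := by
        rw [h0]
        rfl
      apply Subtype.ext
      exact h2
    obtain ⟨δ, hδ⟩ : ∃ δ : F, δ = (Matrix.of fun i j => D i ⟨algebraMap L K (z j), hLF _⟩ :
      Matrix (Fin n) (Fin n) F).det := ⟨_, rfl⟩
    have h2 : ω D' = δ • ω E' := by
      rw [Pool.Agent.Y172.pluri_coord hzK hE'd hω.1 D', pow_one, Algebra.smul_def, hδ,
        RingHom.map_det]
      congr 1
      congr 1
      ext i j
      rw [RingHom.mapMatrix_apply, Matrix.map_apply, Matrix.of_apply, Matrix.of_apply]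
      exact hD i ⟨algebraMap L K (z j), hLF _⟩
    rw [h2, map_smul, h1, smul_zero]
  have hreg : ∀ (g : Fin M → Fin (N + 1)) (P : Place ℂ K), Divisorial n P →
      SecAt BK P (fun D => (∏ k, x (g k)) * ω D) := by
    intro g P hP
    rw [hx]
    exact hω.reg g P hP
  refine ⟨fun hdeg => ?_, fun hdeg => ?_⟩
  · by_contra hcon
    push Not at hcon
    exact hne (trace_zero hL hB (fun η hη hηr D => hcon η hη hηr D) hx0 hω.1 hreg hz hE hE' hdeg)
  · exact kod_of hL hB hx0 hω.1 hreg hd hz hE hE' hdeg hne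

theorem kodGe_log {L : Type} [Field L] [Algebra ℂ L] {n d : ℕ} {BL : Place ℂ L → Prop}
    (h : Pool.Agent.W619.Y.KodTrB ℂ L n BL d) : Pool.Agent.W602.GT.KodGe ℂ L n BL d := by
  obtain ⟨m, hm, ω, hω, D, hD, hind⟩ := h
  refine ⟨m, hm, ω, fun j => ?_, D, hD 0, hind⟩
  have hdom : ∀ (P : Place ℂ L) (g : L), Dom P {1} 0 g → P.Reg g := by
    intro P g hg
    rcases hg with h1 | ⟨s, hs, hs0, h1⟩
    · exact Or.inl h1
    · right
      rw [Nat.cast_zero, zero_mul] at h1
      exact h1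
  have hreg : ∀ P : Place ℂ L, Divisorial n P → ¬ BL P → RegAt P (ω j) :=
    fun P hP hB E hE => hdom P _ ((hω j).2.1 P hP hB E fun i => hE i)
  refine ⟨(hω j).1, fun P hP E hE => ?_, hreg⟩
  by_cases hB : BL P
  · exact hdom P _ ((hω j).2.2 P hP hB E fun i => hE i)
  · exact hreg P hP hB E fun i => Pool.Agent.TH466.QG.derReg_of_log (hE i)

end

end Pool.Agent.R882.LT
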