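import Pool.Agent.R882.TCol
import Pool.Agent.R882.TLog
import Pool.Agent.R882.LDet

/-!
Images of nondegenerate pairs with toric boundary over an `A¹`-ruled variety.
-/

set_option autoImplicit false
set_option linter.unusedSectionVars false
set_option linter.overlappingInstances false
set_option maxHeartbeats 4000000
set_option synthInstance.maxHeartbeats 400000

open FF Module Pool.Agent.W602.GT Pool.Agent.W603.LV Pool.Agent.W619.PQ
open Pool.Agent.Y184.NT Pool.Agent.W619.TW Pool.Agent.R885 Pool.Agent.Y172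

namespace Pool.Agent.R882.LT

section

variable {K : Type} [Field K] [Algebra ℂ K] {r n N M d : ℕ} {J : Type} [Fintype J] [DecidableEq J]

/-- **The twisted logarithmic forms.** -/
theorem exists_twisted_col_log (htr : Algebra.trdeg ℂ K = (n : ℕ)) {x : Fin r → K}
    (hx : ∀ i, x i ≠ 0)
    (hgen : IntermediateField.adjoin ℂ (Set.range x) = ⊤) (e : J ⊕ Fin n ≃ Fin r)
    {f : J → (Fin r → ℤ) →₀ ℂ} (hf : ∀ l, ev x (f l) = 0) (hnd : ∀ v, NonDeg ℂ f v)
    (S : Set (Fin r → ℤ)) {w : Fin N → Fin r → ℤ} :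
    ∃ Ω : (Fin n → Derivation ℂ K K) → K,
      (∀ (M : ℕ) (u : Fin r → ℤ), InPoly S f u → (∀ j, InPoly S f (u + (M : ℤ) • w j)) →
        IsTwistedLog n M (fun P => vec P x ∈ S) (fun j => R885.mono x (w j))
          (fun D => R885.mono x u * Ω D)) ∧
      ∀ (Z : Fin n → K), IsTranscendenceBasis ℂ Z → ∀ D0 : Fin n → Derivation ℂ K K,
        (∀ i j, D0 i (Z j) = if i = j then 1 else 0) → Ω D0 ≠ 0 := by
  obtain ⟨C0, h0, hsec, hne⟩ := exists_log_res htr hx hgen e hf hnd S
  refine ⟨Om e x f C0, fun M u hu hw => ⟨?_, ?_⟩, hne⟩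
  · intro B D
    have h1 := om_pluri e x f C0 1 B D
    change Om e x f C0 (fun i => ∑ j, B i j • D j) ^ 1 = B.det ^ 1 * Om e x f C0 D ^ 1 at h1
    change R885.mono x u * Om e x f C0 (fun i => ∑ j, B i j • D j) =
      B.det ^ 1 * (R885.mono x u * Om e x f C0 D)
    rw [pow_one, pow_one, pow_one] at h1
    rw [h1]
    ring
  · intro a ha P _
    have hfin : InPoly S f (u + ∑ j, (a j : ℤ) • w j) := by
      rcases Nat.eq_zero_or_pos M with hM | hM
      · have h1 : ∀ j, a j = 0 := by
          intro j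
          have h2 := Finset.single_le_sum (f := a) (fun _ _ => Nat.zero_le _) (Finset.mem_univ j)
          omega
        have h2 : ∑ j, (a j : ℤ) • w j = 0 := by
          refine Finset.sum_eq_zero fun j _ => ?_
          rw [h1, Nat.cast_zero, zero_smul]
        rw [h2, add_zero]
        exact hu
      · exact inPoly_comb hM hu hw a ha
    have h1 := hsec _ hfin P
    have h2 : (fun D : Fin n → Derivation ℂ K K => (∏ j, R885.mono x (w j) ^ a j) *
        (R885.mono x u * Om e x f C0 D)) =
        fun D => R885.mono x (u + ∑ j, (a j : ℤ) • w j) * Om e x f C0 D := by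
      funext D
      rw [mono_comb hx, ← mul_assoc, mul_comm (R885.mono x _) (R885.mono x u), ← R885.mono_add hx]
    rw [h2]
    exact h1

/-- columns in the polytope give `PositiveL` -/
theorem col_positive_log {n q N : ℕ} {f : Fin q → (Fin (n + q) → ℤ) →₀ ℂ}
    (hf : ∀ v : Fin (n + q) → ℤ, ∀ c : Fin (n + q) → ℂ, (∀ i, c i ≠ 0) →
      (∀ l, ev c (ini v (f l)) = 0) → LinearIndependent ℂ fun l => gr c (ini v (f l)))
    {K : Type} [Field K] [Algebra ℂ K] {x : Fin (n + q) → K}
    (hx0 : ∀ i, x i ≠ 0) (hev : ∀ l, ev x (f l) = 0)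
    (hgen : IntermediateField.adjoin ℂ (Set.range x) = ⊤) (hK : Algebra.trdeg ℂ K = (n : ℕ))
    (S : Set (Fin (n + q) → ℤ))
    {v : Fin (n + q) → ℤ} {w : Fin N → Fin (n + q) → ℤ} {t : Fin N → K}
    (ht : ∀ l, t l = R885.mono x (w l))
    [FiniteDimensional (IntermediateField.adjoin ℂ (Set.range t)) K]
    (hy : IntermediateField.adjoin (IntermediateField.adjoin ℂ (Set.range t))
      {R885.mono x v} = ⊤) :
    Pool.Agent.R882.Over.IsBase n (Fin.cons 1 t : Fin (N + 1) → K) ∧
    IntermediateField.adjoin ℂ (Set.range (Fin.cons 1 t : Fin (N + 1) → K)) =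
      IntermediateField.adjoin ℂ (Set.range t) ∧
    ∀ r : ℕ, (∀ c : ℕ, c ∣ Module.finrank (IntermediateField.adjoin ℂ (Set.range t)) K →
        c < Module.finrank (IntermediateField.adjoin ℂ (Set.range t)) K →
        ∃ (M : ℕ) (u : Fin (n + q) → ℤ), r ≤ c * (M + 1) ∧
          ∀ j < c, InPoly S f (u + (j : ℤ) • v) ∧
            ∀ l, InPoly S f (u + (j : ℤ) • v + (M : ℤ) • w l)) →
      PositiveL n (fun P => vec P x ∈ S) (Fin.cons 1 t : Fin (N + 1) → K) r := by
  classical
  have hess : Algebra.EssFiniteType ℂ K := by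
    rw [← IntermediateField.fg_top_iff, ← hgen]
    exact ⟨Finset.univ.image x, by rw [Finset.coe_image, Finset.coe_univ, Set.image_univ]⟩
  have e : Fin q ⊕ Fin n ≃ Fin (n + q) := Fintype.equivOfCardEq (by
    rw [Fintype.card_sum, Fintype.card_fin, Fintype.card_fin, Fintype.card_fin, add_comm])
  obtain ⟨Ω, hΩ, hne⟩ := exists_twisted_col_log (w := w) hK hx0 hgen e hev
    (fun v => hf v) S
  have htE : t = fun l => R885.mono x (w l) := funext ht
  rw [← htE] at hΩ
  have hrange : Set.range (Fin.cons 1 t : Fin (N + 1) → K) = insert 1 (Set.range t) := by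
    rw [Fin.range_cons]
  have hadj : IntermediateField.adjoin ℂ (Set.range (Fin.cons 1 t : Fin (N + 1) → K)) =
      IntermediateField.adjoin ℂ (Set.range t) := by
    rw [hrange]
    apply le_antisymm
    · rw [IntermediateField.adjoin_le_iff]
      rintro g (rfl | hg)
      · exact one_mem _
      · exact IntermediateField.subset_adjoin _ _ hg
    · exact IntermediateField.adjoin.mono _ _ _ (Set.subset_insert _ _)
  have hbase : Pool.Agent.R882.Over.IsBase n (Fin.cons 1 t : Fin (N + 1) → K) := by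
    refine ⟨hess, hK, ⟨0, Fin.cons_zero _ _⟩, ?_⟩
    rw [hadj]
    infer_instance
  refine ⟨hbase, hadj, fun r hcol F hF => ?_⟩
  rw [hadj] at hF
  -- the codegree
  let i1 : Algebra (IntermediateField.adjoin ℂ (Set.range t)) F :=
    (IntermediateField.inclusion hF.le).toRingHom.toAlgebra
  have i2 : IsScalarTower (IntermediateField.adjoin ℂ (Set.range t)) F K :=
    IsScalarTower.of_algebraMap_eq fun g => rfl
  have i3 : FiniteDimensional F K :=
    Module.Finite.of_restrictScalars_finite (IntermediateField.adjoin ℂ (Set.range t)) F K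
  have i4 : Module.Free (IntermediateField.adjoin ℂ (Set.range t)) F :=
    Module.Free.of_divisionRing _ _
  have i5 : Module.Free F K := Module.Free.of_divisionRing _ _
  have hmul := Module.finrank_mul_finrank (IntermediateField.adjoin ℂ (Set.range t)) F K
  have hpos2 : 0 < Module.finrank F K := Module.finrank_pos
  have hpos3 : 0 < Module.finrank (IntermediateField.adjoin ℂ (Set.range t)) K :=
    Module.finrank_pos
  have hdvd : Module.finrank F K ∣
      Module.finrank (IntermediateField.adjoin ℂ (Set.range t)) K := Dvd.intro_left _ hmul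
  have hlt : Module.finrank F K <
      Module.finrank (IntermediateField.adjoin ℂ (Set.range t)) K := by
    refine lt_of_le_of_ne (Nat.le_of_dvd hpos3 hdvd) fun h => ?_
    exact hF.ne (IntermediateField.eq_of_le_of_finrank_eq' hF.le h.symm)
  obtain ⟨M, u, hr, hcol'⟩ := hcol _ hdvd hlt
  refine ⟨M, hr, ?_⟩
  have hyF : IntermediateField.adjoin F {R885.mono x v} = ⊤ := by
    rw [eq_top_iff]
    intro g _
    have h1 : g ∈ IntermediateField.adjoin (IntermediateField.adjoin ℂ (Set.range t))
        {R885.mono x v} := by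
      rw [hy]
      trivial
    have hle : (IntermediateField.adjoin (IntermediateField.adjoin ℂ (Set.range t))
        {R885.mono x v}).toSubfield ≤
        (IntermediateField.adjoin F {R885.mono x v}).toSubfield := by
      change Subfield.closure _ ≤ _
      rw [Subfield.closure_le]
      rintro z (⟨c, rfl⟩ | hz)
      · exact (IntermediateField.adjoin F {R885.mono x v}).algebraMap_mem
          (⟨c, hF.le c.2⟩ : F)
      · rw [Set.mem_singleton_iff.mp hz]
        exact IntermediateField.mem_adjoin_simple_self _ _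
    exact hle h1
  obtain ⟨j, hj, D, D', hD, htr⟩ := Pool.Agent.R882.LT.col_detect (F := F) (y := R885.mono x v)
    (ω := fun D => R885.mono x u * Ω D) hK hyF
    (fun Z hZ D0 hD0 => mul_ne_zero (R885.mono_ne hx0 _) (hne Z hZ D0 hD0))
  have hform : (fun D : Fin n → Derivation ℂ K K => R885.mono x v ^ j *
      (R885.mono x u * Ω D)) = fun D => R885.mono x (u + (j : ℤ) • v) * Ω D := by
    funext D
    rw [R885.mono_add hx0, R885.mono_zsmul, zpow_natCast]
    ring
  obtain ⟨h1, h2⟩ := hcol' j hj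
  have h3 := hΩ M _ h1 h2
  refine ⟨fun D => R885.mono x v ^ j * (R885.mono x u * Ω D), ?_, fun g P hP => ?_,
    D, D', hD, htr⟩
  · rw [hform]
    exact h3.1
  · have h4 := h3.reg g P hP
    have h5 : ∀ D : Fin n → Derivation ℂ K K, R885.mono x v ^ j * (R885.mono x u * Ω D) =
        R885.mono x (u + (j : ℤ) • v) * Ω D := fun D => congrFun hform D
    simp only [h5]
    exact h4

/-- the base is `A¹`-ruled -/
theorem a1Ruled_torus {m : ℕ} {K : Type} [Field K] [Algebra ℂ K] {x : Fin m → K}
    (hx0 : ∀ i, x i ≠ 0) (hK : Algebra.trdeg ℂ K = (n : ℕ))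
    (S : Set (Fin m → ℤ)) {w : Fin n → Fin m → ℤ} {t : Fin n → K}
    (ht : ∀ l, t l = R885.mono x (w l))
    [FiniteDimensional (IntermediateField.adjoin ℂ (Set.range t)) K] {l0 : Fin n}
    (hS : ∀ c ∈ S, (∀ l, l ≠ l0 → w l ⬝ᵥ c = 0) → w l0 ⬝ᵥ c < 0)
    {E : IntermediateField ℂ K} (hE : E = IntermediateField.adjoin ℂ (Set.range t)) :
    ∃ BE : Place ℂ E → Prop, A1Ruled BE ∧
      ∀ (P : Place ℂ E) (Q : Place ℂ K) (e : ℕ), Over Q P e → vec Q x ∈ S → BE P := by
  classical
  have htE : ∀ j, t j ∈ E := fun j => by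
    rw [hE]
    exact IntermediateField.subset_adjoin ℂ _ ⟨j, rfl⟩
  obtain ⟨f, hf⟩ : ∃ f : Fin n → E, ∀ j, (f j : K) = t j := ⟨fun j => ⟨t j, htE j⟩, fun _ => rfl⟩
  have hfK : E.val ∘ f = t := funext hf
  have hind : AlgebraicIndependent ℂ t := by
    have h2 : ∀ τ : K, IsAlgebraic (IntermediateField.adjoin ℂ (Set.range t)) τ := fun τ =>
      (Algebra.IsIntegral.isIntegral τ).isAlgebraic
    have h3 := Pool.Agent.W619.PQ.alg_adjoin h2
    exact (Algebra.IsAlgebraic.isTranscendenceBasis_of_lift_le_trdeg_of_finite ℂ t (by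
      rw [hK]
      simp)).1
  have hgenE : IntermediateField.adjoin ℂ (Set.range f) = ⊤ := by
    apply IntermediateField.map_injective E.val
    rw [IntermediateField.adjoin_map, ← Set.range_comp, hfK, ← hE,
      ← AlgHom.fieldRange_eq_map, IntermediateField.fieldRange_val]
  have hfind : AlgebraicIndependent ℂ f := by
    rw [← AlgHom.algebraicIndependent_iff E.val Subtype.val_injective, hfK]
    exact hind
  have hfbas : IsTranscendenceBasis ℂ f := by
    rw [hfind.isTranscendenceBasis_iff_isAlgebraic]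
    have h2 : ∀ τ : E, IsAlgebraic (IntermediateField.adjoin ℂ (Set.range f)) τ := by
      intro τ
      rw [hgenE]
      exact isAlgebraic_algebraMap (⟨τ, IntermediateField.mem_top⟩ : (⊤ : IntermediateField ℂ E))
    exact Pool.Agent.W619.PQ.alg_adjoin h2
  have hf0 : ∀ j, f j ≠ 0 := by
    intro j h
    have h1 := hf j
    rw [h] at h1
    have h2 : R885.mono x (w j) ≠ 0 := R885.mono_ne hx0 _
    rw [← ht, ← h1] at h2
    exact h2 rfl
  obtain ⟨δ, hδ⟩ := Pool.Agent.W602.GT.exists_der f hfbas (fun j => if j = l0 then f l0 else 0)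
  obtain ⟨M, hM⟩ : ∃ M : IntermediateField ℂ E, M = IntermediateField.adjoin ℂ (f '' {l0}ᶜ) :=
    ⟨_, rfl⟩
  have hMc : M ≤ consts δ := by
    rw [hM, IntermediateField.adjoin_le_iff]
    rintro _ ⟨j, hj, rfl⟩
    change δ (f j) = 0
    have hj' : j ≠ l0 := hj
    rw [hδ, if_neg hj']
  refine ⟨fun P => ∃ (Q : Place ℂ K) (e : ℕ), Over Q P e ∧ vec Q x ∈ S,
    ⟨δ, f l0, M, hf0 _, by rw [hδ, if_pos rfl], ?_, hMc, ?_, ?_⟩,
    fun P Q e hQ hoff => ⟨Q, e, hQ, hoff⟩⟩
  · rw [hM]
    exact IntermediateField.fg_adjoin_of_finite ((Set.toFinite _).image f)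
  · rw [eq_top_iff]
    intro y _
    have hy : y ∈ IntermediateField.adjoin ℂ (Set.range f) := by
      rw [hgenE]
      trivial
    have hle : IntermediateField.adjoin ℂ (Set.range f) ≤
        (IntermediateField.adjoin M {f l0}).restrictScalars ℂ := by
      rw [IntermediateField.adjoin_le_iff]
      rintro _ ⟨j, rfl⟩
      by_cases hj : j = l0
      · rw [hj]
        exact IntermediateField.mem_adjoin_simple_self M _
      · have h2 : f j ∈ M := by
          rw [hM]
          exact IntermediateField.subset_adjoin ℂ _ ⟨j, hj, rfl⟩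
        exact (IntermediateField.adjoin M {f l0}).algebraMap_mem (⟨f j, h2⟩ : M)
    exact hle hy
  · rintro P hP hPσ ⟨Q, e, hQ, hoff⟩
    have hord : ∀ j, w j ⬝ᵥ vec Q x = e * P.ord (f j) := by
      intro j
      rw [← R885.ord_mono Q hx0, ← ht, ← hf]
      exact hQ.2 (f j)
    have h1 := hS _ hoff fun l hl => by
      rw [hord, hP (f l) (by rw [hδ, if_neg hl]) (hf0 l), mul_zero]
    rw [hord] at h1
    have h2 : (0 : ℤ) ≤ (e : ℤ) * P.ord (f l0) := by positivity
    omega

end

end Pool.Agent.R882.LT
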