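import Pool.Agent.R882.TLog

/-!
Correspondences with nondegenerate complete intersections.
-/

set_option autoImplicit false
set_option linter.unusedSectionVars false
set_option linter.overlappingInstances false

open FF Module Pool.Agent.W602.GT Pool.Agent.W603.LV Pool.Agent.W619.PQ
open Pool.Agent.Y184.NT Pool.Agent.W619.TW Pool.Agent.R885 Pool.Agent.Y172

namespace Pool.Agent.R882.LT

section

variable {K G : Type} [Field K] [Field G] [Algebra ℂ K] [Algebra ℂ G] [Algebra K G]
  [IsScalarTower ℂ K G] [FiniteDimensional K G] [Algebra.EssFiniteType ℂ K] {n N M d : ℕ}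

/-- the pullback of a form -/
noncomputable def pull (z : Fin n → K) (E : Fin n → Derivation ℂ K K)
    (ω : (Fin n → Derivation ℂ K K) → K) (D : Fin n → Derivation ℂ G G) : G :=
  (Matrix.of fun i j => D i (algebraMap K G (z j))).det * algebraMap K G (ω E)

theorem pull_pluri (z : Fin n → K) (E : Fin n → Derivation ℂ K K)
    (ω : (Fin n → Derivation ℂ K K) → K) : IsPluri 1 (pull (G := G) z E ω) := by
  intro A D
  unfold pull
  have h1 : (Matrix.of fun i j => (∑ k, A i k • D k) (algebraMap K G (z j))) =
      A * Matrix.of fun i j => D i (algebraMap K G (z j)) := by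
    ext i j
    rw [Matrix.mul_apply, Matrix.of_apply]
    have h2 : ∀ (s : Finset (Fin n)) (y : G), (∑ k ∈ s, A i k • D k) y =
        ∑ k ∈ s, A i k * D k y := by
      intro s y
      induction s using Finset.induction_on with
      | empty => simp
      | insert a s ha ih =>
        rw [Finset.sum_insert ha, Finset.sum_insert ha, Derivation.add_apply, ih,
          Derivation.smul_apply, smul_eq_mul]
    exact h2 _ _
  rw [h1, Matrix.det_mul, pow_one, mul_assoc]

theorem pull_mul (z : Fin n → K) (E : Fin n → Derivation ℂ K K)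
    (ω : (Fin n → Derivation ℂ K K) → K) (c : K) (D : Fin n → Derivation ℂ G G) :
    pull z E (fun D => c * ω D) D = algebraMap K G c * pull z E ω D := by
  unfold pull
  rw [map_mul]
  ring

theorem pull_sec (hn : Algebra.trdeg ℂ K = n) {z : Fin n → K} {E : Fin n → Derivation ℂ K K}
    (hz : IsTranscendenceBasis ℂ z) (hE : ∀ i j, E i (z j) = if i = j then 1 else 0)
    {ω : (Fin n → Derivation ℂ K K) → K} (hω : IsPluri 1 ω) {P : Place ℂ K} {Q : Place ℂ G}
    {e : ℕ} (h : Over Q P e) (hP : Divisorial n P) {BK : Place ℂ K → Prop}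
    {BG : Place ℂ G → Prop} (hB : BK P → BG Q) (hs : SecAt BK P ω) :
    SecAt BG Q (pull (G := G) z E ω) := by
  classical
  obtain ⟨y, F, i0, hl⟩ := exists_loc hn hP
  have hch : ∀ D : Fin n → Derivation ℂ G G, pull z E ω D =
      (Matrix.of fun i j => D i (algebraMap K G (y j))).det * algebraMap K G (ω F) := by
    intro D
    have h1 := Pool.Agent.W73.PG.PULL.form_eq (L := G) z y hz hl.bas E F hE hl.dual ω hω D
    rw [pow_one, pow_one] at h1
    exact h1
  refine ⟨fun D hD => ?_, fun hBQ D hD => ?_⟩
  · rw [hch]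
    have h1 := pull_log h hl hD (m := 1) hω (b := 0) (hs.1 _ fun i => hl.log i)
    rw [pow_one, mul_zero] at h1
    exact h1
  · rw [hch]
    have hreg := hs.2 fun hBP => hBQ (hB hBP)
    have h1 := pull_reg h hl hD (m := 1) (ω := ω) (b := 0) (hreg _ fun i => hl.pres i)
    rw [pow_one, mul_zero, add_zero] at h1
    refine h1.mono ?_
    have := h.1
    push_cast
    omega

/-- **Pullbacks of twisted forms.** -/
theorem pull_twisted (hn : Algebra.trdeg ℂ K = n) {z : Fin n → K}
    {E : Fin n → Derivation ℂ K K} (hz : IsTranscendenceBasis ℂ z)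
    (hE : ∀ i j, E i (z j) = if i = j then 1 else 0) {BK : Place ℂ K → Prop}
    {BG : Place ℂ G → Prop}
    (hB : ∀ (P : Place ℂ K) (Q : Place ℂ G) (e : ℕ), Over Q P e → BK P → BG Q) {t : Fin N → K}
    {ω : (Fin n → Derivation ℂ K K) → K} (hω : IsTwistedLog n M BK t ω) :
    IsTwistedLog n M BG (fun j => algebraMap K G (t j)) (pull (G := G) z E ω) := by
  refine ⟨pull_pluri z E ω, fun a ha Q hQ => ?_⟩
  obtain ⟨P, e, hPQ⟩ := Pool.Agent.Y172.exists_below (K := K) Q
  have hP : Divisorial n P := divisorial_down hPQ hQ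
  have h1 := pull_sec hn hz hE (ω := fun D => (∏ j, t j ^ a j) * ω D) (fun B D => by
    have h2 := hω.1 B D
    change (∏ j, t j ^ a j) * ω _ = _ * ((∏ j, t j ^ a j) * ω D)
    rw [h2]
    ring) hPQ hP (hB P Q e hPQ) (hω.2 a ha P hP)
  have h2 : (fun D : Fin n → Derivation ℂ G G => (∏ j, algebraMap K G (t j) ^ a j) *
      pull z E ω D) = pull z E (fun D => (∏ j, t j ^ a j) * ω D) := by
    funext D
    rw [pull_mul, map_prod]
    simp only [map_pow]
  rw [h2]
  exact h1

/-- the trace of a pullback is not zero on the varieties over `V` -/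
theorem pull_trace (hn : Algebra.trdeg ℂ K = n) {z : Fin n → K}
    {E : Fin n → Derivation ℂ K K}
    (hE : ∀ i j, E i (z j) = if i = j then 1 else 0) {ω : (Fin n → Derivation ℂ K K) → K}
    (hne : ω E ≠ 0) {F : IntermediateField ℂ G} (hF : ∀ g : K, algebraMap K G g ∈ F) :
    TraceNe (pull (G := G) z E ω) F := by
  classical
  let ψ : K →+* F := (algebraMap K G).codRestrict F.toSubfield hF
  let _ : Algebra K F := ψ.toAlgebra
  have t1 : IsScalarTower K F G := IsScalarTower.of_algebraMap_eq fun c => rfl
  have t2 : IsScalarTower ℂ K F := IsScalarTower.of_algebraMap_eq fun c => by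
    apply Subtype.ext
    change algebraMap ℂ G c = algebraMap K G (algebraMap ℂ K c)
    exact IsScalarTower.algebraMap_apply ℂ K G c
  have hfd : FiniteDimensional K F :=
    FiniteDimensional.of_injective (IsScalarTower.toAlgHom K F G).toLinearMap
      Subtype.val_injective
  have hfG : FiniteDimensional F G := Module.Finite.of_restrictScalars_finite K F G
  choose D hD using fun i => Pool.Agent.Y172.exists_lift (k := ℂ) (K := K) (L := F) hn (E i)
  have hFn : Algebra.trdeg ℂ F = n := Pool.Agent.Y172.trdeg_up (K := K) hn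
  choose D' hD' using fun i => Pool.Agent.Y172.exists_lift (k := ℂ) (K := F) (L := G) hFn (D i)
  refine ⟨D, D', hD', ?_⟩
  have h1 : pull (G := G) z E ω D' = algebraMap F G (ψ (ω E)) := by
    unfold pull
    have h2 : (Matrix.of fun i j => D' i (algebraMap K G (z j))) = 1 := by
      ext i j
      rw [Matrix.of_apply, Matrix.one_apply]
      have h3 : algebraMap K G (z j) = algebraMap F G (algebraMap K F (z j)) :=
        IsScalarTower.algebraMap_apply K F G _
      rw [h3, hD', hD, hE]
      split_ifs
      · rw [map_one, map_one]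
      · rw [map_zero, map_zero]
    rw [h2, Matrix.det_one, one_mul]
    rfl
  rw [h1, Algebra.trace_algebraMap, nsmul_eq_mul]
  refine mul_ne_zero ?_ ?_
  · have h2 : 0 < Module.finrank F G := Module.finrank_pos
    exact_mod_cast h2.ne'
  · exact (map_ne_zero ψ).2 hne

end

end Pool.Agent.R882.LT
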