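import Pool.Agent.R882.TCore
import Pool.Agent.R885.Cv

/-!
Images of nondegenerate complete intersections: Kodaira dimension and numerical dimension.
-/

set_option autoImplicit false
set_option linter.unusedSectionVars false
set_option linter.overlappingInstances false

open FF Module Pool.Agent.W602.GT Pool.Agent.W603.LV Pool.Agent.W619.PQ
open Pool.Agent.Y184.NT Pool.Agent.W619.TW Pool.Agent.R885

namespace Pool.Agent.R882.LT

section

variable {K : Type} [Field K] [Algebra ℂ K] {r n N M d : ℕ} {J : Type} [Fintype J] [DecidableEq J]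

theorem inFine_comb {f : J → (Fin r → ℤ) →₀ ℂ} {u : Fin r → ℤ} {w : Fin N → Fin r → ℤ}
    (hM : 0 < M) (hu : InFine f u) (hw : ∀ j, InFine f (u + (M : ℤ) • w j)) (a : Fin N → ℕ)
    (ha : ∑ j, a j ≤ M) : InFine f (u + ∑ j, (a j : ℤ) • w j) := by
  intro v hv
  have h1 : ∀ j, (a j : ℤ) * (1 + ∑ l, mn v (f l)) ≤
      (a j : ℤ) * (u ⬝ᵥ v + (M : ℤ) * (w j ⬝ᵥ v)) := by
    intro j
    have h2 := hw j v hv
    rw [add_dotProduct, smul_dotProduct, smul_eq_mul] at h2
    exact mul_le_mul_of_nonneg_left h2 (Int.natCast_nonneg _)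
  have h2 : ∑ j, (a j : ℤ) * (1 + ∑ l, mn v (f l)) ≤
      ∑ j, (a j : ℤ) * (u ⬝ᵥ v + (M : ℤ) * (w j ⬝ᵥ v)) := Finset.sum_le_sum fun j _ => h1 j
  have h3 := hu v hv
  have h4 : (0 : ℤ) ≤ M - ∑ j, (a j : ℤ) := by
    have : ((∑ j, a j : ℕ) : ℤ) ≤ M := by exact_mod_cast ha
    push_cast at this
    linarith
  have h5 := mul_le_mul_of_nonneg_left h3 h4
  have h6 : (0 : ℤ) < M := by exact_mod_cast hM
  have h7 : ∑ j, (a j : ℤ) * (u ⬝ᵥ v + (M : ℤ) * (w j ⬝ᵥ v)) =
      (∑ j, (a j : ℤ)) * (u ⬝ᵥ v) + (M : ℤ) * ∑ j, (a j : ℤ) * (w j ⬝ᵥ v) := by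
    rw [Finset.sum_mul, Finset.mul_sum, ← Finset.sum_add_distrib]
    refine Finset.sum_congr rfl fun j _ => by ring
  rw [h7, ← Finset.sum_mul] at h2
  have h8 : (M : ℤ) * (1 + ∑ l, mn v (f l)) ≤
      (M : ℤ) * (u ⬝ᵥ v + ∑ j, (a j : ℤ) * (w j ⬝ᵥ v)) := by nlinarith
  have h9 := le_of_mul_le_mul_left h8 h6
  have h10 : (u + ∑ j, (a j : ℤ) • w j) ⬝ᵥ v = u ⬝ᵥ v + ∑ j, (a j : ℤ) * (w j ⬝ᵥ v) := by
    rw [add_dotProduct, sum_dotProduct]
    congr 1
    refine Finset.sum_congr rfl fun j _ => by rw [smul_dotProduct, smul_eq_mul]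
  rw [h10]
  exact h9

theorem mono_comb {x : Fin r → K} (hx : ∀ i, x i ≠ 0) (w : Fin N → Fin r → ℤ) (a : Fin N → ℕ) :
    ∏ j, R885.mono x (w j) ^ a j = R885.mono x (∑ j, (a j : ℤ) • w j) := by
  classical
  have h : ∀ s : Finset (Fin N), ∏ j ∈ s, R885.mono x (w j) ^ a j =
      R885.mono x (∑ j ∈ s, (a j : ℤ) • w j) := by
    intro s
    induction s using Finset.induction_on with
    | empty => rw [Finset.prod_empty, Finset.sum_empty, R885.mono_zero]
    | insert b s hb ih =>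
      rw [Finset.prod_insert hb, Finset.sum_insert hb, R885.mono_add hx, ih, R885.mono_zsmul,
        zpow_natCast]
  exact h Finset.univ

/-- **The residue forms are twisted.** -/
theorem exists_twisted (htr : Algebra.trdeg ℂ K = (n : ℕ)) {x : Fin r → K} (hx : ∀ i, x i ≠ 0)
    (hgen : IntermediateField.adjoin ℂ (Set.range x) = ⊤) (e : J ⊕ Fin n ≃ Fin r)
    {f : J → (Fin r → ℤ) →₀ ℂ} (hf : ∀ l, ev x (f l) = 0) (hnd : ∀ v, NonDeg ℂ f v)
    {u : Fin r → ℤ} {w : Fin N → Fin r → ℤ} (hM : 0 < M) (hu : InFine f u)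
    (hw : ∀ j, InFine f (u + (M : ℤ) • w j)) :
    ∃ ω : (Fin n → Derivation ℂ K K) → K, IsTwisted n M (fun j => R885.mono x (w j)) ω ∧
      ∀ (Z : Fin n → K), IsTranscendenceBasis ℂ Z → ∀ D0 : Fin n → Derivation ℂ K K,
        (∀ i j, D0 i (Z j) = if i = j then 1 else 0) → ω D0 ≠ 0 := by
  obtain ⟨C0, h0, hreg, hne⟩ := exists_res htr hx hgen e hf hnd
  refine ⟨fun D => R885.mono x u * Om e x f C0 D, ⟨?_, ?_⟩, ?_⟩
  · intro B D
    have h1 := om_pluri e x f C0 1 B D
    change Om e x f C0 (fun i => ∑ j, B i j • D j) ^ 1 = B.det ^ 1 * Om e x f C0 D ^ 1 at h1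
    change R885.mono x u * Om e x f C0 (fun i => ∑ j, B i j • D j) =
      B.det ^ 1 * (R885.mono x u * Om e x f C0 D)
    rw [pow_one, pow_one, pow_one] at h1
    rw [h1]
    ring
  · intro a ha P _ D hD
    have h1 := hreg _ (inFine_comb hM hu hw a ha) P D hD
    change P.Reg ((∏ j, R885.mono x (w j) ^ a j) * (R885.mono x u * Om e x f C0 D))
    rw [mono_comb hx, ← mul_assoc, mul_comm (R885.mono x _) (R885.mono x u), ← R885.mono_add hx]
    exact h1
  · intro Z hZ D0 hD0
    exact mul_ne_zero (R885.mono_ne hx _) (hne Z hZ D0 hD0)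

/-- the trace to the whole field -/
theorem traceNe_top [Algebra.EssFiniteType ℂ K] (htr : Algebra.trdeg ℂ K = (n : ℕ))
    {ω : (Fin n → Derivation ℂ K K) → K}
    (hne : ∀ (Z : Fin n → K), IsTranscendenceBasis ℂ Z → ∀ D0 : Fin n → Derivation ℂ K K,
        (∀ i j, D0 i (Z j) = if i = j then 1 else 0) → ω D0 ≠ 0) {F : IntermediateField ℂ K}
    (hF : F = ⊤) : TraceNe ω F := by
  subst hF
  obtain ⟨Z, E, hZ, hE⟩ := Pool.Agent.Y172.exists_crd (k := ℂ) (K := K) htr
  let φ : (⊤ : IntermediateField ℂ K) ≃ₐ[ℂ] K := IntermediateField.topEquiv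
  let D : Fin n → Derivation ℂ (⊤ : IntermediateField ℂ K) (⊤ : IntermediateField ℂ K) := fun i =>
    { toFun := fun z => φ.symm (E i (φ z))
      map_add' := fun a b => by rw [map_add, map_add, map_add]
      map_smul' := fun c a => by
        rw [map_smul, Derivation.map_smul, map_smul, RingHom.id_apply]
      map_one_eq_zero' := by
        change φ.symm (E i (φ 1)) = 0
        rw [map_one, Derivation.map_one_eq_zero, map_zero]
      leibniz' := fun a b => by
        change φ.symm (E i (φ (a * b))) = a • φ.symm (E i (φ b)) + b • φ.symm (E i (φ a))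
        rw [map_mul, Derivation.leibniz, map_add, smul_eq_mul, smul_eq_mul, map_mul, map_mul,
          AlgEquiv.symm_apply_apply, AlgEquiv.symm_apply_apply, smul_eq_mul, smul_eq_mul] }
  refine ⟨D, E, fun i z => ?_, ?_⟩
  · change E i (z : K) = ((φ.symm (E i (φ z)) : (⊤ : IntermediateField ℂ K)) : K)
    rfl
  · have h1 : ω E = algebraMap (⊤ : IntermediateField ℂ K) K ⟨ω E, trivial⟩ := rfl
    rw [h1, Algebra.trace_algebraMap, nsmul_eq_mul]
    refine mul_ne_zero ?_ ?_
    · have h2 : 0 < Module.finrank (⊤ : IntermediateField ℂ K) K := by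
        have : Module.Finite (⊤ : IntermediateField ℂ K) K :=
          Module.Finite.of_surjective (Algebra.linearMap (⊤ : IntermediateField ℂ K) K)
            fun z => ⟨⟨z, trivial⟩, rfl⟩
        exact Module.finrank_pos
      exact_mod_cast h2.ne'
    · intro h2
      have h3 := congrArg (fun z : (⊤ : IntermediateField ℂ K) => (z : K)) h2
      exact hne Z hZ E hE h3

/-- **The numerical dimension of images.** -/
theorem numLe_down [Algebra.EssFiniteType ℂ K] (htr : Algebra.trdeg ℂ K = n)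
    {L : Type} [Field L] [Algebra ℂ L] [Algebra L K] [IsScalarTower ℂ L K]
    [FiniteDimensional L K] (h : NumLe ℂ K n (fun _ => False) d) :
    NumLe ℂ L n (fun _ => False) d := by
  have hessL : Algebra.EssFiniteType ℂ L := Pool.Agent.TH466.QG.ess_below (K := K)
  have hL : Algebra.trdeg ℂ L = n := Pool.Agent.Y184.NT.trdeg_below (K := K) htr
  have h1 := (Pool.Agent.W619.Y.pTRANS ℂ L K n hL (fun y hy => by
    have hgen : ∃ (m : ℕ) (g : Fin m → L),
        IntermediateField.adjoin ℂ (Set.range g) = (⊤ : IntermediateField ℂ L) := by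
      obtain ⟨s, hs⟩ := IntermediateField.fg_top ℂ L
      refine ⟨Fintype.card s, fun i => ((Fintype.equivFin s).symm i : s), ?_⟩
      rw [← hs]
      congr 1
      ext z
      constructor
      · rintro ⟨i, rfl⟩
        exact ((Fintype.equivFin s).symm i).2
      · intro hz
        exact ⟨Fintype.equivFin s ⟨z, hz⟩, by simp⟩
    obtain ⟨m, g, hg⟩ := hgen
    exact hfin_of_gen hg hy) (fun _ => False)).2.2 d
  rw [Pool.Agent.W619.Y.bdUp_false] at h1
  exact h1 h

end

end Pool.Agent.R882.LT
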