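import Pool.Agent.R882.GLd
import Pool.Agent.R882.TFin

/-!
Images of nondegenerate complete intersections which are fibred by curves of genus one.
-/

set_option autoImplicit false
set_option linter.overlappingInstances false
set_option linter.unusedSectionVars false
set_option maxHeartbeats 4000000
set_option synthInstance.maxHeartbeats 400000

open IntermediateField Module FF Pool.Agent.W619.PQ Pool.Agent.W603.LV
open Pool.Agent.W602.GT (Divisorial RegAt IsPluri)
open Pool.Agent.W619.TW (NumLe IsSec HasIndep Dom)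

namespace Pool.Agent.R882.GL

/-- algebraic elements are constants -/
theorem exists_const {Λ F : Type} [Field Λ] [IsAlgClosed Λ] [Field F] [Algebra Λ F] {z : F}
    (hz : IsAlgebraic Λ z) : ∃ c : Λ, algebraMap Λ F c = z := by
  have h1 : Algebra.IsAlgebraic Λ (IntermediateField.adjoin Λ {z}) :=
    IntermediateField.isAlgebraic_adjoin_simple hz.isIntegral
  have h2 : Algebra.IsIntegral Λ (IntermediateField.adjoin Λ {z}) := inferInstance
  obtain ⟨c, hc⟩ := (IsAlgClosed.algebraMap_bijective_of_isIntegral (k := Λ)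
    (K := IntermediateField.adjoin Λ {z})).2 ⟨z, IntermediateField.mem_adjoin_simple_self Λ _⟩
  exact ⟨c, congrArg (fun z : IntermediateField.adjoin Λ {z} => (z : F)) hc⟩

/-- **Numerical dimension zero.** On a curve with `ν ≤ 0` all regular differentials are
proportional. -/
theorem prop_of_num {Λ F : Type} [Field Λ] [IsAlgClosed Λ] [CharZero Λ] [Field F] [Algebra Λ F]
    (hFF : IsFF Λ F) (hnum : NumLe Λ F 1 (fun _ => False) 0) {ξ : F} {D : Derivation Λ F F}
    (hD : D ξ = 1) {g f : F} (hg0 : g ≠ 0) (hg : ∀ Q : Place Λ F, vo Q D ≤ Q.ord g)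
    (hf : ∀ Q : Place Λ F, vo Q D ≤ Q.ord f) : ∃ c : Λ, f = c • g := by
  classical
  have hD0 : D ≠ 0 := by
    intro h
    rw [h] at hD
    exact zero_ne_one hD
  by_cases hf0 : f = 0
  · exact ⟨0, by rw [hf0, zero_smul]⟩
  by_cases halg : IsAlgebraic Λ (f / g)
  · obtain ⟨c, h2⟩ := exists_const halg
    refine ⟨c, ?_⟩
    rw [Algebra.smul_def, h2, div_mul_cancel₀ _ hg0]
  exfalso
  have htr : Transcendental Λ (f / g) := halg
  obtain ⟨C, hC⟩ := hnum {1}
  have h1 := hC (C + 1) (C + 2) (by omega) ?_
  · rw [pow_zero, mul_one] at h1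
    omega
  refine ⟨fun (i : Fin (C + 2)) (G : Fin 1 → Derivation Λ F F) =>
    (G 0 ξ * g) ^ (C + 1 - (i : ℕ)) * (G 0 ξ * f) ^ (i : ℕ), ?_, ?_⟩
  · rw [Fintype.linearIndependent_iff]
    intro a ha
    have h2 := congrFun ha (fun _ => D)
    rw [Finset.sum_apply] at h2
    simp only [Pi.smul_apply, hD, one_mul, Pi.zero_apply] at h2
    have h3 : Polynomial.aeval (f / g) (∑ i : Fin (C + 2), Polynomial.C (a i) *
        Polynomial.X ^ (i : ℕ)) = 0 := by
      rw [map_sum]
      have h4 : ∀ i : Fin (C + 2), Polynomial.aeval (f / g) (Polynomial.C (a i) *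
          Polynomial.X ^ (i : ℕ)) = (a i • (g ^ (C + 1 - (i : ℕ)) * f ^ (i : ℕ))) /
            g ^ (C + 1) := by
        intro i
        rw [map_mul, Polynomial.aeval_C, map_pow, Polynomial.aeval_X, div_pow, Algebra.smul_def,
          mul_div_assoc]
        congr 1
        have h5 : g ^ (C + 1) = g ^ (C + 1 - (i : ℕ)) * g ^ (i : ℕ) := by
          rw [← pow_add]
          congr 1
          omega
        rw [h5, mul_div_mul_left _ _ (pow_ne_zero _ hg0)]
      rw [Finset.sum_congr rfl fun i _ => h4 i, ← Finset.sum_div, h2, zero_div]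
    have h4 : (∑ i : Fin (C + 2), Polynomial.C (a i) * Polynomial.X ^ (i : ℕ)) = 0 := by
      by_contra h5
      exact htr ⟨_, h5, h3⟩
    intro i
    have h5 := congrArg (fun p => Polynomial.coeff p (i : ℕ)) h4
    simp only [Polynomial.finsetSum_coeff, Polynomial.coeff_C_mul_X_pow,
      Polynomial.coeff_zero] at h5
    rw [Finset.sum_eq_single i] at h5
    · simpa using h5
    · intro b _ hb
      rw [if_neg]
      intro h6
      exact hb (Fin.ext h6.symm)
    · intro h6
      exact absurd (Finset.mem_univ _) h6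
  · intro i
    refine ⟨?_, ?_, fun v _ h => h.elim⟩
    · intro A G
      change ((∑ j, A 0 j • G j) ξ * g) ^ (C + 1 - (i : ℕ)) *
        ((∑ j, A 0 j • G j) ξ * f) ^ (i : ℕ) =
        A.det ^ (C + 1) * ((G 0 ξ * g) ^ (C + 1 - (i : ℕ)) * (G 0 ξ * f) ^ (i : ℕ))
      rw [Matrix.det_unique, Fin.sum_univ_one, Derivation.smul_apply, smul_eq_mul]
      have h5 : A default default ^ (C + 1) =
          A default default ^ (C + 1 - (i : ℕ)) * A default default ^ (i : ℕ) := by
        rw [← pow_add]
        congr 1
        omega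
      have h6 : A (default : Fin 1) (default : Fin 1) = A 0 0 := rfl
      rw [h5, h6]
      ring
    · intro Q _ _ G hG
      have hkey : ∀ h : F, (∀ Q : Place Λ F, vo Q D ≤ Q.ord h) → Q.Reg (G 0 ξ * h) := by
        intro h hh
        by_cases h1 : G 0 ξ * h = 0
        · exact Or.inl h1
        right
        have hGξ : G 0 ξ ≠ 0 := left_ne_zero_of_mul h1
        have hh0 : h ≠ 0 := right_ne_zero_of_mul h1
        have hGD : ∀ z, G 0 z = (G 0 ξ • D) z := by
          have hξ : Transcendental Λ ξ := by
            intro h7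
            have h8 : D ξ = 0 := by
              obtain ⟨c, h10⟩ := exists_const h7
              rw [← h10]
              exact D.map_algebraMap c
            rw [hD] at h8
            exact one_ne_zero h8
          refine der_ext hξ ?_
          rw [Derivation.smul_apply, smul_eq_mul, hD, mul_one]
        obtain ⟨s, hs0, hs⟩ := Q.surj
        have h2 := hG 0 s (Or.inr (by rw [hs]; norm_num))
        rw [hGD s, Derivation.smul_apply, smul_eq_mul] at h2
        have hDs : D s ≠ 0 := der_pi_ne_zero hD0 Q hs
        have h3 := h2.resolve_left (mul_ne_zero hGξ hDs)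
        rw [Q.ord_mul hGξ hDs, vo_eq Q hs hD0] at h3
        rw [Q.ord_mul hGξ hh0]
        have := hh Q
        linarith
      have hreg : Q.Reg ((G 0 ξ * g) ^ (C + 1 - (i : ℕ)) * (G 0 ξ * f) ^ (i : ℕ)) := by
        refine Q.reg_mul ?_ ?_
        · exact pow_mem (show G 0 ξ * g ∈ Q.O from hkey g hg) _
        · exact pow_mem (show G 0 ξ * f ∈ Q.O from hkey f hf) _
      rcases hreg with h | h
      · exact Or.inl h
      · refine Or.inr ⟨1, Finset.mem_singleton_self _, one_ne_zero, ?_⟩
        rw [Q.ord_one, mul_zero]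
        exact h

end Pool.Agent.R882.GL
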