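import Pool.Agent.R882.TRat
import Pool.Agent.R885.D0b
import Pool.Agent.R885.Rel
import Pool.Agent.R885.Ext

/-!
Images of nondegenerate complete intersections in tori.
-/

set_option autoImplicit false
set_option linter.unusedSectionVars false
set_option linter.overlappingInstances false

open FF Module Pool.Agent.W602.GT Pool.Agent.W603.LV Pool.Agent.W619.PQ
open Pool.Agent.Y172 (exists_crd lift_dual)
open Pool.Agent.Y184.NT Pool.Agent.R885 Pool.Agent.W619.TW Pool.Agent.Y173.QA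

namespace Pool.Agent.R882.LT

section

variable {K : Type} [Field K] [Algebra ℂ K] {r n N M : ℕ} {J : Type} [Fintype J] [DecidableEq J]

/-- the integral points of the Fine interior -/
def InFine (f : J → (Fin r → ℤ) →₀ ℂ) (u : Fin r → ℤ) : Prop :=
  ∀ v : Fin r → ℤ, v ≠ 0 → 1 + ∑ l, mn v (f l) ≤ u ⬝ᵥ v

theorem inFine_of {f : J → (Fin r → ℤ) →₀ ℂ} {u : Fin r → ℤ}
    (h : (fun i => (u i : ℚ)) ∈ FineInt f) : InFine f u := by
  intro v hv
  have h1 := h v hv
  have h2 : (1 + ∑ l, (mn v (f l) : ℚ)) = ((1 + ∑ l, mn v (f l) : ℤ) : ℚ) := by push_cast; rfl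
  have h3 : ∑ i, (u i : ℚ) * (v i : ℚ) = ((u ⬝ᵥ v : ℤ) : ℚ) := by
    unfold dotProduct
    push_cast
    rfl
  beta_reduce at h1
  rw [h2, h3] at h1
  exact_mod_cast h1

/-- convexity -/
theorem inFine_add {f : J → (Fin r → ℤ) →₀ ℂ} {u : Fin r → ℤ} {w : Fin N → Fin r → ℤ}
    (hM : 0 < M) (hw : ∀ j, InFine f (u + (M : ℤ) • w j)) (g : Fin M → Fin N) :
    InFine f (u + ∑ k, w (g k)) := by
  intro v hv
  have h1 : ∀ k : Fin M, 1 + ∑ l, mn v (f l) ≤ u ⬝ᵥ v + (M : ℤ) * (w (g k) ⬝ᵥ v) := by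
    intro k
    have h2 := hw (g k) v hv
    rwa [add_dotProduct, smul_dotProduct, smul_eq_mul] at h2
  have h2 : ∑ _k : Fin M, (1 + ∑ l, mn v (f l)) ≤
      ∑ k : Fin M, (u ⬝ᵥ v + (M : ℤ) * (w (g k) ⬝ᵥ v)) := Finset.sum_le_sum fun k _ => h1 k
  rw [Finset.sum_const, Finset.card_univ, Fintype.card_fin, Finset.sum_add_distrib,
    Finset.sum_const, Finset.card_univ, Fintype.card_fin, ← Finset.mul_sum, nsmul_eq_mul,
    nsmul_eq_mul, ← mul_add] at h2
  have h3 : (0 : ℤ) < M := by exact_mod_cast hM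
  have h4 := le_of_mul_le_mul_left h2 h3
  rw [add_dotProduct, sum_dotProduct]
  exact h4

/-- the forms `x ^ u Res` are regular -/
theorem mono_om_reg {x : Fin r → K} (hx : ∀ i, x i ≠ 0) {e : J ⊕ Fin n ≃ Fin r}
    {f : J → (Fin r → ℤ) →₀ ℂ} (hf0 : ∀ l, f l ≠ 0) (hf : ∀ l, ev x (f l) = 0)
    (hnd : ∀ v, NonDeg ℂ f v) {C0 : Fin n → Fin r → ℤ}
    (h0 : dt e (fun l => gr x (f l)) C0 ≠ 0) {u : Fin r → ℤ} (hu : InFine f u) (P : Place ℂ K) :
    RegAt P (fun D => mono x u * Om e x f C0 D) := by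
  intro D hD
  have hD' : ∀ a, Pres P (D a) := hD
  obtain ⟨h1, h2⟩ := om_ge P hx hf0 hf (nd_ext (hnd (vec P x)) P.RF) h0 hD'
  by_cases hO : Om e x f C0 D = 0
  · left
    change mono x u * Om e x f C0 D = 0
    rw [hO, mul_zero]
  right
  change 0 ≤ P.ord (mono x u * Om e x f C0 D)
  rw [P.ord_mul (mono_ne hx _) hO, ord_mono P hx]
  by_cases hV0 : vec P x = 0
  · have h3 := (h2 hV0).resolve_left hO
    rw [hV0, dotProduct_zero, zero_add]
    exact h3
  · have h3 := hu _ hV0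
    have h4 := h1.resolve_left hO
    linarith

/-- **The residue forms.** There is a canonical form `ω` such that `x ^ u ω` is regular for all `u`
in the Fine interior; its values are given by the residue. -/
theorem exists_res (htr : Algebra.trdeg ℂ K = (n : ℕ)) {x : Fin r → K} (hx : ∀ i, x i ≠ 0)
    (hgen : IntermediateField.adjoin ℂ (Set.range x) = ⊤) (e : J ⊕ Fin n ≃ Fin r)
    {f : J → (Fin r → ℤ) →₀ ℂ} (hf : ∀ l, ev x (f l) = 0) (hnd : ∀ v, NonDeg ℂ f v) :
    ∃ C0 : Fin n → Fin r → ℤ, dt e (fun l => gr x (f l)) C0 ≠ 0 ∧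
      (∀ u, InFine f u → ∀ P : Place ℂ K, RegAt P (fun D => R885.mono x u * Om e x f C0 D)) ∧
      ∀ (Z : Fin n → K), IsTranscendenceBasis ℂ Z → ∀ D0 : Fin n → Derivation ℂ K K,
        (∀ i j, D0 i (Z j) = if i = j then 1 else 0) → Om e x f C0 D0 ≠ 0 := by
  have hini : ∀ g : (Fin r → ℤ) →₀ ℂ, ini 0 g = g := by
    intro g
    by_cases hg : g = 0
    · rw [hg]
      unfold ini
      rw [Finsupp.filter_zero]
    · exact ini_zero hg
  have hf0 : ∀ l, f l ≠ 0 := by
    have h1 := nd_ext (hnd 0) K x hx fun l => by rw [hini]; exact hf l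
    intro l h0
    have h2 := h1.ne_zero l
    apply h2
    rw [hini, h0]
    funext i
    unfold gr
    exact Finsupp.sum_zero_index
  obtain ⟨C0, h0⟩ := exists_C0 hx e hf0 hf (nd_ext (hnd 0) K)
  exact ⟨C0, h0, fun u hu P => mono_om_reg hx hf0 hf hnd h0 hu P, fun Z hZ D0 hD0 =>
    om_ne hx hgen hf h0 hZ hD0⟩

/-- the monomials -/
theorem prod_mono {x : Fin r → K} (hx : ∀ i, x i ≠ 0) (w : Fin N → Fin r → ℤ) {m : ℕ}
    (g : Fin m → Fin N) : ∏ k, R885.mono x (w (g k)) = R885.mono x (∑ k, w (g k)) := by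
  classical
  have h : ∀ s : Finset (Fin m), ∏ k ∈ s, R885.mono x (w (g k)) =
      R885.mono x (∑ k ∈ s, w (g k)) := by
    intro s
    induction s using Finset.induction_on with
    | empty => rw [Finset.prod_empty, Finset.sum_empty, R885.mono_zero]
    | insert a s ha ih => rw [Finset.prod_insert ha, Finset.sum_insert ha, R885.mono_add hx, ih]
  exact h Finset.univ

end

end Pool.Agent.R882.LT
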