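import Pool.Agent.R882.LTr
import Pool.Agent.R885.MB
import Pool.Agent.W619.Y.Parts
import Pool.Agent.W619.Y.Stm7

/-!
Algebraically independent ratios of traces, of a given number.
-/

set_option autoImplicit false
set_option linter.unusedSectionVars false
set_option linter.overlappingInstances false

open FF Module Pool.Agent.W602.GT Pool.Agent.W603.LV Pool.Agent.W619.PQ Pool.Agent.Y172
open Pool.Agent.Y184.NT

namespace Pool.Agent.R882.LT

open Pool.Agent.Y954.NT (exists_lift trace_der rel2)

/-- vector fields which respect the ratios of the traces kill the coordinates -/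
theorem sep_coord (hCB2 : StCB2) {L K : Type} [Field L] [Field K] [Algebra ℂ L] [Algebra ℂ K]
    [Algebra L K] [IsScalarTower ℂ L K] [FiniteDimensional L K] {N m : ℕ}
    {x : Fin N → K} {j0 : Fin N} (hj0 : x j0 = 1)
    (hgenL : IntermediateField.adjoin L (Set.range x) = ⊤)
    (hfin : 2 * Module.finrank L K ≤ m + 1)
    {h : K} (hh : h ≠ 0) {T : (Fin m → Fin N) → L}
    (hT : ∀ f, T f = Algebra.trace L K ((∏ k, x (f k)) * h)) (D : Derivation ℂ L L)
    (hTD : ∀ f g, T f * D (T g) = T g * D (T f)) (D' : Derivation ℂ K K)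
    (hD' : ∀ f, D' (algebraMap L K f) = algebraMap L K (D f)) (j : Fin N) : D' (x j) = 0 := by
  classical
  have hchar : CharZero L := charZero_of_injective_algebraMap (algebraMap ℂ L).injective
  let Ω := AlgebraicClosure L
  have hcard : Fintype.card (K →ₐ[L] Ω) = finrank L K := AlgHom.card L K Ω
  have hpos : 0 < finrank L K := finrank_pos
  by_contra hD
  -- a nonzero trace
  obtain ⟨g, hg⟩ : ∃ g, T g ≠ 0 := by
    by_contra hcon
    push Not at hcon
    have h1 := (Pool.Agent.Y614.NT.stLine Pool.Agent.Y153.NT.stCB L K N m x j0 hj0 hgenL h hh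
      (fun f => by rw [← hT, hcon]) (by omega)).1
    omega
  obtain ⟨lam, hlam⟩ : ∃ lam : L, ∀ f, D (T f) = lam * T f := by
    refine ⟨D (T g) / T g, fun f => ?_⟩
    have h1 := hTD f g
    rw [div_mul_eq_mul_div, eq_div_iff hg]
    linear_combination -h1
  have hx : ∃ j, D' (x j) ≠ 0 := ⟨j, hD⟩
  have hx0 : D' (x j0) = 0 := by
    rw [hj0]
    exact D'.map_one_eq_zero
  -- the relation
  have htr : ∀ f : Fin m → Fin N, Algebra.trace L K ((D' h - algebraMap L K lam * h) *
      ∏ k, x (f k) + h * ∑ j, D' (x (f j)) * ∏ k ∈ Finset.univ.erase j, x (f k)) = 0 := by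
    intro f
    have hprod : ∀ s : Finset (Fin m), D' (∏ k ∈ s, x (f k)) =
        ∑ j ∈ s, D' (x (f j)) * ∏ k ∈ s.erase j, x (f k) := by
      intro s
      induction s using Finset.induction_on with
      | empty => simp [D'.map_one_eq_zero]
      | insert i s hi ih =>
        rw [Finset.prod_insert hi, D'.leibniz, ih, Finset.sum_insert hi, Finset.erase_insert hi,
          smul_eq_mul, smul_eq_mul, Finset.mul_sum, add_comm, mul_comm (∏ k ∈ s, x (f k))]
        congr 1
        refine Finset.sum_congr rfl fun j hj => ?_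
        have hji : i ≠ j := fun e => hi (e ▸ hj)
        rw [Finset.erase_insert_of_ne hji, Finset.prod_insert
          (fun e => hi (Finset.mem_of_mem_erase e))]
        ring
    have h1 : D' ((∏ k, x (f k)) * h) = D' h * ∏ k, x (f k) +
        h * ∑ j, D' (x (f j)) * ∏ k ∈ Finset.univ.erase j, x (f k) := by
      rw [D'.leibniz, hprod, smul_eq_mul, smul_eq_mul]
      ring
    have h2 := trace_der hD' ((∏ k, x (f k)) * h)
    rw [← hT, hlam, h1] at h2
    have h3 : (D' h - algebraMap L K lam * h) * ∏ k, x (f k) +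
        h * ∑ j, D' (x (f j)) * ∏ k ∈ Finset.univ.erase j, x (f k) =
        (D' h * ∏ k, x (f k) + h * ∑ j, D' (x (f j)) * ∏ k ∈ Finset.univ.erase j, x (f k)) -
        lam • ((∏ k, x (f k)) * h) := by
      rw [Algebra.smul_def]
      ring
    rw [h3, map_sub, map_smul, h2, ← hT, smul_eq_mul, sub_self]
  obtain ⟨hm2, -⟩ := hCB2 Ω N (K →ₐ[L] Ω) m Finset.univ (fun σ j => σ (x j))
    (fun σ j => σ (D' (x j))) (fun σ => σ (D' h - algebraMap L K lam * h)) (fun σ => σ h)
    (by
      rw [← Finset.card_pos, Finset.card_univ, hcard]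
      exact finrank_pos)
    (fun σ _ => by
      rw [_root_.map_ne_zero]
      exact hh)
    (fun σ _ => by
      rw [LinearIndependent.pair_iff]
      intro s t hst
      have h1 := congrFun hst j0
      simp only [Pi.add_apply, Pi.smul_apply, smul_eq_mul, hj0, map_one, mul_one,
        Pi.zero_apply, D'.map_one_eq_zero, map_zero, mul_zero, add_zero] at h1
      obtain ⟨j, hj⟩ := hx
      have h2 := congrFun hst j
      simp only [Pi.add_apply, Pi.smul_apply, smul_eq_mul, Pi.zero_apply, h1, zero_mul,
        zero_add] at h2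
      exact ⟨h1, (mul_eq_zero.1 h2).resolve_right fun e => hj ((_root_.map_eq_zero σ).1 e)⟩)
    (fun σ _ σ' _ hne => by
      rw [LinearIndependent.pair_iff]
      intro s t hst
      have h1 := congrFun hst j0
      simp only [Pi.add_apply, Pi.smul_apply, smul_eq_mul, hj0, map_one, mul_one,
        Pi.zero_apply] at h1
      have h2 : t = -s := by linear_combination h1
      subst h2
      by_cases hs : s = 0
      · simp [hs]
      · exfalso
        apply hne
        apply Pool.Agent.Y614.NT.emb_ext x hgenL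
        intro j
        have h3 := congrFun hst j
        simp only [Pi.add_apply, Pi.smul_apply, smul_eq_mul, Pi.zero_apply] at h3
        have h4 : s * (σ (x j) - σ' (x j)) = 0 := by linear_combination h3
        rcases mul_eq_zero.1 h4 with h5 | h5
        · exact absurd h5 hs
        · exact sub_eq_zero.1 h5)
    (fun l => rel2 x (fun j => D' (x j)) h _ htr l)
    (by rw [Finset.card_univ, hcard]; omega)
  rw [Finset.card_univ, hcard] at hm2
  omega

open IntermediateField.algebraAdjoinAdjoin in
/-- elements with ratios which separate the coordinates: `d + 1` of them have algebraically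
independent ratios -/
theorem exists_ratios_d {L K : Type} [Field L] [Field K] [Algebra ℂ L] [Algebra ℂ K]
    [Algebra L K] [IsScalarTower ℂ L K] [FiniteDimensional L K] [Algebra.EssFiniteType ℂ L]
    {n d N : ℕ} (hL : Algebra.trdeg ℂ L = n) {x : Fin N → K}
    (hd : Algebra.trdeg ℂ (IntermediateField.adjoin ℂ (Set.range x)) = d) {ι : Type} (T : ι → L)
    (hT0 : ∃ f, T f ≠ 0)
    (hT : ∀ D : Derivation ℂ L L, (∀ f g, T f * D (T g) = T g * D (T f)) →
      ∀ D' : Derivation ℂ K K, (∀ f, D' (algebraMap L K f) = algebraMap L K (D f)) →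
      ∀ j, D' (x j) = 0) :
    ∃ s : Fin (d + 1) → ι, T (s 0) ≠ 0 ∧
      AlgebraicIndependent ℂ (fun i : Fin d => T (s i.succ) / T (s 0)) := by
  classical
  have hcL : CharZero L := charZero_of_injective_algebraMap (algebraMap ℂ L).injective
  obtain ⟨f0, hf0⟩ := hT0
  have hK : Algebra.trdeg ℂ K = n := by
    rw [← hL, ← trdeg_add_eq ℂ L (A := K), trdeg_eq_zero (R := L) (A := K), add_zero]
  -- a transcendence basis of the field of the coordinates
  obtain ⟨t, htx, htind, htalg⟩ := Pool.Agent.R885.exists_mono_basis (G := Set.range x) hd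
  have htu : AlgebraicIndepOn ℂ id (Set.range t) := htind.coe_range
  have halgL : Algebra.IsAlgebraic
      (Algebra.adjoin ℂ (Set.range t ∪ Set.range (algebraMap L K))) K := by
    constructor
    intro z
    have h1 : IsAlgebraic L z := Algebra.IsAlgebraic.isAlgebraic z
    obtain ⟨p, hp0, hp⟩ := h1
    have hmem : ∀ c : L, algebraMap L K c ∈
        Algebra.adjoin ℂ (Set.range t ∪ Set.range (algebraMap L K)) := fun c =>
      Algebra.subset_adjoin (Or.inr ⟨c, rfl⟩)
    let φ : L →+* Algebra.adjoin ℂ (Set.range t ∪ Set.range (algebraMap L K)) :=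
      (algebraMap L K).codRestrict _ hmem
    refine ⟨p.map φ, ?_, ?_⟩
    · exact (Polynomial.map_ne_zero_iff φ.injective).2 hp0
    · rw [Polynomial.aeval_def, Polynomial.eval₂_map]
      exact hp
  obtain ⟨u, htu', hut, hu⟩ := exists_isTranscendenceBasis_between (R := ℂ) (Set.range t)
    (Set.range t ∪ Set.range (algebraMap L K)) Set.subset_union_left htu
  have hucard : Cardinal.mk u = n := by
    rw [hu.cardinalMk_eq_trdeg, hK]
  have hufin : u.Finite := by
    rw [← Set.finite_coe_iff, ← Cardinal.lt_aleph0_iff_finite, hucard]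
    exact Cardinal.natCast_lt_aleph0
  have hun : u.ncard = n := by
    have h1 : ((u.ncard : ℕ) : Cardinal) = Cardinal.mk u := Set.cast_ncard hufin
    rw [hucard] at h1
    exact_mod_cast h1
  obtain ⟨Z, hZd⟩ : ∃ Z : Set L, Z = algebraMap L K ⁻¹' (u \ Set.range t) := ⟨_, rfl⟩
  have hZimg : algebraMap L K '' Z = u \ Set.range t := by
    rw [hZd, Set.image_preimage_eq_iff]
    rintro z ⟨hz1, hz2⟩
    exact (hut hz1).resolve_left hz2
  have hZcard : Z.ncard = n - d := by
    have h1 : (algebraMap L K '' Z).ncard = Z.ncard :=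
      Set.ncard_image_of_injective _ (algebraMap L K).injective
    rw [← h1, hZimg, Set.ncard_sdiff htu' (Set.finite_range t), hun]
    congr 1
    rw [← Set.image_univ, Set.ncard_image_of_injective _ htind.injective, Set.ncard_univ,
      Nat.card_eq_fintype_card, Fintype.card_fin]
  have hZfin : Z.Finite := by
    rw [hZd]
    exact (hufin.subset Set.sdiff_subset).preimage ((algebraMap L K).injective.injOn)
  have hdn : d ≤ n := by
    have h1 := htind.cardinalMk_le_trdeg
    rw [hK, Cardinal.mk_fin] at h1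
    exact_mod_cast h1
  -- the field generated by the ratios and `Z`
  obtain ⟨E0, hE0⟩ : ∃ E0 : IntermediateField ℂ L,
    E0 = IntermediateField.adjoin ℂ (Set.range (fun g => T g / T f0) ∪ Z) := ⟨_, rfl⟩
  have hmem : ∀ g, T g / T f0 ∈ E0 := fun g => by
    rw [hE0]
    exact IntermediateField.subset_adjoin _ _ (Or.inl ⟨g, rfl⟩)
  have hmemZ : ∀ z ∈ Z, z ∈ E0 := fun z hz => by
    rw [hE0]
    exact IntermediateField.subset_adjoin _ _ (Or.inr hz)
  have hfin : FiniteDimensional E0 L := Pool.Agent.Y888.NT.stFin L E0 fun D hD => by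
    obtain ⟨D', hD'⟩ := exists_lift (K := K) D
    have h0 : ∀ j, D' (x j) = 0 := by
      refine hT D (fun f g => ?_) D' hD'
      have h1 : ∀ g, T f0 * D (T g) = T g * D (T f0) := by
        intro g
        have h2 : T g = T g / T f0 * T f0 := by field_simp
        have h3 : D (T g) = T g / T f0 * D (T f0) := by
          conv_lhs => rw [h2, D.leibniz, hD _ (hmem g), smul_zero, add_zero, smul_eq_mul]
        rw [h3]
        field_simp
      have h4 : T f0 * (T f * D (T g)) = T f0 * (T g * D (T f)) := by
        have h5 := h1 g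
        have h6 := h1 f
        linear_combination T f * h5 - T g * h6
      exact mul_left_cancel₀ hf0 h4
    have h1 : ∀ z ∈ u, D' z = 0 := by
      intro z hz
      by_cases hzt : z ∈ Set.range t
      · obtain ⟨i, rfl⟩ := hzt
        obtain ⟨j, hj⟩ := htx i
        rw [← hj]
        exact h0 j
      · have h2 : z ∈ algebraMap L K '' Z := by
          rw [hZimg]
          exact ⟨hz, hzt⟩
        obtain ⟨z', hz', rfl⟩ := h2
        rw [hD', hD z' (hmemZ z' hz'), map_zero]
    have h2 : ∀ c ∈ IntermediateField.adjoin ℂ u, D' c = 0 := by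
      have hUfin := hufin.to_subtype
      have hUft := Fintype.ofFinite u
      obtain ⟨e⟩ : Nonempty (Fin (Fintype.card u) ≃ u) := ⟨(Fintype.equivFin u).symm⟩
      have h3 := Pool.Agent.R882.WR.der_adjoin (x := fun i => ((e i : u) : K)) D'
        fun i => h1 _ (e i).2
      have h4 : Set.range (fun i => ((e i : u) : K)) = u := by
        ext z
        constructor
        · rintro ⟨i, rfl⟩
          exact (e i).2
        · intro hz
          exact ⟨e.symm ⟨z, hz⟩, by simp⟩
      rw [h4] at h3
      exact h3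
    have h3 : ∀ τ : K, D' τ = 0 := by
      intro τ
      refine Pool.Agent.R882.WR.der_alg D' h2 ?_
      have h4 : IsAlgebraic (Algebra.adjoin ℂ (Set.range ((↑) : u → K))) τ :=
        hu.isAlgebraic.isAlgebraic τ
      rw [Subtype.range_coe] at h4
      exact (IsFractionRing.isAlgebraic_iff (Algebra.adjoin ℂ u)
        (IntermediateField.adjoin ℂ u) K).1 h4
    ext f
    have h4 := h3 (algebraMap L K f)
    rw [hD'] at h4
    have h5 := (map_eq_zero _).1 h4
    rw [h5]
    rfl
  have h1 : Algebra.IsAlgebraic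
      (IntermediateField.adjoin ℂ (Set.range (fun g => T g / T f0) ∪ Z)) L := by
    rw [← hE0]
    infer_instance
  have h2 : Algebra.IsAlgebraic
      (Algebra.adjoin ℂ (Set.range (fun g => T g / T f0) ∪ Z)) L :=
    (IsFractionRing.comap_isAlgebraic_iff
      (A := Algebra.adjoin ℂ (Set.range (fun g => T g / T f0) ∪ Z))
      (K := IntermediateField.adjoin ℂ (Set.range (fun g => T g / T f0) ∪ Z)) (C := L)).2 h1
  obtain ⟨B, hB, hb⟩ := exists_isTranscendenceBasis_subset (R := ℂ)
    (Set.range (fun g => T g / T f0) ∪ Z)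
  have hBcard := hb.cardinalMk_eq_trdeg
  rw [hL] at hBcard
  have hBfin : B.Finite := by
    rw [← Set.finite_coe_iff, ← Cardinal.lt_aleph0_iff_finite, hBcard]
    exact Cardinal.natCast_lt_aleph0
  have hBn : B.ncard = n := by
    have h1 : ((B.ncard : ℕ) : Cardinal) = Cardinal.mk B := Set.cast_ncard hBfin
    rw [hBcard] at h1
    exact_mod_cast h1
  have hBZ : d ≤ (B \ Z).ncard := by
    have h3 := Set.le_ncard_sdiff Z B hZfin
    rw [hBn, hZcard] at h3
    omega
  obtain ⟨B', hB', hB'card⟩ := Set.exists_subset_card_eq hBZ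
  have hB'fin : B'.Finite := (hBfin.subset Set.sdiff_subset).subset hB'
  have hft : Fintype B' := hB'fin.fintype
  have hc : Fintype.card B' = d := by
    rw [← Nat.card_eq_fintype_card, Nat.card_coe_set_eq]
    exact hB'card
  obtain ⟨e⟩ : Nonempty (Fin d ≃ B') := ⟨(Fintype.equivFinOfCardEq hc).symm⟩
  have h5 : ∀ i : Fin d, ∃ g, T g / T f0 = ((e i : B') : L) := by
    intro i
    have h6 := hB' (e i).2
    exact (hB h6.1).resolve_right h6.2
  choose s hs using h5
  refine ⟨Fin.cons f0 s, by simpa using hf0, ?_⟩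
  have h6 : AlgebraicIndependent ℂ (fun i : Fin d =>
      (((⟨(e i : L), (hB' (e i).2).1⟩ : B) : B) : L)) := by
    refine hb.1.comp (fun i : Fin d => (⟨(e i : L), (hB' (e i).2).1⟩ : B)) ?_
    intro i j hij
    have h7 := congrArg (fun z : B => (z : L)) hij
    exact e.injective (Subtype.ext h7)
  convert h6 using 1
  funext i
  rw [Fin.cons_succ, Fin.cons_zero]
  exact hs i

section

variable {L K : Type} [Field L] [Field K] [Algebra ℂ L] [Algebra ℂ K] [Algebra L K]
  [IsScalarTower ℂ L K] [FiniteDimensional L K] [Algebra.EssFiniteType ℂ L]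
  [Algebra.EssFiniteType ℂ K] {n N m d : ℕ}

theorem isSec_of {BL : Place ℂ L → Prop} {ω : (Fin n → Derivation ℂ L L) → L}
    (hω : IsPluri 1 ω) (h : ∀ P : Place ℂ L, Divisorial n P → SecAt BL P ω) :
    Pool.Agent.W619.TW.IsSec ℂ L n BL {1} 1 0 ω := by
  have hdom : ∀ (v : Place ℂ L) (f : L), v.Reg f → Pool.Agent.W619.TW.Dom v {1} 0 f := by
    intro v f hf
    rcases hf with hf | hf
    · exact Or.inl hf
    · refine Or.inr ⟨1, Finset.mem_singleton_self _, one_ne_zero, ?_⟩
      rw [Nat.cast_zero, zero_mul]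
      exact hf
  refine ⟨hω, fun v hv hB D hD => hdom v _ ((h v hv).2 hB D fun i => hD i),
    fun v hv _ D hD => hdom v _ ((h v hv).1 D fun i => hD i)⟩

/-- **Kodaira dimension from traces.** -/
theorem kod_of (hL : Algebra.trdeg ℂ L = n) {BK : Place ℂ K → Prop}
    {BL : Place ℂ L → Prop}
    (hB : ∀ (P : Place ℂ L) (Q : Place ℂ K) (e : ℕ), Over Q P e → BK Q → BL P)
    {x : Fin N → K} {j0 : Fin N} (hj0 : x j0 = 1) {ω : (Fin n → Derivation ℂ K K) → K}
    (hω : IsPluri 1 ω)
    (hreg : ∀ (f : Fin m → Fin N) (P : Place ℂ K), Divisorial n P →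
      SecAt BK P (fun D => (∏ k, x (f k)) * ω D))
    (hd : Algebra.trdeg ℂ (IntermediateField.adjoin ℂ (Set.range x)) = d)
    {y : Fin n → L} {E : Fin n → Derivation ℂ L L} (hy : IsTranscendenceBasis ℂ y)
    (hE : ∀ i j, E i (y j) = if i = j then 1 else 0) {E' : Fin n → Derivation ℂ K K}
    (hE' : ∀ i f, E' i (algebraMap L K f) = algebraMap L K (E i f))
    (hdeg : 2 * Module.finrank L (IntermediateField.adjoin L (Set.range x)) ≤ m + 1)
    (hne : Algebra.trace (IntermediateField.adjoin L (Set.range x)) K (ω E') ≠ 0) :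
    Pool.Agent.W619.Y.KodTrB ℂ L n BL d := by
  have hcL : CharZero L := charZero_of_injective_algebraMap (algebraMap ℂ L).injective
  obtain ⟨x', hx'⟩ : ∃ x' : Fin N → IntermediateField.adjoin L (Set.range x),
    ∀ j, (x' j : K) = x j :=
    ⟨fun j => ⟨x j, IntermediateField.subset_adjoin L _ ⟨j, rfl⟩⟩, fun _ => rfl⟩
  obtain ⟨W, hWdef⟩ : ∃ W : (Fin m → Fin N) → (Fin n → Derivation ℂ K K) → K,
    W = fun f D => (∏ k, x (f k)) * ω D := ⟨_, rfl⟩
  have hWp : ∀ f, IsPluri 1 (W f) := by
    intro f A D
    rw [hWdef]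
    change (∏ k, x (f k)) * ω (fun i => ∑ j, A i j • D j) = _
    rw [hω A D]
    ring
  have hWr : ∀ f (P : Place ℂ K), Divisorial n P → SecAt BK P (W f) := by
    intro f P hP
    rw [hWdef]
    exact hreg f P hP
  obtain ⟨T, hTdef⟩ : ∃ T : (Fin m → Fin N) → L, ∀ f, T f = Algebra.trace L K (W f E') :=
    ⟨_, fun _ => rfl⟩
  have hT : ∀ f, T f = Algebra.trace L (IntermediateField.adjoin L (Set.range x))
      ((∏ k, x' (f k)) *
        Algebra.trace (IntermediateField.adjoin L (Set.range x)) K (ω E')) := by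
    intro f
    have h2 : W f E' = (∏ k, x' (f k)) • ω E' := by
      rw [hWdef, Algebra.smul_def]
      change (∏ k, x (f k)) * ω E' = _
      congr 1
      rw [map_prod]
      exact Finset.prod_congr rfl fun k _ => (hx' _).symm
    rw [hTdef, h2, ← Algebra.trace_trace (S := IntermediateField.adjoin L (Set.range x)),
      map_smul, smul_eq_mul]
  have hθE : ∀ t, trForm y t E = t := by
    intro t
    have h1 : (Matrix.of fun i j => E i (y j) : Matrix (Fin n) (Fin n) L) = 1 := by
      ext i j
      rw [Matrix.of_apply, hE, Matrix.one_apply]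
    rw [trForm, h1, Matrix.det_one, one_mul]
  have hθr : ∀ f (P : Place ℂ L), Divisorial n P → SecAt BL P (trForm y (T f)) := by
    intro f P hP
    rw [hTdef]
    exact trForm_sec hL hy hE hE' (W f) (hWp f) hB (hWr f) P hP
  have hd' : Algebra.trdeg ℂ (IntermediateField.adjoin ℂ (Set.range x')) = d := by
    rw [← hd]
    have htw : IsScalarTower ℂ (IntermediateField.adjoin L (Set.range x)) K :=
      IsScalarTower.of_algebraMap_eq fun r => rfl
    let φ : IntermediateField.adjoin L (Set.range x) →ₐ[ℂ] K :=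
      IsScalarTower.toAlgHom ℂ (IntermediateField.adjoin L (Set.range x)) K
    have h1 : (IntermediateField.adjoin ℂ (Set.range x')).map φ =
        IntermediateField.adjoin ℂ (Set.range x) := by
      rw [IntermediateField.adjoin_map]
      congr 1
      ext z
      constructor
      · rintro ⟨_, ⟨j, rfl⟩, rfl⟩
        exact ⟨j, (hx' j).symm⟩
      · rintro ⟨j, rfl⟩
        exact ⟨x' j, ⟨j, rfl⟩, hx' j⟩
    have h2 := (IntermediateField.equivMap (IntermediateField.adjoin ℂ (Set.range x')) φ)
    rw [h1] at h2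
    exact h2.trdeg_eq
  have hsep := sep_coord (L := L)
    (K := IntermediateField.adjoin L (Set.range x))
    Pool.Agent.Y141.NT.stCB2 (x := x') (j0 := j0) (by
      apply Subtype.ext
      rw [hx', hj0]
      rfl) (Pool.Agent.R882.WR.gen_self x' hx') hdeg hne hT
  have hT0 : ∃ f, T f ≠ 0 := by
    by_contra hcon
    push Not at hcon
    have h1 := (Pool.Agent.Y614.NT.stLine Pool.Agent.Y153.NT.stCB L
      (IntermediateField.adjoin L (Set.range x)) N m x' j0 (by
        apply Subtype.ext
        rw [hx', hj0]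
        rfl) (Pool.Agent.R882.WR.gen_self x' hx') _ hne
      (fun f => by rw [← hT, hcon]) (by omega)).1
    have h2 : 0 < Module.finrank L (IntermediateField.adjoin L (Set.range x)) :=
      Module.finrank_pos
    omega
  obtain ⟨s, hs0, hs⟩ := exists_ratios_d (d := d) hL hd' T hT0 fun D h1 D' h2 j =>
    hsep D h1 D' h2 j
  refine ⟨1, le_rfl, fun j => trForm y (T (s j)), fun l =>
    isSec_of (trForm_pluri y _) fun P hP => hθr _ P hP, E, ?_, ?_⟩
  · intro l
    change trForm y (T (s l)) E ≠ 0
    rw [hθE]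
    refine Fin.cases hs0 (fun i => ?_) l
    intro h0
    have h3 := hs.ne_zero i
    rw [h0, zero_div] at h3
    exact h3 rfl
  · simp only [hθE]
    exact hs

end

end Pool.Agent.R882.LT
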