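import Pool.Agent.R882.Curv
import Pool.Agent.R882.Ineq

/-!
The jets at the points of the torus.
-/

set_option autoImplicit false
set_option linter.unusedSimpArgs false

open scoped ComplexConjugate

namespace Pool.Agent.R882

noncomputable section

/-- The factor of the term `u` in the derivative of order `I`. -/
def dd (u : ℕ × ℕ × ℕ) (I : ℕ × ℕ) : ℕ := u.1.descFactorial I.1 * u.2.1.descFactorial I.2

/-- The value of a derivative of `h`, without the powers of the coordinates. -/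
def Tt (I J : ℕ × ℕ) (s t : ℝ) : ℝ :=
  (tab.map fun u => ((u.2.2 * (dd u I * dd u J) : ℕ) : ℝ) * (s ^ u.1 * t ^ u.2.1)).sum

theorem Tt_comm (I J : ℕ × ℕ) (s t : ℝ) : Tt I J s t = Tt J I s t := by
  simp only [Tt, mul_comm (dd _ I)]


theorem T00_00 (s t : ℝ) : Tt (0, 0) (0, 0) s t = Ss s t 0 0 := by
  simp only [Tt, Ss, tab, dd, List.map_cons, List.map_nil, List.sum_cons, List.sum_nil]
  norm_num [Nat.descFactorial]
  try ring

theorem T00_10 (s t : ℝ) : Tt (0, 0) (1, 0) s t = Ss s t 1 0 := by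
  simp only [Tt, Ss, tab, dd, List.map_cons, List.map_nil, List.sum_cons, List.sum_nil]
  norm_num [Nat.descFactorial]
  try ring

theorem T10_00 (s t : ℝ) : Tt (1, 0) (0, 0) s t = Ss s t 1 0 := by
  rw [Tt_comm, T00_10]

theorem T00_01 (s t : ℝ) : Tt (0, 0) (0, 1) s t = Ss s t 0 1 := by
  simp only [Tt, Ss, tab, dd, List.map_cons, List.map_nil, List.sum_cons, List.sum_nil]
  norm_num [Nat.descFactorial]
  try ring

theorem T01_00 (s t : ℝ) : Tt (0, 1) (0, 0) s t = Ss s t 0 1 := by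
  rw [Tt_comm, T00_01]

theorem T00_20 (s t : ℝ) : Tt (0, 0) (2, 0) s t = Ss s t 2 0 - Ss s t 1 0 := by
  simp only [Tt, Ss, tab, dd, List.map_cons, List.map_nil, List.sum_cons, List.sum_nil]
  norm_num [Nat.descFactorial]
  try ring

theorem T20_00 (s t : ℝ) : Tt (2, 0) (0, 0) s t = Ss s t 2 0 - Ss s t 1 0 := by
  rw [Tt_comm, T00_20]

theorem T00_11 (s t : ℝ) : Tt (0, 0) (1, 1) s t = Ss s t 1 1 := by
  simp only [Tt, Ss, tab, dd, List.map_cons, List.map_nil, List.sum_cons, List.sum_nil]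
  norm_num [Nat.descFactorial]
  try ring

theorem T11_00 (s t : ℝ) : Tt (1, 1) (0, 0) s t = Ss s t 1 1 := by
  rw [Tt_comm, T00_11]

theorem T00_02 (s t : ℝ) : Tt (0, 0) (0, 2) s t = Ss s t 0 2 - Ss s t 0 1 := by
  simp only [Tt, Ss, tab, dd, List.map_cons, List.map_nil, List.sum_cons, List.sum_nil]
  norm_num [Nat.descFactorial]
  try ring

theorem T02_00 (s t : ℝ) : Tt (0, 2) (0, 0) s t = Ss s t 0 2 - Ss s t 0 1 := by
  rw [Tt_comm, T00_02]

theorem T10_10 (s t : ℝ) : Tt (1, 0) (1, 0) s t = Ss s t 2 0 := by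
  simp only [Tt, Ss, tab, dd, List.map_cons, List.map_nil, List.sum_cons, List.sum_nil]
  norm_num [Nat.descFactorial]
  try ring

theorem T10_01 (s t : ℝ) : Tt (1, 0) (0, 1) s t = Ss s t 1 1 := by
  simp only [Tt, Ss, tab, dd, List.map_cons, List.map_nil, List.sum_cons, List.sum_nil]
  norm_num [Nat.descFactorial]
  try ring

theorem T01_10 (s t : ℝ) : Tt (0, 1) (1, 0) s t = Ss s t 1 1 := by
  rw [Tt_comm, T10_01]

theorem T10_20 (s t : ℝ) : Tt (1, 0) (2, 0) s t = Ss s t 3 0 - Ss s t 2 0 := by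
  simp only [Tt, Ss, tab, dd, List.map_cons, List.map_nil, List.sum_cons, List.sum_nil]
  norm_num [Nat.descFactorial]
  try ring

theorem T20_10 (s t : ℝ) : Tt (2, 0) (1, 0) s t = Ss s t 3 0 - Ss s t 2 0 := by
  rw [Tt_comm, T10_20]

theorem T10_11 (s t : ℝ) : Tt (1, 0) (1, 1) s t = Ss s t 2 1 := by
  simp only [Tt, Ss, tab, dd, List.map_cons, List.map_nil, List.sum_cons, List.sum_nil]
  norm_num [Nat.descFactorial]
  try ring

theorem T11_10 (s t : ℝ) : Tt (1, 1) (1, 0) s t = Ss s t 2 1 := by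
  rw [Tt_comm, T10_11]

theorem T10_02 (s t : ℝ) : Tt (1, 0) (0, 2) s t = Ss s t 1 2 - Ss s t 1 1 := by
  simp only [Tt, Ss, tab, dd, List.map_cons, List.map_nil, List.sum_cons, List.sum_nil]
  norm_num [Nat.descFactorial]
  try ring

theorem T02_10 (s t : ℝ) : Tt (0, 2) (1, 0) s t = Ss s t 1 2 - Ss s t 1 1 := by
  rw [Tt_comm, T10_02]

theorem T01_01 (s t : ℝ) : Tt (0, 1) (0, 1) s t = Ss s t 0 2 := by
  simp only [Tt, Ss, tab, dd, List.map_cons, List.map_nil, List.sum_cons, List.sum_nil]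
  norm_num [Nat.descFactorial]
  try ring

theorem T01_20 (s t : ℝ) : Tt (0, 1) (2, 0) s t = Ss s t 2 1 - Ss s t 1 1 := by
  simp only [Tt, Ss, tab, dd, List.map_cons, List.map_nil, List.sum_cons, List.sum_nil]
  norm_num [Nat.descFactorial]
  try ring

theorem T20_01 (s t : ℝ) : Tt (2, 0) (0, 1) s t = Ss s t 2 1 - Ss s t 1 1 := by
  rw [Tt_comm, T01_20]

theorem T01_11 (s t : ℝ) : Tt (0, 1) (1, 1) s t = Ss s t 1 2 := by
  simp only [Tt, Ss, tab, dd, List.map_cons, List.map_nil, List.sum_cons, List.sum_nil]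
  norm_num [Nat.descFactorial]
  try ring

theorem T11_01 (s t : ℝ) : Tt (1, 1) (0, 1) s t = Ss s t 1 2 := by
  rw [Tt_comm, T01_11]

theorem T01_02 (s t : ℝ) : Tt (0, 1) (0, 2) s t = Ss s t 0 3 - Ss s t 0 2 := by
  simp only [Tt, Ss, tab, dd, List.map_cons, List.map_nil, List.sum_cons, List.sum_nil]
  norm_num [Nat.descFactorial]
  try ring

theorem T02_01 (s t : ℝ) : Tt (0, 2) (0, 1) s t = Ss s t 0 3 - Ss s t 0 2 := by
  rw [Tt_comm, T01_02]

theorem T20_20 (s t : ℝ) : Tt (2, 0) (2, 0) s t = Ss s t 4 0 - 2 * Ss s t 3 0 + Ss s t 2 0 := by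
  simp only [Tt, Ss, tab, dd, List.map_cons, List.map_nil, List.sum_cons, List.sum_nil]
  norm_num [Nat.descFactorial]
  try ring

theorem T20_11 (s t : ℝ) : Tt (2, 0) (1, 1) s t = Ss s t 3 1 - Ss s t 2 1 := by
  simp only [Tt, Ss, tab, dd, List.map_cons, List.map_nil, List.sum_cons, List.sum_nil]
  norm_num [Nat.descFactorial]
  try ring

theorem T11_20 (s t : ℝ) : Tt (1, 1) (2, 0) s t = Ss s t 3 1 - Ss s t 2 1 := by
  rw [Tt_comm, T20_11]

theorem T20_02 (s t : ℝ) : Tt (2, 0) (0, 2) s t = Ss s t 2 2 - Ss s t 2 1 - Ss s t 1 2 + Ss s t 1 1 := by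
  simp only [Tt, Ss, tab, dd, List.map_cons, List.map_nil, List.sum_cons, List.sum_nil]
  norm_num [Nat.descFactorial]
  try ring

theorem T02_20 (s t : ℝ) : Tt (0, 2) (2, 0) s t = Ss s t 2 2 - Ss s t 2 1 - Ss s t 1 2 + Ss s t 1 1 := by
  rw [Tt_comm, T20_02]

theorem T11_11 (s t : ℝ) : Tt (1, 1) (1, 1) s t = Ss s t 2 2 := by
  simp only [Tt, Ss, tab, dd, List.map_cons, List.map_nil, List.sum_cons, List.sum_nil]
  norm_num [Nat.descFactorial]
  try ring

theorem T11_02 (s t : ℝ) : Tt (1, 1) (0, 2) s t = Ss s t 1 3 - Ss s t 1 2 := by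
  simp only [Tt, Ss, tab, dd, List.map_cons, List.map_nil, List.sum_cons, List.sum_nil]
  norm_num [Nat.descFactorial]
  try ring

theorem T02_11 (s t : ℝ) : Tt (0, 2) (1, 1) s t = Ss s t 1 3 - Ss s t 1 2 := by
  rw [Tt_comm, T11_02]

theorem T02_02 (s t : ℝ) : Tt (0, 2) (0, 2) s t = Ss s t 0 4 - 2 * Ss s t 0 3 + Ss s t 0 2 := by
  simp only [Tt, Ss, tab, dd, List.map_cons, List.map_nil, List.sum_cons, List.sum_nil]
  norm_num [Nat.descFactorial]
  try ring


end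

end Pool.Agent.R882
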