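import Pool.Agent.R882.Jet
import Pool.Agent.R882.Surface

/-!
The transformation of the metric under the change of charts.
-/

set_option autoImplicit false
set_option linter.unusedSimpArgs false

open scoped ComplexConjugate
open Filter Topology

namespace Pool.Agent.R882

noncomputable section

namespace HasWD

theorem of_holo {f : ℂ × ℂ → ℂ} {z : ℂ × ℂ} (h : DifferentiableAt ℂ f z) :
    HasWD f z (fun k => fderiv ℂ f z (bas k)) (fun _ => 0) := by
  refine ⟨(fderiv ℂ f z).restrictScalars ℝ, h.hasFDerivAt.restrictScalars ℝ, fun w => ?_⟩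
  have h1 : w = w.1 • bas 0 + w.2 • bas 1 := by
    simp [bas]
  rw [ContinuousLinearMap.coe_restrictScalars']
  conv_lhs => rw [h1]
  rw [map_add, map_smul, map_smul]
  simp [mul_comm]

theorem comp_holo {F : ℂ × ℂ → ℂ} {τ : ℂ × ℂ → ℂ × ℂ} {z : ℂ × ℂ} {d e t1 t2 : Fin 2 → ℂ}
    (hF : HasWD F (τ z) d e) (h1 : HasWD (fun w => (τ w).1) z t1 (fun _ => 0))
    (h2 : HasWD (fun w => (τ w).2) z t2 (fun _ => 0)) :
    HasWD (fun w => F (τ w)) z (fun i => t1 i * d 0 + t2 i * d 1)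
      (fun j => conj (t1 j) * e 0 + conj (t2 j) * e 1) := by
  obtain ⟨L, hL, hL'⟩ := hF
  obtain ⟨L1, hL1, hL1'⟩ := h1
  obtain ⟨L2, hL2, hL2'⟩ := h2
  have h3 : HasFDerivAt τ (L1.prod L2) z := hL1.prodMk hL2
  refine ⟨_, hL.comp z h3, fun w => ?_⟩
  rw [ContinuousLinearMap.comp_apply, hL', ContinuousLinearMap.prod_apply, hL1', hL2']
  simp only [map_add, map_mul, Complex.conj_conj, zero_mul, add_zero]
  ring

theorem uniq {f : ℂ × ℂ → ℂ} {z : ℂ × ℂ} {d e d' e' : Fin 2 → ℂ} (h : HasWD f z d e)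
    (h' : HasWD f z d' e') (k : Fin 2) : d k = d' k ∧ e k = e' k :=
  ⟨by rw [← h.dz_eq k, h'.dz_eq k], by rw [← h.dzb_eq k, h'.dzb_eq k]⟩

end HasWD

/-- The transformation of the metric under a holomorphic map `τ` such that
`h = (h ∘ τ) |M|^2`. -/
theorem transf {D : Set (ℂ × ℂ)} (hD : IsOpen D) {τ : ℂ × ℂ → ℂ × ℂ} {M : ℂ × ℂ → ℂ}
    (hτ : ContDiffOn ℂ (⊤ : WithTop ℕ∞) τ D) (hM : ContDiffOn ℂ (⊤ : WithTop ℕ∞) M D)
    (hM0 : ∀ w ∈ D, M w ≠ 0)
    (hh : ∀ w ∈ D, jet 0 0 w = jet 0 0 (τ w) * (M w * conj (M w))) {z : ℂ × ℂ} (hz : z ∈ D)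
    (i j : Fin 2) :
    Gm i j z = ∑ k, ∑ l, dz i (fun w => crd k (τ w)) z * conj (dz j (fun w => crd l (τ w)) z) *
      Gm k l (τ z) := by
  have hτ1 : ContDiffOn ℂ (⊤ : WithTop ℕ∞) (fun w => (τ w).1) D := hτ.fst
  have hτ2 : ContDiffOn ℂ (⊤ : WithTop ℕ∞) (fun w => (τ w).2) D := hτ.snd
  have hdiff : ∀ {f : ℂ × ℂ → ℂ}, ContDiffOn ℂ (⊤ : WithTop ℕ∞) f D → ∀ w ∈ D,
      DifferentiableAt ℂ f w := by
    intro f hf w hw
    exact (hf.contDiffAt (hD.mem_nhds hw)).differentiableAt (by simp)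
  have hdiff2 : ∀ {f : ℂ × ℂ → ℂ}, ContDiffOn ℂ (⊤ : WithTop ℕ∞) f D → ∀ v : ℂ × ℂ, ∀ w ∈ D,
      DifferentiableAt ℂ (fun w => fderiv ℂ f w v) w := by
    intro f hf v w hw
    have h1 : ContDiffOn ℂ 1 (fun y => fderiv ℂ f y) D := hf.fderiv_of_isOpen hD (by simp)
    have h2 : DifferentiableAt ℂ (fun y => fderiv ℂ f y) w :=
      (h1.contDiffAt (hD.mem_nhds hw)).differentiableAt (by simp)
    exact h2.clm_apply (differentiableAt_const v)
  have w1 : ∀ w ∈ D, HasWD (fun w => (τ w).1) w _ _ := fun w hw =>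
    HasWD.of_holo (hdiff hτ1 w hw)
  have w2 : ∀ w ∈ D, HasWD (fun w => (τ w).2) w _ _ := fun w hw =>
    HasWD.of_holo (hdiff hτ2 w hw)
  have wM : ∀ w ∈ D, HasWD M w _ _ := fun w hw => HasWD.of_holo (hdiff hM w hw)
  -- the first derivatives
  have key : ∀ w ∈ D, uj (un i) 0 w =
      fderiv ℂ (fun w => (τ w).1) w (bas i) * uj (un 0) 0 (τ w) +
        fderiv ℂ (fun w => (τ w).2) w (bas i) * uj (un 1) 0 (τ w) +
        fderiv ℂ M w (bas i) * (M w)⁻¹ := by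
    intro w hw
    have a1 := jet_wd 0 0 w
    have a2 := ((jet_wd 0 0 (τ w)).comp_holo (w1 w hw) (w2 w hw)).mul ((wM w hw).mul (wM w hw).cj)
    have a3 : HasWD (jet 0 0) w _ _ := a2.congr_fun (by
      filter_upwards [hD.mem_nhds hw] with y hy
      exact hh y hy)
    have a4 := (a1.uniq a3 i).1
    simp only [zero_add, map_zero, mul_zero, add_zero] at a4
    have b1 := hM0 w hw
    have b2 : conj (M w) ≠ 0 := (map_ne_zero _).2 b1
    have b3 := jet_ne (τ w)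
    rw [uj, a4, hh w hw, uj, uj]
    field_simp
  -- the second derivatives
  have c1 := uj_wd (un i) 0 z
  have c2 := (((HasWD.of_holo (hdiff2 hτ1 (bas i) z hz)).mul
      ((uj_wd (un 0) 0 (τ z)).comp_holo (w1 z hz) (w2 z hz))).add
    ((HasWD.of_holo (hdiff2 hτ2 (bas i) z hz)).mul
      ((uj_wd (un 1) 0 (τ z)).comp_holo (w1 z hz) (w2 z hz)))).add
    ((HasWD.of_holo (hdiff2 hM (bas i) z hz)).mul ((wM z hz).inv (hM0 z hz)))
  have c3 : HasWD (uj (un i) 0) z _ _ := c2.congr_fun (by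
    filter_upwards [hD.mem_nhds hz] with y hy
    exact key y hy)
  have c4 := (c1.uniq c3 j).2
  simp only [zero_add, neg_zero, zero_div, mul_zero, zero_mul, add_zero] at c4
  have d1 : ∀ j, dz j (fun w => (τ w).1) z = fderiv ℂ (fun w => (τ w).1) z (bas j) := fun j =>
    (w1 z hz).dz_eq j
  have d2 : ∀ j, dz j (fun w => (τ w).2) z = fderiv ℂ (fun w => (τ w).2) z (bas j) := fun j =>
    (w2 z hz).dz_eq j
  have e1 : ∀ k : Fin 2, (fun w => crd k (τ w)) = if k = 0 then (fun w => (τ w).1) else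
      (fun w => (τ w).2) := by
    intro k
    fin_cases k <;> rfl
  have e2 : ∀ k l : Fin 2, uj (un k) (un l) (τ z) - uj (un k) 0 (τ z) * uj 0 (un l) (τ z) =
    Gm k l (τ z) := fun k l => rfl
  have e3 : uj (un i) (un j) z - uj (un i) 0 z * uj 0 (un j) z = Gm i j z := rfl
  rw [e2, e2, e2, e2, e3] at c4
  rw [c4]
  simp only [Fin.sum_univ_two, e1, if_true, if_false, one_ne_zero, d1, d2]
  ring

end

end Pool.Agent.R882
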