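import Pool.Agent.W721.PG.RULED
import Pool.Agent.W619.Y.Parts
import Pool.Agent.TH466.QT.Tens

/-!
Forms of subfields of a ruled field, over any field of characteristic zero.
-/

set_option autoImplicit false
set_option linter.overlappingInstances false
set_option linter.unusedSectionVars false
set_option linter.unusedVariables false



open FF IntermediateField Polynomial IsDedekindDomain Pool.Agent.W619.PQ Pool.Agent.W619.PL
  Pool.Agent.W619.TW Pool.Agent.W603.LV Pool.Agent.W619.Y Pool.Agent.W721.PG.RULED

namespace Pool.Agent.R882.UA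

section

variable {k L : Type} [Field k] [CharZero k] [Field L] [Algebra k L]

/-- a frame on a ruled variety -/
theorem frame {M : IntermediateField k L} {t : L} {n : ℕ} (hn : Algebra.trdeg k L = n)
    (ht : Transcendental M t) (htop : IntermediateField.adjoin M {t} = ⊤) :
    ∃ (x : Fin n → L) (E : Fin n → Derivation k L L) (i0 : Fin n) (w : Place k L),
      IsTranscendenceBasis k x ∧ (∀ j i, E j (x i) = if i = j then 1 else 0) ∧ x i0 = t ∧
      (∀ m : M, E i0 (m : L) = 0) ∧ E i0 t = 1 ∧ w.ord t < 0 ∧ IsDivisorial w n ∧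
      (∀ f : L, (∀ p : M[X], aeval t p ≠ f) → ∃ w' : Place k L, IsDivisorial w' n ∧
        (∀ j, Pres w' (E j)) ∧ ¬ w'.Reg f) ∧
      (∀ j, Pres w ((if j = i0 then t ^ 2 else 1) • E j)) ∧
      ∀ p : M[X], w.ord (aeval t p) ≤ 0 := by
  classical
  have ht0 : t ≠ 0 := by
    rintro rfl
    exact ht isAlgebraic_zero
  have hti : Transcendental M t⁻¹ := by
    intro h
    apply ht
    have := h.inv
    rwa [inv_inv] at this
  have htopi : IntermediateField.adjoin M {t⁻¹} = ⊤ := by
    rw [eq_top_iff, ← htop, IntermediateField.adjoin_le_iff]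
    intro y hy
    rw [Set.mem_singleton_iff] at hy
    rw [hy]
    have h1 : t⁻¹ ∈ IntermediateField.adjoin M {t⁻¹} :=
      IntermediateField.mem_adjoin_simple_self M t⁻¹
    have h2 := inv_mem h1
    rwa [inv_inv] at h2
  obtain ⟨hpl, -, htb, hfr⟩ := places (k := k) ht htop
  obtain ⟨-, ⟨w, hw, hwt⟩, -, -⟩ := places (k := k) hti htopi
  -- the transcendence bases
  obtain ⟨ι, z, hz⟩ := exists_isTranscendenceBasis' k M
  have hx' : IsTranscendenceBasis k (Sum.elim (fun _ : Unit => t) (algebraMap M L ∘ z)) :=
    hz.sumElim_comp htb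
  have hcard : Nonempty (Fin n ≃ Unit ⊕ ι) := by
    have h1 := hx'.lift_cardinalMk_eq_trdeg
    rw [hn] at h1
    have h2 : Cardinal.lift.{0} (Cardinal.mk (Fin n)) = Cardinal.lift.{0} (Cardinal.mk (Unit ⊕ ι)) := by
      rw [Cardinal.mk_fin, Cardinal.lift_natCast]
      have h3 : Cardinal.lift.{0} (Cardinal.mk (Unit ⊕ ι)) = Cardinal.mk (Unit ⊕ ι) :=
        Cardinal.lift_id'.{0, 0} _
      rw [h3]
      have h4 : Cardinal.lift.{0} (Cardinal.mk (Unit ⊕ ι)) = Cardinal.lift.{0} ((n : ℕ) : Cardinal.{0}) := h1
      exact (Cardinal.lift_injective h4).symm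
    exact Cardinal.lift_mk_eq'.1 h2
  obtain ⟨e⟩ := hcard
  have hfin : Finite (Unit ⊕ ι) := Finite.of_equiv _ e
  have hfinι : Finite ι := Finite.sum_right Unit
  have := Fintype.ofFinite ι
  have hcι : Fintype.card ι = n - 1 := by
    have h1 := Fintype.card_congr e
    rw [Fintype.card_fin, Fintype.card_sum, Fintype.card_unit] at h1
    omega
  let e' : Fin (n - 1) ≃ ι := (Fintype.equivFinOfCardEq hcι).symm
  let x : Fin n → L := Sum.elim (fun _ : Unit => t) (algebraMap M L ∘ z) ∘ e
  have hx : IsTranscendenceBasis k x := (isTranscendenceBasis_equiv e).2 hx'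
  choose E hE using fun j => exists_dual x hx j
  let i0 : Fin n := e.symm (Sum.inl ())
  have hxi0 : x i0 = t := by
    change Sum.elim (fun _ : Unit => t) (algebraMap M L ∘ z) (e (e.symm (Sum.inl ()))) = t
    rw [Equiv.apply_symm_apply]
    rfl
  have hxl : ∀ l : ι, x (e.symm (Sum.inr l)) = (z l : L) := by
    intro l
    change Sum.elim (fun _ : Unit => t) (algebraMap M L ∘ z) (e (e.symm (Sum.inr l))) = _
    rw [Equiv.apply_symm_apply]
    rfl
  have hEt : ∀ j, E j t = if i0 = j then 1 else 0 := by
    intro j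
    rw [← hE j i0, hxi0]
  have hEz : ∀ j l, E j (z l : L) = if e.symm (Sum.inr l) = j then 1 else 0 := by
    intro j l
    rw [← hE j, hxl]
  have hE0M : ∀ m : M, E i0 (m : L) = 0 := by
    intro m
    have h1 := der_zero ((E i0).compAlgebraMap M) z hz (fun l => by
      change E i0 (algebraMap M L (z l)) = 0
      have := hEz i0 l
      rw [if_neg] at this
      · exact this
      · intro h
        have h2 : Sum.inr l = (Sum.inl () : Unit ⊕ ι) := e.symm.injective h
        cases h2) m
    exact h1
  have hEM : ∀ (j : Fin n) (m : M), ∃ m' : M, E j (m : L) = (m' : L) := by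
    intro j m
    rcases he : e j with a | l
    · have hj : j = i0 := by
        change j = e.symm (Sum.inl ())
        rw [← e.symm_apply_apply j, he]
      rw [hj]
      exact ⟨0, by rw [hE0M]; rfl⟩
    · have hj : j = e.symm (Sum.inr l) := by
        rw [← he, e.symm_apply_apply]
      obtain ⟨δ, hδ⟩ := exists_dual z hz l
      refine ⟨δ m, ?_⟩
      have h1 := der_zero ((E j).compAlgebraMap M - (Algebra.linearMap M L).compDer δ) z hz
        (fun l' => by
          change E j (algebraMap M L (z l')) - algebraMap M L (δ (z l')) = 0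
          have h2 : E j (algebraMap M L (z l')) = if e.symm (Sum.inr l') = j then 1 else 0 :=
            hEz j l'
          rw [h2, hδ l', hj]
          by_cases hl : l' = l
          · rw [hl, if_pos rfl, if_pos rfl, map_one, sub_self]
          · rw [if_neg hl, if_neg, map_zero, sub_self]
            intro h
            apply hl
            have h3 := e.symm.injective h
            exact Sum.inr_injective h3) m
      exact sub_eq_zero.1 h1
  have hEt' : ∀ j, ∃ c : M, E j t = (c : L) := by
    intro j
    rw [hEt]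
    by_cases h : i0 = j
    · exact ⟨1, by rw [if_pos h]; rfl⟩
    · exact ⟨0, by rw [if_neg h]; rfl⟩
  have hwt' : w.ord t < 0 := by
    rw [w.ord_inv] at hwt
    omega
  have hdiv := divisorial w hw.con z hz.1 n e'
  refine ⟨x, E, i0, w, hx, hE, hxi0, hE0M, by rw [hEt, if_pos rfl], hwt', hdiv, ?_, ?_, ?_⟩
  · intro f hf
    obtain ⟨w', hw', hnr⟩ := hpl _ hf
    exact ⟨w', divisorial w' hw'.con z hz.1 n e', fun l => hw'.pres (E l) (fun p =>
      der_poly (E l) (hEM l) (hEt' l) p), hnr⟩
  · intro l
    apply hw.pres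
    intro p
    apply der_poly
    · intro m
      by_cases hl : l = i0
      · refine ⟨0, ?_⟩
        rw [if_pos hl, hl]
        change t ^ 2 * E i0 (m : L) = _
        rw [hE0M, mul_zero]
        rfl
      · obtain ⟨m', hm'⟩ := hEM l m
        refine ⟨m', ?_⟩
        rw [if_neg hl, one_smul]
        exact hm'
    · by_cases hl : l = i0
      · refine ⟨-1, ?_⟩
        rw [if_pos hl, hl]
        change t ^ 2 * E i0 t⁻¹ = _
        rw [Derivation.leibniz_inv, hEt, if_pos rfl]
        simp only [smul_eq_mul]
        push_cast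
        field_simp
      · refine ⟨0, ?_⟩
        rw [if_neg hl, one_smul, Derivation.leibniz_inv, hEt, if_neg (Ne.symm hl), smul_zero]
        rfl
  · intro p
    by_cases hp : p = 0
    · rw [hp, map_zero, w.ord_zero]
    · rw [(ord_poly w hw.con hwt' p hp).2]
      have h2 : (0 : ℤ) ≤ p.natDegree := Int.natCast_nonneg _
      nlinarith

/-- values of good forms on regular frames are regular -/
theorem good_reg {d m : ℕ} {w : Place k L} {y : Fin d → L} {a : L} (h : YGood d m w y a)
    {F : Fin d → Derivation k L L} (hF : ∀ j, Pres w (F j)) :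
    w.Reg (a * (Matrix.of fun j i => F j (y i)).det ^ m) := by
  obtain ⟨Z, z, hz, hZ, hge⟩ := h
  have h3 : (Matrix.of fun j i => F j (y i)) =
      (Matrix.of fun j c => F j (z c)) * Z.transpose := by
    ext j i
    rw [Matrix.mul_apply, Matrix.of_apply, hZ]
    exact Finset.sum_congr rfl fun c _ => by
      rw [Matrix.of_apply, Matrix.transpose_apply, mul_comm]
  have h4 : Ge w 0 (Matrix.of fun j c => F j (z c)).det :=
    ge_det w _ fun j c => hF j (z c) (hz c)
  have h5 : Ge w 0 ((Matrix.of fun j c => F j (z c)).det ^ m) := by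
    have h6 := Pool.Agent.W619.TW.ge_prod (v := w) (a := 0)
      (f := fun _ : Fin m => (Matrix.of fun j c => F j (z c)).det) (fun _ => h4)
    simpa using h6
  have h7 := hge.mul h5
  rw [add_zero] at h7
  have h8 : a * (Matrix.of fun j i => F j (y i)).det ^ m =
      a * Z.det ^ m * (Matrix.of fun j c => F j (z c)).det ^ m := by
    rw [h3, Matrix.det_mul, Matrix.det_transpose, mul_pow]
    ring
  rw [h8]
  exact h7

/-- completing one nonzero row of a matrix of full rank to an invertible submatrix -/
theorem exists_rows {n d : ℕ} (G : Fin n → Fin d → L) (hspan : Submodule.span L (Set.range G) = ⊤)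
    {i0 : Fin n} (h0 : G i0 ≠ 0) : ∃ (s : Fin d → Fin n) (j0 : Fin d), s j0 = i0 ∧
      (∀ j, j ≠ j0 → s j ≠ i0) ∧ (Matrix.of fun j i => G (s j) i).det ≠ 0 := by
  classical
  have hli : LinearIndepOn L id ({G i0} : Set (Fin d → L)) := by
    rw [linearIndepOn_singleton_iff]
    exact h0
  obtain ⟨b, hb2, hb1, hb3, hb4⟩ := exists_linearIndepOn_id_extension hli
    (Set.singleton_subset_iff.2 ⟨i0, rfl⟩ : ({G i0} : Set (Fin d → L)) ⊆ Set.range G)
  have hbspan : ⊤ ≤ Submodule.span L (Set.range ((↑) : b → Fin d → L)) := by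
    rw [Subtype.range_coe, ← hspan]
    exact Submodule.span_le.2 hb3
  let B : Module.Basis b L (Fin d → L) := Module.Basis.mk hb4 hbspan
  have hfin : Finite b := Module.Finite.finite_basis B
  have := Fintype.ofFinite b
  have hcard : Fintype.card b = d := by
    rw [← Module.finrank_eq_card_basis B, Module.finrank_fin_fun]
  let e : Fin d ≃ b := (Fintype.equivFinOfCardEq hcard).symm
  have hmem : G i0 ∈ b := hb1 (Set.mem_singleton _)
  let j0 : Fin d := e.symm ⟨G i0, hmem⟩
  have hsel : ∀ j : Fin d, ∃ l : Fin n, G l = e j ∧ (j = j0 → l = i0) := by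
    intro j
    by_cases hj : j = j0
    · refine ⟨i0, ?_, fun _ => rfl⟩
      rw [hj]
      change G i0 = (e (e.symm ⟨G i0, hmem⟩) : Fin d → L)
      rw [Equiv.apply_symm_apply]
    · obtain ⟨l, hl⟩ := hb2 (e j).2
      exact ⟨l, hl, fun h => absurd h hj⟩
  choose s hs hs0 using hsel
  refine ⟨s, j0, hs0 j0 rfl, fun j hj h => hj ?_, ?_⟩
  · have h1 := hs j
    rw [h] at h1
    have h2 : e j = ⟨G i0, hmem⟩ := Subtype.ext h1.symm
    rw [← e.symm_apply_apply j, h2]
  · have h1 : LinearIndependent L (Matrix.of fun j i => G (s j) i).row := by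
      have h2 : (Matrix.of fun j i => G (s j) i).row = fun j => ((e j : b) : Fin d → L) := by
        funext j
        exact hs j
      rw [h2]
      exact hb4.comp e e.injective
    rw [Matrix.linearIndependent_rows_iff_isUnit, Matrix.isUnit_iff_isUnit_det] at h1
    exact h1.ne_zero

/-- **Forms of a variety dominated by a ruled variety.** If the form `a (dy) ^ m` is regular at all
prime divisors then the functions `y` are constant along the rulings. -/
theorem ruled_ygood {M : IntermediateField k L} {t : L} {n d m : ℕ} (hn : Algebra.trdeg k L = n)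
    (ht : Transcendental M t) (htop : IntermediateField.adjoin M {t} = ⊤)
    {y : Fin d → L} (hy : AlgebraicIndependent k y) {a : L} (ha : a ≠ 0) (hm : 1 ≤ m)
    (hgood : ∀ w : Place k L, IsDivisorial w n → YGood d m w y a)
    {D : Derivation k L L} (hDt : D t = 1) (hDM : ∀ μ : M, D (μ : L) = 0) : ∀ i, D (y i) = 0 := by
  classical
  obtain ⟨x, E, i0, w, hx, hE, hxi0, hE0M, hEt, hwt, hdiv, hfin, hinf, hord⟩ :=
    frame (k := k) hn ht htop
  have hD : D = E i0 := by
    have h1 : ∀ f : L, (D - E i0) f = 0 := by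
      intro f
      obtain ⟨-, -, -, hfr⟩ := places (k := k) ht htop
      have hp : ∀ p : M[X], (D - E i0) (aeval t p) = 0 := by
        intro p
        induction p using Polynomial.induction_on' with
        | add p q hp hq => rw [map_add, map_add, hp, hq, add_zero]
        | monomial n a =>
          rw [aeval_monomial, Derivation.leibniz, Derivation.leibniz_pow]
          have h2 : (D - E i0) t = 0 := by
            change D t - E i0 t = 0
            rw [hDt, hEt, sub_self]
          have h3 : (D - E i0) (algebraMap M L a) = 0 := by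
            change D (a : L) - E i0 (a : L) = 0
            rw [hDM, hE0M, sub_self]
          rw [h2, h3]
          simp
      obtain ⟨p, q, hq, hpq⟩ := hfr f
      have hq0 : aeval t q ≠ 0 := by
        intro h
        exact hq ((transcendental_iff_injective.1 ht) (by rw [h, map_zero]))
      have h2 := congrArg (D - E i0) hpq
      rw [Derivation.leibniz, hp, hp, smul_zero, zero_add, smul_eq_mul] at h2
      exact (mul_eq_zero.1 h2).resolve_left hq0
    ext f
    exact sub_eq_zero.1 (h1 f)
  rw [hD]
  by_contra hcon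
  push Not at hcon
  obtain ⟨i1, hi1⟩ := hcon
  have hG0 : (fun i => E i0 (y i)) ≠ 0 := fun h => hi1 (congrFun h i1)
  obtain ⟨Dy, hDy⟩ := Pool.Agent.TH466.QT.exists_dual_of_indep hy
  have hspan : Submodule.span L (Set.range fun l i => E l (y i)) = ⊤ := by
    rw [eq_top_iff, ← (Pi.basisFun L (Fin d)).span_eq, Submodule.span_le]
    rintro _ ⟨j, rfl⟩
    have h1 : (Pi.basisFun L (Fin d)) j = ∑ l, Dy j (x l) • fun i => E l (y i) := by
      funext i
      rw [Finset.sum_apply, Pi.basisFun_apply]
      have h2 : Dy j (y i) = ∑ l, Dy j (x l) * E l (y i) := by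
        have h3 := der_zero (Dy j - ∑ l, Dy j (x l) • E l) x hx (fun i => by
          change Dy j (x i) - (∑ l, Dy j (x l) • E l) (x i) = 0
          rw [der_sum]
          simp only [hE]
          simp) (y i)
        have h4 : Dy j (y i) - (∑ l, Dy j (x l) • E l) (y i) = 0 := h3
        rw [der_sum] at h4
        exact sub_eq_zero.1 h4
      change (Pi.single j (1 : L) : Fin d → L) i = ∑ l, Dy j (x l) * E l (y i)
      rw [← h2, hDy, Pi.single_apply]
    rw [h1]
    exact Submodule.sum_mem _ fun l _ => Submodule.smul_mem _ _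
      (Submodule.subset_span ⟨l, rfl⟩)
  obtain ⟨s, j0, hs0, hs1, hdet⟩ := exists_rows (fun l i => E l (y i)) hspan hG0
  obtain ⟨T, hT⟩ : ∃ T : L, T = a * (Matrix.of fun j i => E (s j) (y i)).det ^ m := ⟨_, rfl⟩
  have hT0 : T ≠ 0 := by
    rw [hT]
    exact mul_ne_zero ha (pow_ne_zero _ hdet)
  have hpoly : ∃ p : M[X], aeval t p = T := by
    by_contra hcon
    push Not at hcon
    obtain ⟨w', hw', hpres, hnr⟩ := hfin _ hcon
    apply hnr
    rw [hT]
    exact good_reg (hgood w' hw') fun j => hpres (s j)
  obtain ⟨p, hp⟩ := hpoly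
  have h1 := good_reg (hgood w hdiv) (F := fun j => (if s j = i0 then t ^ 2 else (1 : L)) • E (s j))
    fun j => hinf (s j)
  have h2 : (Matrix.of fun j i => ((if s j = i0 then t ^ 2 else (1 : L)) • E (s j)) (y i)).det =
      t ^ 2 * (Matrix.of fun j i => E (s j) (y i)).det := by
    have h3 : (Matrix.of fun j i => ((if s j = i0 then t ^ 2 else (1 : L)) • E (s j)) (y i)) =
        Matrix.of fun j i => (if j = j0 then t ^ 2 else (1 : L)) *
          (Matrix.of fun j i => E (s j) (y i)) j i := by
      ext j i
      rw [Matrix.of_apply, Matrix.of_apply, Matrix.of_apply]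
      by_cases hj : j = j0
      · subst hj
        rw [if_pos hs0, if_pos rfl]
        rfl
      · rw [if_neg (hs1 j hj), if_neg hj]
        rfl
    rw [h3, Matrix.det_mul_column, Finset.prod_ite_eq' Finset.univ j0 (fun _ => t ^ 2),
      if_pos (Finset.mem_univ j0)]
  rw [h2] at h1
  have ht0 : t ≠ 0 := by
    rintro rfl
    exact ht isAlgebraic_zero
  have h4 : a * (t ^ 2 * (Matrix.of fun j i => E (s j) (y i)).det) ^ m = (t ^ 2) ^ m * T := by
    rw [hT, mul_pow]
    ring
  rw [h4] at h1
  have h5 : (t ^ 2) ^ m * T ≠ 0 := mul_ne_zero (pow_ne_zero _ (pow_ne_zero _ ht0)) hT0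
  rw [w.reg_iff h5, w.ord_mul (pow_ne_zero _ (pow_ne_zero _ ht0)) hT0, w.ord_pow, w.ord_pow] at h1
  have h6 := hord p
  rw [hp] at h6
  have h7 : (1 : ℤ) ≤ m := by exact_mod_cast hm
  push_cast at h1
  nlinarith

end

end Pool.Agent.R882.UA
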