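import Pool.Agent.R882.UA
import Pool.Agent.TH466.QG.Low
import Pool.Agent.W602.GT.KPsefS
import Pool.Agent.W602.GT.KPick
import Pool.Agent.W619.Y.Unir
import Pool.Agent.Y172.Cov1
import Pool.Agent.Y184.NT.Top

/-!
Fibrations of uniruled varieties: the base or the general fibre has no pluricanonical forms.
-/

set_option autoImplicit false
set_option linter.overlappingInstances false
set_option linter.unusedSectionVars false
set_option linter.unusedVariables false

open FF IntermediateField Polynomial IsDedekindDomain Pool.Agent.W619.PQ Pool.Agent.W619.PL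
  Pool.Agent.W619.TW Pool.Agent.W603.LV Pool.Agent.W619.Y Pool.Agent.W721.PG.RULED

namespace Pool.Agent.R882.UA

/-- the canonical divisor of a ruled variety over a field of characteristic zero is not
pseudo-effective (`Pool.Agent.W721.PG.RULED.main` without the assumption that the field is
algebraically closed) -/
theorem ruled_not_psef {k L : Type} [Field k] [CharZero k] [Field L] [Algebra k L]
    (M : IntermediateField k L) (t : L) (n : ℕ) (hn : Algebra.trdeg k L = n)
    (ht : Transcendental M t) (htop : IntermediateField.adjoin M {t} = ⊤) :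
    ¬ IsPsef k L n (fun _ => False) := by
  classical
  intro hpsef
  obtain ⟨S, hS⟩ := hpsef
  have ht0 : t ≠ 0 := by
    rintro rfl
    exact ht isAlgebraic_zero
  have hti : Transcendental M t⁻¹ := by
    intro h
    apply ht
    have := h.inv
    rwa [inv_inv] at this
  have htopi : IntermediateField.adjoin M {t⁻¹} = ⊤ := by
    rw [eq_top_iff, ← htop, IntermediateField.adjoin_le_iff]
    intro y hy
    rw [Set.mem_singleton_iff] at hy
    rw [hy]
    have h1 : t⁻¹ ∈ IntermediateField.adjoin M {t⁻¹} :=
      IntermediateField.mem_adjoin_simple_self M t⁻¹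
    have h2 := inv_mem h1
    rwa [inv_inv] at h2
  obtain ⟨hpl, -, htb, hfr⟩ := places (k := k) ht htop
  obtain ⟨-, ⟨w, hw, hwt⟩, -, -⟩ := places (k := k) hti htopi
  -- the transcendence bases
  obtain ⟨ι, z, hz⟩ := exists_isTranscendenceBasis' k M
  have hx' : IsTranscendenceBasis k (Sum.elim (fun _ : Unit => t) (algebraMap M L ∘ z)) :=
    hz.sumElim_comp htb
  have hcard : Nonempty (Fin n ≃ Unit ⊕ ι) := by
    have h1 := hx'.lift_cardinalMk_eq_trdeg
    rw [hn] at h1
    have h2 : Cardinal.lift.{0} (Cardinal.mk (Fin n)) = Cardinal.lift.{0} (Cardinal.mk (Unit ⊕ ι)) := by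
      rw [Cardinal.mk_fin, Cardinal.lift_natCast]
      have h3 : Cardinal.lift.{0} (Cardinal.mk (Unit ⊕ ι)) = Cardinal.mk (Unit ⊕ ι) :=
        Cardinal.lift_id'.{0, 0} _
      rw [h3]
      have h4 : Cardinal.lift.{0} (Cardinal.mk (Unit ⊕ ι)) = Cardinal.lift.{0} ((n : ℕ) : Cardinal.{0}) := h1
      exact (Cardinal.lift_injective h4).symm
    exact Cardinal.lift_mk_eq'.1 h2
  obtain ⟨e⟩ := hcard
  have hfin : Finite (Unit ⊕ ι) := Finite.of_equiv _ e
  have hfinι : Finite ι := Finite.sum_right Unit
  have := Fintype.ofFinite ι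
  have hcι : Fintype.card ι = n - 1 := by
    have h1 := Fintype.card_congr e
    rw [Fintype.card_fin, Fintype.card_sum, Fintype.card_unit] at h1
    omega
  let e' : Fin (n - 1) ≃ ι := (Fintype.equivFinOfCardEq hcι).symm
  let x : Fin n → L := Sum.elim (fun _ : Unit => t) (algebraMap M L ∘ z) ∘ e
  have hx : IsTranscendenceBasis k x := (isTranscendenceBasis_equiv e).2 hx'
  choose E hE using fun j => exists_dual x hx j
  let i0 : Fin n := e.symm (Sum.inl ())
  have hxi0 : x i0 = t := by
    change Sum.elim (fun _ : Unit => t) (algebraMap M L ∘ z) (e (e.symm (Sum.inl ()))) = t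
    rw [Equiv.apply_symm_apply]
    rfl
  have hxl : ∀ l : ι, x (e.symm (Sum.inr l)) = (z l : L) := by
    intro l
    change Sum.elim (fun _ : Unit => t) (algebraMap M L ∘ z) (e (e.symm (Sum.inr l))) = _
    rw [Equiv.apply_symm_apply]
    rfl
  have hEt : ∀ j, E j t = if i0 = j then 1 else 0 := by
    intro j
    rw [← hE j i0, hxi0]
  have hEz : ∀ j l, E j (z l : L) = if e.symm (Sum.inr l) = j then 1 else 0 := by
    intro j l
    rw [← hE j, hxl]
  have hE0M : ∀ m : M, E i0 (m : L) = 0 := by
    intro m
    have h1 := der_zero ((E i0).compAlgebraMap M) z hz (fun l => by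
      change E i0 (algebraMap M L (z l)) = 0
      have := hEz i0 l
      rw [if_neg] at this
      · exact this
      · intro h
        have h2 : Sum.inr l = (Sum.inl () : Unit ⊕ ι) := e.symm.injective h
        cases h2) m
    exact h1
  have hEM : ∀ (j : Fin n) (m : M), ∃ m' : M, E j (m : L) = (m' : L) := by
    intro j m
    rcases he : e j with a | l
    · have hj : j = i0 := by
        change j = e.symm (Sum.inl ())
        rw [← e.symm_apply_apply j, he]
      rw [hj]
      exact ⟨0, by rw [hE0M]; rfl⟩
    · have hj : j = e.symm (Sum.inr l) := by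
        rw [← he, e.symm_apply_apply]
      obtain ⟨δ, hδ⟩ := exists_dual z hz l
      refine ⟨δ m, ?_⟩
      have h1 := der_zero ((E j).compAlgebraMap M - (Algebra.linearMap M L).compDer δ) z hz
        (fun l' => by
          change E j (algebraMap M L (z l')) - algebraMap M L (δ (z l')) = 0
          have h2 : E j (algebraMap M L (z l')) = if e.symm (Sum.inr l') = j then 1 else 0 :=
            hEz j l'
          rw [h2, hδ l', hj]
          by_cases hl : l' = l
          · rw [hl, if_pos rfl, if_pos rfl, map_one, sub_self]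
          · rw [if_neg hl, if_neg, map_zero, sub_self]
            intro h
            apply hl
            have h3 := e.symm.injective h
            exact Sum.inr_injective h3) m
      exact sub_eq_zero.1 h1
  have hEt' : ∀ j, ∃ c : M, E j t = (c : L) := by
    intro j
    rw [hEt]
    by_cases h : i0 = j
    · exact ⟨1, by rw [if_pos h]; rfl⟩
    · exact ⟨0, by rw [if_neg h]; rfl⟩
  obtain ⟨A, hA0, hA⟩ := common hfr S
  have hwt' : w.ord t < 0 := by
    rw [w.ord_inv] at hwt
    omega
  have hAord := ord_poly w hw.con hwt' A hA0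
  -- the choice of the multiple
  let C : ℤ := ∑ s ∈ S, |w.ord s| + |w.ord (aeval t A)|
  have hC : ∀ s ∈ S, |w.ord s| + |w.ord (aeval t A)| ≤ C := by
    intro s hs
    have h1 := Finset.single_le_sum (f := fun s => |w.ord s|) (fun i _ => abs_nonneg _) hs
    change |w.ord s| + |w.ord (aeval t A)| ≤ ∑ s ∈ S, |w.ord s| + |w.ord (aeval t A)|
    linarith
  obtain ⟨N, hN⟩ : ∃ N : ℕ, C < N := ⟨(C.toNat + 1), by
    push_cast
    have := Int.self_le_toNat C
    omega⟩
  obtain ⟨j, hj, ω, ⟨hform, hreg, -⟩, D0, hD0⟩ := hS N
  have hdec : ∀ D : Derivation k L L, D = ∑ l, D (x l) • E l := by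
    intro D
    ext f
    have h1 := der_zero (D - ∑ l, D (x l) • E l) x hx (fun i => by
      change D (x i) - (∑ l, D (x l) • E l) (x i) = 0
      rw [der_sum]
      simp only [hE]
      simp) f
    exact sub_eq_zero.1 h1
  have hfne : ω E ≠ 0 := by
    intro h0
    apply hD0
    have h1 := hform (Matrix.of fun i l => D0 i (x l)) E
    have h2 : (fun i => ∑ l, (Matrix.of fun i l => D0 i (x l)) i l • E l) = D0 := by
      funext i
      exact (hdec (D0 i)).symm
    rw [h2, h0, mul_zero] at h1
    exact h1
  -- finite places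
  have hpoly : ∃ p : M[X], aeval t p = ω E * (aeval t A) ^ j := by
    by_contra hcon
    push Not at hcon
    obtain ⟨w', hw', hnr⟩ := hpl _ hcon
    apply hnr
    have hdiv := divisorial w' hw'.con z hz.1 n e'
    have h1 := hreg w' hdiv (fun h => h) E (fun l => hw'.pres (E l) (fun p =>
      der_poly (E l) (hEM l) (hEt' l) p))
    rcases h1 with h1 | ⟨s, hs, hs0, hle⟩
    · exact absurd h1 hfne
    · obtain ⟨p, hp⟩ := hA s hs
      have h2 : aeval t A * s ≠ 0 := mul_ne_zero hAord.1 hs0
      have h3 := (w'.reg_iff h2).1 (by rw [← hp]; exact hw'.reg p)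
      rw [w'.ord_mul hAord.1 hs0] at h3
      right
      rw [w'.ord_mul hfne (pow_ne_zero _ hAord.1), w'.ord_pow]
      have h4 : (0 : ℤ) ≤ j := Int.natCast_nonneg j
      nlinarith
  obtain ⟨p, hp⟩ := hpoly
  have hp0 : p ≠ 0 := by
    rintro rfl
    rw [map_zero] at hp
    exact mul_ne_zero hfne (pow_ne_zero _ hAord.1) hp.symm
  have hple : w.ord (ω E) + j * w.ord (aeval t A) ≤ 0 := by
    have h1 := (ord_poly w hw.con hwt' p hp0).2
    rw [hp, w.ord_mul hfne (pow_ne_zero _ hAord.1), w.ord_pow] at h1
    rw [h1]
    have h2 : (0 : ℤ) ≤ p.natDegree := Int.natCast_nonneg _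
    nlinarith
  -- the place at infinity
  have hdiv := divisorial w hw.con z hz.1 n e'
  have h1 := hform (Matrix.diagonal fun i => if i = i0 then t ^ 2 else 1) E
  have h2 : (fun i => ∑ l, (Matrix.diagonal fun i => if i = i0 then t ^ 2 else 1) i l • E l) =
      fun i => (if i = i0 then t ^ 2 else 1) • E i := by
    funext i
    rw [Finset.sum_eq_single i]
    · rw [Matrix.diagonal_apply_eq]
    · intro b _ hb
      rw [Matrix.diagonal_apply_ne _ hb.symm, zero_smul]
    · intro h
      exact absurd (Finset.mem_univ i) h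
  rw [h2, Matrix.det_diagonal, Finset.prod_ite_eq' Finset.univ i0 (fun _ => t ^ 2),
    if_pos (Finset.mem_univ i0)] at h1
  have h3 := hreg w hdiv (fun h => h) (fun i => (if i = i0 then t ^ 2 else 1) • E i) (by
    intro l
    apply hw.pres
    intro p
    apply der_poly
    · intro m
      by_cases hl : l = i0
      · refine ⟨0, ?_⟩
        rw [if_pos hl, hl]
        change t ^ 2 * E i0 (m : L) = _
        rw [hE0M, mul_zero]
        rfl
      · obtain ⟨m', hm'⟩ := hEM l m
        refine ⟨m', ?_⟩
        rw [if_neg hl, one_smul]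
        exact hm'
    · by_cases hl : l = i0
      · refine ⟨-1, ?_⟩
        rw [if_pos hl, hl]
        change t ^ 2 * E i0 t⁻¹ = _
        rw [Derivation.leibniz_inv, hEt, if_pos rfl]
        simp only [smul_eq_mul]
        push_cast
        field_simp
      · refine ⟨0, ?_⟩
        rw [if_neg hl, one_smul, Derivation.leibniz_inv, hEt, if_neg (Ne.symm hl), smul_zero]
        rfl)
  rw [h1] at h3
  have hne : (t ^ 2) ^ (j * N) * ω E ≠ 0 := mul_ne_zero (pow_ne_zero _ (pow_ne_zero _ ht0)) hfne
  rcases h3 with h3 | ⟨s, hs, hs0, hle⟩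
  · exact hne h3
  · rw [w.ord_mul (pow_ne_zero _ (pow_ne_zero _ ht0)) hfne, w.ord_pow, w.ord_pow] at hle
    have h4 := hC s hs
    have h5 : -|w.ord s| ≤ w.ord s := neg_abs_le _
    have h6 : -|w.ord (aeval t A)| ≤ w.ord (aeval t A) := neg_abs_le _
    have hj' : (1 : ℤ) ≤ j := by exact_mod_cast hj
    have hN0 : (0 : ℤ) ≤ N := Int.natCast_nonneg _
    push_cast at hle
    -- `j (ord s + ord A + 2 N) ≤ 0`
    have h7 : (j : ℤ) * (w.ord s + w.ord (aeval t A) + 2 * N) ≤ 0 := by
      have h8 : (j : ℤ) * N * (2 * w.ord t) ≤ (j : ℤ) * N * (-2) := by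
        apply mul_le_mul_of_nonneg_left
        · omega
        · positivity
      nlinarith
    have h9 : 0 < w.ord s + w.ord (aeval t A) + 2 * N := by linarith
    nlinarith


section

open Pool.Agent.W602.GT (consts der_of_alg)

theorem der_sum' {k K L : Type} [Field k] [Field K] [Algebra k K] [Field L]
    [Algebra k L] [Algebra K L] [IsScalarTower k K L] {ι : Type} (s : Finset ι) (v : ι → L)
    (D : ι → Derivation k K L) (z : K) :
    (∑ j ∈ s, v j • D j) z = ∑ j ∈ s, v j * D j z := by
  classical
  induction s using Finset.induction_on with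
  | empty => simp
  | insert a s ha ih =>
    rw [Finset.sum_insert ha, Finset.sum_insert ha]
    change v a * D a z + (∑ j ∈ s, v j • D j) z = _
    rw [ih]

/-- the good forms lift to finite extensions -/
theorem ygood_lift {k K L : Type} [Field k] [CharZero k] [Field K] [Algebra k K] [Field L]
    [Algebra k L] [Algebra K L] [IsScalarTower k K L] [Algebra.IsAlgebraic K L] {n d m : ℕ}
    (hn : Algebra.trdeg k K = n) {v : Place k K} {w : Place k L} {e : ℕ} (hov : Over w v e)
    {y : Fin d → K} {a : K} (h : YGood d m v y a) :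
    YGood d m w (fun i => algebraMap K L (y i)) (algebraMap K L a) := by
  classical
  obtain ⟨Z, z, hz, hZ, hge⟩ := h
  refine ⟨Z.map (algebraMap K L), fun c => algebraMap K L (z c), fun c => hov.reg.2 (hz c),
    fun D l => ?_, ?_⟩
  · obtain ⟨x, E, hx, hE⟩ := Pool.Agent.Y172.exists_crd (k := k) (K := K) hn
    have h1 : ∀ f : K, D (algebraMap K L f) = ∑ i, D (algebraMap K L (x i)) *
        algebraMap K L (E i f) := by
      intro f
      let T : Derivation k K L := ∑ i, D (algebraMap K L (x i)) •
        ((Algebra.linearMap K L).compDer (E i))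
      have hT : ∀ f, T f = ∑ i, D (algebraMap K L (x i)) * algebraMap K L (E i f) := by
        intro f
        exact der_sum' _ _ _ _
      have h2 := der_zero (D.compAlgebraMap K - T) x hx (fun i => by
        change D (algebraMap K L (x i)) - T (x i) = 0
        rw [hT]
        simp only [hE]
        simp) f
      have h3 : D (algebraMap K L f) - T f = 0 := h2
      rw [← hT]
      exact sub_eq_zero.1 h3
    calc _ = ∑ i, D (algebraMap K L (x i)) * algebraMap K L (E i (y l)) := h1 _
      _ = ∑ i, ∑ c, algebraMap K L (Z l c) * (D (algebraMap K L (x i)) *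
          algebraMap K L (E i (z c))) := by
        refine Finset.sum_congr rfl fun i _ => ?_
        rw [hZ, map_sum, Finset.mul_sum]
        refine Finset.sum_congr rfl fun c _ => ?_
        rw [map_mul]
        ring
      _ = ∑ c, ∑ i, algebraMap K L (Z l c) * (D (algebraMap K L (x i)) *
          algebraMap K L (E i (z c))) := Finset.sum_comm
      _ = _ := by
        refine Finset.sum_congr rfl fun c _ => ?_
        rw [h1 (z c), Finset.mul_sum]
        rfl
  · rw [← RingHom.mapMatrix_apply, ← RingHom.map_det, ← map_pow, ← map_mul]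
    exact hov.reg.2 hge

/-- **Fibrations of uniruled varieties.** Let `L` be the function field of a uniruled variety, `E` a
subfield, the function field of the base of a fibration. If the base has a nonzero pluricanonical
form then the canonical divisor of the generic fibre is not pseudo-effective. -/
theorem uniruled_fibration {L : Type} [Field L] [Algebra ℂ L] [Algebra.EssFiniteType ℂ L]
    {n d f m : ℕ} (hn : Algebra.trdeg ℂ L = n) (hU : IsUniruled ℂ L n)
    (E : IntermediateField ℂ L) [Algebra.EssFiniteType ℂ E] (hd : Algebra.trdeg ℂ E = d)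
    (hf : Algebra.trdeg E L = f) (hm : 1 ≤ m) (η : (Fin d → Derivation ℂ E E) → E)
    (hη : IsPluriForm ℂ E d m η)
    (hreg : ∀ u : Place ℂ E, IsDivisorial u d → RegularAt u d η) (D0 : Fin d → Derivation ℂ E E)
    (h0 : η D0 ≠ 0) : ¬ IsPsef E L f (fun _ => False) := by
  classical
  intro hps
  obtain ⟨M, _, _, hM, htr, ⟨φ⟩⟩ := hU
  let _ : Algebra L (RatFunc M) := φ.toRingHom.toAlgebra
  have t1 : IsScalarTower ℂ L (RatFunc M) := IsScalarTower.of_algebraMap_eq fun c => by
    change _ = φ (algebraMap ℂ L c)
    rw [φ.commutes]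
  have hFF : IsFF M (RatFunc M) := by
    refine IsFF.of_finite (f := (RatFunc.X : RatFunc M)) RatFunc.transcendental_X ?_
    rw [RatFunc.adjoin_X]
    exact Module.Finite.of_surjective (Algebra.linearMap (⊤ : IntermediateField M (RatFunc M))
      (RatFunc M)) fun z => ⟨⟨z, trivial⟩, rfl⟩
  have hess0 : Algebra.EssFiniteType M (RatFunc M) := hFF.ess
  have hessR : Algebra.EssFiniteType ℂ (RatFunc M) := Algebra.EssFiniteType.comp ℂ M (RatFunc M)
  have hR : Algebra.trdeg ℂ (RatFunc M) = n := by
    rw [← trdeg_add_eq ℂ M (A := RatFunc M), hFF.trdeg]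
    exact htr
  obtain ⟨b, hb⟩ := exists_fin_basis (k := ℂ) n hn
  have hyR : AlgebraicIndependent ℂ (fun i => φ (b i)) := hb.1.map' φ.injective
  have hyb : IsTranscendenceBasis ℂ (fun i => φ (b i)) := by
    refine hyR.isTranscendenceBasis_of_lift_trdeg_le_of_finite ?_
    rw [hR]
    simp
  have halg : Algebra.IsAlgebraic L (RatFunc M) := by
    have h1 : Algebra.IsAlgebraic (IntermediateField.adjoin ℂ (Set.range fun i => φ (b i)))
      (RatFunc M) := hyb.isAlgebraic_field
    refine ⟨fun z => ?_⟩
    have h2 := h1.isAlgebraic z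
    have hle : IntermediateField.adjoin ℂ (Set.range fun i => φ (b i)) ≤ φ.fieldRange := by
      rw [adjoin_le_iff]
      rintro _ ⟨i, rfl⟩
      exact ⟨b i, rfl⟩
    let e : L ≃ₐ[ℂ] φ.fieldRange := AlgEquiv.ofInjectiveField φ
    let g : IntermediateField.adjoin ℂ (Set.range fun i => φ (b i)) →+* L :=
      (e.symm : φ.fieldRange →+* L).comp (inclusion hle).toRingHom
    refine h2.ringHom_of_comp_eq g (RingHom.id _) g.injective ?_
    ext w
    change φ (e.symm (inclusion hle w)) = (w : RatFunc M)
    have h3 : e (e.symm (inclusion hle w)) = inclusion hle w := e.apply_symm_apply _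
    exact congrArg Subtype.val h3
  have hfd : FiniteDimensional L (RatFunc M) := by
    have h1 : Algebra.EssFiniteType L (RatFunc M) := Algebra.EssFiniteType.of_comp ℂ L (RatFunc M)
    obtain ⟨s, hs⟩ := IntermediateField.fg_top L (RatFunc M)
    have h2 : FiniteDimensional L (IntermediateField.adjoin L (s : Set (RatFunc M))) :=
      IntermediateField.finiteDimensional_adjoin fun x _ => (halg.isAlgebraic x).isIntegral
    rw [hs] at h2
    exact h2.equiv IntermediateField.topEquiv.toLinearEquiv
  obtain ⟨M0, ht, htop⟩ := ratFunc_ruled (k := ℂ) (M := M)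
  -- the derivation along the ruling
  obtain ⟨-, EE, i0, -, -, -, -, hE0M, hEt, -⟩ := frame (k := ℂ) hR ht htop
  obtain ⟨D, hD⟩ : ∃ D : Derivation ℂ (RatFunc M) (RatFunc M), D = EE i0 := ⟨_, rfl⟩
  rw [← hD] at hEt hE0M
  -- the forms of the base are constant along the ruling
  obtain ⟨y, F, hy, hF⟩ := Pool.Agent.Y172.exists_crd (k := ℂ) (K := E) hd
  have ha : η F ≠ 0 := by
    intro h
    apply h0
    have h1 := Pool.Agent.Y172.pluri_coord hy hF (m := m) (ω := η) hη D0
    rw [h1, h, mul_zero]
  have haL : ((η F : E) : L) ≠ 0 := fun h => ha (Subtype.ext h)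
  have haR : algebraMap L (RatFunc M) ((η F : E) : L) ≠ 0 :=
    (map_ne_zero_iff _ (algebraMap L (RatFunc M)).injective).2 haL
  have hyL : AlgebraicIndependent ℂ (fun i => (y i : L)) :=
    hy.1.map' (f := E.val) E.val.toRingHom.injective
  have hyN : AlgebraicIndependent ℂ (fun i => algebraMap L (RatFunc M) (y i : L)) :=
    hyL.map' (f := φ) φ.injective
  have hgood : ∀ w : Place ℂ (RatFunc M), IsDivisorial w n →
      YGood d m w (fun i => algebraMap L (RatFunc M) (y i : L))
        (algebraMap L (RatFunc M) ((η F : E) : L)) := by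
    intro w hw
    obtain ⟨v, e, hov⟩ := Pool.Agent.Y172.exists_below (K := L) w
    have hv : IsDivisorial v n := pDIVI ℂ L (RatFunc M) n v w e hov hw
    have h1 := pYLOC ℂ L E d n m hd hn (fun y hy => fin_over y hy) η hη hreg y F hy hF v hv
    exact ygood_lift hn hov h1
  have hDy := ruled_ygood (k := ℂ) hR ht htop hyN haR hm hgood hEt hE0M
  -- the derivation vanishes on the base
  have hDE : ∀ c : E, D (algebraMap L (RatFunc M) (c : L)) = 0 := by
    intro c
    have t3 : IsScalarTower ℂ E (RatFunc M) := IsScalarTower.of_algebraMap_eq fun c => by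
      change _ = φ (algebraMap ℂ L c)
      rw [φ.commutes]
    exact der_zero (D.compAlgebraMap E) y hy hDy c
  -- the field of constants of the derivation, over the base
  let M1 : IntermediateField E (RatFunc M) :=
    { carrier := {g | D g = 0}
      mul_mem' := fun {a b} ha hb => by
        change D (a * b) = 0
        rw [D.leibniz, show D a = 0 from ha, show D b = 0 from hb, smul_zero, smul_zero, add_zero]
      one_mem' := D.map_one_eq_zero
      add_mem' := fun {a b} ha hb => by
        change D (a + b) = 0
        rw [map_add, show D a = 0 from ha, show D b = 0 from hb, add_zero]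
      zero_mem' := map_zero D
      algebraMap_mem' := fun c => hDE c
      inv_mem' := fun a ha => by
        change D a⁻¹ = 0
        rw [Derivation.leibniz_inv, show D a = 0 from ha, smul_zero] }
  have hX1 : Transcendental M1 (RatFunc.X : RatFunc M) := by
    intro h
    have h1 : IsAlgebraic (consts D) (RatFunc.X : RatFunc M) := by
      obtain ⟨p, hp, hp0⟩ := h
      let g : M1 →+* consts D :=
        { toFun := fun c => ⟨(c : RatFunc M), c.2⟩
          map_one' := rfl
          map_mul' := fun _ _ => rfl
          map_zero' := rfl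
          map_add' := fun _ _ => rfl }
      refine ⟨p.map g, (Polynomial.map_ne_zero_iff g.injective).2 hp, ?_⟩
      rw [Polynomial.aeval_def, Polynomial.eval₂_map]
      exact hp0
    have h2 := der_of_alg D h1
    rw [hEt] at h2
    exact one_ne_zero h2
  have htop1 : IntermediateField.adjoin M1 {(RatFunc.X : RatFunc M)} = ⊤ := by
    rw [eq_top_iff]
    intro g _
    have h1 : g ∈ IntermediateField.adjoin M0 {(RatFunc.X : RatFunc M)} := by
      rw [htop]
      trivial
    have hle : (IntermediateField.adjoin M0 {(RatFunc.X : RatFunc M)}).toSubfield ≤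
        (IntermediateField.adjoin M1 {(RatFunc.X : RatFunc M)}).toSubfield := by
      change Subfield.closure _ ≤ _
      rw [Subfield.closure_le]
      rintro z (⟨c, rfl⟩ | hz)
      · exact (IntermediateField.adjoin M1 {(RatFunc.X : RatFunc M)}).algebraMap_mem
          (⟨(c : RatFunc M), hE0M c⟩ : M1)
      · rw [Set.mem_singleton_iff.mp hz]
        exact IntermediateField.mem_adjoin_simple_self _ _
    exact hle h1
  have hE0 : CharZero E := charZero_of_injective_algebraMap (algebraMap ℂ E).injective
  have hessE : Algebra.EssFiniteType E L := Algebra.EssFiniteType.of_comp ℂ E L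
  have htrE : Algebra.trdeg E (RatFunc M) = f := by
    rw [← trdeg_add_eq E L (A := RatFunc M), hf, trdeg_eq_zero (R := L) (A := RatFunc M), add_zero]
  have hT := pTRANS E L (RatFunc M) f hf (fun y hy => fin_over y hy) (fun _ => False)
  have hbd : BdUp (k := E) (L := RatFunc M) (fun _ : Place E L => False) = fun _ => False := by
    funext w
    simp [BdUp]
  rw [hbd] at hT
  exact ruled_not_psef M1 _ f htrE hX1 htop1 (hT.1 hps)

end

end Pool.Agent.R882.UA
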