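import Pool.Agent.Results.MP_badc2d_ag.EllipticImages
import Pool.Agent.R882.KF

/-!
Images of elliptic fibrations: the Kodaira dimension (the proof of `MP_badc2d_ag.EllipticImages`).
-/

set_option autoImplicit false
set_option linter.overlappingInstances false
set_option linter.unusedVariables false
set_option maxHeartbeats 4000000
set_option synthInstance.maxHeartbeats 400000

open FF Module Pool.Agent Pool.Agent.W602.GT Pool.Agent.Y172 Pool.Agent.Y191 Pool.Agent.R885
open Pool.Agent.W619.PQ (IsUniruled)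
open Pool.Agent.Results.MP_badc2d_ag.EllipticImages

namespace Pool.Agent.R882.UD

theorem elliptic_kod {n q N M : ℕ} (hM : 1 ≤ M) {f : Fin q → (Fin (n + 1 + q) → ℤ) →₀ ℂ}
    (hf : Nondegenerate f) {K : Type} [Field K] [Algebra ℂ K] {x : Fin (n + 1 + q) → K}
    (hx : IsGenericPoint f x) (hK : Algebra.trdeg ℂ K = (n + 1 : ℕ))
    (hd : Algebra.trdeg ℂ (IntermediateField.adjoin ℂ {z : K | ∃ v ∈ dirs f, z = R885.mono x v}) =
      (n : ℕ)) {u : Fin (n + 1 + q) → ℤ} {w : Fin N → Fin (n + 1 + q) → ℤ} (hu : InFine f u)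
    (hw : ∀ j, InFine f (u + (M : ℤ) • w j)) {t : Fin N → K}
    (ht : ∀ j, t j = R885.mono x (w j))
    (hd' : Algebra.trdeg ℂ (IntermediateField.adjoin ℂ (Set.range t)) = (n : ℕ))
    (hcl : ∀ z : K, IsAlgebraic (IntermediateField.adjoin ℂ (Set.range t)) z →
      z ∈ IntermediateField.adjoin ℂ (Set.range t))
    (L : Type) [Field L] [Algebra ℂ L] [Algebra L K] [IsScalarTower ℂ L K]
    [FiniteDimensional L K] :
    (Module.finrank L (IntermediateField.adjoin L (Set.range t)) ≤ M + 1 →
      IsUniruled ℂ L (n + 1) ∨ KodGe ℂ L (n + 1) (fun _ => False) 0) ∧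
    (2 * Module.finrank L (IntermediateField.adjoin L (Set.range t)) ≤ M + 1 →
      IsUniruled ℂ L (n + 1) ∨ KodGe ℂ L (n + 1) (fun _ => False) n) := by
  classical
  have hess : Algebra.EssFiniteType ℂ K := by
    rw [← IntermediateField.fg_top_iff, ← hx.2.2]
    exact ⟨Finset.univ.image x, by rw [Finset.coe_image, Finset.coe_univ, Set.image_univ]⟩
  have hL : Algebra.trdeg ℂ L = (n + 1 : ℕ) := Pool.Agent.Y184.NT.trdeg_below (K := K) hK
  have hessL : Algebra.EssFiniteType ℂ L := Pool.Agent.TH466.QG.ess_below (K := K)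
  have hF : (FineInt f).Nonempty := ⟨_, hu⟩
  have hnum := (main (Nat.succ_pos n) rfl hK hx.1 hx.2.2 hx.2.1 hf hF hd).2
  have hnumL := Pool.Agent.R882.LT.numLe_down (L := L) hK hnum
  have htE : t = fun j => R885.mono x (w j) := funext ht
  have e : Fin q ⊕ Fin (n + 1) ≃ Fin (n + 1 + q) := Fintype.equivOfCardEq (by
    rw [Fintype.card_sum, Fintype.card_fin, Fintype.card_fin, Fintype.card_fin, add_comm])
  obtain ⟨ω, hω, hne⟩ := Pool.Agent.R882.LT.exists_twisted hK hx.1 hx.2.2 e hx.2.1
    (fun v => hf v) hM (Pool.Agent.R882.LT.inFine_of hu)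
    (fun j => Pool.Agent.R882.LT.inFine_of (hw j))
  rw [← htE] at hω
  have hregω : ∀ P : Place ℂ K, Divisorial (n + 1) P → RegAt P ω := by
    intro P hP D hD
    have h1 := hω.2 0 (by simp) P hP D hD
    simpa using h1
  -- the parallel vectors
  have hBd : ∀ v ∈ dirs f, R885.mono x v ∈ IntermediateField.adjoin ℂ (Set.range t) := by
    intro v hv
    refine hcl _ (Pool.Agent.R882.GL.alg_of_trdeg hd hd' ?_
      (IntermediateField.subset_adjoin _ _ ⟨v, hv, rfl⟩))
    rintro _ ⟨j, rfl⟩
    rw [ht]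
    refine IntermediateField.subset_adjoin _ _ ⟨w j, ⟨_, hu, 1, le_rfl, ?_⟩, rfl⟩
    have h1 := Pool.Agent.R882.LT.inFine_comb (a := Pi.single j 1) hM
      (Pool.Agent.R882.LT.inFine_of hu) (fun j => Pool.Agent.R882.LT.inFine_of (hw j))
      (by simpa using hM)
    intro v' hv'
    have h2 := h1 v' hv'
    have h3 : u + ∑ j', ((Pi.single j 1 : Fin N → ℕ) j' : ℤ) • w j' = u + w j := by
      congr 1
      rw [Finset.sum_eq_single j]
      · rw [Pi.single_eq_same, Nat.cast_one, one_smul]
      · intro b _ hb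
        rw [Pi.single_eq_of_ne hb, Nat.cast_zero, zero_smul]
      · intro h
        exact absurd (Finset.mem_univ _) h
    rw [h3] at h2
    have h4 : ∑ i, ((fun i => (u i : ℚ) + (w j i : ℚ) / (1 : ℕ)) i) * (v' i : ℚ) =
        (((u + w j) ⬝ᵥ v' : ℤ) : ℚ) := by
      unfold dotProduct
      push_cast
      refine Finset.sum_congr rfl fun i _ => ?_
      rw [Pi.add_apply]
      push_cast
      ring
    rw [h4]
    have h5 : (1 + ∑ l, (mn v' (f l) : ℚ)) = ((1 + ∑ l, mn v' (f l) : ℤ) : ℚ) := by
      push_cast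
      rfl
    rw [h5]
    exact_mod_cast h2
  -- the image in `W × V'`
  have hle : IntermediateField.adjoin ℂ (Set.range t) ≤
      (IntermediateField.adjoin L (Set.range t)).restrictScalars ℂ := by
    rw [IntermediateField.adjoin_le_iff]
    exact IntermediateField.subset_adjoin L _
  obtain ⟨E', hE'⟩ : ∃ E' : IntermediateField (IntermediateField.adjoin ℂ (Set.range t)) K,
      E' = IntermediateField.extendScalars hle := ⟨_, rfl⟩
  have hE'r : E'.restrictScalars ℂ =
      (IntermediateField.adjoin L (Set.range t)).restrictScalars ℂ := by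
    rw [hE']
    exact IntermediateField.extendScalars_restrictScalars hle
  have hfinE : FiniteDimensional E' K := by
    have h1 : FiniteDimensional (IntermediateField.adjoin L (Set.range t)) K := inferInstance
    rw [hE']
    exact h1
  have huni : ¬ Pool.Agent.R882.LT.TraceNe ω
      ((IntermediateField.adjoin L (Set.range t)).restrictScalars ℂ) →
      IsUniruled ℂ L (n + 1) := by
    intro h
    have h1 := Pool.Agent.R882.GL.dich (J := Unit) hK _ hd' hcl E' (fun _ => ω) (fun _ => hω.1)
      (fun _ => hregω) (Pool.Agent.R882.GL.span_toric rfl hx.1 hx.2.2 hx.2.1 (fun v => hf v) hF hd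
        hBd hne) (fun _ => by rwa [hE'r])
    rw [hE'r] at h1
    obtain ⟨C, i1, i2, hC, htr, ⟨ψ⟩⟩ := h1
    let φ : L →ₐ[ℂ] ((IntermediateField.adjoin L (Set.range t)).restrictScalars ℂ :
        IntermediateField ℂ K) :=
      { toFun := fun z => ⟨algebraMap L K z,
          (IntermediateField.adjoin L (Set.range t)).algebraMap_mem z⟩
        map_one' := Subtype.ext (map_one _)
        map_mul' := fun a b => Subtype.ext (map_mul _ _ _)
        map_zero' := Subtype.ext (map_zero _)
        map_add' := fun a b => Subtype.ext (map_add _ _ _)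
        commutes' := fun c => Subtype.ext (IsScalarTower.algebraMap_apply ℂ L K c).symm }
    exact ⟨C, i1, i2, hC, htr, ⟨ψ.comp φ⟩⟩
  refine ⟨fun hs => ?_, fun hs => ?_⟩
  · by_cases htr : Pool.Agent.R882.LT.TraceNe ω
      ((IntermediateField.adjoin L (Set.range t)).restrictScalars ℂ)
    · right
      obtain ⟨η, hη, hηr, D, hD⟩ := (Pool.Agent.R882.LT.core_img (L := L) hK hd' rfl hω htr).1 hs
      refine ⟨1, one_pos, fun _ => η, fun _ => ⟨hη, fun P hP D' hD' => ?_,
        fun P hP _ => hηr P hP⟩, D, hD, ?_⟩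
      · exact hηr P hP D' fun i => Pool.Agent.TH466.QG.derReg_of_log (hD' i)
      · exact algebraicIndependent_empty_type
    · exact Or.inl (huni htr)
  · by_cases htr : Pool.Agent.R882.LT.TraceNe ω
      ((IntermediateField.adjoin L (Set.range t)).restrictScalars ℂ)
    · exact Or.inr (Pool.Agent.R882.KR.kodGe_of_tr
        ((Pool.Agent.R882.LT.core_img (L := L) hK hd' rfl hω htr).2 hs))
    · exact Or.inl (huni htr)

end Pool.Agent.R882.UD
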