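import Pool.Agent.R882.WRes

/-!
Covers of projective space in a line bundle: regularity of the residue forms.
-/

set_option autoImplicit false
set_option linter.unusedSectionVars false

open FF MvPolynomial Pool.Agent.W603.LV Pool.Agent.W602.GT Pool.Agent.Y184.NT

namespace Pool.Agent.R882.WR

/-- the weights of the coordinates: `k` for the first one, and `1` -/
def wt {n : ℕ} (k : ℕ) : Fin (n + 2) → ℕ := Fin.cons k fun _ => 1

/-- The polynomial `y ^ N + a_{N - 1}(x) y ^ (N - 1) + ⋯ + a_0(x)`; the first variable is `y`. -/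
noncomputable def eqn {n N : ℕ} (a : Fin N → MvPolynomial (Fin (n + 1)) ℂ) :
    MvPolynomial (Fin (n + 2)) ℂ := X 0 ^ N + ∑ i, rename Fin.succ (a i) * X 0 ^ (i : ℕ)

theorem sum_wt {n : ℕ} (k : ℕ) : ∑ l, wt (n := n) k l = k + (n + 1) := by
  rw [Fin.sum_univ_succ]
  simp [wt]

theorem rename_wh {n k e : ℕ} {p : MvPolynomial (Fin (n + 1)) ℂ} (hp : p.IsHomogeneous e) :
    (rename Fin.succ p).IsWeightedHomogeneous (wt k) e := by
  intro d hd
  obtain ⟨u, rfl, hu⟩ := coeff_rename_ne_zero _ _ _ hd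
  have h1 := hp hu
  rw [Finsupp.weight_apply] at h1
  rw [Finsupp.weight_apply, Finsupp.sum_mapDomain_index (by simp) (by intros; simp [add_mul])]
  rw [← h1]
  rfl

theorem eqn_wh {n N k : ℕ} {a : Fin N → MvPolynomial (Fin (n + 1)) ℂ}
    (ha : ∀ i : Fin N, (a i).IsHomogeneous ((N - i) * k)) :
    (eqn a).IsWeightedHomogeneous (wt k) (N * k) := by
  refine IsWeightedHomogeneous.add ?_ ?_
  · have h1 := (isWeightedHomogeneous_X ℂ (wt k) (0 : Fin (n + 2))).pow N
    rwa [smul_eq_mul] at h1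
  · refine IsWeightedHomogeneous.sum _ _ _ fun i _ => ?_
    have h1 := (rename_wh (k := k) (ha i)).mul
      ((isWeightedHomogeneous_X ℂ (wt k) (0 : Fin (n + 2))).pow (i : ℕ))
    have h2 : (N - (i : ℕ)) * k + (i : ℕ) • wt k (0 : Fin (n + 2)) = N * k := by
      change (N - (i : ℕ)) * k + (i : ℕ) * k = N * k
      rw [← add_mul, Nat.sub_add_cancel i.2.le]
    rwa [h2] at h1

section

variable {K : Type} [Field K] [Algebra ℂ K] {n N k : ℕ}

theorem aeval_eqn (a : Fin N → MvPolynomial (Fin (n + 1)) ℂ) (Z : Fin (n + 2) → K) :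
    aeval Z (eqn a) = Z 0 ^ N + ∑ i, aeval (fun l => Z l.succ) (a i) * Z 0 ^ (i : ℕ) := by
  rw [eqn, map_add, map_pow, aeval_X, map_sum]
  congr 1
  refine Finset.sum_congr rfl fun i _ => ?_
  rw [map_mul, map_pow, aeval_X, aeval_rename]
  rfl

/-- the fibre coordinate is integral -/
theorem reg_fibre (P : Place ℂ K) {a : Fin N → MvPolynomial (Fin (n + 1)) ℂ} {Z : Fin (n + 2) → K}
    (hZ : aeval Z (eqn a) = 0) (hr : ∀ l : Fin (n + 1), P.Reg (Z l.succ)) : P.Reg (Z 0) := by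
  by_cases h0 : Z 0 = 0
  · rw [h0]
    exact P.reg_zero
  by_contra hcon
  have h1 : P.ord (Z 0) < 0 := by
    by_contra h
    exact hcon (Or.inr (not_lt.1 h))
  have hinv : P.Reg (Z 0)⁻¹ := by
    right
    rw [P.ord_inv]
    omega
  apply hcon
  rw [aeval_eqn] at hZ
  rcases Nat.eq_zero_or_pos N with hN | hN
  · subst hN
    simp at hZ
  have h2 : Z 0 = -∑ i : Fin N, aeval (fun l => Z l.succ) (a i) * (Z 0)⁻¹ ^ (N - 1 - i) := by
    have h3 : (Z 0) ^ (N - 1) ≠ 0 := pow_ne_zero _ h0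
    have h4 : ∑ i : Fin N, aeval (fun l => Z l.succ) (a i) * (Z 0)⁻¹ ^ (N - 1 - i) =
        (∑ i : Fin N, aeval (fun l => Z l.succ) (a i) * Z 0 ^ (i : ℕ)) / (Z 0) ^ (N - 1) := by
      rw [Finset.sum_div]
      refine Finset.sum_congr rfl fun i _ => ?_
      have h5 : (Z 0) ^ (N - 1) = (Z 0) ^ (N - 1 - (i : ℕ)) * Z 0 ^ (i : ℕ) := by
        rw [← pow_add]
        congr 1
        have := i.2
        omega
      rw [h5, inv_pow]
      field_simp
    rw [h4, eq_neg_of_add_eq_zero_right hZ]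
    have h5 : Z 0 ^ N = Z 0 * (Z 0) ^ (N - 1) := by
      rw [← pow_succ']
      congr 1
      omega
    rw [h5]
    field_simp
  rw [h2]
  refine P.reg_neg ?_
  refine P.O.sum_mem fun i _ => ?_
  exact P.reg_mul (Pool.Agent.Y988.NT.reg_aeval hr (a i)) (P.O.pow_mem hinv _)

/-- the residue forms are regular -/
theorem cover_reg {a : Fin N → MvPolynomial (Fin (n + 1)) ℂ}
    (ha : ∀ i : Fin N, (a i).IsHomogeneous ((N - i) * k)) (hs : Sm (eqn a))
    {A : MvPolynomial (Fin (n + 2)) ℂ} {e : ℕ} (hA : A.IsWeightedHomogeneous (wt k) e)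
    (he : e + (k + (n + 1)) = N * k) {c Z : Fin (n + 2) → K} (hZ : aeval Z (eqn a) = 0)
    (h1 : ∃ j : Fin (n + 1), Z j.succ ≠ 0)
    (hc : ∑ l, aeval Z (pderiv l (eqn a)) * c l = 1) (P : Place ℂ K) :
    RegAt P (fun D : Fin n → Derivation ℂ K K => aeval Z A * (wrows (wt k) c Z D).det) := by
  classical
  intro D hD
  obtain ⟨j1, hj1⟩ := h1
  obtain ⟨j, hj, hmin⟩ := Finset.exists_min_image (Finset.univ.filter fun l : Fin (n + 1) =>
    Z l.succ ≠ 0) (fun l => P.ord (Z l.succ)) ⟨j1, by simp [hj1]⟩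
  have hj0 : Z j.succ ≠ 0 := (Finset.mem_filter.1 hj).2
  obtain ⟨lam, hlam⟩ : ∃ lam : K, lam = (Z j.succ)⁻¹ := ⟨_, rfl⟩
  have hl0 : lam ≠ 0 := by
    rw [hlam]
    exact inv_ne_zero hj0
  obtain ⟨Z', hZ'⟩ : ∃ Z' : Fin (n + 2) → K, Z' = fun l => lam ^ wt k l * Z l := ⟨_, rfl⟩
  have hws : ∀ l : Fin (n + 1), wt k l.succ = 1 := fun l => rfl
  have hx1 : Z' j.succ = 1 := by
    rw [hZ', hlam]
    simp only [hws, pow_one]
    exact inv_mul_cancel₀ hj0
  have hreg1 : ∀ l : Fin (n + 1), P.Reg (Z' l.succ) := by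
    intro l
    rw [hZ']
    change P.Reg (lam ^ 1 * Z l.succ)
    rw [pow_one]
    by_cases h0 : Z l.succ = 0
    · left
      rw [h0, mul_zero]
    · right
      rw [P.ord_mul hl0 h0, hlam, P.ord_inv]
      have h1 := hmin l (by simp [h0])
      omega
  have hF := eqn_wh ha
  have hFx' : aeval Z' (eqn a) = 0 := by
    rw [hZ', aeval_wsmul hF, hZ, mul_zero]
  have hreg : ∀ l, P.Reg (Z' l) := fun l =>
    Fin.cases (reg_fibre P hFx' hreg1) (fun l => hreg1 l) l
  obtain ⟨l0, hl1, hl2⟩ := Pool.Agent.Y988.NT.exists_unit P hs hreg hx1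
  obtain ⟨μ, hμ⟩ : ∃ μ : K, μ = (lam ^ (N * k))⁻¹ := ⟨_, rfl⟩
  have hlp : lam ^ (N * k) ≠ 0 := pow_ne_zero _ hl0
  have hpd : ∀ l, lam ^ wt k l * aeval Z' (pderiv l (eqn a)) =
      lam ^ (N * k) * aeval Z (pderiv l (eqn a)) := by
    intro l
    by_cases hle : wt k l ≤ N * k
    · have h2 : (pderiv l (eqn a)).IsWeightedHomogeneous (wt k) (N * k - wt k l) :=
        hF.pderiv (Nat.sub_add_cancel hle)
      rw [hZ', aeval_wsmul h2, ← mul_assoc, ← pow_add, Nat.add_sub_cancel' hle]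
    · exfalso
      apply hle
      refine le_trans ?_ (Nat.le.intro (show (k + (n + 1)) + e = N * k by omega))
      refine Fin.cases ?_ (fun i => ?_) l
      · change k ≤ _
        omega
      · rw [hws]
        omega
  have hc1 : ∑ l, aeval Z' (pderiv l (eqn a)) * (μ * (lam ^ wt k l * c l)) = 1 := by
    rw [← hc]
    refine Finset.sum_congr rfl fun l _ => ?_
    have h2 := hpd l
    rw [hμ]
    field_simp
    linear_combination c l * h2
  have hc2 : ∑ l, aeval Z' (pderiv l (eqn a)) *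
      (Pi.single l0 (aeval Z' (pderiv l0 (eqn a)))⁻¹ : Fin (n + 2) → K) l = 1 := by
    rw [Finset.sum_eq_single l0]
    · rw [Pi.single_eq_same]
      exact mul_inv_cancel₀ hl1
    · intro b _ hb
      rw [Pi.single_eq_of_ne hb, mul_zero]
    · intro h
      exact absurd (Finset.mem_univ _) h
  have h1 := wk1 hF hFx' hc1 hc2 D
  have h2 := wk2 (wt k) hl0 μ c Z D
  rw [← hZ', h1, sum_wt] at h2
  have h3 : aeval Z A * (wrows (wt k) c Z D).det = aeval Z' A * (wrows (wt k)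
      (Pi.single l0 (aeval Z' (pderiv l0 (eqn a)))⁻¹ : Fin (n + 2) → K) Z' D).det := by
    rw [h2, hZ', aeval_wsmul hA, hμ]
    have h5 : lam ^ (N * k) = lam ^ e * lam ^ (k + (n + 1)) := by
      rw [← pow_add, he]
    rw [h5] at hlp ⊢
    field_simp
  change P.Reg (aeval Z A * (wrows (wt k) c Z D).det)
  rw [h3]
  refine P.reg_mul (Pool.Agent.Y988.NT.reg_aeval hreg A)
    (Pool.Agent.Y988.NT.reg_det P _ fun a b => ?_)
  rw [wrows_eq, Matrix.of_apply]
  refine Fin.cases ?_ (fun a => ?_) a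
  · simp only [Fin.cons_zero]
    by_cases hb : b = l0
    · rw [hb, Pi.single_eq_same]
      right
      rw [P.ord_inv, hl2]
      simp
    · rw [Pi.single_eq_of_ne hb]
      exact P.reg_zero
  · refine Fin.cases ?_ (fun a => ?_) a
    · simp only [Fin.cons_succ, Fin.cons_zero]
      refine P.reg_mul ?_ (hreg b)
      have h6 := P.reg_const (wt k b : ℂ)
      simpa using h6
    · simpa using hD a _ (hreg b)

end

end Pool.Agent.R882.WR
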