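import Pool.Agent.Y988.NT.Res
import Mathlib.RingTheory.MvPolynomial.WeightedHomogeneous

/-!
The residues of rational forms with poles along a smooth hypersurface in weighted projective space
with at most one weight different from one: regularity.
-/

set_option autoImplicit false
set_option linter.unusedSectionVars false

open FF MvPolynomial Pool.Agent.W603.LV Pool.Agent.W602.GT Pool.Agent.Y184.NT

namespace Pool.Agent.R882.WR

section

variable {K : Type} [Field K] [Algebra ℂ K] {n : ℕ}

/-- the matrix with the rows `c`, `w x` and `D i x` -/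
def wrows (w : Fin (n + 2) → ℕ) (c x : Fin (n + 2) → K) (D : Fin n → Derivation ℂ K K) :
    Matrix (Fin (n + 2)) (Fin (n + 2)) K :=
  Matrix.of (Fin.cons c (Fin.cons (fun l => (w l : K) * x l) fun i j => D i (x j) :
    Fin (n + 1) → Fin (n + 2) → K))

theorem wrows_eq (w : Fin (n + 2) → ℕ) (c x : Fin (n + 2) → K) (D : Fin n → Derivation ℂ K K) :
    wrows w c x D = Matrix.of (Fin.cons c (Fin.cons (fun l => (w l : K) * x l)
      fun i j => D i (x j) : Fin (n + 1) → Fin (n + 2) → K) : Fin (n + 2) → Fin (n + 2) → K) := rfl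

theorem wrows_pluri (w : Fin (n + 2) → ℕ) (A : K) (c x : Fin (n + 2) → K) :
    IsPluri 1 (fun D : Fin n → Derivation ℂ K K => A * (wrows w c x D).det) := by
  intro M D
  have h : wrows w c x (fun i => ∑ j, M i j • D j) =
      Pool.Agent.Y988.NT.bump 1 (fun _ => 0) (Pool.Agent.Y988.NT.bump 1 (fun _ => 0) M) *
      wrows w c x D := by
    rw [wrows_eq w c x D, Pool.Agent.Y988.NT.bump_mul]
    ext i j
    refine Fin.cases ?_ (fun i => ?_) i
    · simp [wrows]
    · have h2 := congrFun (congrFun (Pool.Agent.Y988.NT.bump_mul 1 (fun _ => 0) M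
        (fun l => (w l : K) * x l) fun i j => D i (x j)) i) j
      rw [Matrix.mul_apply] at h2
      simp only [Matrix.of_apply, Fin.cons_succ, zero_mul, zero_add, one_mul] at h2 ⊢
      rw [h2]
      refine Fin.cases ?_ (fun i => ?_) i
      · simp [wrows]
      · simp only [wrows, Matrix.of_apply, Fin.cons_succ]
        exact Pool.Agent.Y988.NT.sum_der (M i) D (x j)
  change A * (wrows w c x (fun i => ∑ j, M i j • D j)).det = M.det ^ 1 * (A * (wrows w c x D).det)
  rw [h, Matrix.det_mul, Pool.Agent.Y988.NT.det_bump, Pool.Agent.Y988.NT.det_bump]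
  ring

theorem weuler {w : Fin (n + 2) → ℕ} {d : ℕ} {F : MvPolynomial (Fin (n + 2)) ℂ}
    (hh : F.IsWeightedHomogeneous w d) {x : Fin (n + 2) → K} (hx : aeval x F = 0) :
    ∑ l, aeval x (pderiv l F) * ((w l : K) * x l) = 0 := by
  have h3 := congrArg (aeval x) hh.sum_weight_X_mul_pderiv
  rw [map_sum, map_nsmul, hx, smul_zero] at h3
  rw [← h3]
  refine Finset.sum_congr rfl fun l _ => ?_
  rw [map_nsmul, map_mul, aeval_X, nsmul_eq_mul]
  ring

theorem wk1 {w : Fin (n + 2) → ℕ} {d : ℕ} {F : MvPolynomial (Fin (n + 2)) ℂ}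
    (hF : F.IsWeightedHomogeneous w d)
    {x : Fin (n + 2) → K} (hx : aeval x F = 0) {c c' : Fin (n + 2) → K}
    (hc : ∑ l, aeval x (pderiv l F) * c l = 1) (hc' : ∑ l, aeval x (pderiv l F) * c' l = 1)
    (D : Fin n → Derivation ℂ K K) : (wrows w c x D).det = (wrows w c' x D).det := by
  refine Pool.Agent.Y988.NT.det_first c c' _ (fun l => aeval x (pderiv l F)) ?_
    (hc.trans hc'.symm) fun i => ?_
  · intro h
    have h2 : ∀ l, aeval x (pderiv l F) = 0 := fun l => congrFun h l
    simp [h2] at hc
  · refine Fin.cases ?_ (fun i => ?_) i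
    · simpa using weuler hF hx
    · simp only [Fin.cons_succ]
      rw [← Pool.Agent.Y988.NT.der_aeval, hx, map_zero]

/-- the value of a weighted form at a multiple of a vector -/
theorem aeval_wsmul {m dF : ℕ} {w : Fin m → ℕ} {F : MvPolynomial (Fin m) ℂ}
    (hh : F.IsWeightedHomogeneous w dF) (c : K) (y : Fin m → K) :
    aeval (fun l => c ^ w l * y l) F = c ^ dF * aeval y F := by
  classical
  rw [aeval_def, eval₂_eq', aeval_def, eval₂_eq', Finset.mul_sum]
  refine Finset.sum_congr rfl fun a ha => ?_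
  have h1 : ∑ i, w i * a i = dF := by
    have h2 := hh (mem_support_iff.1 ha)
    rw [← h2, Finsupp.weight_apply, Finsupp.sum_fintype _ _ fun i => by simp]
    exact Finset.sum_congr rfl fun i _ => by rw [smul_eq_mul, mul_comm]
  simp only [mul_pow, Finset.prod_mul_distrib, ← pow_mul]
  rw [Finset.prod_pow_eq_pow_sum, h1]
  ring

theorem wk2 (w : Fin (n + 2) → ℕ) {lam : K} (hl : lam ≠ 0) (μ : K) (c x : Fin (n + 2) → K)
    (D : Fin n → Derivation ℂ K K) :
    (wrows w (fun l => μ * (lam ^ w l * c l)) (fun l => lam ^ w l * x l) D).det =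
      μ * lam ^ (∑ l, w l) * (wrows w c x D).det := by
  have h : wrows w (fun l => μ * (lam ^ w l * c l)) (fun l => lam ^ w l * x l) D =
      Pool.Agent.Y988.NT.bump μ (fun _ => 0)
        (Pool.Agent.Y988.NT.bump 1 (fun i => D i lam / lam) 1) *
      wrows w c x D * Matrix.diagonal (fun l => lam ^ w l) := by
    rw [wrows_eq w c x D, Pool.Agent.Y988.NT.bump_mul]
    ext i j
    rw [Matrix.mul_diagonal]
    refine Fin.cases ?_ (fun i => ?_) i
    · simp [wrows]
      ring
    · have h2 := congrFun (congrFun (Pool.Agent.Y988.NT.bump_mul 1 (fun i => D i lam / lam)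
        (1 : Matrix (Fin n) (Fin n) K) (fun l => (w l : K) * x l) fun i j => D i (x j)) i) j
      rw [Matrix.mul_apply] at h2
      simp only [Matrix.of_apply, Fin.cons_succ, zero_mul, zero_add] at h2 ⊢
      rw [h2]
      refine Fin.cases ?_ (fun i => ?_) i
      · simp [wrows]
        ring
      · simp only [wrows, Matrix.of_apply, Fin.cons_succ, Matrix.one_apply, ite_mul, zero_mul,
          one_mul, Finset.sum_ite_eq, Finset.mem_univ, if_true, Derivation.leibniz, smul_eq_mul,
          Derivation.leibniz_pow, nsmul_eq_mul]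
        by_cases hw : w j = 0
        · rw [hw]
          simp
        · obtain ⟨v, hv⟩ : ∃ v, w j = v + 1 := ⟨w j - 1, by omega⟩
          rw [hv, Nat.add_sub_cancel, pow_succ]
          field_simp
          ring
  rw [h, Matrix.det_mul, Matrix.det_mul, Pool.Agent.Y988.NT.det_bump,
    Pool.Agent.Y988.NT.det_bump, Matrix.det_one, Matrix.det_diagonal,
    Finset.prod_pow_eq_pow_sum]
  ring

end

end Pool.Agent.R882.WR
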