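import Pool.Agent.R882.Defs

/-!
Calculus with the derivatives `∂ / ∂z_k` and `∂ / ∂z̄_k`.
-/

set_option autoImplicit false

open scoped ComplexConjugate

namespace Pool.Agent.R882

/-- The function `f` is differentiable at `z`, with derivatives `∂f / ∂z_k = d k` and
`∂f / ∂z̄_k = e k`. -/
def HasWD (f : ℂ × ℂ → ℂ) (z : ℂ × ℂ) (d e : Fin 2 → ℂ) : Prop :=
  ∃ L : ℂ × ℂ →L[ℝ] ℂ, HasFDerivAt f L z ∧
    ∀ w : ℂ × ℂ, L w = d 0 * w.1 + d 1 * w.2 + e 0 * conj w.1 + e 1 * conj w.2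

namespace HasWD

variable {f g : ℂ × ℂ → ℂ} {z : ℂ × ℂ} {d e d' e' : Fin 2 → ℂ}

theorem dz_eq (h : HasWD f z d e) (k : Fin 2) : dz k f z = d k := by
  obtain ⟨L, hL, hL'⟩ := h
  rw [dz, hL.fderiv, hL', hL']
  fin_cases k
  · simp [bas]
    ring_nf
    rw [Complex.I_sq]
    ring
  · simp [bas]
    ring_nf
    rw [Complex.I_sq]
    ring

theorem dzb_eq (h : HasWD f z d e) (k : Fin 2) : dzb k f z = e k := by
  obtain ⟨L, hL, hL'⟩ := h
  rw [dzb, hL.fderiv, hL', hL']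
  fin_cases k
  · simp [bas]
    ring_nf
    rw [Complex.I_sq]
    ring
  · simp [bas]
    ring_nf
    rw [Complex.I_sq]
    ring

theorem of_eq (h : HasWD f z d e) (h0 : d 0 = d' 0) (h1 : d 1 = d' 1) (h2 : e 0 = e' 0)
    (h3 : e 1 = e' 1) : HasWD f z d' e' := by
  obtain ⟨L, hL, hL'⟩ := h
  exact ⟨L, hL, fun w => by rw [hL', h0, h1, h2, h3]⟩

theorem congr' (h : HasWD f z d e) (hd : ∀ k, d k = d' k) (he : ∀ k, e k = e' k) :
    HasWD f z d' e' := h.of_eq (hd 0) (hd 1) (he 0) (he 1)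

theorem congr_fun (h : HasWD f z d e) (hfg : g =ᶠ[nhds z] f) : HasWD g z d e := by
  obtain ⟨L, hL, hL'⟩ := h
  exact ⟨L, hL.congr_of_eventuallyEq hfg, hL'⟩

theorem const (c : ℂ) (z : ℂ × ℂ) : HasWD (fun _ => c) z (fun _ => 0) (fun _ => 0) :=
  ⟨0, hasFDerivAt_const c z, fun w => by simp⟩

theorem add (hf : HasWD f z d e) (hg : HasWD g z d' e') :
    HasWD (fun w => f w + g w) z (fun k => d k + d' k) (fun k => e k + e' k) := by
  obtain ⟨L, hL, hL'⟩ := hf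
  obtain ⟨M, hM, hM'⟩ := hg
  refine ⟨L + M, hL.add hM, fun w => ?_⟩
  rw [add_apply, hL', hM']
  ring

theorem sub (hf : HasWD f z d e) (hg : HasWD g z d' e') :
    HasWD (fun w => f w - g w) z (fun k => d k - d' k) (fun k => e k - e' k) := by
  obtain ⟨L, hL, hL'⟩ := hf
  obtain ⟨M, hM, hM'⟩ := hg
  refine ⟨L - M, hL.sub hM, fun w => ?_⟩
  rw [sub_apply, hL', hM']
  ring

theorem mul (hf : HasWD f z d e) (hg : HasWD g z d' e') :
    HasWD (fun w => f w * g w) z (fun k => d k * g z + f z * d' k)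
      (fun k => e k * g z + f z * e' k) := by
  obtain ⟨L, hL, hL'⟩ := hf
  obtain ⟨M, hM, hM'⟩ := hg
  refine ⟨_, hL.mul hM, fun w => ?_⟩
  simp only [add_apply, smul_apply, smul_eq_mul]
  rw [hL', hM']
  ring

theorem inv (hf : HasWD f z d e) (h0 : f z ≠ 0) :
    HasWD (fun w => (f w)⁻¹) z (fun k => -d k / f z ^ 2) (fun k => -e k / f z ^ 2) := by
  obtain ⟨L, hL, hL'⟩ := hf
  have h1 : HasFDerivAt (fun w : ℂ => w⁻¹)
      ((ContinuousLinearMap.toSpanSingleton ℂ (-(f z ^ 2)⁻¹) : ℂ →L[ℂ] ℂ).restrictScalars ℝ)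
      (f z) :=
    ((hasDerivAt_inv h0).hasFDerivAt).restrictScalars ℝ
  refine ⟨_, h1.comp z hL, fun w => ?_⟩
  simp only [ContinuousLinearMap.comp_apply, ContinuousLinearMap.coe_restrictScalars',
    ContinuousLinearMap.toSpanSingleton_apply, smul_eq_mul]
  rw [hL']
  field_simp
  ring

theorem cj (hf : HasWD f z d e) :
    HasWD (fun w => conj (f w)) z (fun k => conj (e k))
      (fun k => conj (d k)) := by
  obtain ⟨L, hL, hL'⟩ := hf
  have h1 : HasFDerivAt (fun w : ℂ => conj w) (Complex.conjCLE : ℂ →L[ℝ] ℂ) (f z) :=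
    Complex.conjCLE.hasFDerivAt
  refine ⟨_, h1.comp z hL, fun w => ?_⟩
  simp only [ContinuousLinearMap.comp_apply, ContinuousLinearEquiv.coe_coe, Complex.conjCLE_apply]
  rw [hL']
  simp only [map_add, map_mul, Complex.conj_conj]
  ring

theorem of_deriv_fst {f : ℂ → ℂ} {f' : ℂ} (h : HasDerivAt f f' z.1) :
    HasWD (fun w => f w.1) z (fun k => if k = 0 then f' else 0) (fun _ => 0) := by
  have h1 : HasFDerivAt (fun w : ℂ × ℂ => f w.1)
      (((ContinuousLinearMap.toSpanSingleton ℂ f').comp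
        (ContinuousLinearMap.fst ℂ ℂ ℂ)).restrictScalars ℝ) z :=
    (h.hasFDerivAt.comp z hasFDerivAt_fst).restrictScalars ℝ
  refine ⟨_, h1, fun w => ?_⟩
  simp [mul_comm]

theorem of_deriv_snd {f : ℂ → ℂ} {f' : ℂ} (h : HasDerivAt f f' z.2) :
    HasWD (fun w => f w.2) z (fun k => if k = 0 then 0 else f') (fun _ => 0) := by
  have h1 : HasFDerivAt (fun w : ℂ × ℂ => f w.2)
      (((ContinuousLinearMap.toSpanSingleton ℂ f').comp
        (ContinuousLinearMap.snd ℂ ℂ ℂ)).restrictScalars ℝ) z :=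
    (h.hasFDerivAt.comp z hasFDerivAt_snd).restrictScalars ℝ
  refine ⟨_, h1, fun w => ?_⟩
  simp [mul_comm]

end HasWD

end Pool.Agent.R882
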