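import Pool.Agent.R882.HL

/-!
Families of zero-cycles with null trace on coverings of varieties of geometric genus zero.
-/

set_option autoImplicit false
set_option linter.overlappingInstances false
set_option linter.unusedSectionVars false
set_option linter.unusedDecidableInType false
set_option linter.unusedFintypeInType false
set_option maxHeartbeats 4000000
set_option synthInstance.maxHeartbeats 400000

open FF Module Pool.Agent Pool.Agent.W602.GT

namespace Pool.Agent.R882.ZC

section

variable {Ω : Type} [Field Ω]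

/-- interpolation -/
theorem isolate {ι : Type} {N M : ℕ} (s : Finset ι) (p : ι → Fin N → Ω) (v : ι → Ω)
    [DecidableEq (Fin N → Ω)]
    (h : ∀ a : Fin N → ℕ, ∑ l, a l ≤ M → ∑ i ∈ s, (∏ l, p i l ^ a l) * v i = 0)
    (P0 : Fin N → Ω) (hcard : (s.image p).card ≤ M + 1) :
    ∑ i ∈ s with p i = P0, v i = 0 := by
  classical
  by_cases hP : P0 ∈ s.image p
  · have hQ : ((s.image p).erase P0).card ≤ M := by
      have h1 := Finset.card_erase_of_mem hP
      omega
    have hl : ∀ R : Fin N → Ω, R ≠ P0 → ∃ l, R l ≠ P0 l := fun R hR => by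
      by_contra hcon
      push Not at hcon
      exact hR (funext hcon)
    rcases Nat.eq_zero_or_pos N with hN | hN
    · subst hN
      have h1 := h (fun _ => 0) (by simp)
      simp only [Finset.univ_eq_empty, Finset.prod_empty, one_mul] at h1
      rw [← h1]
      refine Finset.sum_congr (Finset.filter_true_of_mem fun i _ => ?_) fun _ _ => rfl
      exact Subsingleton.elim _ _
    · choose l hl using fun R : {R : Fin N → Ω // R ≠ P0} => hl R.1 R.2
      let l' : (Fin N → Ω) → Fin N := fun R => if h : R ≠ P0 then l ⟨R, h⟩ else ⟨0, hN⟩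
      have hl' : ∀ R, R ≠ P0 → R (l' R) ≠ P0 (l' R) := fun R hR => by
        simp only [l', dif_pos hR]
        exact hl ⟨R, hR⟩
      obtain ⟨Q, hQdef⟩ : ∃ Q, Q = (s.image p).erase P0 := ⟨_, rfl⟩
      rw [← hQdef] at hQ
      -- the product of the linear forms
      have hexp : ∀ i, ∏ R ∈ Q, (p i (l' R) + -R (l' R)) =
          ∑ t ∈ Q.powerset, (∏ R ∈ t, p i (l' R)) * ∏ R ∈ Q \ t, -R (l' R) := fun i =>
        Finset.prod_add _ _ _
      have hmon : ∀ t ∈ Q.powerset, ∑ i ∈ s, (∏ R ∈ t, p i (l' R)) * v i = 0 := by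
        intro t ht
        have h2 : ∀ i, ∏ R ∈ t, p i (l' R) =
            ∏ k, p i k ^ (t.filter fun R => l' R = k).card := by
          intro i
          rw [← Finset.prod_fiberwise t l']
          refine Finset.prod_congr rfl fun k _ => ?_
          rw [Finset.prod_congr rfl fun R hR => by rw [(Finset.mem_filter.1 hR).2],
            Finset.prod_const]
        rw [Finset.sum_congr rfl fun i _ => by rw [h2 i]]
        refine h _ ?_
        rw [Finset.sum_card_fiberwise_eq_card_filter]
        refine le_trans (Finset.card_filter_le _ _) ?_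
        exact le_trans (Finset.card_le_card (Finset.mem_powerset.1 ht)) hQ
      have hzero : ∑ i ∈ s, (∏ R ∈ Q, (p i (l' R) + -R (l' R))) * v i = 0 := by
        have h3 : ∀ i ∈ s, (∏ R ∈ Q, (p i (l' R) + -R (l' R))) * v i =
            ∑ t ∈ Q.powerset, (∏ R ∈ Q \ t, -R (l' R)) * ((∏ R ∈ t, p i (l' R)) * v i) := by
          intro i _
          rw [hexp, Finset.sum_mul]
          refine Finset.sum_congr rfl fun t _ => ?_
          ring
        rw [Finset.sum_congr rfl h3, Finset.sum_comm]
        refine Finset.sum_eq_zero fun t ht => ?_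
        rw [← Finset.mul_sum, hmon t ht, mul_zero]
      have hsplit : ∑ i ∈ s, (∏ R ∈ Q, (p i (l' R) + -R (l' R))) * v i =
          (∏ R ∈ Q, (P0 (l' R) + -R (l' R))) * ∑ i ∈ s with p i = P0, v i := by
        rw [Finset.mul_sum, ← Finset.sum_filter_add_sum_filter_not s (fun i => p i = P0)]
        have h4 : ∑ i ∈ s with ¬ p i = P0, (∏ R ∈ Q, (p i (l' R) + -R (l' R))) * v i = 0 := by
          refine Finset.sum_eq_zero fun i hi => ?_
          rw [Finset.mem_filter] at hi
          have h5 : p i ∈ Q := by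
            rw [hQdef]
            exact Finset.mem_erase.2 ⟨hi.2, Finset.mem_image_of_mem _ hi.1⟩
          rw [Finset.prod_eq_zero h5 (by rw [add_neg_cancel]), zero_mul]
        rw [h4, add_zero]
        refine Finset.sum_congr rfl fun i hi => ?_
        rw [(Finset.mem_filter.1 hi).2]
      rw [hsplit] at hzero
      rcases mul_eq_zero.1 hzero with h6 | h6
      · exfalso
        rw [Finset.prod_eq_zero_iff] at h6
        obtain ⟨R, hR, h7⟩ := h6
        rw [hQdef] at hR
        exact hl' R (Finset.ne_of_mem_erase hR) (by linear_combination -h7)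
      · exact h6
  · refine Finset.sum_eq_zero fun i hi => ?_
    rw [Finset.mem_filter] at hi
    exact absurd (hi.2 ▸ Finset.mem_image_of_mem p hi.1) hP

/-- a relation with the powers of distinct elements -/
theorem vander {T : Type} [Fintype T] {u : T → Ω} (hu : Function.Injective u)
    {v : T → Ω} (h : ∀ j, j + 1 < Fintype.card T → ∑ τ, u τ ^ j * v τ = 0) {τ0 : T}
    (h0 : v τ0 = 0) (τ1 : T) : v τ1 = 0 := by
  classical
  by_cases h01 : τ1 = τ0
  · rw [h01, h0]
  · obtain ⟨Q, hQ⟩ : ∃ Q : Finset T, Q = (Finset.univ.erase τ0).erase τ1 := ⟨_, rfl⟩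
    have hQc : Q.card + 2 = Fintype.card T := by
      have h1 : τ1 ∈ Finset.univ.erase τ0 := Finset.mem_erase.2 ⟨h01, Finset.mem_univ _⟩
      rw [hQ, Finset.card_erase_of_mem h1, Finset.card_erase_of_mem (Finset.mem_univ _),
        Finset.card_univ]
      have h2 : 1 < Fintype.card T := Fintype.one_lt_card_iff.2 ⟨τ1, τ0, h01⟩
      omega
    obtain ⟨p, hp⟩ : ∃ p : Polynomial Ω, p = ∏ τ ∈ Q, (Polynomial.X - Polynomial.C (u τ)) :=
      ⟨_, rfl⟩
    have hdeg : p.natDegree = Q.card := by
      rw [hp, Polynomial.natDegree_prod_of_monic _ _ fun τ _ => Polynomial.monic_X_sub_C _]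
      simp
    have hsum : ∑ τ, p.eval (u τ) * v τ = 0 := by
      have h1 : ∀ τ, p.eval (u τ) * v τ =
          ∑ j ∈ Finset.range (p.natDegree + 1), p.coeff j * (u τ ^ j * v τ) := by
        intro τ
        rw [Polynomial.eval_eq_sum_range, Finset.sum_mul]
        refine Finset.sum_congr rfl fun j _ => ?_
        ring
      rw [Finset.sum_congr rfl fun τ _ => h1 τ, Finset.sum_comm]
      refine Finset.sum_eq_zero fun j hj => ?_
      rw [← Finset.mul_sum, h j (by
        rw [Finset.mem_range] at hj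
        omega), mul_zero]
    have heval : ∀ τ, p.eval (u τ) = ∏ τ' ∈ Q, (u τ - u τ') := by
      intro τ
      rw [hp, Polynomial.eval_prod]
      refine Finset.prod_congr rfl fun τ' _ => ?_
      rw [Polynomial.eval_sub, Polynomial.eval_X, Polynomial.eval_C]
    rw [Finset.sum_eq_single τ1 (fun τ _ hτ => ?_) (fun hn => absurd (Finset.mem_univ _) hn)]
      at hsum
    · rcases mul_eq_zero.1 hsum with h2 | h2
      · exfalso
        rw [heval, Finset.prod_eq_zero_iff] at h2
        obtain ⟨τ', hτ', h3⟩ := h2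
        rw [hQ] at hτ'
        exact Finset.ne_of_mem_erase hτ' (hu (sub_eq_zero.1 h3)).symm
      · exact h2
    · by_cases hτ0 : τ = τ0
      · rw [hτ0, h0, mul_zero]
      · have h3 : τ ∈ Q := by
          rw [hQ]
          exact Finset.mem_erase.2 ⟨hτ, Finset.mem_erase.2 ⟨hτ0, Finset.mem_univ _⟩⟩
        rw [heval, Finset.prod_eq_zero h3 (sub_self _), zero_mul]

end

section

variable {K Ω : Type} [Field K] [Algebra ℂ K] [Field Ω] [Algebra ℂ Ω] {n : ℕ}

/-- The value on the vector fields `D` of the pullback of the canonical form `ω` under the rational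
map given by `σ : K → Ω`, computed with coordinates `z` and their dual vector fields `E`. -/
noncomputable def pullback (σ : K →ₐ[ℂ] Ω) (z : Fin n → K) (E : Fin n → Derivation ℂ K K)
    (ω : (Fin n → Derivation ℂ K K) → K) (D : Fin n → Derivation ℂ Ω Ω) : Ω :=
  (Matrix.of fun i j => D i (σ (z j))).det * σ (ω E)

/-- The trace of the family of zero-cycles `∑ c(σ) σ` on the variety with the function field `K`,
where `σ` runs through the rational maps from a variety with the function field `Ω`, is zero: the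
sum of the pullbacks `c(σ) σ^* ω` is zero for all regular canonical forms `ω`. -/
def NullTrace (n : ℕ) (c : (K →ₐ[ℂ] Ω) →₀ ℤ) : Prop :=
  ∀ ω : (Fin n → Derivation ℂ K K) → K, IsPluri 1 ω →
    (∀ P : Place ℂ K, Divisorial n P → RegAt P ω) →
    ∀ (z : Fin n → K) (E : Fin n → Derivation ℂ K K), IsTranscendenceBasis ℂ z →
      (∀ i j, E i (z j) = if i = j then 1 else 0) → ∀ D : Fin n → Derivation ℂ Ω Ω,
        ∑ σ ∈ c.support, (c σ : Ω) * pullback σ z E ω D = 0

/-- two embeddings which agree on `x` agree on `ℂ(x)` -/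
theorem agree {N : ℕ} {x : Fin N → K} {σ τ : K →ₐ[ℂ] Ω} (h : ∀ l, σ (x l) = τ (x l)) {e : K}
    (he : e ∈ IntermediateField.adjoin ℂ (Set.range x)) : σ e = τ e := by
  induction he using IntermediateField.adjoin_induction with
  | mem e he =>
    obtain ⟨l, rfl⟩ := he
    exact h l
  | algebraMap c => rw [AlgHom.commutes, AlgHom.commutes]
  | add a b _ _ ha hb => rw [map_add, map_add, ha, hb]
  | inv a _ ha => rw [map_inv₀, map_inv₀, ha]
  | mul a b _ _ ha hb => rw [map_mul, map_mul, ha, hb]

/-- **The fundamental step.** -/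
theorem step [IsAlgClosed Ω] (hΩ : Algebra.trdeg ℂ Ω = (n : ℕ)) [Algebra.EssFiniteType ℂ K]
    (hK : Algebra.trdeg ℂ K = (n : ℕ)) {N M : ℕ} {x : Fin N → K}
    [FiniteDimensional (IntermediateField.adjoin ℂ (Set.range x)) K] {y : K}
    (hy : IntermediateField.adjoin (IntermediateField.adjoin ℂ (Set.range x)) {y} = ⊤)
    (hpg : Pool.Agent.R882.HT.GenusZero (IntermediateField.adjoin ℂ (Set.range x)) n)
    {ω : (Fin n → Derivation ℂ K K) → K} (hω : IsPluri 1 ω)
    (hne : ∀ Z : Fin n → K, IsTranscendenceBasis ℂ Z → ∀ D0 : Fin n → Derivation ℂ K K,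
      (∀ i j, D0 i (Z j) = if i = j then 1 else 0) → ω D0 ≠ 0)
    (hreg : ∀ j, j + 1 < Module.finrank (IntermediateField.adjoin ℂ (Set.range x)) K →
      ∀ a : Fin N → ℕ, ∑ l, a l ≤ M → ∀ P : Place ℂ K, Divisorial n P →
        RegAt P (fun D => (∏ l, x l ^ a l) * (y ^ j * ω D)))
    {c : (K →ₐ[ℂ] Ω) →₀ ℤ} (hc : NullTrace n c) [DecidableEq (Fin N → Ω)]
    (hcard : (c.support.image fun σ l => σ (x l)).card ≤ M + 1)
    {σ τ : K →ₐ[ℂ] Ω} (h : ∀ l, σ (x l) = τ (x l)) : c σ = c τ := by
  classical
  have hEn : Algebra.trdeg ℂ (IntermediateField.adjoin ℂ (Set.range x)) = (n : ℕ) :=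
    Pool.Agent.Y184.NT.trdeg_below (K := K) hK
  have hessE : Algebra.EssFiniteType ℂ (IntermediateField.adjoin ℂ (Set.range x)) :=
    Pool.Agent.TH466.QG.ess_below (K := K)
  obtain ⟨z, E, hz, hE⟩ := Pool.Agent.Y172.exists_crd (k := ℂ)
    (K := IntermediateField.adjoin ℂ (Set.range x)) hEn
  choose E' hE' using fun i => Pool.Agent.Y172.exists_lift (k := ℂ)
    (K := IntermediateField.adjoin ℂ (Set.range x)) (L := K) hEn (E i)
  have hzK : IsTranscendenceBasis ℂ (fun j => algebraMap (IntermediateField.adjoin ℂ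
      (Set.range x)) K (z j)) := hz.algebraMap_comp
  have hE'd := Pool.Agent.Y172.lift_dual hE hE'
  have hg : ω E' ≠ 0 := hne _ hzK E' hE'd
  -- the vector fields on Ω
  have hcharΩ : CharZero Ω := charZero_of_injective_algebraMap (algebraMap ℂ Ω).injective
  have hind : AlgebraicIndependent ℂ (fun j => σ (algebraMap (IntermediateField.adjoin ℂ
      (Set.range x)) K (z j))) := hzK.1.map' (f := σ) σ.injective
  have hbΩ : IsTranscendenceBasis ℂ (fun j => σ (algebraMap (IntermediateField.adjoin ℂ
      (Set.range x)) K (z j))) := by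
    refine hind.isTranscendenceBasis_of_trdeg_le ?_ ?_
    · rw [hΩ]
      exact Cardinal.natCast_lt_aleph0
    · rw [hΩ]
      simp
  choose D hD using fun i : Fin n => Pool.Agent.W602.GT.exists_der _ hbΩ
    fun j => if i = j then (1 : Ω) else 0
  -- the relations
  have hrel : ∀ j, j + 1 < Module.finrank (IntermediateField.adjoin ℂ (Set.range x)) K →
      ∑ ρ ∈ c.support with (fun l => ρ (x l)) = fun l => σ (x l),
        (c ρ : Ω) * (ρ y ^ j * ρ (ω E')) = 0 := by
    intro j hj
    have h1 : ∀ a : Fin N → ℕ, ∑ l, a l ≤ M → ∑ ρ ∈ c.support, (∏ l, ρ (x l) ^ a l) *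
        ((c ρ : Ω) * ((Matrix.of fun i j => D i (ρ (algebraMap (IntermediateField.adjoin ℂ
          (Set.range x)) K (z j)))).det * (ρ y ^ j * ρ (ω E')))) = 0 := by
      intro a ha
      have h2 := hc (fun D => (∏ l, x l ^ a l) * (y ^ j * ω D)) (fun A D' => by
        have h3 := hω A D'
        simp only at h3 ⊢
        rw [h3]
        ring) (hreg j hj a ha) _ E' hzK hE'd D
      rw [← h2]
      refine Finset.sum_congr rfl fun ρ _ => ?_
      unfold pullback
      rw [map_mul, map_mul, map_prod, map_pow]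
      simp only [map_pow]
      ring
    have h4 := isolate c.support (fun ρ l => ρ (x l)) _ h1 (fun l => σ (x l)) hcard
    rw [← h4]
    refine Finset.sum_congr rfl fun ρ hρ => ?_
    have h5 : ∀ l, ρ (x l) = σ (x l) := fun l => congrFun (Finset.mem_filter.1 hρ).2 l
    have h6 : (Matrix.of fun i j => D i (ρ (algebraMap (IntermediateField.adjoin ℂ
        (Set.range x)) K (z j)))) = 1 := by
      ext i j
      have h7 : ρ (algebraMap (IntermediateField.adjoin ℂ (Set.range x)) K (z j)) =
          σ (algebraMap (IntermediateField.adjoin ℂ (Set.range x)) K (z j)) :=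
        agree h5 (z j).2
      rw [Matrix.of_apply, Matrix.one_apply, h7, hD]
    rw [h6, Matrix.det_one, one_mul]
  -- the structure over ℂ(x)
  let i1 : Algebra (IntermediateField.adjoin ℂ (Set.range x)) Ω :=
    (σ.toRingHom.comp (algebraMap (IntermediateField.adjoin ℂ (Set.range x)) K)).toAlgebra
  have hi1 : ∀ e : IntermediateField.adjoin ℂ (Set.range x),
      algebraMap (IntermediateField.adjoin ℂ (Set.range x)) Ω e = σ (e : K) := fun e => rfl
  have i2 : IsScalarTower ℂ (IntermediateField.adjoin ℂ (Set.range x)) Ω :=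
    IsScalarTower.of_algebraMap_eq fun c => by
      rw [hi1]
      exact (σ.commutes c).symm
  have hcE : CharZero (IntermediateField.adjoin ℂ (Set.range x)) :=
    charZero_of_injective_algebraMap (algebraMap ℂ _).injective
  have hT : ∀ ρ : K →ₐ[ℂ] Ω, (∀ l, ρ (x l) = σ (x l)) →
      ∃ ρ' : K →ₐ[IntermediateField.adjoin ℂ (Set.range x)] Ω, ρ'.restrictScalars ℂ = ρ := by
    intro ρ hρ
    exact ⟨{ ρ with commutes' := fun e => (agree hρ e.2).trans (hi1 e).symm }, rfl⟩
  have hT' : ∀ (ρ' : K →ₐ[IntermediateField.adjoin ℂ (Set.range x)] Ω) (l : Fin N),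
      ρ'.restrictScalars ℂ (x l) = σ (x l) := by
    intro ρ' l
    exact ρ'.commutes ⟨x l, IntermediateField.subset_adjoin ℂ _ ⟨l, rfl⟩⟩
  obtain ⟨σ', hσ'⟩ := hT σ fun _ => rfl
  obtain ⟨τ', hτ'⟩ := hT τ fun l => (h l).symm
  have hinj : Function.Injective
      (fun ρ' : K →ₐ[IntermediateField.adjoin ℂ (Set.range x)] Ω => ρ' y) := by
    intro ρ1 ρ2 h12
    apply AlgHom.ext
    intro w
    have hw : w ∈ IntermediateField.adjoin (IntermediateField.adjoin ℂ (Set.range x)) {y} := by
      rw [hy]
      trivial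
    induction hw using IntermediateField.adjoin_induction with
    | mem e he =>
      rw [Set.mem_singleton_iff.1 he]
      exact h12
    | algebraMap c => rw [AlgHom.commutes, AlgHom.commutes]
    | add a b _ _ ha hb => rw [map_add, map_add, ha, hb]
    | inv a _ ha => rw [map_inv₀, map_inv₀, ha]
    | mul a b _ _ ha hb => rw [map_mul, map_mul, ha, hb]
  have hcardT : Fintype.card (K →ₐ[IntermediateField.adjoin ℂ (Set.range x)] Ω) =
      Module.finrank (IntermediateField.adjoin ℂ (Set.range x)) K := AlgHom.card _ _ _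
  -- the relation for c
  have hrel1 : ∀ j, j + 1 < Module.finrank (IntermediateField.adjoin ℂ (Set.range x)) K →
      ∑ ρ' : K →ₐ[IntermediateField.adjoin ℂ (Set.range x)] Ω,
        (c (ρ'.restrictScalars ℂ) : Ω) * (ρ' y ^ j * ρ' (ω E')) = 0 := by
    intro j hj
    rw [← hrel j hj]
    symm
    refine Finset.sum_of_injOn (fun ρ : K →ₐ[ℂ] Ω => if hρ : ∀ l, ρ (x l) = σ (x l) then
      (hT ρ hρ).choose else σ') ?_ ?_ ?_ ?_
    · intro ρ1 h1 ρ2 h2 h12
      have h3 : ∀ l, ρ1 (x l) = σ (x l) := fun l =>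
        congrFun (Finset.mem_filter.1 (Finset.mem_coe.1 h1)).2 l
      have h4 : ∀ l, ρ2 (x l) = σ (x l) := fun l =>
        congrFun (Finset.mem_filter.1 (Finset.mem_coe.1 h2)).2 l
      simp only [dif_pos h3, dif_pos h4] at h12
      rw [← (hT ρ1 h3).choose_spec, ← (hT ρ2 h4).choose_spec, h12]
    · intro ρ _
      exact Finset.mem_coe.2 (Finset.mem_univ _)
    · intro ρ' _ hρ'
      have h0 : c (ρ'.restrictScalars ℂ) = 0 := by
        by_contra hne0
        apply hρ'
        refine ⟨ρ'.restrictScalars ℂ, Finset.mem_coe.2 (Finset.mem_filter.2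
          ⟨Finsupp.mem_support_iff.2 hne0, funext (hT' ρ')⟩), ?_⟩
        simp only [dif_pos (hT' ρ')]
        have h5 := (hT (ρ'.restrictScalars ℂ) (hT' ρ')).choose_spec
        exact AlgHom.restrictScalars_injective ℂ h5
      rw [h0, Int.cast_zero, zero_mul]
    · intro ρ hρ
      have h3 : ∀ l, ρ (x l) = σ (x l) := fun l => congrFun (Finset.mem_filter.1 hρ).2 l
      simp only [dif_pos h3]
      have h5 := (hT ρ h3).choose_spec
      have h6 : ∀ w : K, (hT ρ h3).choose w = ρ w := fun w => DFunLike.congr_fun h5 w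
      rw [h5, h6, h6]
  -- the traces
  have htr : ∀ j, j + 1 < Module.finrank (IntermediateField.adjoin ℂ (Set.range x)) K →
      ∑ ρ' : K →ₐ[IntermediateField.adjoin ℂ (Set.range x)] Ω,
        (ρ' y ^ j * ρ' (ω E')) = 0 := by
    intro j hj
    have h1 := Pool.Agent.Y692.NT.t_Tr (IntermediateField.adjoin ℂ (Set.range x)) K n hEn hpg
      (fun D => y ^ j * ω D) (fun A D' => by
        have h3 := hω A D'
        simp only at h3 ⊢
        rw [h3]
        ring) (fun P hP => by
          have h2 := hreg j hj (fun _ => 0) (by simp) P hP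
          simpa using h2) E E' hE'
    have h2 := trace_eq_sum_embeddings (K := IntermediateField.adjoin ℂ (Set.range x))
      (L := K) Ω (x := y ^ j * ω E')
    rw [h1, map_zero] at h2
    rw [h2]
    refine Finset.sum_congr rfl fun ρ' _ => ?_
    rw [map_mul, map_pow]
  have hfin := vander hinj (v := fun ρ' : K →ₐ[IntermediateField.adjoin ℂ (Set.range x)] Ω =>
    ((c (ρ'.restrictScalars ℂ) : Ω) - (c τ : Ω)) * ρ' (ω E')) (fun j hj => by
      rw [hcardT] at hj
      have h1 := hrel1 j hj
      have h2 := htr j hj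
      have h3 : ∀ ρ' : K →ₐ[IntermediateField.adjoin ℂ (Set.range x)] Ω, ρ' y ^ j *
          (((c (ρ'.restrictScalars ℂ) : Ω) - (c τ : Ω)) * ρ' (ω E')) =
          (c (ρ'.restrictScalars ℂ) : Ω) * (ρ' y ^ j * ρ' (ω E')) -
          (c τ : Ω) * (ρ' y ^ j * ρ' (ω E')) := fun ρ' => by ring
      rw [Finset.sum_congr rfl fun ρ' _ => h3 ρ', Finset.sum_sub_distrib, h1, ← Finset.mul_sum,
        h2, mul_zero, sub_zero]) (τ0 := τ') (by rw [hτ', sub_self, zero_mul]) σ'
  rcases mul_eq_zero.1 hfin with h7 | h7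
  · rw [hσ', sub_eq_zero] at h7
    exact_mod_cast h7
  · exact absurd h7 ((map_ne_zero σ').2 hg)

end

end Pool.Agent.R882.ZC
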