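import Pool.Agent.R882.ZE

/-!
Families of zero-cycles which are pulled back: descent of the null trace.
-/

set_option autoImplicit false
set_option linter.overlappingInstances false
set_option linter.unusedSectionVars false
set_option linter.unusedDecidableInType false
set_option linter.unusedFintypeInType false
set_option maxHeartbeats 4000000
set_option synthInstance.maxHeartbeats 400000

open FF Module Pool.Agent Pool.Agent.W602.GT

namespace Pool.Agent.R882.ZC

section

variable {K Ω : Type} [Field K] [Algebra ℂ K] [Field Ω] [Algebra ℂ Ω] {n : ℕ}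

/-- The family `c` of zero-cycles is pulled back from a variety, with function field `E`, with the
property `Base`: the coefficients of two rational maps are equal if their compositions with the
projection to this variety are equal. -/
def PulledBack (Base : ∀ (E : Type) [Field E] [Algebra ℂ E], Prop)
    (c : (K →ₐ[ℂ] Ω) →₀ ℤ) : Prop :=
  ∃ (E : Type) (_ : Field E) (_ : Algebra ℂ E) (_ : Algebra E K) (_ : IsScalarTower ℂ E K),
    FiniteDimensional E K ∧ Base E ∧ ∀ σ τ : K →ₐ[ℂ] Ω,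
      (∀ e : E, σ (algebraMap E K e) = τ (algebraMap E K e)) → c σ = c τ

/-- the pullback of a regular form is regular -/
theorem pull_regular {E1 K : Type} [Field E1] [Algebra ℂ E1] [Field K] [Algebra ℂ K]
    [Algebra E1 K] [IsScalarTower ℂ E1 K] [FiniteDimensional E1 K] [Algebra.EssFiniteType ℂ E1]
    (hn : Algebra.trdeg ℂ E1 = (n : ℕ)) {z : Fin n → E1} {F : Fin n → Derivation ℂ E1 E1}
    (hz : IsTranscendenceBasis ℂ z) (hF : ∀ i j, F i (z j) = if i = j then 1 else 0)
    {η : (Fin n → Derivation ℂ E1 E1) → E1} (hη : IsPluri 1 η)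
    (hreg : ∀ P : Place ℂ E1, Divisorial n P → RegAt P η) (Q : Place ℂ K)
    (hQ : Divisorial n Q) : RegAt Q (Pool.Agent.R882.LT.pull (G := K) z F η) := by
  obtain ⟨P, e, hPQ⟩ := Pool.Agent.Y172.exists_below (K := E1) Q
  have hP : Divisorial n P := Pool.Agent.Y172.divisorial_down hPQ hQ
  have h1 := Pool.Agent.R882.LT.pull_sec (BK := fun _ => False) (BG := fun _ => False) hn hz hF
    hη hPQ hP (fun h => h) (Pool.Agent.R882.LT.secAt_of (hreg P hP))
  exact h1.2 fun h => h

/-- **Descent.** -/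
theorem descend [IsAlgClosed Ω] (hK : Algebra.trdeg ℂ K = (n : ℕ)) [Algebra.EssFiniteType ℂ K]
    (E1 : IntermediateField ℂ K) [FiniteDimensional E1 K] {c : (K →ₐ[ℂ] Ω) →₀ ℤ}
    (hc : NullTrace n c)
    (h : ∀ σ τ : K →ₐ[ℂ] Ω, (∀ e : E1, σ (algebraMap E1 K e) = τ (algebraMap E1 K e)) →
      c σ = c τ) :
    ∃ c1 : (E1 →ₐ[ℂ] Ω) →₀ ℤ, NullTrace n c1 ∧ (∀ σ : K →ₐ[ℂ] Ω, c1 (σ.comp E1.val) = c σ) ∧
      (∀ q, ∃ σ : K →ₐ[ℂ] Ω, c1 q = c σ) ∧
      c.support.card = c1.support.card * Module.finrank E1 K := by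
  classical
  have hE1 : Algebra.trdeg ℂ E1 = (n : ℕ) := Pool.Agent.Y184.NT.trdeg_below (K := K) hK
  have hess : Algebra.EssFiniteType ℂ E1 := Pool.Agent.TH466.QG.ess_below (K := K)
  have hcharΩ : CharZero Ω := charZero_of_injective_algebraMap (algebraMap ℂ Ω).injective
  have hcE : CharZero E1 := charZero_of_injective_algebraMap (algebraMap ℂ E1).injective
  have hlift : ∀ q : E1 →ₐ[ℂ] Ω, ∃ σ : K →ₐ[ℂ] Ω, σ.comp E1.val = q := by
    intro q
    let i1 : Algebra E1 Ω := q.toRingHom.toAlgebra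
    have i2 : IsScalarTower ℂ E1 Ω := IsScalarTower.of_algebraMap_eq fun a =>
      (q.commutes a).symm
    let ρ : K →ₐ[E1] Ω := IsAlgClosed.lift
    refine ⟨ρ.restrictScalars ℂ, ?_⟩
    ext e
    exact ρ.commutes e
  choose lift hl using hlift
  have hres : ∀ σ : K →ₐ[ℂ] Ω, c (lift (σ.comp E1.val)) = c σ := by
    intro σ
    refine h _ _ fun e => ?_
    exact DFunLike.congr_fun (hl (σ.comp E1.val)) e
  obtain ⟨c1, hc1⟩ : ∃ c1 : (E1 →ₐ[ℂ] Ω) →₀ ℤ, ∀ q, c1 q = c (lift q) := by
    refine ⟨Finsupp.onFinset (c.support.image fun σ => σ.comp E1.val) (fun q => c (lift q))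
      fun q hq => ?_, fun q => rfl⟩
    rw [Finset.mem_image]
    exact ⟨lift q, Finsupp.mem_support_iff.2 hq, hl q⟩
  have hc1' : ∀ σ : K →ₐ[ℂ] Ω, c1 (σ.comp E1.val) = c σ := fun σ => by rw [hc1, hres]
  have hmaps : ∀ σ ∈ c.support, σ.comp E1.val ∈ c1.support := by
    intro σ hσ
    rw [Finsupp.mem_support_iff] at hσ ⊢
    rwa [hc1']
  have hfib : ∀ q ∈ c1.support, (c.support.filter fun σ => σ.comp E1.val = q).card =
      Module.finrank E1 K := by
    intro q hq
    let i1 : Algebra E1 Ω := q.toRingHom.toAlgebra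
    have i2 : IsScalarTower ℂ E1 Ω := IsScalarTower.of_algebraMap_eq fun a =>
      (q.commutes a).symm
    have hcardT : Fintype.card (K →ₐ[E1] Ω) = Module.finrank E1 K := AlgHom.card _ _ _
    rw [← hcardT, ← Finset.card_univ]
    symm
    refine Finset.card_nbij (fun ρ' : K →ₐ[E1] Ω => ρ'.restrictScalars ℂ) ?_ ?_ ?_
    · intro ρ' _
      have h1 : (ρ'.restrictScalars ℂ).comp E1.val = q := by
        ext e
        exact ρ'.commutes e
      refine Finset.mem_coe.2 (Finset.mem_filter.2 ⟨?_, h1⟩)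
      rw [Finsupp.mem_support_iff, ← hc1', h1]
      exact Finsupp.mem_support_iff.1 hq
    · intro ρ1 _ ρ2 _ h12
      exact AlgHom.restrictScalars_injective ℂ h12
    · intro ρ hρ
      have h3 := (Finset.mem_filter.1 (Finset.mem_coe.1 hρ)).2
      exact ⟨{ ρ with commutes' := fun e => DFunLike.congr_fun h3 e }, Finset.mem_coe.2
        (Finset.mem_univ _), rfl⟩
  have hsum : ∀ X : (E1 →ₐ[ℂ] Ω) → Ω, ∑ σ ∈ c.support, (c σ : Ω) * X (σ.comp E1.val) =
      (Module.finrank E1 K : Ω) * ∑ q ∈ c1.support, (c1 q : Ω) * X q := by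
    intro X
    rw [← Finset.sum_fiberwise_of_maps_to hmaps, Finset.mul_sum]
    refine Finset.sum_congr rfl fun q hq => ?_
    rw [Finset.sum_congr rfl (fun σ hσ => by
      rw [(Finset.mem_filter.1 hσ).2, ← hc1' σ, (Finset.mem_filter.1 hσ).2] :
        ∀ σ ∈ c.support.filter (fun σ => σ.comp E1.val = q), (c σ : Ω) * X (σ.comp E1.val) =
          (c1 q : Ω) * X q), Finset.sum_const, hfib q hq, nsmul_eq_mul]
  refine ⟨c1, ?_, hc1', fun q => ⟨lift q, hc1 q⟩, ?_⟩
  · intro η hη hreg z F hz hF D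
    choose F' hF' using fun i => Pool.Agent.Y172.exists_lift (k := ℂ) (K := E1) (L := K) hE1 (F i)
    have hzK : IsTranscendenceBasis ℂ (fun j => algebraMap E1 K (z j)) := hz.algebraMap_comp
    have hFd := Pool.Agent.Y172.lift_dual hF hF'
    have h1 := hc (Pool.Agent.R882.LT.pull (G := K) z F η)
      (Pool.Agent.R882.LT.pull_pluri z F η)
      (fun Q hQ => pull_regular hE1 hz hF hη hreg Q hQ) _ F' hzK hFd D
    have h2 : ∀ σ : K →ₐ[ℂ] Ω, pullback σ (fun j => algebraMap E1 K (z j)) F'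
        (Pool.Agent.R882.LT.pull (G := K) z F η) D = pullback (σ.comp E1.val) z F η D := by
      intro σ
      unfold pullback Pool.Agent.R882.LT.pull
      have h3 : (Matrix.of fun i j => F' i (algebraMap E1 K (z j))) = 1 := by
        ext i j
        rw [Matrix.of_apply, Matrix.one_apply, hFd]
      rw [h3, Matrix.det_one, one_mul]
      rfl
    rw [Finset.sum_congr rfl fun σ _ => by rw [h2 σ], hsum fun q => pullback q z F η D] at h1
    rcases mul_eq_zero.1 h1 with h4 | h4
    · exfalso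
      have h5 : 0 < Module.finrank E1 K := Module.finrank_pos
      exact (Nat.cast_ne_zero (R := Ω)).2 h5.ne' h4
    · exact h4
  · rw [Finset.card_eq_sum_card_fiberwise hmaps, Finset.sum_congr rfl hfib, Finset.sum_const,
      smul_eq_mul]

/-- a family which is pulled back from a family which is pulled back -/
theorem pulledBack_of {Base : ∀ (E : Type) [Field E] [Algebra ℂ E], Prop}
    (E1 : IntermediateField ℂ K) [FiniteDimensional E1 K] {c : (K →ₐ[ℂ] Ω) →₀ ℤ}
    {c1 : (E1 →ₐ[ℂ] Ω) →₀ ℤ} (hc1 : ∀ σ : K →ₐ[ℂ] Ω, c1 (σ.comp E1.val) = c σ)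
    (h : PulledBack Base c1) : PulledBack Base c := by
  obtain ⟨E, j1, j2, j3, j4, hfd, hB, hE⟩ := h
  let i1 : Algebra E K := ((algebraMap E1 K).comp (algebraMap E E1)).toAlgebra
  have i2 : IsScalarTower E E1 K := IsScalarTower.of_algebraMap_eq fun _ => rfl
  have i3 : IsScalarTower ℂ E K := IsScalarTower.of_algebraMap_eq fun a => by
    have h1 : algebraMap ℂ K a = algebraMap E1 K (algebraMap ℂ E1 a) :=
      IsScalarTower.algebraMap_apply ℂ E1 K a
    rw [h1, IsScalarTower.algebraMap_apply ℂ E E1 a]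
    rfl
  refine ⟨E, j1, j2, i1, i3, FiniteDimensional.trans E E1 K, hB, fun σ τ hστ => ?_⟩
  rw [← hc1, ← hc1]
  exact hE _ _ fun e => hστ e

end

end Pool.Agent.R882.ZC
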