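import Pool.Agent.R882.ZC
import Pool.Agent.R882.TCorr

/-!
Families of effective zero-cycles with null trace: the step, and the descent to the base.
-/

set_option autoImplicit false
set_option linter.overlappingInstances false
set_option linter.unusedSectionVars false
set_option linter.unusedDecidableInType false
set_option linter.unusedFintypeInType false
set_option maxHeartbeats 4000000
set_option synthInstance.maxHeartbeats 400000

open FF Module Pool.Agent Pool.Agent.W602.GT

namespace Pool.Agent.R882.ZC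

section

variable {K Ω : Type} [Field K] [Algebra ℂ K] [Field Ω] [Algebra ℂ Ω] {n : ℕ}

/-- the relations over the base -/
theorem relE (hΩ : Algebra.trdeg ℂ Ω = (n : ℕ)) {N M C : ℕ} {x : Fin N → K}
    [FiniteDimensional (IntermediateField.adjoin ℂ (Set.range x)) K] {y : K}
    [Algebra (IntermediateField.adjoin ℂ (Set.range x)) Ω]
    [IsScalarTower ℂ (IntermediateField.adjoin ℂ (Set.range x)) Ω]
    {ω : (Fin n → Derivation ℂ K K) → K} (hω : IsPluri 1 ω)
    (hreg : ∀ j < C, ∀ a : Fin N → ℕ, ∑ l, a l ≤ M → ∀ P : Place ℂ K, Divisorial n P →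
        RegAt P (fun D => (∏ l, x l ^ a l) * (y ^ j * ω D)))
    {z : Fin n → IntermediateField.adjoin ℂ (Set.range x)}
    (hz : IsTranscendenceBasis ℂ z) {E' : Fin n → Derivation ℂ K K}
    (hE'd : ∀ i j, E' i (algebraMap (IntermediateField.adjoin ℂ (Set.range x)) K (z j)) =
      if i = j then 1 else 0)
    {c : (K →ₐ[ℂ] Ω) →₀ ℤ} (hc : NullTrace n c) [DecidableEq (Fin N → Ω)]
    (hcard : (c.support.image fun σ l => σ (x l)).card ≤ M + 1) {j : ℕ} (hj : j < C) :
    ∑ ρ' : K →ₐ[IntermediateField.adjoin ℂ (Set.range x)] Ω,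
        (c (ρ'.restrictScalars ℂ) : Ω) * (ρ' y ^ j * ρ' (ω E')) = 0 := by
  classical
  have hzK : IsTranscendenceBasis ℂ (fun j => algebraMap (IntermediateField.adjoin ℂ
      (Set.range x)) K (z j)) := hz.algebraMap_comp
  let q : IntermediateField.adjoin ℂ (Set.range x) →ₐ[ℂ] Ω :=
    IsScalarTower.toAlgHom ℂ (IntermediateField.adjoin ℂ (Set.range x)) Ω
  have hind : AlgebraicIndependent ℂ (fun j => algebraMap (IntermediateField.adjoin ℂ
      (Set.range x)) Ω (z j)) := hz.1.map' (f := q) q.injective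
  have hbΩ : IsTranscendenceBasis ℂ (fun j => algebraMap (IntermediateField.adjoin ℂ
      (Set.range x)) Ω (z j)) := by
    refine hind.isTranscendenceBasis_of_trdeg_le ?_ ?_
    · rw [hΩ]
      exact Cardinal.natCast_lt_aleph0
    · rw [hΩ]
      simp
  choose D hD using fun i : Fin n => Pool.Agent.W602.GT.exists_der _ hbΩ
    fun j => if i = j then (1 : Ω) else 0
  obtain ⟨P0, hP0⟩ : ∃ P0 : Fin N → Ω, ∀ l, P0 l = algebraMap (IntermediateField.adjoin ℂ
      (Set.range x)) Ω ⟨x l, IntermediateField.subset_adjoin ℂ _ ⟨l, rfl⟩⟩ := ⟨_, fun _ => rfl⟩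
  -- the embeddings which agree with the structure
  have hag : ∀ ρ : K →ₐ[ℂ] Ω, (∀ l, ρ (x l) = P0 l) →
      ∀ e : IntermediateField.adjoin ℂ (Set.range x), ρ (algebraMap _ K e) =
        algebraMap (IntermediateField.adjoin ℂ (Set.range x)) Ω e := by
    rintro ρ hρ ⟨e, he⟩
    induction he using IntermediateField.adjoin_induction with
    | mem e he =>
      obtain ⟨l, rfl⟩ := he
      rw [← hP0, ← hρ l]
      rfl
    | algebraMap a =>
      have h1 : ρ (algebraMap ℂ K a) = algebraMap ℂ Ω a := ρ.commutes a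
      have h2 : algebraMap (IntermediateField.adjoin ℂ (Set.range x)) Ω
          (algebraMap ℂ (IntermediateField.adjoin ℂ (Set.range x)) a) = algebraMap ℂ Ω a :=
        (IsScalarTower.algebraMap_apply ℂ (IntermediateField.adjoin ℂ (Set.range x)) Ω a).symm
      exact h1.trans h2.symm
    | add a b ha' hb' ha hb =>
      have h1 : algebraMap (IntermediateField.adjoin ℂ (Set.range x)) Ω ⟨a + b, add_mem ha' hb'⟩ =
          algebraMap (IntermediateField.adjoin ℂ (Set.range x)) Ω ⟨a, ha'⟩ +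
          algebraMap (IntermediateField.adjoin ℂ (Set.range x)) Ω ⟨b, hb'⟩ := by
        rw [← map_add]
        rfl
      rw [h1, ← ha, ← hb, ← map_add]
      rfl
    | inv a ha' ha =>
      have h1 : algebraMap (IntermediateField.adjoin ℂ (Set.range x)) Ω ⟨a⁻¹, inv_mem ha'⟩ =
          (algebraMap (IntermediateField.adjoin ℂ (Set.range x)) Ω ⟨a, ha'⟩)⁻¹ := by
        rw [← map_inv₀]
        rfl
      rw [h1, ← ha, ← map_inv₀]
      rfl
    | mul a b ha' hb' ha hb =>
      have h1 : algebraMap (IntermediateField.adjoin ℂ (Set.range x)) Ω ⟨a * b, mul_mem ha' hb'⟩ =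
          algebraMap (IntermediateField.adjoin ℂ (Set.range x)) Ω ⟨a, ha'⟩ *
          algebraMap (IntermediateField.adjoin ℂ (Set.range x)) Ω ⟨b, hb'⟩ := by
        rw [← map_mul]
        rfl
      rw [h1, ← ha, ← hb, ← map_mul]
      rfl
  -- the relations
  have hrel : ∑ ρ ∈ c.support with (fun l => ρ (x l)) = P0,
        (c ρ : Ω) * (ρ y ^ j * ρ (ω E')) = 0 := by
    have h1 : ∀ a : Fin N → ℕ, ∑ l, a l ≤ M → ∑ ρ ∈ c.support, (∏ l, ρ (x l) ^ a l) *
        ((c ρ : Ω) * ((Matrix.of fun i j => D i (ρ (algebraMap (IntermediateField.adjoin ℂ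
          (Set.range x)) K (z j)))).det * (ρ y ^ j * ρ (ω E')))) = 0 := by
      intro a ha
      have h2 := hc (fun D => (∏ l, x l ^ a l) * (y ^ j * ω D)) (fun A D' => by
        have h3 := hω A D'
        simp only at h3 ⊢
        rw [h3]
        ring) (hreg j hj a ha) _ E' hzK hE'd D
      rw [← h2]
      refine Finset.sum_congr rfl fun ρ _ => ?_
      unfold pullback
      rw [map_mul, map_mul, map_prod, map_pow]
      simp only [map_pow]
      ring
    have h4 := isolate c.support (fun ρ l => ρ (x l)) _ h1 P0 hcard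
    rw [← h4]
    refine Finset.sum_congr rfl fun ρ hρ => ?_
    have h5 : ∀ l, ρ (x l) = P0 l := fun l => congrFun (Finset.mem_filter.1 hρ).2 l
    have h6 : (Matrix.of fun i j => D i (ρ (algebraMap (IntermediateField.adjoin ℂ
        (Set.range x)) K (z j)))) = 1 := by
      ext i j
      rw [Matrix.of_apply, Matrix.one_apply, hag ρ h5, hD]
    rw [h6, Matrix.det_one, one_mul]
  rw [← hrel]
  have hT : ∀ ρ : K →ₐ[ℂ] Ω, (∀ l, ρ (x l) = P0 l) →
      ∃ ρ' : K →ₐ[IntermediateField.adjoin ℂ (Set.range x)] Ω, ρ'.restrictScalars ℂ = ρ := by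
    intro ρ hρ
    exact ⟨{ ρ with commutes' := fun e => hag ρ hρ e }, rfl⟩
  have hT' : ∀ (ρ' : K →ₐ[IntermediateField.adjoin ℂ (Set.range x)] Ω) (l : Fin N),
      ρ'.restrictScalars ℂ (x l) = P0 l := by
    intro ρ' l
    rw [hP0]
    exact ρ'.commutes ⟨x l, IntermediateField.subset_adjoin ℂ _ ⟨l, rfl⟩⟩
  symm
  rw [← Finset.sum_filter_of_ne (s := Finset.univ)
    (f := fun ρ' : K →ₐ[IntermediateField.adjoin ℂ (Set.range x)] Ω =>
      (c (ρ'.restrictScalars ℂ) : Ω) * (ρ' y ^ j * ρ' (ω E')))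
    (p := fun ρ' => c (ρ'.restrictScalars ℂ) ≠ 0) (fun ρ' _ h => fun h0 => h (by
      rw [h0, Int.cast_zero, zero_mul]))]
  symm
  refine Finset.sum_nbij (fun ρ' => ρ'.restrictScalars ℂ) ?_ ?_ ?_ ?_
  · intro ρ' hρ'
    rw [Finset.mem_filter] at hρ' ⊢
    exact ⟨Finsupp.mem_support_iff.2 hρ'.2, funext (hT' ρ')⟩
  · intro ρ1 _ ρ2 _ h12
    exact AlgHom.restrictScalars_injective ℂ h12
  · intro ρ hρ
    have h3 := Finset.mem_filter.1 (Finset.mem_coe.1 hρ)
    obtain ⟨ρ', hρ'⟩ := hT ρ fun l => congrFun h3.2 l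
    refine ⟨ρ', Finset.mem_coe.2 (Finset.mem_filter.2 ⟨Finset.mem_univ _, ?_⟩), hρ'⟩
    rw [hρ']
    exact Finsupp.mem_support_iff.1 h3.1
  · intro ρ' _
    rfl

/-- **The fundamental step for effective cycles.** -/
theorem step_eff [IsAlgClosed Ω] (hΩ : Algebra.trdeg ℂ Ω = (n : ℕ)) [Algebra.EssFiniteType ℂ K]
    (hK : Algebra.trdeg ℂ K = (n : ℕ)) {N M : ℕ} {x : Fin N → K}
    [FiniteDimensional (IntermediateField.adjoin ℂ (Set.range x)) K] {y : K}
    (hy : IntermediateField.adjoin (IntermediateField.adjoin ℂ (Set.range x)) {y} = ⊤)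
    {ω : (Fin n → Derivation ℂ K K) → K} (hω : IsPluri 1 ω)
    (hne : ∀ Z : Fin n → K, IsTranscendenceBasis ℂ Z → ∀ D0 : Fin n → Derivation ℂ K K,
      (∀ i j, D0 i (Z j) = if i = j then 1 else 0) → ω D0 ≠ 0)
    (hreg : ∀ j, j + 1 < Module.finrank (IntermediateField.adjoin ℂ (Set.range x)) K →
      ∀ a : Fin N → ℕ, ∑ l, a l ≤ M → ∀ P : Place ℂ K, Divisorial n P →
        RegAt P (fun D => (∏ l, x l ^ a l) * (y ^ j * ω D)))
    {c : (K →ₐ[ℂ] Ω) →₀ ℤ} (hc : NullTrace n c) (heff : ∀ σ, 0 ≤ c σ)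
    [DecidableEq (Fin N → Ω)]
    (hcard : (c.support.image fun σ l => σ (x l)).card ≤ M + 1)
    {σ τ : K →ₐ[ℂ] Ω} (h : ∀ l, σ (x l) = τ (x l)) : c σ = c τ := by
  classical
  have hEn : Algebra.trdeg ℂ (IntermediateField.adjoin ℂ (Set.range x)) = (n : ℕ) :=
    Pool.Agent.Y184.NT.trdeg_below (K := K) hK
  obtain ⟨z, E, hz, hE⟩ := Pool.Agent.Y172.exists_crd (k := ℂ)
    (K := IntermediateField.adjoin ℂ (Set.range x)) hEn
  choose E' hE' using fun i => Pool.Agent.Y172.exists_lift (k := ℂ)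
    (K := IntermediateField.adjoin ℂ (Set.range x)) (L := K) hEn (E i)
  have hzK : IsTranscendenceBasis ℂ (fun j => algebraMap (IntermediateField.adjoin ℂ
      (Set.range x)) K (z j)) := hz.algebraMap_comp
  have hE'd := Pool.Agent.Y172.lift_dual hE hE'
  have hg : ω E' ≠ 0 := hne _ hzK E' hE'd
  have hcharΩ : CharZero Ω := charZero_of_injective_algebraMap (algebraMap ℂ Ω).injective
  -- the structure over ℂ(x)
  let i1 : Algebra (IntermediateField.adjoin ℂ (Set.range x)) Ω :=
    (σ.toRingHom.comp (algebraMap (IntermediateField.adjoin ℂ (Set.range x)) K)).toAlgebra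
  have hi1 : ∀ e : IntermediateField.adjoin ℂ (Set.range x),
      algebraMap (IntermediateField.adjoin ℂ (Set.range x)) Ω e = σ (e : K) := fun e => rfl
  have i2 : IsScalarTower ℂ (IntermediateField.adjoin ℂ (Set.range x)) Ω :=
    IsScalarTower.of_algebraMap_eq fun c => by
      rw [hi1]
      exact (σ.commutes c).symm
  have hcE : CharZero (IntermediateField.adjoin ℂ (Set.range x)) :=
    charZero_of_injective_algebraMap (algebraMap ℂ _).injective
  have hT : ∀ ρ : K →ₐ[ℂ] Ω, (∀ l, ρ (x l) = σ (x l)) →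
      ∃ ρ' : K →ₐ[IntermediateField.adjoin ℂ (Set.range x)] Ω, ρ'.restrictScalars ℂ = ρ := by
    intro ρ hρ
    exact ⟨{ ρ with commutes' := fun e => (agree hρ e.2).trans (hi1 e).symm }, rfl⟩
  obtain ⟨σ', hσ'⟩ := hT σ fun _ => rfl
  obtain ⟨τ', hτ'⟩ := hT τ fun l => (h l).symm
  have hinj : Function.Injective
      (fun ρ' : K →ₐ[IntermediateField.adjoin ℂ (Set.range x)] Ω => ρ' y) := by
    intro ρ1 ρ2 h12
    apply AlgHom.ext
    intro w
    have hw : w ∈ IntermediateField.adjoin (IntermediateField.adjoin ℂ (Set.range x)) {y} := by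
      rw [hy]
      trivial
    induction hw using IntermediateField.adjoin_induction with
    | mem e he =>
      rw [Set.mem_singleton_iff.1 he]
      exact h12
    | algebraMap c => rw [AlgHom.commutes, AlgHom.commutes]
    | add a b _ _ ha hb => rw [map_add, map_add, ha, hb]
    | inv a _ ha => rw [map_inv₀, map_inv₀, ha]
    | mul a b _ _ ha hb => rw [map_mul, map_mul, ha, hb]
  have hcardT : Fintype.card (K →ₐ[IntermediateField.adjoin ℂ (Set.range x)] Ω) =
      Module.finrank (IntermediateField.adjoin ℂ (Set.range x)) K := AlgHom.card _ _ _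
  have hrel1 : ∀ j, j + 1 < Module.finrank (IntermediateField.adjoin ℂ (Set.range x)) K →
      ∑ ρ' : K →ₐ[IntermediateField.adjoin ℂ (Set.range x)] Ω,
        (c (ρ'.restrictScalars ℂ) : Ω) * (ρ' y ^ j * ρ' (ω E')) = 0 := by
    intro j hj
    exact relE (C := Module.finrank (IntermediateField.adjoin ℂ (Set.range x)) K - 1) hΩ hω
      (fun j hj => hreg j (by omega)) hz hE'd hc hcard (by omega)
  -- the automorphism
  have halgΩ : Algebra.IsAlgebraic (IntermediateField.adjoin ℂ (Set.range x)) Ω := by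
    have hind : AlgebraicIndependent ℂ (fun j => σ (algebraMap (IntermediateField.adjoin ℂ
        (Set.range x)) K (z j))) := hzK.1.map' (f := σ) σ.injective
    have hbΩ : IsTranscendenceBasis ℂ (fun j => σ (algebraMap (IntermediateField.adjoin ℂ
        (Set.range x)) K (z j))) := by
      refine hind.isTranscendenceBasis_of_trdeg_le ?_ ?_
      · rw [hΩ]
        exact Cardinal.natCast_lt_aleph0
      · rw [hΩ]
        simp
    have h1 : Algebra.IsAlgebraic (Algebra.adjoin ℂ (Set.range fun j =>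
        σ (algebraMap (IntermediateField.adjoin ℂ (Set.range x)) K (z j)))) Ω :=
      hbΩ.isAlgebraic
    refine ⟨fun w => ?_⟩
    obtain ⟨p, hp0, hp⟩ := h1.1 w
    have h2 : ∀ a : Algebra.adjoin ℂ (Set.range fun j =>
        σ (algebraMap (IntermediateField.adjoin ℂ (Set.range x)) K (z j))),
        ∃ e : IntermediateField.adjoin ℂ (Set.range x),
          algebraMap (IntermediateField.adjoin ℂ (Set.range x)) Ω e = a := by
      rintro ⟨a, ha⟩
      have h3 : Algebra.adjoin ℂ (Set.range fun j =>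
          σ (algebraMap (IntermediateField.adjoin ℂ (Set.range x)) K (z j))) ≤
          (IsScalarTower.toAlgHom ℂ (IntermediateField.adjoin ℂ (Set.range x)) Ω).range := by
        rw [Algebra.adjoin_le_iff]
        rintro _ ⟨j, rfl⟩
        exact ⟨z j, rfl⟩
      exact h3 ha
    choose f hf using h2
    obtain ⟨φ, hφ⟩ : ∃ φ : Algebra.adjoin ℂ (Set.range fun j =>
        σ (algebraMap (IntermediateField.adjoin ℂ (Set.range x)) K (z j))) →+*
          IntermediateField.adjoin ℂ (Set.range x), ∀ a,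
          algebraMap (IntermediateField.adjoin ℂ (Set.range x)) Ω (φ a) = a := by
      have hi : Function.Injective (algebraMap (IntermediateField.adjoin ℂ (Set.range x)) Ω) :=
        (algebraMap (IntermediateField.adjoin ℂ (Set.range x)) Ω).injective
      exact ⟨{ toFun := f
               map_one' := hi (by rw [hf, map_one]; rfl)
               map_zero' := hi (by rw [hf, map_zero]; rfl)
               map_add' := fun a b => hi (by rw [hf, map_add, hf, hf]; rfl)
               map_mul' := fun a b => hi (by rw [hf, map_mul, hf, hf]; rfl) }, hf⟩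
    have hφi : Function.Injective φ := fun a b hab => Subtype.ext (by
      rw [← hφ a, ← hφ b, hab])
    refine ⟨p.map φ, (Polynomial.map_ne_zero_iff hφi).2 hp0, ?_⟩
    rw [Polynomial.aeval_def, Polynomial.eval₂_map]
    rw [Polynomial.aeval_def] at hp
    have h4 : (algebraMap (IntermediateField.adjoin ℂ (Set.range x)) Ω).comp φ =
        algebraMap (Algebra.adjoin ℂ (Set.range fun j =>
          σ (algebraMap (IntermediateField.adjoin ℂ (Set.range x)) K (z j)))) Ω := by
      ext a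
      exact hφ a
    rw [h4]
    exact hp
  have hclos : IsAlgClosure (IntermediateField.adjoin ℂ (Set.range x)) Ω :=
    ⟨inferInstance, halgΩ⟩
  have hnorm : Normal (IntermediateField.adjoin ℂ (Set.range x)) Ω :=
    IsAlgClosure.normal _ _
  have hmin : minpoly (IntermediateField.adjoin ℂ (Set.range x)) (σ' y) =
      minpoly (IntermediateField.adjoin ℂ (Set.range x)) (τ' y) := by
    rw [minpoly.algHom_eq σ' σ'.injective, minpoly.algHom_eq τ' τ'.injective]
  obtain ⟨θ, hθ⟩ : ∃ θ : Ω ≃ₐ[IntermediateField.adjoin ℂ (Set.range x)] Ω,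
      θ (σ' y) = τ' y := by
    have h1 := IsConjRoot.exists_algEquiv (K := IntermediateField.adjoin ℂ (Set.range x))
      (L := Ω) (x := τ' y) (y := σ' y) (by
        rw [IsConjRoot]
        exact hmin.symm)
    obtain ⟨θ, hθ⟩ := h1
    exact ⟨θ, hθ⟩
  have hθσ : (θ : Ω →ₐ[IntermediateField.adjoin ℂ (Set.range x)] Ω).comp σ' = τ' := hinj hθ
  -- the twisted relation
  let π : (K →ₐ[IntermediateField.adjoin ℂ (Set.range x)] Ω) ≃
      (K →ₐ[IntermediateField.adjoin ℂ (Set.range x)] Ω) :=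
    { toFun := fun ρ => (θ : Ω →ₐ[IntermediateField.adjoin ℂ (Set.range x)] Ω).comp ρ
      invFun := fun ρ => (θ.symm : Ω →ₐ[IntermediateField.adjoin ℂ (Set.range x)] Ω).comp ρ
      left_inv := fun ρ => by ext w; simp
      right_inv := fun ρ => by ext w; simp }
  have hπ : ∀ ρ w, π ρ w = θ (ρ w) := fun ρ w => rfl
  have hrel2 : ∀ j, j + 1 < Module.finrank (IntermediateField.adjoin ℂ (Set.range x)) K →
      ∑ ρ' : K →ₐ[IntermediateField.adjoin ℂ (Set.range x)] Ω,
        (c ((π.symm ρ').restrictScalars ℂ) : Ω) * (ρ' y ^ j * ρ' (ω E')) = 0 := by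
    intro j hj
    rw [← π.sum_comp]
    have h1 := congrArg θ (hrel1 j hj)
    rw [map_sum, map_zero] at h1
    rw [← h1]
    refine Finset.sum_congr rfl fun ρ _ => ?_
    rw [Equiv.symm_apply_apply, hπ, hπ, map_mul, map_mul, map_pow, map_intCast]
  obtain ⟨A, hA⟩ : ∃ A : ℤ, A = c τ := ⟨_, rfl⟩
  obtain ⟨B, hB⟩ : ∃ B : ℤ, B = c σ := ⟨_, rfl⟩
  have hsymm : π.symm τ' = σ' := by
    rw [← hθσ]
    exact π.symm_apply_apply σ'
  have hall : ∀ ρ' : K →ₐ[IntermediateField.adjoin ℂ (Set.range x)] Ω,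
      A * c ((π.symm ρ').restrictScalars ℂ) = B * c (ρ'.restrictScalars ℂ) := by
    intro ρ'
    have hfin := vander hinj (v := fun ρ' : K →ₐ[IntermediateField.adjoin ℂ (Set.range x)] Ω =>
      ((A : Ω) * (c ((π.symm ρ').restrictScalars ℂ) : Ω) -
        (B : Ω) * (c (ρ'.restrictScalars ℂ) : Ω)) * ρ' (ω E')) (fun j hj => by
        rw [hcardT] at hj
        have h1 := hrel1 j hj
        have h2 := hrel2 j hj
        have h3 : ∀ ρ' : K →ₐ[IntermediateField.adjoin ℂ (Set.range x)] Ω, ρ' y ^ j *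
            (((A : Ω) * (c ((π.symm ρ').restrictScalars ℂ) : Ω) -
              (B : Ω) * (c (ρ'.restrictScalars ℂ) : Ω)) * ρ' (ω E')) =
            (A : Ω) * ((c ((π.symm ρ').restrictScalars ℂ) : Ω) * (ρ' y ^ j * ρ' (ω E'))) -
            (B : Ω) * ((c (ρ'.restrictScalars ℂ) : Ω) * (ρ' y ^ j * ρ' (ω E'))) :=
          fun ρ' => by ring
        rw [Finset.sum_congr rfl fun ρ' _ => h3 ρ', Finset.sum_sub_distrib, ← Finset.mul_sum,
          ← Finset.mul_sum, h1, h2, mul_zero, mul_zero, sub_zero]) (τ0 := τ') (by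
          rw [hsymm, hσ', hτ', ← hA, ← hB]
          ring) ρ'
    rcases mul_eq_zero.1 hfin with h7 | h7
    · have h8 := sub_eq_zero.1 h7
      exact_mod_cast h8
    · exact absurd h7 ((map_ne_zero ρ').2 hg)
  -- the sum
  have hsum : A * ∑ ρ' : K →ₐ[IntermediateField.adjoin ℂ (Set.range x)] Ω,
      c (ρ'.restrictScalars ℂ) = B * ∑ ρ' : K →ₐ[IntermediateField.adjoin ℂ (Set.range x)] Ω,
      c (ρ'.restrictScalars ℂ) := by
    have h1 : ∑ ρ' : K →ₐ[IntermediateField.adjoin ℂ (Set.range x)] Ω,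
        c (ρ'.restrictScalars ℂ) = ∑ ρ' : K →ₐ[IntermediateField.adjoin ℂ (Set.range x)] Ω,
          c ((π.symm ρ').restrictScalars ℂ) :=
      (π.symm.sum_comp fun ρ' => c (ρ'.restrictScalars ℂ)).symm
    conv_lhs => rw [h1]
    rw [Finset.mul_sum, Finset.mul_sum]
    exact Finset.sum_congr rfl fun ρ' _ => hall ρ'
  by_cases h0 : ∑ ρ' : K →ₐ[IntermediateField.adjoin ℂ (Set.range x)] Ω,
      c (ρ'.restrictScalars ℂ) = 0
  · have h9 := (Finset.sum_eq_zero_iff_of_nonneg fun ρ' _ => heff (AlgHom.restrictScalars ℂ ρ')).1 h0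
    have h10 := h9 σ' (Finset.mem_univ _)
    have h11 := h9 τ' (Finset.mem_univ _)
    rw [hσ'] at h10
    rw [hτ'] at h11
    rw [h10, h11]
  · have h9 := mul_right_cancel₀ h0 hsum
    rw [← hA, ← hB, h9]

end

end Pool.Agent.R882.ZC
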