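import Pool.Agent.R882.ZD

/-!
Families of zero-cycles with null trace on smooth complete intersections in products of projective
lines.
-/

set_option autoImplicit false
set_option linter.overlappingInstances false
set_option linter.unusedSectionVars false
set_option linter.unusedDecidableInType false
set_option linter.unusedFintypeInType false
set_option maxHeartbeats 4000000
set_option synthInstance.maxHeartbeats 400000

open FF Module MvPolynomial Pool.Agent Pool.Agent.W602.GT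
open Pool.Agent.R882.HL (IsSmooth IsGenericPoint LinesTower)
open Pool.Agent.R882.HT (GenusZero)

namespace Pool.Agent.R882.ZC

section

variable {κ ι : Type} [Fintype ι] [DecidableEq ι] {K Ω : Type} [Field K] [Algebra ℂ K]
  [Field Ω] [Algebra ℂ Ω]

/-- the forms -/
theorem lines_data [Fintype κ] {n : ℕ} (hn : 1 ≤ n)
    (hcard : Fintype.card ι = n + Fintype.card κ) {d : κ → ι → ℕ} {m : ι → ℕ}
    (hm : ∀ i, ∑ k, d k i = m i + 2) (i0 : ι)
    {F : κ → MvPolynomial ι ℂ} (hF : ∀ k i, (F k).degreeOf i ≤ d k i) (hs : IsSmooth d F)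
    {x : ι → K} (hx : IsGenericPoint n F x) :
    Algebra.EssFiniteType ℂ K ∧
    FiniteDimensional (IntermediateField.adjoin ℂ (x '' {i0}ᶜ)) K ∧
    ∃ (N : ℕ) (σ : Fin N ≃ {j // j ≠ i0}) (t : Fin N → K), (∀ a, t a = x (σ a)) ∧
      Set.range t = x '' {i0}ᶜ ∧
      IntermediateField.adjoin (IntermediateField.adjoin ℂ (Set.range t)) {x i0} = ⊤ ∧
      ∃ ω : (Fin n → Derivation ℂ K K) → K, IsPluri 1 ω ∧
        (∀ Z : Fin n → K, IsTranscendenceBasis ℂ Z → ∀ D0 : Fin n → Derivation ℂ K K,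
          (∀ i j, D0 i (Z j) = if i = j then 1 else 0) → ω D0 ≠ 0) ∧
        ∀ M : ℕ, (∀ i, i ≠ i0 → M ≤ m i) →
        ∀ j, j + 1 < Module.finrank (IntermediateField.adjoin ℂ (Set.range t)) K →
          ∀ a : Fin N → ℕ, ∑ l, a l ≤ M → ∀ P : Place ℂ K, Divisorial n P →
            RegAt P (fun D => (∏ l, t l ^ a l) * (x i0 ^ j * ω D)) := by
  classical
  have hessK : Algebra.EssFiniteType ℂ K := by
    rw [← IntermediateField.fg_top_iff]
    exact ⟨Finset.univ.image x, by
      rw [Finset.coe_image, Finset.coe_univ, Set.image_univ, hx.gen]⟩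
  obtain ⟨hfin, -⟩ := Pool.Agent.R882.HL.lines_step (s := 1) hn hcard hm (i0 := i0)
    (fun i _ => Nat.le_add_left 1 (m i)) hF hs hx le_rfl
  refine ⟨hessK, hfin, ?_⟩
  obtain ⟨σ⟩ : Nonempty (Fin (Fintype.card {j // j ≠ i0}) ≃ {j // j ≠ i0}) :=
    ⟨(Fintype.equivFin _).symm⟩
  have hrange : Set.range (fun a => x (σ a)) = x '' {i0}ᶜ := by
    ext w
    constructor
    · rintro ⟨a, rfl⟩
      exact ⟨_, (σ a).2, rfl⟩
    · rintro ⟨j, hj, rfl⟩
      exact ⟨σ.symm ⟨j, hj⟩, by simp⟩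
  have hxE : ∀ j, j ≠ i0 → x j ∈ IntermediateField.adjoin ℂ (Set.range fun a => x (σ a)) := by
    intro j hj
    rw [hrange]
    exact IntermediateField.subset_adjoin ℂ _ ⟨j, hj, rfl⟩
  refine ⟨_, σ, fun a => x (σ a), fun _ => rfl, hrange,
    Pool.Agent.R882.CI.adjoin_top hx.gen hxE, ?_⟩
  have halg : IsAlgebraic (IntermediateField.adjoin ℂ (x '' {i0}ᶜ)) (x i0) :=
    (Algebra.IsIntegral.isIntegral (x i0)).isAlgebraic
  obtain ⟨e, C, hC, hdet⟩ := Pool.Agent.R882.CI.exists_form hs hcard hx.zero hx.gen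
  refine ⟨fun D => (Pool.Agent.R882.CI.cmat e C fun j i => D j (x i)).det,
    Pool.Agent.R882.CI.cmat_pluri e C x, fun Z _ D0 hD0 => hdet D0
      (Pool.Agent.Y184.NT.lift_ind (L := K) (K := K) hD0 fun _ _ => rfl), ?_⟩
  intro M hM j hj a ha P _
  obtain ⟨z, D, hz, hD⟩ := Pool.Agent.Y172.exists_crd (k := ℂ) (K := K) hx.dim
  have hne := hdet D (Pool.Agent.Y184.NT.lift_ind (L := K) (K := K) hD fun _ _ => rfl)
  obtain ⟨k0, hk0⟩ := Pool.Agent.R882.CI.deg_le hx.zero hC hx.gen hne halg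
  have h2 := hF k0 i0
  have h3 : d k0 i0 ≤ ∑ k, d k i0 := Finset.single_le_sum (f := fun k => d k i0)
    (fun _ _ => Nat.zero_le _) (Finset.mem_univ k0)
  have h4 := hm i0
  rw [hrange] at hj
  obtain ⟨e', he'⟩ : ∃ e' : ι → ℕ, e' = fun i => if h : i ≠ i0 then a (σ.symm ⟨i, h⟩) else j :=
    ⟨_, rfl⟩
  have he0 : e' i0 = j := by
    rw [he']
    simp
  have hprod : (∏ l, x (σ l) ^ a l) * x i0 ^ j = ∏ i, x i ^ e' i := by
    rw [Fintype.prod_eq_mul_prod_subtype_ne _ i0, mul_comm, he0]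
    congr 1
    rw [← σ.prod_comp]
    refine Finset.prod_congr rfl fun b _ => ?_
    rw [he']
    simp only
    rw [dif_pos (σ b).2]
    simp
  have h1 := Pool.Agent.R882.CI.ci_reg hF hs e hx.zero hC (a := e') (fun i => by
    rw [hm i]
    by_cases hi : i = i0
    · rw [hi, he0]
      omega
    · have h5 : e' i ≤ M := by
        rw [he']
        simp only
        rw [dif_pos hi]
        exact le_trans (Finset.single_le_sum (f := a) (fun _ _ => Nat.zero_le _)
          (Finset.mem_univ _)) ha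
      have h6 := hM i hi
      omega) P
  have h7 : (fun D : Fin n → Derivation ℂ K K => (∏ l, x (σ l) ^ a l) *
      (x i0 ^ j * (Pool.Agent.R882.CI.cmat e C fun j i => D j (x i)).det)) =
      fun D => (∏ i, x i ^ e' i) *
        (Pool.Agent.R882.CI.cmat e C fun j i => D j (x i)).det := by
    funext D
    rw [← hprod]
    ring
  rw [h7]
  exact h1

/-- **Cycles with null trace, over a base of geometric genus zero.** -/
theorem lines_cycles [Fintype κ] {n : ℕ} (hn : 1 ≤ n)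
    (hcard : Fintype.card ι = n + Fintype.card κ) {d : κ → ι → ℕ} {m : ι → ℕ}
    (hm : ∀ i, ∑ k, d k i = m i + 2) {i0 : ι}
    {F : κ → MvPolynomial ι ℂ} (hF : ∀ k i, (F k).degreeOf i ≤ d k i) (hs : IsSmooth d F)
    {x : ι → K} (hx : IsGenericPoint n F x)
    (hpg : GenusZero (IntermediateField.adjoin ℂ (x '' {i0}ᶜ)) n)
    [IsAlgClosed Ω] (hΩ : Algebra.trdeg ℂ Ω = (n : ℕ)) {c : (K →ₐ[ℂ] Ω) →₀ ℤ}
    (hc : NullTrace n c) [DecidableEq ({j // j ≠ i0} → Ω)]
    (hpos : ∀ i, i ≠ i0 → (c.support.image fun (σ : K →ₐ[ℂ] Ω) (j : {j // j ≠ i0}) =>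
      σ (x j)).card ≤ m i + 1)
    {σ τ : K →ₐ[ℂ] Ω} (h : ∀ i, i ≠ i0 → σ (x i) = τ (x i)) : c σ = c τ := by
  classical
  obtain ⟨hess, hfin, N, π, t, ht, hrange, hy, ω, hω, hne, hreg⟩ := lines_data hn hcard hm i0 hF
    hs hx
  rw [← hrange] at hpg hfin
  obtain ⟨M, hM⟩ : ∃ M, M = (c.support.image fun (σ : K →ₐ[ℂ] Ω) (j : {j // j ≠ i0}) =>
    σ (x j)).card - 1 := ⟨_, rfl⟩
  have himg : (c.support.image fun (σ : K →ₐ[ℂ] Ω) (l : Fin N) => σ (t l)).card ≤
      (c.support.image fun (σ : K →ₐ[ℂ] Ω) (j : {j // j ≠ i0}) => σ (x j)).card := by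
    have h1 : (c.support.image fun (σ : K →ₐ[ℂ] Ω) (l : Fin N) => σ (t l)) =
        (c.support.image fun (σ : K →ₐ[ℂ] Ω) (j : {j // j ≠ i0}) => σ (x j)).image
          fun f l => f (π l) := by
      rw [Finset.image_image]
      refine Finset.image_congr fun σ _ => ?_
      funext l
      rw [ht]
      rfl
    rw [h1]
    exact Finset.card_image_le
  exact step hΩ hx.dim hy hpg hω hne (hreg M fun i hi => by
    have := hpos i hi
    omega) hc (by omega) fun l => by
      rw [ht]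
      exact h _ (π l).2

/-- **Towers.** -/
theorem lines_tower {n : ℕ} (hn : 1 ≤ n) {Base : ∀ (K : Type) [Field K] [Algebra ℂ K], Prop}
    {K : Type} [Field K] [Algebra ℂ K] {s : ℕ} (h : LinesTower n Base K s)
    [IsAlgClosed Ω] (hΩ : Algebra.trdeg ℂ Ω = (n : ℕ)) : Algebra.trdeg ℂ K = (n : ℕ) →
    ∀ c : (K →ₐ[ℂ] Ω) →₀ ℤ, (∀ σ, 0 ≤ c σ) → NullTrace n c → c.support.card ≤ s →
      PulledBack Base c := by
  classical
  induction h with
  | @base K i1 i2 s h =>
    intro _ c _ _ _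
    exact ⟨K, i1, i2, Algebra.id K, inferInstance, inferInstance, h, fun σ τ hστ => by
      rw [show σ = τ from AlgHom.ext hστ]⟩
  | @cover K _ _ s q F d deg m canonical smooth x point i0 positive below ih =>
    intro hK c heff hc hs
    obtain ⟨hess, hfin, N, π, t, ht, hrange, hy, ω, hω, hne, hreg⟩ := lines_data hn (by simp)
      canonical i0 deg smooth point
    have hfin' : FiniteDimensional (IntermediateField.adjoin ℂ (Set.range t)) K := by
      rw [hrange]
      exact hfin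
    have hM : ∀ i, i ≠ i0 → s - 1 ≤ m i := fun i hi => by
      have := positive i hi
      omega
    have hconst : ∀ σ τ : K →ₐ[ℂ] Ω, (∀ e : IntermediateField.adjoin ℂ (x '' {i0}ᶜ),
        σ (algebraMap _ K e) = τ (algebraMap _ K e)) → c σ = c τ := by
      intro σ τ hστ
      refine step_eff hΩ hK hy hω hne (hreg (s - 1) hM) hc heff ?_ fun l => ?_
      · refine le_trans Finset.card_image_le ?_
        omega
      · rw [ht]
        exact hστ ⟨x (π l), IntermediateField.subset_adjoin ℂ _ ⟨_, (π l).2, rfl⟩⟩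
    obtain ⟨c1, hn1, h1, h2, h3⟩ := descend hK (IntermediateField.adjoin ℂ (x '' {i0}ᶜ)) hc hconst
    have hb : 0 < Module.finrank (IntermediateField.adjoin ℂ (x '' {i0}ᶜ)) K :=
      Module.finrank_pos
    refine pulledBack_of _ h1 (ih (Pool.Agent.Y184.NT.trdeg_below (K := K) hK) c1
      (fun q => ?_) hn1 ?_)
    · obtain ⟨σ, hσ⟩ := h2 q
      rw [hσ]
      exact heff σ
    · rw [Nat.le_div_iff_mul_le hb, ← h3]
      exact hs

end

end Pool.Agent.R882.ZC
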