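import Pool.Agent.R882.ZD

/-!
Families of zero-cycles with null trace on nondegenerate complete intersections in tori.
-/

set_option autoImplicit false
set_option linter.overlappingInstances false
set_option linter.unusedSectionVars false
set_option linter.unusedDecidableInType false
set_option linter.unusedFintypeInType false
set_option maxHeartbeats 4000000
set_option synthInstance.maxHeartbeats 400000

open FF Module Pool.Agent Pool.Agent.W602.GT
open Pool.Agent.R882.HT (GenusZero Nondegenerate IsTorusPoint InFine)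

namespace Pool.Agent.R882.ZC

section

variable {K Ω : Type} [Field K] [Algebra ℂ K] [Field Ω] [Algebra ℂ Ω]

/-- There is a column of length `b - 1` and of width `M` in the Fine interior, in the direction
`v`. -/
def HasColumn {m q N : ℕ} (f : Fin q → (Fin m → ℤ) →₀ ℂ) (v : Fin m → ℤ)
    (w : Fin N → Fin m → ℤ) (b M : ℕ) : Prop :=
  ∃ u : Fin m → ℤ, ∀ j, j + 1 < b →
    InFine f (u + (j : ℤ) • v) ∧ ∀ l, InFine f (u + (j : ℤ) • v + (M : ℤ) • w l)

/-- the forms -/
theorem torus_data {n q N : ℕ} {f : Fin q → (Fin (n + q) → ℤ) →₀ ℂ}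
    (hf : Nondegenerate f) {x : Fin (n + q) → K} (hx : IsTorusPoint f x)
    (hK : Algebra.trdeg ℂ K = (n : ℕ)) {v : Fin (n + q) → ℤ} {w : Fin N → Fin (n + q) → ℤ}
    {t : Fin N → K} (ht : ∀ l, t l = R885.mono x (w l)) {b M : ℕ} (hcol : HasColumn f v w b M) :
    Algebra.EssFiniteType ℂ K ∧
      ∃ ω : (Fin n → Derivation ℂ K K) → K, (1 < b → IsPluri 1 ω) ∧
        (∀ Z : Fin n → K, IsTranscendenceBasis ℂ Z → ∀ D0 : Fin n → Derivation ℂ K K,
          (∀ i j, D0 i (Z j) = if i = j then 1 else 0) → ω D0 ≠ 0) ∧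
        ∀ j, j + 1 < b → ∀ a : Fin N → ℕ, ∑ l, a l ≤ M → ∀ P : Place ℂ K, Divisorial n P →
            RegAt P (fun D => (∏ l, t l ^ a l) * (R885.mono x v ^ j * ω D)) := by
  classical
  have hess : Algebra.EssFiniteType ℂ K := by
    rw [← IntermediateField.fg_top_iff, ← hx.2.2]
    exact ⟨Finset.univ.image x, by rw [Finset.coe_image, Finset.coe_univ, Set.image_univ]⟩
  have e : Fin q ⊕ Fin n ≃ Fin (n + q) := Fintype.equivOfCardEq (by
    rw [Fintype.card_sum, Fintype.card_fin, Fintype.card_fin, Fintype.card_fin, add_comm])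
  obtain ⟨Ω', hΩ', hne⟩ := Pool.Agent.R882.LT.exists_twisted_col (w := w) hK hx.1 hx.2.2 e hx.2.1
    (fun v => hf v)
  have htE : t = fun l => R885.mono x (w l) := funext ht
  rw [← htE] at hΩ'
  obtain ⟨u, hu⟩ := hcol
  refine ⟨hess, fun D => R885.mono x u * Ω' D, fun hb => ?_, fun Z hZ D0 hD0 =>
    mul_ne_zero (R885.mono_ne hx.1 _) (hne Z hZ D0 hD0), fun j hj a ha P hP => ?_⟩
  · obtain ⟨h1, h2⟩ := hu 0 (by omega)
    have h3 := (hΩ' M (u + ((0 : ℕ) : ℤ) • v) h1 h2).1
    rw [Nat.cast_zero, zero_smul, add_zero] at h3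
    exact h3
  · obtain ⟨h1, h2⟩ := hu j hj
    have h3 := (hΩ' M _ h1 h2).2 a ha P hP
    have hform : (fun D : Fin n → Derivation ℂ K K => (∏ l, t l ^ a l) *
        (R885.mono x v ^ j * (R885.mono x u * Ω' D))) =
        fun D => (∏ l, t l ^ a l) * (R885.mono x (u + (j : ℤ) • v) * Ω' D) := by
      funext D
      rw [R885.mono_add hx.1, R885.mono_zsmul, zpow_natCast]
      ring
    rw [hform]
    exact h3

/-- an extension of degree one -/
theorem const_of_one {N : ℕ} {t : Fin N → K}
    [FiniteDimensional (IntermediateField.adjoin ℂ (Set.range t)) K]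
    (hb : ¬ 1 < Module.finrank (IntermediateField.adjoin ℂ (Set.range t)) K)
    {σ τ : K →ₐ[ℂ] Ω} (h : ∀ l, σ (t l) = τ (t l)) : σ = τ := by
  have h0 : 0 < Module.finrank (IntermediateField.adjoin ℂ (Set.range t)) K :=
    Module.finrank_pos
  have h1 : IntermediateField.adjoin ℂ (Set.range t) = ⊤ :=
    IntermediateField.finrank_eq_one_iff_eq_top.1 (by omega)
  apply AlgHom.ext
  intro g
  refine agree h ?_
  rw [h1]
  trivial

/-- **Cycles with null trace, over a base of geometric genus zero.** -/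
theorem torus_cycles {n q N : ℕ} {f : Fin q → (Fin (n + q) → ℤ) →₀ ℂ}
    (hf : Nondegenerate f) {x : Fin (n + q) → K} (hx : IsTorusPoint f x)
    (hK : Algebra.trdeg ℂ K = (n : ℕ)) {v : Fin (n + q) → ℤ} {w : Fin N → Fin (n + q) → ℤ}
    {t : Fin N → K} (ht : ∀ l, t l = R885.mono x (w l))
    [FiniteDimensional (IntermediateField.adjoin ℂ (Set.range t)) K]
    (hy : IntermediateField.adjoin (IntermediateField.adjoin ℂ (Set.range t))
      {R885.mono x v} = ⊤) {M : ℕ}
    (hcol : HasColumn f v w (Module.finrank (IntermediateField.adjoin ℂ (Set.range t)) K) M)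
    (hpg : GenusZero (IntermediateField.adjoin ℂ (Set.range t)) n)
    [IsAlgClosed Ω] (hΩ : Algebra.trdeg ℂ Ω = (n : ℕ)) {c : (K →ₐ[ℂ] Ω) →₀ ℤ}
    (hc : NullTrace n c) [DecidableEq (Fin N → Ω)]
    (hpos : (c.support.image fun (σ : K →ₐ[ℂ] Ω) (l : Fin N) => σ (t l)).card ≤ M + 1)
    {σ τ : K →ₐ[ℂ] Ω} (h : ∀ l, σ (t l) = τ (t l)) : c σ = c τ := by
  classical
  obtain ⟨hess, ω, hω, hne, hreg⟩ := torus_data hf hx hK ht hcol
  by_cases hb : 1 < Module.finrank (IntermediateField.adjoin ℂ (Set.range t)) K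
  · exact step hΩ hK hy hpg (hω hb) hne hreg hc hpos h
  · rw [const_of_one hb h]

/-- `K` is the function field of the first variety of a tower of varieties of dimension `n`, with
columns of width at least `s - 1`, over a variety with the property `Base`: either `K` has the
property `Base`, or it is the function field of a component, with generic point `x`, of a
nondegenerate complete intersection in a torus, and, for the subfield `ℂ(t)` generated by the
monomials `t l = x ^ (w l)`, with `K = ℂ(t)(x ^ v)` of degree `b` over `ℂ(t)`, there is a column of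
length `b - 1` and of width `M`, `s ≤ M + 1`, in the Fine interior, and `ℂ(t)` is the function field
of the first variety of a tower for `s / b`. -/
inductive ColumnTower (n : ℕ) (Base : ∀ (K : Type) [Field K] [Algebra ℂ K], Prop) :
    ∀ (K : Type) [Field K] [Algebra ℂ K], ℕ → Prop
  | base {K : Type} [Field K] [Algebra ℂ K] {s : ℕ} (h : Base K) : ColumnTower n Base K s
  | cover {K : Type} [Field K] [Algebra ℂ K] {s q N M : ℕ}
      (f : Fin q → (Fin (n + q) → ℤ) →₀ ℂ)
      (nondeg : Nondegenerate f) (x : Fin (n + q) → K) (point : IsTorusPoint f x)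
      (v : Fin (n + q) → ℤ) (w : Fin N → Fin (n + q) → ℤ) (t : Fin N → K)
      (mono : ∀ l, t l = R885.mono x (w l))
      (fin : FiniteDimensional (IntermediateField.adjoin ℂ (Set.range t)) K)
      (prim : IntermediateField.adjoin (IntermediateField.adjoin ℂ (Set.range t))
        {R885.mono x v} = ⊤)
      (col : HasColumn f v w
        (Module.finrank (IntermediateField.adjoin ℂ (Set.range t)) K) M)
      (width : s ≤ M + 1)
      (below : ColumnTower n Base (IntermediateField.adjoin ℂ (Set.range t))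
        (s / Module.finrank (IntermediateField.adjoin ℂ (Set.range t)) K)) :
      ColumnTower n Base K s

/-- **Towers.** -/
theorem torus_tower {n : ℕ} {Base : ∀ (K : Type) [Field K] [Algebra ℂ K], Prop}
    {K : Type} [Field K] [Algebra ℂ K] {s : ℕ} (h : ColumnTower n Base K s)
    [IsAlgClosed Ω] (hΩ : Algebra.trdeg ℂ Ω = (n : ℕ)) : Algebra.trdeg ℂ K = (n : ℕ) →
    ∀ c : (K →ₐ[ℂ] Ω) →₀ ℤ, (∀ σ, 0 ≤ c σ) → NullTrace n c → c.support.card ≤ s →
      PulledBack Base c := by
  classical
  induction h with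
  | @base K i1 i2 s h =>
    intro _ c _ _ _
    exact ⟨K, i1, i2, Algebra.id K, inferInstance, inferInstance, h, fun σ τ hστ => by
      rw [show σ = τ from AlgHom.ext hστ]⟩
  | @cover K _ _ s q N M f nondeg x point v w t mono fin prim col width below ih =>
    intro hK c heff hc hs
    obtain ⟨hess, ω, hω, hne, hreg⟩ := torus_data nondeg point hK mono col
    have hconst : ∀ σ τ : K →ₐ[ℂ] Ω, (∀ e : IntermediateField.adjoin ℂ (Set.range t),
        σ (algebraMap _ K e) = τ (algebraMap _ K e)) → c σ = c τ := by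
      intro σ τ hστ
      have hst : ∀ l, σ (t l) = τ (t l) := fun l =>
        hστ ⟨t l, IntermediateField.subset_adjoin ℂ _ ⟨l, rfl⟩⟩
      by_cases hb : 1 < Module.finrank (IntermediateField.adjoin ℂ (Set.range t)) K
      · refine step_eff hΩ hK prim (hω hb) hne hreg hc heff ?_ hst
        exact le_trans Finset.card_image_le (by omega)
      · rw [const_of_one hb hst]
    obtain ⟨c1, hn1, h1, h2, h3⟩ := descend hK (IntermediateField.adjoin ℂ (Set.range t)) hc hconst
    have hb : 0 < Module.finrank (IntermediateField.adjoin ℂ (Set.range t)) K :=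
      Module.finrank_pos
    refine pulledBack_of _ h1 (ih (Pool.Agent.Y184.NT.trdeg_below (K := K) hK) c1
      (fun q => ?_) hn1 ?_)
    · obtain ⟨σ, hσ⟩ := h2 q
      rw [hσ]
      exact heff σ
    · rw [Nat.le_div_iff_mul_le hb, ← h3]
      exact hs

end

end Pool.Agent.R882.ZC
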